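import Mathlib

/-!
# The exponent b / sqrt (log log N)
-/

set_option autoImplicit false

noncomputable section

namespace Pool.A2F

/-- The exponent b / sqrt (log log N). -/
def ex (b : ℝ) (N : ℕ) : ℝ := b / Real.sqrt (Real.log (Real.log N))

end Pool.A2F
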