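import Pool.Agent.A2F.UminE
import Pool.Agent.A2F.Ex

/-!
# Module Umin: the sharp upper bound for negative moments
-/

set_option autoImplicit false

open MeasureTheory Finset
open scoped ENNReal NNReal

noncomputable section

namespace Pool.A2F

namespace Um

open Filter

/-- everything which is needed of `L = log log N` -/
structure Big (Θ b a0 q A CU C ε L : ℝ) : Prop where
  ge : 2 * Θ + 8 ≤ L
  a1 : aL b L ≤ 1
  le_a0 : aL b L ≤ a0
  F1 : FL L ≤ L ^ 6 * (1 + 1 / L)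
  F2 : L ^ 6 ≤ FL L
  main : gaL b L * (FL L / L ^ 6) * Real.log (Real.exp L + (2 * Θ + 2)) ≤ aL b L * (aL b L + 1) / 2 * L + ε / 4
  log : Real.log (Real.exp L + (2 * Θ + 2)) ≤ L + 1 / L
  cr1 : 1 ≤ crL b a0 q A CU L
  cr2 : crL b a0 q A CU L ≤ Real.exp (L / 8)
  B1 : 1 ≤ BL b a0 q A CU Θ L
  B2 : BL b a0 q A CU Θ L ≤ Real.exp (ε / 4)
  small : 300 / Real.exp (L ^ 2)
    + 4 * (1 / (1 / L) * Real.exp (-((1 / L) ^ 2 / (2 * (6 / L ^ 6))))) ≤ Real.exp (-2 * L)
  p12 : L ^ 12 ≤ 1 / 8 * Real.exp (1 * L)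
  p12' : L ^ 12 ≤ 1 / 6 * Real.exp (1 / 4 * L)
  p3 : L ^ 3 ≤ 1 * Real.exp (1 / 8 * L)
  err : L ^ 1 ≤ ε / (4 * (15 + 80 * C)) * Real.exp (3 / 8 * L)

lemma ev_big {Θ b a0 q A CU C ε : ℝ} (hΘ : 0 ≤ Θ) (hb : 0 < b) (ha0 : 0 < a0) (hq : 0 < q) (hA : 1 ≤ A)
    (hCU : 0 < CU) (hC : 0 < C) (hε : 0 < ε) : ∀ᶠ L : ℝ in atTop, Big Θ b a0 q A CU C ε L := by
  filter_upwards [eventually_ge_atTop (2 * Θ + 8), ev_aL_lt b one_pos, ev_aL_lt b ha0, FL_le,
    ev_main hb (c := 2 * Θ + 2) (by positivity) (ε := ε / 4) (by positivity), ev_log_le (c := 2 * Θ + 2) (by positivity),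
    ev_cr hb ha0 hq hA hCU, ev_B hb ha0 hq hA hCU hΘ (ε := ε / 4) (by positivity), ev_small,
    ev_pow_le 12 one_pos (C := 1 / 8) (by norm_num), ev_pow_le 12 (c := 1 / 4) (by norm_num) (C := 1 / 6) (by norm_num),
    ev_pow_le 3 (c := 1 / 8) (by norm_num) one_pos,
    ev_pow_le 1 (c := 3 / 8) (by norm_num) (C := ε / (4 * (15 + 80 * C))) (by positivity)]
    with L h1 h2 h3 h4 h5 h6 h7 h8 h9 h10 h11 h12 h13
  exact ⟨h1, h2.le, h3.le, h4.1, h4.2, h5, h6, h7.1, h7.2, h8.1, h8.2, h9, h10, h11, h12, h13⟩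

variable {G : Type} [Fintype G] [DecidableEq G] [AddCommGroup G]
variable {p : G → ℝ≥0} {m : Measure ℝ≥0} {s C4 : ℝ}

/-- the bound for one exponent from the crude bound -/
lemma crude_pow (hm : Law m s C4) {a a0 q A : ℝ} (ha : 0 < a) (ha0 : a ≤ a0) (hq : 0 < q) (hA : 1 ≤ A) {N : ℕ}
    (hs : 0 < s) {W : G → ℝ≥0} (h : (TT p m)^[N] (nm a0) W ≤ ENNReal.ofReal (A * (1 + KK p s N W) ^ q)) {K : ℝ}
    (hK : KK p s N W ≤ K) : (TT p m)^[N] (nm a) W ≤ ENNReal.ofReal ((A * (1 + K) ^ q) ^ (a / a0)) := by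
  have := hm.prob
  have hK0 := KK_nonneg (p := p) hs.le N W
  have h0 : 0 < a0 := ha.trans_le ha0
  refine (TTn_nm_le ha ha0 N W).trans ?_
  have h1 : (TT p m)^[N] (nm a0) W ≤ ENNReal.ofReal (A * (1 + K) ^ q) := by
    refine h.trans (ENNReal.ofReal_le_ofReal ?_)
    exact mul_le_mul_of_nonneg_left (Real.rpow_le_rpow (by linarith) (by linarith) hq.le) (by linarith)
  refine (ENNReal.rpow_le_rpow h1 (by positivity)).trans (le_of_eq ?_)
  refine ENNReal.ofReal_rpow_of_pos ?_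
  have : 0 < 1 + K := by linarith
  positivity

/-- the error terms -/
lemma errors {Θ b a0 q A CU C ε L : ℝ} (hΘ : 0 ≤ Θ) (hb : 0 < b) (hC : 0 < C) (hε : 0 < ε)
    (h : Big Θ b a0 q A CU C ε L) {n x σ : ℝ} (hn : n ≤ 2 * Real.exp L) (hx0 : 0 ≤ x)
    (hx : x ≤ Real.log (Real.exp L + (2 * Θ + 2))) (hσ0 : 0 ≤ σ) (hσ : σ ≤ 2 * Real.exp (-(L / 2))) :
    (gaL b L * (FL L / L ^ 6) * x + n * (crL b a0 q A CU L * (300 / Real.exp (L ^ 2)
        + 4 * (1 / (1 / L) * Real.exp (-((1 / L) ^ 2 / (2 * (6 / L ^ 6)))))))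
      + 8 * C * σ * crL b a0 q A CU L * (FL L / L ^ 6) * x)
      + (gaL b L * Real.exp (-(3 / 4 * L)) + crL b a0 q A CU L * (300 / Real.exp (L ^ 2)
        + 4 * (Real.exp (-(3 / 4 * L)) / (1 / L) ^ 2 / (1 / L)) + 8 * C * σ * Real.exp (-(3 / 4 * L))))
      ≤ aL b L * (aL b L + 1) / 2 * L + ε / 2 := by
  have hL8 : 8 ≤ L := by linarith [h.ge]
  have hL : 0 < L := by linarith
  have ha : 0 < aL b L := div_pos hb (Real.sqrt_pos.2 hL)
  have hg : 0 ≤ gaL b L := by
    unfold gaL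
    have : 0 < (1 - 2 * (1 / L))⁻¹ := by
      refine inv_pos.2 ?_
      have : 2 * (1 / L) ≤ 1 / 4 := by
        rw [mul_one_div, div_le_div_iff₀ hL (by norm_num)]
        linarith
      linarith
    positivity
  have hg8 : gaL b L ≤ 8 := by
    unfold gaL
    have h1 : 2 * (1 / L) ≤ 1 / 4 := by
      rw [mul_one_div, div_le_div_iff₀ hL (by norm_num)]
      linarith
    have h2 : (1 - 2 * (1 / L))⁻¹ ≤ 2 := by
      rw [inv_le_comm₀ (by linarith) (by norm_num)]
      linarith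
    have h3 : 0 < (1 - 2 * (1 / L))⁻¹ := inv_pos.2 (by linarith)
    have h4 : (1 - 2 * (1 / L))⁻¹ ^ 3 ≤ 2 ^ 3 := pow_le_pow_left₀ h3.le h2 3
    have h5 : aL b L * (aL b L + 1) / 2 ≤ 1 := by
      have h6 := h.a1
      have h7 : aL b L * (aL b L + 1) ≤ 1 * (1 + 1) := mul_le_mul h6 (by linarith) (by linarith) (by norm_num)
      linarith
    calc aL b L * (aL b L + 1) / 2 * (1 - 2 * (1 / L))⁻¹ ^ 3 ≤ 1 * 2 ^ 3 := mul_le_mul h5 h4 (by positivity) (by norm_num)
      _ = 8 := by norm_num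
  set g := gaL b L with hgdef
  set F := FL L / L ^ 6 with hF
  set c := crL b a0 q A CU L with hc
  set Z := 300 / Real.exp (L ^ 2) + 4 * (1 / (1 / L) * Real.exp (-((1 / L) ^ 2 / (2 * (6 / L ^ 6))))) with hZ
  have hZ0 : 0 ≤ Z := by positivity
  have hF0 : 0 ≤ F := by
    have := h.F2
    have h6 : 0 ≤ FL L := le_trans (by positivity) this
    positivity
  have hF2 : F ≤ 2 := by
    rw [hF, div_le_iff₀ (by positivity)]
    have h1 := h.F1
    have h2 : 1 / L ≤ 1 := by
      rw [div_le_one hL]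
      linarith
    have h3 : 0 < L ^ 6 := by positivity
    calc FL L ≤ L ^ 6 * (1 + 1 / L) := h1
      _ ≤ L ^ 6 * 2 := mul_le_mul_of_nonneg_left (by linarith) h3.le
      _ = 2 * L ^ 6 := by ring
  have hc0 : 0 < c := by linarith [h.cr1]
  have hx2 : x ≤ 2 * L := by
    refine (hx.trans h.log).trans ?_
    have h2 : 1 / L ≤ 1 := by
      rw [div_le_one hL]
      linarith
    linarith
  -- exponentials
  set u := Real.exp (-(3 / 8 * L)) with hu
  have hu0 : 0 < u := Real.exp_pos _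
  have e_n : n * (c * Z) ≤ 2 * u := by
    calc n * (c * Z) ≤ 2 * Real.exp L * (Real.exp (L / 8) * Real.exp (-2 * L)) :=
          mul_le_mul hn (mul_le_mul h.cr2 h.small hZ0 (Real.exp_pos _).le) (by positivity) (by positivity)
      _ = 2 * Real.exp (L + (L / 8 + -2 * L)) := by
          rw [Real.exp_add, Real.exp_add]
          ring
      _ ≤ 2 * u := by
          refine mul_le_mul_of_nonneg_left (Real.exp_le_exp.2 ?_) (by norm_num)
          linarith
  have e_s : 8 * C * σ * c * F * x ≤ 64 * C * L * u := by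
    calc 8 * C * σ * c * F * x ≤ 8 * C * (2 * Real.exp (-(L / 2))) * Real.exp (L / 8) * 2 * (2 * L) := by
          have h1 := h.cr2
          gcongr
      _ = 64 * C * L * Real.exp (-(L / 2) + L / 8) := by
          rw [Real.exp_add]
          ring
      _ ≤ 64 * C * L * u := by
          refine mul_le_mul_of_nonneg_left (Real.exp_le_exp.2 ?_) (by positivity)
          linarith
  have e_g : g * Real.exp (-(3 / 4 * L)) ≤ 8 * u := by
    refine mul_le_mul hg8 (Real.exp_le_exp.2 ?_) (Real.exp_pos _).le (by norm_num)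
    linarith
  have e_1 : c * (300 / Real.exp (L ^ 2)) ≤ u := by
    have h1 : 300 / Real.exp (L ^ 2) ≤ Real.exp (-2 * L) := by
      refine le_trans ?_ h.small
      have : 0 ≤ 4 * (1 / (1 / L) * Real.exp (-((1 / L) ^ 2 / (2 * (6 / L ^ 6))))) := by positivity
      linarith
    calc c * (300 / Real.exp (L ^ 2)) ≤ Real.exp (L / 8) * Real.exp (-2 * L) :=
          mul_le_mul h.cr2 h1 (by positivity) (Real.exp_pos _).le
      _ ≤ u := by
          rw [← Real.exp_add]
          refine Real.exp_le_exp.2 ?_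
          linarith
  have e_2 : c * (4 * (Real.exp (-(3 / 4 * L)) / (1 / L) ^ 2 / (1 / L))) ≤ 4 * u := by
    have h1 : Real.exp (-(3 / 4 * L)) / (1 / L) ^ 2 / (1 / L) = Real.exp (-(3 / 4 * L)) * L ^ 3 := by
      field_simp
    rw [h1]
    calc c * (4 * (Real.exp (-(3 / 4 * L)) * L ^ 3)) ≤
          Real.exp (L / 8) * (4 * (Real.exp (-(3 / 4 * L)) * (1 * Real.exp (1 / 8 * L)))) := by
          have h2 := h.cr2
          have h3 := h.p3
          gcongr
      _ = 4 * Real.exp (L / 8 + (-(3 / 4 * L) + 1 / 8 * L)) := by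
          rw [Real.exp_add, Real.exp_add]
          ring
      _ ≤ 4 * u := by
          refine mul_le_mul_of_nonneg_left (Real.exp_le_exp.2 ?_) (by norm_num)
          linarith
  have e_3 : c * (8 * C * σ * Real.exp (-(3 / 4 * L))) ≤ 16 * C * L * u := by
    calc c * (8 * C * σ * Real.exp (-(3 / 4 * L))) ≤
          Real.exp (L / 8) * (8 * C * (2 * Real.exp (-(L / 2))) * Real.exp (-(3 / 4 * L))) := by
          have h2 := h.cr2
          gcongr
      _ = 16 * C * 1 * Real.exp (L / 8 + (-(L / 2) + -(3 / 4 * L))) := by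
          rw [Real.exp_add, Real.exp_add]
          ring
      _ ≤ 16 * C * L * u := by
          refine mul_le_mul (mul_le_mul_of_nonneg_left (by linarith) (by positivity)) (Real.exp_le_exp.2 ?_)
            (Real.exp_pos _).le (by positivity)
          linarith
  have e_main : g * F * x ≤ aL b L * (aL b L + 1) / 2 * L + ε / 4 :=
    (mul_le_mul_of_nonneg_left hx (by positivity)).trans h.main
  have e_u : (15 + 80 * C) * (L * u) ≤ ε / 4 := by
    have h1 := h.err
    rw [pow_one] at h1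
    have h2 : L * u ≤ ε / (4 * (15 + 80 * C)) := by
      calc L * u ≤ ε / (4 * (15 + 80 * C)) * Real.exp (3 / 8 * L) * u := mul_le_mul_of_nonneg_right h1 hu0.le
        _ = ε / (4 * (15 + 80 * C)) * (Real.exp (3 / 8 * L) * u) := by ring
        _ = ε / (4 * (15 + 80 * C)) := by
            rw [hu, ← Real.exp_add]
            simp
    calc (15 + 80 * C) * (L * u) ≤ (15 + 80 * C) * (ε / (4 * (15 + 80 * C))) := mul_le_mul_of_nonneg_left h2 (by positivity)
      _ = ε / 4 := by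
          field_simp
  have hLu : u ≤ L * u := le_mul_of_one_le_left hu0.le (by linarith)
  have hsum : (g * F * x + n * (c * Z) + 8 * C * σ * c * F * x) + (g * Real.exp (-(3 / 4 * L))
      + c * (300 / Real.exp (L ^ 2) + 4 * (Real.exp (-(3 / 4 * L)) / (1 / L) ^ 2 / (1 / L))
        + 8 * C * σ * Real.exp (-(3 / 4 * L)))) ≤ (aL b L * (aL b L + 1) / 2 * L + ε / 4) + (2 * u + 64 * C * L * u + 8 * u
        + u + 4 * u + 16 * C * L * u) := by
    have e5 : c * (300 / Real.exp (L ^ 2) + 4 * (Real.exp (-(3 / 4 * L)) / (1 / L) ^ 2 / (1 / L))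
        + 8 * C * σ * Real.exp (-(3 / 4 * L))) = c * (300 / Real.exp (L ^ 2))
        + c * (4 * (Real.exp (-(3 / 4 * L)) / (1 / L) ^ 2 / (1 / L))) + c * (8 * C * σ * Real.exp (-(3 / 4 * L))) := by
      ring
    rw [e5]
    linarith
  refine hsum.trans ?_
  have e6 : 2 * u + 64 * C * L * u + 8 * u + u + 4 * u + 16 * C * L * u ≤ (15 + 80 * C) * (L * u) := by
    have e7 : 2 * u + 64 * C * L * u + 8 * u + u + 4 * u + 16 * C * L * u = 15 * u + 80 * C * (L * u) := by ring
    have e8 : (15 + 80 * C) * (L * u) = 15 * (L * u) + 80 * C * (L * u) := by ring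
    rw [e7, e8]
    linarith
  linarith

end Um

open Um in
/-- (U-): E Z^(-a) <= exp (a (a+1)/2 loglog N + eps), a = b / sqrt (loglog N). -/
theorem umin (Θ C4 b ε : ℝ) (hΘ : 0 ≤ Θ) (hb : 0 < b) (hε : 0 < ε) :
    ∃ N0 : ℕ, ∀ N ≥ N0, ∀ s : ℝ, Win Θ N s →
    ∀ {G : Type} [Fintype G] [DecidableEq G] [AddCommGroup G] (p : G → ℝ≥0) (m : Measure ℝ≥0),
      Walk p (4 * N) → Law m s C4 →
        (TT p m)^[N] (nm (ex b N)) (dl : G → ℝ≥0)
          ≤ ENNReal.ofReal (Real.exp (ex b N * (ex b N + 1) / 2 * Real.log (Real.log N) + ε)) := by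
  obtain ⟨cU, CU, _, hCU, N1, hF⟩ := win_facts Θ hΘ
  obtain ⟨N2, hsc⟩ := exists_scale Θ hΘ
  obtain ⟨a0, q, A, ha0, _, hq, _, hA, N3, hcrude⟩ := crude Θ C4 hΘ
  obtain ⟨C, hC, hov⟩ := overshoot C4
  have hT : Filter.Tendsto (fun N : ℕ => Real.log (Real.log N)) Filter.atTop Filter.atTop :=
    Real.tendsto_log_atTop.comp (Real.tendsto_log_atTop.comp tendsto_natCast_atTop_atTop)
  obtain ⟨N4, hN4⟩ := Filter.eventually_atTop.1 (hT.eventually (ev_big hΘ hb ha0 hq hA hCU hC hε))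
  refine ⟨max (max N1 N2) (max N3 N4), fun N hN s hwin G _ _ _ p m hw hm => ?_⟩
  have hNN1 : N1 ≤ N := le_trans (le_trans (le_max_left _ _) (le_max_left _ _)) hN
  have hNN2 : N2 ≤ N := le_trans (le_trans (le_max_right _ _) (le_max_left _ _)) hN
  have hNN3 : N3 ≤ N := le_trans (le_trans (le_max_left _ _) (le_max_right _ _)) hN
  have hNN4 : N4 ≤ N := le_trans (le_trans (le_max_right _ _) (le_max_right _ _)) hN
  have F := hF N hNN1 s hwin
  have hB := hN4 N hNN4
  have hs := hm.s_pos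
  have hprob := hm.prob
  set L := Real.log (Real.log N) with hL
  have hex : ex b N = aL b L := rfl
  rw [hex]
  have hL8 : 8 ≤ L := by linarith [hB.ge]
  have hL0 : 0 < L := by linarith
  have hlogN : Real.exp L = Real.log N := by
    rw [hL, Real.exp_log]
    by_contra hcon
    have h1 : Real.log (N : ℝ) ≤ 0 := not_lt.1 hcon
    have hN3' := F.N_pos
    have h2 : (1 : ℝ) < N := by exact_mod_cast (by omega : 1 < N)
    exact absurd (Real.log_pos h2) hcon
  have ha : 0 < aL b L := div_pos hb (Real.sqrt_pos.2 hL0)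
  set a := aL b L with haL
  -- parameters
  set M := Real.exp (L ^ 2) with hM
  have hM1 : 1 ≤ M := Real.one_le_exp (by positivity)
  have hM0 : 0 < M := by linarith
  set D := L ^ 6 with hD
  set R := L ^ 12 with hR
  have hLD : L ≤ D := by
    have : L ^ 1 ≤ L ^ 6 := pow_le_pow_right₀ (by linarith) (by norm_num)
    rwa [pow_one] at this
  have hLR : L ≤ R := by
    have : L ^ 1 ≤ L ^ 12 := pow_le_pow_right₀ (by linarith) (by norm_num)
    rwa [pow_one] at this
  have hDR : D * D = R := by rw [hD, hR]; ring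
  have hFL : FL L = 2 * Real.log (1 + M) + 6 + D := rfl
  have hF2D : FL L ≤ 2 * D := by
    have h1 := hB.F1
    have h2 : 1 / L ≤ 1 := by
      rw [div_le_one hL0]
      linarith
    have h3 : 0 < D := by linarith
    calc FL L ≤ D * (1 + 1 / L) := h1
      _ ≤ D * 2 := mul_le_mul_of_nonneg_left (by linarith) h3.le
      _ = 2 * D := by ring
  have hD0 : 0 < D := by linarith
  have hR0 : 0 < R := by linarith
  have h2DR : 2 * D ≤ R := by
    rw [← hDR]
    exact mul_le_mul_of_nonneg_right (by linarith) hD0.le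
  have hρ0u := F.rho0_le
  have hρ0l := F.le_rho0
  rw [← hlogN] at hρ0u hρ0l
  have hexpL : R ≤ 1 / 8 * Real.exp L := by
    have := hB.p12
    rwa [one_mul] at this
  set r0 := rho s 0 - R - 1 with hr0
  have hr0half : Real.exp L / 2 ≤ r0 := by
    have : 2 * Θ + 8 ≤ R := hB.ge.trans hLR
    linarith
  have hr0le : r0 ≤ Real.exp L + (2 * Θ + 2) := by linarith
  have hr0R : R ≤ r0 := by linarith [Real.exp_pos L]
  set n : ℕ := ⌊(r0 - R) / D⌋₊ with hn
  have hn1 : (n : ℝ) * D ≤ r0 - R := by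
    have := Nat.floor_le (a := (r0 - R) / D) (by
      apply div_nonneg <;> linarith)
    rwa [le_div_iff₀ hD0] at this
  have hn2 : r0 - R < ((n : ℝ) + 1) * D := by
    have := Nat.lt_floor_add_one ((r0 - R) / D)
    rwa [div_lt_iff₀ hD0] at this
  have hlev : ∀ j ≤ n, R ≤ r0 - j * D := by
    intro j hj
    have : (j : ℝ) * D ≤ n * D := mul_le_mul_of_nonneg_right (by exact_mod_cast hj) hD0.le
    linarith
  -- scales
  have hex1 : ∀ j : ℕ, ∃ t : ℕ, j ≤ n → t ≤ N ∧ r0 - j * D ≤ rho s t ∧ rho s t < r0 - j * D + 1 := by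
    intro j
    by_cases hj : j ≤ n
    · have h1 := hlev j hj
      have h2 : 0 ≤ (j : ℝ) * D := by positivity
      obtain ⟨t, ht1, ht2, ht3, _⟩ := hsc N hNN2 s hwin (r0 - j * D) (by linarith [hB.ge]) (by linarith)
      exact ⟨t, fun _ => ⟨ht1, ht2, ht3⟩⟩
    · exact ⟨0, fun h => absurd h hj⟩
  choose σ hσ using hex1
  have hexpL1 := Real.add_one_le_exp L
  -- crude bounds
  have hcrude' := fun V hV => hcrude N hNN3 s hwin p m hw hm V hV
  have h2 : ∀ V : G → ℝ≥0, mass V = 1 → (TT p m)^[N] (nm a) V ≤ ENNReal.ofReal (crL b a0 q A CU L) := by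
    intro V hV
    have hK := KK_all F hCU hw hV
    rw [← hlogN] at hK
    exact crude_pow hm ha hB.le_a0 hq hA hs (hcrude' V hV) hK
  have hlast : ∀ V : G → ℝ≥0, mass V = 1 → Rz p (σ n) V ≤ M →
      (TT p m)^[N] (nm a) V ≤ ENNReal.ofReal (BL b a0 q A CU Θ L) := by
    intro V hV hVR
    obtain ⟨h3, h4, h5⟩ := hσ n le_rfl
    have hK := KK_last F hCU hw h3 hM1 hV hVR
    refine crude_pow hm ha hB.le_a0 hq hA hs (hcrude' V hV) (hK.trans ?_)
    refine mul_le_mul_of_nonneg_left ?_ hCU.le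
    have h6 : rho s (σ n) ≤ 2 * R + 1 := by linarith
    linarith
  have hη : (1 : ℝ) / L ≤ 1 / 4 := one_div_le_one_div_of_le (by norm_num) (by linarith)
  have hη0 : 0 < 1 / L := by positivity
  have hκ0 : 0 < 6 / L ^ 6 := by positivity
  have hiter := blocks_iter hw hm ha hB.a1 N hC (fun x0 h a h1 h2 k hk W hW => hov p m (4 * N) s hw hm x0 h a h1 h2 k hk W hW)
    hM1 (by linarith [hB.cr1]) h2 hη0 hη (r0 := r0) (D := D) (R := R) (κ := 6 / L ^ 6) (by linarith) (by linarith) hκ0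
    (n := n) (σ := σ) (fun j hj => by have := (hσ j hj).1; omega) (fun j hj => (hσ j hj).2.1) (fun j hj => (hσ j hj).2.2)
    hlev (by linarith) (by
      rw [← hFL]
      linarith) (by
      rw [← hFL, ← hDR, ← hD]
      rw [← mul_div_assoc, div_le_div_iff₀ (by positivity) hD0]
      have h8 := mul_le_mul_of_nonneg_right hF2D hD0.le
      linarith) hB.B1 hlast (f := fun i : ℕ => a * (a + 1) / 2 * (1 - 2 * (1 / L))⁻¹ ^ 3 *
        ((2 * Real.log (1 + M) + 6 + D) / (r0 - (i + 1) * D))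
      + crL b a0 q A CU L * (300 / M + 4 * (1 / (1 / L) * Real.exp (-((1 / L) ^ 2 / (2 * (6 / L ^ 6)))))
        + 8 * C * Real.sqrt s * ((2 * Real.log (1 + M) + 6 + D) / (r0 - (i + 1) * D)))) (fun i => rfl) n le_rfl
  rw [Nat.sub_self] at hiter
  -- the sum
  set S := ∑ i ∈ Ico 0 n, (a * (a + 1) / 2 * (1 - 2 * (1 / L))⁻¹ ^ 3 *
        ((2 * Real.log (1 + M) + 6 + D) / (r0 - (i + 1) * D))
      + crL b a0 q A CU L * (300 / M + 4 * (1 / (1 / L) * Real.exp (-((1 / L) ^ 2 / (2 * (6 / L ^ 6)))))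
        + 8 * C * Real.sqrt s * ((2 * Real.log (1 + M) + 6 + D) / (r0 - (i + 1) * D)))) with hS
  set X := ∑ i ∈ range n, D / (r0 - (i + 1) * D) with hX
  have hSX : S = gaL b L * (FL L / L ^ 6) * X + n * (crL b a0 q A CU L * (300 / Real.exp (L ^ 2)
        + 4 * (1 / (1 / L) * Real.exp (-((1 / L) ^ 2 / (2 * (6 / L ^ 6)))))))
      + 8 * C * Real.sqrt s * crL b a0 q A CU L * (FL L / L ^ 6) * X := by
    rw [hS, ← range_eq_Ico, hX, mul_sum, mul_sum]
    have hc : ((n : ℕ) : ℝ) * (crL b a0 q A CU L * (300 / Real.exp (L ^ 2)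
        + 4 * (1 / (1 / L) * Real.exp (-((1 / L) ^ 2 / (2 * (6 / L ^ 6))))))) = ∑ _i ∈ range n,
        (crL b a0 q A CU L * (300 / Real.exp (L ^ 2)
        + 4 * (1 / (1 / L) * Real.exp (-((1 / L) ^ 2 / (2 * (6 / L ^ 6))))))) := by
      rw [sum_const, card_range, nsmul_eq_mul]
    rw [hc, ← sum_add_distrib, ← sum_add_distrib]
    refine sum_congr rfl fun i hi => ?_
    rw [← hFL, ← hM]
    unfold gaL
    rw [← haL, ← hD]
    have e : FL L / (r0 - (i + 1) * D) = (FL L / D) * (D / (r0 - (i + 1) * D)) := by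
      field_simp
    rw [e]
    ring
  have hX0 : 0 ≤ X := by
    refine sum_nonneg fun i hi => ?_
    have h3 := hlev (i + 1) (mem_range.1 hi)
    push_cast at h3
    exact div_nonneg hD0.le (by linarith)
  have hXle : X ≤ Real.log (Real.exp L + (2 * Θ + 2)) := by
    refine (sum_inv_le hD0 ?_).trans (Real.log_le_log (by linarith [Real.exp_pos L]) hr0le)
    linarith
  have hn2e : (n : ℝ) ≤ 2 * Real.exp L := by
    have h3 : (n : ℝ) ≤ n * D := by
      exact le_mul_of_one_le_right (Nat.cast_nonneg n) (by linarith)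
    have h4 : 2 * Θ + 2 ≤ Real.exp L := by linarith [hB.ge]
    linarith
  have hS0 : 0 ≤ S := by
    refine sum_nonneg fun i hi => ?_
    have h3 := hlev (i + 1) (mem_Ico.1 hi).2
    push_cast at h3
    have h4 : 0 < r0 - ((i : ℝ) + 1) * D := by linarith
    have h5 : 0 < (1 - 2 * (1 / L))⁻¹ := inv_pos.2 (by linarith)
    have h6 : 0 ≤ Real.log (1 + M) := Real.log_nonneg (by linarith)
    have h7 : 0 < crL b a0 q A CU L := by linarith [hB.cr1]
    positivity
  have hsq : Real.sqrt s ≤ 2 * Real.exp (-(L / 2)) := by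
    rw [Real.sqrt_le_left (by positivity), mul_pow, ← Real.exp_nat_mul]
    have h3 := F.s_le
    rw [← hlogN] at h3
    refine h3.trans (le_of_eq ?_)
    push_cast
    rw [show (2 : ℝ) * -(L / 2) = -L by ring, Real.exp_neg]
    ring
  -- the first block
  obtain ⟨h01, h02, h03⟩ := hσ 0 (Nat.zero_le _)
  push_cast at h02 h03
  rw [zero_mul, sub_zero] at h02 h03
  have hBS : 1 ≤ BL b a0 q A CU Θ L * Real.exp S := one_le_mul_of_one_le_of_one_le hB.B1 (Real.one_le_exp hS0)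
  have hfirst := first_block hw hm ha hB.a1 N hC (fun x0 h a h1 h2 k hk W hW => hov p m (4 * N) s hw hm x0 h a h1 h2 k hk W hW)
    hM1 (by linarith [hB.cr1]) h2 hη0 hη (b := σ 0) (by omega) (r0 := r0) (by linarith) h02 (by linarith)
    (k := Real.exp (-(3 / 4 * L))) (by
      rw [div_le_iff₀ (by linarith)]
      have h3 : 2 * Real.log (1 + M) + 5 + (rho s 0 - r0) ≤ 3 * R := by
        have e : rho s 0 - r0 = R + 1 := by rw [hr0]; ring
        have : 2 * D ≤ R := by nlinarith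
        linarith
      refine h3.trans ?_
      have h4 : Real.exp (-(3 / 4 * L)) * (Real.exp L / 2) ≤ Real.exp (-(3 / 4 * L)) * r0 :=
        mul_le_mul_of_nonneg_left hr0half (Real.exp_pos _).le
      refine le_trans ?_ h4
      have h5 : Real.exp (-(3 / 4 * L)) * (Real.exp L / 2) = Real.exp (1 / 4 * L) / 2 := by
        rw [mul_div_assoc', ← Real.exp_add]
        ring_nf
      rw [h5]
      have := hB.p12'
      linarith) (Real.exp_le_one_iff.2 (by linarith)) hBS hiter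
  refine hfirst.trans (ENNReal.ofReal_le_ofReal ?_)
  have herr := errors hΘ hb hC hε hB (n := n) (x := X) (σ := Real.sqrt s) hn2e hX0 hXle
    (Real.sqrt_nonneg s) hsq
  rw [← hSX] at herr
  calc BL b a0 q A CU Θ L * Real.exp S * Real.exp (a * (a + 1) / 2 * (1 - 2 * (1 / L))⁻¹ ^ 3 * Real.exp (-(3 / 4 * L))
        + crL b a0 q A CU L * (300 / M + 4 * (Real.exp (-(3 / 4 * L)) / (1 / L) ^ 2 / (1 / L))
          + 8 * C * Real.sqrt s * Real.exp (-(3 / 4 * L))))
      ≤ Real.exp (ε / 4) * Real.exp S * Real.exp (a * (a + 1) / 2 * (1 - 2 * (1 / L))⁻¹ ^ 3 * Real.exp (-(3 / 4 * L))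
        + crL b a0 q A CU L * (300 / M + 4 * (Real.exp (-(3 / 4 * L)) / (1 / L) ^ 2 / (1 / L))
          + 8 * C * Real.sqrt s * Real.exp (-(3 / 4 * L)))) := by
        refine mul_le_mul_of_nonneg_right (mul_le_mul_of_nonneg_right hB.B2 (Real.exp_pos _).le) (Real.exp_pos _).le
    _ ≤ Real.exp (a * (a + 1) / 2 * L + ε) := by
        rw [← Real.exp_add, ← Real.exp_add]
        refine Real.exp_le_exp.2 ?_
        have e : gaL b L = a * (a + 1) / 2 * (1 - 2 * (1 / L))⁻¹ ^ 3 := rfl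
        rw [e] at herr
        linarith

end Pool.A2F
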