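import Pool.Agent.A2F.Third
import Pool.Agent.A2F.Umin

/-!
# Module Blk: the blocks for the estimates (U+) and (L-)
-/

set_option autoImplicit false

open MeasureTheory Finset
open scoped ENNReal NNReal

noncomputable section

namespace Pool.A2F

variable {G : Type} [Fintype G] [DecidableEq G] [AddCommGroup G]

/-- Deficit functional: s * sum_(k=k0..b) U (b-k) * sum_x W x (u (τ+k) - p_(2(τ+k)) x). -/
def Df (p : G → ℝ≥0) (s : ℝ) (τ k0 b : ℕ) (W : G → ℝ≥0) : ℝ :=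
  s * ∑ k ∈ Icc k0 b, UU s (b - k) *
    ∑ x, (W x : ℝ) * (uu (τ + k) - (pk p (2 * (τ + k)) x : ℝ))

theorem UU_nonneg_blk {s : ℝ} (hs : 0 < s) (n : ℕ) : 0 ≤ UU s n :=
  zero_le_one.trans (one_le_UU hs.le n)

theorem Df_nonneg {p : G → ℝ≥0} {n0 : ℕ} (hw : Walk p n0) {s : ℝ} (hs : 0 < s) {τ k0 b : ℕ}
    (h : τ + b ≤ n0) (W : G → ℝ≥0) : 0 ≤ Df p s τ k0 b W := by
  unfold Df
  refine mul_nonneg hs.le (Finset.sum_nonneg fun k hk =>
    mul_nonneg (UU_nonneg_blk hs _) (Finset.sum_nonneg fun x _ =>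
      mul_nonneg (NNReal.coe_nonneg _) ?_))
  have := pk_two_le hw (n := τ + k) (by have := (Finset.mem_Icc.1 hk).2; omega) x
  linarith

/-- the coefficients of the deficit functional -/
def Dc (p : G → ℝ≥0) (s : ℝ) (τ k0 b : ℕ) (x : G) : ℝ :=
  s * ∑ k ∈ Icc k0 b, UU s (b - k) * (uu (τ + k) - (pk p (2 * (τ + k)) x : ℝ))

theorem Dc_nonneg {p : G → ℝ≥0} {n0 : ℕ} (hw : Walk p n0) {s : ℝ} (hs : 0 < s) {τ k0 b : ℕ}
    (h : τ + b ≤ n0) (x : G) : 0 ≤ Dc p s τ k0 b x := by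
  unfold Dc
  refine mul_nonneg hs.le (Finset.sum_nonneg fun k hk =>
    mul_nonneg (UU_nonneg_blk hs _) ?_)
  have := pk_two_le hw (n := τ + k) (by have := (Finset.mem_Icc.1 hk).2; omega) x
  linarith

theorem Df_eq_sum (p : G → ℝ≥0) (s : ℝ) (τ k0 b : ℕ) (W : G → ℝ≥0) :
    Df p s τ k0 b W = ∑ x, Dc p s τ k0 b x * (W x : ℝ) := by
  unfold Df Dc
  simp only [Finset.mul_sum, Finset.sum_mul]
  rw [Finset.sum_comm]
  refine Finset.sum_congr rfl fun x _ => Finset.sum_congr rfl fun k _ => ?_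
  ring

theorem sum_pk_mul_pk {p : G → ℝ≥0} {n0 : ℕ} (hw : Walk p n0) (a c : ℕ) :
    ∑ x, pk p a x * pk p c x = pk p (a + c) 0 := by
  rw [pk_add]
  refine Finset.sum_congr rfl fun x _ => ?_
  rw [zero_sub, pk_neg hw]

theorem Dc_pk_le {p : G → ℝ≥0} {n0 : ℕ} {s : ℝ} (hw : Walk p n0)
    (hs : 0 < s) {τ k0 b : ℕ} (hτ : Even τ) (hτ2 : 2 ≤ τ) (hk : 1 ≤ k0)
    (h : 2 * τ + b ≤ n0) :
    ∑ x, Dc p s τ k0 b x * (pk p τ x : ℝ) ≤ s * UU s b * (τ / k0) := by
  obtain ⟨σ, hσ⟩ := hτ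
  have e1 : ∑ x, Dc p s τ k0 b x * (pk p τ x : ℝ)
      = s * ∑ k ∈ Icc k0 b, UU s (b - k) * (uu (τ + k) - uu (τ + k + σ)) := by
    unfold Dc
    simp only [Finset.mul_sum, Finset.sum_mul]
    rw [Finset.sum_comm]
    refine Finset.sum_congr rfl fun k hkk => ?_
    have hk2 := (Finset.mem_Icc.1 hkk).2
    have h1 : ∑ x, (pk p τ x : ℝ) = 1 := by
      have := sum_pk hw τ
      exact_mod_cast this
    have h2 : ∑ x, (pk p τ x : ℝ) * (pk p (2 * (τ + k)) x : ℝ) = uu (τ + k + σ) := by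
      have h3 := sum_pk_mul_pk hw τ (2 * (τ + k))
      have h4 : τ + 2 * (τ + k) = 2 * (τ + k + σ) := by omega
      have h5 := hw.ret (τ + k + σ) (by omega)
      rw [h4] at h3
      rw [← h5, ← h3]
      push_cast
      rfl
    calc ∑ x, s * (UU s (b - k) * (uu (τ + k) - (pk p (2 * (τ + k)) x : ℝ))) * (pk p τ x : ℝ)
        = s * UU s (b - k) * (uu (τ + k) * ∑ x, (pk p τ x : ℝ)
            - ∑ x, (pk p τ x : ℝ) * (pk p (2 * (τ + k)) x : ℝ)) := by
          rw [Finset.mul_sum, ← Finset.sum_sub_distrib, Finset.mul_sum]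
          refine Finset.sum_congr rfl fun x _ => ?_
          ring
      _ = s * (UU s (b - k) * (uu (τ + k) - uu (τ + k + σ))) := by rw [h1, h2]; ring
  rw [e1, mul_assoc]
  refine mul_le_mul_of_nonneg_left ?_ hs.le
  have hτp : (0 : ℝ) < τ := by exact_mod_cast (by omega : 0 < τ)
  have hk0p : (0 : ℝ) < k0 := by exact_mod_cast (by omega : 0 < k0)
  have key : ∀ k ∈ Icc k0 b, UU s (b - k) * (uu (τ + k) - uu (τ + k + σ))
      ≤ UU s b * (τ * (1 / ((τ : ℝ) + k) - 1 / ((τ : ℝ) + k + 1))) := by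
    intro k hkk
    have hk1 := (Finset.mem_Icc.1 hkk).1
    have hU : UU s (b - k) ≤ UU s b := UU_mono hs.le (Nat.sub_le _ _)
    have hkp : (0 : ℝ) < k := by exact_mod_cast (by omega : 0 < k)
    have hle : uu (τ + k) - uu (τ + k + σ) ≤ τ * (1 / ((τ : ℝ) + k) - 1 / ((τ : ℝ) + k + 1)) := by
      have a1 := uu_add_ge (n := τ + k) (by omega) σ
      have a2 := uu_le (n := τ + k) (by omega)
      have a3 := uu_pos (τ + k)
      push_cast at a1 a2
      have hσr : (τ : ℝ) = σ + σ := by exact_mod_cast hσ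
      have hσ1 : (1 : ℝ) ≤ σ := by exact_mod_cast (by omega : 1 ≤ σ)
      have b1 : uu (τ + k) - uu (τ + k + σ)
          ≤ ((σ : ℝ) + 1 / 2) / ((τ : ℝ) + k + σ + 1 / 2) * uu (τ + k) := by
        have : ((σ : ℝ) + 1 / 2) / ((τ : ℝ) + k + σ + 1 / 2) * uu (τ + k)
            = uu (τ + k) - ((τ : ℝ) + k) / ((τ : ℝ) + k + σ + 1 / 2) * uu (τ + k) := by
          field_simp
          ring
        rw [this]
        linarith
      have b2 : uu (τ + k) ≤ 1 / ((τ : ℝ) + k) := by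
        refine a2.trans ?_
        apply one_div_le_one_div_of_le (by positivity)
        have : (1 : ℝ) ≤ Real.pi := by linarith [Real.pi_gt_three]
        nlinarith
      have b3 : ((σ : ℝ) + 1 / 2) / ((τ : ℝ) + k + σ + 1 / 2)
          ≤ (τ : ℝ) / ((τ : ℝ) + k + 1) := by
        rw [div_le_div_iff₀ (by positivity) (by positivity)]
        nlinarith
      calc uu (τ + k) - uu (τ + k + σ)
          ≤ ((σ : ℝ) + 1 / 2) / ((τ : ℝ) + k + σ + 1 / 2) * uu (τ + k) := b1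
        _ ≤ (τ : ℝ) / ((τ : ℝ) + k + 1) * (1 / ((τ : ℝ) + k)) := by
            refine mul_le_mul b3 b2 a3.le (by positivity)
        _ = τ * (1 / ((τ : ℝ) + k) - 1 / ((τ : ℝ) + k + 1)) := by
            field_simp
            ring
    have hnn : 0 ≤ τ * (1 / ((τ : ℝ) + k) - 1 / ((τ : ℝ) + k + 1)) := by
      have : 1 / ((τ : ℝ) + k + 1) ≤ 1 / ((τ : ℝ) + k) :=
        one_div_le_one_div_of_le (by positivity) (by linarith)
      exact mul_nonneg hτp.le (by linarith)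
    exact mul_le_mul hU hle (by linarith [uu_anti (Nat.le_add_right (τ + k) σ)])
      (UU_nonneg_blk hs _)
  refine (Finset.sum_le_sum key).trans ?_
  rw [← Finset.mul_sum, ← Finset.mul_sum]
  refine mul_le_mul_of_nonneg_left ?_ (UU_nonneg_blk hs _)
  rw [div_eq_mul_one_div (τ : ℝ)]
  refine mul_le_mul_of_nonneg_left ?_ hτp.le
  by_cases hkb : k0 ≤ b
  · have hsum : ∑ k ∈ Icc k0 b, (1 / ((τ : ℝ) + k) - 1 / ((τ : ℝ) + k + 1))
        = 1 / ((τ : ℝ) + k0) - 1 / ((τ : ℝ) + b + 1) := by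
      have hI : Icc k0 b = Ico k0 (b + 1) := by ext z; simp
      rw [hI]
      have := Finset.sum_Ico_consecutive (fun k : ℕ =>
        (1 / ((τ : ℝ) + k) - 1 / ((τ : ℝ) + k + 1))) (Nat.zero_le k0) (by omega : k0 ≤ b + 1)
      have t1 : ∀ n : ℕ, ∑ k ∈ Ico 0 n, (1 / ((τ : ℝ) + k) - 1 / ((τ : ℝ) + k + 1))
          = 1 / (τ : ℝ) - 1 / ((τ : ℝ) + n) := by
        intro n
        rw [← Finset.range_eq_Ico]
        have := Finset.sum_range_sub' (fun k : ℕ => 1 / ((τ : ℝ) + k)) n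
        simp only [Nat.cast_add, Nat.cast_one, Nat.cast_zero, add_zero] at this
        rw [← this]
        refine Finset.sum_congr rfl fun k _ => ?_
        rw [add_assoc]
      rw [t1, t1] at this
      push_cast at this
      have h2 : (τ : ℝ) + ((b : ℝ) + 1) = τ + b + 1 := by ring
      rw [h2] at this
      linarith
    rw [hsum]
    have h1 : 1 / ((τ : ℝ) + k0) ≤ 1 / (k0 : ℝ) :=
      one_div_le_one_div_of_le hk0p (by linarith)
    have h2 : 0 ≤ 1 / ((τ : ℝ) + b + 1) := by positivity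
    linarith
  · rw [Finset.Icc_eq_empty (by omega), Finset.sum_empty]
    positivity

/-- expected deficit at time τ from the point mass -/
theorem TTn_Df_le {p : G → ℝ≥0} {n0 : ℕ} {m : Measure ℝ≥0} {s C4 : ℝ} (hw : Walk p n0)
    (hm : Law m s C4) {τ k0 b : ℕ} (hτ : Even τ) (hτ2 : 2 ≤ τ) (hk : 1 ≤ k0)
    (h : 2 * τ + b ≤ n0) :
    (TT p m)^[τ] (fun V => ENNReal.ofReal (Df p s τ k0 b V)) dl
      ≤ ENNReal.ofReal (s * UU s b * (τ / k0)) := by
  have hs := hm.s_pos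
  have hc : ∀ x, 0 ≤ Dc p s τ k0 b x := Dc_nonneg hw hs (by omega)
  have e1 : ∀ W : G → ℝ≥0, ENNReal.ofReal (∑ x, Dc p s τ k0 b x * (W x : ℝ))
      = ∑ x, ENNReal.ofReal (Dc p s τ k0 b x) * (W x : ℝ≥0∞) := by
    intro W
    rw [ENNReal.ofReal_sum_of_nonneg (fun x _ => mul_nonneg (hc x) (NNReal.coe_nonneg _))]
    refine Finset.sum_congr rfl fun x _ => ?_
    rw [ENNReal.ofReal_mul (hc x), ENNReal.ofReal_coe_nnreal]
  have e2 : (fun V : G → ℝ≥0 => ENNReal.ofReal (Df p s τ k0 b V))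
      = fun V => ∑ x, ENNReal.ofReal (Dc p s τ k0 b x) * (V x : ℝ≥0∞) := by
    funext V
    rw [Df_eq_sum, e1]
  rw [e2, TTn_lin hm, ← e1]
  exact ENNReal.ofReal_le_ofReal (Dc_pk_le hw hs hτ hτ2 hk h)

theorem blk_alg (I : Finset ℕ) (s μ : ℝ) (U u D : ℕ → ℝ) :
    μ ^ 2 * (s * ∑ k ∈ I, U k * u k) - 2 * μ * (s * ∑ k ∈ I, U k * D k)
      = s * ∑ k ∈ I, U k * (μ ^ 2 * u k - 2 * μ * D k) := by
  have : ∑ k ∈ I, U k * (μ ^ 2 * u k - 2 * μ * D k)
      = μ ^ 2 * ∑ k ∈ I, U k * u k - 2 * μ * ∑ k ∈ I, U k * D k := by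
    rw [Finset.mul_sum, Finset.mul_sum, ← Finset.sum_sub_distrib]
    refine Finset.sum_congr rfl fun k _ => ?_
    ring
  rw [this]
  ring

/-- K of the smoothed measure is large when the deficit is small. -/
theorem le_KK_smooth {p : G → ℝ≥0} {n0 : ℕ} (hw : Walk p n0) {s : ℝ} (hs : 0 < s) {τ k0 b : ℕ}
    (hk : 1 ≤ k0) (h : τ + b ≤ n0) (W : G → ℝ≥0) :
    (mass W : ℝ) ^ 2 * (s * ∑ k ∈ Icc k0 b, UU s (b - k) * uu (τ + k))
        - 2 * (mass W : ℝ) * Df p s τ k0 b W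
      ≤ KK p s b ((conv p)^[τ] W) := by
  have e1 : KK p s b ((conv p)^[τ] W) = s * ∑ k ∈ Icc 1 b, UU s (b - k) * aa p W (τ + k) := by
    unfold KK
    congr 1
    have hI : Icc 1 b = Ico (0 + 1) (b + 1) := by ext z; simp [Nat.succ_le_iff]
    rw [hI, ← Finset.sum_Ico_add', ← Finset.range_eq_Ico]
    refine Finset.sum_congr rfl fun k hkk => ?_
    rw [aa_conv, mul_comm]
    congr 2
    omega
  have e2 : s * ∑ k ∈ Icc k0 b, UU s (b - k) * aa p W (τ + k) ≤ KK p s b ((conv p)^[τ] W) := by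
    rw [e1]
    refine mul_le_mul_of_nonneg_left ?_ hs.le
    refine Finset.sum_le_sum_of_subset_of_nonneg (Finset.Icc_subset_Icc hk le_rfl)
      fun k _ _ => mul_nonneg (UU_nonneg_blk hs _) (aa_nonneg _ _)
  refine le_trans ?_ e2
  unfold Df
  have e3 := blk_alg (Icc k0 b) s (mass W : ℝ) (fun k => UU s (b - k)) (fun k => uu (τ + k))
    (fun k => ∑ x, (W x : ℝ) * (uu (τ + k) - (pk p (2 * (τ + k)) x : ℝ)))
  rw [e3]
  refine mul_le_mul_of_nonneg_left (Finset.sum_le_sum fun k hkk => ?_) hs.le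
  have hk1 := (Finset.mem_Icc.1 hkk)
  refine mul_le_mul_of_nonneg_left ?_ (UU_nonneg_blk hs _)
  have hO := overlap_sq_le hw (k := τ + k) (by omega) W
  have hu := uu_pos (τ + k)
  set O := ∑ x, (W x : ℝ) * (pk p (2 * (τ + k)) x : ℝ) with hOdef
  have e4 : ∑ x, (W x : ℝ) * (uu (τ + k) - (pk p (2 * (τ + k)) x : ℝ))
      = (mass W : ℝ) * uu (τ + k) - O := by
    rw [hOdef]
    unfold mass
    push_cast
    rw [Finset.sum_mul, ← Finset.sum_sub_distrib]
    refine Finset.sum_congr rfl fun x _ => ?_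
    ring
  rw [e4]
  have h6 : uu (τ + k) * ((mass W : ℝ) ^ 2 * uu (τ + k)
      - 2 * (mass W : ℝ) * ((mass W : ℝ) * uu (τ + k) - O)) ≤ uu (τ + k) * aa p W (τ + k) := by
    refine le_trans ?_ hO
    nlinarith [sq_nonneg ((mass W : ℝ) * uu (τ + k) - O)]
  exact le_of_mul_le_mul_left h6 hu

theorem rho_ge_blk {Θ cU CU s : ℝ} {N : ℕ} (hF : WinFacts Θ N s cU CU) {t : ℕ} (h1 : 1 ≤ t)
    (h2 : t ≤ N) {x : ℝ} (hx : (t : ℝ) * Real.exp x ≤ N) : x - 2 * Θ - 2 ≤ rho s t := by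
  have h := hF.le_rho t h1 h2
  have ht : (0 : ℝ) < t := by exact_mod_cast (by omega : 0 < t)
  have hN : (0 : ℝ) < N := by exact_mod_cast (by omega : 0 < N)
  have : x ≤ Real.log ((N : ℝ) / t) := by
    rw [Real.le_log_iff_exp_le (by positivity), le_div_iff₀ ht]
    linarith
  linarith

theorem rho_le_blk {Θ cU CU s : ℝ} {N : ℕ} (hF : WinFacts Θ N s cU CU) {t : ℕ} (h1 : 1 ≤ t)
    (h2 : t ≤ N) {x : ℝ} (hx : (N : ℝ) ≤ t * Real.exp x) : rho s t ≤ x + 2 * Θ + 1 := by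
  have h := hF.rho_le t h1 h2
  have ht : (0 : ℝ) < t := by exact_mod_cast (by omega : 0 < t)
  have hN : (0 : ℝ) < N := by exact_mod_cast (by omega : 0 < N)
  have : Real.log ((N : ℝ) / t) ≤ x := by
    rw [Real.log_le_iff_le_exp (by positivity), div_le_iff₀ ht]
    linarith
  linarith

theorem exp_facts_blk : Real.exp 1 ≥ 2 ∧ Real.exp 3 ≥ 16 ∧ Real.exp 6 ≥ 64 ∧ Real.exp 2 ≥ 4 := by
  have h1 : Real.exp 1 ≥ 2.7 := by linarith [Real.exp_one_gt_d9]
  have h2 : Real.exp 2 = Real.exp 1 ^ 2 := by rw [← Real.exp_nat_mul]; norm_num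
  have h3 : Real.exp 3 = Real.exp 1 ^ 3 := by rw [← Real.exp_nat_mul]; norm_num
  have h6 : Real.exp 6 = Real.exp 1 ^ 6 := by rw [← Real.exp_nat_mul]; norm_num
  have g : (2.7 : ℝ) ^ 2 ≤ Real.exp 1 ^ 2 := pow_le_pow_left₀ (by norm_num) h1 2
  have g3 : (2.7 : ℝ) ^ 3 ≤ Real.exp 1 ^ 3 := pow_le_pow_left₀ (by norm_num) h1 3
  have g6 : (2.7 : ℝ) ^ 6 ≤ Real.exp 1 ^ 6 := pow_le_pow_left₀ (by norm_num) h1 6
  refine ⟨by linarith, ?_, ?_, ?_⟩
  · rw [h3]; norm_num at g3; linarith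
  · rw [h6]; norm_num at g6; linarith
  · rw [h2]; norm_num at g; linarith

/-- R in terms of rho -/
theorem sum_uu_blk {s : ℝ} {τ k0 b : ℕ} (hk : 1 ≤ k0) (hkb : k0 ≤ b + 1) :
    Real.pi * ∑ k ∈ Icc k0 b, uu (τ + k) = rho s (τ + k0 - 1) - rho s (τ + b) := by
  have hI : Icc k0 b = Ico k0 (b + 1) := by ext z; simp
  have e : ∀ n : ℕ, RR n = ∑ k ∈ Ico 1 (n + 1), uu k := by
    intro n
    unfold RR
    rw [Finset.range_eq_Ico, Finset.sum_Ico_add' uu 0 n 1]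
  have e2 : ∑ k ∈ Icc k0 b, uu (τ + k) = RR (τ + b) - RR (τ + k0 - 1) := by
    rw [hI, e, e]
    have h1 : ∑ k ∈ Ico k0 (b + 1), uu (τ + k) = ∑ k ∈ Ico (τ + k0) (τ + b + 1), uu k := by
      have := Finset.sum_Ico_add uu k0 (b + 1) τ
      rw [this]
      congr 2 <;> omega
    have h2 := Finset.sum_Ico_consecutive uu (by omega : 1 ≤ τ + k0)
      (by omega : τ + k0 ≤ τ + b + 1)
    have h3 : τ + k0 - 1 + 1 = τ + k0 := by omega
    rw [h1, h3]
    linarith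
  rw [e2]
  unfold rho
  ring

theorem blk_det {Θ cU CU s : ℝ} {N : ℕ} (hF : WinFacts Θ N s cU CU) (hΘ : 0 ≤ Θ) {h r r' : ℝ}
    {τ τ' k0 : ℕ} (h1 : 1 ≤ h) (hr' : 4 * Θ + 8 + 40 ≤ r') (hgap : h + 6 ≤ r - r')
    (hτ1 : 1 ≤ τ) (a1 : (τ : ℝ) ≤ N * Real.exp (-r)) (a2 : N * Real.exp (-r) ≤ 2 * τ)
    (a3 : (τ' : ℝ) ≤ N * Real.exp (-r')) (a4 : N * Real.exp (-r') ≤ 2 * τ')
    (hk : k0 = τ * ⌈Real.exp h⌉₊) :
    2 * τ ≤ τ' ∧ τ' ≤ N ∧ rho s τ - rho s (τ' - τ) + 1 ≤ r - r' + (4 * Θ + 8) ∧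
      r' - (4 * Θ + 8) ≤ rho s (τ' - τ) ∧
      (r - r' - h - (4 * Θ + 8)) / (r' + (4 * Θ + 8)) * (1 - 27 / (r' - (4 * Θ + 8)))
        ≤ s * ∑ k ∈ Icc k0 (τ' - τ), UU s (τ' - τ - k) * uu (τ + k) := by
  obtain ⟨E1, E3, E6, E2⟩ := exp_facts_blk
  have hs := hF.s_pos
  have hτp : (1 : ℝ) ≤ τ := by exact_mod_cast hτ1
  have hN3 : 3 ≤ N := hF.N_pos
  have hNp : (3 : ℝ) ≤ N := by exact_mod_cast hN3
  have eh : 2 ≤ Real.exp h := E1.le.trans (Real.exp_le_exp.2 h1)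
  -- tau' is at least 32 tau exp h
  have b1 : 32 * (τ : ℝ) * Real.exp h ≤ τ' := by
    have x1 : Real.exp (-r') = Real.exp (-r) * Real.exp (r - r') := by
      rw [← Real.exp_add]; congr 1; ring
    have x2 : 64 * Real.exp h ≤ Real.exp (r - r') := by
      calc 64 * Real.exp h ≤ Real.exp 6 * Real.exp h := by nlinarith [Real.exp_pos h]
        _ = Real.exp (h + 6) := by rw [← Real.exp_add]; congr 1; ring
        _ ≤ Real.exp (r - r') := Real.exp_le_exp.2 hgap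
    have x3 : (τ : ℝ) * Real.exp (r - r') ≤ N * Real.exp (-r') := by
      rw [x1, ← mul_assoc]
      exact mul_le_mul_of_nonneg_right a1 (Real.exp_pos _).le
    have x4 : (τ : ℝ) * (64 * Real.exp h) ≤ (τ : ℝ) * Real.exp (r - r') :=
      mul_le_mul_of_nonneg_left x2 (by linarith)
    nlinarith
  have hceil1 : Real.exp h ≤ (⌈Real.exp h⌉₊ : ℝ) := Nat.le_ceil _
  have hceil2 : (⌈Real.exp h⌉₊ : ℝ) < Real.exp h + 1 := Nat.ceil_lt_add_one (Real.exp_pos _).le
  have hk0r : (k0 : ℝ) = τ * ⌈Real.exp h⌉₊ := by rw [hk]; push_cast; ring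
  have k1 : (τ : ℝ) * Real.exp h ≤ k0 := by
    rw [hk0r]; exact mul_le_mul_of_nonneg_left hceil1 (by linarith)
  have k2 : (k0 : ℝ) ≤ 2 * τ * Real.exp h := by
    rw [hk0r]; nlinarith
  have k3 : 16 * (k0 : ℝ) ≤ τ' := by nlinarith
  have k3' : 16 * k0 ≤ τ' := by exact_mod_cast k3
  have k4 : (2 : ℝ) * τ ≤ k0 := by nlinarith
  have k4' : 2 * τ ≤ k0 := by exact_mod_cast k4
  have hτ'N : τ' ≤ N := by
    have : (τ' : ℝ) ≤ N := by
      refine a3.trans ?_
      have : Real.exp (-r') ≤ 1 := Real.exp_le_one_iff.2 (by linarith)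
      nlinarith
    exact_mod_cast this
  -- generic bounds
  have up : ∀ t : ℕ, τ' ≤ 8 * t → t ≤ N → rho s t ≤ r' + (4 * Θ + 8) := by
    intro t ht htN
    have htr : (τ' : ℝ) ≤ 8 * t := by exact_mod_cast ht
    have := rho_le_blk hF (t := t) (by omega) htN (x := r' + 3) (by
      have y1 : (N : ℝ) = N * Real.exp (-r') * Real.exp r' := by
        rw [mul_assoc, ← Real.exp_add]; simp
      have y2 : Real.exp (r' + 3) = Real.exp r' * Real.exp 3 := Real.exp_add _ _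
      rw [y2]
      have y3 : (0 : ℝ) < Real.exp r' := Real.exp_pos _
      have y4 : (N : ℝ) * Real.exp (-r') ≤ t * 16 := by linarith
      calc (N : ℝ) = N * Real.exp (-r') * Real.exp r' := y1
        _ ≤ t * 16 * Real.exp r' := mul_le_mul_of_nonneg_right y4 y3.le
        _ = t * (Real.exp r' * 16) := by ring
        _ ≤ t * (Real.exp r' * Real.exp 3) := by
            refine mul_le_mul_of_nonneg_left ?_ (Nat.cast_nonneg _)
            exact mul_le_mul_of_nonneg_left E3 y3.le)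
    linarith
  have lo : ∀ t : ℕ, 1 ≤ t → t ≤ τ' → r' - (4 * Θ + 8) ≤ rho s t := by
    intro t ht htN
    have htr : (t : ℝ) ≤ τ' := by exact_mod_cast htN
    have := rho_ge_blk hF (t := t) ht (by omega) (x := r') (by
      have y1 : (N : ℝ) = N * Real.exp (-r') * Real.exp r' := by
        rw [mul_assoc, ← Real.exp_add]; simp
      rw [y1]
      exact mul_le_mul_of_nonneg_right (htr.trans a3) (Real.exp_pos _).le)
    linarith
  have hb1 : τ' ≤ 2 * (τ' - τ) := by omega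
  refine ⟨by omega, hτ'N, ?_, lo _ (by omega) (by omega), ?_⟩
  · have q1 : rho s τ ≤ r + 1 + 2 * Θ + 1 := by
      refine rho_le_blk hF hτ1 (by omega) ?_
      have y1 : (N : ℝ) = N * Real.exp (-r) * Real.exp r := by
        rw [mul_assoc, ← Real.exp_add]; simp
      have y3 : (0 : ℝ) < Real.exp r := Real.exp_pos _
      calc (N : ℝ) = N * Real.exp (-r) * Real.exp r := y1
        _ ≤ 2 * τ * Real.exp r := mul_le_mul_of_nonneg_right a2 y3.le
        _ = τ * (Real.exp r * 2) := by ring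
        _ ≤ τ * (Real.exp r * Real.exp 1) := by
            refine mul_le_mul_of_nonneg_left ?_ (Nat.cast_nonneg _)
            exact mul_le_mul_of_nonneg_left E1 y3.le
        _ = τ * Real.exp (r + 1) := by rw [← Real.exp_add]
    have q2 : r' - 2 * Θ - 2 ≤ rho s (τ' - τ) := by
      refine rho_ge_blk hF (by omega) (by omega) ?_
      have y1 : (N : ℝ) = N * Real.exp (-r') * Real.exp r' := by
        rw [mul_assoc, ← Real.exp_add]; simp
      have htr : ((τ' - τ : ℕ) : ℝ) ≤ τ' := by exact_mod_cast Nat.sub_le _ _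
      rw [y1]
      exact mul_le_mul_of_nonneg_right (htr.trans a3) (Real.exp_pos _).le
    linarith
  · set b := τ' - τ with hb
    set b' := b / 2 with hb'
    have hkb : k0 ≤ b' := by omega
    have m1 : s * UU s (b - b') * ∑ k ∈ Icc k0 b', uu (τ + k)
        ≤ s * ∑ k ∈ Icc k0 b, UU s (b - k) * uu (τ + k) := by
      rw [mul_assoc]
      refine mul_le_mul_of_nonneg_left ?_ hs.le
      rw [Finset.mul_sum]
      calc ∑ k ∈ Icc k0 b', UU s (b - b') * uu (τ + k)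
          ≤ ∑ k ∈ Icc k0 b', UU s (b - k) * uu (τ + k) := by
            refine Finset.sum_le_sum fun k hkk => ?_
            have := (Finset.mem_Icc.1 hkk).2
            exact mul_le_mul_of_nonneg_right (UU_mono hs.le (by omega)) (uu_pos _).le
        _ ≤ ∑ k ∈ Icc k0 b, UU s (b - k) * uu (τ + k) := by
            refine Finset.sum_le_sum_of_subset_of_nonneg
              (Finset.Icc_subset_Icc le_rfl (by omega))
              fun k _ _ => mul_nonneg (UU_nonneg_blk hs _) (uu_pos _).le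
    refine le_trans ?_ m1
    have m2 := sum_uu_blk (s := s) (τ := τ) (k0 := k0) (b := b') (by omega) (by omega)
    have m3 : r - h - 2 - 2 * Θ - 2 ≤ rho s (τ + k0 - 1) := by
      refine rho_ge_blk hF (by omega) (by omega) ?_
      have y1 : (N : ℝ) = N * Real.exp (-r) * Real.exp r := by
        rw [mul_assoc, ← Real.exp_add]; simp
      have y2 : ((τ + k0 - 1 : ℕ) : ℝ) ≤ 2 * k0 := by
        have : τ + k0 - 1 ≤ 2 * k0 := by omega
        exact_mod_cast this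
      have y3 : Real.exp (r - h - 2) = Real.exp r * (Real.exp h)⁻¹ * (Real.exp 2)⁻¹ := by
        rw [← Real.exp_neg, ← Real.exp_neg, ← Real.exp_add, ← Real.exp_add]; congr 1
      have y4 : (0 : ℝ) < Real.exp h := Real.exp_pos _
      have y5 : (0 : ℝ) < Real.exp 2 := Real.exp_pos _
      have y6 : (0 : ℝ) < Real.exp r := Real.exp_pos _
      calc ((τ + k0 - 1 : ℕ) : ℝ) * Real.exp (r - h - 2)
          ≤ 4 * τ * Real.exp h * Real.exp (r - h - 2) := by
            refine mul_le_mul_of_nonneg_right (by linarith) (Real.exp_pos _).le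
        _ = τ * Real.exp r * (4 * (Real.exp 2)⁻¹) := by
            rw [y3]; field_simp
        _ ≤ τ * Real.exp r * 1 := by
            refine mul_le_mul_of_nonneg_left ?_ (by positivity)
            rw [← div_eq_mul_inv, div_le_one y5]
            exact E2
        _ ≤ N * Real.exp (-r) * Real.exp r := by
            rw [mul_one]
            exact mul_le_mul_of_nonneg_right a1 y6.le
        _ = N := y1.symm
    have m4 : rho s (τ + b') ≤ r' + 2 * Θ + 4 := by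
      have htr : (τ' : ℝ) ≤ 8 * ((τ + b' : ℕ) : ℝ) := by
        have : τ' ≤ 8 * (τ + b') := by omega
        exact_mod_cast this
      have := rho_le_blk hF (t := τ + b') (by omega) (by omega) (x := r' + 3) (by
        have y1 : (N : ℝ) = N * Real.exp (-r') * Real.exp r' := by
          rw [mul_assoc, ← Real.exp_add]; simp
        have y2 : Real.exp (r' + 3) = Real.exp r' * Real.exp 3 := Real.exp_add _ _
        rw [y2]
        have y3 : (0 : ℝ) < Real.exp r' := Real.exp_pos _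
        have y4 : (N : ℝ) * Real.exp (-r') ≤ ((τ + b' : ℕ) : ℝ) * 16 := by linarith
        calc (N : ℝ) = N * Real.exp (-r') * Real.exp r' := y1
          _ ≤ ((τ + b' : ℕ) : ℝ) * 16 * Real.exp r' := mul_le_mul_of_nonneg_right y4 y3.le
          _ = ((τ + b' : ℕ) : ℝ) * (Real.exp r' * 16) := by ring
          _ ≤ ((τ + b' : ℕ) : ℝ) * (Real.exp r' * Real.exp 3) := by
              refine mul_le_mul_of_nonneg_left ?_ (Nat.cast_nonneg _)
              exact mul_le_mul_of_nonneg_left E3 y3.le)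
      linarith
    have m5 : r' - (4 * Θ + 8) ≤ rho s (b - b') := lo _ (by omega) (by omega)
    have m6 : rho s (b - b') ≤ r' + (4 * Θ + 8) := up _ (by omega) (by omega)
    have m7 := le_sUU hs (t := b - b') (by linarith)
    have m8 : r - r' - h - (4 * Θ + 8) ≤ Real.pi * ∑ k ∈ Icc k0 b', uu (τ + k) := by
      rw [m2]; linarith
    set S := ∑ k ∈ Icc k0 b', uu (τ + k) with hS
    have hS0 : 0 ≤ S := Finset.sum_nonneg fun k _ => (uu_pos _).le
    set ρ := rho s (b - b') with hρ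
    have hρp : 0 < ρ := by linarith
    have n1 : 1 - 27 / (r' - (4 * Θ + 8)) ≤ 1 - 27 / ρ := by
      have : 27 / ρ ≤ 27 / (r' - (4 * Θ + 8)) :=
        div_le_div_of_nonneg_left (by norm_num) (by linarith) m5
      linarith
    have n2 : 0 ≤ 1 - 27 / (r' - (4 * Θ + 8)) := by
      have : 27 / (r' - (4 * Θ + 8)) ≤ 1 := by
        rw [div_le_one (by linarith)]; linarith
      linarith
    calc (r - r' - h - (4 * Θ + 8)) / (r' + (4 * Θ + 8)) * (1 - 27 / (r' - (4 * Θ + 8)))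
        ≤ (Real.pi * S) / (r' + (4 * Θ + 8)) * (1 - 27 / (r' - (4 * Θ + 8))) := by
          refine mul_le_mul_of_nonneg_right ?_ n2
          exact div_le_div_of_nonneg_right m8 (by linarith)
      _ ≤ (Real.pi * S) / ρ * (1 - 27 / ρ) := by
          refine mul_le_mul ?_ n1 n2 (by positivity)
          exact div_le_div_of_nonneg_left (by positivity) hρp m6
      _ = Real.pi / ρ * (1 - 27 / ρ) * S := by ring
      _ ≤ s * UU s (b - b') * S := mul_le_mul_of_nonneg_right m7 hS0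

/-! ### numerical lemmas -/

theorem blk_num1 {c L δ r r' : ℝ} (hc : 0 ≤ c) (hL : c + 30 ≤ L) (hδ : δ * L ^ 4 = 1)
    (hr : L ^ 18 ≤ r') (hgap : δ * r' ≤ r - r') :
    δ * (1 - 1 / (2 * L)) ≤ (r - r' - L ^ 2 - c) / (r' + c) * (1 - 27 / (r' - c)) := by
  have hL1 : 30 ≤ L := by linarith
  have hLp : 0 < L := by linarith
  have hδ0 : 0 < δ := by
    have : 0 < δ * L ^ 4 := by rw [hδ]; norm_num
    exact pos_of_mul_pos_left this (by positivity)
  have hδ1 : δ ≤ 1 := by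
    have h4 : 1 ≤ L ^ 4 := one_le_pow₀ (by linarith)
    nlinarith
  have hL13 : 30 * L ^ 2 ≤ L ^ 13 := by
    have h11 : 30 ≤ L ^ 11 := hL1.trans (le_self_pow₀ (by linarith) (by norm_num))
    calc 30 * L ^ 2 ≤ L ^ 11 * L ^ 2 := mul_le_mul_of_nonneg_right h11 (by positivity)
      _ = L ^ 13 := by ring
  have hr1 : L ≤ r' := (le_self_pow₀ (by linarith) (by norm_num)).trans hr
  have d1 : L ^ 14 ≤ δ * r' := by
    calc L ^ 14 = δ * L ^ 4 * L ^ 14 := by rw [hδ, one_mul]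
      _ = δ * L ^ 18 := by ring
      _ ≤ δ * r' := mul_le_mul_of_nonneg_left hr hδ0.le
  have d2 : L ^ 13 / 2 ≤ δ * r' * (1 / (2 * L)) := by
    have : L ^ 14 * (1 / (2 * L)) = L ^ 13 / 2 := by field_simp
    rw [← this]
    exact mul_le_mul_of_nonneg_right d1 (by positivity)
  have d3 : δ * (c + 27) + (L ^ 2 + c) ≤ L ^ 13 / 2 := by
    have : δ * (c + 27) ≤ c + 27 := by nlinarith
    nlinarith
  have p1 : 0 < r' + c := by linarith
  have p2 : 0 < r' - c := by linarith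
  have g0 : (1 : ℝ) - 27 / (r' - c) = (r' - c - 27) / (r' - c) := by
    field_simp
  rw [g0, div_mul_div_comm, le_div_iff₀ (by positivity)]
  have g1 : (δ * r' - (L ^ 2 + c)) * (r' - c - 27) ≤ (r - r' - L ^ 2 - c) * (r' - c - 27) :=
    mul_le_mul_of_nonneg_right (by linarith) (by linarith)
  refine le_trans ?_ g1
  have h2 : 0 ≤ 1 / (2 * L) := by positivity
  have h2' : 1 / (2 * L) ≤ 1 := by
    rw [div_le_one (by positivity)]; linarith
  set w := 1 / (2 * L) with hw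
  have k1 : 0 ≤ r' * (δ * r' * w - (δ * (c + 27) + (L ^ 2 + c))) :=
    mul_nonneg (by linarith) (by linarith)
  have k2 : 0 ≤ δ * c ^ 2 * (1 - w) := mul_nonneg (by positivity) (by linarith)
  have k3 : 0 ≤ (L ^ 2 + c) * (c + 27) := by positivity
  nlinarith

theorem blk_num2 {c L δ r r' : ℝ} (hc : 0 ≤ c) (hL : c + 30 ≤ L) (hδ : δ * L ^ 4 = 1)
    (hr : L ^ 18 ≤ r') (hgap : r - r' ≤ (δ + δ ^ 2) * r') :
    (r - r' + c) / (r' - c) ≤ 2 * δ := by
  have hL1 : 30 ≤ L := by linarith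
  have hLp : 0 < L := by linarith
  have hδ0 : 0 < δ := by
    have : 0 < δ * L ^ 4 := by rw [hδ]; norm_num
    exact pos_of_mul_pos_left this (by positivity)
  have hδ1 : δ ≤ 1 / 30 := by
    have h4 : 30 ≤ L ^ 4 := hL1.trans (le_self_pow₀ (by linarith) (by norm_num))
    nlinarith
  have hr1 : L ≤ r' := (le_self_pow₀ (by linarith) (by norm_num)).trans hr
  have d1 : L ^ 14 ≤ δ * r' := by
    calc L ^ 14 = δ * L ^ 4 * L ^ 14 := by rw [hδ, one_mul]
      _ = δ * L ^ 18 := by ring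
      _ ≤ δ * r' := mul_le_mul_of_nonneg_left hr hδ0.le
  have d2 : 30 * L ≤ L ^ 14 := by
    have h11 : 30 ≤ L ^ 13 := hL1.trans (le_self_pow₀ (by linarith) (by norm_num))
    calc 30 * L ≤ L ^ 13 * L := mul_le_mul_of_nonneg_right h11 (by positivity)
      _ = L ^ 14 := by ring
  rw [div_le_iff₀ (by linarith)]
  have k1 : δ ^ 2 * r' ≤ δ * r' / 30 := by
    have : δ * (δ * r') ≤ 1 / 30 * (δ * r') :=
      mul_le_mul_of_nonneg_right hδ1 (mul_nonneg hδ0.le (by linarith))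
    nlinarith
  nlinarith

theorem blk_num3 {B L δ : ℝ} (hB : 0 < B) (hL : 8 * B + 10 / B + 60 ≤ Real.sqrt L)
    (hδ : δ * L ^ 4 = 1) :
    Real.exp (-(4 * B / Real.sqrt L * L)) * Real.exp (4 * B / Real.sqrt L *
        (4 * B / Real.sqrt L + 1) / 2 * L + 1)
      + 1 / (δ / (4 * L) * Real.exp (-L)) * Real.exp (-L ^ 2) ≤ Real.exp (-(B * Real.sqrt L)) := by
  set q := Real.sqrt L with hq
  have hBi : 0 < 10 / B := by positivity
  have hq60 : 60 ≤ q := by linarith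
  have hqp : 0 < q := by linarith
  have hLq : L = q ^ 2 := by
    rw [hq, Real.sq_sqrt]
    by_contra hneg
    have : Real.sqrt L = 0 := Real.sqrt_eq_zero_of_nonpos (by linarith)
    rw [← hq] at this
    linarith
  have e1 : 4 * B / q * L = 4 * B * q := by rw [hLq]; field_simp
  have e2 : 4 * B / q * (4 * B / q + 1) / 2 * L = 8 * B ^ 2 + 2 * B * q := by
    rw [hLq]; field_simp; ring
  rw [e1, e2, ← Real.exp_add]
  have hBq : B * q ≥ 8 * B ^ 2 + 10 := by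
    have : B * (8 * B + 10 / B + 60) ≤ B * q := mul_le_mul_of_nonneg_left hL hB.le
    have h2 : B * (10 / B) = 10 := by field_simp
    nlinarith
  have f1 : Real.exp (-(4 * B * q) + (8 * B ^ 2 + 2 * B * q + 1)) ≤
      Real.exp (-(B * q)) * Real.exp (-1) := by
    rw [← Real.exp_add]
    apply Real.exp_le_exp.2
    linarith
  have hL60 : 3600 ≤ L := by rw [hLq]; nlinarith
  have hLp : 0 < L := by linarith
  have hδ0 : 0 < δ := by
    have : 0 < δ * L ^ 4 := by rw [hδ]; norm_num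
    exact pos_of_mul_pos_left this (by positivity)
  have hδe : δ = 1 / L ^ 4 := by field_simp; linarith
  have f2 : 1 / (δ / (4 * L) * Real.exp (-L)) * Real.exp (-L ^ 2)
      = 4 * L ^ 5 * Real.exp (L - L ^ 2) := by
    rw [hδe, Real.exp_neg, sub_eq_add_neg, Real.exp_add, neg_eq_zero_sub]
    have := Real.exp_pos L
    field_simp
  rw [f2]
  have f3 : 4 * L ^ 5 ≤ Real.exp (6 * L) := by
    have g1 : L ≤ Real.exp L := by linarith [Real.add_one_le_exp L]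
    have g2 : (4 : ℝ) ≤ Real.exp L := by linarith [Real.add_one_le_exp L]
    have g3 : L ^ 5 ≤ Real.exp L ^ 5 := pow_le_pow_left₀ hLp.le g1 5
    have g4 : Real.exp (6 * L) = Real.exp L * Real.exp L ^ 5 := by
      rw [← Real.exp_nat_mul, ← Real.exp_add]; congr 1; push_cast; ring
    rw [g4]
    exact mul_le_mul g2 g3 (by positivity) (Real.exp_pos _).le
  have f4 : 4 * L ^ 5 * Real.exp (L - L ^ 2) ≤ Real.exp (-(B * q)) * Real.exp (-1) := by
    calc 4 * L ^ 5 * Real.exp (L - L ^ 2) ≤ Real.exp (6 * L) * Real.exp (L - L ^ 2) :=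
          mul_le_mul_of_nonneg_right f3 (Real.exp_pos _).le
      _ = Real.exp (7 * L - L ^ 2) := by rw [← Real.exp_add]; congr 1; ring
      _ ≤ Real.exp (-(B * q) + -1) := by
          apply Real.exp_le_exp.2
          have hBle : B ≤ q := by nlinarith
          have : B * q ≤ L := by rw [hLq]; nlinarith
          nlinarith
      _ = _ := Real.exp_add _ _
  have f5 : Real.exp (-1) ≤ 1 / 2 := by
    have := Real.exp_one_gt_d9
    rw [Real.exp_neg, ← one_div]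
    apply one_div_le_one_div_of_le (by norm_num)
    linarith
  have f6 : 0 < Real.exp (-(B * q)) := Real.exp_pos _
  nlinarith

theorem tau_spec_blk {y : ℝ} (hy : 4 ≤ y) : Even (2 * ⌊y / 2⌋₊) ∧ 2 ≤ 2 * ⌊y / 2⌋₊ ∧
    ((2 * ⌊y / 2⌋₊ : ℕ) : ℝ) ≤ y ∧ y ≤ 2 * ((2 * ⌊y / 2⌋₊ : ℕ) : ℝ) := by
  have h1 : (⌊y / 2⌋₊ : ℝ) ≤ y / 2 := Nat.floor_le (by linarith)
  have h2 : y / 2 < ⌊y / 2⌋₊ + 1 := Nat.lt_floor_add_one _
  have h3 : 2 ≤ ⌊y / 2⌋₊ := Nat.le_floor (by push_cast; linarith)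
  have h3' : (2 : ℝ) ≤ ⌊y / 2⌋₊ := by exact_mod_cast h3
  refine ⟨even_two_mul _, by omega, ?_, ?_⟩
  · push_cast; linarith
  · push_cast; linarith

theorem exp_sub_blk {δ : ℝ} (h0 : 0 ≤ δ) (h1 : δ ≤ 1) :
    1 + δ ≤ Real.exp δ ∧ Real.exp δ ≤ 1 + δ + δ ^ 2 := by
  refine ⟨by linarith [Real.add_one_le_exp δ], ?_⟩
  have := Real.abs_exp_sub_one_sub_id_le (x := δ) (by rw [abs_of_nonneg h0]; exact h1)
  have := (abs_le.1 this).2
  linarith


/-! ### the good sets -/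

theorem measurable_Df (p : G → ℝ≥0) (s : ℝ) (τ k0 b : ℕ) : Measurable (Df p s τ k0 b) := by
  have : Df p s τ k0 b = fun W : G → ℝ≥0 => ∑ x, Dc p s τ k0 b x * (W x : ℝ) := by
    funext W
    rw [Df_eq_sum]
  rw [this]
  refine Finset.measurable_sum _ fun x _ => measurable_const.mul ?_
  exact measurable_coe_nnreal_real.comp (measurable_pi_apply x)

theorem Df_smul (p : G → ℝ≥0) (s : ℝ) (τ k0 b : ℕ) (c : ℝ≥0) (W : G → ℝ≥0) :
    Df p s τ k0 b (c • W) = c * Df p s τ k0 b W := by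
  rw [Df_eq_sum, Df_eq_sum, Finset.mul_sum]
  refine Finset.sum_congr rfl fun x _ => ?_
  rw [Pi.smul_apply, smul_eq_mul]
  push_cast
  ring

omit [DecidableEq G] [AddCommGroup G] in
theorem mass_smul_blk (c : ℝ≥0) (W : G → ℝ≥0) : mass (c • W) = c * mass W := by
  unfold mass
  rw [Finset.mul_sum]
  rfl

/-- the good set -/
def Gd (p : G → ℝ≥0) (s : ℝ) (τ k0 b : ℕ) (η : ℝ) : Set (G → ℝ≥0) :=
  {W | Df p s τ k0 b W ≤ η * (mass W : ℝ)}

theorem measurable_mass_real : Measurable (fun W : G → ℝ≥0 => (mass W : ℝ)) :=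
  measurable_coe_nnreal_real.comp measurable_mass

theorem measurableSet_Gd (p : G → ℝ≥0) (s : ℝ) (τ k0 b : ℕ) (η : ℝ) :
    MeasurableSet (Gd p s τ k0 b η) :=
  measurableSet_le (measurable_Df p s τ k0 b) (measurable_const.mul measurable_mass_real)

theorem Gd_smul {p : G → ℝ≥0} {s : ℝ} {τ k0 b : ℕ} {η : ℝ} {W : G → ℝ≥0}
    (hW : W ∈ Gd p s τ k0 b η) (c : ℝ≥0) : c • W ∈ Gd p s τ k0 b η := by
  show Df p s τ k0 b (c • W) ≤ η * (mass (c • W) : ℝ)
  rw [Df_smul, mass_smul_blk]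
  have h : Df p s τ k0 b W ≤ η * (mass W : ℝ) := hW
  push_cast
  have := mul_le_mul_of_nonneg_left h (NNReal.coe_nonneg c)
  linarith

theorem Gd_prob {p : G → ℝ≥0} {N : ℕ} {m : Measure ℝ≥0} {s C4 : ℝ} (hw : Walk p (4 * N))
    (hm : Law m s C4) {τ k0 b : ℕ} (hτ : Even τ) (hτ2 : 2 ≤ τ) (hk : 1 ≤ k0)
    (h : 2 * τ + b ≤ 4 * N) (hτN : τ ≤ N) {η x a : ℝ} (hη : 0 < η) (hx : 0 < x) (ha : 0 < a) :
    (TT p m)^[τ] ((Gd p s τ k0 b η)ᶜ.indicator (fun _ => 1)) dl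
      ≤ ENNReal.ofReal (x ^ a) * (TT p m)^[N] (nm a) dl
        + ENNReal.ofReal (1 / (η * x)) * ENNReal.ofReal (s * UU s b * (τ / k0)) := by
  have := hm.prob
  have hs := hm.s_pos
  have hxa : 0 < x ^ a := Real.rpow_pos_of_pos hx a
  have hpt : ∀ V : G → ℝ≥0, (Gd p s τ k0 b η)ᶜ.indicator (fun _ => (1 : ℝ≥0∞)) V
      ≤ ENNReal.ofReal (x ^ a) * nm a V
        + ENNReal.ofReal (1 / (η * x)) * ENNReal.ofReal (Df p s τ k0 b V) := by
    intro V
    by_cases hV : V ∈ Gd p s τ k0 b η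
    · rw [Set.indicator_of_notMem (by simpa using hV)]
      exact zero_le
    · rw [Set.indicator_of_mem (by simpa using hV)]
      have hV' : η * (mass V : ℝ) < Df p s τ k0 b V := by
        have : ¬ (Df p s τ k0 b V ≤ η * (mass V : ℝ)) := hV
        exact not_le.1 this
      by_cases hmx : (mass V : ℝ) < x
      · refine le_trans ?_ (le_self_add)
        unfold nm
        rcases eq_or_ne (mass V) 0 with h0 | h0
        · rw [h0, ENNReal.coe_zero, ENNReal.zero_rpow_of_neg (by linarith), ENNReal.mul_top]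
          · exact le_top
          · simpa using hxa
        · have hmp : 0 < (mass V : ℝ) := by
            have := pos_iff_ne_zero.2 h0
            exact_mod_cast this
          have e : ((mass V : ℝ≥0) : ℝ≥0∞) = ENNReal.ofReal (mass V : ℝ) := by
            rw [ENNReal.ofReal_coe_nnreal]
          rw [e, ENNReal.ofReal_rpow_of_pos hmp, ← ENNReal.ofReal_mul hxa.le]
          rw [← ENNReal.ofReal_one]
          apply ENNReal.ofReal_le_ofReal
          rw [Real.rpow_neg hmp.le, ← div_eq_mul_inv, one_le_div (Real.rpow_pos_of_pos hmp a)]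
          exact Real.rpow_le_rpow hmp.le hmx.le ha.le
      · refine le_trans ?_ (le_add_self)
        rw [← ENNReal.ofReal_mul (by positivity), ← ENNReal.ofReal_one]
        apply ENNReal.ofReal_le_ofReal
        have hD : η * x ≤ Df p s τ k0 b V := by
          have : η * x ≤ η * (mass V : ℝ) := mul_le_mul_of_nonneg_left (not_lt.1 hmx) hη.le
          linarith
        rw [one_div, ← div_eq_inv_mul, one_le_div (by positivity)]
        exact hD
  have m1 : Measurable (fun V : G → ℝ≥0 => ENNReal.ofReal (x ^ a) * nm a V) :=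
    measurable_const.mul (measurable_nm a)
  have m2 : Measurable (fun V : G → ℝ≥0 => ENNReal.ofReal (Df p s τ k0 b V)) :=
    (measurable_Df p s τ k0 b).ennreal_ofReal
  refine (TTn_mono hpt τ dl).trans ?_
  rw [TTn_add m1, TTn_const_mul (measurable_nm a), TTn_const_mul m2]
  refine add_le_add ?_ ?_
  · exact mul_le_mul_right (TTn_mono_n (nm_le_TT hw hm ha) hτN dl) _
  · exact mul_le_mul_right (TTn_Df_le hw hm hτ hτ2 hk h) _


/-! ### assembly -/

theorem blk_num4 {A : ℕ} {C L Λ δ ρ0 ρb d t : ℝ} (hC : 0 < C) (hL : 8 * C + 30 ≤ L)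
    (hδ : δ * L ^ 4 = 1) (hd : d ≤ 2 * δ) (hρb : L ^ 2 ≤ ρb) (hρ0 : 0 ≤ ρ0) (hρ : ρ0 ≤ 2 * Λ)
    (hLΛ : L ≤ Λ) (hE : 16 * C * (2 * Λ) ^ (A + 1) ≤ Real.exp (Λ / 2))
    (ht : Real.exp (Λ / 2) ≤ 2 * t) :
    C * (d + 1 / ρb + (ρ0 / ρb) ^ A / t) ≤ L⁻¹ := by
  have hLp : 0 < L := by linarith
  have hL4 : 0 < L ^ 4 := by positivity
  have hδe : δ = 1 / L ^ 4 := by field_simp; linarith
  have hρbp : 1 ≤ ρb := by nlinarith
  have htp : 0 < t := by linarith [Real.exp_pos (Λ / 2)]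
  have hΛp : 0 < Λ := by linarith
  have e1 : C * d ≤ 1 / (4 * L) := by
    have : C * d ≤ C * (2 * δ) := mul_le_mul_of_nonneg_left hd hC.le
    refine this.trans ?_
    rw [hδe]
    have e : C * (2 * (1 / L ^ 4)) = (2 * C) / L ^ 4 := by field_simp
    rw [e, div_le_div_iff₀ hL4 (by positivity)]
    have h8 : 8 * C ≤ L ^ 3 := by
      have : L ≤ L ^ 3 := le_self_pow₀ (by linarith) (by norm_num)
      linarith
    nlinarith
  have e2 : C * (1 / ρb) ≤ 1 / (4 * L) := by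
    rw [mul_one_div, div_le_div_iff₀ (by linarith) (by positivity)]
    nlinarith
  have e3 : C * ((ρ0 / ρb) ^ A / t) ≤ 1 / (4 * L) := by
    have h1 : (ρ0 / ρb) ^ A ≤ (2 * Λ) ^ A := by
      refine pow_le_pow_left₀ (by positivity) ?_ A
      exact (div_le_self hρ0 hρbp).trans hρ
    have h2 : (ρ0 / ρb) ^ A / t ≤ (2 * Λ) ^ A / t := div_le_div_of_nonneg_right h1 htp.le
    refine (mul_le_mul_of_nonneg_left h2 hC.le).trans ?_
    rw [← mul_div_assoc, div_le_div_iff₀ htp (by positivity)]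
    have h3 : 16 * C * (2 * Λ) ^ (A + 1) ≤ 2 * t := hE.trans ht
    rw [pow_succ] at h3
    have h4 : 0 < C * (2 * Λ) ^ A := by positivity
    nlinarith [mul_le_mul_of_nonneg_left hLΛ h4.le]
  have e4 : 1 / (4 * L) + 1 / (4 * L) + 1 / (4 * L) ≤ L⁻¹ := by
    have : L⁻¹ = 4 * (1 / (4 * L)) := by field_simp
    rw [this]
    have : 0 < 1 / (4 * L) := by positivity
    linarith
  calc C * (d + 1 / ρb + (ρ0 / ρb) ^ A / t)
      = C * d + C * (1 / ρb) + C * ((ρ0 / ρb) ^ A / t) := by ring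
    _ ≤ L⁻¹ := by linarith

theorem exists_N_blk (L0 K : ℝ) (A N1 N2 : ℕ) : ∃ N0 : ℕ, ∀ N ≥ N0,
    L0 ≤ Real.log (Real.log (N : ℝ)) ∧
    2 * Real.log (Real.log (N : ℝ)) ^ 19 ≤ Real.exp (Real.log (Real.log (N : ℝ))) ∧
    K * (2 * Real.log (N : ℝ)) ^ (A + 1) ≤ Real.exp (Real.log (N : ℝ) / 2) ∧ N1 ≤ N ∧ N2 ≤ N := by
  have hΛt : Filter.Tendsto (fun N : ℕ => Real.log (N : ℝ)) Filter.atTop Filter.atTop :=
    Real.tendsto_log_atTop.comp tendsto_natCast_atTop_atTop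
  have hLt : Filter.Tendsto (fun N : ℕ => Real.log (Real.log (N : ℝ))) Filter.atTop
      Filter.atTop := Real.tendsto_log_atTop.comp hΛt
  have f1 : ∀ᶠ x : ℝ in Filter.atTop, 2 * x ^ 19 ≤ Real.exp x := by
    have h := Real.tendsto_exp_div_pow_atTop 19
    filter_upwards [h.eventually_ge_atTop 2, Filter.eventually_gt_atTop 0] with x hx hx0
    rwa [le_div_iff₀ (by positivity)] at hx
  have f2 : ∀ᶠ x : ℝ in Filter.atTop, K * (2 * x) ^ (A + 1) ≤ Real.exp (x / 2) := by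
    have h := Real.tendsto_exp_div_pow_atTop (A + 1)
    have h2 : Filter.Tendsto (fun x : ℝ => x / 2) Filter.atTop Filter.atTop :=
      Filter.tendsto_id.atTop_div_const (by norm_num)
    filter_upwards [(h.comp h2).eventually_ge_atTop (K * 4 ^ (A + 1)),
      Filter.eventually_gt_atTop 0] with x hx hx0
    simp only [Function.comp] at hx
    rw [le_div_iff₀ (by positivity)] at hx
    refine le_trans (le_of_eq ?_) hx
    rw [mul_assoc, ← mul_pow]
    congr 2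
    ring
  have h := ((hLt.eventually_ge_atTop L0).and ((hLt.eventually f1).and ((hΛt.eventually f2).and
    ((Filter.eventually_ge_atTop N1).and (Filter.eventually_ge_atTop N2)))))
  obtain ⟨N0, hN0⟩ := h.exists_forall_of_atTop
  exact ⟨N0, fun N hN => hN0 N hN⟩

theorem blk_levels {Λ L δ : ℝ} (hΛe : Λ = Real.exp L) (hL70 : 70 ≤ L) (hδL : δ * L ^ 4 = 1)
    (e2 : 2 * L ^ 19 ≤ Real.exp L) : ∃ (n : ℕ) (r : ℕ → ℝ), (n : ℝ) * δ ≤ L ∧
      L - 20 * Real.log L ≤ n * δ ∧ (∀ j ≤ n, L ^ 18 ≤ r j) ∧ (∀ j, 0 < r j) ∧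
      (∀ j, r j ≤ Λ / 2) ∧ (∀ j, δ * r (j + 1) ≤ r j - r (j + 1)) ∧
      (∀ j, r j - r (j + 1) ≤ (δ + δ ^ 2) * r (j + 1)) := by
  have hLp : 0 < L := by linarith
  have hL4p : 0 < L ^ 4 := by positivity
  have hΛp : 0 < Λ := by rw [hΛe]; exact Real.exp_pos _
  have hδ0 : 0 < δ := by
    have : 0 < δ * L ^ 4 := by rw [hδL]; norm_num
    exact pos_of_mul_pos_left this hL4p.le
  have hL4 : L ≤ L ^ 4 := le_self_pow₀ (by linarith) (by norm_num)
  have hδ1 : δ ≤ 1 := by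
    by_contra hcon
    have : 1 * L ^ 4 ≤ δ * L ^ 4 := mul_le_mul_of_nonneg_right (not_le.1 hcon).le hL4p.le
    linarith
  have hlogL1 : 1 ≤ Real.log L := by
    rw [Real.le_log_iff_exp_le hLp]
    linarith [Real.exp_one_lt_d9]
  have hL19 : 19 * Real.log L ≤ L := by
    have h1 : Real.log (L ^ 19) ≤ Real.log (Real.exp L) := by
      apply Real.log_le_log (by positivity)
      have : 0 < L ^ 19 := by positivity
      linarith
    rw [Real.log_exp, Real.log_pow] at h1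
    exact_mod_cast h1
  obtain ⟨x1, x2⟩ := exp_sub_blk hδ0.le hδ1
  have hn1 : ((⌊(L - 19 * Real.log L) / δ⌋₊ : ℕ) : ℝ) * δ ≤ L - 19 * Real.log L := by
    have := Nat.floor_le (div_nonneg (by linarith : 0 ≤ L - 19 * Real.log L) hδ0.le)
    rwa [le_div_iff₀ hδ0] at this
  have hn2 : L - 19 * Real.log L < (((⌊(L - 19 * Real.log L) / δ⌋₊ : ℕ) : ℝ) + 1) * δ := by
    have := Nat.lt_floor_add_one ((L - 19 * Real.log L) / δ)
    rwa [div_lt_iff₀ hδ0] at this
  have hr0 : ∀ j : ℕ, 0 < Λ / 2 * Real.exp (-(δ * j)) := fun j => by positivity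
  have hrr : ∀ j : ℕ, Λ / 2 * Real.exp (-(δ * j))
      = Real.exp δ * (Λ / 2 * Real.exp (-(δ * ((j + 1 : ℕ) : ℝ)))) := by
    intro j
    have : Real.exp (-(δ * j)) = Real.exp δ * Real.exp (-(δ * ((j + 1 : ℕ) : ℝ))) := by
      rw [← Real.exp_add]; congr 1; push_cast; ring
    rw [this]; ring
  refine ⟨⌊(L - 19 * Real.log L) / δ⌋₊, fun j => Λ / 2 * Real.exp (-(δ * j)), by linarith,
    by linarith, ?_, hr0, ?_, ?_, ?_⟩
  · intro j hj
    have hjn : (j : ℝ) * δ ≤ L - 19 * Real.log L := by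
      have : (j : ℝ) ≤ (⌊(L - 19 * Real.log L) / δ⌋₊ : ℕ) := by exact_mod_cast hj
      exact (mul_le_mul_of_nonneg_right this hδ0.le).trans hn1
    have h1 : Real.exp (19 * Real.log L - L) ≤ Real.exp (-(δ * j)) := by
      apply Real.exp_le_exp.2
      linarith
    have h2 : Real.exp (19 * Real.log L - L) = L ^ 19 / Λ := by
      rw [Real.exp_sub, ← hΛe]
      congr 1
      have : (19 : ℝ) * Real.log L = ((19 : ℕ) : ℝ) * Real.log L := by norm_num
      rw [this, Real.exp_nat_mul, Real.exp_log hLp]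
    rw [h2] at h1
    have h3 : Λ / 2 * (L ^ 19 / Λ) = L ^ 19 / 2 := by field_simp
    have h4 : L ^ 19 / 2 ≤ Λ / 2 * Real.exp (-(δ * j)) := by
      rw [← h3]
      exact mul_le_mul_of_nonneg_left h1 (by positivity)
    refine le_trans ?_ h4
    have e19 : L ^ 19 = L ^ 18 * L := by ring
    rw [e19]
    have h18 : 0 < L ^ 18 := by positivity
    have : L ^ 18 * 2 ≤ L ^ 18 * L := mul_le_mul_of_nonneg_left (by linarith) h18.le
    linarith
  · intro j
    have h1 : Real.exp (-(δ * j)) ≤ 1 := Real.exp_le_one_iff.2 (by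
      have : 0 ≤ δ * (j : ℝ) := by positivity
      linarith)
    have := mul_le_mul_of_nonneg_left h1 (by positivity : 0 ≤ Λ / 2)
    linarith
  · intro j
    show δ * (Λ / 2 * Real.exp (-(δ * ((j + 1 : ℕ) : ℝ)))) ≤ Λ / 2 * Real.exp (-(δ * j))
      - Λ / 2 * Real.exp (-(δ * ((j + 1 : ℕ) : ℝ)))
    rw [hrr j]
    have := mul_le_mul_of_nonneg_right x1 (hr0 (j + 1)).le
    linarith
  · intro j
    show Λ / 2 * Real.exp (-(δ * j)) - Λ / 2 * Real.exp (-(δ * ((j + 1 : ℕ) : ℝ)))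
      ≤ (δ + δ ^ 2) * (Λ / 2 * Real.exp (-(δ * ((j + 1 : ℕ) : ℝ))))
    rw [hrr j]
    have := mul_le_mul_of_nonneg_right x2 (hr0 (j + 1)).le
    linarith

theorem blk_pow {L : ℝ} (hL70 : 70 ≤ L) : L ^ 2 + 6 ≤ L ^ 14 ∧ 2 * L ^ 2 ≤ L ^ 18 ∧ L ≤ L ^ 18 ∧
    L ≤ L ^ 2 := by
  have h12 : 70 ≤ L ^ 12 := hL70.trans (le_self_pow₀ (by linarith) (by norm_num))
  have h16 : 70 ≤ L ^ 16 := hL70.trans (le_self_pow₀ (by linarith) (by norm_num))
  have h2 : L ≤ L ^ 2 := le_self_pow₀ (by linarith) (by norm_num)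
  refine ⟨?_, ?_, le_self_pow₀ (by linarith) (by norm_num), h2⟩
  · have : 70 * L ^ 2 ≤ L ^ 12 * L ^ 2 := mul_le_mul_of_nonneg_right h12 (by positivity)
    have e : L ^ 12 * L ^ 2 = L ^ 14 := by ring
    linarith
  · calc 2 * L ^ 2 ≤ L ^ 16 * L ^ 2 := mul_le_mul_of_nonneg_right (by linarith) (by positivity)
      _ = L ^ 18 := by ring

/-- probability of the bad set of one block -/
theorem blk_one_prob {p : G → ℝ≥0} {N : ℕ} {m : Measure ℝ≥0} {s C4 B L δ : ℝ}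
    (hw : Walk p (4 * N)) (hm : Law m s C4) (hB : 0 < B)
    (hLs : 8 * B + 10 / B + 60 ≤ Real.sqrt L) (hδL : δ * L ^ 4 = 1) (hLp : 0 < L)
    {τ b : ℕ} (hτ : Even τ) (hτ2 : 2 ≤ τ)
    (h : 2 * τ + b ≤ 4 * N) (hτN : τ ≤ N) (hρb : 4 ≤ rho s b)
    (hum : (TT p m)^[N] (nm (4 * B / Real.sqrt L)) (dl : G → ℝ≥0)
      ≤ ENNReal.ofReal (Real.exp (4 * B / Real.sqrt L *
          (4 * B / Real.sqrt L + 1) / 2 * L + 1))) :
    (TT p m)^[τ] ((Gd p s τ (τ * ⌈Real.exp (L ^ 2)⌉₊) b (δ / (4 * L)))ᶜ.indicator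
        (fun _ => 1)) dl ≤ ENNReal.ofReal (Real.exp (-(B * Real.sqrt L))) := by
  have hs := hm.s_pos
  have hδ0 : 0 < δ := by
    have : 0 < δ * L ^ 4 := by rw [hδL]; norm_num
    exact pos_of_mul_pos_left this (by positivity)
  have hceil : 1 ≤ ⌈Real.exp (L ^ 2)⌉₊ := Nat.one_le_ceil_iff.2 (Real.exp_pos _)
  have hk0 : 1 ≤ τ * ⌈Real.exp (L ^ 2)⌉₊ := Nat.mul_pos (by omega) hceil
  have haex : 0 < 4 * B / Real.sqrt L := by
    have : 0 < Real.sqrt L := Real.sqrt_pos.2 hLp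
    positivity
  have hp := Gd_prob hw hm hτ hτ2 hk0 h hτN (η := δ / (4 * L)) (x := Real.exp (-L))
    (a := 4 * B / Real.sqrt L) (by positivity) (Real.exp_pos _) haex
  refine hp.trans ?_
  have hsU : s * UU s b ≤ 1 := by
    refine (sUU_le hs (by linarith)).trans ?_
    rw [div_le_one (by linarith)]
    linarith [Real.pi_le_four]
  have hsU0 : 0 ≤ s * UU s b := mul_nonneg hs.le (UU_nonneg_blk hs _)
  have hτr : (0 : ℝ) < τ := by exact_mod_cast (by omega : 0 < τ)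
  have hfrac : (τ : ℝ) / ((τ * ⌈Real.exp (L ^ 2)⌉₊ : ℕ) : ℝ) ≤ Real.exp (-L ^ 2) := by
    push_cast
    rw [← div_div, div_self hτr.ne', Real.exp_neg, one_div]
    exact inv_anti₀ (Real.exp_pos _) (Nat.le_ceil _)
  have hfrac0 : 0 ≤ (τ : ℝ) / ((τ * ⌈Real.exp (L ^ 2)⌉₊ : ℕ) : ℝ) := by positivity
  have hprod : s * UU s b * ((τ : ℝ) / ((τ * ⌈Real.exp (L ^ 2)⌉₊ : ℕ) : ℝ))
      ≤ Real.exp (-L ^ 2) := by
    calc _ ≤ 1 * Real.exp (-L ^ 2) := mul_le_mul hsU hfrac hfrac0 zero_le_one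
      _ = _ := one_mul _
  have hxa : Real.exp (-L) ^ (4 * B / Real.sqrt L)
      = Real.exp (-(4 * B / Real.sqrt L * L)) := by
    rw [← Real.exp_mul]; congr 1; ring
  rw [hxa]
  calc ENNReal.ofReal (Real.exp (-(4 * B / Real.sqrt L * L)))
          * (TT p m)^[N] (nm (4 * B / Real.sqrt L)) dl
        + ENNReal.ofReal (1 / (δ / (4 * L) * Real.exp (-L)))
          * ENNReal.ofReal (s * UU s b * ((τ : ℝ) / ((τ * ⌈Real.exp (L ^ 2)⌉₊ : ℕ) : ℝ)))
      ≤ ENNReal.ofReal (Real.exp (-(4 * B / Real.sqrt L * L)))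
          * ENNReal.ofReal (Real.exp (4 * B / Real.sqrt L *
            (4 * B / Real.sqrt L + 1) / 2 * L + 1))
        + ENNReal.ofReal (1 / (δ / (4 * L) * Real.exp (-L)))
          * ENNReal.ofReal (Real.exp (-L ^ 2)) := by
        refine add_le_add ?_ ?_
        · exact mul_le_mul_right hum _
        · exact mul_le_mul_right (ENNReal.ofReal_le_ofReal hprod) _
    _ ≤ ENNReal.ofReal (Real.exp (-(B * Real.sqrt L))) := by
        rw [← ENNReal.ofReal_mul (Real.exp_pos _).le, ← ENNReal.ofReal_mul (by positivity),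
          ← ENNReal.ofReal_add (by positivity) (by positivity)]
        exact ENNReal.ofReal_le_ofReal (blk_num3 hB hLs hδL)

/-- K of one block, from below and from above -/
theorem blk_one_KK {p : G → ℝ≥0} {N : ℕ} {s L δ c r r' : ℝ}
    (hw : Walk p (4 * N)) (hs : 0 < s) (hc : 0 ≤ c) (hcL : c + 30 ≤ L) (hL70 : 70 ≤ L)
    (hδL : δ * L ^ 4 = 1) {τ b k0 : ℕ} (hτ1 : 1 ≤ τ) (hk0 : 1 ≤ k0) (hτb : τ ≤ b)
    (hbN : b ≤ N) (hr18 : L ^ 18 ≤ r') (g1 : δ * r' ≤ r - r') (g2 : r - r' ≤ (δ + δ ^ 2) * r')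
    (d3 : rho s τ - rho s b + 1 ≤ r - r' + c) (d4 : r' - c ≤ rho s b)
    (d5 : (r - r' - L ^ 2 - c) / (r' + c) * (1 - 27 / (r' - c))
        ≤ s * ∑ k ∈ Icc k0 b, UU s (b - k) * uu (τ + k))
    {W : G → ℝ≥0} (hWg : W ∈ Gd p s τ k0 b (δ / (4 * L))) (hmW : mass W = 1) :
    L ^ 2 ≤ rho s b ∧ (rho s τ - rho s b + 1) / rho s b ≤ 2 * δ ∧
    δ * (1 - L⁻¹) ≤ KK p s b ((conv p)^[τ] W) ∧ KK p s b ((conv p)^[τ] W) ≤ 2 * δ := by
  have hLp : 0 < L := by linarith
  obtain ⟨w1, w2, w3, w4⟩ := blk_pow hL70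
  have hδ0 : 0 < δ := by
    have : 0 < δ * L ^ 4 := by rw [hδL]; norm_num
    exact pos_of_mul_pos_left this (by positivity)
  have n1 := blk_num1 hc hcL hδL hr18 g1
  have n2 := blk_num2 hc hcL hδL hr18 g2
  have hρb : L ^ 2 ≤ rho s b := by linarith
  have hρbp : 0 < rho s b := by linarith
  have hmW' : (mass W : ℝ) = 1 := by rw [hmW]; norm_num
  have hratio : (rho s τ - rho s b + 1) / rho s b ≤ 2 * δ := by
    refine le_trans ?_ n2
    have h0 : 0 ≤ δ * r' := mul_nonneg hδ0.le (by linarith)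
    calc (rho s τ - rho s b + 1) / rho s b
        ≤ (r - r' + c) / rho s b := div_le_div_of_nonneg_right d3 hρbp.le
      _ ≤ (r - r' + c) / (r' - c) :=
          div_le_div_of_nonneg_left (by linarith) (by linarith) d4
  refine ⟨hρb, hratio, ?_, ?_⟩
  · have hlow := le_KK_smooth hw hs (τ := τ) (b := b) hk0 (by omega) W
    rw [hmW', one_pow, one_mul, mul_one] at hlow
    have hD : Df p s τ k0 b W ≤ δ / (4 * L) * (mass W : ℝ) := hWg
    rw [hmW', mul_one] at hD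
    have hfin : δ * (1 - L⁻¹) = δ * (1 - 1 / (2 * L)) - 2 * (δ / (4 * L)) := by
      field_simp
      ring
    rw [hfin]
    have hnn := n1.trans d5
    linarith
  · have := KK_smooth_le hw hs hτb (by omega) (by omega) hρbp W
    rw [hmW', one_pow, mul_one] at this
    exact this.trans hratio

/-- everything about the scales, for one N -/
theorem blk_scales {Θ cU CU s : ℝ} {N : ℕ} (hF : WinFacts Θ N s cU CU) (hΘ : 0 ≤ Θ) {L δ : ℝ}
    (hLe : Real.log (Real.log (N : ℝ)) = L) (hL70 : (4 * Θ + 8) + 70 ≤ L) (hδL : δ * L ^ 4 = 1)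
    (e2 : 2 * L ^ 19 ≤ Real.exp L) :
    ∃ (n : ℕ) (τ : ℕ → ℕ) (r : ℕ → ℝ), (n : ℝ) * δ ≤ L ∧
      L - 20 * Real.log L ≤ n * δ ∧ (∀ j ≤ n, L ^ 18 ≤ r j) ∧
      (∀ j, δ * r (j + 1) ≤ r j - r (j + 1)) ∧
      (∀ j, r j - r (j + 1) ≤ (δ + δ ^ 2) * r (j + 1)) ∧
      (∀ j, Even (τ j) ∧ 2 ≤ τ j ∧ τ j ≤ N ∧ Real.exp (Real.log (N : ℝ) / 2) ≤ 2 * τ j) ∧
      (∀ j < n, 2 * τ j ≤ τ (j + 1) ∧
        rho s (τ j) - rho s (τ (j + 1) - τ j) + 1 ≤ r j - r (j + 1) + (4 * Θ + 8) ∧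
        r (j + 1) - (4 * Θ + 8) ≤ rho s (τ (j + 1) - τ j) ∧
        (r j - r (j + 1) - L ^ 2 - (4 * Θ + 8)) / (r (j + 1) + (4 * Θ + 8))
            * (1 - 27 / (r (j + 1) - (4 * Θ + 8)))
          ≤ s * ∑ k ∈ Icc (τ j * ⌈Real.exp (L ^ 2)⌉₊) (τ (j + 1) - τ j),
              UU s (τ (j + 1) - τ j - k) * uu (τ j + k)) := by
  have hN3 : (3 : ℝ) ≤ N := by exact_mod_cast hF.N_pos
  have hNp : (0 : ℝ) < N := by linarith
  have hΛp : 0 < Real.log (N : ℝ) := Real.log_pos (by linarith)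
  have hΛe : Real.log (N : ℝ) = Real.exp L := by rw [← hLe, Real.exp_log hΛp]
  have hNe : (N : ℝ) = Real.exp (Real.log N) := (Real.exp_log hNp).symm
  obtain ⟨n, r, b1, b2, b3, b4, b5, b6, b7⟩ := blk_levels hΛe (by linarith) hδL e2
  obtain ⟨w1, w2, w3, w4⟩ := blk_pow (by linarith : 70 ≤ L)
  have hLΛ : L + 1 ≤ Real.log (N : ℝ) := by
    rw [hΛe]; exact Real.add_one_le_exp L
  have hδ0 : 0 < δ := by
    have : 0 < δ * L ^ 4 := by rw [hδL]; norm_num
    exact pos_of_mul_pos_left this (by positivity)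
  have hy : ∀ j, Real.exp (Real.log (N : ℝ) / 2) ≤ N * Real.exp (-(r j)) := by
    intro j
    have : (N : ℝ) * Real.exp (-(r j)) = Real.exp (Real.log N + -(r j)) := by
      rw [Real.exp_add, ← hNe]
    rw [this]
    apply Real.exp_le_exp.2
    linarith [b5 j]
  have hy4 : 4 ≤ Real.exp (Real.log (N : ℝ) / 2) := by
    linarith [Real.add_one_le_exp (Real.log (N : ℝ) / 2)]
  have hτ := fun j => tau_spec_blk (hy4.trans (hy j))
  have hτN : ∀ j, 2 * ⌊(N * Real.exp (-(r j))) / 2⌋₊ ≤ N := by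
    intro j
    have h1 := (hτ j).2.2.1
    have h2 : (N : ℝ) * Real.exp (-(r j)) ≤ N := by
      have h3 : Real.exp (-(r j)) ≤ 1 := Real.exp_le_one_iff.2 (by linarith [b4 j])
      have := mul_le_mul_of_nonneg_left h3 hNp.le
      linarith
    exact_mod_cast h1.trans h2
  refine ⟨n, fun j => 2 * ⌊(N * Real.exp (-(r j))) / 2⌋₊, r, b1, b2, b3, b6, b7,
    fun j => ⟨(hτ j).1, (hτ j).2.1, hτN j, (hy j).trans (hτ j).2.2.2⟩, ?_⟩
  intro j hj
  have g : L ^ 14 ≤ r j - r (j + 1) := by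
    refine le_trans ?_ (b6 j)
    calc L ^ 14 = δ * L ^ 4 * L ^ 14 := by rw [hδL, one_mul]
      _ = δ * L ^ 18 := by ring
      _ ≤ δ * r (j + 1) := mul_le_mul_of_nonneg_left (b3 _ hj) hδ0.le
  have hr' := b3 (j + 1) hj
  obtain ⟨c1, c2, c3, c4, c5⟩ := blk_det hF hΘ (h := L ^ 2) (r := r j) (r' := r (j + 1))
    (τ := 2 * ⌊(N * Real.exp (-(r j))) / 2⌋₊) (τ' := 2 * ⌊(N * Real.exp (-(r (j + 1)))) / 2⌋₊)
    (k0 := 2 * ⌊(N * Real.exp (-(r j))) / 2⌋₊ * ⌈Real.exp (L ^ 2)⌉₊) (by linarith)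
    (by linarith) (by linarith) (by have := (hτ j).2.1; omega)
    (hτ j).2.2.1 (hτ j).2.2.2 (hτ (j + 1)).2.2.1 (hτ (j + 1)).2.2.2 rfl
  exact ⟨c1, c3, c4, c5⟩

/-- The whole block structure. L = loglog N, delta = L^(-4). -/
theorem blocks (Θ C4 B : ℝ) (hΘ : 0 ≤ Θ) (hB : 0 < B) : ∃ N0 : ℕ, ∀ N ≥ N0, ∀ s : ℝ,
    Win Θ N s → ∃ (n : ℕ) (τ : ℕ → ℕ),
      (n : ℝ) * (Real.log (Real.log N))⁻¹ ^ 4 ≤ Real.log (Real.log N) ∧
      Real.log (Real.log N) - 20 * Real.log (Real.log (Real.log N))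
        ≤ (n : ℝ) * (Real.log (Real.log N))⁻¹ ^ 4 ∧
      (∀ j < n, τ j < τ (j + 1)) ∧ τ n ≤ N ∧
      ∀ {G : Type} [Fintype G] [DecidableEq G] [AddCommGroup G] (p : G → ℝ≥0)
        (m : Measure ℝ≥0), Walk p (4 * N) → Law m s C4 →
        ∃ good : ℕ → Set (G → ℝ≥0),
          (∀ j, MeasurableSet (good j)) ∧
          (∀ j, ∀ W ∈ good j, ∀ c : ℝ≥0, c ≠ 0 → c • W ∈ good j) ∧
          (∀ j < n, (TT p m)^[τ j] ((good j)ᶜ.indicator (fun _ => 1)) dl
            ≤ ENNReal.ofReal (Real.exp (-(B * Real.sqrt (Real.log (Real.log N)))))) ∧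
          (∀ j < n, ∀ W ∈ good j, mass W = 1 →
            (Real.log (Real.log N))⁻¹ ^ 4 * (1 - (Real.log (Real.log N))⁻¹)
                ≤ KK p s (τ (j + 1) - τ j) ((conv p)^[τ j] W) ∧
            KK p s (τ (j + 1) - τ j) ((conv p)^[τ j] W) ≤ 2 * (Real.log (Real.log N))⁻¹ ^ 4 ∧
            (TT p m)^[τ (j + 1) - τ j] (fun V => ENNReal.ofReal ((mass V : ℝ) ^ 3))
                ((conv p)^[τ j] W)
              ≤ ENNReal.ofReal (1 + 3 * KK p s (τ (j + 1) - τ j) ((conv p)^[τ j] W)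
                  + KK p s (τ (j + 1) - τ j) ((conv p)^[τ j] W)
                      * (Real.log (Real.log N))⁻¹)) := by
  obtain ⟨A, C, ρ1, hA, hC, hρ1, h3⟩ := third
  obtain ⟨cU, CU, hcU, hCU, N1, hwin⟩ := win_facts Θ hΘ
  obtain ⟨N2, hum⟩ := umin Θ C4 (4 * B) 1 hΘ (by positivity) one_pos
  have hBi : 0 < 10 / B := by positivity
  obtain ⟨N0, hN0⟩ := exists_N_blk ((4 * Θ + 8) + 70 + 8 * C + ρ1 + 2 * A
    + (8 * B + 10 / B + 60) ^ 2) (16 * C) A N1 N2
  refine ⟨N0, fun N hN s hW => ?_⟩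
  obtain ⟨e1, e2, e3, e4, e5⟩ := hN0 N hN
  have hF := hwin N e4 s hW
  have hum' := fun {G : Type} [Fintype G] [DecidableEq G] [AddCommGroup G] (p : G → ℝ≥0)
    (m : Measure ℝ≥0) => hum N e5 s hW (G := G) p m
  unfold ex at hum'
  clear hum hwin hN0
  have hs := hF.s_pos
  have hN3 : (3 : ℝ) ≤ N := by exact_mod_cast hF.N_pos
  have hΛp : 0 < Real.log (N : ℝ) := Real.log_pos (by linarith)
  have hΛe : Real.log (N : ℝ) = Real.exp (Real.log (Real.log N)) := (Real.exp_log hΛp).symm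
  have hA1 : (1 : ℝ) ≤ A := by exact_mod_cast hA
  have hsq0 : 0 ≤ (8 * B + 10 / B + 60) ^ 2 := by positivity
  generalize hLdef : Real.log (Real.log (N : ℝ)) = L at *
  have hL70 : 70 ≤ L := by linarith
  have hLp : 0 < L := by linarith
  have hδL : L⁻¹ ^ 4 * L ^ 4 = 1 := by
    rw [inv_pow, inv_mul_cancel₀ (by positivity)]
  have hδ0 : 0 < L⁻¹ ^ 4 := by positivity
  generalize L⁻¹ ^ 4 = δ at *
  have hLΛ : L ≤ Real.log (N : ℝ) := by
    have := Real.add_one_le_exp L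
    rw [hΛe]; linarith
  have hsqrt : 8 * B + 10 / B + 60 ≤ Real.sqrt L := by
    apply Real.le_sqrt_of_sq_le
    linarith
  obtain ⟨w1, w2, w3, w4⟩ := blk_pow hL70
  obtain ⟨n, τ, r, b1, b2, b3, b6, b7, b8, b9⟩ := blk_scales hF hΘ hLdef (by linarith) hδL e2
  refine ⟨n, τ, b1, b2, ?_, (b8 n).2.2.1, ?_⟩
  · intro j hj
    have h1 := (b9 j hj).1
    have h2 := (b8 j).2.1
    omega
  intro G _ _ _ p m hw hm
  refine ⟨fun j => Gd p s (τ j) (τ j * ⌈Real.exp (L ^ 2)⌉₊) (τ (j + 1) - τ j) (δ / (4 * L)),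
    fun j => measurableSet_Gd _ _ _ _ _ _, fun j W hWg c' _ => Gd_smul hWg c', ?_, ?_⟩
  · intro j hj
    obtain ⟨d1, d3, d4, d5⟩ := b9 j hj
    obtain ⟨t1, t2, t3, t4⟩ := b8 j
    have t5 := (b8 (j + 1)).2.2.1
    have hr' := b3 (j + 1) hj
    exact blk_one_prob hw hm hB hsqrt hδL hLp t1 t2 (by omega) t3 (by linarith) (hum' p m hw hm)
  · intro j hj W hWg hmW
    obtain ⟨d1, d3, d4, d5⟩ := b9 j hj
    obtain ⟨t1, t2, t3, t4⟩ := b8 j
    have t5 := (b8 (j + 1)).2.2.1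
    have hceil : 1 ≤ ⌈Real.exp (L ^ 2)⌉₊ := Nat.one_le_ceil_iff.2 (Real.exp_pos _)
    have hk0 : 1 ≤ τ j * ⌈Real.exp (L ^ 2)⌉₊ := Nat.mul_pos (by omega) hceil
    have hτb : τ j ≤ τ (j + 1) - τ j := by omega
    have hbN : τ (j + 1) - τ j ≤ N := by omega
    obtain ⟨q1, q2, q3, q4⟩ := blk_one_KK hw hs (c := 4 * Θ + 8) (by linarith) (by linarith)
      hL70 hδL (by omega) hk0 hτb hbN (b3 (j + 1) hj) (b6 j) (b7 j) d3 d4 d5 hWg hmW
    refine ⟨q3, q4, ?_⟩
    have hρbp : 0 < rho s (τ (j + 1) - τ j) := by linarith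
    have q2' : (rho s (τ j) - rho s (τ (j + 1) - τ j)) / rho s (τ (j + 1) - τ j) ≤ 2 * δ :=
      (div_le_div_of_nonneg_right (by linarith) hρbp.le).trans q2
    have hδA : 2 * δ ≤ 1 / A := by
      have hL4 : L ≤ L ^ 4 := le_self_pow₀ (by linarith) (by norm_num)
      have h1 : δ * (2 * A) ≤ δ * L ^ 4 := mul_le_mul_of_nonneg_left (by linarith) hδ0.le
      rw [hδL] at h1
      rw [le_div_iff₀ (by linarith)]
      linarith
    have ht := h3 p m (4 * N) s C4 hw hm (τ j) (τ (j + 1) - τ j) (by omega) hτb (by omega)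
      (by linarith) (q2'.trans hδA) W hmW
    refine ht.trans (ENNReal.ofReal_le_ofReal ?_)
    have hr00 : rho s 0 ≤ 2 * Real.log (N : ℝ) := by
      have := hF.rho0_le
      linarith
    have hr01 : 0 ≤ rho s 0 := hρbp.le.trans (rho_anti s (Nat.zero_le _))
    have n4 := blk_num4 (A := A) (C := C) (L := L) (Λ := Real.log (N : ℝ)) (δ := δ)
      (ρ0 := rho s 0) (ρb := rho s (τ (j + 1) - τ j))
      (d := (rho s (τ j) - rho s (τ (j + 1) - τ j)) / rho s (τ (j + 1) - τ j))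
      (t := τ j) hC (by linarith) hδL q2' q1 hr01 hr00 hLΛ e3 t4
    have hK0 : 0 ≤ KK p s (τ (j + 1) - τ j) ((conv p)^[τ j] W) := KK_nonneg hs.le _ _
    have := mul_le_mul_of_nonneg_left n4 hK0
    linarith

end Pool.A2F
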