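import Pool.Agent.A2F.Ren

/-!
# Module Chain: the one dimensional recursion behind the third moment
-/

set_option autoImplicit false

open Finset
open scoped ENNReal NNReal

noncomputable section

namespace Pool.A2F

/-- s * sum_(l=0..b) Ut l / (x + l) -/
def SS (s : ℝ) (b : ℕ) (x : ℝ) : ℝ := s * ∑ l ∈ range (b + 1), Ut s l / (x + l)

namespace ChainAux

theorem rho_sub (s : ℝ) {m n : ℕ} (hm : 1 ≤ m) (h : m ≤ n) :
    rho s m - rho s n ≤ Real.log ((n : ℝ) / m) := by
  have := RR_sub_le hm h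
  unfold rho
  nlinarith [this]

theorem rho_step (s : ℝ) (k : ℕ) :
    1 / ((k : ℝ) + 1) ≤ 3 / 2 * (rho s k - rho s (k + 1)) := by
  have h1 := le_uu (k + 1)
  have h2 : rho s k - rho s (k + 1) = Real.pi * uu (k + 1) := by
    unfold rho; rw [RR_succ]; ring
  rw [h2]
  have hpi := Real.pi_pos
  have hk : (0 : ℝ) ≤ k := Nat.cast_nonneg k
  have h3 : 1 / ((k : ℝ) + 1 + 1 / 2) ≤ Real.pi * uu (k + 1) := by
    have h4 : Real.pi * (1 / (Real.pi * (((k + 1 : ℕ) : ℝ) + 1 / 2))) = 1 / ((k : ℝ) + 1 + 1 / 2) := by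
      push_cast
      field_simp
    rw [← h4]
    exact mul_le_mul_of_nonneg_left h1 hpi.le
  have h5 : 1 / ((k : ℝ) + 1) ≤ 3 / 2 * (1 / ((k : ℝ) + 1 + 1 / 2)) := by
    rw [mul_one_div, div_le_div_iff₀ (by positivity) (by positivity)]
    nlinarith
  linarith

/-- rho at a smaller scale in terms of rho at a larger one -/
theorem rho_sqrt (s : ℝ) {m n : ℕ} (hm : 1 ≤ m) (h : m ≤ n) (h1 : 1 ≤ rho s n) :
    rho s m ≤ 2 * Real.sqrt ((n : ℝ) / m) * rho s n := by
  have h2 := rho_sub s hm h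
  have hm' : (0 : ℝ) < m := by exact_mod_cast hm
  have hn' : (0 : ℝ) < n := by exact_mod_cast (lt_of_lt_of_le hm h)
  have hy : 0 < (n : ℝ) / m := by positivity
  have hlog : Real.log ((n : ℝ) / m) ≤ 2 * (Real.sqrt ((n : ℝ) / m) - 1) := by
    have h3 := Real.log_le_sub_one_of_pos (Real.sqrt_pos.2 hy)
    have h4 : Real.log (Real.sqrt ((n : ℝ) / m)) = Real.log ((n : ℝ) / m) / 2 :=
      Real.log_sqrt hy.le
    rw [h4] at h3
    linarith
  have hlog0 : 0 ≤ Real.log ((n : ℝ) / m) := by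
    apply Real.log_nonneg
    rw [le_div_iff₀ hm']
    simpa using (by exact_mod_cast h : (m : ℝ) ≤ n)
  nlinarith [Real.sqrt_nonneg ((n : ℝ) / m)]

theorem pow_sub_le (n : ℕ) {a b : ℝ} (hb : 0 ≤ b) (hab : b ≤ a) :
    ((n : ℝ) + 1) * b ^ n * (a - b) ≤ a ^ (n + 1) - b ^ (n + 1) := by
  induction n with
  | zero => simp
  | succ n ih =>
    have ha : 0 ≤ a := hb.trans hab
    have h1 : a ^ (n + 1 + 1) - b ^ (n + 1 + 1)
        = a * (a ^ (n + 1) - b ^ (n + 1)) + (a - b) * b ^ (n + 1) := by ring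
    rw [h1]
    push_cast
    have h2 : b * (((n : ℝ) + 1) * b ^ n * (a - b)) ≤ a * (a ^ (n + 1) - b ^ (n + 1)) := by
      apply mul_le_mul hab ih _ ha
      have : 0 ≤ a - b := by linarith
      positivity
    have h3 : ((n : ℝ) + 1 + 1) * b ^ (n + 1) * (a - b)
        = b * (((n : ℝ) + 1) * b ^ n * (a - b)) + (a - b) * b ^ (n + 1) := by ring
    linarith

/-- sum of l^(-3/2) -/
theorem sum_inv_sqrt {x : ℕ} (hx : 1 ≤ x) : ∀ n : ℕ,
    ∑ l ∈ Ico (x + 1) (x + 1 + n), 1 / ((l : ℝ) * Real.sqrt l)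
      ≤ 2 / Real.sqrt x - 2 / Real.sqrt ((x : ℝ) + n) := by
  intro n
  induction n with
  | zero => simp
  | succ n ih =>
    rw [← add_assoc, sum_Ico_succ_top (by omega)]
    have hx0 : (0 : ℝ) < (x : ℝ) + n := by
      have : (1 : ℝ) ≤ x := by exact_mod_cast hx
      positivity
    have key : 1 / (((x + 1 + n : ℕ) : ℝ) * Real.sqrt ((x + 1 + n : ℕ) : ℝ))
        ≤ 2 / Real.sqrt ((x : ℝ) + n) - 2 / Real.sqrt ((x : ℝ) + (n + 1 : ℕ)) := by
      have e1 : ((x + 1 + n : ℕ) : ℝ) = (x : ℝ) + n + 1 := by push_cast; ring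
      have e2 : (x : ℝ) + ((n + 1 : ℕ) : ℝ) = (x : ℝ) + n + 1 := by push_cast; ring
      rw [e1, e2]
      set y : ℝ := (x : ℝ) + n with hy
      set a := Real.sqrt y with ha
      set c := Real.sqrt (y + 1) with hc
      have ha0 : 0 < a := Real.sqrt_pos.2 hx0
      have hc0 : 0 < c := Real.sqrt_pos.2 (by linarith)
      have haa : a * a = y := Real.mul_self_sqrt hx0.le
      have hcc : c * c = y + 1 := Real.mul_self_sqrt (by linarith)
      have hac : a ≤ c := Real.sqrt_le_sqrt (by linarith)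
      rw [← hcc, div_sub_div _ _ ha0.ne' hc0.ne', div_le_div_iff₀ (by positivity) (by positivity)]
      -- 1 * (a c) ≤ (2 c - 2 a) * (c c c)
      have h1 : (c - a) * (c + a) = 1 := by nlinarith
      have h2 : 1 ≤ 2 * c * (c - a) := by nlinarith
      have h3 : a * c ≤ c * c := by nlinarith
      nlinarith [mul_le_mul h2 h3 (by positivity) (by nlinarith)]
    linarith

theorem sum_inv_sqrt' {x b : ℕ} (hx : 1 ≤ x) (hb : x ≤ b) :
    ∑ l ∈ Ico (x + 1) (b + 1), 1 / ((l : ℝ) * Real.sqrt l) ≤ 2 / Real.sqrt x := by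
  obtain ⟨n, rfl⟩ := Nat.exists_eq_add_of_le hb
  have h1 := sum_inv_sqrt hx n
  have e : x + n + 1 = x + 1 + n := by ring
  rw [e]
  have : 0 ≤ 2 / Real.sqrt ((x : ℝ) + n) := by positivity
  linarith

/-- the pointwise bound for SS -/
theorem SS_le {s : ℝ} (hs : 0 < s) {b x : ℕ} (hb : 32 ≤ rho s b) (hx : 1 ≤ x) :
    SS s b x ≤ 2 * Real.pi / (x * rho s (min x b)) := by
  have hpi := Real.pi_pos
  have hx0 : (0 : ℝ) < x := by exact_mod_cast hx
  have hanti := rho_anti s
  rcases le_or_gt x b with hxb | hxb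
  · -- x ≤ b
    rw [min_eq_left hxb]
    have hρx : rho s b ≤ rho s x := hanti hxb
    have hρx0 : 0 < rho s x := by linarith
    unfold SS
    rw [range_eq_Ico, ← sum_Ico_consecutive _ (Nat.zero_le (x + 1)) (by omega : x + 1 ≤ b + 1),
      mul_add]
    have h1 : s * ∑ l ∈ Ico 0 (x + 1), Ut s l / ((x : ℝ) + l) ≤ Real.pi / (x * rho s x) := by
      have h2 : ∑ l ∈ Ico 0 (x + 1), Ut s l / ((x : ℝ) + l) ≤ UU s x / x := by
        unfold UU
        rw [range_eq_Ico, sum_div]
        apply sum_le_sum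
        intro l _
        apply div_le_div_of_nonneg_left (Ut_nonneg hs.le l) hx0
        have : (0 : ℝ) ≤ l := Nat.cast_nonneg l
        linarith
      have h3 := sUU_le hs hρx0
      calc s * ∑ l ∈ Ico 0 (x + 1), Ut s l / ((x : ℝ) + l) ≤ s * (UU s x / x) :=
            mul_le_mul_of_nonneg_left h2 hs.le
        _ = (s * UU s x) / x := by ring
        _ ≤ (Real.pi / rho s x) / x := by gcongr
        _ = Real.pi / (x * rho s x) := by field_simp
    have h2 : s * ∑ l ∈ Ico (x + 1) (b + 1), Ut s l / ((x : ℝ) + l)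
        ≤ Real.pi / (x * rho s x) := by
      have hterm : ∀ l ∈ Ico (x + 1) (b + 1), s * (Ut s l / ((x : ℝ) + l))
          ≤ 16 * Real.pi / (rho s b * rho s x * Real.sqrt x) * (1 / ((l : ℝ) * Real.sqrt l)) := by
        intro l hl
        rw [mem_Ico] at hl
        have hl1 : 1 ≤ l := by omega
        have hlb : l ≤ b := by omega
        have hl0 : (0 : ℝ) < l := by exact_mod_cast hl1
        have hρl : rho s b ≤ rho s l := hanti hlb
        have hρl0 : 0 < rho s l := by linarith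
        have hut := Ut_le hs (t := b) (by linarith) hl1 hlb
        have hsu := sUU_le hs hρl0
        have hsu0 : 0 ≤ s * UU s l := mul_nonneg hs.le (le_trans zero_le_one (one_le_UU hs.le l))
        -- s * Ut ≤ 8 π / (l ρ_l^2)
        have h3 : s * Ut s l ≤ 8 * Real.pi / (l * rho s l ^ 2) := by
          calc s * Ut s l ≤ s * (8 * s / (Real.pi * l) * UU s l ^ 2) :=
                mul_le_mul_of_nonneg_left hut hs.le
            _ = 8 / (Real.pi * l) * (s * UU s l) ^ 2 := by ring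
            _ ≤ 8 / (Real.pi * l) * (Real.pi / rho s l) ^ 2 := by gcongr
            _ = 8 * Real.pi / (l * rho s l ^ 2) := by field_simp
        have h4 : 1 / rho s l ≤ 2 * Real.sqrt ((l : ℝ) / x) / rho s x := by
          rw [div_le_div_iff₀ hρl0 hρx0]
          have := rho_sqrt s hx (by omega : x ≤ l) (by linarith)
          linarith
        have h5 : 1 / rho s l ^ 2 ≤ 1 / rho s b * (2 * Real.sqrt ((l : ℝ) / x) / rho s x) := by
          have : 1 / rho s l ^ 2 = 1 / rho s l * (1 / rho s l) := by field_simp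
          rw [this]
          apply mul_le_mul _ h4 (by positivity) (by
            have : 0 < rho s b := by linarith
            positivity)
          exact one_div_le_one_div_of_le (by linarith) hρl
        calc s * (Ut s l / ((x : ℝ) + l)) = (s * Ut s l) / ((x : ℝ) + l) := by ring
          _ ≤ (s * Ut s l) / l := by
              apply div_le_div_of_nonneg_left (mul_nonneg hs.le (Ut_nonneg hs.le l)) hl0
              linarith
          _ ≤ (8 * Real.pi / (l * rho s l ^ 2)) / l := by gcongr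
          _ = 8 * Real.pi / ((l : ℝ) * l) * (1 / rho s l ^ 2) := by field_simp
          _ ≤ 8 * Real.pi / ((l : ℝ) * l) *
                (1 / rho s b * (2 * Real.sqrt ((l : ℝ) / x) / rho s x)) := by gcongr
          _ = 16 * Real.pi / (rho s b * rho s x * Real.sqrt x) * (1 / ((l : ℝ) * Real.sqrt l)) := by
              rw [Real.sqrt_div hl0.le]
              have e : (l : ℝ) = Real.sqrt l * Real.sqrt l := (Real.mul_self_sqrt hl0.le).symm
              have hsl : 0 < Real.sqrt l := Real.sqrt_pos.2 hl0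
              have hsx : 0 < Real.sqrt x := Real.sqrt_pos.2 hx0
              have hb0 : 0 < rho s b := by linarith
              generalize Real.sqrt x = X at *
              field_simp
              rw [Real.sq_sqrt hl0.le]
              ring
      rw [mul_sum]
      refine (sum_le_sum hterm).trans ?_
      rw [← mul_sum]
      have h6 := sum_inv_sqrt' hx hxb
      have hb0 : 0 < rho s b := by linarith
      have hsx : 0 < Real.sqrt x := Real.sqrt_pos.2 hx0
      calc 16 * Real.pi / (rho s b * rho s x * Real.sqrt x)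
              * ∑ l ∈ Ico (x + 1) (b + 1), 1 / ((l : ℝ) * Real.sqrt l)
            ≤ 16 * Real.pi / (rho s b * rho s x * Real.sqrt x) * (2 / Real.sqrt x) := by gcongr
        _ = 32 * Real.pi / (rho s b * rho s x * (Real.sqrt x * Real.sqrt x)) := by
              field_simp; ring
        _ = (32 / rho s b) * (Real.pi / (x * rho s x)) := by
              rw [Real.mul_self_sqrt hx0.le]; field_simp
        _ ≤ 1 * (Real.pi / (x * rho s x)) := by
              gcongr
              rw [div_le_one hb0]; exact hb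
        _ = Real.pi / (x * rho s x) := one_mul _
    calc _ ≤ Real.pi / (x * rho s x) + Real.pi / (x * rho s x) := add_le_add h1 h2
      _ = 2 * Real.pi / (x * rho s x) := by ring
  · rw [min_eq_right hxb.le]
    have hb0 : 0 < rho s b := by linarith
    have h3 := sUU_le hs hb0
    unfold SS
    have h2 : ∑ l ∈ range (b + 1), Ut s l / ((x : ℝ) + l) ≤ UU s b / x := by
      unfold UU
      rw [sum_div]
      apply sum_le_sum
      intro l _
      apply div_le_div_of_nonneg_left (Ut_nonneg hs.le l) hx0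
      have : (0 : ℝ) ≤ l := Nat.cast_nonneg l
      linarith
    calc s * ∑ l ∈ range (b + 1), Ut s l / ((x : ℝ) + l) ≤ s * (UU s b / x) :=
          mul_le_mul_of_nonneg_left h2 hs.le
      _ = (s * UU s b) / x := by ring
      _ ≤ (Real.pi / rho s b) / x := by gcongr
      _ = Real.pi / (x * rho s b) := by field_simp
      _ ≤ 2 * Real.pi / (x * rho s b) := by
          gcongr
          linarith

theorem rho_le_two (s : ℝ) {m n : ℕ} (hm : 1 ≤ m) (h : m ≤ n) (h3 : n ≤ 3 * m)
    (h2 : 2 ≤ rho s n) : rho s m ≤ 2 * rho s n := by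
  have h1 := rho_sub s hm h
  have hm' : (0 : ℝ) < m := by exact_mod_cast hm
  have hn' : (0 : ℝ) < n := by exact_mod_cast (lt_of_lt_of_le hm h)
  have h4 : Real.log ((n : ℝ) / m) ≤ (n : ℝ) / m - 1 :=
    Real.log_le_sub_one_of_pos (by positivity)
  have h5 : (n : ℝ) / m ≤ 3 := by
    rw [div_le_iff₀ hm']
    exact_mod_cast h3
  linarith

theorem SS_far {s : ℝ} (hs : 0 < s) {b r y k : ℕ} (hb : 32 ≤ rho s b) (hy : y ≤ 2 * r)
    (hrk : r ≤ k) (hkb : k < b) :
    SS s b ((y + (k + 1) : ℕ) : ℝ) ≤ 4 * Real.pi / (((k : ℝ) + 1) * rho s (k + 1)) := by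
  have hpi := Real.pi_pos
  have h1 := SS_le hs hb (x := y + (k + 1)) (by omega)
  have hanti := rho_anti s
  have hmin1 : k + 1 ≤ min (y + (k + 1)) b := by omega
  have hmin2 : min (y + (k + 1)) b ≤ 3 * (k + 1) := by omega
  have hminb : rho s b ≤ rho s (min (y + (k + 1)) b) := hanti (min_le_right _ _)
  have h2 := rho_le_two s (by omega : 1 ≤ k + 1) hmin1 hmin2 (by linarith)
  have hk1 : rho s b ≤ rho s (k + 1) := hanti (by omega)
  have hk0 : (0 : ℝ) < (k : ℝ) + 1 := by positivity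
  refine h1.trans ?_
  have hρ0 : 0 < rho s (min (y + (k + 1)) b) := by linarith
  have hρ1 : 0 < rho s (k + 1) := by linarith
  have hx : (k : ℝ) + 1 ≤ ((y + (k + 1) : ℕ) : ℝ) := by
    push_cast
    have : (0 : ℝ) ≤ y := Nat.cast_nonneg y
    linarith
  rw [div_le_div_iff₀ (by positivity) (by positivity)]
  have h3 : ((k : ℝ) + 1) * rho s (k + 1)
      ≤ ((y + (k + 1) : ℕ) : ℝ) * (2 * rho s (min (y + (k + 1)) b)) :=
    mul_le_mul hx h2 hρ1.le (by positivity)
  calc 2 * Real.pi * (((k : ℝ) + 1) * rho s (k + 1))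
      ≤ 2 * Real.pi * (((y + (k + 1) : ℕ) : ℝ) * (2 * rho s (min (y + (k + 1)) b))) := by gcongr
    _ = 4 * Real.pi * (((y + (k + 1) : ℕ) : ℝ) * rho s (min (y + (k + 1)) b)) := by ring

theorem SS_near {s : ℝ} (hs : 0 < s) {b r y k : ℕ} (hb : 32 ≤ rho s b) (hry : r ≤ y)
    (hy : y ≤ 2 * r) (hr1 : 1 ≤ r) (hkr : k < r) (hrb : r ≤ b) :
    SS s b ((y + (k + 1) : ℕ) : ℝ) ≤ 4 * Real.pi / ((r : ℝ) * rho s r) := by
  have hpi := Real.pi_pos
  have h1 := SS_le hs hb (x := y + (k + 1)) (by omega)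
  have hanti := rho_anti s
  have hmin1 : r ≤ min (y + (k + 1)) b := by omega
  have hmin2 : min (y + (k + 1)) b ≤ 3 * r := by omega
  have hminb : rho s b ≤ rho s (min (y + (k + 1)) b) := hanti (min_le_right _ _)
  have h2 := rho_le_two s hr1 hmin1 hmin2 (by linarith)
  have hk1 : rho s b ≤ rho s r := hanti hrb
  have hk0 : (0 : ℝ) < (r : ℝ) := by exact_mod_cast hr1
  refine h1.trans ?_
  have hρ0 : 0 < rho s (min (y + (k + 1)) b) := by linarith
  have hρ1 : 0 < rho s r := by linarith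
  have hx : (r : ℝ) ≤ ((y + (k + 1) : ℕ) : ℝ) := by
    exact_mod_cast (by omega : r ≤ y + (k + 1))
  have hx0 : (0 : ℝ) < ((y + (k + 1) : ℕ) : ℝ) := lt_of_lt_of_le hk0 hx
  rw [div_le_div_iff₀ (by positivity) (by positivity)]
  have h3 : (r : ℝ) * rho s r
      ≤ ((y + (k + 1) : ℕ) : ℝ) * (2 * rho s (min (y + (k + 1)) b)) :=
    mul_le_mul hx h2 hρ1.le (by positivity)
  calc 2 * Real.pi * ((r : ℝ) * rho s r)
      ≤ 2 * Real.pi * (((y + (k + 1) : ℕ) : ℝ) * (2 * rho s (min (y + (k + 1)) b))) := by gcongr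
    _ = 4 * Real.pi * (((y + (k + 1) : ℕ) : ℝ) * rho s (min (y + (k + 1)) b)) := by ring

/-- the far sum telescopes -/
theorem far_sum (s : ℝ) (n : ℕ) {r : ℕ} : ∀ b : ℕ, r ≤ b → 0 ≤ rho s b →
    ∑ k ∈ Ico r b, 1 / ((k : ℝ) + 1) * rho s (k + 1) ^ n
      ≤ 3 / 2 / ((n : ℝ) + 1) * (rho s r ^ (n + 1) - rho s b ^ (n + 1)) := by
  intro b hrb
  induction b, hrb using Nat.le_induction with
  | base => intro _; simp
  | succ b hrb ih =>
    intro hb
    have hanti : rho s (b + 1) ≤ rho s b := rho_anti s (Nat.le_succ b)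
    rw [sum_Ico_succ_top hrb]
    have h1 := ih (hb.trans hanti)
    have h2 := pow_sub_le n hb hanti
    have h3 := rho_step s b
    have hn : (0 : ℝ) < (n : ℝ) + 1 := by positivity
    have h4 : 1 / ((b : ℝ) + 1) * rho s (b + 1) ^ n
        ≤ 3 / 2 / ((n : ℝ) + 1) * (rho s b ^ (n + 1) - rho s (b + 1) ^ (n + 1)) := by
      calc 1 / ((b : ℝ) + 1) * rho s (b + 1) ^ n
          ≤ 3 / 2 * (rho s b - rho s (b + 1)) * rho s (b + 1) ^ n := by gcongr
        _ = 3 / 2 / ((n : ℝ) + 1) *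
              (((n : ℝ) + 1) * rho s (b + 1) ^ n * (rho s b - rho s (b + 1))) := by
              field_simp
        _ ≤ _ := by gcongr
    have h5 : 3 / 2 / ((n : ℝ) + 1) * (rho s r ^ (n + 1) - rho s (b + 1) ^ (n + 1))
        = 3 / 2 / ((n : ℝ) + 1) * (rho s r ^ (n + 1) - rho s b ^ (n + 1))
          + 3 / 2 / ((n : ℝ) + 1) * (rho s b ^ (n + 1) - rho s (b + 1) ^ (n + 1)) := by ring
    rw [h5]
    linarith

theorem sum_inv_sqrt1 : ∀ r : ℕ, ∑ k ∈ range r, 1 / Real.sqrt ((k : ℝ) + 1) ≤ 2 * Real.sqrt r := by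
  intro r
  induction r with
  | zero => simp
  | succ n ih =>
    rw [sum_range_succ]
    push_cast
    have hn : (0 : ℝ) ≤ n := Nat.cast_nonneg n
    set a := Real.sqrt (n : ℝ)
    set c := Real.sqrt ((n : ℝ) + 1)
    have ha0 : 0 ≤ a := Real.sqrt_nonneg _
    have hc0 : 0 < c := Real.sqrt_pos.2 (by linarith)
    have haa : a * a = n := Real.mul_self_sqrt hn
    have hcc : c * c = (n : ℝ) + 1 := Real.mul_self_sqrt (by linarith)
    have hac : a ≤ c := Real.sqrt_le_sqrt (by linarith)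
    have h1 : 1 / c ≤ 2 * c - 2 * a := by
      rw [div_le_iff₀ hc0]
      nlinarith
    linarith

/-- the near sum -/
theorem near_sum (s : ℝ) (A : ℕ) {r : ℕ} (hA : 2 * (A : ℝ) ≤ rho s r)
    (h0 : 0 < rho s r) :
    ∑ k ∈ range r, rho s (k + 1) ^ A ≤ 2 * r * rho s r ^ A := by
  rcases Nat.eq_zero_or_pos r with rfl | hr1
  · simp
  have hr0 : (0 : ℝ) < r := by exact_mod_cast hr1
  have hanti := rho_anti s
  have hterm : ∀ k ∈ range r, rho s (k + 1) ^ A
      ≤ rho s r ^ A * Real.sqrt r * (1 / Real.sqrt ((k : ℝ) + 1)) := by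
    intro k hk
    rw [mem_range] at hk
    have hk1 : k + 1 ≤ r := hk
    have h1 := rho_sub s (by omega : 1 ≤ k + 1) hk1
    have hk0 : (0 : ℝ) < (k : ℝ) + 1 := by positivity
    push_cast at h1
    have hρk : 0 ≤ rho s (k + 1) := h0.le.trans (hanti hk1)
    have hlog : 0 ≤ Real.log ((r : ℝ) / (k + 1)) := by
      apply Real.log_nonneg
      rw [le_div_iff₀ hk0]
      have : ((k + 1 : ℕ) : ℝ) ≤ r := by exact_mod_cast hk1
      push_cast at this
      linarith
    have h2 : rho s (k + 1) ≤ rho s r * Real.exp (Real.log ((r : ℝ) / (k + 1)) / rho s r) := by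
      have h3 := Real.add_one_le_exp (Real.log ((r : ℝ) / (k + 1)) / rho s r)
      calc rho s (k + 1) ≤ rho s r + Real.log ((r : ℝ) / (k + 1)) := by linarith
        _ = rho s r * (Real.log ((r : ℝ) / (k + 1)) / rho s r + 1) := by field_simp; ring
        _ ≤ _ := by gcongr
    have h4 : (A : ℝ) * (Real.log ((r : ℝ) / (k + 1)) / rho s r)
        ≤ Real.log ((r : ℝ) / (k + 1)) / 2 := by
      have h5 : (A : ℝ) / rho s r ≤ 1 / 2 := by
        rw [div_le_div_iff₀ h0 (by norm_num)]
        linarith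
      calc (A : ℝ) * (Real.log ((r : ℝ) / (k + 1)) / rho s r)
          = ((A : ℝ) / rho s r) * Real.log ((r : ℝ) / (k + 1)) := by ring
        _ ≤ 1 / 2 * Real.log ((r : ℝ) / (k + 1)) := by gcongr
        _ = _ := by ring
    calc rho s (k + 1) ^ A
        ≤ (rho s r * Real.exp (Real.log ((r : ℝ) / (k + 1)) / rho s r)) ^ A :=
          pow_le_pow_left₀ hρk h2 A
      _ = rho s r ^ A * Real.exp ((A : ℝ) * (Real.log ((r : ℝ) / (k + 1)) / rho s r)) := by
          rw [mul_pow, ← Real.exp_nat_mul]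
      _ ≤ rho s r ^ A * Real.exp (Real.log ((r : ℝ) / (k + 1)) / 2) := by
          gcongr
      _ = rho s r ^ A * Real.sqrt r * (1 / Real.sqrt ((k : ℝ) + 1)) := by
          rw [← Real.log_sqrt (by positivity), Real.exp_log (Real.sqrt_pos.2 (by positivity)),
            Real.sqrt_div hr0.le]
          ring
  refine (sum_le_sum hterm).trans ?_
  rw [← mul_sum]
  have h6 := sum_inv_sqrt1 r
  calc rho s r ^ A * Real.sqrt r * ∑ k ∈ range r, 1 / Real.sqrt ((k : ℝ) + 1)
      ≤ rho s r ^ A * Real.sqrt r * (2 * Real.sqrt r) := by gcongr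
    _ = 2 * (Real.sqrt r * Real.sqrt r) * rho s r ^ A := by ring
    _ = _ := by rw [Real.mul_self_sqrt hr0.le]

/-- The kernel applied to the supersolution. -/
theorem kernel {s : ℝ} (hs : 0 < s) {b r y : ℕ} (n : ℕ) (hb : 32 ≤ rho s b)
    (hA : 2 * ((n : ℝ) + 1) ≤ rho s b) (hry : r ≤ y) (hy : y ≤ 2 * r) (hrb : r ≤ b) :
    4 * ∑ k ∈ range b, SS s b ((y + (k + 1) : ℕ) : ℝ) * (rho s (k + 1) / rho s b) ^ (n + 1)
      ≤ 24 * Real.pi / ((n : ℝ) + 1) * ((rho s r / rho s b) ^ (n + 1) - 1)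
        + 32 * Real.pi / rho s b * (rho s r / rho s b) ^ (n + 1) := by
  have hpi := Real.pi_pos
  have hanti := rho_anti s
  have hb0 : 0 < rho s b := by linarith
  have hrb' : rho s b ≤ rho s r := hanti hrb
  have hr0 : 0 < rho s r := by linarith
  rw [range_eq_Ico, ← sum_Ico_consecutive _ (Nat.zero_le r) hrb, mul_add]
  have hfar : 4 * ∑ k ∈ Ico r b, SS s b ((y + (k + 1) : ℕ) : ℝ)
        * (rho s (k + 1) / rho s b) ^ (n + 1)
      ≤ 24 * Real.pi / ((n : ℝ) + 1) * ((rho s r / rho s b) ^ (n + 1) - 1) := by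
    have h1 : ∀ k ∈ Ico r b, SS s b ((y + (k + 1) : ℕ) : ℝ)
        * (rho s (k + 1) / rho s b) ^ (n + 1)
        ≤ 4 * Real.pi / rho s b ^ (n + 1) * (1 / ((k : ℝ) + 1) * rho s (k + 1) ^ n) := by
      intro k hk
      rw [mem_Ico] at hk
      have h2 := SS_far hs hb hy hk.1 hk.2
      have hk1 : rho s b ≤ rho s (k + 1) := hanti (by omega)
      have hk0 : 0 < rho s (k + 1) := by linarith
      calc SS s b ((y + (k + 1) : ℕ) : ℝ) * (rho s (k + 1) / rho s b) ^ (n + 1)
          ≤ 4 * Real.pi / (((k : ℝ) + 1) * rho s (k + 1))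
              * (rho s (k + 1) / rho s b) ^ (n + 1) := by gcongr
        _ = _ := by
            rw [div_pow, pow_succ (rho s (k + 1))]
            field_simp
    have h3 := far_sum s n b hrb hb0.le
    calc 4 * ∑ k ∈ Ico r b, SS s b ((y + (k + 1) : ℕ) : ℝ)
          * (rho s (k + 1) / rho s b) ^ (n + 1)
        ≤ 4 * ∑ k ∈ Ico r b,
            4 * Real.pi / rho s b ^ (n + 1) * (1 / ((k : ℝ) + 1) * rho s (k + 1) ^ n) := by
          exact mul_le_mul_of_nonneg_left (sum_le_sum h1) (by norm_num)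
      _ = 16 * Real.pi / rho s b ^ (n + 1) *
            ∑ k ∈ Ico r b, 1 / ((k : ℝ) + 1) * rho s (k + 1) ^ n := by
          rw [← mul_sum]; ring
      _ ≤ 16 * Real.pi / rho s b ^ (n + 1) *
            (3 / 2 / ((n : ℝ) + 1) * (rho s r ^ (n + 1) - rho s b ^ (n + 1))) := by gcongr
      _ = _ := by
          rw [div_pow]
          field_simp
          ring
  have hnear : 4 * ∑ k ∈ Ico 0 r, SS s b ((y + (k + 1) : ℕ) : ℝ)
        * (rho s (k + 1) / rho s b) ^ (n + 1)
      ≤ 32 * Real.pi / rho s b * (rho s r / rho s b) ^ (n + 1) := by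
    rcases Nat.eq_zero_or_pos r with hr | hr1
    · subst hr
      simp only [Ico_self, sum_empty, mul_zero]
      positivity
    have hrr : (0 : ℝ) < r := by exact_mod_cast hr1
    have h1 : ∀ k ∈ Ico 0 r, SS s b ((y + (k + 1) : ℕ) : ℝ)
        * (rho s (k + 1) / rho s b) ^ (n + 1)
        ≤ 4 * Real.pi / ((r : ℝ) * rho s r) / rho s b ^ (n + 1) * rho s (k + 1) ^ (n + 1) := by
      intro k hk
      rw [mem_Ico] at hk
      have h2 := SS_near hs hb hry hy hr1 hk.2 hrb
      have hk1 : rho s b ≤ rho s (k + 1) := hanti (by omega)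
      have hk0 : 0 < rho s (k + 1) := by linarith
      calc SS s b ((y + (k + 1) : ℕ) : ℝ) * (rho s (k + 1) / rho s b) ^ (n + 1)
          ≤ 4 * Real.pi / ((r : ℝ) * rho s r) * (rho s (k + 1) / rho s b) ^ (n + 1) := by gcongr
        _ = _ := by
            rw [div_pow]
            ring
    have h3 := near_sum s (n + 1) (r := r) (by push_cast; linarith) hr0
    calc 4 * ∑ k ∈ Ico 0 r, SS s b ((y + (k + 1) : ℕ) : ℝ)
          * (rho s (k + 1) / rho s b) ^ (n + 1)
        ≤ 4 * ∑ k ∈ Ico 0 r,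
            4 * Real.pi / ((r : ℝ) * rho s r) / rho s b ^ (n + 1) * rho s (k + 1) ^ (n + 1) := by
          exact mul_le_mul_of_nonneg_left (sum_le_sum h1) (by norm_num)
      _ = 16 * Real.pi / ((r : ℝ) * rho s r) / rho s b ^ (n + 1) *
            ∑ k ∈ range r, rho s (k + 1) ^ (n + 1) := by
          rw [← mul_sum, range_eq_Ico]; ring
      _ ≤ 16 * Real.pi / ((r : ℝ) * rho s r) / rho s b ^ (n + 1) *
            (2 * r * rho s r ^ (n + 1)) := by gcongr
      _ = 32 * Real.pi / rho s r * (rho s r / rho s b) ^ (n + 1) := by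
          rw [div_pow]
          field_simp
          ring
      _ ≤ _ := by gcongr
  linarith

end ChainAux

/-- The chain estimate: there are absolute constants A, C, rho1 such that ... -/
theorem chain : ∃ (A : ℕ) (C ρ1 : ℝ), 1 ≤ A ∧ 0 < C ∧ 100 ≤ ρ1 ∧
    ∀ (s : ℝ) (b : ℕ), 0 < s → 1 ≤ b → ρ1 ≤ rho s b →
    ∀ J : ℕ → ℝ, (∀ r, 0 ≤ J r) →
      (∀ r ≤ b, J r ≤ UU s b + 4 * ∑ k ∈ range b, SS s b (2 * r + (k + 1)) * J (k + 1)) →
      (∀ r ≤ b, J r ≤ 2 * UU s b * (rho s r / rho s b) ^ A) ∧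
      (∀ τ : ℕ, 1 ≤ τ → τ ≤ b → (rho s τ - rho s b) / rho s b ≤ 1 / A →
        4 * ∑ k ∈ range b, SS s b (τ + (k + 1)) * J (k + 1)
          ≤ C * UU s b * ((rho s τ - rho s b) / rho s b + 1 / rho s b)) := by
  refine ⟨399 + 1, 640, 800, by norm_num, by norm_num, by norm_num, ?_⟩
  intro s b hs hb1 hρ J hJ0 hJ
  have hpi := Real.pi_pos
  have hpi4 : Real.pi < 3.15 := Real.pi_lt_d2
  have hanti := rho_anti s
  have hb0 : 0 < rho s b := by linarith
  have hU1 : 1 ≤ UU s b := one_le_UU hs.le b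
  have hSS0 : ∀ x : ℝ, 0 ≤ x → 0 ≤ SS s b x := by
    intro x hx
    unfold SS
    apply mul_nonneg hs.le
    apply sum_nonneg
    intro l _
    apply div_nonneg (Ut_nonneg hs.le l)
    have : (0 : ℝ) ≤ l := Nat.cast_nonneg l
    linarith
  have hψ1 : ∀ r ≤ b, 1 ≤ (rho s r / rho s b) ^ (399 + 1) := by
    intro r hr
    apply one_le_pow₀
    rw [one_le_div hb0]
    exact hanti hr
  -- first part
  have part1 : ∀ r ≤ b, J r ≤ 2 * UU s b * (rho s r / rho s b) ^ (399 + 1) := by
    obtain ⟨r0, hr0, hmax⟩ := exists_max_image (range (b + 1))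
      (fun r => J r / (rho s r / rho s b) ^ (399 + 1)) ⟨0, by simp⟩
    rw [mem_range] at hr0
    have hr0b : r0 ≤ b := by omega
    set M := J r0 / (rho s r0 / rho s b) ^ (399 + 1) with hM
    have hM0 : 0 ≤ M := div_nonneg (hJ0 r0) (by linarith [hψ1 r0 hr0b])
    have hJM : ∀ r ≤ b, J r ≤ M * (rho s r / rho s b) ^ (399 + 1) := by
      intro r hr
      have h1 := hmax r (by rw [mem_range]; omega)
      have h2 : 0 < (rho s r / rho s b) ^ (399 + 1) := by linarith [hψ1 r hr]
      rwa [div_le_iff₀ h2] at h1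
    have h1 := hJ r0 hr0b
    have h2 : 4 * ∑ k ∈ range b, SS s b (2 * r0 + (k + 1)) * J (k + 1)
        ≤ M * (4 * ∑ k ∈ range b, SS s b ((2 * r0 + (k + 1) : ℕ) : ℝ)
            * (rho s (k + 1) / rho s b) ^ (399 + 1)) := by
      rw [mul_left_comm]
      apply mul_le_mul_of_nonneg_left _ (by norm_num : (0:ℝ) ≤ 4)
      rw [mul_sum]
      apply sum_le_sum
      intro k hk
      rw [mem_range] at hk
      have h3 := hJM (k + 1) (by omega)
      push_cast
      calc SS s b (2 * r0 + (k + 1)) * J (k + 1)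
          ≤ SS s b (2 * r0 + (k + 1)) * (M * (rho s (k + 1) / rho s b) ^ (399 + 1)) := by
            apply mul_le_mul_of_nonneg_left h3
            apply hSS0
            positivity
        _ = _ := by ring
    have h3 := ChainAux.kernel hs (b := b) (r := r0) (y := 2 * r0) 399 (by linarith)
      (by norm_num; linarith) (by omega) le_rfl hr0b
    set ψ := (rho s r0 / rho s b) ^ (399 + 1) with hψ
    have hψ1' : 1 ≤ ψ := hψ1 r0 hr0b
    have h4 : 24 * Real.pi / ((399 : ℕ) + 1 : ℝ) * (ψ - 1) + 32 * Real.pi / rho s b * ψ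
        ≤ ψ / 2 := by
      have h5 : 24 * Real.pi / ((399 : ℕ) + 1 : ℝ) ≤ 1 / 4 := by
        rw [div_le_div_iff₀ (by norm_num) (by norm_num)]
        push_cast
        linarith
      have h6 : 32 * Real.pi / rho s b ≤ 1 / 4 := by
        rw [div_le_div_iff₀ hb0 (by norm_num)]
        linarith
      have h7 : 24 * Real.pi / ((399 : ℕ) + 1 : ℝ) * (ψ - 1) ≤ 1 / 4 * (ψ - 1) :=
        mul_le_mul_of_nonneg_right h5 (by linarith)
      have h8 : 32 * Real.pi / rho s b * ψ ≤ 1 / 4 * ψ :=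
        mul_le_mul_of_nonneg_right h6 (by linarith)
      linarith
    have h5 : J r0 = M * ψ := by
      rw [hM]
      field_simp
    have h6 : M * ψ ≤ UU s b * ψ + M * (ψ / 2) := by
      calc M * ψ = J r0 := h5.symm
        _ ≤ UU s b + M * (4 * ∑ k ∈ range b, SS s b ((2 * r0 + (k + 1) : ℕ) : ℝ)
              * (rho s (k + 1) / rho s b) ^ (399 + 1)) := by linarith
        _ ≤ UU s b * ψ + M * (ψ / 2) := by
            apply add_le_add
            · nlinarith
            · exact mul_le_mul_of_nonneg_left (h3.trans h4) hM0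
    have h7 : M ≤ 2 * UU s b := by
      by_contra hcon
      push Not at hcon
      nlinarith
    intro r hr
    refine (hJM r hr).trans ?_
    exact mul_le_mul_of_nonneg_right h7 (by linarith [hψ1 r hr])
  refine ⟨part1, ?_⟩
  intro τ hτ1 hτb hτ
  have h2 : 4 * ∑ k ∈ range b, SS s b (τ + (k + 1)) * J (k + 1)
      ≤ (2 * UU s b) * (4 * ∑ k ∈ range b, SS s b ((τ + (k + 1) : ℕ) : ℝ)
          * (rho s (k + 1) / rho s b) ^ (399 + 1)) := by
    rw [mul_left_comm]
    apply mul_le_mul_of_nonneg_left _ (by norm_num : (0:ℝ) ≤ 4)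
    rw [mul_sum]
    apply sum_le_sum
    intro k hk
    rw [mem_range] at hk
    have h3 := part1 (k + 1) (by omega)
    push_cast
    calc SS s b (τ + (k + 1)) * J (k + 1)
        ≤ SS s b (τ + (k + 1)) * (2 * UU s b * (rho s (k + 1) / rho s b) ^ (399 + 1)) := by
          apply mul_le_mul_of_nonneg_left h3
          apply hSS0
          positivity
      _ = _ := by ring
  have h3 := ChainAux.kernel hs (b := b) (r := τ) (y := τ) 399 (by linarith)
    (by norm_num; linarith) le_rfl (by omega) hτb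
  set ψ := (rho s τ / rho s b) ^ (399 + 1) with hψ
  have hψ1' : 1 ≤ ψ := hψ1 τ hτb
  set x := (rho s τ - rho s b) / rho s b with hx
  have hx0 : 0 ≤ x := div_nonneg (by linarith [hanti hτb]) hb0.le
  have hx1 : 400 * x ≤ 1 := by
    push_cast at hτ
    have : x ≤ 1 / 400 := by norm_num at hτ ⊢; exact hτ
    linarith
  have hψe : ψ ≤ 1 + 2 * (400 * x) := by
    have h4 : rho s τ / rho s b = x + 1 := by
      rw [hx]; field_simp; ring
    rw [hψ, h4]
    calc (x + 1) ^ (399 + 1) ≤ (Real.exp x) ^ (399 + 1) :=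
          pow_le_pow_left₀ (by linarith) (Real.add_one_le_exp x) _
      _ = Real.exp (400 * x) := by
          rw [← Real.exp_nat_mul]; norm_num
      _ ≤ 1 + 2 * (400 * x) := by
          have h5 : |400 * x| ≤ 1 := by rw [abs_of_nonneg (by positivity)]; exact hx1
          have h6 := Real.abs_exp_sub_one_le h5
          rw [abs_of_nonneg (by positivity : 0 ≤ 400 * x)] at h6
          have h7 := le_abs_self (Real.exp (400 * x) - 1)
          linarith
  have h5 : 24 * Real.pi / ((399 : ℕ) + 1 : ℝ) * (ψ - 1) ≤ 48 * Real.pi * x := by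
    have h7 : 24 * Real.pi / ((399 : ℕ) + 1 : ℝ) = 24 * Real.pi / 400 := by norm_num
    rw [h7]
    have h8 : 24 * Real.pi / 400 * (ψ - 1) ≤ 24 * Real.pi / 400 * (2 * (400 * x)) := by
      apply mul_le_mul_of_nonneg_left _ (by positivity)
      linarith
    linarith
  have h6 : 32 * Real.pi / rho s b * ψ ≤ 96 * Real.pi * (1 / rho s b) := by
    have h7 : ψ ≤ 3 := by linarith
    calc 32 * Real.pi / rho s b * ψ ≤ 32 * Real.pi / rho s b * 3 := by gcongr
      _ = _ := by ring
  have h7 : 4 * ∑ k ∈ range b, SS s b (τ + (k + 1)) * J (k + 1)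
      ≤ (2 * UU s b) * (48 * Real.pi * x + 96 * Real.pi * (1 / rho s b)) := by
    refine h2.trans ?_
    apply mul_le_mul_of_nonneg_left _ (by linarith)
    linarith
  refine h7.trans ?_
  have h8 : 48 * Real.pi * x + 96 * Real.pi * (1 / rho s b) ≤ 320 * (x + 1 / rho s b) := by
    have h9 : 0 ≤ 1 / rho s b := by positivity
    have h10 : 48 * Real.pi * x ≤ 320 * x := by
      apply mul_le_mul_of_nonneg_right _ hx0
      linarith
    have h11 : 96 * Real.pi * (1 / rho s b) ≤ 320 * (1 / rho s b) := by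
      apply mul_le_mul_of_nonneg_right _ h9
      linarith
    linarith
  calc (2 * UU s b) * (48 * Real.pi * x + 96 * Real.pi * (1 / rho s b))
      ≤ (2 * UU s b) * (320 * (x + 1 / rho s b)) := by
        apply mul_le_mul_of_nonneg_left h8 (by linarith)
    _ = 640 * UU s b * (x + 1 / rho s b) := by ring

end Pool.A2F
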