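import Mathlib

/-!
# Module Crude, part P: the parameters
-/

set_option autoImplicit false

open Real

noncomputable section

namespace Pool.A2F.Cr

namespace Par

lemma exp_le_lin {t : ℝ} (h0 : 0 ≤ t) (h1 : t ≤ 1 / 2) : exp t ≤ 1 + 2 * t := by
  have h2 : exp t ≤ 1 / (1 - t) := Real.exp_bound_div_one_sub_of_interval h0 (by linarith)
  refine h2.trans ?_
  rw [div_le_iff₀ (by linarith)]
  nlinarith

/-- a power is at most `exp (q x ^ 2)` -/
lemma rpow_le_exp {c e q x : ℝ} (hc : 0 < c) (he : 0 ≤ e) (heq : e ≤ 3 * q) (hq : 0 ≤ q)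
    (h : 3 * log c ≤ x ^ 2) : c ^ e ≤ exp (q * x ^ 2) := by
  rw [rpow_def_of_pos hc]
  apply exp_le_exp.2
  by_cases h0 : 0 ≤ log c
  · calc log c * e ≤ log c * (3 * q) := mul_le_mul_of_nonneg_left heq h0
      _ = q * (3 * log c) := by ring
      _ ≤ q * x ^ 2 := mul_le_mul_of_nonneg_left h hq
  · push Not at h0
    have h1 : log c * e ≤ 0 := mul_nonpos_of_nonpos_of_nonneg h0.le he
    exact h1.trans (by positivity)

/-- the four linear inequalities; `L = exp y`, `u = 1 / D0` -/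
lemma lin {q y u L : ℝ} (hq0 : 0 < q) (hy0 : 0 < y) (hu0 : 0 < u) (hyu : y ≤ u / 300000)
    (hqu : q ≤ u / 300000) (hu1 : u ≤ 1 / 1000) (hq3 : q ^ 3 ≤ q) (hL0 : 0 < L) (hL1 : L ≤ 1 + 2 * y)
    (hL2 : L ^ 2 ≤ 1 + 4 * y) (hL3 : L ^ 3 ≤ 1 + 6 * y) :
    L ^ 2 * (1 - u / 8) + 4 * q ^ 3 ≤ 1 - u / 16 ∧ (1 - u / 16) * L + q ≤ 1 ∧
      ((1 - u / 16) * L + q) * L ^ 2 + 10 * q ^ 3 ≤ 1 - u / 800 ∧
      L ^ 2 * (((1 - u / 16) * L + q) / 24 + 23 / 24) + 6 * q ^ 3 ≤ 1 - u / 800 := by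
  have hyu0 : 0 < y * u := mul_pos hy0 hu0
  have h1 : (1 - u / 16) * L ≤ (1 - u / 16) * (1 + 2 * y) := mul_le_mul_of_nonneg_left hL1 (by linarith)
  have h1' : (1 - u / 16) * (1 + 2 * y) ≤ 1 - u / 16 + 2 * y := by
    have : (1 - u / 16) * (1 + 2 * y) = 1 - u / 16 + 2 * y - y * u / 8 := by ring
    linarith
  refine ⟨?_, ?_, ?_, ?_⟩
  · have h2 : L ^ 2 * (1 - u / 8) ≤ (1 + 4 * y) * (1 - u / 8) := mul_le_mul_of_nonneg_right hL2 (by linarith)
    have h3 : (1 + 4 * y) * (1 - u / 8) = 1 + 4 * y - u / 8 - y * u / 2 := by ring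
    linarith
  · linarith
  · have h4 : ((1 - u / 16) * L + q) * L ^ 2 = (1 - u / 16) * L ^ 3 + q * L ^ 2 := by ring
    have h2 : (1 - u / 16) * L ^ 3 ≤ (1 - u / 16) * (1 + 6 * y) := mul_le_mul_of_nonneg_left hL3 (by linarith)
    have h3 : (1 - u / 16) * (1 + 6 * y) = 1 - u / 16 + 6 * y - 6 / 16 * (y * u) := by ring
    have h5 : q * L ^ 2 ≤ q * 2 := mul_le_mul_of_nonneg_left (by linarith) hq0.le
    linarith
  · have h2 : ((1 - u / 16) * L + q) / 24 + 23 / 24 ≤ 1 - u / 400 := by linarith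
    have h0 : 0 ≤ (1 - u / 16) * L := mul_nonneg (by linarith) hL0.le
    have h3 : L ^ 2 * (((1 - u / 16) * L + q) / 24 + 23 / 24) ≤ (1 + 4 * y) * (1 - u / 400) :=
      mul_le_mul hL2 h2 (by linarith) (by linarith)
    have h4 : (1 + 4 * y) * (1 - u / 400) = 1 + 4 * y - u / 400 - y * u / 100 := by ring
    linarith

/-- the gain of a block -/
lemma gain {q δ : ℝ} (hq0 : 0 < q) (hδ0 : 0 < δ) (hδ1 : δ ≤ 1 / 2) (hδq : q ≤ δ / 1000) :
    20 * q ^ 2 ≤ 1 - (1 + δ) ^ (-q) * (1 + 16 * q ^ 2 * δ) := by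
  have hqs : q ≤ 1 / 2000 := by linarith
  have h1 : δ / 2 ≤ log (1 + δ) := by
    have h2 := Real.one_sub_inv_le_log_of_pos (x := 1 + δ) (by linarith)
    have h3 : δ / 2 ≤ 1 - (1 + δ)⁻¹ := by
      have h4 : 1 - (1 + δ)⁻¹ = δ / (1 + δ) := by field_simp; ring
      rw [h4, div_le_div_iff₀ (by norm_num) (by linarith)]
      nlinarith
    linarith
  have h7 : 0 < q * δ := by positivity
  have h9 : q * δ ≤ 1 / 2 := by nlinarith
  have h5 : (1 + δ) ^ (-q) ≤ 1 - q * δ / 4 := by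
    rw [rpow_def_of_pos (by linarith)]
    have h6 : log (1 + δ) * -q ≤ -(q * δ / 2) := by
      have : q * (δ / 2) ≤ q * log (1 + δ) := mul_le_mul_of_nonneg_left h1 hq0.le
      linarith
    have h7 : exp (-(q * δ / 2)) ≤ 1 - q * δ / 4 := by
      rw [exp_neg, inv_le_comm₀ (exp_pos _) (by linarith)]
      calc (1 - q * δ / 4)⁻¹ ≤ 1 + q * δ / 2 := by
            rw [inv_le_iff_one_le_mul₀ (by linarith)]
            nlinarith
        _ ≤ exp (q * δ / 2) := by linarith [add_one_le_exp (q * δ / 2)]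
    exact (exp_le_exp.2 h6).trans h7
  have h6 : (1 + δ) ^ (-q) * (1 + 16 * q ^ 2 * δ) ≤ (1 - q * δ / 4) * (1 + 16 * q ^ 2 * δ) :=
    mul_le_mul_of_nonneg_right h5 (by positivity)
  have h8 : 16 * q ^ 2 * δ ≤ q * δ / 16 := by
    have h10 : 16 * q ^ 2 * δ = (q * δ) * (16 * q) := by ring
    have h11 : (q * δ) * (16 * q) ≤ (q * δ) * (1 / 16) := mul_le_mul_of_nonneg_left (by linarith) h7.le
    linarith
  have h12 : 20 * q ^ 2 ≤ q * δ / 16 := by
    have h10 : 20 * q ^ 2 = q * (20 * q) := by ring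
    have h11 : q * (20 * q) ≤ q * (δ / 16) := mul_le_mul_of_nonneg_left (by linarith) hq0.le
    linarith
  have h10 : 0 ≤ q * δ / 4 * (16 * q ^ 2 * δ) := by positivity
  have h13 : (1 - q * δ / 4) * (1 + 16 * q ^ 2 * δ) =
      1 - q * δ / 4 + 16 * q ^ 2 * δ - q * δ / 4 * (16 * q ^ 2 * δ) := by ring
  linarith

/-- the three logarithmic conditions -/
lemma logs {x : ℝ} (hx : 100 ≤ x) : log (1 + exp (4 * x)) ≤ 4 * x + 1 := by
  rw [log_le_iff_le_exp (by positivity), exp_add]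
  have h1 : (1 : ℝ) ≤ exp (4 * x) := one_le_exp (by linarith)
  have h2 : (2 : ℝ) ≤ exp 1 := by linarith [add_one_le_exp (1 : ℝ)]
  nlinarith

lemma four_exp {x z : ℝ} (hx : 100 ≤ x) (hz : 5 * x ≤ z) : 4 * exp (-z) ≤ exp (-(3 * x)) := by
  have h2 : exp (-(3 * x)) = exp (-(5 * x)) * exp (2 * x) := by rw [← exp_add]; congr 1; ring
  calc 4 * exp (-z) ≤ 4 * exp (-(5 * x)) := by gcongr
    _ ≤ exp (-(3 * x)) := by
        rw [h2, mul_comm]
        exact mul_le_mul_of_nonneg_left (by linarith [add_one_le_exp (2 * x)]) (exp_pos _).le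

lemma pow_exp {x : ℝ} (hx : 100 ≤ x) : 1161216 ≤ exp (4 * x) * exp (-(3 * x)) := by
  rw [← exp_add]
  have h1 : (4 * x + -(3 * x)) = x := by ring
  rw [h1]
  have h2 : (2 : ℝ) ^ 100 ≤ exp x := by
    calc (2 : ℝ) ^ 100 ≤ exp 1 ^ 100 :=
          pow_le_pow_left₀ (by norm_num) (by linarith [add_one_le_exp (1 : ℝ)]) _
      _ = exp 100 := by rw [← exp_nat_mul]; norm_num
      _ ≤ exp x := exp_le_exp.2 hx
  exact le_trans (by norm_num) h2

lemma slope {x M : ℝ} (hx : 100 ≤ x) (hM : log (1 + M) ≤ 4 * x + 1) (r : ℝ) (hr : 16000 * x ^ 2 ≤ r) :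
    2 * log (1 + M) + 6 + 1 / (1600 * x) * r ≤ 2 * (1 / (1600 * x)) * (r - 1) := by
  have hx0 : 0 < x := by linarith
  have h1 : 1 / (1600 * x) * (16000 * x ^ 2) = 10 * x := by field_simp; norm_num
  have h2 : 1 / (1600 * x) * (16000 * x ^ 2) ≤ 1 / (1600 * x) * r :=
    mul_le_mul_of_nonneg_left hr (by positivity)
  have h3 : 1 / (1600 * x) ≤ 1 := by
    rw [div_le_one (by positivity)]
    linarith
  have h4 : 2 * (1 / (1600 * x)) * (r - 1) = 2 * (1 / (1600 * x) * r) - 2 * (1 / (1600 * x)) := by ring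
  rw [h4]
  linarith

lemma cUs {x cU : ℝ} (hx : 100 ≤ x) (hcU : 0 < cU) (hx3 : 1 / cU ≤ x) :
    2 * π / (16000 * x ^ 2 * cU) ≤ 1 ∧ 5 * x ≤ 16000 * x ^ 2 * cU / (320 * π) := by
  have hx0 : 0 < x := by linarith
  have h1 : 1 ≤ x * cU := by
    rw [div_le_iff₀ hcU] at hx3
    exact hx3
  have h3 := pi_le_four
  have h2 : 16000 * x ^ 2 * cU = 16000 * x * (x * cU) := by ring
  have h5 : 16000 * x * 1 ≤ 16000 * x * (x * cU) := mul_le_mul_of_nonneg_left h1 (by positivity)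
  constructor
  · rw [div_le_one (by positivity), h2]
    linarith
  · rw [le_div_iff₀ (by positivity), h2]
    have h6 : 5 * x * (320 * π) ≤ 5 * x * (320 * 4) := by gcongr
    linarith

end Par

open Par in
/-- The parameters of the crude recursion. Suggested choice: x large, q = exp (-x), δ = 1 / (1600 x),
M = exp (4 x), r0 = C x ^ 2, D0 = 2 CR r0, Λ = exp (q x ^ 2). -/
theorem params (CK CR cU Θ : ℝ) (hCK : 1 ≤ CK) (hCR : 1 ≤ CR) (hcU : 0 < cU) (_hΘ : 0 ≤ Θ) :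
    ∃ q δ M r0 D0 Λ : ℝ,
      0 < q ∧ q ≤ 1 / 64 ∧ 0 < δ ∧ δ ≤ 1 / 2 ∧ 1 ≤ M ∧ 1161216 ≤ M * q ^ 3 ∧
      2 * Θ + 20 ≤ r0 ∧ (∀ r, r0 ≤ r → 2 * log (1 + M) + 6 + δ * r ≤ 2 * δ * (r - 1)) ∧
      2 * log (1 + M) ≤ r0 ∧ D0 = 2 * CR * r0 ∧
      4 * exp (-(1 / (320 * δ))) ≤ q ^ 3 ∧ 2 * π / (r0 * cU) ≤ 1 ∧
      4 * exp (-(r0 * cU / (320 * π))) ≤ q ^ 3 ∧
      1 ≤ Λ ∧ Λ ^ 3 ≤ 2 ∧ (CK / q ^ 2) ^ q ≤ Λ ∧ (64 * D0) ^ ((q ^ 2 + 2 * q) / (1 - q)) ≤ Λ ∧
      (192 : ℝ) ^ ((q ^ 2 + 2 * q) / (1 - q)) ≤ Λ ∧ CR ^ q ≤ Λ ∧ r0 ^ q ≤ Λ ∧ D0 ^ q ≤ Λ ∧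
      1 + 8 * q ^ 2 ≤ Λ ∧ (32 * D0) ^ (q ^ 2) ≤ Λ ∧ (96 : ℝ) ^ (q ^ 2) ≤ Λ ∧
      Λ ^ 2 * (1 - 1 / (8 * D0)) + 4 * q ^ 3 ≤ 1 - 1 / (16 * D0) ∧
      (1 - 1 / (16 * D0)) * Λ + q ≤ 1 ∧
      ((1 - 1 / (16 * D0)) * Λ + q) * Λ ^ 2 + 10 * q ^ 3 ≤ 1 - 1 / (800 * D0) ∧
      Λ ^ 2 * (((1 - 1 / (16 * D0)) * Λ + q) / 24 + 23 / 24) + 6 * q ^ 3 ≤ 1 - 1 / (800 * D0) ∧
      20 * q ^ 2 ≤ 1 - (1 + δ) ^ (-q) * (1 + 16 * q ^ 2 * δ) := by
  -- the scale
  have hK : (0 : ℝ) < 1 / (10 ^ 10 * CR) := by positivity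
  obtain ⟨x, hx1, hx2, hx3, hx4, hx5, hxq⟩ : ∃ x : ℝ, 100 ≤ x ∧ Θ ≤ x ∧ 1 / cU ≤ x ∧ log CK ≤ x ∧
      log (2048000 * CR) ≤ x ∧ exp (-x) * x ^ 4 ≤ 1 / (10 ^ 10 * CR) := by
    have e1 := Filter.eventually_ge_atTop (100 : ℝ)
    have e2 := Filter.eventually_ge_atTop Θ
    have e3 := Filter.eventually_ge_atTop (1 / cU)
    have e4 := Filter.eventually_ge_atTop (log CK)
    have e5 := Filter.eventually_ge_atTop (log (2048000 * CR))
    have e6 : ∀ᶠ x : ℝ in Filter.atTop, x ^ 4 * exp (-x) < 1 / (10 ^ 10 * CR) :=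
      (Real.tendsto_pow_mul_exp_neg_atTop_nhds_zero 4).eventually_lt_const hK
    obtain ⟨x, ⟨⟨⟨⟨h1, h2⟩, h3⟩, h4⟩, h5⟩, h6⟩ := (((((e1.and e2).and e3).and e4).and e5).and e6).exists
    exact ⟨x, h1, h2, h3, h4, h5, by rw [mul_comm]; exact h6.le⟩
  have hx0 : 0 < x := by linarith
  obtain ⟨q, hq⟩ : ∃ q, q = exp (-x) := ⟨_, rfl⟩
  rw [← hq, le_div_iff₀ (by positivity)] at hxq
  have hq0 : 0 < q := by rw [hq]; exact exp_pos _
  have hx2ge : (10000 : ℝ) ≤ x ^ 2 := by nlinarith only [hx1]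
  have hCRx : (10000 : ℝ) ≤ CR * x ^ 2 := by
    calc (10000 : ℝ) = 1 * 10000 := by norm_num
      _ ≤ CR * x ^ 2 := mul_le_mul hCR hx2ge (by norm_num) (by linarith)
  have hD : (0 : ℝ) < 32000 * CR * x ^ 2 := by positivity
  -- `u = 1 / D0`
  obtain ⟨u, hu⟩ : ∃ u, u = 1 / (32000 * CR * x ^ 2) := ⟨_, rfl⟩
  have hu0 : 0 < u := by rw [hu]; positivity
  obtain ⟨y, hy⟩ : ∃ y, y = q * x ^ 2 := ⟨_, rfl⟩
  have hy0 : 0 < y := by rw [hy]; positivity
  have hyu : y ≤ u / 300000 := by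
    rw [hu, hy, div_div, le_div_iff₀ (by positivity)]
    have h1 : q * x ^ 2 * (32000 * CR * x ^ 2 * 300000) = 9600000000 * (q * x ^ 4 * CR) := by ring
    have h2 : 0 < q * x ^ 4 * CR := by positivity
    rw [h1]
    linarith
  have hu1 : u ≤ 1 / 1000 := by
    rw [hu, div_le_div_iff₀ hD (by norm_num)]
    linarith
  have hqy : q ≤ y / 10000 := by
    rw [hy, le_div_iff₀ (by norm_num)]
    exact mul_le_mul_of_nonneg_left hx2ge hq0.le
  have hqu : q ≤ u / 300000 := by linarith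
  have hqsmall : q ≤ 1 / 10 ^ 6 := by linarith
  have hq2 : q ^ 2 ≤ q := by
    have : q * q ≤ q * 1 := mul_le_mul_of_nonneg_left (by linarith) hq0.le
    linarith [pow_two q]
  have hq3 : q ^ 3 ≤ q := by
    have h1 : q ^ 3 = q ^ 2 * q := by ring
    have : q ^ 2 * q ≤ q * 1 := mul_le_mul hq2 (by linarith) hq0.le hq0.le
    linarith
  have hexp3 : q ^ 3 = exp (-(3 * x)) := by
    rw [hq, ← exp_nat_mul]
    congr 1
    push_cast
    ring
  have hL1 : exp y ≤ 1 + 2 * y := exp_le_lin hy0.le (by linarith)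
  have hL2 : exp y ^ 2 ≤ 1 + 4 * y := by
    rw [← exp_nat_mul]
    have := exp_le_lin (t := ((2 : ℕ) : ℝ) * y) (by positivity) (by push_cast; linarith)
    push_cast at this ⊢
    linarith
  have hL3 : exp y ^ 3 ≤ 1 + 6 * y := by
    rw [← exp_nat_mul]
    have := exp_le_lin (t := ((3 : ℕ) : ℝ) * y) (by positivity) (by push_cast; linarith)
    push_cast at this ⊢
    linarith
  have hLge : 1 + y ≤ exp y := by linarith [add_one_le_exp y]
  have hM := logs hx1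
  -- logarithms
  have hlogx : log x ≤ x := (log_le_sub_one_of_pos hx0).trans (by linarith)
  have hbig : (64 : ℝ) * (2 * CR * (16000 * x ^ 2)) = 2048000 * (CR * x ^ 2) := by ring
  have hlog64 : log (64 * (2 * CR * (16000 * x ^ 2))) ≤ 3 * x := by
    have h1 : 64 * (2 * CR * (16000 * x ^ 2)) = 2048000 * CR * x ^ 2 := by ring
    rw [h1, log_mul (by positivity) (by positivity), log_pow]
    push_cast
    linarith
  have h9x : 9 * x ≤ x ^ 2 := by nlinarith only [hx1]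
  have hmon : ∀ c : ℝ, 0 < c → c ≤ 64 * (2 * CR * (16000 * x ^ 2)) → 3 * log c ≤ x ^ 2 := by
    intro c hc h1
    have h2 : log c ≤ 3 * x := (log_le_log hc h1).trans hlog64
    linarith
  have hfrac0 : 0 ≤ (q ^ 2 + 2 * q) / (1 - q) := div_nonneg (by positivity) (by linarith)
  have hfrac : (q ^ 2 + 2 * q) / (1 - q) ≤ 3 * q := by
    rw [div_le_iff₀ (by linarith)]
    have h1 : 3 * q * (1 - q) = 3 * q - 3 * q ^ 2 := by ring
    have h2 : q * q ≤ q * (1 / 4) := mul_le_mul_of_nonneg_left (by linarith) hq0.le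
    rw [h1]
    linarith [pow_two q]
  have hD0 : (2 * CR * (16000 * x ^ 2)) = 32000 * CR * x ^ 2 := by ring
  have hu8 : ∀ k : ℝ, 0 < k → 1 / (k * (2 * CR * (16000 * x ^ 2))) = u / k := by
    intro k hk
    rw [hu, hD0]
    field_simp
  obtain ⟨l1, l2, l3, l4⟩ := lin hq0 hy0 hu0 hyu hqu hu1 hq3 (exp_pos y) hL1 hL2 hL3
  obtain ⟨c1, c2⟩ := cUs hx1 hcU hx3
  have hCRle : CR ≤ 64 * (2 * CR * (16000 * x ^ 2)) := by
    have : CR * 1 ≤ CR * x ^ 2 := mul_le_mul_of_nonneg_left (by linarith) (by linarith)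
    rw [hbig]
    linarith
  have hx2le : x ^ 2 ≤ CR * x ^ 2 := by
    have : 1 * x ^ 2 ≤ CR * x ^ 2 := mul_le_mul_of_nonneg_right hCR (by positivity)
    linarith
  refine ⟨q, 1 / (1600 * x), exp (4 * x), 16000 * x ^ 2, 2 * CR * (16000 * x ^ 2), exp y, hq0, by linarith,
    by positivity, ?_, one_le_exp (by linarith), ?_, ?_, slope hx1 hM, ?_, rfl, ?_, c1, ?_, by linarith,
    by linarith, ?_, ?_, ?_, ?_, ?_, ?_, by linarith, ?_, ?_, ?_, ?_, ?_, ?_, ?_⟩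
  · rw [div_le_div_iff₀ (by positivity) (by norm_num)]
    linarith
  · rw [hexp3]
    exact pow_exp hx1
  · linarith
  · linarith
  · rw [hexp3]
    refine four_exp hx1 (le_of_eq ?_)
    field_simp
    norm_num
  · rw [hexp3]
    exact four_exp hx1 c2
  · -- (CK / q ^ 2) ^ q
    have hc : 0 < CK / q ^ 2 := by positivity
    rw [rpow_def_of_pos hc, hy]
    apply exp_le_exp.2
    have h1 : log (CK / q ^ 2) = log CK + 2 * x := by
      rw [log_div (by positivity) (by positivity), log_pow, hq, log_exp]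
      push_cast
      ring
    rw [h1, mul_comm]
    exact mul_le_mul_of_nonneg_left (by linarith) hq0.le
  · rw [hy]
    exact rpow_le_exp (by positivity) hfrac0 hfrac hq0.le (hmon _ (by positivity) le_rfl)
  · rw [hy]
    exact rpow_le_exp (by norm_num) hfrac0 hfrac hq0.le (hmon _ (by norm_num) (by rw [hbig]; linarith))
  · rw [hy]
    exact rpow_le_exp (by linarith) hq0.le (by linarith) hq0.le (hmon _ (by linarith) hCRle)
  · rw [hy]
    exact rpow_le_exp (by positivity) hq0.le (by linarith) hq0.le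
      (hmon _ (by positivity) (by rw [hbig]; linarith))
  · rw [hy]
    exact rpow_le_exp (by positivity) hq0.le (by linarith) hq0.le
      (hmon _ (by positivity) (by rw [hbig]; linarith))
  · rw [hy]
    exact rpow_le_exp (by positivity) (by positivity) (by linarith) hq0.le
      (hmon _ (by positivity) (by rw [hbig]; linarith))
  · rw [hy]
    exact rpow_le_exp (by norm_num) (by positivity) (by linarith) hq0.le
      (hmon _ (by norm_num) (by rw [hbig]; linarith))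
  · rw [hu8 8 (by norm_num), hu8 16 (by norm_num)]
    exact l1
  · rw [hu8 16 (by norm_num)]
    exact l2
  · rw [hu8 16 (by norm_num), hu8 800 (by norm_num)]
    exact l3
  · rw [hu8 16 (by norm_num), hu8 800 (by norm_num)]
    exact l4
  · refine gain hq0 (by positivity) ?_ ?_
    · rw [div_le_div_iff₀ (by positivity) (by norm_num)]
      linarith
    · rw [div_div, le_div_iff₀ (by positivity)]
      have h3 : x ≤ x ^ 4 := by
        have h4 : x ^ 4 = x * (x * x ^ 2) := by ring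
        rw [h4]
        have h5 : (1 : ℝ) ≤ x * x ^ 2 := by
          calc (1 : ℝ) = 1 * 1 := by norm_num
            _ ≤ x * x ^ 2 := mul_le_mul (by linarith) (by linarith) (by norm_num) hx0.le
        calc x = x * 1 := by ring
          _ ≤ x * (x * x ^ 2) := mul_le_mul_of_nonneg_left h5 hx0.le
      calc q * (1600 * x * 1000) = q * x * 1600000 := by ring
        _ ≤ q * x ^ 4 * (10 ^ 10 * CR) := by
            apply mul_le_mul _ _ (by norm_num) (by positivity)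
            · exact mul_le_mul_of_nonneg_left h3 hq0.le
            · linarith
        _ ≤ 1 := hxq

end Pool.A2F.Cr
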