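import Pool.Agent.A2F.Crude6
import Pool.Agent.A2F.CrudeP

/-!
# Module Crude: uniform bound for negative moments from an arbitrary starting measure
-/

set_option autoImplicit false

open MeasureTheory Finset
open scoped ENNReal NNReal

noncomputable section

namespace Pool.A2F

namespace Cr

theorem exists_par (CK CR cU Θ : ℝ) (hCK : 1 ≤ CK) (hCR : 1 ≤ CR) (hcU : 0 < cU) (hΘ : 0 ≤ Θ) :
    ∃ q δ M r0 D0 Λ : ℝ, Par CK CR cU Θ q δ M r0 D0 Λ := by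
  obtain ⟨q, δ, M, r0, D0, Λ, h1, h2, h3, h4, h5, h6, h7, h8, h9, h10, h11, h12, h13, h14, h15,
    h16, h17, h18, h19, h20, h21, h22, h23, h24, h25, h26, h27, h28, h29⟩ :=
    params CK CR cU Θ hCK hCR hcU hΘ
  exact ⟨q, δ, M, r0, D0, Λ, ⟨h1, h2, h3, h4, h5, h6, h7, h8, h9, h10, h11, h12, h13, h14, h15,
    h16, h17, h18, h19, h20, h21, h22, h23, h24, h25, h26, h27, h28, h29⟩⟩

/-- smallness of s -/
theorem exists_small (c : ℝ) (hc : 0 < c) : ∃ N0 : ℕ, ∀ N ≥ N0, 4 / Real.log N ≤ c := by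
  refine ⟨⌈Real.exp (4 / c)⌉₊ + 2, fun N hN => ?_⟩
  have h1 : Real.exp (4 / c) ≤ N := by
    have h2 : Real.exp (4 / c) ≤ (⌈Real.exp (4 / c)⌉₊ : ℝ) := Nat.le_ceil _
    have h3 : (⌈Real.exp (4 / c)⌉₊ : ℝ) ≤ N := by
      have : ⌈Real.exp (4 / c)⌉₊ ≤ N := by omega
      exact_mod_cast this
    linarith
  have h4 : 4 / c ≤ Real.log N := by
    rw [← Real.log_exp (4 / c)]
    exact Real.log_le_log (Real.exp_pos _) h1
  have h5 : 0 < Real.log N := lt_of_lt_of_le (by positivity) h4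
  rw [div_le_iff₀ hc] at h4
  rw [div_le_iff₀ h5]
  linarith

end Cr

open Cr in
/-- For some small exponents a0, q: E |W_N|^(-a0) <= A (1 + K N W)^q for EVERY probability W. -/
theorem crude (Θ C4 : ℝ) (hΘ : 0 ≤ Θ) : ∃ a0 q A : ℝ, 0 < a0 ∧ a0 ≤ 1 ∧ 0 < q ∧ q ≤ 1 ∧
    1 ≤ A ∧ ∃ N0 : ℕ, ∀ N ≥ N0, ∀ s : ℝ, Win Θ N s →
    ∀ {G : Type} [Fintype G] [DecidableEq G] [AddCommGroup G] (p : G → ℝ≥0) (m : Measure ℝ≥0),
      Walk p (4 * N) → Law m s C4 → ∀ W : G → ℝ≥0, mass W = 1 →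
        (TT p m)^[N] (nm a0) W ≤ ENNReal.ofReal (A * (1 + KK p s N W) ^ q) := by
  obtain ⟨cU, CU, hcU, hCU, N1, hN1⟩ := win_facts Θ hΘ
  obtain ⟨N2, hN2⟩ := exists_scale Θ hΘ
  obtain ⟨Co, hCo, hov⟩ := overshoot C4
  have hdiv : 0 < CU / cU := by positivity
  obtain ⟨q, δ, M, r0, D0, Λ, hP⟩ := exists_par (1 + CU + CU / cU) (1 + CU) cU Θ (by linarith)
    (by linarith) hcU hΘ
  have hq := hP.q_pos
  have hqs := hP.q_le
  have hD0 : 40 ≤ D0 := hP.D0_ge (by linarith) hΘ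
  have hr0 := hP.r0_ge
  have hr00 : 0 < r0 := by linarith
  obtain ⟨E, hE⟩ : ∃ E : ℝ, E = Co * (96 ^ 6 * 2 + (32 * D0) ^ 6 * D0) := ⟨_, rfl⟩
  have hE0 : 0 < E := by rw [hE]; positivity
  obtain ⟨c, hc⟩ : ∃ c : ℝ, c = min (1 / 4) (min ((q ^ 3 / E) ^ 2) (Real.pi / (2 * r0))) := ⟨_, rfl⟩
  have hc0 : 0 < c := by rw [hc]; positivity
  obtain ⟨N3, hN3⟩ := exists_small c hc0
  refine ⟨q ^ 2, q, 3200 * D0, by positivity, by nlinarith, hq, by linarith, by linarith,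
    max (max N1 N2) (max N3 10), fun N hN s hwin G _ _ _ p m hw hm W hW => ?_⟩
  have hNa : N1 ≤ N := le_trans (le_trans (le_max_left _ _) (le_max_left _ _)) hN
  have hNb : N2 ≤ N := le_trans (le_trans (le_max_right _ _) (le_max_left _ _)) hN
  have hNc : N3 ≤ N := le_trans (le_trans (le_max_left _ _) (le_max_right _ _)) hN
  have hNd : 10 ≤ N := le_trans (le_trans (le_max_right _ _) (le_max_right _ _)) hN
  have hf := hN1 N hNa s hwin
  have hs : s ≤ c := hf.s_le.trans (hN3 N hNc)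
  have hs0 := hm.s_pos
  have hs1 : s ≤ 1 / 4 := hs.trans (by rw [hc]; exact min_le_left _ _)
  have hs2 : s ≤ (q ^ 3 / E) ^ 2 :=
    hs.trans (by rw [hc]; exact (min_le_right _ _).trans (min_le_left _ _))
  have hs3 : s ≤ Real.pi / (2 * r0) :=
    hs.trans (by rw [hc]; exact (min_le_right _ _).trans (min_le_right _ _))
  have ctx : Ctx p m N s Θ C4 cU CU Co q δ M r0 D0 Λ := by
    refine ⟨hw, hm, hΘ, hcU, hCU, hNd, hf, hN2 N hNb s hwin, hCo, ?_, hP, hs1, ?_, ?_⟩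
    · exact hov p m (4 * N) s hw hm
    · have h1 : Real.sqrt s ≤ q ^ 3 / E := by
        rw [Real.sqrt_le_left (by positivity)]
        exact hs2
      rw [le_div_iff₀ hE0, hE] at h1
      linarith
    · rw [le_div_iff₀ (by positivity)] at hs3 ⊢
      linarith
  exact final ctx W hW

end Pool.A2F
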