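import Pool.Agent.A2F.Cvx

/-!
# Module Fourth: the fourth moment of a weighted sum over a layer
-/

set_option autoImplicit false
set_option linter.unusedSectionVars false

open MeasureTheory Finset ProbabilityTheory
open scoped ENNReal NNReal

noncomputable section

namespace Pool.A2F.Fourth

section abs
variable {Ω : Type*} [MeasurableSpace Ω] {P : Measure Ω} [IsProbabilityMeasure P]

/-- lower powers are integrable -/
lemma int_pow {Z : Ω → ℝ} (hZ : Measurable Z) (h4 : Integrable (fun w => Z w ^ 4) P) {k : ℕ}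
    (hk : k ≤ 4) : Integrable (fun w => Z w ^ k) P := by
  refine ((integrable_const (1 : ℝ)).add h4).mono' (hZ.pow_const k).aestronglyMeasurable ?_
  refine ae_of_all _ fun w => ?_
  rw [Real.norm_eq_abs, abs_pow, Pi.add_apply]
  have h1 : Z w ^ 4 = |Z w| ^ 4 := by
    rw [← abs_pow, abs_of_nonneg (by positivity)]
  rw [h1]
  rcases le_total |Z w| 1 with h | h
  · have := pow_le_one₀ (abs_nonneg (Z w)) h (n := k)
    have h2 : 0 ≤ |Z w| ^ 4 := by positivity
    linarith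
  · have := pow_le_pow_right₀ h hk
    linarith

/-- products of powers of independent variables -/
lemma int_mul {Z u : Ω → ℝ} (hZ : Measurable Z) (hu : Measurable u) (hi : IndepFun Z u P)
    (h4 : Integrable (fun w => Z w ^ 4) P) (g4 : Integrable (fun w => u w ^ 4) P) {k l : ℕ}
    (hk : k ≤ 4) (hl : l ≤ 4) : Integrable (fun w => Z w ^ k * u w ^ l) P ∧
      ∫ w, Z w ^ k * u w ^ l ∂P = (∫ w, Z w ^ k ∂P) * ∫ w, u w ^ l ∂P := by
  have h1 : IndepFun (fun w => Z w ^ k) (fun w => u w ^ l) P :=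
    hi.comp (φ := fun x : ℝ => x ^ k) (ψ := fun x : ℝ => x ^ l) (by fun_prop) (by fun_prop)
  have h2 := int_pow hZ h4 hk
  have h3 := int_pow hu g4 hl
  exact ⟨h1.integrable_mul h2 h3, h1.integral_fun_mul_eq_mul_integral h2.aestronglyMeasurable
    h3.aestronglyMeasurable⟩

/-- one more summand -/
lemma step {Z u : Ω → ℝ} (hZ : Measurable Z) (hu : Measurable u) (hi : IndepFun Z u P)
    (h4 : Integrable (fun w => Z w ^ 4) P) (g4 : Integrable (fun w => u w ^ 4) P)
    (h0 : ∫ w, Z w ∂P = 0) (g0 : ∫ w, u w ∂P = 0) :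
    Integrable (fun w => (Z w + u w) ^ 4) P ∧ ∫ w, (Z w + u w) ∂P = 0 ∧
      ∫ w, (Z w + u w) ^ 2 ∂P = (∫ w, Z w ^ 2 ∂P) + ∫ w, u w ^ 2 ∂P ∧
      ∫ w, (Z w + u w) ^ 4 ∂P = (∫ w, Z w ^ 4 ∂P) + 6 * ((∫ w, Z w ^ 2 ∂P) * ∫ w, u w ^ 2 ∂P) +
        ∫ w, u w ^ 4 ∂P := by
  have i1 := int_pow hZ h4 (show 1 ≤ 4 by norm_num)
  have i2 := int_pow hZ h4 (show 2 ≤ 4 by norm_num)
  have j1 := int_pow hu g4 (show 1 ≤ 4 by norm_num)
  have j2 := int_pow hu g4 (show 2 ≤ 4 by norm_num)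
  simp only [pow_one] at i1 j1
  obtain ⟨m31, e31⟩ := int_mul hZ hu hi h4 g4 (show 3 ≤ 4 by norm_num) (show 1 ≤ 4 by norm_num)
  obtain ⟨m22, e22⟩ := int_mul hZ hu hi h4 g4 (show 2 ≤ 4 by norm_num) (show 2 ≤ 4 by norm_num)
  obtain ⟨m13, e13⟩ := int_mul hZ hu hi h4 g4 (show 1 ≤ 4 by norm_num) (show 3 ≤ 4 by norm_num)
  obtain ⟨m11, e11⟩ := int_mul hZ hu hi h4 g4 (show 1 ≤ 4 by norm_num) (show 1 ≤ 4 by norm_num)
  simp only [pow_one, g0, h0, mul_zero, zero_mul] at m31 e31 m13 e13 m11 e11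
  have hx : (fun w => (Z w + u w) ^ 4) = fun w => Z w ^ 4 + (4 * (Z w ^ 3 * u w) +
      (6 * (Z w ^ 2 * u w ^ 2) + (4 * (Z w * u w ^ 3) + u w ^ 4))) := by
    funext w
    ring
  have hy : (fun w => (Z w + u w) ^ 2) = fun w => Z w ^ 2 + (2 * (Z w * u w) + u w ^ 2) := by
    funext w
    ring
  have a1 : Integrable (fun w => 4 * (Z w * u w ^ 3) + u w ^ 4) P := (m13.const_mul 4).add g4
  have a2 : Integrable (fun w => 6 * (Z w ^ 2 * u w ^ 2) + (4 * (Z w * u w ^ 3) + u w ^ 4)) P :=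
    (m22.const_mul 6).add a1
  have a3 : Integrable (fun w => 4 * (Z w ^ 3 * u w) +
      (6 * (Z w ^ 2 * u w ^ 2) + (4 * (Z w * u w ^ 3) + u w ^ 4))) P := (m31.const_mul 4).add a2
  have b1 : Integrable (fun w => 2 * (Z w * u w) + u w ^ 2) P := (m11.const_mul 2).add j2
  refine ⟨?_, ?_, ?_, ?_⟩
  · rw [hx]
    exact h4.add a3
  · rw [integral_add i1 j1, h0, g0, add_zero]
  · rw [hy, integral_add i2 b1, integral_add (m11.const_mul 2) j2,
      integral_const_mul, e11]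
    ring
  · rw [hx, integral_add h4 a3, integral_add (m31.const_mul 4) a2, integral_add (m22.const_mul 6) a1,
      integral_add (m13.const_mul 4) g4, integral_const_mul, integral_const_mul, integral_const_mul,
      e31, e22, e13]
    ring

/-- **the fourth moment of a weighted sum of independent centred variables** -/
theorem sum {ι : Type*} [DecidableEq ι] {X : ι → Ω → ℝ} (hX : ∀ i, Measurable (X i))
    (hi : iIndepFun X P) {v B : ℝ} (h0 : ∀ i, ∫ w, X i w ∂P = 0) (h2 : ∀ i, ∫ w, X i w ^ 2 ∂P = v)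
    (i4 : ∀ i, Integrable (fun w => X i w ^ 4) P) (h4 : ∀ i, ∫ w, X i w ^ 4 ∂P ≤ B * v ^ 2)
    (hB : 3 ≤ B) (c : ι → ℝ) (S : Finset ι) :
    Integrable (fun w => (∑ i ∈ S, c i * X i w) ^ 4) P ∧ ∫ w, (∑ i ∈ S, c i * X i w) ∂P = 0 ∧
      ∫ w, (∑ i ∈ S, c i * X i w) ^ 2 ∂P = v * ∑ i ∈ S, c i ^ 2 ∧
      ∫ w, (∑ i ∈ S, c i * X i w) ^ 4 ∂P ≤ B * v ^ 2 * (∑ i ∈ S, c i ^ 2) ^ 2 := by
  induction S using Finset.induction_on with
  | empty => simp
  | insert a S ha ih =>
    obtain ⟨k1, k2, k3, k4⟩ := ih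
    have hY : ∀ i, Measurable (fun w => c i * X i w) := fun i => (hX i).const_mul _
    have hiY : iIndepFun (fun i w => c i * X i w) P :=
      hi.comp (fun i x => c i * x) fun i => by fun_prop
    have hZ : Measurable fun w => ∑ i ∈ S, c i * X i w := by fun_prop
    have hind : IndepFun (fun w => ∑ i ∈ S, c i * X i w) (fun w => c a * X a w) P := by
      have := hiY.indepFun_finsetSum_of_notMem hY ha
      refine (this.congr ?_ ?_)
      · exact Filter.Eventually.of_forall fun w => by simp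
      · exact Filter.EventuallyEq.refl _ _
    have g4 : Integrable (fun w => (c a * X a w) ^ 4) P := by
      simp only [mul_pow]
      exact (i4 a).const_mul _
    have g0 : ∫ w, c a * X a w ∂P = 0 := by rw [integral_const_mul, h0 a, mul_zero]
    obtain ⟨l1, l2, l3, l4⟩ := step hZ (hY a) hind k1 g4 k2 g0
    have e2 : ∫ w, (c a * X a w) ^ 2 ∂P = c a ^ 2 * v := by
      simp only [mul_pow]
      rw [integral_const_mul, h2 a]
    have e4 : ∫ w, (c a * X a w) ^ 4 ∂P ≤ c a ^ 4 * (B * v ^ 2) := by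
      simp only [mul_pow]
      rw [integral_const_mul]
      exact mul_le_mul_of_nonneg_left (h4 a) (by positivity)
    have hs : ∀ w, ∑ i ∈ insert a S, c i * X i w = (∑ i ∈ S, c i * X i w) + c a * X a w := by
      intro w
      rw [sum_insert ha, add_comm]
    simp only [hs]
    rw [sum_insert ha]
    refine ⟨l1, l2, ?_, ?_⟩
    · rw [l3, k3, e2]
      ring
    · rw [l4, k3, e2]
      have h5 : 0 ≤ ∑ i ∈ S, c i ^ 2 := sum_nonneg fun i _ => sq_nonneg _
      set A := ∑ i ∈ S, c i ^ 2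
      have h6 : 0 ≤ v ^ 2 * (A * c a ^ 2) * (B - 3) :=
        mul_nonneg (by positivity) (by linarith)
      nlinarith [h6]

end abs

/-! ### the layer -/

variable {G : Type} [Fintype G] [DecidableEq G] [AddCommGroup G]
variable {p : G → ℝ≥0} {m : Measure ℝ≥0} {n0 : ℕ} {s C4 : ℝ}

lemma int4 (hm : Law m s C4) : Integrable (fun x : ℝ≥0 => ((x : ℝ) - 1) ^ 4) m := by
  refine ⟨by fun_prop, ?_⟩
  rw [hasFiniteIntegral_iff_ofReal (ae_of_all _ fun x => by positivity)]
  exact lt_of_le_of_lt hm.m4 ENNReal.ofReal_lt_top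

lemma mom1 (hm : Law m s C4) : ∫ x, ((x : ℝ) - 1) ∂m = 0 := by
  have := hm.prob
  have h1 := int_pow (P := m) (Z := fun x : ℝ≥0 => (x : ℝ) - 1) (by fun_prop) (int4 hm)
    (show 1 ≤ 4 by norm_num)
  simp only [pow_one] at h1
  have h2 : Integrable (fun x : ℝ≥0 => (x : ℝ)) m := by
    have := h1.add (integrable_const (1 : ℝ))
    refine this.congr (ae_of_all _ fun x => ?_)
    simp
  rw [integral_sub h2 (integrable_const _), integral_const]
  have h3 : ∫ x : ℝ≥0, (x : ℝ) ∂m = 1 := by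
    rw [integral_eq_lintegral_of_nonneg_ae (ae_of_all _ fun x => x.2) h2.aestronglyMeasurable]
    have h4 : ∫⁻ x : ℝ≥0, ENNReal.ofReal (x : ℝ) ∂m = 1 := by
      simp only [ENNReal.ofReal_coe_nnreal]
      exact hm.m1
    rw [h4]
    simp
  rw [h3]
  simp

lemma mom2 (hm : Law m s C4) : ∫ x, ((x : ℝ) - 1) ^ 2 ∂m = s := by
  have := hm.prob
  have h1 := int_pow (P := m) (Z := fun x : ℝ≥0 => (x : ℝ) - 1) (by fun_prop) (int4 hm)
    (show 1 ≤ 4 by norm_num)
  have h2 := int_pow (P := m) (Z := fun x : ℝ≥0 => (x : ℝ) - 1) (by fun_prop) (int4 hm)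
    (show 2 ≤ 4 by norm_num)
  simp only [pow_one] at h1
  have h3 : Integrable (fun x : ℝ≥0 => (x : ℝ) ^ 2) m := by
    have := (h2.add (h1.const_mul 2)).add (integrable_const (1 : ℝ))
    refine this.congr (ae_of_all _ fun x => ?_)
    simp only [Pi.add_apply]
    ring
  have h4 : ∫ x : ℝ≥0, (x : ℝ) ^ 2 ∂m = 1 + s := by
    rw [integral_eq_lintegral_of_nonneg_ae (ae_of_all _ fun x => by positivity)
      h3.aestronglyMeasurable]
    have h5 : ∫⁻ x : ℝ≥0, ENNReal.ofReal ((x : ℝ) ^ 2) ∂m = ENNReal.ofReal (1 + s) := by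
      rw [← hm.m2]
      refine lintegral_congr fun x => ?_
      rw [ENNReal.ofReal_pow (NNReal.coe_nonneg x), ENNReal.ofReal_coe_nnreal]
    rw [h5, ENNReal.toReal_ofReal (by linarith [hm.s_pos])]
  have h6 : (fun x : ℝ≥0 => ((x : ℝ) - 1) ^ 2) =
      fun x : ℝ≥0 => (x : ℝ) ^ 2 - (2 * ((x : ℝ) - 1) + 1) := by
    funext x
    ring
  have h7 : Integrable (fun x : ℝ≥0 => 2 * ((x : ℝ) - 1) + 1) m :=
    (h1.const_mul 2).add (integrable_const _)
  rw [h6, integral_sub h3 h7,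
    integral_add (h1.const_mul 2) (integrable_const _), integral_const_mul, mom1 hm, h4]
  simp

lemma mom4 (hm : Law m s C4) : ∫ x, ((x : ℝ) - 1) ^ 4 ∂m ≤ (|C4| + 3) * s ^ 2 := by
  have := hm.prob
  rw [integral_eq_lintegral_of_nonneg_ae (ae_of_all _ fun x => by positivity)
    (int4 hm).aestronglyMeasurable]
  have h1 : 0 ≤ (|C4| + 3) * s ^ 2 := by positivity
  refine ENNReal.toReal_le_of_le_ofReal h1 (hm.m4.trans (ENNReal.ofReal_le_ofReal ?_))
  refine mul_le_mul_of_nonneg_right ?_ (sq_nonneg s)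
  linarith [le_abs_self C4]

/-- **the fourth moment of a layer** -/
theorem layer (hm : Law m s C4) (c : G → ℝ) :
    ∫⁻ ξ, ENNReal.ofReal ((∑ x, c x * ((ξ x : ℝ) - 1)) ^ 4) ∂(Measure.pi fun _ : G => m)
      ≤ ENNReal.ofReal ((|C4| + 3) * s ^ 2 * (∑ x, c x ^ 2) ^ 2) := by
  have := hm.prob
  have hmp : ∀ x : G, MeasurePreserving (Function.eval x) (Measure.pi fun _ : G => m) m := fun x =>
    measurePreserving_eval (fun _ : G => m) x
  have hev : ∀ (x : G) (k : ℕ), ∫ ξ : G → ℝ≥0, ((ξ x : ℝ) - 1) ^ k ∂(Measure.pi fun _ : G => m) =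
      ∫ t, ((t : ℝ) - 1) ^ k ∂m := by
    intro x k
    have h1 := integral_map (μ := Measure.pi fun _ : G => m) (φ := Function.eval x)
      (measurable_pi_apply x).aemeasurable (f := fun t : ℝ≥0 => ((t : ℝ) - 1) ^ k)
      (by rw [(hmp x).map_eq]; exact Measurable.aestronglyMeasurable (by fun_prop))
    rw [(hmp x).map_eq] at h1
    exact h1.symm
  have hind : iIndepFun (fun (x : G) (ξ : G → ℝ≥0) => (ξ x : ℝ) - 1) (Measure.pi fun _ : G => m) :=
    iIndepFun_pi (X := fun (_ : G) (t : ℝ≥0) => (t : ℝ) - 1) fun i => by fun_prop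
  have h4 : ∀ x : G, Integrable (fun ξ : G → ℝ≥0 => ((ξ x : ℝ) - 1) ^ 4)
      (Measure.pi fun _ : G => m) := fun x =>
    (hmp x).integrable_comp_of_integrable (int4 hm)
  have h := sum (P := Measure.pi fun _ : G => m) (X := fun (x : G) (ξ : G → ℝ≥0) => (ξ x : ℝ) - 1)
    (fun x => by fun_prop) hind (v := s) (B := |C4| + 3) (fun x => by
      have := hev x 1
      simp only [pow_one] at this
      rw [this, mom1 hm]) (fun x => by rw [hev x 2, mom2 hm]) h4
    (fun x => by rw [hev x 4]; exact mom4 hm) (by linarith [abs_nonneg C4]) c univ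
  rw [← ofReal_integral_eq_lintegral_ofReal h.1 (ae_of_all _ fun ξ => by positivity)]
  exact ENNReal.ofReal_le_ofReal h.2.2.2

end Pool.A2F.Fourth
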