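import Pool.Agent.A2F.Seq

/-!
# Module Ren: renewal estimates (pure real analysis)
-/

set_option autoImplicit false

open Finset
open scoped ENNReal NNReal

noncomputable section

namespace Pool.A2F

theorem Ut_zero (s : ℝ) : Ut s 0 = 1 := by simp [Ut]

theorem Ut_succ (s : ℝ) (n : ℕ) :
    Ut s (n + 1) = s * ∑ k ∈ range (n + 1), uu (n + 1 - k) * Ut s k := by
  rw [Ut]
  congr 1
  exact Fin.sum_univ_eq_sum_range (fun k => uu (n + 1 - k) * Ut s k) (n + 1)

theorem Ut_nonneg {s : ℝ} (hs : 0 ≤ s) (n : ℕ) : 0 ≤ Ut s n := by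
  induction n using Nat.strong_induction_on with
  | _ n ih =>
    cases n with
    | zero => rw [Ut_zero]; norm_num
    | succ n =>
      rw [Ut_succ]
      refine mul_nonneg hs (sum_nonneg fun k hk => mul_nonneg (uu_pos _).le (ih k ?_))
      exact mem_range.mp hk

/-- the renewal equation for a convolution with the renewal masses -/
theorem Ut_conv (s : ℝ) (g : ℕ → ℝ) (n : ℕ) :
    ∑ l ∈ range (n + 1), Ut s l * g (n - l)
      = g n + s * ∑ j ∈ range n, uu (j + 1) * ∑ l ∈ range (n - 1 - j + 1), Ut s l * g (n - 1 - j - l) := by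
  rw [sum_range_succ']
  have h1 : ∑ k ∈ range n, Ut s (k + 1) * g (n - (k + 1))
      = s * ∑ l ∈ range n, ∑ k ∈ range (l + 1), uu (l + 1 - k) * Ut s k * g (n - (l + 1)) := by
    rw [mul_sum]
    apply sum_congr rfl
    intro l _
    rw [Ut_succ, mul_assoc, sum_mul]
  have h2 : ∑ l ∈ range n, ∑ k ∈ range (l + 1), uu (l + 1 - k) * Ut s k * g (n - (l + 1))
      = ∑ j ∈ range n, uu (j + 1) * ∑ l ∈ range (n - 1 - j + 1), Ut s l * g (n - 1 - j - l) := by
    simp only [mul_sum]
    rw [sum_sigma', sum_sigma']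
    refine sum_nbij' (fun p => ⟨p.1 - p.2, p.2⟩) (fun p => ⟨p.1 + p.2, p.2⟩) ?_ ?_ ?_ ?_ ?_
    · rintro ⟨l, k⟩ h
      simp only [mem_sigma, mem_range] at h ⊢
      omega
    · rintro ⟨l, k⟩ h
      simp only [mem_sigma, mem_range] at h ⊢
      omega
    · rintro ⟨l, k⟩ h
      simp only [mem_sigma, mem_range] at h
      have : l - k + k = l := by omega
      simp only [this]
    · rintro ⟨l, k⟩ h
      simp only [mem_sigma, mem_range] at h
      have : l + k - k = l := by omega
      simp only [this]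
    · rintro ⟨l, k⟩ h
      simp only [mem_sigma, mem_range] at h
      have e1 : l + 1 - k = l - k + 1 := by omega
      have e2 : n - (l + 1) = n - 1 - (l - k) - k := by omega
      dsimp only
      rw [e1, e2]
      ring
  rw [h1, h2, Ut_zero, one_mul, Nat.sub_zero, add_comm]

/-- U_n = 1 + s * sum_(k=1..n) u k * U (n-k). -/
theorem UU_eq (s : ℝ) (n : ℕ) :
    UU s n = 1 + s * ∑ k ∈ range n, uu (k + 1) * UU s (n - 1 - k) := by
  have := Ut_conv s (fun _ => 1) n
  simpa only [mul_one, UU] using this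

theorem one_le_UU {s : ℝ} (hs : 0 ≤ s) (n : ℕ) : 1 ≤ UU s n := by
  unfold UU
  rw [sum_range_succ', Ut_zero]
  have : 0 ≤ ∑ k ∈ range n, Ut s (k + 1) := sum_nonneg fun k _ => Ut_nonneg hs _
  linarith

theorem UU_mono {s : ℝ} (hs : 0 ≤ s) : Monotone (UU s) := by
  apply monotone_nat_of_le_succ
  intro n
  unfold UU
  rw [sum_range_succ _ (n + 1)]
  linarith [Ut_nonneg hs (n + 1)]

theorem rho_anti (s : ℝ) : Antitone (rho s) := by
  intro m n h
  unfold rho
  have := RR_mono h
  have := mul_le_mul_of_nonneg_left this Real.pi_pos.le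
  linarith

theorem one_sub_eq {s : ℝ} (hs : 0 < s) (n : ℕ) : 1 - s * RR n = s * rho s n / Real.pi := by
  unfold rho
  have := Real.pi_pos
  field_simp

/-- (R1) s U_n <= pi / rho_n. -/
theorem sUU_le {s : ℝ} (hs : 0 < s) {n : ℕ} (h : 0 < rho s n) :
    s * UU s n ≤ Real.pi / rho s n := by
  have h1 : UU s n ≤ 1 + s * (RR n * UU s n) := by
    nth_rw 1 [UU_eq]
    have : ∑ k ∈ range n, uu (k + 1) * UU s (n - 1 - k) ≤ RR n * UU s n := by
      unfold RR
      rw [sum_mul]
      apply sum_le_sum
      intro k _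
      exact mul_le_mul_of_nonneg_left (UU_mono hs.le (by omega)) (uu_pos _).le
    have := mul_le_mul_of_nonneg_left this hs.le
    linarith
  have h2 : UU s n * (1 - s * RR n) ≤ 1 := by nlinarith
  rw [one_sub_eq hs] at h2
  rw [le_div_iff₀ h]
  have hp := Real.pi_pos
  have h3 : UU s n * (s * rho s n / Real.pi) = s * UU s n * rho s n / Real.pi := by ring
  rw [h3, div_le_one hp] at h2
  exact h2

theorem sUU_le8 {s : ℝ} (hs : 0 < s) {t n : ℕ} (ht : 8 ≤ rho s t) (hnt : n ≤ t) :
    s * UU s n ≤ Real.pi / 8 := by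
  have h1 : 8 ≤ rho s n := ht.trans (rho_anti s hnt)
  have h2 := sUU_le hs (n := n) (by linarith)
  refine h2.trans ?_
  exact div_le_div_of_nonneg_left Real.pi_pos.le (by norm_num) h1

/-- decomposition at the gap that straddles `m` -/
theorem Ut_split (s : ℝ) (m : ℕ) {n : ℕ} (h : m < n) :
    Ut s n = ∑ a ∈ range (m + 1), ∑ b ∈ Ico (m + 1) (n + 1),
      Ut s a * (s * uu (b - a)) * Ut s (n - b) := by
  induction n using Nat.strong_induction_on with
  | _ n ih =>
    obtain ⟨n, rfl⟩ : ∃ k, n = k + 1 := ⟨n - 1, by omega⟩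
    rw [Ut_succ]
    have h0 : range (n + 1) = range (m + 1) ∪ Ico (m + 1) (n + 1) := by
      ext i; simp only [mem_range, mem_union, mem_Ico]; omega
    have hd : Disjoint (range (m + 1)) (Ico (m + 1) (n + 1)) := by
      rw [disjoint_left]; intro i; simp only [mem_range, mem_Ico]; omega
    rw [h0, sum_union hd, mul_add]
    have h1 : s * ∑ j ∈ Ico (m + 1) (n + 1), uu (n + 1 - j) * Ut s j
        = ∑ a ∈ range (m + 1), ∑ b ∈ Ico (m + 1) (n + 1),
            Ut s a * (s * uu (b - a)) * Ut s (n + 1 - b) := by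
      have e1 : ∀ j ∈ Ico (m + 1) (n + 1), uu (n + 1 - j) * Ut s j
          = ∑ a ∈ range (m + 1), ∑ b ∈ Ico (m + 1) (j + 1),
            Ut s a * (s * uu (b - a)) * (uu (n + 1 - j) * Ut s (j - b)) := by
        intro j hj
        rw [mem_Ico] at hj
        rw [ih j (by omega) (by omega), mul_sum]
        apply sum_congr rfl
        intro a _
        rw [mul_sum]
        apply sum_congr rfl
        intro b _
        ring
      rw [sum_congr rfl e1, sum_comm, mul_sum]
      apply sum_congr rfl
      intro a _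
      -- swap j and b
      have e2 : ∑ j ∈ Ico (m + 1) (n + 1), ∑ b ∈ Ico (m + 1) (j + 1),
            Ut s a * (s * uu (b - a)) * (uu (n + 1 - j) * Ut s (j - b))
          = ∑ b ∈ Ico (m + 1) (n + 1), ∑ j ∈ Ico b (n + 1),
            Ut s a * (s * uu (b - a)) * (uu (n + 1 - j) * Ut s (j - b)) := by
        apply sum_comm'
        intro j b
        simp only [mem_Ico]
        omega
      rw [e2, mul_sum]
      apply sum_congr rfl
      intro b hb
      rw [mem_Ico] at hb
      have e3 : Ut s (n + 1 - b) = s * ∑ j ∈ Ico b (n + 1), uu (n + 1 - j) * Ut s (j - b) := by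
        have e4 : n + 1 - b = n - b + 1 := by omega
        rw [e4, Ut_succ, sum_Ico_eq_sum_range]
        congr 1
        have e5 : n + 1 - b = n - b + 1 := by omega
        rw [e5]
        apply sum_congr rfl
        intro i hi
        rw [mem_range] at hi
        have e6 : n - b + 1 - i = n + 1 - (b + i) := by omega
        have e7 : b + i - b = i := by omega
        rw [e6, e7]
      rw [e3]
      simp only [mul_sum]
      apply sum_congr rfl
      intro j _
      ring
    rw [h1]
    have h2 : s * ∑ k ∈ range (m + 1), uu (n + 1 - k) * Ut s k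
        = ∑ a ∈ range (m + 1), Ut s a * (s * uu (n + 1 - a)) * Ut s (n + 1 - (n + 1)) := by
      rw [mul_sum]
      apply sum_congr rfl
      intro a _
      rw [Nat.sub_self, Ut_zero]
      ring
    rw [h2, ← sum_add_distrib]
    apply sum_congr rfl
    intro a _
    rw [sum_Ico_succ_top (show m + 1 ≤ n + 1 by omega), add_comm]

/-- (R2) pointwise bound. -/
theorem Ut_le {s : ℝ} (hs : 0 < s) {t n : ℕ} (ht : 8 ≤ rho s t) (hn : 1 ≤ n) (hnt : n ≤ t) :
    Ut s n ≤ 8 * s / (Real.pi * n) * UU s n ^ 2 := by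
  induction n using Nat.strong_induction_on with
  | _ n ih =>
    have hp := Real.pi_pos
    have hn' : (0 : ℝ) < n := by exact_mod_cast hn
    have hU0 : 0 ≤ UU s n := zero_le_one.trans (one_le_UU hs.le n)
    have h8 := sUU_le8 hs ht hnt
    set m := n / 2 with hm
    have hmn : m < n := by omega
    set B := 32 * s / (Real.pi * n) * UU s n ^ 2 with hB
    have hB0 : 0 ≤ B := by positivity
    -- each term
    have key : ∀ a ∈ range (m + 1), ∀ b ∈ Ico (m + 1) (n + 1),
        Ut s a * (s * uu (b - a)) * Ut s (n - b)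
          ≤ 4 * s / (Real.pi * n) * (Ut s a * Ut s (n - b))
            + (if 4 * (b - a) < n then B ^ 2 * (s * uu (b - a)) else 0) := by
      intro a ha b hb
      rw [mem_range] at ha
      rw [mem_Ico] at hb
      have ha0 := Ut_nonneg hs.le a
      have hb0 := Ut_nonneg hs.le (n - b)
      have hu0 := (uu_pos (b - a)).le
      split_ifs with hg
      · have h1 : Ut s a ≤ B := by
          refine (ih a (by omega) (by omega) (by omega)).trans ?_
          rw [hB]
          have g1 : (0 : ℝ) < a := by exact_mod_cast (show 0 < a by omega)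
          have g2 : (n : ℝ) ≤ 4 * a := by exact_mod_cast (show n ≤ 4 * a by omega)
          have g3 : UU s a ^ 2 ≤ UU s n ^ 2 :=
            pow_le_pow_left₀ (zero_le_one.trans (one_le_UU hs.le a)) (UU_mono hs.le (by omega)) 2
          have g4 : 8 * s / (Real.pi * a) ≤ 32 * s / (Real.pi * n) := by
            rw [div_le_div_iff₀ (by positivity) (by positivity)]
            have : 0 ≤ s * Real.pi := by positivity
            nlinarith
          exact mul_le_mul g4 g3 (by positivity) (by positivity)
        have h2 : Ut s (n - b) ≤ B := by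
          refine (ih (n - b) (by omega) (by omega) (by omega)).trans ?_
          rw [hB]
          have g1 : (0 : ℝ) < ((n - b : ℕ) : ℝ) := by exact_mod_cast (show 0 < n - b by omega)
          have g2 : (n : ℝ) ≤ 4 * ((n - b : ℕ) : ℝ) := by
            exact_mod_cast (show n ≤ 4 * (n - b) by omega)
          have g3 : UU s (n - b) ^ 2 ≤ UU s n ^ 2 :=
            pow_le_pow_left₀ (zero_le_one.trans (one_le_UU hs.le _)) (UU_mono hs.le (by omega)) 2
          have g4 : 8 * s / (Real.pi * ((n - b : ℕ) : ℝ)) ≤ 32 * s / (Real.pi * n) := by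
            rw [div_le_div_iff₀ (by positivity) (by positivity)]
            have : 0 ≤ s * Real.pi := by positivity
            nlinarith
          exact mul_le_mul g4 g3 (by positivity) (by positivity)
        have h3 : Ut s a * Ut s (n - b) ≤ B * B := mul_le_mul h1 h2 hb0 hB0
        have h4 : 0 ≤ 4 * s / (Real.pi * n) * (Ut s a * Ut s (n - b)) := by positivity
        have h5 : Ut s a * (s * uu (b - a)) * Ut s (n - b)
            = Ut s a * Ut s (n - b) * (s * uu (b - a)) := by ring
        have h6 : Ut s a * Ut s (n - b) * (s * uu (b - a)) ≤ B * B * (s * uu (b - a)) :=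
          mul_le_mul_of_nonneg_right h3 (by positivity)
        rw [h5, pow_two]
        linarith
      · have h1 : uu (b - a) ≤ 4 / (Real.pi * n) := by
          refine (uu_le (n := b - a) (by omega)).trans ?_
          have g1 : (0 : ℝ) < ((b - a : ℕ) : ℝ) := by exact_mod_cast (show 0 < b - a by omega)
          have g2 : (n : ℝ) ≤ 4 * ((b - a : ℕ) : ℝ) := by
            exact_mod_cast (show n ≤ 4 * (b - a) by omega)
          rw [div_le_div_iff₀ (by positivity) (by positivity)]
          nlinarith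
        have h2 : Ut s a * (s * uu (b - a)) * Ut s (n - b)
            = uu (b - a) * (s * (Ut s a * Ut s (n - b))) := by ring
        have h3 : 4 * s / (Real.pi * n) * (Ut s a * Ut s (n - b))
            = 4 / (Real.pi * n) * (s * (Ut s a * Ut s (n - b))) := by ring
        rw [h2, add_zero, h3]
        exact mul_le_mul_of_nonneg_right h1 (by positivity)
    rw [Ut_split s m hmn]
    refine (sum_le_sum fun a ha => sum_le_sum fun b hb => key a ha b hb).trans ?_
    simp only [sum_add_distrib]
    -- first part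
    have p1 : ∑ a ∈ range (m + 1), ∑ b ∈ Ico (m + 1) (n + 1),
        4 * s / (Real.pi * n) * (Ut s a * Ut s (n - b)) ≤ 4 * s / (Real.pi * n) * UU s n ^ 2 := by
      have e1 : ∑ a ∈ range (m + 1), ∑ b ∈ Ico (m + 1) (n + 1),
          4 * s / (Real.pi * n) * (Ut s a * Ut s (n - b))
          = 4 * s / (Real.pi * n) * (UU s m * ∑ b ∈ Ico (m + 1) (n + 1), Ut s (n - b)) := by
        unfold UU
        rw [sum_mul_sum]
        simp only [mul_sum]
      have e2 : ∑ b ∈ Ico (m + 1) (n + 1), Ut s (n - b) = UU s (n - m - 1) := by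
        unfold UU
        rw [show n - m - 1 + 1 = n - m by omega]
        refine sum_nbij' (fun b => n - b) (fun j => n - j) ?_ ?_ ?_ ?_ ?_
        · intro b hb; rw [mem_Ico] at hb; rw [mem_range]; omega
        · intro b hb; rw [mem_range] at hb; rw [mem_Ico]; omega
        · intro b hb; rw [mem_Ico] at hb; omega
        · intro b hb; rw [mem_range] at hb; omega
        · intro b hb; rfl
      rw [e1, e2, pow_two]
      refine mul_le_mul_of_nonneg_left ?_ (by positivity)
      exact mul_le_mul (UU_mono hs.le (by omega)) (UU_mono hs.le (by omega))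
        (zero_le_one.trans (one_le_UU hs.le _)) hU0
    -- second part
    have p2 : ∑ a ∈ range (m + 1), ∑ b ∈ Ico (m + 1) (n + 1),
        (if 4 * (b - a) < n then B ^ 2 * (s * uu (b - a)) else 0)
          ≤ B ^ 2 * (s * (n / (4 * Real.pi))) := by
      have q1 : ∑ a ∈ range (m + 1), ∑ b ∈ Ico (m + 1) (n + 1),
          (if 4 * (b - a) < n then B ^ 2 * (s * uu (b - a)) else 0)
          = B ^ 2 * (s * ∑ a ∈ range (m + 1), ∑ b ∈ Ico (m + 1) (n + 1),
            (if 4 * (b - a) < n then uu (b - a) else 0)) := by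
        simp only [mul_sum]
        refine sum_congr rfl fun a _ => sum_congr rfl fun b _ => ?_
        split_ifs <;> ring
      rw [q1]
      refine mul_le_mul_of_nonneg_left (mul_le_mul_of_nonneg_left ?_ hs.le) (by positivity)
      -- group the pairs by their gap
      have q2 : ∑ a ∈ range (m + 1), ∑ b ∈ Ico (m + 1) (n + 1),
            (if 4 * (b - a) < n then uu (b - a) else 0)
          ≤ ∑ g ∈ Ico 1 ((n + 3) / 4), ∑ i ∈ range g, uu g := by
        have q3 : ∑ a ∈ range (m + 1), ∑ b ∈ Ico (m + 1) (n + 1),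
            (if 4 * (b - a) < n then uu (b - a) else 0)
            = ∑ p ∈ ((range (m + 1)) ×ˢ (Ico (m + 1) (n + 1))).filter
                (fun p => 4 * (p.2 - p.1) < n), uu (p.2 - p.1) := by
          rw [sum_filter, sum_product]
        have q4 : ∑ g ∈ Ico 1 ((n + 3) / 4), ∑ i ∈ range g, uu g
            = ∑ p ∈ (Ico 1 ((n + 3) / 4)).sigma (fun g => range g), uu p.1 := by
          rw [sum_sigma]
        rw [q3, q4]
        have q5 : ∑ p ∈ ((range (m + 1)) ×ˢ (Ico (m + 1) (n + 1))).filter
                (fun p => 4 * (p.2 - p.1) < n), uu (p.2 - p.1)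
            = ∑ q ∈ (((range (m + 1)) ×ˢ (Ico (m + 1) (n + 1))).filter
                (fun p => 4 * (p.2 - p.1) < n)).image
                (fun p => (⟨p.2 - p.1, m - p.1⟩ : (_ : ℕ) × ℕ)), uu q.1 := by
          rw [sum_image]
          rintro ⟨a, b⟩ h ⟨a', b'⟩ h' e
          simp only [coe_filter, mem_product, mem_range, mem_Ico, Set.mem_ofPred_eq] at h h'
          simp only [Sigma.mk.injEq, heq_eq_eq] at e
          simp only [Prod.mk.injEq]
          omega
        rw [q5]
        apply sum_le_sum_of_subset_of_nonneg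
        · intro q hq
          rw [mem_image] at hq
          obtain ⟨⟨a, b⟩, h, rfl⟩ := hq
          simp only [mem_filter, mem_product, mem_range, mem_Ico] at h
          simp only [mem_sigma, mem_Ico, mem_range]
          omega
        · intro q _ _
          exact (uu_pos _).le
      refine q2.trans ?_
      have q6 : ∀ g ∈ Ico 1 ((n + 3) / 4), ∑ i ∈ range g, uu g ≤ 1 / Real.pi := by
        intro g hg
        rw [mem_Ico] at hg
        rw [sum_const, card_range, nsmul_eq_mul]
        have := uu_le (n := g) hg.1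
        have g1 : (0 : ℝ) < g := by exact_mod_cast (show 0 < g by omega)
        calc (g : ℝ) * uu g ≤ g * (1 / (Real.pi * g)) := mul_le_mul_of_nonneg_left this g1.le
          _ = 1 / Real.pi := by field_simp
      refine (sum_le_sum q6).trans ?_
      rw [sum_const, Nat.card_Ico, nsmul_eq_mul]
      have q7 : (((n + 3) / 4 - 1 : ℕ) : ℝ) ≤ n / 4 := by
        rw [le_div_iff₀ (by norm_num)]
        exact_mod_cast (show ((n + 3) / 4 - 1) * 4 ≤ n by omega)
      calc (((n + 3) / 4 - 1 : ℕ) : ℝ) * (1 / Real.pi) ≤ n / 4 * (1 / Real.pi) :=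
            mul_le_mul_of_nonneg_right q7 (by positivity)
        _ = n / (4 * Real.pi) := by ring
    have p3 : B ^ 2 * (s * (n / (4 * Real.pi))) ≤ 4 * s / (Real.pi * n) * UU s n ^ 2 := by
      have r1 : B ^ 2 * (s * (n / (4 * Real.pi)))
          = 4 * s / (Real.pi * n) * UU s n ^ 2 * (64 * (s * UU s n) ^ 2 / Real.pi ^ 2) := by
        rw [hB]
        field_simp
        ring
      rw [r1]
      have r2 : (s * UU s n) ^ 2 ≤ (Real.pi / 8) ^ 2 :=
        pow_le_pow_left₀ (by positivity) h8 2
      have r3 : 64 * (s * UU s n) ^ 2 / Real.pi ^ 2 ≤ 1 := by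
        rw [div_le_one (by positivity)]
        nlinarith
      exact mul_le_of_le_one_right (by positivity) r3
    have p4 : 8 * s / (Real.pi * n) * UU s n ^ 2
        = 4 * s / (Real.pi * n) * UU s n ^ 2 + 4 * s / (Real.pi * n) * UU s n ^ 2 := by ring
    rw [p4]
    linarith

theorem Ut_le' {s : ℝ} (hs : 0 < s) {t n : ℕ} (ht : 8 ≤ rho s t) (hn : 1 ≤ n) (hnt : n ≤ t) :
    Ut s n ≤ UU s n / n := by
  have hp := Real.pi_pos
  have hn' : (0 : ℝ) < n := by exact_mod_cast hn
  have hU0 : 0 ≤ UU s n := zero_le_one.trans (one_le_UU hs.le n)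
  have h8 := sUU_le8 hs ht hnt
  refine (Ut_le hs ht hn hnt).trans ?_
  have e : 8 * s / (Real.pi * n) * UU s n ^ 2
      = (8 * (s * UU s n) / Real.pi) * (UU s n / n) := by
    field_simp
  rw [e]
  refine mul_le_of_le_one_left (by positivity) ?_
  rw [div_le_one hp]
  linarith

/-- (R3) -/
theorem Ut_sqrt_sum {s : ℝ} (hs : 0 < s) {t r : ℕ} (ht : 8 ≤ rho s t) (hr : r ≤ t) :
    ∑ j ∈ range (r + 1), Ut s j * Real.sqrt (((r : ℝ) + 1) / ((r : ℝ) - j + 1)) ≤ 9 * UU s r := by
  have hU0 : 0 ≤ UU s r := zero_le_one.trans (one_le_UU hs.le r)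
  have hr0 : (0 : ℝ) ≤ r := Nat.cast_nonneg r
  -- each term
  have key : ∀ j ∈ range (r + 1), Ut s j * Real.sqrt (((r : ℝ) + 1) / ((r : ℝ) - j + 1))
      ≤ 2 * Ut s j + 2 * UU s r / Real.sqrt (r + 1) * (1 / Real.sqrt ((r : ℝ) - j + 1)) := by
    intro j hj
    rw [mem_range] at hj
    have hj' : (j : ℝ) ≤ r := by exact_mod_cast (show j ≤ r by omega)
    have hpos : 0 < (r : ℝ) - j + 1 := by linarith
    have hU := Ut_nonneg hs.le j
    have h2 : 0 ≤ 2 * UU s r / Real.sqrt (r + 1) * (1 / Real.sqrt ((r : ℝ) - j + 1)) := by positivity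
    by_cases hjr : 2 * j ≤ r + 1
    · have h1 : Real.sqrt (((r : ℝ) + 1) / ((r : ℝ) - j + 1)) ≤ 2 := by
        rw [Real.sqrt_le_left (by norm_num), div_le_iff₀ hpos]
        have : 2 * (j : ℝ) ≤ r + 1 := by exact_mod_cast hjr
        nlinarith
      have := mul_le_mul_of_nonneg_left h1 hU
      linarith
    · have hj1 : 1 ≤ j := by omega
      have hj0 : (0 : ℝ) < j := by exact_mod_cast hj1
      have h3 : Ut s j ≤ 2 * UU s r / (r + 1) := by
        refine (Ut_le' hs ht hj1 (by omega)).trans ?_
        have g1 : (r : ℝ) + 1 ≤ 2 * j := by exact_mod_cast (show r + 1 ≤ 2 * j by omega)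
        have g2 : UU s j ≤ UU s r := UU_mono hs.le (by omega)
        rw [div_le_div_iff₀ hj0 (by positivity)]
        have g3 : 0 ≤ UU s j := zero_le_one.trans (one_le_UU hs.le j)
        nlinarith
      have h4 : 2 * UU s r / ((r : ℝ) + 1) * Real.sqrt (((r : ℝ) + 1) / ((r : ℝ) - j + 1))
          = 2 * UU s r / Real.sqrt (r + 1) * (1 / Real.sqrt ((r : ℝ) - j + 1)) := by
        rw [Real.sqrt_div (by positivity)]
        have g1 : 0 < Real.sqrt ((r : ℝ) + 1) := Real.sqrt_pos.mpr (by positivity)
        have g2 : 0 < Real.sqrt ((r : ℝ) - j + 1) := Real.sqrt_pos.mpr hpos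
        have g3 : Real.sqrt ((r : ℝ) + 1) * Real.sqrt ((r : ℝ) + 1) = r + 1 :=
          Real.mul_self_sqrt (by positivity)
        field_simp
        nlinarith
      have h5 := mul_le_mul_of_nonneg_right h3 (Real.sqrt_nonneg (((r : ℝ) + 1) / ((r : ℝ) - j + 1)))
      rw [h4] at h5
      linarith
  refine (sum_le_sum key).trans ?_
  rw [sum_add_distrib, ← mul_sum, ← mul_sum]
  have h1 : ∑ j ∈ range (r + 1), (1 / Real.sqrt ((r : ℝ) - j + 1)) ≤ 2 * Real.sqrt (r + 1) := by
    have h2 : ∑ j ∈ range (r + 1), (1 / Real.sqrt ((r : ℝ) - j + 1))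
        = ∑ j ∈ range (r + 1), (1 / Real.sqrt ((j : ℝ) + 1)) := by
      rw [← sum_range_reflect]
      apply sum_congr rfl
      intro j hj
      rw [mem_range] at hj
      congr 2
      have : ((r + 1 - 1 - j : ℕ) : ℝ) = r - j := by
        rw [show r + 1 - 1 - j = r - j by omega, Nat.cast_sub (by omega)]
      rw [this]
      ring
    rw [h2]
    have h3 : ∀ n : ℕ, ∑ j ∈ range n, (1 / Real.sqrt ((j : ℝ) + 1)) ≤ 2 * Real.sqrt n := by
      intro n
      induction n with
      | zero => simp
      | succ n ih =>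
        rw [sum_range_succ]
        have g0 : (0 : ℝ) ≤ n := Nat.cast_nonneg n
        have g1 : 0 < Real.sqrt ((n : ℝ) + 1) := Real.sqrt_pos.mpr (by positivity)
        have g2 : 0 ≤ Real.sqrt n := Real.sqrt_nonneg _
        have g3 : Real.sqrt ((n : ℝ) + 1) * Real.sqrt ((n : ℝ) + 1) = n + 1 :=
          Real.mul_self_sqrt (by positivity)
        have g4 : Real.sqrt (n : ℝ) * Real.sqrt n = n := Real.mul_self_sqrt g0
        have g5 : Real.sqrt n ≤ Real.sqrt ((n : ℝ) + 1) := Real.sqrt_le_sqrt (by linarith)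
        have g6 : 1 / Real.sqrt ((n : ℝ) + 1) ≤ 2 * (Real.sqrt ((n : ℝ) + 1) - Real.sqrt n) := by
          rw [div_le_iff₀ g1]
          nlinarith
        push_cast
        linarith
    have := h3 (r + 1)
    push_cast at this
    exact this
  have h6 : 2 * UU s r / Real.sqrt (r + 1) * ∑ j ∈ range (r + 1), (1 / Real.sqrt ((r : ℝ) - j + 1))
      ≤ 4 * UU s r := by
    have g1 : 0 < Real.sqrt ((r : ℝ) + 1) := Real.sqrt_pos.mpr (by positivity)
    calc 2 * UU s r / Real.sqrt (r + 1) * ∑ j ∈ range (r + 1), (1 / Real.sqrt ((r : ℝ) - j + 1))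
        ≤ 2 * UU s r / Real.sqrt (r + 1) * (2 * Real.sqrt (r + 1)) :=
          mul_le_mul_of_nonneg_left h1 (by positivity)
      _ = 4 * UU s r := by field_simp; ring
  have h7 : ∑ j ∈ range (r + 1), Ut s j = UU s r := rfl
  rw [h7]
  linarith

/-- (R4) lower bound for U, with the constant 3. -/
theorem le_sUU3 {s : ℝ} (hs : 0 < s) {t : ℕ} (ht : 8 ≤ rho s t) :
    Real.pi / rho s t * (1 - 3 / rho s t) ≤ s * UU s t := by
  have hp := Real.pi_pos
  have hrho : 0 < rho s t := by linarith
  have hU0 : 0 ≤ UU s t := zero_le_one.trans (one_le_UU hs.le t)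
  -- the defect
  have h1 : UU s t = 1 + s * (RR t * UU s t)
      - s * ∑ j ∈ range t, Ut s (j + 1) * (RR t - RR (t - 1 - j)) := by
    have e1 : RR t * UU s t - ∑ k ∈ range t, uu (k + 1) * UU s (t - 1 - k)
        = ∑ j ∈ range t, Ut s (j + 1) * (RR t - RR (t - 1 - j)) := by
      have e2 : ∀ k ∈ range t, uu (k + 1) * UU s t - uu (k + 1) * UU s (t - 1 - k)
          = ∑ j ∈ Ico (t - 1 - k) t, uu (k + 1) * Ut s (j + 1) := by
        intro k hk
        rw [mem_range] at hk
        rw [← mul_sub, ← mul_sum]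
        congr 1
        unfold UU
        rw [← sum_Ico_eq_sub _ (show t - 1 - k + 1 ≤ t + 1 by omega), sum_Ico_add']
      have e3 : ∀ j ∈ range t, Ut s (j + 1) * (RR t - RR (t - 1 - j))
          = ∑ k ∈ Ico (t - 1 - j) t, uu (k + 1) * Ut s (j + 1) := by
        intro j hj
        rw [mem_range] at hj
        rw [← sum_mul, mul_comm]
        congr 1
        unfold RR
        rw [← sum_Ico_eq_sub _ (show t - 1 - j ≤ t by omega)]
      have e4 : RR t * UU s t = ∑ k ∈ range t, uu (k + 1) * UU s t := by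
        unfold RR
        rw [sum_mul]
      rw [e4, ← sum_sub_distrib, sum_congr rfl e2, sum_congr rfl e3]
      apply sum_comm'
      intro k j
      simp only [mem_range, mem_Ico]
      omega
    have e5 := UU_eq s t
    have e6 : s * ∑ j ∈ range t, Ut s (j + 1) * (RR t - RR (t - 1 - j))
        = s * (RR t * UU s t) - s * ∑ k ∈ range t, uu (k + 1) * UU s (t - 1 - k) := by
      rw [← e1]; ring
    linarith
  -- the bound of the defect
  have h2 : ∑ j ∈ range t, Ut s (j + 1) * (RR t - RR (t - 1 - j)) ≤ UU s t * (3 / Real.pi) := by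
    rcases Nat.eq_zero_or_pos t with h0 | h0
    · subst h0
      rw [range_zero, sum_empty]
      positivity
    have ht0 : (0 : ℝ) < t := by exact_mod_cast h0
    have key : ∀ j ∈ range t, Ut s (j + 1) * (RR t - RR (t - 1 - j))
        ≤ UU s t * ((if 2 * (j + 1) ≤ t then 2 / (Real.pi * t) else 0)
          + 2 / t * (RR t - RR (t - 1 - j))) := by
      intro j hj
      rw [mem_range] at hj
      have hj0 : (0 : ℝ) < ((j + 1 : ℕ) : ℝ) := by positivity
      have hR0 : 0 ≤ RR t - RR (t - 1 - j) := by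
        have := RR_mono (show t - 1 - j ≤ t by omega)
        linarith
      have hUt : Ut s (j + 1) ≤ UU s t / ((j + 1 : ℕ) : ℝ) := by
        refine (Ut_le' hs ht (by omega) (by omega)).trans ?_
        exact div_le_div_of_nonneg_right (UU_mono hs.le (by omega)) hj0.le
      have hA : Ut s (j + 1) * (RR t - RR (t - 1 - j))
          ≤ UU s t * ((RR t - RR (t - 1 - j)) / ((j + 1 : ℕ) : ℝ)) := by
        have := mul_le_mul_of_nonneg_right hUt hR0
        rw [div_mul_eq_mul_div, ← mul_div_assoc] at *
        exact this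
      refine hA.trans (mul_le_mul_of_nonneg_left ?_ hU0)
      split_ifs with hc
      · -- small j: all the terms are at most 2/(pi t)
        have g1 : RR t - RR (t - 1 - j) ≤ ((j + 1 : ℕ) : ℝ) * (2 / (Real.pi * t)) := by
          unfold RR
          rw [← sum_Ico_eq_sub _ (show t - 1 - j ≤ t by omega)]
          have g2 : ∀ k ∈ Ico (t - 1 - j) t, uu (k + 1) ≤ 2 / (Real.pi * t) := by
            intro k hk
            rw [mem_Ico] at hk
            refine (uu_le (n := k + 1) (by omega)).trans ?_
            rw [div_le_div_iff₀ (by positivity) (by positivity)]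
            have : (t : ℝ) ≤ 2 * ((k + 1 : ℕ) : ℝ) := by
              exact_mod_cast (show t ≤ 2 * (k + 1) by omega)
            nlinarith
          refine (sum_le_sum g2).trans ?_
          rw [sum_const, Nat.card_Ico, nsmul_eq_mul, show t - (t - 1 - j) = j + 1 by omega]
        have g3 : (RR t - RR (t - 1 - j)) / ((j + 1 : ℕ) : ℝ) ≤ 2 / (Real.pi * t) := by
          rw [div_le_iff₀ hj0]
          linarith
        have g4 : 0 ≤ 2 / (t : ℝ) * (RR t - RR (t - 1 - j)) := by positivity
        linarith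
      · rw [zero_add, div_eq_mul_inv, mul_comm]
        refine mul_le_mul_of_nonneg_right ?_ hR0
        rw [inv_eq_one_div, div_le_div_iff₀ hj0 ht0]
        have : (t : ℝ) ≤ 2 * ((j + 1 : ℕ) : ℝ) := by
          exact_mod_cast (show t ≤ 2 * (j + 1) by omega)
        linarith
    refine (sum_le_sum key).trans ?_
    rw [← mul_sum]
    refine mul_le_mul_of_nonneg_left ?_ hU0
    rw [sum_add_distrib, ← mul_sum]
    have q1 : ∑ j ∈ range t, (if 2 * (j + 1) ≤ t then 2 / (Real.pi * t) else 0) ≤ 1 / Real.pi := by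
      rw [← sum_filter, sum_const, nsmul_eq_mul]
      have c1 : ((range t).filter (fun j => 2 * (j + 1) ≤ t)).card ≤ t / 2 := by
        have : (range t).filter (fun j => 2 * (j + 1) ≤ t) ⊆ range (t / 2) := by
          intro j hj
          rw [mem_filter, mem_range] at hj
          rw [mem_range]
          omega
        simpa using card_le_card this
      have c2 : (((range t).filter (fun j => 2 * (j + 1) ≤ t)).card : ℝ) ≤ t / 2 := by
        have : (((range t).filter (fun j => 2 * (j + 1) ≤ t)).card : ℝ) ≤ ((t / 2 : ℕ) : ℝ) := by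
          exact_mod_cast c1
        exact this.trans Nat.cast_div_le
      calc (((range t).filter (fun j => 2 * (j + 1) ≤ t)).card : ℝ) * (2 / (Real.pi * t))
          ≤ t / 2 * (2 / (Real.pi * t)) := mul_le_mul_of_nonneg_right c2 (by positivity)
        _ = 1 / Real.pi := by field_simp
    have q2 : ∑ j ∈ range t, (RR t - RR (t - 1 - j)) ≤ t * (1 / Real.pi) := by
      have e3 : ∀ j ∈ range t, RR t - RR (t - 1 - j) = ∑ k ∈ Ico (t - 1 - j) t, uu (k + 1) := by
        intro j hj
        rw [mem_range] at hj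
        unfold RR
        rw [← sum_Ico_eq_sub _ (show t - 1 - j ≤ t by omega)]
      rw [sum_congr rfl e3]
      have e4 : ∑ j ∈ range t, ∑ k ∈ Ico (t - 1 - j) t, uu (k + 1)
          = ∑ k ∈ range t, ∑ j ∈ Ico (t - 1 - k) t, uu (k + 1) := by
        apply sum_comm'
        intro k j
        simp only [mem_range, mem_Ico]
        omega
      rw [e4]
      have e5 : ∀ k ∈ range t, ∑ j ∈ Ico (t - 1 - k) t, uu (k + 1) ≤ 1 / Real.pi := by
        intro k hk
        rw [mem_range] at hk
        rw [sum_const, Nat.card_Ico, nsmul_eq_mul, show t - (t - 1 - k) = k + 1 by omega]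
        have g1 : (0 : ℝ) < ((k + 1 : ℕ) : ℝ) := by positivity
        calc ((k + 1 : ℕ) : ℝ) * uu (k + 1)
            ≤ ((k + 1 : ℕ) : ℝ) * (1 / (Real.pi * ((k + 1 : ℕ) : ℝ))) :=
              mul_le_mul_of_nonneg_left (uu_le (by omega)) g1.le
          _ = 1 / Real.pi := by field_simp
      refine (sum_le_sum e5).trans ?_
      rw [sum_const, card_range, nsmul_eq_mul]
    have q3 : 2 / (t : ℝ) * ∑ j ∈ range t, (RR t - RR (t - 1 - j)) ≤ 2 / Real.pi := by
      calc 2 / (t : ℝ) * ∑ j ∈ range t, (RR t - RR (t - 1 - j))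
          ≤ 2 / (t : ℝ) * (t * (1 / Real.pi)) := mul_le_mul_of_nonneg_left q2 (by positivity)
        _ = 2 / Real.pi := by field_simp
    have q4 : 3 / Real.pi = 1 / Real.pi + 2 / Real.pi := by ring
    rw [q4]
    linarith
  have h3 : s * ∑ j ∈ range t, Ut s (j + 1) * (RR t - RR (t - 1 - j)) ≤ 3 / rho s t := by
    have g1 := mul_le_mul_of_nonneg_left h2 hs.le
    have g2 := sUU_le hs hrho
    have g3 : s * (UU s t * (3 / Real.pi)) = s * UU s t * (3 / Real.pi) := by ring
    rw [g3] at g1
    refine g1.trans ?_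
    calc s * UU s t * (3 / Real.pi) ≤ Real.pi / rho s t * (3 / Real.pi) :=
          mul_le_mul_of_nonneg_right g2 (by positivity)
      _ = 3 / rho s t := by field_simp
  have h4 : 1 - 3 / rho s t ≤ UU s t * (1 - s * RR t) := by nlinarith
  rw [one_sub_eq hs] at h4
  have h5 : UU s t * (s * rho s t / Real.pi) = s * UU s t * (rho s t / Real.pi) := by ring
  rw [h5] at h4
  calc Real.pi / rho s t * (1 - 3 / rho s t)
      ≤ Real.pi / rho s t * (s * UU s t * (rho s t / Real.pi)) :=
        mul_le_mul_of_nonneg_left h4 (by positivity)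
    _ = s * UU s t := by field_simp

/-- (R4) lower bound for U. -/
theorem le_sUU {s : ℝ} (hs : 0 < s) {t : ℕ} (ht : 8 ≤ rho s t) :
    Real.pi / rho s t * (1 - 27 / rho s t) ≤ s * UU s t := by
  have hrho : 0 < rho s t := by linarith
  have hp := Real.pi_pos
  refine le_trans (mul_le_mul_of_nonneg_left ?_ (by positivity)) (le_sUU3 hs ht)
  have : 3 / rho s t ≤ 27 / rho s t := div_le_div_of_nonneg_right (by norm_num) hrho.le
  linarith

/-- recursion for V: V k n = u (k+n) + s * sum_(j=1..n) u j * V k (n-j). -/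
theorem VV_rec (s : ℝ) (k n : ℕ) :
    VV s k n = uu (k + n) + s * ∑ j ∈ range n, uu (j + 1) * VV s k (n - 1 - j) := by
  unfold VV
  exact Ut_conv s (fun i => uu (k + i)) n

end Pool.A2F
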