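import Pool.Agent.A2F.Kern
import Pool.Agent.A2F.Ren

/-!
# Module Two2: consequences for K (no environment needed)
-/

set_option autoImplicit false

open MeasureTheory Finset
open scoped ENNReal NNReal

noncomputable section

namespace Pool.A2F

variable {G : Type} [Fintype G] [DecidableEq G] [AddCommGroup G]
variable {p : G → ℝ≥0} {n0 : ℕ} {s : ℝ}

/-! ### consequences for K -/

theorem pi_RR_sub_two2 (s : ℝ) (t b : ℕ) :
    Real.pi * (RR b - RR t) = rho s t - rho s b := by
  unfold rho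
  ring

theorem sum_shift_uu_two2 (t b : ℕ) :
    ∑ k ∈ range b, uu (t + (k + 1)) = RR (t + b) - RR t := by
  induction b with
  | zero => simp
  | succ b ih =>
    rw [sum_range_succ, ih, ← add_assoc t b 1, RR_succ]
    ring

theorem RR_le_of_le_two2 {t b : ℕ} (h : t ≤ b) : RR t ≤ RR b := RR_mono h

/-- energy between scales. -/
theorem energy_between_two2 (hw : Walk p n0) {t b : ℕ} (htb : t ≤ b) (hb : b ≤ n0)
    (W : G → ℝ≥0) :
    ∑ k ∈ range b, aa p W (k + 1) ≤ ∑ k ∈ range t, aa p W (k + 1)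
      + (RR b - RR t) * (mass W : ℝ) ^ 2 := by
  obtain ⟨c, rfl⟩ := Nat.exists_eq_add_of_le htb
  rw [sum_range_add]
  have h : ∑ x ∈ range c, aa p W (t + x + 1) ≤ (RR (t + c) - RR t) * (mass W : ℝ) ^ 2 := by
    rw [← sum_shift_uu_two2, sum_mul]
    refine sum_le_sum fun k hk => ?_
    have hk' := mem_range.mp hk
    have := aa_le hw (k := t + k + 1) (by omega) W
    simpa [add_assoc] using this
  linarith

theorem sum_aa_nonneg_two2 (W : G → ℝ≥0) (t : ℕ) : 0 ≤ ∑ k ∈ range t, aa p W (k + 1) :=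
  sum_nonneg fun k _ => aa_nonneg W (k + 1)

theorem KK_le_sum_two2 (hs : 0 < s) (b : ℕ) (W : G → ℝ≥0) :
    KK p s b W ≤ s * UU s b * ∑ k ∈ range b, aa p W (k + 1) := by
  unfold KK
  rw [mul_assoc]
  refine mul_le_mul_of_nonneg_left ?_ hs.le
  rw [mul_sum]
  refine sum_le_sum fun k hk => ?_
  rw [mul_comm]
  refine mul_le_mul_of_nonneg_right ?_ (aa_nonneg W (k + 1))
  exact UU_mono hs.le (by omega)

theorem UU_pos_two2 (hs : 0 < s) (b : ℕ) : 0 < UU s b :=
  lt_of_lt_of_le one_pos (one_le_UU hs.le b)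

/-- K at scale b in terms of the energy below scale t. -/
theorem KK_le (hw : Walk p n0) (hs : 0 < s) {t b : ℕ} (htb : t ≤ b) (hb : b ≤ n0)
    (W : G → ℝ≥0) :
    KK p s b W ≤ s * UU s b * (∑ k ∈ range t, aa p W (k + 1)
      + (RR b - RR t) * (mass W : ℝ) ^ 2) := by
  refine le_trans (KK_le_sum_two2 hs b W) ?_
  refine mul_le_mul_of_nonneg_left (energy_between_two2 hw htb hb W) ?_
  exact (mul_pos hs (UU_pos_two2 hs b)).le

/-- energy below scale t is logarithmic in the Riesz energy. -/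
theorem energy_le (hw : Walk p n0) {t : ℕ} (ht : t ≤ n0) {M : ℝ} (hM : 1 ≤ M) {W : G → ℝ≥0}
    (hR : Rz p t W ≤ M * (mass W : ℝ) ^ 2) :
    Real.pi * ∑ k ∈ range t, aa p W (k + 1)
      ≤ (2 * Real.log (1 + M) + 5) * (mass W : ℝ) ^ 2 := by
  have hlog : 0 ≤ Real.log (1 + M) := Real.log_nonneg (by linarith)
  have hmm : (0 : ℝ) ≤ (mass W : ℝ) ^ 2 := by positivity
  have hpi := Real.pi_pos
  rcases Nat.eq_zero_or_pos t with h0 | h0
  · subst h0
    simp only [range_zero, sum_empty, mul_zero]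
    positivity
  have ht0 : (0 : ℝ) < t := by exact_mod_cast h0
  set q : ℝ := (1 + M) ^ 2 with hq
  have hq4 : 4 ≤ q := by
    rw [hq]
    nlinarith
  have hq0 : 0 < q := by linarith
  set m : ℕ := ⌊(t : ℝ) / q⌋₊ with hm
  have hmle : (m : ℝ) ≤ t / q := Nat.floor_le (by positivity)
  have hmlt : (t : ℝ) / q < m + 1 := Nat.lt_floor_add_one _
  have hmt : m < t := by
    have h1 : (m : ℝ) < t := by
      have h2 : (t : ℝ) / q ≤ t / 4 := div_le_div_of_nonneg_left ht0.le (by norm_num) hq4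
      linarith
    exact_mod_cast h1
  -- the part below m
  have hlow : (1 + M) * ∑ k ∈ range m, aa p W (k + 1) ≤ M * (mass W : ℝ) ^ 2 := by
    refine le_trans ?_ hR
    unfold Rz
    rw [mul_sum]
    refine le_trans (sum_le_sum (g := fun k : ℕ =>
      Real.sqrt ((t : ℝ) / ((k : ℝ) + 1)) * aa p W (k + 1)) fun k hk => ?_) ?_
    · have hk' := mem_range.mp hk
      refine mul_le_mul_of_nonneg_right ?_ (aa_nonneg W (k + 1))
      refine Real.le_sqrt_of_sq_le ?_
      rw [← hq]
      have hk1 : ((k : ℝ) + 1) ≤ m := by exact_mod_cast hk'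
      have hk0 : (0 : ℝ) < (k : ℝ) + 1 := by positivity
      rw [le_div_iff₀ hk0]
      have h3 : (m : ℝ) * q ≤ t := by
        rw [le_div_iff₀ hq0] at hmle
        exact hmle
      nlinarith
    · refine sum_le_sum_of_subset_of_nonneg (range_subset_range.mpr hmt.le) fun k _ _ => ?_
      exact mul_nonneg (Real.sqrt_nonneg _) (aa_nonneg W (k + 1))
  have hlow' : ∑ k ∈ range m, aa p W (k + 1) ≤ (mass W : ℝ) ^ 2 := by
    have h0 := sum_aa_nonneg_two2 (p := p) W m
    have h4 : (1 + M) * ∑ k ∈ range m, aa p W (k + 1) ≤ (1 + M) * (mass W : ℝ) ^ 2 := by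
      nlinarith
    exact le_of_mul_le_mul_left h4 (by linarith)
  -- the part above m
  have hup := energy_between_two2 hw (t := m + 1) (b := t) (by omega) ht W
  rw [sum_range_succ] at hup
  have hmid : Real.pi * aa p W (m + 1) ≤ (mass W : ℝ) ^ 2 := by
    have h1 := aa_le hw (k := m + 1) (by omega) W
    have h2 := uu_le (n := m + 1) (by omega)
    have h3 : Real.pi * uu (m + 1) ≤ 1 := by
      have h4 : Real.pi * uu (m + 1) ≤ Real.pi * (1 / (Real.pi * ((m + 1 : ℕ) : ℝ))) :=
        mul_le_mul_of_nonneg_left h2 hpi.le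
      have h5 : Real.pi * (1 / (Real.pi * ((m + 1 : ℕ) : ℝ))) = 1 / ((m + 1 : ℕ) : ℝ) := by
        field_simp
      rw [h5] at h4
      have h6 : (1 : ℝ) ≤ ((m + 1 : ℕ) : ℝ) := by
        push_cast
        have : (0 : ℝ) ≤ m := by positivity
        linarith
      have h7 : 1 / ((m + 1 : ℕ) : ℝ) ≤ 1 := by
        rw [div_le_one (by linarith)]
        exact h6
      linarith
    calc Real.pi * aa p W (m + 1) ≤ Real.pi * (uu (m + 1) * (mass W : ℝ) ^ 2) :=
          mul_le_mul_of_nonneg_left h1 hpi.le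
      _ = (Real.pi * uu (m + 1)) * (mass W : ℝ) ^ 2 := by ring
      _ ≤ 1 * (mass W : ℝ) ^ 2 := mul_le_mul_of_nonneg_right h3 hmm
      _ = (mass W : ℝ) ^ 2 := one_mul _
  have hRR : Real.pi * (RR t - RR (m + 1)) ≤ 2 * Real.log (1 + M) := by
    refine le_trans (RR_sub_le (by omega) (by omega)) ?_
    have h1 : 2 * Real.log (1 + M) = Real.log q := by
      rw [hq, Real.log_pow]
      push_cast
      ring
    rw [h1]
    apply Real.log_le_log
    · positivity
    · push_cast
      rw [div_le_iff₀ (by positivity)]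
      rw [div_lt_iff₀ hq0] at hmlt
      linarith
  have h3 : Real.pi * ∑ k ∈ range t, aa p W (k + 1)
      ≤ Real.pi * (∑ k ∈ range m, aa p W (k + 1)) + Real.pi * aa p W (m + 1)
        + (Real.pi * (RR t - RR (m + 1))) * (mass W : ℝ) ^ 2 := by
    have := mul_le_mul_of_nonneg_left hup hpi.le
    linarith
  have h4 : Real.pi * (∑ k ∈ range m, aa p W (k + 1)) ≤ 4 * (mass W : ℝ) ^ 2 := by
    have h5 := Real.pi_lt_four
    have h0 := sum_aa_nonneg_two2 (p := p) W m
    nlinarith
  have h5 : (Real.pi * (RR t - RR (m + 1))) * (mass W : ℝ) ^ 2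
      ≤ (2 * Real.log (1 + M)) * (mass W : ℝ) ^ 2 := mul_le_mul_of_nonneg_right hRR hmm
  linarith

/-- K of a regular measure. -/
theorem KK_le_of_regular (hw : Walk p n0) (hs : 0 < s) {t b : ℕ} (htb : t ≤ b) (hb : b ≤ n0)
    (hρ : 0 < rho s b) {M : ℝ} (hM : 1 ≤ M) {W : G → ℝ≥0}
    (hR : Rz p t W ≤ M * (mass W : ℝ) ^ 2) :
    KK p s b W ≤ (2 * Real.log (1 + M) + 5 + rho s t - rho s b) / rho s b
      * (mass W : ℝ) ^ 2 := by
  have hmm : (0 : ℝ) ≤ (mass W : ℝ) ^ 2 := by positivity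
  have hpi := Real.pi_pos
  have h1 := KK_le hw hs htb hb W
  have h2 := energy_le hw (htb.trans hb) hM hR
  have h3 := sUU_le hs hρ
  have h4 := RR_le_of_le_two2 htb
  have h5 : 0 ≤ ∑ k ∈ range t, aa p W (k + 1) + (RR b - RR t) * (mass W : ℝ) ^ 2 := by
    have := sum_aa_nonneg_two2 (p := p) W t
    have := mul_nonneg (sub_nonneg.mpr h4) hmm
    linarith
  have h6 := mul_le_mul_of_nonneg_right h3 h5
  refine le_trans (h1.trans h6) ?_
  have h7 : Real.pi / rho s b * (∑ k ∈ range t, aa p W (k + 1)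
      + (RR b - RR t) * (mass W : ℝ) ^ 2)
      = (Real.pi * (∑ k ∈ range t, aa p W (k + 1))
        + (Real.pi * (RR b - RR t)) * (mass W : ℝ) ^ 2) / rho s b := by ring
  rw [h7, pi_RR_sub_two2 s t b]
  have h8 : (2 * Real.log (1 + M) + 5 + rho s t - rho s b) / rho s b * (mass W : ℝ) ^ 2
      = ((2 * Real.log (1 + M) + 5) * (mass W : ℝ) ^ 2
        + (rho s t - rho s b) * (mass W : ℝ) ^ 2) / rho s b := by ring
  rw [h8]
  exact div_le_div_of_nonneg_right (by linarith) hρ.le

/-- K of a smoothed measure. -/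
theorem KK_smooth_le (hw : Walk p n0) (hs : 0 < s) {t b : ℕ} (htb : t ≤ b) (hb : t + b ≤ n0)
    (ht1 : 1 ≤ t) (hρ : 0 < rho s b) (W : G → ℝ≥0) :
    KK p s b ((conv p)^[t] W) ≤ (rho s t - rho s b + 1) / rho s b * (mass W : ℝ) ^ 2 := by
  have hmm : (0 : ℝ) ≤ (mass W : ℝ) ^ 2 := by positivity
  have hpi := Real.pi_pos
  have h1 := KK_le_sum_two2 (p := p) hs b ((conv p)^[t] W)
  have h2 : ∑ k ∈ range b, aa p ((conv p)^[t] W) (k + 1)
      ≤ (RR (t + b) - RR t) * (mass W : ℝ) ^ 2 := by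
    rw [← sum_shift_uu_two2, sum_mul]
    refine sum_le_sum fun k hk => ?_
    have hk' := mem_range.mp hk
    rw [aa_conv]
    exact aa_le hw (by omega) W
  have h3 := sUU_le hs hρ
  have h4 : RR t ≤ RR (t + b) := RR_mono (by omega)
  have h5 : 0 ≤ ∑ k ∈ range b, aa p ((conv p)^[t] W) (k + 1) := sum_aa_nonneg_two2 _ _
  have h6 := mul_le_mul_of_nonneg_right h3 h5
  refine le_trans (h1.trans h6) ?_
  have h7 : Real.pi / rho s b * ∑ k ∈ range b, aa p ((conv p)^[t] W) (k + 1)
      ≤ Real.pi / rho s b * ((RR (t + b) - RR t) * (mass W : ℝ) ^ 2) :=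
    mul_le_mul_of_nonneg_left h2 (div_pos hpi hρ).le
  refine le_trans h7 ?_
  have h8 : Real.pi / rho s b * ((RR (t + b) - RR t) * (mass W : ℝ) ^ 2)
      = (Real.pi * (RR (t + b) - RR b) + Real.pi * (RR b - RR t)) / rho s b
        * (mass W : ℝ) ^ 2 := by ring
  rw [h8, pi_RR_sub_two2 s t b]
  refine mul_le_mul_of_nonneg_right (div_le_div_of_nonneg_right ?_ hρ.le) hmm
  have h9 := RR_sub_le (m := b) (n := t + b) (by omega) (by omega)
  have hb0 : (0 : ℝ) < b := by
    have : 0 < b := by omega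
    exact_mod_cast this
  have h10 : Real.log (((t + b : ℕ) : ℝ) / b) ≤ 1 := by
    have h11 : ((t + b : ℕ) : ℝ) / b ≤ 2 := by
      rw [div_le_iff₀ hb0]
      push_cast
      have : (t : ℝ) ≤ b := by exact_mod_cast htb
      linarith
    have h12 : 0 < ((t + b : ℕ) : ℝ) / b := by positivity
    have h13 := Real.log_le_sub_one_of_pos h12
    linarith
  linarith

theorem rho_half_two2 (s : ℝ) (b : ℕ) : rho s (b / 2) ≤ rho s b + 2 := by
  have hpi := Real.pi_pos
  have h := pi_RR_sub_two2 s (b / 2) b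
  rcases Nat.lt_or_ge b 2 with h2 | h2
  · have h3 : b / 2 = 0 := by omega
    rw [h3] at h ⊢
    rcases Nat.lt_or_ge b 1 with h4 | h4
    · have h5 : b = 0 := by omega
      subst h5
      linarith
    · have h5 : b = 1 := by omega
      subst h5
      have h6 : RR 1 ≤ 1 / Real.pi := by
        rw [RR_succ 0, RR_zero]
        have := uu_le (n := 1) le_rfl
        simpa using this
      rw [RR_zero] at h
      have h7 : Real.pi * RR 1 ≤ 1 := by
        have := mul_le_mul_of_nonneg_left h6 hpi.le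
        have h8 : Real.pi * (1 / Real.pi) = 1 := by field_simp
        linarith
      linarith
  · have h3 : 1 ≤ b / 2 := by omega
    have h4 := RR_sub_le (m := b / 2) (n := b) h3 (by omega)
    have h5 : (0 : ℝ) < ((b / 2 : ℕ) : ℝ) := by exact_mod_cast h3
    have h6 : (b : ℝ) / ((b / 2 : ℕ) : ℝ) ≤ 3 := by
      rw [div_le_iff₀ h5]
      have : b ≤ 3 * (b / 2) := by omega
      exact_mod_cast this
    have h7 : 0 < (b : ℝ) / ((b / 2 : ℕ) : ℝ) := by
      have : (0 : ℝ) < b := by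
        have : 0 < b := by omega
        exact_mod_cast this
      positivity
    have h8 := Real.log_le_sub_one_of_pos h7
    linarith

/-- K controls the total energy. -/
theorem energy_le_KK (hw : Walk p n0) (hs : 0 < s) {b : ℕ} (hb : b ≤ n0) (hρ : 100 ≤ rho s b)
    (W : G → ℝ≥0) :
    s * UU s b * ∑ k ∈ range b, aa p W (k + 1) ≤ 4 * KK p s b W := by
  have hpi := Real.pi_pos
  set h : ℕ := b / 2 with hh
  have hle : h ≤ b := by omega
  have hle2 : h ≤ b - h := by omega
  -- half of the energy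
  have h1 : ∑ k ∈ range b, aa p W (k + 1) ≤ 2 * ∑ k ∈ range (b - h), aa p W (k + 1) := by
    have e1 : b = (b - h) + h := by omega
    have e2 : ∑ k ∈ range b, aa p W (k + 1)
        = ∑ k ∈ range (b - h), aa p W (k + 1) + ∑ k ∈ range h, aa p W ((b - h) + k + 1) := by
      conv_lhs => rw [e1]
      rw [sum_range_add]
    rw [e2]
    have e3 : ∑ k ∈ range h, aa p W ((b - h) + k + 1) ≤ ∑ k ∈ range h, aa p W (k + 1) :=
      sum_le_sum fun k _ => aa_anti hw W (by omega)
    have e4 : ∑ k ∈ range h, aa p W (k + 1) ≤ ∑ k ∈ range (b - h), aa p W (k + 1) :=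
      sum_le_sum_of_subset_of_nonneg (range_subset_range.mpr hle2)
        fun k _ _ => aa_nonneg W (k + 1)
    linarith
  have h2 : s * UU s h * ∑ k ∈ range (b - h), aa p W (k + 1) ≤ KK p s b W := by
    unfold KK
    rw [mul_assoc]
    refine mul_le_mul_of_nonneg_left ?_ hs.le
    rw [mul_sum]
    refine le_trans (sum_le_sum (g := fun k => aa p W (k + 1) * UU s (b - 1 - k))
      fun k hk => ?_) ?_
    · have hk' := mem_range.mp hk
      rw [mul_comm]
      refine mul_le_mul_of_nonneg_left ?_ (aa_nonneg W (k + 1))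
      exact UU_mono hs.le (by omega)
    · refine sum_le_sum_of_subset_of_nonneg (range_subset_range.mpr (by omega)) fun k _ _ => ?_
      exact mul_nonneg (aa_nonneg W (k + 1)) (UU_pos_two2 hs _).le
  have h3 : s * UU s b ≤ 2 * (s * UU s h) := by
    have hρb : 0 < rho s b := by linarith
    have e1 := sUU_le hs hρb
    have e2 : rho s b ≤ rho s h := rho_anti s hle
    have e3 : rho s h ≤ rho s b + 2 := rho_half_two2 s b
    have hρh : 0 < rho s h := by linarith
    have e4 := le_sUU hs (t := h) (by linarith)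
    refine le_trans e1 (le_trans ?_ (mul_le_mul_of_nonneg_left e4 (by norm_num)))
    have e5 : 2 * (Real.pi / rho s h * (1 - 27 / rho s h))
        = Real.pi * (2 * (rho s h - 27)) / (rho s h ^ 2) := by
      field_simp
    rw [e5, div_le_div_iff₀ hρb (by positivity)]
    rw [mul_assoc]
    refine mul_le_mul_of_nonneg_left ?_ hpi.le
    nlinarith
  have h4 : 0 ≤ ∑ k ∈ range (b - h), aa p W (k + 1) := sum_aa_nonneg_two2 W _
  have h5 : 0 ≤ s * UU s b := (mul_pos hs (UU_pos_two2 hs b)).le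
  calc s * UU s b * ∑ k ∈ range b, aa p W (k + 1)
      ≤ s * UU s b * (2 * ∑ k ∈ range (b - h), aa p W (k + 1)) :=
        mul_le_mul_of_nonneg_left h1 h5
    _ ≤ (2 * (s * UU s h)) * (2 * ∑ k ∈ range (b - h), aa p W (k + 1)) :=
        mul_le_mul_of_nonneg_right h3 (by linarith)
    _ = 4 * (s * UU s h * ∑ k ∈ range (b - h), aa p W (k + 1)) := by ring
    _ ≤ 4 * KK p s b W := by linarith

end Pool.A2F
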