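import Pool.Agent.A2F.Two
import Pool.Agent.A2F.Two2
import Pool.Agent.A2F.Fourth

/-!
# Module Exit2: overshoot
-/

set_option autoImplicit false
set_option linter.unusedSectionVars false

open MeasureTheory Finset
open scoped ENNReal NNReal

noncomputable section

namespace Pool.A2F

namespace Exit2

variable {G : Type} [Fintype G] [DecidableEq G] [AddCommGroup G]
variable {p : G → ℝ≥0} {m : Measure ℝ≥0} {n0 : ℕ} {s C4 : ℝ}

/-- the constant -/
def A0 (C4 : ℝ) : ℝ := 16 * (|C4| + 3)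

lemma one_le_A0 (C4 : ℝ) : 1 ≤ A0 C4 := by
  unfold A0
  linarith [abs_nonneg C4]

lemma aa_one_le (hw : Walk p n0) (W : G → ℝ≥0) : aa p W 1 ≤ (mass W : ℝ) ^ 2 := by
  have h1 : aa p W 1 = ∑ x, ((conv p W x : ℝ≥0) : ℝ) ^ 2 := rfl
  rw [h1, ← mass_conv hw W]
  unfold mass
  rw [NNReal.coe_sum]
  exact Finset.sum_sq_le_sq_sum_of_nonneg fun x _ => NNReal.coe_nonneg _

/-- the lower tail of one step -/
lemma tail (hw : Walk p n0) (hm : Law m s C4) {W : G → ℝ≥0} (hW : 0 < mass W) :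
    ∫⁻ ξ, (if mass (upd p W ξ) < mass W / 2 then 1 else 0) ∂(Measure.pi fun _ : G => m)
      ≤ ENNReal.ofReal (A0 C4 * s ^ 2 * (aa p W 1 / (mass W : ℝ) ^ 2) ^ 2) := by
  have hM : 0 < (mass W : ℝ) := by exact_mod_cast hW
  set c : G → ℝ := fun x => ((conv p W x : ℝ≥0) : ℝ) / (mass W : ℝ) with hc
  have hc1 : ∑ x, c x = 1 := by
    rw [hc, ← sum_div, ← NNReal.coe_sum]
    have : ∑ x, conv p W x = mass W := mass_conv hw W
    rw [this]
    exact div_self hM.ne'
  have hc2 : ∑ x, c x ^ 2 = aa p W 1 / (mass W : ℝ) ^ 2 := by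
    have h1 : aa p W 1 = ∑ x, ((conv p W x : ℝ≥0) : ℝ) ^ 2 := rfl
    rw [h1, sum_div]
    refine sum_congr rfl fun x _ => ?_
    rw [hc, div_pow]
  have h1 : ∀ ξ : G → ℝ≥0, (if mass (upd p W ξ) < mass W / 2 then (1 : ℝ≥0∞) else 0)
      ≤ ENNReal.ofReal 16 * ENNReal.ofReal ((∑ x, c x * ((ξ x : ℝ) - 1)) ^ 4) := by
    intro ξ
    split_ifs with h
    · have h2 : ∑ x, c x * ((ξ x : ℝ) - 1) = (mass (upd p W ξ) : ℝ) / (mass W : ℝ) - 1 := by
        simp only [mul_sub, mul_one]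
        rw [sum_sub_distrib, hc1]
        congr 1
        unfold mass
        rw [NNReal.coe_sum, NNReal.coe_sum, sum_div]
        refine sum_congr rfl fun x _ => ?_
        rw [hc]
        unfold upd mass
        push_cast
        ring
      have h3 : (mass (upd p W ξ) : ℝ) < (mass W : ℝ) / 2 := by exact_mod_cast h
      have h4 : (mass (upd p W ξ) : ℝ) / (mass W : ℝ) - 1 < -(1 / 2) := by
        rw [sub_lt_iff_lt_add, div_lt_iff₀ hM]
        linarith
      rw [h2]
      set z := (mass (upd p W ξ) : ℝ) / (mass W : ℝ) - 1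
      have h5 : 1 ≤ 16 * z ^ 4 := by
        have h6 : 1 / 4 ≤ z ^ 2 := by nlinarith
        have h7 : z ^ 4 = z ^ 2 * z ^ 2 := by ring
        rw [h7]
        nlinarith
      rw [← ENNReal.ofReal_mul (by norm_num), ← ENNReal.ofReal_one]
      exact ENNReal.ofReal_le_ofReal h5
    · exact zero_le
  calc ∫⁻ ξ, (if mass (upd p W ξ) < mass W / 2 then 1 else 0) ∂(Measure.pi fun _ : G => m)
      ≤ ∫⁻ ξ, ENNReal.ofReal 16 * ENNReal.ofReal ((∑ x, c x * ((ξ x : ℝ) - 1)) ^ 4)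
          ∂(Measure.pi fun _ : G => m) := lintegral_mono h1
    _ = ENNReal.ofReal 16 * ∫⁻ ξ, ENNReal.ofReal ((∑ x, c x * ((ξ x : ℝ) - 1)) ^ 4)
          ∂(Measure.pi fun _ : G => m) := lintegral_const_mul _ (by fun_prop)
    _ ≤ ENNReal.ofReal 16 * ENNReal.ofReal ((|C4| + 3) * s ^ 2 * (∑ x, c x ^ 2) ^ 2) := by
        gcongr
        exact Fourth.layer hm c
    _ = ENNReal.ofReal (A0 C4 * s ^ 2 * (aa p W 1 / (mass W : ℝ) ^ 2) ^ 2) := by
        rw [← ENNReal.ofReal_mul (by norm_num), hc2]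
        unfold A0
        congr 1
        ring

lemma rpow_bound {A s r : ℝ} (hA : 1 ≤ A) (hs : 0 ≤ s) (h0 : 0 ≤ r) (h1 : r ≤ 1) :
    (A * s ^ 2 * r ^ 2) ^ (3 / 4 : ℝ) ≤ A * (s * Real.sqrt s) * r := by
  have hX : 0 ≤ A * (s * Real.sqrt s) * r := by positivity
  have hD : 0 ≤ A * s ^ 2 * r ^ 2 := by positivity
  have h2 : (A * s ^ 2 * r ^ 2) ^ (3 / 4 : ℝ) = ((A * s ^ 2 * r ^ 2) ^ (3 : ℕ)) ^ ((4 : ℕ) : ℝ)⁻¹ := by
    rw [← Real.rpow_natCast (A * s ^ 2 * r ^ 2) 3, ← Real.rpow_mul hD]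
    norm_num
  have h3 : A * (s * Real.sqrt s) * r = ((A * (s * Real.sqrt s) * r) ^ (4 : ℕ)) ^ ((4 : ℕ) : ℝ)⁻¹ :=
    (Real.pow_rpow_inv_natCast hX (by norm_num)).symm
  rw [h2, h3]
  refine Real.rpow_le_rpow (by positivity) ?_ (by positivity)
  have h4 : Real.sqrt s ^ 2 = s := Real.sq_sqrt hs
  have h5 : (A * (s * Real.sqrt s) * r) ^ (4 : ℕ) = A ^ 4 * s ^ 6 * r ^ 4 := by
    have : (A * (s * Real.sqrt s) * r) ^ (4 : ℕ) = A ^ 4 * s ^ 4 * (Real.sqrt s ^ 2) ^ 2 * r ^ 4 := by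
      ring
    rw [this, h4]
    ring
  have h6 : (A * s ^ 2 * r ^ 2) ^ (3 : ℕ) = A ^ 3 * s ^ 6 * r ^ 6 := by ring
  rw [h5, h6]
  have h7 : A ^ 3 ≤ A ^ 4 := pow_le_pow_right₀ hA (by norm_num)
  have h8 : r ^ 6 ≤ r ^ 4 := pow_le_pow_of_le_one h0 h1 (by norm_num)
  gcongr

/-- **the step lemma** -/
theorem step (hw : Walk p n0) (hm : Law m s C4) {a : ℝ} (ha : 0 < a) (ha4 : a ≤ 4) {W : G → ℝ≥0}
    (hW : 0 < mass W) :
    TT p m (fun V => if mass V < mass W / 2 then nm a V else 0) W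
      ≤ ENNReal.ofReal (3 * A0 C4 * Real.sqrt s * (mass W : ℝ) ^ (-(a + 2)) * (s * aa p W 1)) := by
  have := hm.prob
  have hM : 0 < (mass W : ℝ) := by exact_mod_cast hW
  have hcj : Real.HolderConjugate 4 (4 / 3) := by
    rw [Real.holderConjugate_iff]
    norm_num
  set f : (G → ℝ≥0) → ℝ≥0∞ := fun ξ => nm a (upd p W ξ) with hf
  set g : (G → ℝ≥0) → ℝ≥0∞ := fun ξ => if mass (upd p W ξ) < mass W / 2 then 1 else 0 with hg
  have hmu : Measurable fun ξ : G → ℝ≥0 => upd p W ξ := op_measurable_upd W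
  have hfm : Measurable f := (measurable_nm a).comp hmu
  have hgm : Measurable g :=
    Measurable.ite (measurableSet_lt (measurable_mass.comp hmu) measurable_const) measurable_const
      measurable_const
  have h1 := ENNReal.lintegral_mul_le_Lp_mul_Lq (Measure.pi fun _ : G => m) hcj hfm.aemeasurable
    hgm.aemeasurable
  have h2 : TT p m (fun V => if mass V < mass W / 2 then nm a V else 0) W
      = ∫⁻ ξ, (f * g) ξ ∂(Measure.pi fun _ : G => m) := by
    unfold TT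
    refine lintegral_congr fun ξ => ?_
    rw [Pi.mul_apply]
    simp only [f, g, mul_ite, mul_one, mul_zero]
  have h3 : ∫⁻ ξ, f ξ ^ (4 : ℝ) ∂(Measure.pi fun _ : G => m) ≤ 3 * nm (4 * a) W := by
    have h4 : ∀ ξ : G → ℝ≥0, f ξ ^ (4 : ℝ) = nm (4 * a) (upd p W ξ) := by
      intro ξ
      simp only [f, nm]
      rw [← ENNReal.rpow_mul]
      congr 1
      ring
    simp only [h4]
    exact TT_nm_le hw hm (by linarith) (by linarith) W
  have h5 : (∫⁻ ξ, f ξ ^ (4 : ℝ) ∂(Measure.pi fun _ : G => m)) ^ (1 / 4 : ℝ) ≤ 3 * nm a W := by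
    refine (ENNReal.rpow_le_rpow h3 (by norm_num)).trans ?_
    rw [ENNReal.mul_rpow_of_nonneg _ _ (by norm_num)]
    have h6 : (nm (4 * a) W) ^ (1 / 4 : ℝ) = nm a W := by
      simp only [nm]
      rw [← ENNReal.rpow_mul]
      congr 1
      ring
    rw [h6]
    refine mul_le_mul' ?_ le_rfl
    have h7 : (3 : ℝ≥0∞) ^ (1 / 4 : ℝ) ≤ 3 ^ (1 : ℝ) :=
      ENNReal.rpow_le_rpow_of_exponent_le (by norm_num) (by norm_num)
    rwa [ENNReal.rpow_one] at h7
  have h8 : ∫⁻ ξ, g ξ ^ (4 / 3 : ℝ) ∂(Measure.pi fun _ : G => m)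
      ≤ ENNReal.ofReal (A0 C4 * s ^ 2 * (aa p W 1 / (mass W : ℝ) ^ 2) ^ 2) := by
    refine le_trans (le_of_eq ?_) (tail hw hm hW)
    refine lintegral_congr fun ξ => ?_
    simp only [g]
    split_ifs
    · exact ENNReal.one_rpow _
    · exact ENNReal.zero_rpow_of_pos (by norm_num)
  have hr0 : 0 ≤ aa p W 1 / (mass W : ℝ) ^ 2 := div_nonneg (aa_nonneg W 1) (by positivity)
  have hr1 : aa p W 1 / (mass W : ℝ) ^ 2 ≤ 1 := by
    rw [div_le_one (by positivity)]
    exact aa_one_le hw W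
  have h9 : (∫⁻ ξ, g ξ ^ (4 / 3 : ℝ) ∂(Measure.pi fun _ : G => m)) ^ (1 / (4 / 3) : ℝ)
      ≤ ENNReal.ofReal (A0 C4 * (s * Real.sqrt s) * (aa p W 1 / (mass W : ℝ) ^ 2)) := by
    refine (ENNReal.rpow_le_rpow h8 (by norm_num)).trans ?_
    have hA := one_le_A0 C4
    rw [ENNReal.ofReal_rpow_of_nonneg (by positivity) (by norm_num)]
    refine ENNReal.ofReal_le_ofReal ?_
    have h10 : (1 / (4 / 3) : ℝ) = 3 / 4 := by norm_num
    rw [h10]
    exact rpow_bound hA hm.s_pos.le hr0 hr1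
  rw [h2]
  refine h1.trans ((mul_le_mul' h5 h9).trans (le_of_eq ?_))
  have h11 : nm a W = ENNReal.ofReal ((mass W : ℝ) ^ (-a)) := by
    unfold nm
    have h : ((mass W : ℝ≥0) : ℝ≥0∞) = ENNReal.ofReal (mass W : ℝ) := by simp
    rw [h, ENNReal.ofReal_rpow_of_pos hM]
  have h12 : (3 : ℝ≥0∞) = ENNReal.ofReal 3 := by norm_num
  have h13 : (mass W : ℝ) ^ (-(a + 2)) = (mass W : ℝ) ^ (-a) / (mass W : ℝ) ^ 2 := by
    rw [neg_add, ← sub_eq_add_neg, Real.rpow_sub hM]
    norm_num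
  rw [h11, h12, ← ENNReal.ofReal_mul (by norm_num), ← ENNReal.ofReal_mul (by positivity), h13]
  congr 1
  ring

end Exit2

open Exit2 in
/-- Overshoot: negative moments at the exit time. -/
theorem overshoot (C4 : ℝ) : ∃ C : ℝ, 0 < C ∧
    ∀ {G : Type} [Fintype G] [DecidableEq G] [AddCommGroup G] (p : G → ℝ≥0) (m : Measure ℝ≥0)
      (n0 : ℕ) (s : ℝ), Walk p n0 → Law m s C4 →
      ∀ (x0 : ℝ≥0), 0 < x0 → ∀ (a : ℝ), 0 < a → a ≤ 4 → ∀ n ≤ n0, ∀ W : G → ℝ≥0,
        x0 ≤ mass W →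
        St p m x0 n (fun _ => 0) (nm a) W
          ≤ ENNReal.ofReal ((2 / (x0 : ℝ)) ^ a) * St p m x0 n (fun _ => 0) (fun _ => 1) W
            + ENNReal.ofReal (C * Real.sqrt s * (x0 : ℝ) ^ (-(a + 2)) * KK p s n W) := by
  refine ⟨3 * A0 C4, by linarith [one_le_A0 C4], ?_⟩
  intro G _ _ _ p m n0 s hw hm x0 hx0 a ha ha4 n hn
  have := hm.prob
  have hx : 0 < (x0 : ℝ) := by exact_mod_cast hx0
  have hA := one_le_A0 C4
  set A : ℝ≥0∞ := ENNReal.ofReal ((2 / (x0 : ℝ)) ^ a) with hAdef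
  set B : ℝ := 3 * A0 C4 * Real.sqrt s * (x0 : ℝ) ^ (-(a + 2)) with hB
  have hB0 : 0 ≤ B := by positivity
  induction n with
  | zero =>
    intro W hW
    rw [St_zero]
    exact zero_le
  | succ n ih =>
    intro W hW
    have ih := ih (by omega)
    have hW0 : 0 < mass W := lt_of_lt_of_le hx0 hW
    have hM : 0 < (mass W : ℝ) := by exact_mod_cast hW0
    have hxM : (x0 : ℝ) ≤ (mass W : ℝ) := by exact_mod_cast hW
    rw [St_succ, St_succ]
    set F1 : (G → ℝ≥0) → ℝ≥0∞ := fun V => if x0 ≤ mass V then St p m x0 n (fun _ => 0) (fun _ => 1) V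
      else 1 with hF1
    set F2 : (G → ℝ≥0) → ℝ≥0∞ := fun V => if mass V < mass W / 2 then nm a V else 0 with hF2
    have hpt : ∀ V : G → ℝ≥0, (if x0 ≤ mass V then St p m x0 n (fun _ => 0) (nm a) V else nm a V)
        ≤ A * F1 V + (ENNReal.ofReal B * ENNReal.ofReal (KK p s n V) + F2 V) := by
      intro V
      simp only [F1, F2]
      by_cases hV : x0 ≤ mass V
      · rw [if_pos hV, if_pos hV, ← ENNReal.ofReal_mul hB0]
        refine (ih V hV).trans ?_
        rw [← add_assoc]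
        exact le_self_add
      · rw [if_neg hV, if_neg hV]
        by_cases hV2 : mass V < mass W / 2
        · rw [if_pos hV2]
          exact le_add_left (le_add_left le_rfl)
        · refine le_trans ?_ le_self_add
          rw [mul_one]
          have h1 : (x0 : ℝ) / 2 ≤ (mass V : ℝ) := by
            have h2 : (mass W : ℝ) / 2 ≤ (mass V : ℝ) := by
              have := not_lt.1 hV2
              exact_mod_cast this
            linarith
          have hV0 : 0 < (mass V : ℝ) := by linarith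
          have h3 : nm a V = ENNReal.ofReal ((mass V : ℝ) ^ (-a)) := by
            unfold nm
            have h : ((mass V : ℝ≥0) : ℝ≥0∞) = ENNReal.ofReal (mass V : ℝ) := by simp
            rw [h, ENNReal.ofReal_rpow_of_pos hV0]
          rw [h3, hAdef]
          refine ENNReal.ofReal_le_ofReal ?_
          have h4 : (2 / (x0 : ℝ)) ^ a = ((x0 : ℝ) / 2) ^ (-a) := by
            rw [Real.rpow_neg (by positivity), ← Real.inv_rpow (by positivity), inv_div]
          rw [h4]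
          exact Real.rpow_le_rpow_of_nonpos (by positivity) h1 (by linarith)
    have hmF1 : Measurable F1 :=
      op_measurable_ite (measurable_St measurable_const measurable_const x0 n) measurable_const
    have hmK : Measurable fun V : G → ℝ≥0 => ENNReal.ofReal (KK p s n V) :=
      (measurable_KK s n).ennreal_ofReal
    have hstep : TT p m F2 W ≤ ENNReal.ofReal B * ENNReal.ofReal (s * aa p W 1) := by
      refine (step hw hm ha ha4 hW0).trans ?_
      rw [← ENNReal.ofReal_mul hB0]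
      refine ENNReal.ofReal_le_ofReal ?_
      refine mul_le_mul_of_nonneg_right ?_ (mul_nonneg hm.s_pos.le (aa_nonneg W 1))
      rw [hB]
      refine mul_le_mul_of_nonneg_left ?_ (by positivity)
      exact Real.rpow_le_rpow_of_nonpos hx hxM (by linarith)
    calc TT p m (fun V => if x0 ≤ mass V then St p m x0 n (fun _ => 0) (nm a) V else nm a V) W
        ≤ TT p m (fun V => A * F1 V + (ENNReal.ofReal B * ENNReal.ofReal (KK p s n V) + F2 V)) W :=
          TT_mono hpt W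
      _ = A * TT p m F1 W + (ENNReal.ofReal B * TT p m (fun V => ENNReal.ofReal (KK p s n V)) W
            + TT p m F2 W) := by
          rw [TT_add (f := fun V => A * F1 V) (hmF1.const_mul A),
            TT_add (f := fun V => ENNReal.ofReal B * ENNReal.ofReal (KK p s n V)) (hmK.const_mul _),
            TT_const_mul hmF1, TT_const_mul hmK]
      _ ≤ A * TT p m F1 W + (ENNReal.ofReal B * TT p m (fun V => ENNReal.ofReal (KK p s n V)) W
            + ENNReal.ofReal B * ENNReal.ofReal (s * aa p W 1)) := by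
          gcongr
      _ = A * TT p m F1 W + ENNReal.ofReal (B * KK p s (n + 1) W) := by
          rw [← mul_add, add_comm (TT p m _ W), TT_KK hw hm (by omega : n < n0) W,
            ← ENNReal.ofReal_mul hB0]

end Pool.A2F
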