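import Pool.Agent.A2F.Ren2

/-!
# Module WinB: consequences of the critical window
-/

set_option autoImplicit false

open Finset Filter
open scoped ENNReal NNReal

noncomputable section

namespace Pool.A2F

/-- All numerical consequences of the critical window that are used. -/
structure WinFacts (Θ : ℝ) (N : ℕ) (s cU CU : ℝ) : Prop where
  N_pos : 3 ≤ N
  s_pos : 0 < s
  s_le : s ≤ 4 / Real.log N
  le_s : 1 / Real.log N ≤ s
  /-- rho at the scale t <= N -/
  rho_le : ∀ t : ℕ, 1 ≤ t → t ≤ N → rho s t ≤ Real.log ((N : ℝ) / t) + 2 * Θ + 1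
  le_rho : ∀ t : ℕ, 1 ≤ t → t ≤ N → Real.log ((N : ℝ) / t) - 2 * Θ - 2 ≤ rho s t
  rho0_le : rho s 0 ≤ Real.log N + 2 * Θ + 2
  le_rho0 : Real.log N - 2 * Θ - 2 ≤ rho s 0
  sUU_le : ∀ n ≤ 4 * N, s * UU s n ≤ CU
  le_sUU : ∀ n : ℕ, N ≤ 4 * n → cU ≤ s * UU s n

theorem rho_eq_add (s : ℝ) (m n : ℕ) : rho s m = rho s n + Real.pi * (RR n - RR m) := by
  unfold rho
  ring

/-- the basic bounds of the window -/
theorem win_core {Θ : ℝ} (hΘ : 0 ≤ Θ) {N : ℕ} {s : ℝ} (hw : Win Θ N s)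
    (hl : 100 * (Θ + 1) ≤ Real.log N) :
    s ≤ 4 / Real.log N ∧ 1 / Real.log N ≤ s ∧ |rho s N| ≤ 2 * Θ := by
  set l := Real.log (N : ℝ) with hldef
  have hl100 : 100 ≤ l := by linarith
  have hN : 1 ≤ N := by
    rcases Nat.eq_zero_or_pos N with h | h
    · rw [h] at hldef
      simp at hldef
      linarith
    · exact h
  have hN0 : (0 : ℝ) < N := by exact_mod_cast hN
  have h1 := RR_le_log hN
  rw [← hldef] at h1
  have h2 := le_RR_sub (Nat.zero_le N)
  rw [RR_zero, sub_zero] at h2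
  have h3 : l - 0.7 ≤ Real.log (((N : ℝ) + 2) / ((0 : ℕ) + 2)) := by
    rw [Real.log_div (by positivity) (by norm_num)]
    have h4 : l ≤ Real.log ((N : ℝ) + 2) := Real.log_le_log hN0 (by linarith)
    have h5 := Real.log_two_lt_d9
    norm_num at h5 ⊢
    linarith
  have hs := hw.pos
  have hx := hw.win
  rw [← hldef, abs_mul, abs_of_pos (by linarith : 0 < l)] at hx
  have hx1 : |s * RR N - 1| ≤ 1 / 100 := by
    have h4 : |s * RR N - 1| * l ≤ 1 / 100 * l := by linarith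
    exact le_of_mul_le_mul_right h4 (by linarith)
  have hx2 := abs_le.1 hx1
  have hpi := Real.pi_gt_d2
  have hpi' := Real.pi_lt_d2
  have hR : l - 0.7 ≤ Real.pi * RR N := h3.trans h2
  have e1 : s * (Real.pi * RR N) = Real.pi * (s * RR N) := by ring
  have h5 : s * (l - 0.7) ≤ 3.19 := by
    have h6 : s * (l - 0.7) ≤ s * (Real.pi * RR N) := mul_le_mul_of_nonneg_left hR hs.le
    rw [e1] at h6
    have h7 : Real.pi * (s * RR N) ≤ Real.pi * 1.01 :=
      mul_le_mul_of_nonneg_left (by norm_num; linarith [hx2.2]) Real.pi_pos.le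
    norm_num at h7 hpi' ⊢
    nlinarith
  have h6 : s ≤ 0.04 := by
    have h7 : s * 99 ≤ s * (l - 0.7) := mul_le_mul_of_nonneg_left (by norm_num; linarith) hs.le
    norm_num at h7 h5 ⊢
    linarith
  have h7 : 3 ≤ s * l := by
    have h8 : s * (Real.pi * RR N) ≤ s * (1 + l) := mul_le_mul_of_nonneg_left h1 hs.le
    rw [e1] at h8
    have h9 : Real.pi * 0.99 ≤ Real.pi * (s * RR N) :=
      mul_le_mul_of_nonneg_left (by norm_num; linarith [hx2.1]) Real.pi_pos.le
    norm_num at h6 h9 hpi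
    nlinarith
  have h8 : s * l ≤ 4 := by
    norm_num at h5 h6
    nlinarith
  refine ⟨?_, ?_, ?_⟩
  · rw [le_div_iff₀ (by linarith)]
    exact h8
  · rw [div_le_iff₀ (by linarith)]
    linarith
  · have e2 : rho s N = -(Real.pi * (s * RR N - 1)) / s := by
      unfold rho
      field_simp
      ring
    rw [e2, abs_div, abs_neg, abs_mul, abs_of_pos Real.pi_pos, abs_of_pos hs, div_le_iff₀ hs]
    have h9 : Real.pi * |s * RR N - 1| * l ≤ 2 * Θ * s * l := by
      have h10 : Real.pi * (|s * RR N - 1| * l) ≤ Real.pi * Θ :=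
        mul_le_mul_of_nonneg_left hx Real.pi_pos.le
      have h11 : Real.pi * Θ ≤ 4 * Θ := mul_le_mul_of_nonneg_right Real.pi_lt_four.le hΘ
      have h12 : 2 * Θ * 3 ≤ 2 * Θ * (s * l) := mul_le_mul_of_nonneg_left h7 (by linarith)
      nlinarith
    exact le_of_mul_le_mul_right h9 (by linarith)

/-- a scale with a given level -/
theorem floor_scale {N : ℕ} {c : ℝ} (hc : 0 ≤ c) (hN : 2 * Real.exp c ≤ N) :
    1 ≤ ⌊(N : ℝ) * Real.exp (-c)⌋₊ ∧ ⌊(N : ℝ) * Real.exp (-c)⌋₊ ≤ N ∧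
      c ≤ Real.log ((N : ℝ) / ⌊(N : ℝ) * Real.exp (-c)⌋₊) ∧
      (N : ℝ) / ⌊(N : ℝ) * Real.exp (-c)⌋₊ ≤ 2 * Real.exp c := by
  have he := Real.exp_pos c
  have hN0 : (0 : ℝ) < N := by linarith
  set x := (N : ℝ) * Real.exp (-c) with hx
  have hx2 : 2 ≤ x := by
    rw [hx, Real.exp_neg, ← div_eq_mul_inv, le_div_iff₀ he]
    exact hN
  have h1 : (⌊x⌋₊ : ℝ) ≤ x := Nat.floor_le (by linarith)
  have h2 : x < ⌊x⌋₊ + 1 := Nat.lt_floor_add_one x
  have h3 : 1 ≤ ⌊x⌋₊ := by
    rw [Nat.le_floor_iff (by linarith)]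
    push_cast
    linarith
  have h3' : (1 : ℝ) ≤ ⌊x⌋₊ := by exact_mod_cast h3
  have h4 : x ≤ N := by
    rw [hx]
    have : Real.exp (-c) ≤ 1 := Real.exp_le_one_iff.2 (by linarith)
    nlinarith
  refine ⟨h3, ?_, ?_, ?_⟩
  · have : (⌊x⌋₊ : ℝ) ≤ N := h1.trans h4
    exact_mod_cast this
  · rw [Real.le_log_iff_exp_le (by positivity), le_div_iff₀ (by positivity)]
    calc Real.exp c * ⌊x⌋₊ ≤ Real.exp c * x := mul_le_mul_of_nonneg_left h1 he.le
      _ = N := by
        rw [hx]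
        rw [mul_left_comm, ← Real.exp_add]
        simp
  · rw [div_le_iff₀ (by positivity)]
    have h5 : x / 2 ≤ ⌊x⌋₊ := by linarith
    have h6 : (N : ℝ) = 2 * Real.exp c * (x / 2) := by
      rw [hx]
      have : Real.exp c * Real.exp (-c) = 1 := by rw [← Real.exp_add]; simp
      calc (N : ℝ) = N * (Real.exp c * Real.exp (-c)) := by rw [this, mul_one]
        _ = _ := by ring
    calc (N : ℝ) = 2 * Real.exp c * (x / 2) := h6
      _ ≤ 2 * Real.exp c * ⌊x⌋₊ := mul_le_mul_of_nonneg_left h5 (by positivity)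

theorem win_facts (Θ : ℝ) (hΘ : 0 ≤ Θ) : ∃ cU CU : ℝ, 0 < cU ∧ 0 < CU ∧ ∃ N0 : ℕ,
    ∀ N ≥ N0, ∀ s : ℝ, Win Θ N s → WinFacts Θ N s cU CU := by
  refine ⟨Real.pi / (2 * (4 * Θ + 64)), Real.pi * Real.exp (8 * Real.exp (2 * Θ + 5)),
    by positivity, by positivity, ?_⟩
  have hev : ∀ᶠ N : ℕ in atTop, 100 * (Θ + 1) ≤ Real.log N ∧ 3 ≤ N ∧
      2 * Real.exp (2 * Θ + 60) ≤ N := by
    have h1 : Tendsto (fun N : ℕ => Real.log (N : ℝ)) atTop atTop :=
      Real.tendsto_log_atTop.comp tendsto_natCast_atTop_atTop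
    exact (h1.eventually_ge_atTop _).and ((eventually_ge_atTop 3).and
      ((tendsto_natCast_atTop_atTop (R := ℝ)).eventually_ge_atTop _))
  obtain ⟨N0, hN0⟩ := eventually_atTop.1 hev
  refine ⟨N0, fun N hN s hw => ?_⟩
  obtain ⟨hl, hN3, hNe⟩ := hN0 N hN
  obtain ⟨c1, c2, c3⟩ := win_core hΘ hw hl
  have hN1 : (0 : ℝ) < N := by
    have : (3 : ℝ) ≤ N := by exact_mod_cast hN3
    linarith
  have c4 := abs_le.1 c3
  have hs := hw.pos
  have rle : ∀ t : ℕ, 1 ≤ t → t ≤ N → rho s t ≤ Real.log ((N : ℝ) / t) + 2 * Θ + 1 := by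
    intro t h1 h2
    rw [rho_eq_add s t N]
    have h3 := RR_sub_le h1 h2
    linarith [c4.2]
  have ler : ∀ t : ℕ, 1 ≤ t → t ≤ N → Real.log ((N : ℝ) / t) - 2 * Θ - 2 ≤ rho s t := by
    intro t h1 h2
    rw [rho_eq_add s t N]
    have h3 := le_RR_sub h2
    have ht : (1 : ℝ) ≤ t := by exact_mod_cast h1
    have h4 : Real.log ((N : ℝ) / t) ≤ Real.log (((N : ℝ) + 2) / (t + 2)) + 2 := by
      have h5 : Real.log ((N : ℝ) / t) ≤ Real.log (3 * (((N : ℝ) + 2) / (t + 2))) := by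
        apply Real.log_le_log (by positivity)
        rw [div_le_iff₀ (by linarith)]
        rw [mul_div_assoc', div_mul_eq_mul_div, le_div_iff₀ (by linarith)]
        nlinarith
      rw [Real.log_mul (by norm_num) (by positivity)] at h5
      have h6 : Real.log 3 ≤ 2 := by
        have := Real.log_le_sub_one_of_pos (by norm_num : (0 : ℝ) < 3)
        linarith
      linarith
    linarith [c4.1]
  refine ⟨hN3, hs, c1, c2, rle, ler, ?_, ?_, ?_, ?_⟩
  · rw [rho_eq_add s 0 N, RR_zero, sub_zero]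
    have h3 := RR_le_log (show 1 ≤ N by omega)
    linarith [c4.2]
  · rw [rho_eq_add s 0 N]
    have h3 := le_RR_sub (Nat.zero_le N)
    have h4 : Real.log N ≤ Real.log (((N : ℝ) + 2) / ((0 : ℕ) + 2)) + 1 := by
      rw [Real.log_div (by positivity) (by norm_num)]
      have h4 : Real.log N ≤ Real.log ((N : ℝ) + 2) := Real.log_le_log hN1 (by linarith)
      have h5 := Real.log_two_lt_d9
      norm_num at h5 ⊢
      linarith
    linarith [c4.1]
  · intro n hn
    have h1 : 2 * Real.exp (2 * Θ + 5) ≤ N := by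
      refine le_trans ?_ hNe
      have := Real.exp_le_exp.2 (by linarith : 2 * Θ + 5 ≤ 2 * Θ + 60)
      linarith
    obtain ⟨m1, m2, m3, m4⟩ := floor_scale (by linarith : 0 ≤ 2 * Θ + 5) h1
    set m := ⌊(N : ℝ) * Real.exp (-(2 * Θ + 5))⌋₊ with hm
    have h2 := ler m m1 m2
    have h3 := sUU_le_exp hs m1 (by linarith) n
    refine h3.trans ?_
    have hm0 : (0 : ℝ) < m := by exact_mod_cast m1
    refine mul_le_mul_of_nonneg_left (Real.exp_le_exp.2 ?_) Real.pi_pos.le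
    have hn' : (n : ℝ) ≤ 4 * N := by exact_mod_cast hn
    calc (n : ℝ) / m ≤ 4 * N / m := by gcongr
      _ = 4 * (N / m) := by ring
      _ ≤ 4 * (2 * Real.exp (2 * Θ + 5)) := by linarith
      _ = 8 * Real.exp (2 * Θ + 5) := by ring
  · intro n hn
    obtain ⟨m1, m2, m3, m4⟩ := floor_scale (by linarith : 0 ≤ 2 * Θ + 60) hNe
    set m := ⌊(N : ℝ) * Real.exp (-(2 * Θ + 60))⌋₊ with hm
    have hm0 : (0 : ℝ) < m := by exact_mod_cast m1
    have h2 := ler m m1 m2
    have h3 := rle m m1 m2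
    have h4 : Real.log ((N : ℝ) / m) ≤ 2 * Θ + 61 := by
      rw [Real.log_le_iff_le_exp (by positivity)]
      refine m4.trans ?_
      rw [show 2 * Θ + 61 = (2 * Θ + 60) + 1 by ring, Real.exp_add (2 * Θ + 60) 1, mul_comm]
      exact mul_le_mul_of_nonneg_left (by linarith [Real.add_one_le_exp (1 : ℝ)])
        (Real.exp_pos _).le
    have hr1 : 54 ≤ rho s m := by linarith
    have hr2 : rho s m ≤ 4 * Θ + 64 := by linarith
    have h5 := le_sUU hs (t := m) (by linarith)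
    have hmn : m ≤ n := by
      have h6 : (4 : ℝ) * m ≤ N := by
        have h7 : (m : ℝ) ≤ (N : ℝ) * Real.exp (-(2 * Θ + 60)) := Nat.floor_le (by positivity)
        have h8 : Real.exp (-(2 * Θ + 60)) ≤ 1 / 4 := by
          rw [Real.exp_neg, inv_eq_one_div]
          apply one_div_le_one_div_of_le (by norm_num)
          linarith [Real.add_one_le_exp (2 * Θ + 60)]
        nlinarith
      have h7 : 4 * m ≤ N := by exact_mod_cast h6
      omega
    have h6 : s * UU s m ≤ s * UU s n := mul_le_mul_of_nonneg_left (UU_mono hs.le hmn) hs.le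
    refine le_trans ?_ (h5.trans h6)
    have hr0 : 0 < rho s m := by linarith
    have h7 : (1 : ℝ) / 2 ≤ 1 - 27 / rho s m := by
      have : 27 / rho s m ≤ 1 / 2 := by
        rw [div_le_iff₀ hr0]
        linarith
      linarith
    calc Real.pi / (2 * (4 * Θ + 64)) = Real.pi / (4 * Θ + 64) * (1 / 2) := by
          field_simp
      _ ≤ Real.pi / rho s m * (1 - 27 / rho s m) := by
          apply mul_le_mul _ h7 (by norm_num) (by positivity)
          gcongr

/-- Scales are found by level: for every r in [C, rho_0) there is t with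
r <= rho t <= r + 1. -/
theorem exists_scale (Θ : ℝ) (hΘ : 0 ≤ Θ) : ∃ N0 : ℕ,
    ∀ N ≥ N0, ∀ s : ℝ, Win Θ N s → ∀ r : ℝ, 2 * Θ + 2 ≤ r → r ≤ rho s 0 →
      ∃ t : ℕ, t ≤ N ∧ r ≤ rho s t ∧ rho s t < r + 1 ∧ rho s (t + 1) < r := by
  have hev : ∀ᶠ N : ℕ in atTop, 100 * (Θ + 1) ≤ Real.log N :=
    (Real.tendsto_log_atTop.comp tendsto_natCast_atTop_atTop).eventually_ge_atTop _
  obtain ⟨N0, hN0⟩ := eventually_atTop.1 hev
  refine ⟨N0, fun N hN s hw r hr hr0 => ?_⟩
  obtain ⟨-, -, c3⟩ := win_core hΘ hw (hN0 N hN)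
  have c4 := abs_le.1 c3
  classical
  have hex : ∃ t : ℕ, t ≤ N ∧ r ≤ rho s t := ⟨0, Nat.zero_le _, hr0⟩
  set t := Nat.findGreatest (fun t => r ≤ rho s t) N with ht
  have h1 : r ≤ rho s t := Nat.findGreatest_spec (P := fun t => r ≤ rho s t) (Nat.zero_le N) hr0
  have h2 : t ≤ N := Nat.findGreatest_le N
  have h3 : t < N := by
    rcases h2.lt_or_eq with h | h
    · exact h
    · rw [h] at h1
      linarith [c4.2]
  have h4 : rho s (t + 1) < r := by
    by_contra h5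
    have h6 := Nat.le_findGreatest (P := fun t => r ≤ rho s t) (show t + 1 ≤ N by omega)
      (not_lt.1 h5)
    rw [← ht] at h6
    omega
  refine ⟨t, h2, h1, ?_, h4⟩
  have h5 : rho s t = rho s (t + 1) + Real.pi * uu (t + 1) := by
    rw [rho_eq_add s t (t + 1), RR_succ]
    ring
  have h6 : Real.pi * uu (t + 1) ≤ 1 := by
    have h7 := uu_le (n := t + 1) (by omega)
    have h8 : Real.pi * uu (t + 1) ≤ Real.pi * (1 / (Real.pi * (t + 1 : ℕ))) :=
      mul_le_mul_of_nonneg_left h7 Real.pi_pos.le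
    refine h8.trans ?_
    rw [mul_one_div, div_mul_cancel_left₀ Real.pi_ne_zero]
    apply inv_le_one_of_one_le₀
    push_cast
    have : (0 : ℝ) ≤ t := Nat.cast_nonneg t
    linarith
  linarith

end Pool.A2F
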