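import Pool.Agent.A2F.Exit
import Pool.Agent.A2F.Exit2
import Pool.Agent.A2F.WinB

/-!
# Module Crude, part 1: decomposition of E |W_N|^(-a) at the end or the exit of a block
-/

set_option autoImplicit false
set_option linter.unusedSectionVars false
set_option linter.style.haveILetI false

open MeasureTheory Finset
open scoped ENNReal NNReal

noncomputable section

namespace Pool.A2F.Cr

variable {G : Type} [Fintype G] [DecidableEq G] [AddCommGroup G]
variable {p : G → ℝ≥0} {m : Measure ℝ≥0} {n0 : ℕ} {s C4 : ℝ}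

/-- |V|^2 + K_N V. -/
def Ph (p : G → ℝ≥0) (s : ℝ) (N : ℕ) (V : G → ℝ≥0) : ℝ := (mass V : ℝ) ^ 2 + KK p s N V

theorem Ph_nonneg (hs : 0 ≤ s) (N : ℕ) (V : G → ℝ≥0) : 0 ≤ Ph p s N V :=
  add_nonneg (sq_nonneg _) (KK_nonneg hs N V)

theorem measurable_Ph (N : ℕ) : Measurable (fun V : G → ℝ≥0 => ENNReal.ofReal (Ph p s N V)) := by
  unfold Ph
  exact ((measurable_mass.coe_nnreal_real.pow_const 2).add (measurable_KK s N)).ennreal_ofReal

/-- the induction hypothesis -/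
def Hyp (p : G → ℝ≥0) (m : Measure ℝ≥0) (s a q : ℝ) (N : ℕ) (A : ℝ) : Prop :=
  ∀ W : G → ℝ≥0, mass W = 1 →
    (TT p m)^[N] (nm a) W ≤ ENNReal.ofReal (A * (1 + KK p s N W) ^ q)

theorem mass_smul (c : ℝ≥0) (W : G → ℝ≥0) : mass (c • W) = c * mass W := by
  simp [mass, Finset.mul_sum]

/-- normalisation -/
theorem exists_normal {V : G → ℝ≥0} (hV : mass V ≠ 0) :
    mass ((mass V)⁻¹ • V) = 1 ∧ V = (mass V) • ((mass V)⁻¹ • V) := by
  constructor
  · rw [mass_smul, inv_mul_cancel₀ hV]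
  · rw [smul_smul, mul_inv_cancel₀ hV, one_smul]

theorem rpow_young {x Φ y q a : ℝ} (hx : 0 < x) (hΦ : 0 ≤ Φ) (hy : 0 < y) (hq : 0 < q) (hq1 : q < 1) :
    x ^ (-(a + 2 * q)) * Φ ^ q ≤ y ^ q * (q / y * Φ + x ^ (-((a + 2 * q) / (1 - q)))) := by
  have h := Real.geom_mean_le_arith_mean2_weighted (w₁ := 1 - q) (w₂ := q)
    (p₁ := x ^ (-((a + 2 * q) / (1 - q)))) (p₂ := Φ / y) (by linarith) hq.le (by positivity)
    (by positivity) (by ring)
  have e1 : (x ^ (-((a + 2 * q) / (1 - q)))) ^ (1 - q) = x ^ (-(a + 2 * q)) := by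
    rw [← Real.rpow_mul hx.le]
    congr 1
    have : (1 - q) ≠ 0 := by linarith
    field_simp
  rw [e1, Real.div_rpow hΦ hy.le] at h
  have hyq : 0 < y ^ q := Real.rpow_pos_of_pos hy q
  have hxx : 0 ≤ x ^ (-((a + 2 * q) / (1 - q))) := by positivity
  calc x ^ (-(a + 2 * q)) * Φ ^ q = y ^ q * (x ^ (-(a + 2 * q)) * (Φ ^ q / y ^ q)) := by
        field_simp
    _ ≤ y ^ q * ((1 - q) * x ^ (-((a + 2 * q) / (1 - q))) + q * (Φ / y)) :=
        mul_le_mul_of_nonneg_left h hyq.le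
    _ ≤ y ^ q * (q / y * Φ + x ^ (-((a + 2 * q) / (1 - q)))) := by
        apply mul_le_mul_of_nonneg_left _ hyq.le
        have : q * (Φ / y) = q / y * Φ := by ring
        nlinarith

theorem nm_eq_ofReal {a : ℝ} {V : G → ℝ≥0} (hV : mass V ≠ 0) :
    nm a V = ENNReal.ofReal ((mass V : ℝ) ^ (-a)) := by
  unfold nm
  have h0 : (0 : ℝ) < (mass V : ℝ) := by
    have : 0 < mass V := pos_iff_ne_zero.2 hV
    exact_mod_cast this
  rw [← ENNReal.ofReal_rpow_of_pos h0, ENNReal.ofReal_coe_nnreal]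

theorem nm_zero {a : ℝ} (ha : 0 < a) {V : G → ℝ≥0} (hV : mass V = 0) : nm a V = ⊤ := by
  unfold nm
  rw [hV, ENNReal.coe_zero, ENNReal.zero_rpow_of_neg (by linarith)]

theorem FF_scale (hm : Law m s C4) {a : ℝ} (N : ℕ) {V : G → ℝ≥0} (hV : mass V ≠ 0) :
    (TT p m)^[N] (nm a) V = nm a V * (TT p m)^[N] (nm a) ((mass V)⁻¹ • V) := by
  haveI := hm.prob
  conv_lhs => rw [(exists_normal hV).2]
  rw [TTn_nm_smul a hV]
  rfl

theorem FF_le (hm : Law m s C4) {a q A y : ℝ} {N : ℕ} (hq : 0 < q) (hq1 : q < 1) (ha : 0 < a)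
    (hA : 0 < A) (hy : 0 < y) (hH : Hyp p m s a q N A) (V : G → ℝ≥0) :
    (TT p m)^[N] (nm a) V ≤ ENNReal.ofReal (A * y ^ q) *
      (ENNReal.ofReal (q / y) * ENNReal.ofReal (Ph p s N V) + nm ((a + 2 * q) / (1 - q)) V) := by
  have hs := hm.s_pos
  have hyq : 0 < y ^ q := Real.rpow_pos_of_pos hy q
  by_cases hV : mass V = 0
  · rw [nm_zero (by apply div_pos <;> linarith) hV, add_top, ENNReal.mul_top]
    · exact le_top
    · exact (ENNReal.ofReal_pos.2 (by positivity)).ne'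
  · have h0 : (0 : ℝ) < (mass V : ℝ) := by
      have : 0 < mass V := pos_iff_ne_zero.2 hV
      exact_mod_cast this
    have h1 := hH _ (exists_normal hV).1
    have h2 : 1 + KK p s N ((mass V)⁻¹ • V) = Ph p s N V / (mass V : ℝ) ^ 2 := by
      rw [KK_smul, Ph]
      push_cast
      field_simp
    rw [FF_scale hm N hV, nm_eq_ofReal hV, nm_eq_ofReal hV]
    refine (mul_le_mul_right h1 _).trans ?_
    rw [h2, ← ENNReal.ofReal_mul (by positivity), ← ENNReal.ofReal_mul (by positivity),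
      ← ENNReal.ofReal_add (mul_nonneg (by positivity) (Ph_nonneg hs.le N V)) (by positivity),
      ← ENNReal.ofReal_mul (by positivity)]
    apply ENNReal.ofReal_le_ofReal
    have hP := Ph_nonneg (p := p) hs.le N V
    have e : (mass V : ℝ) ^ (-a) * (A * (Ph p s N V / (mass V : ℝ) ^ 2) ^ q) =
        A * ((mass V : ℝ) ^ (-(a + 2 * q)) * Ph p s N V ^ q) := by
      rw [Real.div_rpow hP (by positivity)]
      have e1 : ((mass V : ℝ) ^ 2) ^ q = (mass V : ℝ) ^ (2 * q) := by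
        rw [← Real.rpow_natCast, ← Real.rpow_mul h0.le]
        norm_num
      have e2 : (mass V : ℝ) ^ (-(a + 2 * q)) = (mass V : ℝ) ^ (-a) / (mass V : ℝ) ^ (2 * q) := by
        rw [← Real.rpow_sub h0]
        congr 1
        ring
      rw [e1, e2]
      ring
    rw [e]
    calc A * ((mass V : ℝ) ^ (-(a + 2 * q)) * Ph p s N V ^ q)
        ≤ A * (y ^ q * (q / y * Ph p s N V + (mass V : ℝ) ^ (-((a + 2 * q) / (1 - q))))) :=
          mul_le_mul_of_nonneg_left (rpow_young h0 hP hy hq hq1) hA.le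
      _ = _ := by ring

theorem Ph_le_TT {N : ℕ} (hw : Walk p n0) (hm : Law m s C4) (hN : N + 1 ≤ n0) (V : G → ℝ≥0) :
    ENNReal.ofReal (Ph p s N V) ≤ TT p m (fun V => ENNReal.ofReal (Ph p s N V)) V := by
  have h := TTn_KK hw hm (n := N) (t := 1) hN V
  simp only [Function.iterate_one] at h
  unfold Ph
  rw [h]
  apply ENNReal.ofReal_le_ofReal
  have := KK_mono (p := p) hm.s_pos.le V (Nat.le_succ N)
  simp only at this
  exact add_le_add le_rfl this

theorem St_Ph_le {N n : ℕ} (hw : Walk p n0) (hm : Law m s C4) (hN : N + 1 ≤ n0) (hn : N + n ≤ n0)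
    (x0 : ℝ≥0) (W : G → ℝ≥0) :
    St p m x0 n (fun V => ENNReal.ofReal (Ph p s N V)) (fun V => ENNReal.ofReal (Ph p s N V)) W
      ≤ ENNReal.ofReal ((mass W : ℝ) ^ 2 + KK p s (N + n) W) :=
  (St_le_TTn (Ph_le_TT hw hm hN) x0 n W).trans (le_of_eq (TTn_KK hw hm hn W))

end Pool.A2F.Cr
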