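import Pool.Agent.A2F.Crude1

/-!
# Module Crude, part 2: the block inequalities
-/

set_option autoImplicit false
set_option linter.unusedSectionVars false
set_option linter.style.haveILetI false

open MeasureTheory Finset
open scoped ENNReal NNReal

noncomputable section

namespace Pool.A2F.Cr

variable {G : Type} [Fintype G] [DecidableEq G] [AddCommGroup G]
variable {p : G → ℝ≥0} {m : Measure ℝ≥0} {n0 : ℕ} {s C4 : ℝ}

theorem measurable_FF (hm : Law m s C4) (a : ℝ) (N : ℕ) :
    Measurable ((TT p m)^[N] (nm a)) := by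
  haveI := hm.prob
  exact measurable_TTn (measurable_nm a) N

/-- exit decomposition with remaining horizon at most N after the exit, true end at n. -/
theorem TTn_le_St' (hw : Walk p n0) (hm : Law m s C4) {a : ℝ} (ha : 0 < a) (x0 : ℝ≥0) {n N : ℕ}
    (hn : n ≤ N) (W : G → ℝ≥0) :
    (TT p m)^[n] (nm a) W ≤ St p m x0 n (nm a) ((TT p m)^[N] (nm a)) W := by
  induction n generalizing W with
  | zero => exact le_rfl
  | succ n ih =>
    rw [Function.iterate_succ_apply', St_succ]
    apply TT_mono
    intro V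
    split_ifs with h
    · exact ih (by omega) V
    · exact TTn_mono_n (fun W => nm_le_TT hw hm ha W) (by omega) V

/-- linear combination on the alive side, bound on the dead side -/
theorem St_comb (hm : Law m s C4) {x0 : ℝ≥0} {n : ℕ} {f g u v w z : (G → ℝ≥0) → ℝ≥0∞}
    (hu : Measurable u) (hv : Measurable v) (hw' : Measurable w) (hz : Measurable z)
    {X c d e : ℝ≥0∞} {W : G → ℝ≥0} (hW : x0 ≤ mass W)
    (hf : ∀ V, x0 ≤ mass V → f V ≤ X * u V + c * (d * v V + e * w V))
    (hg : ∀ V, mass V < x0 → g V ≤ c * (d * v V + z V)) :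
    St p m x0 n f g W ≤ X * St p m x0 n u (fun _ => 0) W
      + c * (d * St p m x0 n v v W + e * St p m x0 n w (fun _ => 0) W
        + St p m x0 n (fun _ => 0) z W) := by
  haveI := hm.prob
  have h0 : Measurable (fun _ : G → ℝ≥0 => (0 : ℝ≥0∞)) := measurable_const
  have h1 : St p m x0 n f g W ≤ St p m x0 n (fun V => X * u V + c * (d * v V + e * w V))
      (fun V => X * 0 + c * (d * v V + z V)) W := by
    refine St_mono hf (fun V hV => ?_) n W hW
    rw [mul_zero, zero_add]
    exact hg V hV
  refine h1.trans (le_of_eq ?_)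
  have m1 : Measurable (fun V => d * v V + e * w V) := (hv.const_mul d).add (hw'.const_mul e)
  have m2 : Measurable (fun V => d * v V + z V) := (hv.const_mul d).add hz
  rw [St_add (hu.const_mul X) (h0.const_mul X), St_const_mul hu h0, St_const_mul m1 m2]
  congr 2
  have e1 : St p m x0 n (fun V => d * v V + e * w V) (fun V => d * v V + z V) W
      = St p m x0 n (fun V => d * v V + (e * w V + 0)) (fun V => d * v V + (e * 0 + z V)) W := by
    congr 1
    · funext V; rw [add_zero]
    · funext V; rw [mul_zero, zero_add]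
  rw [e1, St_add (hv.const_mul d) (hv.const_mul d), St_add (hw'.const_mul e) (h0.const_mul e),
    St_const_mul hv hv, St_const_mul hw' h0, add_assoc]

/-- The block inequality in raw form. -/
theorem block_raw (hw : Walk p n0) (hm : Law m s C4) {a q A y M : ℝ} {N b : ℕ} (hq : 0 < q)
    (hq1 : q < 1) (ha : 0 < a) (hA : 0 < A) (hy : 0 < y) (hH : Hyp p m s a q N A)
    (hN : N + 1 ≤ n0) (hb : N + b ≤ n0) {x0 : ℝ≥0} (hx : 0 < x0) {X : ℝ≥0∞}
    (hX : ∀ V : G → ℝ≥0, mass V = 1 → Rz p b V ≤ M → (TT p m)^[N] (nm a) V ≤ X)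
    {W : G → ℝ≥0} (hW : mass W = 1) (hx1 : x0 ≤ 1) :
    (TT p m)^[N] (nm a) W ≤ X * St p m x0 b (nm a) (fun _ => 0) W
      + ENNReal.ofReal (A * y ^ q) * (ENNReal.ofReal (q / y) * ENNReal.ofReal (1 + KK p s (N + b) W)
        + ENNReal.ofReal ((x0 : ℝ) ^ (-((a + 2 * q) / (1 - q)))) *
          St p m x0 b (fun V => if M * (mass V : ℝ) ^ 2 < Rz p b V then 1 else 0) (fun _ => 0) W
        + St p m x0 b (fun _ => 0) (nm ((a + 2 * q) / (1 - q))) W) := by
  haveI := hm.prob
  have ha' : 0 < (a + 2 * q) / (1 - q) := by apply div_pos <;> linarith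
  have hirr : Measurable (fun V : G → ℝ≥0 =>
      if M * (mass V : ℝ) ^ 2 < Rz p b V then (1 : ℝ≥0∞) else 0) := by
    refine Measurable.ite ?_ measurable_const measurable_const
    exact measurableSet_lt ((measurable_mass.coe_nnreal_real.pow_const 2).const_mul M)
      (measurable_Rz b)
  have hx1' : x0 ≤ mass W := by rw [hW]; exact hx1
  have h1 := TTn_le_St (p := p) (m := m) (fun W => nm_le_TT hw hm ha W) x0 b N W
  have h2 := St_comb (p := p) hm (x0 := x0) (n := b) (f := (TT p m)^[N] (nm a))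
    (g := (TT p m)^[N] (nm a)) (u := nm a) (v := fun V => ENNReal.ofReal (Ph p s N V))
    (w := fun V => if M * (mass V : ℝ) ^ 2 < Rz p b V then (1 : ℝ≥0∞) else 0)
    (z := nm ((a + 2 * q) / (1 - q))) (measurable_nm a) (measurable_Ph N) hirr (measurable_nm _)
    (X := X) (c := ENNReal.ofReal (A * y ^ q)) (d := ENNReal.ofReal (q / y))
    (e := ENNReal.ofReal ((x0 : ℝ) ^ (-((a + 2 * q) / (1 - q))))) hx1' ?_ ?_
  · refine h1.trans (h2.trans ?_)
    gcongr
    have := St_Ph_le hw hm hN hb x0 W
    rw [hW] at this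
    simpa using this
  · intro V hV
    have hV0 : mass V ≠ 0 := (lt_of_lt_of_le hx hV).ne'
    by_cases hi : M * (mass V : ℝ) ^ 2 < Rz p b V
    · rw [if_pos hi]
      refine (FF_le hm hq hq1 ha hA hy hH V).trans ?_
      refine le_trans ?_ le_add_self
      gcongr
      rw [nm_eq_ofReal hV0, mul_one]
      apply ENNReal.ofReal_le_ofReal
      apply Real.rpow_le_rpow_of_nonpos
      · exact_mod_cast hx
      · exact_mod_cast hV
      · linarith
    · rw [if_neg hi, FF_scale hm N hV0]
      refine le_trans ?_ le_self_add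
      rw [mul_comm X]
      gcongr
      apply hX _ (exists_normal hV0).1
      rw [Rz_smul]
      push Not at hi
      have h0 : (0 : ℝ) < (mass V : ℝ) := by
        have : 0 < mass V := pos_iff_ne_zero.2 hV0
        exact_mod_cast this
      push_cast
      rw [inv_pow, inv_mul_le_iff₀ (by positivity)]
      linarith
  · intro V _
    exact FF_le hm hq hq1 ha hA hy hH V

/-- The base inequality in raw form. -/
theorem base_raw (hw : Walk p n0) (hm : Law m s C4) {a q A y : ℝ} {N : ℕ} (hq : 0 < q)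
    (hq1 : q < 1) (ha : 0 < a) (hA : 0 < A) (hy : 0 < y) (hH : Hyp p m s a q N A)
    (hN : N + 1 ≤ n0) (hb : N + N ≤ n0) {x0 : ℝ≥0} (hx : 0 < x0)
    {W : G → ℝ≥0} (hW : mass W = 1) (hx1 : x0 ≤ 1) :
    (TT p m)^[N] (nm a) W ≤ ENNReal.ofReal ((x0 : ℝ) ^ (-a))
      + ENNReal.ofReal (A * y ^ q) * (ENNReal.ofReal (q / y) * ENNReal.ofReal (1 + KK p s (N + N) W)
        + St p m x0 N (fun _ => 0) (nm ((a + 2 * q) / (1 - q))) W) := by
  haveI := hm.prob
  have hx1' : x0 ≤ mass W := by rw [hW]; exact hx1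
  have h0 : Measurable (fun _ : G → ℝ≥0 => (0 : ℝ≥0∞)) := measurable_const
  have h1 := TTn_le_St' hw hm ha x0 (le_refl N) W
  have h2 := St_comb (p := p) hm (x0 := x0) (n := N) (f := nm a)
    (g := (TT p m)^[N] (nm a)) (u := fun _ => 1) (v := fun V => ENNReal.ofReal (Ph p s N V))
    (w := fun _ => 0)
    (z := nm ((a + 2 * q) / (1 - q))) measurable_const (measurable_Ph N) h0 (measurable_nm _)
    (X := ENNReal.ofReal ((x0 : ℝ) ^ (-a))) (c := ENNReal.ofReal (A * y ^ q))
    (d := ENNReal.ofReal (q / y)) (e := 0) hx1' ?_ ?_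
  · refine h1.trans (h2.trans ?_)
    rw [zero_mul, add_zero]
    gcongr
    · have := St_split_one (p := p) (m := m) x0 N W
      calc _ ≤ ENNReal.ofReal ((x0 : ℝ) ^ (-a)) * 1 := by
            gcongr
            exact le_self_add.trans (le_of_eq this)
        _ = _ := mul_one _
    · have := St_Ph_le hw hm hN hb x0 W
      rw [hW] at this
      simpa using this
  · intro V hV
    have hV0 : mass V ≠ 0 := (lt_of_lt_of_le hx hV).ne'
    refine le_trans ?_ le_self_add
    rw [nm_eq_ofReal hV0, mul_one]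
    apply ENNReal.ofReal_le_ofReal
    apply Real.rpow_le_rpow_of_nonpos
    · exact_mod_cast hx
    · exact_mod_cast hV
    · linarith
  · intro V _
    exact FF_le hm hq hq1 ha hA hy hH V

end Pool.A2F.Cr
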