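import Pool.Agent.A2F.Crude2

/-!
# Module Crude, part 3: numerical block inequalities
-/

set_option autoImplicit false
set_option linter.unusedSectionVars false
set_option linter.style.haveILetI false

open MeasureTheory Finset
open scoped ENNReal NNReal

noncomputable section

namespace Pool.A2F.Cr

variable {G : Type} [Fintype G] [DecidableEq G] [AddCommGroup G]
variable {p : G → ℝ≥0} {m : Measure ℝ≥0} {s C4 : ℝ}

theorem y_facts {CK q D : ℝ} (hCK : 1 ≤ CK) (hq : 0 < q) (hD : 1 ≤ D) :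
    0 < CK * D / q ^ 2 ∧ (CK * D / q ^ 2) ^ q = D ^ q * (CK / q ^ 2) ^ q ∧
      q / (CK * D / q ^ 2) * (CK * D) = q ^ 3 := by
  have hD0 : 0 < D := by linarith
  have hC0 : 0 < CK := by linarith
  refine ⟨by positivity, ?_, ?_⟩
  · rw [show CK * D / q ^ 2 = D * (CK / q ^ 2) by ring, Real.mul_rpow hD0.le (by positivity)]
  · field_simp

theorem block_num {N b : ℕ} (hw : Walk p (4 * N)) (hm : Law m s C4) (hN : 1 ≤ N) (hb : b ≤ N)
    {a q A M CK : ℝ} (hq : 0 < q) (hq1 : q < 1) (ha : 0 < a) (hA : 0 < A) (hCK : 1 ≤ CK)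
    (hH : Hyp p m s a q N A) {x0 : ℝ≥0} (hx : 0 < x0) {X : ℝ≥0∞}
    (hX : ∀ V : G → ℝ≥0, mass V = 1 → Rz p b V ≤ M → (TT p m)^[N] (nm a) V ≤ X)
    {W : G → ℝ≥0} (hW : mass W = 1) (hx1 : x0 ≤ 1)
    (hK2 : 1 + KK p s (N + b) W ≤ CK * (1 + KK p s N W)) {r1 r2 : ℝ} (h1 : 0 ≤ r1) (h2 : 0 ≤ r2)
    (hr1 : St p m x0 b (fun V => if M * (mass V : ℝ) ^ 2 < Rz p b V then 1 else 0)
      (fun _ => 0) W ≤ ENNReal.ofReal r1)
    (hr2 : St p m x0 b (fun _ => 0) (nm ((a + 2 * q) / (1 - q))) W ≤ ENNReal.ofReal r2) :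
    (TT p m)^[N] (nm a) W ≤ X * St p m x0 b (nm a) (fun _ => 0) W
      + ENNReal.ofReal (A * (1 + KK p s N W) ^ q *
        ((CK / q ^ 2) ^ q * (q ^ 3 + (x0 : ℝ) ^ (-((a + 2 * q) / (1 - q))) * r1 + r2))) := by
  have hs := hm.s_pos
  have hD : 1 ≤ 1 + KK p s N W := by linarith [KK_nonneg (p := p) hs.le N W]
  have hx0 : (0 : ℝ) < x0 := by exact_mod_cast hx
  obtain ⟨hy, e1, e2⟩ := y_facts hCK hq hD
  set D := 1 + KK p s N W with hDdef
  set y := CK * D / q ^ 2 with hydef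
  have hraw := block_raw (y := y) hw hm hq hq1 ha hA hy hH (by omega) (by omega) hx hX hW hx1
  refine hraw.trans ?_
  gcongr
  have hAy : 0 ≤ A * y ^ q := by positivity
  calc _ ≤ ENNReal.ofReal (A * y ^ q) * (ENNReal.ofReal (q / y) * ENNReal.ofReal (CK * D)
        + ENNReal.ofReal ((x0 : ℝ) ^ (-((a + 2 * q) / (1 - q)))) * ENNReal.ofReal r1
        + ENNReal.ofReal r2) := by gcongr
    _ = ENNReal.ofReal (A * D ^ q *
        ((CK / q ^ 2) ^ q * (q ^ 3 + (x0 : ℝ) ^ (-((a + 2 * q) / (1 - q))) * r1 + r2))) := by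
      rw [← ENNReal.ofReal_mul (by positivity), e2, ← ENNReal.ofReal_mul (by positivity),
        ← ENNReal.ofReal_add (by positivity) (by positivity),
        ← ENNReal.ofReal_add (by positivity) h2, ← ENNReal.ofReal_mul hAy, e1]
      congr 1
      ring

theorem base_num {N : ℕ} (hw : Walk p (4 * N)) (hm : Law m s C4) (hN : 1 ≤ N)
    {a q A CK : ℝ} (hq : 0 < q) (hq1 : q < 1) (ha : 0 < a) (hA : 0 < A) (hCK : 1 ≤ CK)
    (hH : Hyp p m s a q N A) {x0 : ℝ≥0} (hx : 0 < x0)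
    {W : G → ℝ≥0} (hW : mass W = 1) (hx1 : x0 ≤ 1)
    (hK2 : 1 + KK p s (N + N) W ≤ CK * (1 + KK p s N W)) {r2 : ℝ} (h2 : 0 ≤ r2)
    (hr2 : St p m x0 N (fun _ => 0) (nm ((a + 2 * q) / (1 - q))) W ≤ ENNReal.ofReal r2) :
    (TT p m)^[N] (nm a) W ≤ ENNReal.ofReal ((x0 : ℝ) ^ (-a))
      + ENNReal.ofReal (A * (1 + KK p s N W) ^ q * ((CK / q ^ 2) ^ q * (q ^ 3 + r2))) := by
  have hs := hm.s_pos
  have hD : 1 ≤ 1 + KK p s N W := by linarith [KK_nonneg (p := p) hs.le N W]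
  have hx0 : (0 : ℝ) < x0 := by exact_mod_cast hx
  obtain ⟨hy, e1, e2⟩ := y_facts hCK hq hD
  set D := 1 + KK p s N W with hDdef
  set y := CK * D / q ^ 2 with hydef
  have hraw := base_raw (y := y) hw hm hq hq1 ha hA hy hH (by omega) (by omega) hx hW hx1
  refine hraw.trans ?_
  gcongr
  have hAy : 0 ≤ A * y ^ q := by positivity
  calc _ ≤ ENNReal.ofReal (A * y ^ q) * (ENNReal.ofReal (q / y) * ENNReal.ofReal (CK * D)
        + ENNReal.ofReal r2) := by gcongr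
    _ = ENNReal.ofReal (A * D ^ q * ((CK / q ^ 2) ^ q * (q ^ 3 + r2))) := by
      rw [← ENNReal.ofReal_mul (by positivity), e2,
        ← ENNReal.ofReal_add (by positivity) h2, ← ENNReal.ofReal_mul hAy, e1]
      congr 1
      ring

/-- numerical facts about the exponent -/
theorem exp_facts {q : ℝ} (hq : 0 < q) (hq1 : q ≤ 1 / 64) :
    0 < (q ^ 2 + 2 * q) / (1 - q) ∧ (q ^ 2 + 2 * q) / (1 - q) ≤ 4 := by
  have h : 0 < 1 - q := by linarith
  constructor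
  · positivity
  · rw [div_le_iff₀ h]
    nlinarith

/-- overshoot, numerical form -/
theorem over_num {N n : ℕ} {Co : ℝ} (hCo : 0 < Co)
    (hov : ∀ (x0 : ℝ≥0), 0 < x0 → ∀ (a : ℝ), 0 < a → a ≤ 4 → ∀ n ≤ 4 * N, ∀ W : G → ℝ≥0,
        x0 ≤ mass W →
        St p m x0 n (fun _ => 0) (nm a) W
          ≤ ENNReal.ofReal ((2 / (x0 : ℝ)) ^ a) * St p m x0 n (fun _ => 0) (fun _ => 1) W
            + ENNReal.ofReal (Co * Real.sqrt s * (x0 : ℝ) ^ (-(a + 2)) * KK p s n W))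
    (hs : 0 < s) (hn : n ≤ 4 * N) {x0 : ℝ≥0} (hx : 0 < x0) (hx1 : x0 ≤ 1) {a' : ℝ} (ha : 0 < a')
    (ha1 : a' ≤ 4) {W : G → ℝ≥0} (hW : mass W = 1) {P κ : ℝ} (hP : 0 ≤ P)
    (hPe : St p m x0 n (fun _ => 0) (fun _ => 1) W ≤ ENNReal.ofReal P)
    (hK : KK p s n W ≤ κ) :
    St p m x0 n (fun _ => 0) (nm a') W ≤
      ENNReal.ofReal ((2 / (x0 : ℝ)) ^ a' * P + Co * Real.sqrt s * (1 / (x0 : ℝ)) ^ 6 * κ) := by
  have hx0 : (0 : ℝ) < x0 := by exact_mod_cast hx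
  have hx1' : (x0 : ℝ) ≤ 1 := by exact_mod_cast hx1
  have hK0 := KK_nonneg (p := p) hs.le n W
  refine (hov x0 hx a' ha ha1 n hn W (by rw [hW]; exact hx1)).trans ?_
  have hκ := hK0.trans hK
  rw [ENNReal.ofReal_add (by positivity) (by positivity),
    ENNReal.ofReal_mul (p := (2 / (x0 : ℝ)) ^ a') (by positivity)]
  refine add_le_add (by gcongr) (ENNReal.ofReal_le_ofReal ?_)
  have : (x0 : ℝ) ^ (-(a' + 2)) ≤ (1 / (x0 : ℝ)) ^ 6 := by
    have h6 : (x0 : ℝ) ^ (-(a' + 2)) ≤ (x0 : ℝ) ^ (-(6 : ℝ)) :=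
      Real.rpow_le_rpow_of_exponent_ge hx0 hx1' (by linarith)
    refine h6.trans (le_of_eq ?_)
    rw [Real.rpow_neg hx0.le, one_div, inv_pow]
    norm_num
  gcongr

end Pool.A2F.Cr
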