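import Pool.Agent.A2F.Two2
import Pool.Agent.A2F.WinB

/-!
# Module Crude, part K: bounds of K in the critical window
-/

set_option autoImplicit false

open Finset
open scoped ENNReal NNReal

noncomputable section

namespace Pool.A2F.Cr

variable {G : Type} [Fintype G] [DecidableEq G] [AddCommGroup G]
variable {p : G → ℝ≥0} {N : ℕ} {s Θ cU CU : ℝ}

/-- the energy below half the scale is controlled by K. -/
theorem energy_half_le (hf : WinFacts Θ N s cU CU) (hcU : 0 < cU) {t : ℕ} (ht : 2 * t ≤ N)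
    (W : G → ℝ≥0) : ∑ k ∈ range t, aa p W (k + 1) ≤ KK p s N W / cU := by
  have hs := hf.s_pos
  rw [le_div_iff₀ hcU, sum_mul]
  unfold KK
  rw [mul_sum]
  have hU : ∀ i, 0 ≤ UU s i := fun i => le_trans zero_le_one (one_le_UU hs.le i)
  calc ∑ k ∈ range t, aa p W (k + 1) * cU
      ≤ ∑ k ∈ range t, s * (aa p W (k + 1) * UU s (N - 1 - k)) := by
        refine sum_le_sum fun k hk => ?_
        have hk' := mem_range.1 hk
        have h1 := hf.le_sUU (N - 1 - k) (by omega)
        have h2 := mul_le_mul_of_nonneg_left h1 (aa_nonneg (p := p) W (k + 1))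
        linarith
    _ ≤ ∑ k ∈ range N, s * (aa p W (k + 1) * UU s (N - 1 - k)) := by
        refine sum_le_sum_of_subset_of_nonneg (range_mono (by omega)) fun k _ _ => ?_
        exact mul_nonneg hs.le (mul_nonneg (aa_nonneg W _) (hU _))

/-- (K1) doubling -/
theorem K_double (hf : WinFacts Θ N s cU CU) (hcU : 0 < cU) (hCU : 0 < CU) (hN : 10 ≤ N)
    (hw : Walk p (4 * N)) {n : ℕ} (hn : n ≤ N) {W : G → ℝ≥0} (hW : mass W = 1) :
    1 + KK p s (N + n) W ≤ (1 + CU + CU / cU) * (1 + KK p s N W) := by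
  have hs := hf.s_pos
  have hKN := KK_nonneg (p := p) hs.le N W
  have h1 := KK_le hw hs (t := N / 2) (b := N + n) (by omega) (by omega) W
  have h2 := energy_half_le (p := p) hf hcU (t := N / 2) (by omega) W
  have h3 := RR_sub_le (m := N / 2) (n := N + n) (by omega) (by omega)
  have h4 : RR (N + n) - RR (N / 2) ≤ 1 := by
    have hN2 : (N : ℝ) - 1 ≤ 2 * ((N / 2 : ℕ) : ℝ) := by
      have : N ≤ 2 * (N / 2) + 1 := by omega
      have h : (N : ℝ) ≤ 2 * ((N / 2 : ℕ) : ℝ) + 1 := by exact_mod_cast this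
      linarith
    have hN10 : (10 : ℝ) ≤ N := by exact_mod_cast hN
    have hnN : (n : ℝ) ≤ N := by exact_mod_cast hn
    have hpos : (0 : ℝ) < ((N / 2 : ℕ) : ℝ) := by linarith
    have h5 : (((N + n : ℕ) : ℝ)) / ((N / 2 : ℕ) : ℝ) ≤ 5 := by
      rw [div_le_iff₀ hpos]
      push_cast
      push_cast at hN2
      linarith
    have h6 : Real.log ((((N + n : ℕ) : ℝ)) / ((N / 2 : ℕ) : ℝ)) ≤ 3 := by
      have h7 : (((N + n : ℕ) : ℝ)) / ((N / 2 : ℕ) : ℝ) ≤ Real.exp 3 := by
        have := Real.add_one_le_exp (3 : ℝ)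
        have h8 : Real.exp 3 = Real.exp 1 * Real.exp 2 := by rw [← Real.exp_add]; norm_num
        have h9 := Real.add_one_le_exp (1 : ℝ)
        have h10 := Real.add_one_le_exp (2 : ℝ)
        nlinarith [Real.exp_pos 1, Real.exp_pos 2]
      have h11 : 0 < (((N + n : ℕ) : ℝ)) / ((N / 2 : ℕ) : ℝ) := by
        apply div_pos _ hpos
        push_cast
        positivity
      calc Real.log ((((N + n : ℕ) : ℝ)) / ((N / 2 : ℕ) : ℝ)) ≤ Real.log (Real.exp 3) :=
            Real.log_le_log h11 h7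
        _ = 3 := Real.log_exp 3
    have hpi := Real.pi_gt_three
    have h12 : Real.pi * (RR (N + n) - RR (N / 2)) ≤ Real.pi * 1 := by linarith
    exact le_of_mul_le_mul_left h12 Real.pi_pos
  rw [hW, NNReal.coe_one, one_pow, mul_one] at h1
  have h5 := hf.sUU_le (N + n) (by omega)
  have hE : 0 ≤ ∑ k ∈ range (N / 2), aa p W (k + 1) := sum_nonneg fun k _ => aa_nonneg W _
  have hRR : 0 ≤ RR (N + n) - RR (N / 2) := sub_nonneg.2 (RR_mono (by omega))
  have h6 : KK p s (N + n) W ≤ CU * (KK p s N W / cU + 1) := by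
    refine h1.trans ?_
    apply mul_le_mul h5 (by linarith) (by linarith) hCU.le
  have h7 : CU * (KK p s N W / cU + 1) = CU / cU * KK p s N W + CU := by
    field_simp
  have h8 : 0 < CU / cU := by positivity
  nlinarith

/-- (K2) total energy of a regular measure -/
theorem D_reg (hf : WinFacts Θ N s cU CU) (hcU : 0 < cU) (hCU : 0 < CU) (hΘ : 0 ≤ Θ)
    (hw : Walk p (4 * N)) {t : ℕ} (ht1 : 1 ≤ t) (ht : t ≤ N) {M : ℝ} (hM : 1 ≤ M)
    {W : G → ℝ≥0} (hW : mass W = 1) (hR : Rz p t W ≤ M) :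
    1 + KK p s N W ≤ 1 + CU / Real.pi * (2 * Real.log (1 + M) + 7 + 2 * Θ + rho s t) := by
  have hs := hf.s_pos
  have hpi := Real.pi_pos
  have h1 := KK_le hw hs (t := t) (b := N) ht (by omega) W
  have h2 := energy_le hw (t := t) (by omega) hM (W := W) (by
    rw [hW, NNReal.coe_one, one_pow, mul_one]; exact hR)
  rw [hW, NNReal.coe_one, one_pow, mul_one] at h1 h2
  have h3 := hf.le_rho N (by omega) le_rfl
  have hN0 : (0 : ℝ) < N := by
    have : 0 < N := by omega
    exact_mod_cast this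
  rw [div_self hN0.ne', Real.log_one] at h3
  have h4 : Real.pi * (RR N - RR t) = rho s t - rho s N := by
    unfold rho
    ring
  have h5 := hf.sUU_le N (by omega)
  have hE : 0 ≤ ∑ k ∈ range t, aa p W (k + 1) := sum_nonneg fun k _ => aa_nonneg W _
  have hRR : 0 ≤ RR N - RR t := sub_nonneg.2 (RR_mono ht)
  have h6 : Real.pi * (∑ k ∈ range t, aa p W (k + 1) + (RR N - RR t))
      ≤ 2 * Real.log (1 + M) + 7 + 2 * Θ + rho s t := by
    rw [mul_add, h4]
    linarith
  have h7 : KK p s N W ≤ CU * (∑ k ∈ range t, aa p W (k + 1) + (RR N - RR t)) :=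
    h1.trans (mul_le_mul_of_nonneg_right h5 (by positivity))
  have h8 : CU * (∑ k ∈ range t, aa p W (k + 1) + (RR N - RR t))
      = CU / Real.pi * (Real.pi * (∑ k ∈ range t, aa p W (k + 1) + (RR N - RR t))) := by
    field_simp
  have h9 := mul_le_mul_of_nonneg_left h6 (div_pos hCU hpi).le
  linarith

/-- (K3) K at a small scale in terms of K at the full scale -/
theorem K_gen (hf : WinFacts Θ N s cU CU) (hcU : 0 < cU) (hw : Walk p (4 * N)) {b : ℕ}
    (hb : 2 * b ≤ N) (hρ : 0 < rho s b) {W : G → ℝ≥0} (hW : mass W = 1) :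
    KK p s b W ≤ Real.pi / rho s b * (KK p s N W / cU) := by
  have hs := hf.s_pos
  have h1 := energy_half_le (p := p) hf hcU (t := b) hb W
  have h2 := sUU_le hs hρ
  have hE : 0 ≤ ∑ k ∈ range b, aa p W (k + 1) := sum_nonneg fun k _ => aa_nonneg W _
  have h3 : KK p s b W ≤ s * UU s b * ∑ k ∈ range b, aa p W (k + 1) := by
    unfold KK
    rw [mul_assoc]
    refine mul_le_mul_of_nonneg_left ?_ hs.le
    rw [mul_sum]
    refine sum_le_sum fun k _ => ?_
    rw [mul_comm]
    exact mul_le_mul_of_nonneg_right (UU_mono hs.le (by omega)) (aa_nonneg W _)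
  refine h3.trans ?_
  exact mul_le_mul h2 h1 hE (by positivity)

/-- (K4) K at the level pi / (2 s) -/
theorem K_top (hs : 0 < s) (hs1 : s ≤ 1 / 4) {n0 : ℕ} (hw : Walk p n0) {b : ℕ} (hb : b ≤ n0)
    (h1 : Real.pi / (2 * s) - 1 ≤ rho s b) {W : G → ℝ≥0} (hW : mass W = 1) :
    KK p s b W ≤ 2 := by
  have hpi := Real.pi_gt_three
  have hU : ∀ i, 0 ≤ UU s i := fun i => le_trans zero_le_one (one_le_UU hs.le i)
  have h2 : KK p s b W ≤ UU s b - 1 := by
    have h3 := UU_eq s b
    have h4 : KK p s b W ≤ s * ∑ k ∈ range b, uu (k + 1) * UU s (b - 1 - k) := by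
      unfold KK
      refine mul_le_mul_of_nonneg_left ?_ hs.le
      refine sum_le_sum fun k hk => ?_
      have hk' := mem_range.1 hk
      have h5 := aa_le hw (k := k + 1) (by omega) W
      rw [hW, NNReal.coe_one, one_pow, mul_one] at h5
      exact mul_le_mul_of_nonneg_right h5 (hU _)
    linarith
  have h6 : 0 < Real.pi / (2 * s) - 1 := by
    rw [sub_pos, lt_div_iff₀ (by positivity)]
    linarith
  have h7 : 0 < rho s b := lt_of_lt_of_le h6 h1
  have h8 := sUU_le hs h7
  have h9 : s * UU s b ≤ s * 3 := by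
    refine h8.trans ?_
    rw [div_le_iff₀ h7]
    have h10 : s * 3 * (Real.pi / (2 * s) - 1) ≤ s * 3 * rho s b :=
      mul_le_mul_of_nonneg_left h1 (by positivity)
    have h11 : s * 3 * (Real.pi / (2 * s) - 1) = 3 / 2 * Real.pi - 3 * s := by
      field_simp
    nlinarith
  have h12 : UU s b ≤ 3 := le_of_mul_le_mul_left h9 hs
  linarith

end Pool.A2F.Cr
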