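import Pool.Agent.A2F.Crude3
import Pool.Agent.A2F.CrudeK

/-!
# Module Crude, part 4: the context; small blocks and the base case
-/

set_option autoImplicit false
set_option linter.unusedSectionVars false
set_option linter.style.haveILetI false

open MeasureTheory Finset
open scoped ENNReal NNReal

noncomputable section

namespace Pool.A2F.Cr

variable {G : Type} [Fintype G] [DecidableEq G] [AddCommGroup G]

/-- The parameters. -/
structure Par (CK CR cU Θ q δ M r0 D0 Λ : ℝ) : Prop where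
  q_pos : 0 < q
  q_le : q ≤ 1 / 64
  δ_pos : 0 < δ
  δ_le : δ ≤ 1 / 2
  M_one : 1 ≤ M
  Mq : 1161216 ≤ M * q ^ 3
  r0_ge : 2 * Θ + 20 ≤ r0
  reg : ∀ r, r0 ≤ r → 2 * Real.log (1 + M) + 6 + δ * r ≤ 2 * δ * (r - 1)
  logM : 2 * Real.log (1 + M) ≤ r0
  D0_eq : D0 = 2 * CR * r0
  exp1 : 4 * Real.exp (-(1 / (320 * δ))) ≤ q ^ 3
  kap : 2 * Real.pi / (r0 * cU) ≤ 1
  exp2 : 4 * Real.exp (-(r0 * cU / (320 * Real.pi))) ≤ q ^ 3
  Λ_one : 1 ≤ Λ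
  Λ_three : Λ ^ 3 ≤ 2
  CKq : (CK / q ^ 2) ^ q ≤ Λ
  D0a : (64 * D0) ^ ((q ^ 2 + 2 * q) / (1 - q)) ≤ Λ
  c192 : (192 : ℝ) ^ ((q ^ 2 + 2 * q) / (1 - q)) ≤ Λ
  CRq : CR ^ q ≤ Λ
  r0q : r0 ^ q ≤ Λ
  D0q : D0 ^ q ≤ Λ
  q8 : 1 + 8 * q ^ 2 ≤ Λ
  D0b : (32 * D0) ^ (q ^ 2) ≤ Λ
  c96 : (96 : ℝ) ^ (q ^ 2) ≤ Λ
  f1 : Λ ^ 2 * (1 - 1 / (8 * D0)) + 4 * q ^ 3 ≤ 1 - 1 / (16 * D0)
  f2 : (1 - 1 / (16 * D0)) * Λ + q ≤ 1
  f3 : ((1 - 1 / (16 * D0)) * Λ + q) * Λ ^ 2 + 10 * q ^ 3 ≤ 1 - 1 / (800 * D0)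
  f4 : Λ ^ 2 * (((1 - 1 / (16 * D0)) * Λ + q) / 24 + 23 / 24) + 6 * q ^ 3 ≤ 1 - 1 / (800 * D0)
  f5 : 20 * q ^ 2 ≤ 1 - (1 + δ) ^ (-q) * (1 + 16 * q ^ 2 * δ)

/-- Everything that is used about the environment. -/
structure Ctx (p : G → ℝ≥0) (m : Measure ℝ≥0) (N : ℕ) (s Θ C4 cU CU Co q δ M r0 D0 Λ : ℝ) :
    Prop where
  hw : Walk p (4 * N)
  hm : Law m s C4
  hΘ : 0 ≤ Θ
  hcU : 0 < cU
  hCU : 0 < CU
  hN : 10 ≤ N
  hf : WinFacts Θ N s cU CU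
  scale : ∀ r : ℝ, 2 * Θ + 2 ≤ r → r ≤ rho s 0 →
    ∃ t : ℕ, t ≤ N ∧ r ≤ rho s t ∧ rho s t < r + 1 ∧ rho s (t + 1) < r
  hCo : 0 < Co
  hov : ∀ (x0 : ℝ≥0), 0 < x0 → ∀ (a : ℝ), 0 < a → a ≤ 4 → ∀ n ≤ 4 * N, ∀ W : G → ℝ≥0,
        x0 ≤ mass W →
        St p m x0 n (fun _ => 0) (nm a) W
          ≤ ENNReal.ofReal ((2 / (x0 : ℝ)) ^ a) * St p m x0 n (fun _ => 0) (fun _ => 1) W
            + ENNReal.ofReal (Co * Real.sqrt s * (x0 : ℝ) ^ (-(a + 2)) * KK p s n W)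
  par : Par (1 + CU + CU / cU) (1 + CU) cU Θ q δ M r0 D0 Λ
  hs4 : s ≤ 1 / 4
  hsm : Co * Real.sqrt s * (96 ^ 6 * 2 + (32 * D0) ^ 6 * D0) ≤ q ^ 3
  htop : r0 ≤ Real.pi / (2 * s)

variable {p : G → ℝ≥0} {m : Measure ℝ≥0} {N : ℕ} {s Θ C4 cU CU Co q δ M r0 D0 Λ : ℝ}

theorem Par.D0_ge {CK CR : ℝ} (h : Par CK CR cU Θ q δ M r0 D0 Λ) (hCR : 1 ≤ CR) (hΘ : 0 ≤ Θ) :
    40 ≤ D0 := by
  have h1 := h.r0_ge
  have h2 := h.D0_eq
  nlinarith

theorem Par.Λ_two {CK CR : ℝ} (h : Par CK CR cU Θ q δ M r0 D0 Λ) : Λ ≤ 2 := by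
  have h1 := h.Λ_one
  have h2 := h.Λ_three
  nlinarith [mul_nonneg (sub_nonneg.2 h1) (sub_nonneg.2 h1)]

theorem Par.four {CK CR : ℝ} (h : Par CK CR cU Θ q δ M r0 D0 Λ) :
    (4 : ℝ) ^ ((q ^ 2 + 2 * q) / (1 - q)) ≤ Λ :=
  (Real.rpow_le_rpow (by norm_num) (by norm_num) (exp_facts h.q_pos h.q_le).1.le).trans h.c192

/-- small block -/
theorem small_block (c : Ctx p m N s Θ C4 cU CU Co q δ M r0 D0 Λ) {A : ℝ} (hA : 0 < A)
    (hH : Hyp p m s (q ^ 2) q N A) {b : ℕ} (hb1 : 1 ≤ b) (hb : b ≤ N) (hρ : 8 ≤ rho s b)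
    (hR : 1 / 2 ≤ s * RR b) {κ : ℝ} (hκ : 0 < κ) (hκ1 : κ ≤ 1)
    (he : 4 * Real.exp (-(1 / (160 * κ))) ≤ q ^ 3) {X : ℝ} (hX0 : 0 ≤ X)
    (hX : ∀ V : G → ℝ≥0, mass V = 1 → Rz p b V ≤ M →
      (TT p m)^[N] (nm (q ^ 2)) V ≤ ENNReal.ofReal X)
    {W : G → ℝ≥0} (hW : mass W = 1) (hK : KK p s b W ≤ κ) :
    (TT p m)^[N] (nm (q ^ 2)) W
      ≤ ENNReal.ofReal (X * (1 + 8 * q ^ 2 * κ) + A * (1 + KK p s N W) ^ q * (10 * q ^ 3)) := by
  have hP := c.par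
  have hq := hP.q_pos
  have hqs := hP.q_le
  have hq1 : q < 1 := by linarith
  have hs := c.hm.s_pos
  have hΛ1 := hP.Λ_one
  have hΛ2 := hP.Λ_two
  have hM1 := hP.M_one
  have hM0 : 0 < M := by linarith
  have hMq := hP.Mq
  have hcU := c.hcU
  have hCU := c.hCU
  have hCo := c.hCo
  have hN := c.hN
  have hD0 : 40 ≤ D0 := hP.D0_ge (by linarith) c.hΘ
  haveI := c.hm.prob
  obtain ⟨ha1, ha2⟩ := exp_facts hq hqs
  obtain ⟨x0, hx0⟩ : ∃ x0 : ℝ≥0, x0 = Real.toNNReal (1 - 2 * (1 / 4)) := ⟨_, rfl⟩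
  have hxv : (x0 : ℝ) = 1 / 2 := by
    rw [hx0, Real.coe_toNNReal _ (by norm_num)]; norm_num
  have hx : 0 < x0 := by
    have : (0 : ℝ) < x0 := by rw [hxv]; norm_num
    exact_mod_cast this
  have hx1 : x0 ≤ 1 := by
    have : (x0 : ℝ) ≤ 1 := by rw [hxv]; norm_num
    exact_mod_cast this
  have hCK : 1 ≤ 1 + CU + CU / cU := by
    have : 0 < CU / cU := by positivity
    linarith
  have hK2 := K_double c.hf hcU hCU hN c.hw hb hW
  have hex : St p m x0 b (fun _ => 0) (fun _ => 1) W ≤ ENNReal.ofReal (q ^ 3) := by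
    rw [hx0]
    refine (exit_le c.hw c.hm (b := b) (by omega) hR hW hκ hK (η := 1 / 4) (by norm_num)
      (by norm_num)).trans (ENNReal.ofReal_le_ofReal ?_)
    have : -((1 / 4 : ℝ) ^ 2 / (10 * κ)) = -(1 / (160 * κ)) := by
      field_simp
      norm_num
    rw [this]
    linarith
  have hr2 := over_num c.hCo c.hov hs (n := b) (by omega) hx hx1 ha1 ha2 hW (P := q ^ 3) (κ := κ)
    (by positivity) hex hK
  have hr1 := irregular_le c.hw c.hm hb1 (by omega) hρ hx hM0 hW hx1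
  have hr1' : St p m x0 b (fun V => if M * (mass V : ℝ) ^ 2 < Rz p b V then 1 else 0)
      (fun _ => 0) W ≤ ENNReal.ofReal (q ^ 3 / 2) := by
    refine hr1.trans (ENNReal.ofReal_le_ofReal ?_)
    rw [hxv, div_le_iff₀ (by positivity)]
    have e : q ^ 3 / 2 * (M * (1 / 2) ^ 2) = M * q ^ 3 / 8 := by ring
    rw [e]
    linarith
  have hblk := block_num c.hw c.hm (by omega) hb hq hq1 (by positivity) hA hCK hH hx hX hW hx1 hK2
    (by positivity) (by rw [hxv]; positivity) hr1' hr2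
  have hsv := block_nm c.hw c.hm (b := b) (by omega) hW (a := q ^ 2) (by positivity)
    (by nlinarith) (η := 1 / 4) (by norm_num) (by norm_num)
  rw [← hx0] at hsv
  have hK0 := KK_nonneg (p := p) hs.le b W
  have hsv' : St p m x0 b (nm (q ^ 2)) (fun _ => 0) W ≤ ENNReal.ofReal (1 + 8 * q ^ 2 * κ) := by
    refine hsv.trans ?_
    rw [ENNReal.ofReal_add (by norm_num) (by positivity), ENNReal.ofReal_one]
    refine add_le_add ?_ (ENNReal.ofReal_le_ofReal ?_)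
    · exact le_self_add.trans (le_of_eq (St_split_one (p := p) (m := m) x0 b W))
    · have e1 : q ^ 2 * (q ^ 2 + 1) / 2 * (1 - 2 * (1 / 4 : ℝ))⁻¹ ^ 3 * KK p s b W
          = 4 * q ^ 2 * (q ^ 2 + 1) * KK p s b W := by
        rw [show (1 - 2 * (1 / 4 : ℝ))⁻¹ = 2 by norm_num]
        ring
      rw [e1]
      have hqq : q ^ 2 + 1 ≤ 2 := by nlinarith
      have h1 : 4 * q ^ 2 * (q ^ 2 + 1) ≤ 8 * q ^ 2 := by
        have := mul_le_mul_of_nonneg_left hqq (show (0 : ℝ) ≤ 4 * q ^ 2 by positivity)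
        linarith
      exact mul_le_mul h1 hK hK0 (by positivity)
  refine hblk.trans ?_
  have hD0' : 0 ≤ A * (1 + KK p s N W) ^ q := by
    have := KK_nonneg (p := p) hs.le N W
    positivity
  rw [ENNReal.ofReal_add (by positivity) (by positivity), ENNReal.ofReal_mul hX0]
  refine add_le_add (by gcongr) (ENNReal.ofReal_le_ofReal ?_)
  refine mul_le_mul_of_nonneg_left ?_ hD0'
  rw [hxv]
  have e4 : (2 / (1 / 2 : ℝ)) = 4 := by norm_num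
  have e2 : ((1 / 2 : ℝ)) ^ (-((q ^ 2 + 2 * q) / (1 - q))) ≤ Λ := by
    rw [show (1 / 2 : ℝ) = (2 : ℝ)⁻¹ by norm_num, Real.inv_rpow (by norm_num),
      ← Real.rpow_neg (by norm_num), neg_neg]
    exact (Real.rpow_le_rpow (by norm_num) (by norm_num) ha1.le).trans hP.four
  have hsm : Co * Real.sqrt s * (1 / (1 / 2 : ℝ)) ^ 6 * κ ≤ q ^ 3 := by
    refine le_trans ?_ c.hsm
    have hsq := Real.sqrt_nonneg s
    have h64 : (1 / (1 / 2 : ℝ)) ^ 6 = 64 := by norm_num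
    rw [h64, mul_assoc]
    refine mul_le_mul_of_nonneg_left ?_ (by positivity)
    have : 0 ≤ (32 * D0) ^ 6 * D0 := by positivity
    linarith
  rw [e4]
  have h4 := hP.four
  have h5 : q ^ 3 + (1 / 2 : ℝ) ^ (-((q ^ 2 + 2 * q) / (1 - q))) * (q ^ 3 / 2)
      + ((4 : ℝ) ^ ((q ^ 2 + 2 * q) / (1 - q)) * q ^ 3 + Co * Real.sqrt s * (1 / (1 / 2 : ℝ)) ^ 6 * κ)
      ≤ 5 * q ^ 3 := by
    have hq3 : 0 < q ^ 3 := by positivity
    have h6 := mul_le_mul_of_nonneg_right (e2.trans hΛ2) (show 0 ≤ q ^ 3 / 2 by positivity)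
    have h7 := mul_le_mul_of_nonneg_right (h4.trans hΛ2) hq3.le
    linarith
  calc ((1 + CU + CU / cU) / q ^ 2) ^ q * _ ≤ Λ * (5 * q ^ 3) :=
        mul_le_mul hP.CKq h5 (by positivity) (by linarith)
    _ ≤ 10 * q ^ 3 := by
      have hq3 : 0 < q ^ 3 := by positivity
      have := mul_le_mul_of_nonneg_right hΛ2 hq3.le
      linarith

/-- base case: bounded total energy -/
theorem base_step (c : Ctx p m N s Θ C4 cU CU Co q δ M r0 D0 Λ) {A : ℝ} (hA : 0 < A)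
    (hH : Hyp p m s (q ^ 2) q N A) {W : G → ℝ≥0} (hW : mass W = 1)
    (hD : 1 + KK p s N W ≤ D0) :
    (TT p m)^[N] (nm (q ^ 2)) W
      ≤ ENNReal.ofReal ((Λ + (1 - 1 / (16 * D0)) * A) * (1 + KK p s N W) ^ q) := by
  have hP := c.par
  have hq := hP.q_pos
  have hqs := hP.q_le
  have hq1 : q < 1 := by linarith
  have hs := c.hm.s_pos
  have hΛ1 := hP.Λ_one
  have hΛ2 := hP.Λ_two
  have hcU := c.hcU
  have hCU := c.hCU
  have hCo := c.hCo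
  have hN := c.hN
  have hD0 : 40 ≤ D0 := hP.D0_ge (by linarith) c.hΘ
  haveI := c.hm.prob
  obtain ⟨ha1, ha2⟩ := exp_facts hq hqs
  obtain ⟨x0, hx0⟩ : ∃ x0 : ℝ≥0, x0 = Real.toNNReal (1 / (32 * D0)) := ⟨_, rfl⟩
  have hxv : (x0 : ℝ) = 1 / (32 * D0) := by
    rw [hx0, Real.coe_toNNReal _ (by positivity)]
  have hx : 0 < x0 := by
    have : (0 : ℝ) < x0 := by rw [hxv]; positivity
    exact_mod_cast this
  have hx1 : x0 ≤ 1 := by
    have : (x0 : ℝ) ≤ 1 := by rw [hxv, div_le_one (by positivity)]; linarith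
    exact_mod_cast this
  have hCK : 1 ≤ 1 + CU + CU / cU := by
    have : 0 < CU / cU := by positivity
    linarith
  have hK2 := K_double c.hf hcU hCU hN c.hw le_rfl hW
  have hex := pz_exit c.hw c.hm (n := N) (by omega) hW hD
  rw [← hx0] at hex
  have hPn : 0 ≤ 1 - 1 / (8 * D0) := by
    rw [sub_nonneg, div_le_one (by positivity)]; linarith
  have hr2 := over_num c.hCo c.hov hs (n := N) (by omega) hx hx1 ha1 ha2 hW (P := 1 - 1 / (8 * D0))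
    (κ := D0) hPn hex (by linarith)
  have hb := base_num c.hw c.hm (by omega) hq hq1 (by positivity) hA hCK hH hx hW hx1 hK2
    (by rw [hxv]; positivity) hr2
  refine hb.trans ?_
  have hK0 := KK_nonneg (p := p) hs.le N W
  have hD1 : 1 ≤ (1 + KK p s N W) ^ q := Real.one_le_rpow (by linarith) hq.le
  rw [← ENNReal.ofReal_add (by positivity) (by rw [hxv]; positivity)]
  apply ENNReal.ofReal_le_ofReal
  rw [hxv]
  have e1 : ((1 / (32 * D0) : ℝ)) ^ (-(q ^ 2)) = (32 * D0) ^ (q ^ 2) := by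
    rw [one_div, Real.inv_rpow (by positivity), ← Real.rpow_neg (by positivity), neg_neg]
  have e2 : (2 / (1 / (32 * D0)) : ℝ) = 64 * D0 := by field_simp; norm_num
  have e3 : (1 / (1 / (32 * D0)) : ℝ) = 32 * D0 := by field_simp
  rw [e1, e2, e3]
  have hsm : Co * Real.sqrt s * (32 * D0) ^ 6 * D0 ≤ q ^ 3 := by
    refine le_trans ?_ c.hsm
    have hsq := Real.sqrt_nonneg s
    rw [mul_assoc]
    refine mul_le_mul_of_nonneg_left ?_ (by positivity)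
    linarith
  have h1 := hP.D0b
  have h2 := hP.CKq
  have h3 := hP.D0a
  have h4 := hP.f1
  have hq3 : 0 < q ^ 3 := by positivity
  have h5 : q ^ 3 + ((64 * D0) ^ ((q ^ 2 + 2 * q) / (1 - q)) * (1 - 1 / (8 * D0))
      + Co * Real.sqrt s * (32 * D0) ^ 6 * D0) ≤ Λ * (1 - 1 / (8 * D0)) + 2 * q ^ 3 := by
    have := mul_le_mul_of_nonneg_right h3 hPn
    linarith
  have h6 : ((1 + CU + CU / cU) / q ^ 2) ^ q * (q ^ 3 +
      ((64 * D0) ^ ((q ^ 2 + 2 * q) / (1 - q)) * (1 - 1 / (8 * D0))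
      + Co * Real.sqrt s * (32 * D0) ^ 6 * D0)) ≤ 1 - 1 / (16 * D0) := by
    calc _ ≤ Λ * (Λ * (1 - 1 / (8 * D0)) + 2 * q ^ 3) :=
          mul_le_mul h2 h5 (by positivity) (by linarith)
      _ = Λ ^ 2 * (1 - 1 / (8 * D0)) + 2 * (Λ * q ^ 3) := by ring
      _ ≤ 1 - 1 / (16 * D0) := by
        have := mul_le_mul_of_nonneg_right hΛ2 hq3.le
        linarith
  have h7 := mul_le_mul_of_nonneg_left h6 (show 0 ≤ A * (1 + KK p s N W) ^ q by positivity)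
  have h8 : Λ ≤ Λ * (1 + KK p s N W) ^ q := le_mul_of_one_le_right (by linarith) hD1
  linarith

/-- constant of the regular case -/
def HH (q D0 Λ A : ℝ) : ℝ := (Λ + (1 - 1 / (16 * D0)) * A) * Λ + q * A

end Pool.A2F.Cr
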