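import Pool.Agent.A2F.Crude4

/-!
# Module Crude, part 5: regular starting measures
-/

set_option autoImplicit false
set_option linter.unusedSectionVars false
set_option linter.style.haveILetI false

open MeasureTheory Finset
open scoped ENNReal NNReal

noncomputable section

namespace Pool.A2F.Cr

variable {G : Type} [Fintype G] [DecidableEq G] [AddCommGroup G]
variable {p : G → ℝ≥0} {m : Measure ℝ≥0} {N : ℕ} {s Θ C4 cU CU Co q δ M r0 D0 Λ : ℝ}

/-- regular starting measures -/
theorem regular (c : Ctx p m N s Θ C4 cU CU Co q δ M r0 D0 Λ) {A : ℝ} (hA : 0 < A)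
    (hH : Hyp p m s (q ^ 2) q N A) {t : ℕ} (ht1 : 1 ≤ t) (ht : t ≤ N)
    (hρ : rho s t ≤ Real.pi / (2 * s)) {V : G → ℝ≥0} (hV : mass V = 1) (hR : Rz p t V ≤ M) :
    (TT p m)^[N] (nm (q ^ 2)) V ≤ ENNReal.ofReal (HH q D0 Λ A * (max r0 (rho s t)) ^ q) := by
  have hs := c.hf.s_pos
  have hpi := Real.pi_gt_three
  have hq := c.par.q_pos
  have hδ := c.par.δ_pos
  have hδ1 := c.par.δ_le
  have hCU := c.hCU
  have hΘ := c.hΘ
  have hr0 : 20 ≤ r0 := by have := c.par.r0_ge; linarith
  have hD0 : 40 ≤ D0 := c.par.D0_ge (by linarith) hΘ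
  have hΛ1 := c.par.Λ_one
  have hΛ2 : Λ ≤ 2 := by
    have h3 := c.par.Λ_three
    nlinarith [sq_nonneg (Λ - 1)]
  have hlog : 0 ≤ Real.log (1 + M) := Real.log_nonneg (by have := c.par.M_one; linarith)
  have hcoef : 0 ≤ 1 - 1 / (16 * D0) := by
    have : 1 / (16 * D0) ≤ 1 := by
      rw [div_le_one (by positivity)]; linarith
    linarith
  have hHq : q * A ≤ HH q D0 Λ A := by
    have : 0 ≤ (Λ + (1 - 1 / (16 * D0)) * A) * Λ := by positivity
    unfold HH
    linarith
  have hH0 : 0 ≤ HH q D0 Λ A := le_trans (by positivity) hHq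
  induction hk : N - t using Nat.strong_induction_on generalizing t V with
  | _ k ih =>
    have hKN := KK_nonneg (p := p) hs.le N V
    have hDreg := D_reg c.hf c.hcU hCU hΘ c.hw ht1 ht c.par.M_one hV hR
    by_cases hcase : rho s t ≤ (1 + δ) * r0
    · -- small level: base case
      have hD : 1 + KK p s N V ≤ D0 := by
        have h1 : CU / Real.pi * (2 * Real.log (1 + M) + 7 + 2 * Θ + rho s t)
            ≤ CU / Real.pi * (7 / 2 * r0) := by
          apply mul_le_mul_of_nonneg_left _ (by positivity)
          have h2 := c.par.logM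
          have h3 := c.par.r0_ge
          nlinarith
        have h4 : CU / Real.pi * (7 / 2 * r0) ≤ CU * (2 * r0) := by
          rw [div_mul_eq_mul_div, div_le_iff₀ Real.pi_pos]
          have h5 : 0 < CU * r0 := by positivity
          nlinarith
        have h6 := c.par.D0_eq
        nlinarith
      have hb := base_step c hA hH hV hD
      refine hb.trans (ENNReal.ofReal_le_ofReal ?_)
      have h1 : (1 + KK p s N V) ^ q ≤ Λ :=
        (Real.rpow_le_rpow (by linarith) hD hq.le).trans c.par.D0q
      have h2 : 0 ≤ Λ + (1 - 1 / (16 * D0)) * A := by positivity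
      have h3 : 1 ≤ (max r0 (rho s t)) ^ q :=
        Real.one_le_rpow (le_trans (by linarith) (le_max_left _ _)) hq.le
      calc (Λ + (1 - 1 / (16 * D0)) * A) * (1 + KK p s N V) ^ q
          ≤ (Λ + (1 - 1 / (16 * D0)) * A) * Λ := mul_le_mul_of_nonneg_left h1 h2
        _ ≤ HH q D0 Λ A := by
            unfold HH
            have := mul_pos hq hA
            linarith
        _ ≤ HH q D0 Λ A * (max r0 (rho s t)) ^ q := le_mul_of_one_le_right hH0 h3
    · -- high level: one block
      rw [not_le] at hcase
      set R := rho s t with hRdef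
      have hR0 : 0 < R := lt_trans (by positivity) hcase
      have h1δ : 0 < 1 + δ := by linarith
      set r : ℝ := R / (1 + δ) with hr
      have hRr : R = (1 + δ) * r := by rw [hr]; field_simp
      have hrr0 : r0 < r := by
        rw [hr, lt_div_iff₀ h1δ]
        linarith
      have hrR : r < R := by nlinarith
      have hrho0 : rho s 0 = Real.pi / s := by
        unfold rho
        rw [RR_zero]
        ring
      have hhalf : Real.pi / (2 * s) ≤ Real.pi / s := by
        apply div_le_div_of_nonneg_left Real.pi_pos.le hs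
        linarith
      obtain ⟨b, hbN, hb1, hb2, -⟩ := c.scale (r - 1) (by have := c.par.r0_ge; linarith)
        (by rw [hrho0]; linarith)
      have hb2' : rho s b < r := by linarith
      have htb : t < b := by
        by_contra hcon
        have := rho_anti s (not_lt.1 hcon)
        linarith
      have hρb : 19 ≤ rho s b := by linarith
      have hρb0 : 0 < rho s b := by linarith
      have hRb : 1 / 2 ≤ s * RR b := by
        have h1 : rho s b < Real.pi / (2 * s) := by linarith
        unfold rho at h1
        have h2 : Real.pi / (2 * s) * (2 * s) = Real.pi := by field_simp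
        have h3 : Real.pi / s * (2 * s) = 2 * Real.pi := by field_simp
        have h4 : (Real.pi / s - Real.pi * RR b) * (2 * s) < Real.pi / (2 * s) * (2 * s) :=
          mul_lt_mul_of_pos_right h1 (by positivity)
        rw [h2, sub_mul, h3] at h4
        have h5 : Real.pi * (1 / 2) ≤ Real.pi * (s * RR b) := by nlinarith
        exact le_of_mul_le_mul_left h5 Real.pi_pos
      have hKb : KK p s b V ≤ 2 * δ := by
        have h1 := KK_le_of_regular c.hw hs htb.le (by omega : b ≤ 4 * N) hρb0 c.par.M_one
          (W := V) (by rw [hV, NNReal.coe_one, one_pow, mul_one]; exact hR)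
        rw [hV, NNReal.coe_one, one_pow, mul_one] at h1
        refine h1.trans ?_
        rw [div_le_iff₀ hρb0]
        have h2 := c.par.reg r hrr0.le
        have h3 : R - rho s b ≤ δ * r + 1 := by nlinarith
        have h4 : 2 * δ * (r - 1) ≤ 2 * δ * rho s b :=
          mul_le_mul_of_nonneg_left hb1 (by positivity)
        linarith
      have hX : ∀ V' : G → ℝ≥0, mass V' = 1 → Rz p b V' ≤ M →
          (TT p m)^[N] (nm (q ^ 2)) V' ≤ ENNReal.ofReal (HH q D0 Λ A * r ^ q) := by
        intro V' hV' hR'
        refine (ih (N - b) (by omega) (by omega) hbN (by linarith) hV' hR' rfl).trans ?_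
        apply ENNReal.ofReal_le_ofReal
        apply mul_le_mul_of_nonneg_left _ hH0
        apply Real.rpow_le_rpow (le_trans (by linarith) (le_max_left _ _)) _ hq.le
        exact max_le hrr0.le hb2'.le
      have hr00 : 0 < r := by linarith
      have hsb := small_block c hA hH (b := b) (by omega) hbN (by linarith) hRb (κ := 2 * δ)
        (by positivity) (by linarith) (by
          have h := c.par.exp1
          have e : 160 * (2 * δ) = 320 * δ := by ring
          rwa [e]) (X := HH q D0 Λ A * r ^ q) (by positivity) hX hV hKb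
      refine hsb.trans (ENNReal.ofReal_le_ofReal ?_)
      have hmax : max r0 R = R := max_eq_right (by linarith)
      rw [hmax]
      have hRq : 0 < R ^ q := Real.rpow_pos_of_pos hR0 _
      have hrq : r ^ q = R ^ q * (1 + δ) ^ (-q) := by
        rw [hr, Real.div_rpow hR0.le h1δ.le, Real.rpow_neg h1δ.le]
        rfl
      have hDq : (1 + KK p s N V) ^ q ≤ 2 * R ^ q := by
        have h1 : 1 + KK p s N V ≤ (1 + CU) * R := by
          have h2 : CU / Real.pi * (2 * Real.log (1 + M) + 7 + 2 * Θ + R)
              ≤ CU / Real.pi * (3 * R) := by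
            apply mul_le_mul_of_nonneg_left _ (by positivity)
            have h3 := c.par.logM
            have h4 := c.par.r0_ge
            linarith
          have h5 : CU / Real.pi * (3 * R) ≤ CU * R := by
            rw [div_mul_eq_mul_div, div_le_iff₀ Real.pi_pos]
            have h5 : 0 < CU * R := by positivity
            nlinarith
          linarith
        calc (1 + KK p s N V) ^ q ≤ ((1 + CU) * R) ^ q :=
              Real.rpow_le_rpow (by linarith) h1 hq.le
          _ = (1 + CU) ^ q * R ^ q := Real.mul_rpow (by linarith) hR0.le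
          _ ≤ 2 * R ^ q := mul_le_mul_of_nonneg_right (c.par.CRq.trans hΛ2) hRq.le
      have hf5 := c.par.f5
      rw [hrq]
      set g : ℝ := (1 + δ) ^ (-q) with hg
      set H := HH q D0 Λ A with hHdef
      have h1 : A * (1 + KK p s N V) ^ q * (10 * q ^ 3) ≤ A * (2 * R ^ q) * (10 * q ^ 3) := by
        gcongr
      have h2 : H * (R ^ q * g) * (1 + 8 * q ^ 2 * (2 * δ))
          = R ^ q * (H * (g * (1 + 16 * q ^ 2 * δ))) := by ring
      have h3 : A * (2 * R ^ q) * (10 * q ^ 3) = R ^ q * (q * A * (20 * q ^ 2)) := by ring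
      have h4 : q * A * (20 * q ^ 2) ≤ H * (20 * q ^ 2) :=
        mul_le_mul_of_nonneg_right hHq (by positivity)
      have h5 : H * (20 * q ^ 2) ≤ H * (1 - g * (1 + 16 * q ^ 2 * δ)) :=
        mul_le_mul_of_nonneg_left hf5 hH0
      have h6 : H * (g * (1 + 16 * q ^ 2 * δ)) + q * A * (20 * q ^ 2) ≤ H := by
        have : H * (1 - g * (1 + 16 * q ^ 2 * δ)) = H - H * (g * (1 + 16 * q ^ 2 * δ)) := by ring
        linarith
      have h7 := mul_le_mul_of_nonneg_left h6 hRq.le
      rw [mul_add] at h7
      linarith

end Pool.A2F.Cr
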