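import Pool.Agent.A2F.Crude5

/-!
# Module Crude, part 6: general starting measures, improvement of the constant
-/

set_option autoImplicit false
set_option linter.unusedSectionVars false
set_option linter.style.haveILetI false

open MeasureTheory Finset
open scoped ENNReal NNReal

noncomputable section

namespace Pool.A2F.Cr

variable {G : Type} [Fintype G] [DecidableEq G] [AddCommGroup G]
variable {p : G → ℝ≥0} {m : Measure ℝ≥0} {N : ℕ} {s Θ C4 cU CU Co q δ M r0 D0 Λ : ℝ}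

theorem rho_zero (s : ℝ) : rho s 0 = Real.pi / s := by simp [rho, RR]

theorem rho_lt_zero_pos {s : ℝ} (hs : 0 < s) {b : ℕ} (h : rho s b < Real.pi / (2 * s)) :
    1 ≤ b ∧ 1 / 2 ≤ s * RR b := by
  have hπ := Real.pi_pos
  have e : Real.pi / (2 * s) = Real.pi / s / 2 := by field_simp
  have h0 : 0 < Real.pi / s := by positivity
  constructor
  · rcases Nat.eq_zero_or_pos b with rfl | hb
    · rw [rho_zero, e] at h
      linarith
    · exact hb
  · unfold rho at h
    rw [e] at h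
    have h1 : Real.pi / s / 2 < Real.pi * RR b := by linarith
    have h2 : Real.pi / s / 2 = Real.pi * (1 / (2 * s)) := by field_simp
    rw [h2] at h1
    have h3 : 1 / (2 * s) < RR b := lt_of_mul_lt_mul_left h1 hπ.le
    rw [div_lt_iff₀ (by positivity)] at h3
    linarith

theorem HH_eq (q D0 Λ A : ℝ) : HH q D0 Λ A = Λ ^ 2 + ((1 - 1 / (16 * D0)) * Λ + q) * A := by
  unfold HH; ring

theorem HH_nonneg (c : Ctx p m N s Θ C4 cU CU Co q δ M r0 D0 Λ) {A : ℝ} (hA : 0 < A) :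
    0 ≤ HH q D0 Λ A := by
  have hP := c.par
  have hD0 : 40 ≤ D0 := hP.D0_ge (by linarith [c.hCU]) c.hΘ
  have hq := hP.q_pos
  have hΛ := hP.Λ_one
  have : 0 ≤ 1 - 1 / (16 * D0) := by
    rw [sub_nonneg, div_le_one (by positivity)]; linarith
  unfold HH
  positivity

theorem lam4 {CK CR : ℝ} (h : Par CK CR cU Θ q δ M r0 D0 Λ) : Λ ^ 4 ≤ 4 := by
  have h1 := h.Λ_three
  have h2 := h.Λ_two
  have h3 := h.Λ_one
  have : 0 ≤ Λ ^ 3 := by positivity
  calc Λ ^ 4 = Λ ^ 3 * Λ := by ring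
    _ ≤ 2 * 2 := mul_le_mul h1 h2 (by linarith) (by norm_num)
    _ = 4 := by norm_num

/-- energy not too large -/
theorem general (c : Ctx p m N s Θ C4 cU CU Co q δ M r0 D0 Λ) {A : ℝ} (hA : 0 < A)
    (hH : Hyp p m s (q ^ 2) q N A) {W : G → ℝ≥0} (hW : mass W = 1)
    (hD : r0 * (1 + KK p s N W) ≤ Real.pi / (2 * s)) :
    (TT p m)^[N] (nm (q ^ 2)) W
      ≤ ENNReal.ofReal ((4 + (1 - 1 / (800 * D0)) * A) * (1 + KK p s N W) ^ q) := by
  have hP := c.par
  have hq := hP.q_pos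
  have hs := c.hm.s_pos
  have hΘ := c.hΘ
  have hcU := c.hcU
  have hπ := Real.pi_pos
  have hr0 := hP.r0_ge
  have hr00 : 20 ≤ r0 := by linarith
  have hK0 := KK_nonneg (p := p) hs.le N W
  have hΛ1 := hP.Λ_one
  obtain ⟨D, hDe⟩ : ∃ D, D = 1 + KK p s N W := ⟨_, rfl⟩
  rw [← hDe] at hD ⊢
  have hD1 : 1 ≤ D := by linarith
  have hrD : r0 ≤ r0 * D := le_mul_of_one_le_right (by linarith) hD1
  have htwo : Real.pi / (2 * s) ≤ Real.pi / s := by
    apply div_le_div_of_nonneg_left hπ.le hs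
    linarith
  obtain ⟨b, hbN, hb1, hb2, -⟩ := c.scale (r0 * D - 1) (by linarith) (by rw [rho_zero]; linarith)
  have hb3 : rho s b < Real.pi / (2 * s) := by linarith
  obtain ⟨hbp, hbR⟩ := rho_lt_zero_pos hs hb3
  have h2b : 2 * b ≤ N := by
    have h := c.hf.rho_le b hbp hbN
    have hlog : (1 : ℝ) ≤ Real.log ((N : ℝ) / b) := by linarith
    have hb0 : (0 : ℝ) < b := by exact_mod_cast hbp
    have hN0 : (0 : ℝ) < N := by
      have := c.hN
      have : 0 < N := by omega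
      exact_mod_cast this
    have h2 : Real.exp 1 ≤ (N : ℝ) / b := by
      rw [← Real.log_exp 1] at hlog
      exact (Real.log_le_log_iff (Real.exp_pos 1) (by positivity)).1 hlog
    have h3 : (2 : ℝ) ≤ (N : ℝ) / b := by
      have := Real.add_one_le_exp (1 : ℝ)
      linarith
    rw [le_div_iff₀ hb0] at h3
    exact_mod_cast h3
  have hρp : 0 < rho s b := by linarith
  have hKb := K_gen c.hf hcU c.hw h2b hρp hW
  have hκ : KK p s b W ≤ 2 * Real.pi / (r0 * cU) := by
    refine hKb.trans ?_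
    have hDm : KK p s N W ≤ D := by linarith
    rw [div_mul_div_comm, div_le_div_iff₀ (by positivity) (by positivity)]
    have h1 : r0 * D ≤ 2 * rho s b := by linarith
    have h2 : Real.pi * KK p s N W * (r0 * cU) ≤ Real.pi * cU * (r0 * D) := by
      have := mul_le_mul_of_nonneg_left hDm (show 0 ≤ Real.pi * cU * r0 by positivity)
      linarith
    have h3 := mul_le_mul_of_nonneg_left h1 (show 0 ≤ Real.pi * cU by positivity)
    linarith
  have he : 4 * Real.exp (-(1 / (160 * (2 * Real.pi / (r0 * cU))))) ≤ q ^ 3 := by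
    refine le_trans (le_of_eq ?_) hP.exp2
    congr 3
    field_simp
    norm_num
  have hX : ∀ V : G → ℝ≥0, mass V = 1 → Rz p b V ≤ M →
      (TT p m)^[N] (nm (q ^ 2)) V ≤ ENNReal.ofReal (HH q D0 Λ A * (r0 * D) ^ q) := by
    intro V hV hR
    refine (regular c hA hH hbp hbN hb3.le hV hR).trans (ENNReal.ofReal_le_ofReal ?_)
    refine mul_le_mul_of_nonneg_left ?_ (HH_nonneg c hA)
    apply Real.rpow_le_rpow (by positivity) _ hq.le
    exact max_le hrD (by linarith)
  have hH0 := HH_nonneg c hA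
  have hsb := small_block c hA hH hbp hbN (by linarith) hbR (κ := 2 * Real.pi / (r0 * cU))
    (by positivity) hP.kap he (X := HH q D0 Λ A * (r0 * D) ^ q) (by positivity) hX hW hκ
  rw [← hDe] at hsb
  refine hsb.trans (ENNReal.ofReal_le_ofReal ?_)
  have hDq : 0 < D ^ q := by positivity
  rw [Real.mul_rpow (by linarith) (by linarith)]
  have h1 : r0 ^ q * (1 + 8 * q ^ 2 * (2 * Real.pi / (r0 * cU))) ≤ Λ ^ 2 := by
    have h8 : 1 + 8 * q ^ 2 * (2 * Real.pi / (r0 * cU)) ≤ Λ := by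
      have := mul_le_mul_of_nonneg_left hP.kap (show 0 ≤ 8 * q ^ 2 by positivity)
      linarith [hP.q8]
    calc _ ≤ Λ * Λ := mul_le_mul hP.r0q h8 (by positivity) (by linarith)
      _ = Λ ^ 2 := by ring
  have h2 := lam4 hP
  have h3 := hP.f3
  have h4 : HH q D0 Λ A * Λ ^ 2 + 10 * q ^ 3 * A ≤ 4 + (1 - 1 / (800 * D0)) * A := by
    rw [HH_eq]
    have h5 := mul_le_mul_of_nonneg_right h3 hA.le
    have e : (Λ ^ 2 + ((1 - 1 / (16 * D0)) * Λ + q) * A) * Λ ^ 2 + 10 * q ^ 3 * A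
        = Λ ^ 4 + (((1 - 1 / (16 * D0)) * Λ + q) * Λ ^ 2 + 10 * q ^ 3) * A := by ring
    rw [e]
    linarith
  calc HH q D0 Λ A * (r0 ^ q * D ^ q) * (1 + 8 * q ^ 2 * (2 * Real.pi / (r0 * cU)))
        + A * D ^ q * (10 * q ^ 3)
      = (HH q D0 Λ A * (r0 ^ q * (1 + 8 * q ^ 2 * (2 * Real.pi / (r0 * cU)))) + 10 * q ^ 3 * A)
        * D ^ q := by ring
    _ ≤ (HH q D0 Λ A * Λ ^ 2 + 10 * q ^ 3 * A) * D ^ q := by
        apply mul_le_mul_of_nonneg_right _ hDq.le
        have := mul_le_mul_of_nonneg_left h1 hH0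
        linarith
    _ ≤ _ := mul_le_mul_of_nonneg_right h4 hDq.le

/-- large energy -/
theorem top (c : Ctx p m N s Θ C4 cU CU Co q δ M r0 D0 Λ) {A : ℝ} (hA : 0 < A)
    (hH : Hyp p m s (q ^ 2) q N A) {W : G → ℝ≥0} (hW : mass W = 1)
    (hD : Real.pi / (2 * s) < r0 * (1 + KK p s N W)) :
    (TT p m)^[N] (nm (q ^ 2)) W
      ≤ ENNReal.ofReal ((4 + (1 - 1 / (800 * D0)) * A) * (1 + KK p s N W) ^ q) := by
  have hP := c.par
  have hq := hP.q_pos
  have hqs := hP.q_le
  have hq1 : q < 1 := by linarith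
  have hs := c.hm.s_pos
  have hΛ1 := hP.Λ_one
  have hΛ2 := hP.Λ_two
  have hM1 := hP.M_one
  have hM0 : 0 < M := by linarith
  have hMq := hP.Mq
  have hcU := c.hcU
  have hCU := c.hCU
  have hCo := c.hCo
  have hN := c.hN
  have hΘ := c.hΘ
  have hD0 : 40 ≤ D0 := hP.D0_ge (by linarith) c.hΘ
  have hπ := Real.pi_pos
  have hr0 := hP.r0_ge
  have hr00 : 20 ≤ r0 := by linarith
  have htop := c.htop
  haveI := c.hm.prob
  obtain ⟨ha1, ha2⟩ := exp_facts hq hqs
  have hK0 := KK_nonneg (p := p) hs.le N W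
  have htwo : Real.pi / (2 * s) ≤ Real.pi / s := by
    apply div_le_div_of_nonneg_left hπ.le hs
    linarith
  obtain ⟨b, hbN, hb1, hb2, -⟩ := c.scale (Real.pi / (2 * s) - 1) (by linarith)
    (by rw [rho_zero]; linarith)
  have hb3 : rho s b < Real.pi / (2 * s) := by linarith
  obtain ⟨hbp, hbR⟩ := rho_lt_zero_pos hs hb3
  have hKb := K_top hs c.hs4 c.hw (b := b) (by omega) hb1 hW
  obtain ⟨x0, hx0⟩ : ∃ x0 : ℝ≥0, x0 = Real.toNNReal (1 / (32 * 3)) := ⟨_, rfl⟩
  have hxv : (x0 : ℝ) = 1 / 96 := by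
    rw [hx0, Real.coe_toNNReal _ (by norm_num)]; norm_num
  have hx : 0 < x0 := by
    have : (0 : ℝ) < x0 := by rw [hxv]; norm_num
    exact_mod_cast this
  have hx1 : x0 ≤ 1 := by
    have : (x0 : ℝ) ≤ 1 := by rw [hxv]; norm_num
    exact_mod_cast this
  have hCK : 1 ≤ 1 + CU + CU / cU := by
    have : 0 < CU / cU := by positivity
    linarith
  have hK2 := K_double c.hf hcU hCU hN c.hw hbN hW
  have hex := pz_exit c.hw c.hm (n := b) (by omega) hW (D := 3) (by linarith)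
  rw [← hx0] at hex
  have hsplit := St_split_one (p := p) (m := m) x0 b W
  obtain ⟨P, hPe⟩ : ∃ P : ℝ, P = (St p m x0 b (fun _ => 0) (fun _ => 1) W).toReal := ⟨_, rfl⟩
  have hPtop : St p m x0 b (fun _ => 0) (fun _ => 1) W ≠ ⊤ :=
    ne_top_of_le_ne_top ENNReal.ofReal_ne_top hex
  have hP0 : 0 ≤ P := by rw [hPe]; exact ENNReal.toReal_nonneg
  have hPP : St p m x0 b (fun _ => 0) (fun _ => 1) W = ENNReal.ofReal P := by
    rw [hPe, ENNReal.ofReal_toReal hPtop]
  have hP1 : P ≤ 23 / 24 := by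
    rw [hPP] at hex
    have := (ENNReal.ofReal_le_ofReal_iff (by norm_num)).1 hex
    linarith
  have hS1 : St p m x0 b (fun _ => 1) (fun _ => 0) W = ENNReal.ofReal (1 - P) := by
    rw [hPP] at hsplit
    have h1 : ENNReal.ofReal (1 - P) + ENNReal.ofReal P = 1 := by
      rw [← ENNReal.ofReal_add (by linarith) hP0]; simp
    exact (ENNReal.add_left_inj ENNReal.ofReal_ne_top).1 (hsplit.trans h1.symm)
  have hr2 := over_num c.hCo c.hov hs (n := b) (by omega) hx hx1 ha1 ha2 hW (P := P) (κ := 2)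
    hP0 hPP.le hKb
  have hKb0 := KK_nonneg (p := p) hs.le b W
  have hr1 := irregular_le c.hw c.hm hbp (by omega) (by linarith) hx hM0 hW hx1
  have hr1' : St p m x0 b (fun V => if M * (mass V : ℝ) ^ 2 < Rz p b V then 1 else 0)
      (fun _ => 0) W ≤ ENNReal.ofReal (q ^ 3 / 2) := by
    refine hr1.trans (ENNReal.ofReal_le_ofReal ?_)
    rw [hxv, div_le_iff₀ (by positivity)]
    have e : q ^ 3 / 2 * (M * (1 / 96) ^ 2) = M * q ^ 3 / 18432 := by ring
    rw [e]
    linarith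
  have hH0 := HH_nonneg c hA
  obtain ⟨D, hDe⟩ : ∃ D, D = 1 + KK p s N W := ⟨_, rfl⟩
  have hD1 : 1 ≤ D := by linarith
  have hDq : 0 < D ^ q := by positivity
  have hX : ∀ V : G → ℝ≥0, mass V = 1 → Rz p b V ≤ M →
      (TT p m)^[N] (nm (q ^ 2)) V ≤ ENNReal.ofReal (HH q D0 Λ A * (Λ * D ^ q)) := by
    intro V hV hR
    refine (regular c hA hH hbp hbN hb3.le hV hR).trans (ENNReal.ofReal_le_ofReal ?_)
    refine mul_le_mul_of_nonneg_left ?_ hH0
    calc (max r0 (rho s b)) ^ q ≤ (r0 * D) ^ q := by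
          apply Real.rpow_le_rpow (by positivity) _ hq.le
          rw [hDe]
          exact max_le (by linarith) (by linarith)
      _ = r0 ^ q * D ^ q := Real.mul_rpow (by linarith) (by linarith)
      _ ≤ Λ * D ^ q := mul_le_mul_of_nonneg_right hP.r0q hDq.le
  have hblk := block_num c.hw c.hm (by omega) hbN hq hq1 (by positivity) hA hCK hH hx hX hW hx1 hK2
    (by positivity) (by rw [hxv]; positivity) hr1' hr2
  -- survivors
  have hsv : St p m x0 b (nm (q ^ 2)) (fun _ => 0) W ≤ ENNReal.ofReal (Λ * (1 - P)) := by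
    have h1 : St p m x0 b (nm (q ^ 2)) (fun _ => 0) W
        ≤ St p m x0 b (fun _ => ENNReal.ofReal Λ * 1) (fun _ => ENNReal.ofReal Λ * 0) W := by
      refine St_mono (fun V hV => ?_) (fun V _ => by simp) b W (by rw [hW]; exact hx1)
      have hV0 : mass V ≠ 0 := (lt_of_lt_of_le hx hV).ne'
      rw [nm_eq_ofReal hV0, mul_one]
      apply ENNReal.ofReal_le_ofReal
      have hVr : (x0 : ℝ) ≤ (mass V : ℝ) := by exact_mod_cast hV
      have hx0r : (0 : ℝ) < x0 := by exact_mod_cast hx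
      calc (mass V : ℝ) ^ (-(q ^ 2)) ≤ (x0 : ℝ) ^ (-(q ^ 2)) :=
            Real.rpow_le_rpow_of_nonpos hx0r hVr (by nlinarith)
        _ = 96 ^ (q ^ 2) := by
            rw [hxv, one_div, Real.inv_rpow (by norm_num), ← Real.rpow_neg (by norm_num), neg_neg]
        _ ≤ Λ := hP.c96
    refine h1.trans ?_
    rw [St_const_mul measurable_const measurable_const, hS1,
      ← ENNReal.ofReal_mul (by linarith)]
  refine hblk.trans ?_
  rw [← hDe]
  have hH1 : 0 ≤ HH q D0 Λ A * (Λ * D ^ q) := by positivity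
  have hP1' : 0 ≤ 1 - P := by linarith
  calc _ ≤ ENNReal.ofReal (HH q D0 Λ A * (Λ * D ^ q)) * ENNReal.ofReal (Λ * (1 - P)) + _ := by
        gcongr
    _ ≤ _ := by
      rw [← ENNReal.ofReal_mul hH1,
        ← ENNReal.ofReal_add (by positivity) (by rw [hxv]; positivity)]
      apply ENNReal.ofReal_le_ofReal
      rw [hxv]
      have e1 : ((1 / 96 : ℝ)) ^ (-((q ^ 2 + 2 * q) / (1 - q))) ≤ Λ := by
        rw [one_div, Real.inv_rpow (by norm_num), ← Real.rpow_neg (by norm_num), neg_neg]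
        exact (Real.rpow_le_rpow (by norm_num) (by norm_num) ha1.le).trans hP.c192
      have e2 : (2 / (1 / 96) : ℝ) = 192 := by norm_num
      have hsm : Co * Real.sqrt s * (1 / (1 / 96 : ℝ)) ^ 6 * 2 ≤ q ^ 3 := by
        refine le_trans ?_ c.hsm
        have hsq := Real.sqrt_nonneg s
        have h96 : (1 / (1 / 96 : ℝ)) ^ 6 = 96 ^ 6 := by norm_num
        rw [h96, mul_assoc]
        refine mul_le_mul_of_nonneg_left ?_ (by positivity)
        have : 0 ≤ (32 * D0) ^ 6 * D0 := by positivity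
        linarith
      rw [e2]
      have hq3 : 0 < q ^ 3 := by positivity
      have h1 := hP.c192
      have h5 : q ^ 3 + (1 / 96 : ℝ) ^ (-((q ^ 2 + 2 * q) / (1 - q))) * (q ^ 3 / 2)
          + ((192 : ℝ) ^ ((q ^ 2 + 2 * q) / (1 - q)) * P
            + Co * Real.sqrt s * (1 / (1 / 96 : ℝ)) ^ 6 * 2)
          ≤ Λ * P + 3 * q ^ 3 := by
        have h6 := mul_le_mul_of_nonneg_right h1 hP0
        have h7 := mul_le_mul_of_nonneg_right (e1.trans hΛ2) (show 0 ≤ q ^ 3 / 2 by positivity)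
        linarith
      have h6 : ((1 + CU + CU / cU) / q ^ 2) ^ q *
          (q ^ 3 + (1 / 96 : ℝ) ^ (-((q ^ 2 + 2 * q) / (1 - q))) * (q ^ 3 / 2)
          + ((192 : ℝ) ^ ((q ^ 2 + 2 * q) / (1 - q)) * P
            + Co * Real.sqrt s * (1 / (1 / 96 : ℝ)) ^ 6 * 2))
          ≤ Λ ^ 2 * P + 6 * q ^ 3 := by
        calc _ ≤ Λ * (Λ * P + 3 * q ^ 3) := mul_le_mul hP.CKq h5 (by positivity) (by linarith)
          _ = Λ ^ 2 * P + 3 * (Λ * q ^ 3) := by ring
          _ ≤ _ := by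
            have := mul_le_mul_of_nonneg_right hΛ2 hq3.le
            linarith
      have h7 := mul_le_mul_of_nonneg_left h6 (show 0 ≤ A * D ^ q by positivity)
      have h8 : HH q D0 Λ A * (Λ * D ^ q) * (Λ * (1 - P)) =
          (Λ ^ 4 * (1 - P) + Λ ^ 2 * (((1 - 1 / (16 * D0)) * Λ + q) * (1 - P)) * A) * D ^ q := by
        rw [HH_eq]; ring
      have h9 : Λ ^ 4 * (1 - P) ≤ 4 := by
        calc Λ ^ 4 * (1 - P) ≤ 4 * 1 :=
              mul_le_mul (lam4 hP) (by linarith) hP1' (by norm_num)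
          _ = 4 := by norm_num
      have h10 : Λ ^ 2 * (((1 - 1 / (16 * D0)) * Λ + q) * (1 - P) + P) + 6 * q ^ 3
          ≤ 1 - 1 / (800 * D0) := by
        refine le_trans ?_ hP.f4
        have h11 : ((1 - 1 / (16 * D0)) * Λ + q) * (1 - P) + P
            ≤ ((1 - 1 / (16 * D0)) * Λ + q) / 24 + 23 / 24 := by
          have := mul_nonneg (sub_nonneg.2 hP.f2) (sub_nonneg.2 hP1)
          linarith
        have := mul_le_mul_of_nonneg_left h11 (show 0 ≤ Λ ^ 2 by positivity)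
        linarith
      have h12 := mul_le_mul_of_nonneg_right h10 hA.le
      rw [h8]
      refine (add_le_add le_rfl h7).trans ?_
      have e : (Λ ^ 4 * (1 - P) + Λ ^ 2 * (((1 - 1 / (16 * D0)) * Λ + q) * (1 - P)) * A) * D ^ q
          + A * D ^ q * (Λ ^ 2 * P + 6 * q ^ 3)
          = (Λ ^ 4 * (1 - P) + (Λ ^ 2 * (((1 - 1 / (16 * D0)) * Λ + q) * (1 - P) + P)
            + 6 * q ^ 3) * A) * D ^ q := by ring
      rw [e]
      apply mul_le_mul_of_nonneg_right _ hDq.le
      linarith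

/-- improvement of the constant -/
theorem improve (c : Ctx p m N s Θ C4 cU CU Co q δ M r0 D0 Λ) {A : ℝ} (hA : 0 < A)
    (hH : Hyp p m s (q ^ 2) q N A) :
    Hyp p m s (q ^ 2) q N (4 + (1 - 1 / (800 * D0)) * A) := by
  intro W hW
  rcases le_or_gt (r0 * (1 + KK p s N W)) (Real.pi / (2 * s)) with h | h
  · exact general c hA hH hW h
  · exact top c hA hH hW h

/-- the final bound -/
theorem final (c : Ctx p m N s Θ C4 cU CU Co q δ M r0 D0 Λ) :
    Hyp p m s (q ^ 2) q N (3200 * D0) := by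
  have hP := c.par
  have hq := hP.q_pos
  have hs := c.hm.s_pos
  have hD0 : 40 ≤ D0 := hP.D0_ge (by linarith [c.hCU]) c.hΘ
  have hfin := TTn_nm_lt_top c.hw c.hm (a := q ^ 2) (by positivity) (by nlinarith [hP.q_le]) N
  obtain ⟨A0, hA0⟩ : ∃ A0 : ℝ, A0 = ((TT p m)^[N] (nm (q ^ 2)) (dl : G → ℝ≥0)).toReal := ⟨_, rfl⟩
  have hA00 : 0 ≤ A0 := by rw [hA0]; exact ENNReal.toReal_nonneg
  obtain ⟨ε, hε⟩ : ∃ ε : ℝ, ε = 1 / (800 * D0) := ⟨_, rfl⟩
  have hε0 : 0 < ε := by rw [hε]; positivity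
  have hε1 : ε < 1 := by rw [hε, div_lt_one (by positivity)]; linarith
  have hind : ∀ n : ℕ, Hyp p m s (q ^ 2) q N (3200 * D0 + (1 - ε) ^ n * A0) := by
    intro n
    induction n with
    | zero =>
      intro W hW
      refine (TTn_nm_le_dl c.hw c.hm (a := q ^ 2) (by positivity) N hW).trans ?_
      rw [← ENNReal.ofReal_toReal hfin.ne, ← hA0]
      apply ENNReal.ofReal_le_ofReal
      have hK0 := KK_nonneg (p := p) hs.le N W
      have h1 : 1 ≤ (1 + KK p s N W) ^ q := Real.one_le_rpow (by linarith) hq.le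
      rw [pow_zero, one_mul]
      calc A0 ≤ 3200 * D0 + A0 := by linarith
        _ ≤ _ := le_mul_of_one_le_right (by positivity) h1
    | succ n ih =>
      have hpos : 0 < 3200 * D0 + (1 - ε) ^ n * A0 := by
        have : 0 ≤ (1 - ε) ^ n * A0 := mul_nonneg (pow_nonneg (by linarith) n) hA00
        linarith
      have h := improve c hpos ih
      have e : 4 + (1 - 1 / (800 * D0)) * (3200 * D0 + (1 - ε) ^ n * A0)
          = 3200 * D0 + (1 - ε) ^ (n + 1) * A0 := by
        rw [← hε, pow_succ]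
        have : ε * (3200 * D0) = 4 := by rw [hε]; field_simp; norm_num
        linarith [this]
      rwa [e] at h
  intro W hW
  have hlim : Filter.Tendsto (fun n : ℕ => ENNReal.ofReal
      ((3200 * D0 + (1 - ε) ^ n * A0) * (1 + KK p s N W) ^ q)) Filter.atTop
      (nhds (ENNReal.ofReal ((3200 * D0 + 0 * A0) * (1 + KK p s N W) ^ q))) := by
    apply ENNReal.tendsto_ofReal
    apply Filter.Tendsto.mul_const
    apply Filter.Tendsto.const_add
    apply Filter.Tendsto.mul_const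
    exact tendsto_pow_atTop_nhds_zero_of_lt_one (by linarith) (by linarith)
  rw [zero_mul, add_zero] at hlim
  exact ge_of_tendsto' hlim (fun n => hind n W hW)

end Pool.A2F.Cr
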