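import Pool.Agent.A2F.Op

/-!
# Module Cvx: convexity and translation invariance
-/

set_option autoImplicit false
set_option linter.unusedSectionVars false
set_option linter.unusedVariables false

open MeasureTheory Finset
open scoped ENNReal NNReal

noncomputable section

namespace Pool.A2F

variable {G : Type} [Fintype G] [DecidableEq G] [AddCommGroup G]
variable {p : G → ℝ≥0} {m : Measure ℝ≥0} {n0 : ℕ} {s C4 : ℝ}

/-! ### first moments of a layer -/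

omit [DecidableEq G] [AddCommGroup G] in
theorem eval_cvx (hm : Law m s C4) (x : G) {f : ℝ≥0 → ℝ≥0∞} (hf : Measurable f) :
    ∫⁻ ξ, f (ξ x) ∂(Measure.pi fun _ : G => m) = ∫⁻ t, f t ∂m := by
  have := hm.prob
  have h := (measurePreserving_eval (fun _ : G => m) x).lintegral_comp hf
  simpa [Function.eval] using h

omit [DecidableEq G] in
theorem mass_upd_cvx (W ξ : G → ℝ≥0) :
    ((mass (upd p W ξ) : ℝ≥0) : ℝ≥0∞) = ∑ x, (conv p W x : ℝ≥0∞) * (ξ x : ℝ≥0∞) := by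
  simp [mass, upd, ENNReal.ofNNReal_finsetSum]

theorem TT_mass_cvx (hw : Walk p n0) (hm : Law m s C4) (W : G → ℝ≥0) :
    ∫⁻ ξ, ((mass (upd p W ξ) : ℝ≥0) : ℝ≥0∞) ∂(Measure.pi fun _ : G => m)
      = ((mass W : ℝ≥0) : ℝ≥0∞) := by
  have := hm.prob
  simp only [mass_upd_cvx]
  rw [lintegral_finsetSum _ (fun x _ => by fun_prop)]
  have h1 : ∀ x ∈ (univ : Finset G),
      ∫⁻ ξ, (conv p W x : ℝ≥0∞) * (ξ x : ℝ≥0∞) ∂(Measure.pi fun _ : G => m)
        = (conv p W x : ℝ≥0∞) := by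
    intro x _
    rw [lintegral_const_mul _ (by fun_prop),
      eval_cvx hm x (f := fun t => (t : ℝ≥0∞)) (by fun_prop), hm.m1, mul_one]
  rw [sum_congr rfl h1, ← mass_conv hw W]
  simp [mass, ENNReal.ofNNReal_finsetSum]

/-! ### tangent lines -/

theorem tangent_real {a t : ℝ} (ha : 0 < a) (ht : 0 < t) : 1 + a ≤ t ^ (-a) + a * t := by
  have h1 : Real.log t ≤ t - 1 := Real.log_le_sub_one_of_pos ht
  have h2 : t ^ (-a) = Real.exp (Real.log t * (-a)) := Real.rpow_def_of_pos ht _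
  have h3 := Real.add_one_le_exp (Real.log t * (-a))
  rw [h2]
  nlinarith

/-- (1+a) x^(-a) <= y^(-a) + a x^(-a-1) y. -/
theorem tangent_nm {a : ℝ} (ha : 0 < a) {x : ℝ≥0} (hx : x ≠ 0) (y : ℝ≥0) :
    ENNReal.ofReal (1 + a) * (x : ℝ≥0∞) ^ (-a)
      ≤ (y : ℝ≥0∞) ^ (-a) + ENNReal.ofReal a * ((x : ℝ≥0∞) ^ (-a - 1) * (y : ℝ≥0∞)) := by
  by_cases hy : y = 0
  · subst hy
    have : ((0 : ℝ≥0) : ℝ≥0∞) ^ (-a) = ⊤ := by
      simp [ENNReal.zero_rpow_of_neg (neg_neg_of_pos ha)]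
    rw [this]
    simp
  · have hx0 : 0 < (x : ℝ) := by positivity
    have hy0 : 0 < (y : ℝ) := by positivity
    have h := tangent_real ha (div_pos hy0 hx0)
    have hxp : 0 < (x : ℝ) ^ (-a) := Real.rpow_pos_of_pos hx0 _
    have e1 : ((y : ℝ) / x) ^ (-a) = (y : ℝ) ^ (-a) / (x : ℝ) ^ (-a) :=
      Real.div_rpow hy0.le hx0.le _
    have e2 : (x : ℝ) ^ (-a - 1) = (x : ℝ) ^ (-a) / x := Real.rpow_sub_one hx0.ne' _
    have key : (1 + a) * (x : ℝ) ^ (-a) ≤ (y : ℝ) ^ (-a) + a * ((x : ℝ) ^ (-a - 1) * y) := by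
      rw [e2]
      rw [e1] at h
      calc (1 + a) * (x : ℝ) ^ (-a)
          ≤ ((y : ℝ) ^ (-a) / (x : ℝ) ^ (-a) + a * ((y : ℝ) / x)) * (x : ℝ) ^ (-a) :=
            mul_le_mul_of_nonneg_right h hxp.le
        _ = (y : ℝ) ^ (-a) + a * ((x : ℝ) ^ (-a) / x * y) := by
            field_simp
    have c1 : (x : ℝ≥0∞) ^ (-a) = ENNReal.ofReal ((x : ℝ) ^ (-a)) := by
      rw [← ENNReal.ofReal_rpow_of_pos hx0, ENNReal.ofReal_coe_nnreal]
    have c2 : (y : ℝ≥0∞) ^ (-a) = ENNReal.ofReal ((y : ℝ) ^ (-a)) := by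
      rw [← ENNReal.ofReal_rpow_of_pos hy0, ENNReal.ofReal_coe_nnreal]
    have c3 : (x : ℝ≥0∞) ^ (-a - 1) = ENNReal.ofReal ((x : ℝ) ^ (-a - 1)) := by
      rw [← ENNReal.ofReal_rpow_of_pos hx0, ENNReal.ofReal_coe_nnreal]
    have c4 : (y : ℝ≥0∞) = ENNReal.ofReal (y : ℝ) := (ENNReal.ofReal_coe_nnreal).symm
    rw [c1, c2, c3]
    conv_rhs => rw [c4]
    rw [← ENNReal.ofReal_mul (by linarith), ← ENNReal.ofReal_mul (by positivity),
      ← ENNReal.ofReal_mul ha.le, ← ENNReal.ofReal_add (by positivity) (by positivity)]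
    exact ENNReal.ofReal_le_ofReal key

/-- y^a <= (1-a) x^a + a x^(a-1) y. -/
theorem tangent_pm {a : ℝ} (ha : 0 < a) (ha1 : a < 1) {x : ℝ≥0} (hx : x ≠ 0) (y : ℝ≥0) :
    (y : ℝ≥0∞) ^ a
      ≤ ENNReal.ofReal (1 - a) * (x : ℝ≥0∞) ^ a
        + ENNReal.ofReal a * ((x : ℝ≥0∞) ^ (a - 1) * (y : ℝ≥0∞)) := by
  have hx0 : 0 < (x : ℝ) := by positivity
  have hy0 : 0 ≤ (y : ℝ) := y.2
  have hxp : 0 < (x : ℝ) ^ a := Real.rpow_pos_of_pos hx0 _
  have h := rpow_one_add_le_one_add_mul_self (s := (y : ℝ) / x - 1)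
    (by have := div_nonneg hy0 hx0.le; linarith) ha.le ha1.le
  have e0 : 1 + ((y : ℝ) / x - 1) = y / x := by ring
  rw [e0, Real.div_rpow hy0 hx0.le] at h
  have e2 : (x : ℝ) ^ (a - 1) = (x : ℝ) ^ a / x := Real.rpow_sub_one hx0.ne' _
  have key : (y : ℝ) ^ a ≤ (1 - a) * (x : ℝ) ^ a + a * ((x : ℝ) ^ (a - 1) * y) := by
    rw [e2]
    calc (y : ℝ) ^ a = (y : ℝ) ^ a / (x : ℝ) ^ a * (x : ℝ) ^ a := by field_simp
      _ ≤ (1 + a * ((y : ℝ) / x - 1)) * (x : ℝ) ^ a := mul_le_mul_of_nonneg_right h hxp.le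
      _ = (1 - a) * (x : ℝ) ^ a + a * ((x : ℝ) ^ a / x * y) := by
          field_simp
          ring
  have c1 : (x : ℝ≥0∞) ^ a = ENNReal.ofReal ((x : ℝ) ^ a) := by
    rw [← ENNReal.ofReal_rpow_of_pos hx0, ENNReal.ofReal_coe_nnreal]
  have c2 : (y : ℝ≥0∞) ^ a = ENNReal.ofReal ((y : ℝ) ^ a) := by
    rw [← ENNReal.ofReal_rpow_of_nonneg hy0 ha.le, ENNReal.ofReal_coe_nnreal]
  have c3 : (x : ℝ≥0∞) ^ (a - 1) = ENNReal.ofReal ((x : ℝ) ^ (a - 1)) := by
    rw [← ENNReal.ofReal_rpow_of_pos hx0, ENNReal.ofReal_coe_nnreal]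
  have c4 : (y : ℝ≥0∞) = ENNReal.ofReal (y : ℝ) := (ENNReal.ofReal_coe_nnreal).symm
  rw [c1, c2, c3]
  conv_rhs => rw [c4]
  rw [← ENNReal.ofReal_mul (by linarith), ← ENNReal.ofReal_mul (by positivity),
    ← ENNReal.ofReal_mul ha.le, ← ENNReal.ofReal_add
      (mul_nonneg (by linarith) (by positivity)) (by positivity)]
  exact ENNReal.ofReal_le_ofReal key

theorem mul_rpow_sub_one_cvx {x : ℝ≥0} (hx : x ≠ 0) (b : ℝ) :
    (x : ℝ≥0∞) ^ (b - 1) * (x : ℝ≥0∞) = (x : ℝ≥0∞) ^ b := by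
  have hx0 : (x : ℝ≥0∞) ≠ 0 := by simpa using hx
  conv_lhs =>
    rw [← ENNReal.rpow_one (x : ℝ≥0∞), ← ENNReal.rpow_mul, one_mul,
      ← ENNReal.rpow_add _ _ hx0 ENNReal.coe_ne_top]
  congr 1
  ring

theorem rpow_ne_top_cvx {x : ℝ≥0} (hx : x ≠ 0) (b : ℝ) : (x : ℝ≥0∞) ^ b ≠ ⊤ := by
  rw [← ENNReal.coe_rpow_of_ne_zero hx]
  exact ENNReal.coe_ne_top

/-- E |W|^(-a) increases with the horizon. -/
theorem nm_le_TT (hw : Walk p n0) (hm : Law m s C4) {a : ℝ} (ha : 0 < a) (W : G → ℝ≥0) :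
    nm a W ≤ TT p m (nm a) W := by
  have := hm.prob
  by_cases hW : mass W = 0
  · have h0 : ∀ ξ : G → ℝ≥0, mass (upd p W ξ) = 0 := by
      intro ξ
      have hc : mass (conv p W) = 0 := by rw [mass_conv hw, hW]
      unfold mass at hc ⊢
      rw [Finset.sum_eq_zero_iff] at hc ⊢
      intro x hx
      simp [upd, hc x hx]
    unfold TT nm
    simp only [h0, hW]
    simp [ENNReal.zero_rpow_of_neg (neg_neg_of_pos ha)]
  · have h1 : ∫⁻ ξ, ENNReal.ofReal (1 + a) * ((mass W : ℝ≥0) : ℝ≥0∞) ^ (-a)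
          ∂(Measure.pi fun _ : G => m)
        ≤ ∫⁻ ξ, (((mass (upd p W ξ) : ℝ≥0) : ℝ≥0∞) ^ (-a)
            + ENNReal.ofReal a * (((mass W : ℝ≥0) : ℝ≥0∞) ^ (-a - 1)
              * ((mass (upd p W ξ) : ℝ≥0) : ℝ≥0∞))) ∂(Measure.pi fun _ : G => m) :=
      lintegral_mono fun ξ => tangent_nm ha hW _
    have hmeas : Measurable fun ξ : G → ℝ≥0 => ((mass (upd p W ξ) : ℝ≥0) : ℝ≥0∞) := by
      simp only [mass_upd_cvx]
      fun_prop
    rw [lintegral_const, measure_univ, mul_one, lintegral_add_left (hmeas.pow_const _),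
      lintegral_const_mul _ (hmeas.const_mul _), lintegral_const_mul _ hmeas,
      TT_mass_cvx hw hm W, mul_rpow_sub_one_cvx hW, ENNReal.ofReal_add zero_le_one ha.le,
      ENNReal.ofReal_one, add_mul, one_mul] at h1
    exact (ENNReal.add_le_add_iff_right
      (ENNReal.mul_ne_top ENNReal.ofReal_ne_top (rpow_ne_top_cvx hW _))).1 h1

/-- E |W|^a decreases with the horizon, 0 < a < 1. -/
theorem TT_pm_le (hw : Walk p n0) (hm : Law m s C4) {a : ℝ} (ha : 0 < a) (ha1 : a < 1)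
    (W : G → ℝ≥0) : TT p m (pm a) W ≤ pm a W := by
  have := hm.prob
  by_cases hW : mass W = 0
  · have h0 : ∀ ξ : G → ℝ≥0, mass (upd p W ξ) = 0 := by
      intro ξ
      have hc : mass (conv p W) = 0 := by rw [mass_conv hw, hW]
      unfold mass at hc ⊢
      rw [Finset.sum_eq_zero_iff] at hc ⊢
      intro x hx
      simp [upd, hc x hx]
    unfold TT pm
    simp only [h0, hW]
    simp [ENNReal.zero_rpow_of_pos ha]
  · have h1 : ∫⁻ ξ, ((mass (upd p W ξ) : ℝ≥0) : ℝ≥0∞) ^ a ∂(Measure.pi fun _ : G => m)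
        ≤ ∫⁻ ξ, (ENNReal.ofReal (1 - a) * ((mass W : ℝ≥0) : ℝ≥0∞) ^ a
            + ENNReal.ofReal a * (((mass W : ℝ≥0) : ℝ≥0∞) ^ (a - 1)
              * ((mass (upd p W ξ) : ℝ≥0) : ℝ≥0∞))) ∂(Measure.pi fun _ : G => m) :=
      lintegral_mono fun ξ => tangent_pm ha ha1 hW _
    have hmeas : Measurable fun ξ : G → ℝ≥0 => ((mass (upd p W ξ) : ℝ≥0) : ℝ≥0∞) := by
      simp only [mass_upd_cvx]
      fun_prop
    rw [lintegral_add_left measurable_const, lintegral_const, measure_univ, mul_one,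
      lintegral_const_mul _ (hmeas.const_mul _), lintegral_const_mul _ hmeas,
      TT_mass_cvx hw hm W, mul_rpow_sub_one_cvx hW, ← add_mul,
      ← ENNReal.ofReal_add (by linarith) ha.le] at h1
    have e1 : 1 - a + a = 1 := by ring
    rw [e1, ENNReal.ofReal_one, one_mul] at h1
    exact h1

/-! ### convexity -/

/-- Convexity with respect to mixtures indexed by the group. -/
def MixCvx (f : (G → ℝ≥0) → ℝ≥0∞) : Prop :=
  ∀ (c : G → ℝ≥0) (V : G → G → ℝ≥0), ∑ i, c i = 1 →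
    f (fun x => ∑ i, c i * V i x) ≤ ∑ i, (c i : ℝ≥0∞) * f (V i)

/-- Concavity with respect to mixtures indexed by the group. -/
def MixCnc (f : (G → ℝ≥0) → ℝ≥0∞) : Prop :=
  ∀ (c : G → ℝ≥0) (V : G → G → ℝ≥0), ∑ i, c i = 1 →
    ∑ i, (c i : ℝ≥0∞) * f (V i) ≤ f (fun x => ∑ i, c i * V i x)

/-- Translation. -/
def shf (z : G) (W : G → ℝ≥0) : G → ℝ≥0 := fun x => W (x - z)

/-- Translation invariance. -/
def ShInv (f : (G → ℝ≥0) → ℝ≥0∞) : Prop := ∀ (z : G) (W : G → ℝ≥0), f (shf z W) = f W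

omit [DecidableEq G] in
theorem mass_mix (c : G → ℝ≥0) (V : G → G → ℝ≥0) :
    mass (fun x => ∑ i, c i * V i x) = ∑ i, c i * mass (V i) := by
  unfold mass
  rw [sum_comm]
  simp only [mul_sum]

omit [DecidableEq G] in
theorem conv_mix (c : G → ℝ≥0) (V : G → G → ℝ≥0) :
    conv p (fun x => ∑ i, c i * V i x) = fun x => ∑ i, c i * conv p (V i) x := by
  funext x
  unfold conv
  simp only [sum_mul, mul_sum]
  rw [sum_comm]
  refine sum_congr rfl fun i _ => sum_congr rfl fun y _ => by ring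

omit [DecidableEq G] in
theorem upd_mix (c : G → ℝ≥0) (V : G → G → ℝ≥0) (ξ : G → ℝ≥0) :
    upd p (fun x => ∑ i, c i * V i x) ξ = fun x => ∑ i, c i * upd p (V i) ξ x := by
  funext x
  unfold upd
  rw [conv_mix, sum_mul]
  refine sum_congr rfl fun i _ => by ring

omit [DecidableEq G] in
theorem measurable_upd_right (W : G → ℝ≥0) : Measurable fun ξ : G → ℝ≥0 => upd p W ξ := by
  unfold upd
  fun_prop

theorem MixCvx.TT {f : (G → ℝ≥0) → ℝ≥0∞} (hf : Measurable f) (h : MixCvx f) :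
    MixCvx (TT p m f) := by
  intro c V hc
  unfold A2F.TT
  have h1 : ∫⁻ ξ, f (upd p (fun x => ∑ i, c i * V i x) ξ) ∂(Measure.pi fun _ : G => m)
      ≤ ∫⁻ ξ, ∑ i, (c i : ℝ≥0∞) * f (upd p (V i) ξ) ∂(Measure.pi fun _ : G => m) := by
    refine lintegral_mono fun ξ => ?_
    rw [upd_mix]
    exact h c _ hc
  refine h1.trans (le_of_eq ?_)
  have hme : ∀ i, Measurable fun ξ : G → ℝ≥0 => f (upd p (V i) ξ) := fun i =>
    hf.comp (measurable_upd_right _)
  rw [lintegral_finsetSum _ (fun i _ => (hme i).const_mul _)]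
  exact sum_congr rfl fun i _ => lintegral_const_mul _ (hme i)

theorem MixCnc.TT {f : (G → ℝ≥0) → ℝ≥0∞} (hf : Measurable f) (h : MixCnc f) :
    MixCnc (TT p m f) := by
  intro c V hc
  unfold A2F.TT
  have h1 : ∫⁻ ξ, ∑ i, (c i : ℝ≥0∞) * f (upd p (V i) ξ) ∂(Measure.pi fun _ : G => m)
      ≤ ∫⁻ ξ, f (upd p (fun x => ∑ i, c i * V i x) ξ) ∂(Measure.pi fun _ : G => m) := by
    refine lintegral_mono fun ξ => ?_
    rw [upd_mix]
    exact h c _ hc
  refine (le_of_eq ?_).trans h1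
  have hme : ∀ i, Measurable fun ξ : G → ℝ≥0 => f (upd p (V i) ξ) := fun i =>
    hf.comp (measurable_upd_right _)
  rw [lintegral_finsetSum _ (fun i _ => (hme i).const_mul _)]
  exact sum_congr rfl fun i _ => (lintegral_const_mul _ (hme i)).symm

theorem MixCvx.TTn (hm : Law m s C4) {f : (G → ℝ≥0) → ℝ≥0∞} (hf : Measurable f) (h : MixCvx f)
    (n : ℕ) : MixCvx ((A2F.TT p m)^[n] f) := by
  have := hm.prob
  induction n with
  | zero => exact h
  | succ n ih =>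
    rw [Function.iterate_succ_apply']
    exact ih.TT (measurable_TTn hf n)

theorem MixCnc.TTn (hm : Law m s C4) {f : (G → ℝ≥0) → ℝ≥0∞} (hf : Measurable f) (h : MixCnc f)
    (n : ℕ) : MixCnc ((A2F.TT p m)^[n] f) := by
  have := hm.prob
  induction n with
  | zero => exact h
  | succ n ih =>
    rw [Function.iterate_succ_apply']
    exact ih.TT (measurable_TTn hf n)

theorem mixCvx_nm {a : ℝ} (ha : 0 < a) : MixCvx (nm a : (G → ℝ≥0) → ℝ≥0∞) := by
  intro c V hc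
  unfold nm
  rw [mass_mix]
  set x : ℝ≥0 := ∑ i, c i * mass (V i) with hx
  by_cases hx0 : x = 0
  · have h1 : ∀ i, c i * mass (V i) = 0 := by
      intro i
      have := (Finset.sum_eq_zero_iff.1 (hx.symm.trans hx0)) i (mem_univ i)
      exact this
    obtain ⟨i, hi⟩ : ∃ i, c i ≠ 0 := by
      by_contra hcon
      push Not at hcon
      simp [hcon] at hc
    have h2 : mass (V i) = 0 := by
      rcases mul_eq_zero.1 (h1 i) with h | h
      · exact absurd h hi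
      · exact h
    have h3 : (c i : ℝ≥0∞) * ((mass (V i) : ℝ≥0) : ℝ≥0∞) ^ (-a) = ⊤ := by
      rw [h2]
      rw [ENNReal.coe_zero, ENNReal.zero_rpow_of_neg (neg_neg_of_pos ha)]
      exact ENNReal.mul_top (by simpa using hi)
    have h4 : (c i : ℝ≥0∞) * ((mass (V i) : ℝ≥0) : ℝ≥0∞) ^ (-a)
        ≤ ∑ i, (c i : ℝ≥0∞) * ((mass (V i) : ℝ≥0) : ℝ≥0∞) ^ (-a) :=
      single_le_sum (f := fun i => (c i : ℝ≥0∞) * ((mass (V i) : ℝ≥0) : ℝ≥0∞) ^ (-a))
        (fun _ _ => bot_le) (mem_univ i)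
    rw [h3, top_le_iff] at h4
    rw [h4]
    exact le_top
  · have h1 : ∑ i, (c i : ℝ≥0∞) * (ENNReal.ofReal (1 + a) * (x : ℝ≥0∞) ^ (-a))
        ≤ ∑ i, (c i : ℝ≥0∞) * (((mass (V i) : ℝ≥0) : ℝ≥0∞) ^ (-a)
          + ENNReal.ofReal a * ((x : ℝ≥0∞) ^ (-a - 1) * ((mass (V i) : ℝ≥0) : ℝ≥0∞))) :=
      sum_le_sum fun i _ => mul_le_mul_right (tangent_nm ha hx0 _) _
    have hcc : ∑ i, (c i : ℝ≥0∞) = 1 := by
      rw [← ENNReal.ofNNReal_finsetSum, hc, ENNReal.coe_one]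
    have hxx : ∑ i, (c i : ℝ≥0∞) * ((mass (V i) : ℝ≥0) : ℝ≥0∞) = (x : ℝ≥0∞) := by
      rw [hx, ENNReal.ofNNReal_finsetSum]
      simp only [ENNReal.coe_mul]
    have h2 : ∑ i, (c i : ℝ≥0∞) * (((mass (V i) : ℝ≥0) : ℝ≥0∞) ^ (-a)
          + ENNReal.ofReal a * ((x : ℝ≥0∞) ^ (-a - 1) * ((mass (V i) : ℝ≥0) : ℝ≥0∞)))
        = ∑ i, (c i : ℝ≥0∞) * ((mass (V i) : ℝ≥0) : ℝ≥0∞) ^ (-a)
          + ENNReal.ofReal a * (x : ℝ≥0∞) ^ (-a) := by
      simp only [mul_add, sum_add_distrib]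
      congr 1
      have h3 : ENNReal.ofReal a * (x : ℝ≥0∞) ^ (-a) = ENNReal.ofReal a * ((x : ℝ≥0∞) ^ (-a - 1)
          * ∑ i, (c i : ℝ≥0∞) * ((mass (V i) : ℝ≥0) : ℝ≥0∞)) := by
        rw [hxx, mul_rpow_sub_one_cvx hx0 (-a)]
      rw [h3, mul_sum, mul_sum]
      refine sum_congr rfl fun i _ => by ring
    rw [h2, ← sum_mul, hcc, one_mul, ENNReal.ofReal_add zero_le_one ha.le,
      ENNReal.ofReal_one, add_mul, one_mul] at h1
    exact (ENNReal.add_le_add_iff_right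
      (ENNReal.mul_ne_top ENNReal.ofReal_ne_top (rpow_ne_top_cvx hx0 _))).1 h1

theorem mixCnc_pm {a : ℝ} (ha : 0 < a) (ha1 : a < 1) : MixCnc (pm a : (G → ℝ≥0) → ℝ≥0∞) := by
  intro c V hc
  unfold pm
  rw [mass_mix]
  set x : ℝ≥0 := ∑ i, c i * mass (V i) with hx
  by_cases hx0 : x = 0
  · have h1 : ∀ i, c i * mass (V i) = 0 := by
      intro i
      exact (Finset.sum_eq_zero_iff.1 (hx.symm.trans hx0)) i (mem_univ i)
    have h2 : ∀ i, (c i : ℝ≥0∞) * ((mass (V i) : ℝ≥0) : ℝ≥0∞) ^ a = 0 := by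
      intro i
      rcases mul_eq_zero.1 (h1 i) with h | h
      · rw [h]
        simp
      · rw [h, ENNReal.coe_zero, ENNReal.zero_rpow_of_pos ha, mul_zero]
    simp [h2]
  · have h1 : ∑ i, (c i : ℝ≥0∞) * ((mass (V i) : ℝ≥0) : ℝ≥0∞) ^ a
        ≤ ∑ i, (c i : ℝ≥0∞) * (ENNReal.ofReal (1 - a) * (x : ℝ≥0∞) ^ a
          + ENNReal.ofReal a * ((x : ℝ≥0∞) ^ (a - 1) * ((mass (V i) : ℝ≥0) : ℝ≥0∞))) :=
      sum_le_sum fun i _ => mul_le_mul_right (tangent_pm ha ha1 hx0 _) _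
    have hcc : ∑ i, (c i : ℝ≥0∞) = 1 := by
      rw [← ENNReal.ofNNReal_finsetSum, hc, ENNReal.coe_one]
    have hxx : ∑ i, (c i : ℝ≥0∞) * ((mass (V i) : ℝ≥0) : ℝ≥0∞) = (x : ℝ≥0∞) := by
      rw [hx, ENNReal.ofNNReal_finsetSum]
      simp only [ENNReal.coe_mul]
    have h2 : ∑ i, (c i : ℝ≥0∞) * (ENNReal.ofReal (1 - a) * (x : ℝ≥0∞) ^ a
          + ENNReal.ofReal a * ((x : ℝ≥0∞) ^ (a - 1) * ((mass (V i) : ℝ≥0) : ℝ≥0∞)))
        = ENNReal.ofReal (1 - a) * (x : ℝ≥0∞) ^ a + ENNReal.ofReal a * (x : ℝ≥0∞) ^ a := by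
      simp only [mul_add, sum_add_distrib]
      rw [← sum_mul, hcc, one_mul]
      congr 1
      have h3 : ENNReal.ofReal a * (x : ℝ≥0∞) ^ a = ENNReal.ofReal a * ((x : ℝ≥0∞) ^ (a - 1)
          * ∑ i, (c i : ℝ≥0∞) * ((mass (V i) : ℝ≥0) : ℝ≥0∞)) := by
        rw [hxx, mul_rpow_sub_one_cvx hx0 a]
      rw [h3, mul_sum, mul_sum]
      refine sum_congr rfl fun i _ => by ring
    have e1 : 1 - a + a = 1 := by ring
    rw [h2, ← add_mul, ← ENNReal.ofReal_add (by linarith) ha.le, e1, ENNReal.ofReal_one,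
      one_mul] at h1
    exact h1

/-! ### translation invariance -/

theorem sh_mp [IsProbabilityMeasure m] (z : G) :
    MeasurePreserving (shf z : (G → ℝ≥0) → (G → ℝ≥0)) (Measure.pi fun _ : G => m)
      (Measure.pi fun _ : G => m) := by
  have h := measurePreserving_arrowCongr' (fun _ : G => m) (fun _ : G => m)
    (Equiv.addRight z) (MeasurableEquiv.refl ℝ≥0) (fun _ => MeasurePreserving.id m)
  have e : (shf z : (G → ℝ≥0) → (G → ℝ≥0))
      = MeasurableEquiv.arrowCongr' (Equiv.addRight z) (MeasurableEquiv.refl ℝ≥0) := by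
    funext W x
    unfold shf
    simp [MeasurableEquiv.arrowCongr', Equiv.arrowCongr', Equiv.arrowCongr, sub_eq_add_neg]
  rw [e]
  exact h

theorem mass_sh (z : G) (W : G → ℝ≥0) : mass (shf z W) = mass W := by
  unfold mass shf
  exact Equiv.sum_comp (Equiv.subRight z) W

theorem conv_sh (z : G) (W : G → ℝ≥0) : conv p (shf z W) = shf z (conv p W) := by
  funext x
  unfold conv shf
  rw [← Equiv.sum_comp (Equiv.addRight z)]
  refine sum_congr rfl fun y _ => ?_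
  simp only [Equiv.coe_addRight, add_sub_cancel_right]
  congr 2
  abel

theorem upd_sh (z : G) (W ξ : G → ℝ≥0) : upd p (shf z W) (shf z ξ) = shf z (upd p W ξ) := by
  funext x
  simp only [upd, conv_sh, shf]

theorem ShInv.TT (hm : Law m s C4) {f : (G → ℝ≥0) → ℝ≥0∞} (hf : Measurable f) (h : ShInv f) :
    ShInv (A2F.TT p m f) := by
  have := hm.prob
  intro z W
  unfold A2F.TT
  have h1 := (sh_mp (m := m) z).lintegral_comp
    (f := fun ξ => f (upd p (shf z W) ξ)) (hf.comp (measurable_upd_right _))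
  rw [← h1]
  refine lintegral_congr fun ξ => ?_
  rw [upd_sh, h]

theorem ShInv.TTn (hm : Law m s C4) {f : (G → ℝ≥0) → ℝ≥0∞} (hf : Measurable f) (h : ShInv f)
    (n : ℕ) : ShInv ((A2F.TT p m)^[n] f) := by
  have := hm.prob
  induction n with
  | zero => exact h
  | succ n ih =>
    rw [Function.iterate_succ_apply']
    exact ih.TT hm (measurable_TTn hf n)

theorem shi_nm (a : ℝ) : ShInv (nm a : (G → ℝ≥0) → ℝ≥0∞) := fun z W => by
  unfold nm
  rw [mass_sh]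

theorem shi_pm (a : ℝ) : ShInv (pm a : (G → ℝ≥0) → ℝ≥0∞) := fun z W => by
  unfold pm
  rw [mass_sh]

theorem mix_dl (W : G → ℝ≥0) : (fun x => ∑ y, W y * shf y dl x) = W := by
  funext x
  have h : ∀ y ∈ (univ : Finset G), W y * shf y dl x = if y = x then W x else 0 := by
    intro y _
    unfold shf dl
    by_cases hxy : y = x
    · subst hxy
      simp
    · have : x - y ≠ 0 := fun h => hxy (sub_eq_zero.1 h).symm
      rw [if_neg hxy, Pi.single_eq_of_ne this, mul_zero]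
  rw [sum_congr rfl h]
  simp

theorem mix_conv (W : G → ℝ≥0) : (fun x => ∑ z, p z * shf z W x) = conv p W := by
  funext x
  unfold conv shf
  rw [← Equiv.sum_comp (Equiv.subLeft x)]
  refine sum_congr rfl fun y _ => ?_
  simp only [Equiv.subLeft_apply, sub_sub_cancel]
  ring

/-- Among all probability measures the point mass maximises E |W_n|^(-a). -/
theorem TTn_nm_le_dl (hw : Walk p n0) (hm : Law m s C4) {a : ℝ} (ha : 0 < a) (n : ℕ)
    {W : G → ℝ≥0} (hW : mass W = 1) : (TT p m)^[n] (nm a) W ≤ (TT p m)^[n] (nm a) dl := by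
  have hc : MixCvx ((TT p m)^[n] (nm a)) := (mixCvx_nm (G := G) ha).TTn hm (measurable_nm a) n
  have hs : ShInv ((TT p m)^[n] (nm a)) := (shi_nm (G := G) a).TTn hm (measurable_nm a) n
  have h := hc W (fun y => shf y dl) hW
  rw [mix_dl] at h
  refine h.trans (le_of_eq ?_)
  have h1 : ∀ y, (TT p m)^[n] (nm a) (shf y dl) = (TT p m)^[n] (nm a) (dl : G → ℝ≥0) :=
    fun y => hs y dl
  simp only [h1]
  rw [← sum_mul, ← ENNReal.ofNNReal_finsetSum]
  have h2 : ∑ y, W y = 1 := hW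
  rw [h2, ENNReal.coe_one, one_mul]

theorem TTn_nm_conv_one (hw : Walk p n0) (hm : Law m s C4) {a : ℝ} (ha : 0 < a) (n : ℕ)
    (W : G → ℝ≥0) : (TT p m)^[n] (nm a) (conv p W) ≤ (TT p m)^[n] (nm a) W := by
  have hc : MixCvx ((TT p m)^[n] (nm a)) := (mixCvx_nm (G := G) ha).TTn hm (measurable_nm a) n
  have hs : ShInv ((TT p m)^[n] (nm a)) := (shi_nm (G := G) a).TTn hm (measurable_nm a) n
  have h := hc p (fun z => shf z W) hw.one
  rw [mix_conv] at h
  refine h.trans (le_of_eq ?_)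
  have h1 : ∀ z, (TT p m)^[n] (nm a) (shf z W) = (TT p m)^[n] (nm a) W := fun z => hs z W
  simp only [h1]
  rw [← sum_mul, ← ENNReal.ofNNReal_finsetSum, hw.one, ENNReal.coe_one, one_mul]

theorem TTn_pm_conv_one (hw : Walk p n0) (hm : Law m s C4) {a : ℝ} (ha : 0 < a) (ha1 : a < 1)
    (n : ℕ) (W : G → ℝ≥0) : (TT p m)^[n] (pm a) W ≤ (TT p m)^[n] (pm a) (conv p W) := by
  have hc : MixCnc ((TT p m)^[n] (pm a)) := (mixCnc_pm (G := G) ha ha1).TTn hm (measurable_pm a) n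
  have hs : ShInv ((TT p m)^[n] (pm a)) := (shi_pm (G := G) a).TTn hm (measurable_pm a) n
  have h := hc p (fun z => shf z W) hw.one
  rw [mix_conv] at h
  refine (le_of_eq ?_).trans h
  have h1 : ∀ z, (TT p m)^[n] (pm a) (shf z W) = (TT p m)^[n] (pm a) W := fun z => hs z W
  simp only [h1]
  rw [← sum_mul, ← ENNReal.ofNNReal_finsetSum, hw.one, ENNReal.coe_one, one_mul]

/-- Smoothing decreases E |W_n|^(-a). -/
theorem TTn_nm_conv (hw : Walk p n0) (hm : Law m s C4) {a : ℝ} (ha : 0 < a) (n k : ℕ)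
    (W : G → ℝ≥0) : (TT p m)^[n] (nm a) ((conv p)^[k] W) ≤ (TT p m)^[n] (nm a) W := by
  induction k with
  | zero => exact le_rfl
  | succ k ih =>
    rw [Function.iterate_succ_apply']
    exact (TTn_nm_conv_one hw hm ha n _).trans ih

/-- Smoothing increases E |W_n|^a, 0 < a < 1. -/
theorem TTn_pm_conv (hw : Walk p n0) (hm : Law m s C4) {a : ℝ} (ha : 0 < a) (ha1 : a < 1)
    (n k : ℕ) (W : G → ℝ≥0) :
    (TT p m)^[n] (pm a) W ≤ (TT p m)^[n] (pm a) ((conv p)^[k] W) := by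
  induction k with
  | zero => exact le_rfl
  | succ k ih =>
    rw [Function.iterate_succ_apply']
    exact ih.trans (TTn_pm_conv_one hw hm ha ha1 n _)

/-! ### finiteness of negative moments -/

theorem nm_m_le (hm : Law m s C4) {a : ℝ} (ha : 0 < a) (ha1 : a ≤ 16) :
    ∫⁻ x, (x : ℝ≥0∞) ^ (-a) ∂m ≤ 3 := by
  have := hm.prob
  have h1 : ∀ x : ℝ≥0, (x : ℝ≥0∞) ^ (-a) ≤ 1 + ((x : ℝ≥0∞)⁻¹) ^ 16 := by
    intro x
    rw [ENNReal.rpow_neg, ← ENNReal.inv_rpow]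
    rcases le_total ((x : ℝ≥0∞)⁻¹) 1 with h | h
    · exact (ENNReal.rpow_le_one h ha.le).trans le_self_add
    · refine le_trans ?_ le_add_self
      rw [← ENNReal.rpow_natCast]
      exact ENNReal.rpow_le_rpow_of_exponent_le h (by exact_mod_cast ha1)
  calc ∫⁻ x, (x : ℝ≥0∞) ^ (-a) ∂m ≤ ∫⁻ x, (1 + ((x : ℝ≥0∞)⁻¹) ^ 16) ∂m := lintegral_mono h1
    _ = 1 + ∫⁻ x, ((x : ℝ≥0∞)⁻¹) ^ 16 ∂m := by
        rw [lintegral_add_left measurable_const]
        simp
    _ ≤ 1 + 2 := by gcongr; exact hm.neg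
    _ = 3 := by norm_num

theorem TT_nm_le (hw : Walk p n0) (hm : Law m s C4) {a : ℝ} (ha : 0 < a) (ha1 : a ≤ 16)
    (W : G → ℝ≥0) : TT p m (nm a) W ≤ 3 * nm a W := by
  have := hm.prob
  by_cases hW : mass W = 0
  · unfold nm
    rw [hW, ENNReal.coe_zero, ENNReal.zero_rpow_of_neg (neg_neg_of_pos ha)]
    simp
  · set c : G → ℝ≥0 := fun x => (mass W)⁻¹ * conv p W x with hc
    have hc1 : ∑ x, c x = 1 := by
      rw [hc, ← mul_sum]
      have : ∑ x, conv p W x = mass W := mass_conv hw W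
      rw [this]
      exact inv_mul_cancel₀ hW
    have h1 : ∀ ξ : G → ℝ≥0, nm a (upd p W ξ)
        ≤ nm a W * ∑ x, (c x : ℝ≥0∞) * (ξ x : ℝ≥0∞) ^ (-a) := by
      intro ξ
      have h2 := mixCvx_nm (G := G) ha c (fun y => Pi.single 0 (ξ y)) hc1
      have h3 : ∀ y, mass (Pi.single (M := fun _ : G => ℝ≥0) 0 (ξ y)) = ξ y := by
        intro y
        unfold mass
        simp
      unfold nm at h2 ⊢
      rw [mass_mix] at h2
      simp only [h3] at h2
      have h4 : mass (upd p W ξ) = mass W * ∑ y, c y * ξ y := by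
        unfold upd mass
        rw [mul_sum]
        refine sum_congr rfl fun x _ => ?_
        rw [hc]
        have : mass W * ((mass W)⁻¹ * conv p W x * ξ x) = conv p W x * ξ x := by
          rw [← mul_assoc, ← mul_assoc, mul_inv_cancel₀ hW, one_mul]
        exact this.symm
      rw [h4, ENNReal.coe_mul, ENNReal.mul_rpow_of_ne_top ENNReal.coe_ne_top ENNReal.coe_ne_top]
      exact mul_le_mul_right h2 _
    have hme : ∀ x : G, Measurable fun ξ : G → ℝ≥0 => (ξ x : ℝ≥0∞) ^ (-a) := by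
      intro x
      fun_prop
    have h5 : ∀ x : G, ∫⁻ ξ, (ξ x : ℝ≥0∞) ^ (-a) ∂(Measure.pi fun _ : G => m) ≤ 3 := by
      intro x
      rw [eval_cvx hm x (f := fun t => (t : ℝ≥0∞) ^ (-a)) (by fun_prop)]
      exact nm_m_le hm ha ha1
    calc TT p m (nm a) W
        ≤ ∫⁻ ξ, nm a W * ∑ x, (c x : ℝ≥0∞) * (ξ x : ℝ≥0∞) ^ (-a)
            ∂(Measure.pi fun _ : G => m) := lintegral_mono h1
      _ = nm a W * ∑ x, (c x : ℝ≥0∞) * ∫⁻ ξ, (ξ x : ℝ≥0∞) ^ (-a)
            ∂(Measure.pi fun _ : G => m) := by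
          rw [lintegral_const_mul _ (by fun_prop), lintegral_finsetSum _ (fun x _ => by fun_prop)]
          congr 1
          exact sum_congr rfl fun x _ => lintegral_const_mul _ (hme x)
      _ ≤ nm a W * ∑ x, (c x : ℝ≥0∞) * 3 := by
          gcongr with x _
          exact h5 x
      _ = 3 * nm a W := by
          rw [← sum_mul, ← ENNReal.ofNNReal_finsetSum, hc1, ENNReal.coe_one, one_mul, mul_comm]

theorem TTn_nm_le (hw : Walk p n0) (hm : Law m s C4) {a : ℝ} (ha : 0 < a) (ha1 : a ≤ 16)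
    (n : ℕ) (W : G → ℝ≥0) : (TT p m)^[n] (nm a) W ≤ 3 ^ n * nm a W := by
  have := hm.prob
  induction n generalizing W with
  | zero => simp
  | succ n ih =>
    rw [Function.iterate_succ_apply']
    calc TT p m ((TT p m)^[n] (nm a)) W ≤ TT p m (fun V => 3 ^ n * nm a V) W :=
          TT_mono ih W
      _ = 3 ^ n * TT p m (nm a) W := TT_const_mul (measurable_nm a) _ W
      _ ≤ 3 ^ n * (3 * nm a W) := by gcongr; exact TT_nm_le hw hm ha ha1 W
      _ = 3 ^ (n + 1) * nm a W := by ring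

/-- negative moments are finite for every finite horizon. -/
theorem TTn_nm_lt_top (hw : Walk p n0) (hm : Law m s C4) {a : ℝ} (ha : 0 < a) (ha1 : a ≤ 16)
    (n : ℕ) : (TT p m)^[n] (nm a) (dl : G → ℝ≥0) < ⊤ := by
  refine (TTn_nm_le hw hm ha ha1 n dl).trans_lt ?_
  unfold nm
  rw [mass_dl, ENNReal.coe_one, ENNReal.one_rpow, mul_one]
  exact ENNReal.pow_lt_top (by norm_num)

end Pool.A2F
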