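import Pool.Agent.A2F.Exit
import Pool.Agent.A2F.Exit2
import Pool.Agent.A2F.Cvx

/-!
# Module Crude, case 3 (low level starting measures) and the pointwise bound used in cases 2, 3
-/

set_option autoImplicit false

open MeasureTheory Finset
open scoped ENNReal NNReal

noncomputable section

namespace Pool.A2F

/-- y^q <= 1 + (3/2) q y^(1/2) for 0 < q <= 1/4. -/
theorem crude_rpow_le {q y : ℝ} (hq : 0 < q) (hq1 : q ≤ 1 / 4) (hy : 0 ≤ y) :
    y ^ q ≤ 1 + 3 / 2 * q * y ^ (1 / 2 : ℝ) := by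
  have h1 : y ^ q = (1 : ℝ) ^ (1 - 4 * q) * (y ^ (1 / 4 : ℝ)) ^ (4 * q) := by
    rw [Real.one_rpow, one_mul, ← Real.rpow_mul hy]
    congr 1
    ring
  have hv : 0 ≤ y ^ (1 / 4 : ℝ) := Real.rpow_nonneg hy _
  have h2 := Real.geom_mean_le_arith_mean2_weighted (w₁ := 1 - 4 * q) (w₂ := 4 * q)
    (p₁ := 1) (p₂ := y ^ (1 / 4 : ℝ)) (by linarith) (by linarith) zero_le_one hv (by ring)
  have h3 : y ^ (1 / 2 : ℝ) = (y ^ (1 / 4 : ℝ)) ^ 2 := by
    rw [← Real.rpow_natCast, ← Real.rpow_mul hy]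
    norm_num
  rw [h1, h3]
  refine h2.trans ?_
  set v := y ^ (1 / 4 : ℝ) with hv'
  have h4 : 4 * (v - 1) ≤ 3 / 2 * v ^ 2 := by nlinarith [sq_nonneg (v - 4 / 3)]
  nlinarith

/-- pointwise bound of l^q |V|^(-kp q) relative to w^q. -/
theorem crude_pt_real {q kp lam w l x g : ℝ} (hq : 0 < q) (hq1 : q ≤ 1 / 4) (hlam : 0 < lam)
    (hw : 0 < w) (hl : 0 ≤ l) (hx : 0 < x) (hg : l * x ^ 2 ≤ g) :
    l ^ q * x ^ (-(kp * q)) ≤ w ^ q * (1 + 3 / 2 * q *
      (lam / 2 * (g / w) + 1 / (2 * lam) * x ^ (-(kp + 2)))) := by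
  have hxk : 0 < x ^ (-kp) := Real.rpow_pos_of_pos hx _
  set B : ℝ := x ^ (-kp) * (l / w) with hB
  have hB0 : 0 ≤ B := by positivity
  have h1 : l ^ q * x ^ (-(kp * q)) = w ^ q * B ^ q := by
    rw [hB, Real.mul_rpow hxk.le (by positivity), Real.div_rpow hl hw.le,
      ← Real.rpow_mul hx.le]
    have : 0 < w ^ q := Real.rpow_pos_of_pos hw _
    rw [show -(kp * q) = -kp * q by ring]
    field_simp
  rw [h1]
  refine mul_le_mul_of_nonneg_left ?_ (Real.rpow_nonneg hw.le _)
  refine (crude_rpow_le hq hq1 hB0).trans ?_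
  have h2 : B ^ (1 / 2 : ℝ) ≤ lam / 2 * (g / w) + 1 / (2 * lam) * x ^ (-(kp + 2)) := by
    rw [← Real.sqrt_eq_rpow]
    set X : ℝ := x ^ (-(kp + 2)) with hX
    have hX0 : 0 < X := Real.rpow_pos_of_pos hx _
    have h3 : B = X * (l * x ^ 2 / w) := by
      have : X = x ^ (-kp) / x ^ 2 := by
        rw [hX, show -(kp + 2) = -kp - 2 by ring, Real.rpow_sub hx]
        norm_num
      rw [this, hB]
      field_simp
    have hY0 : 0 ≤ l * x ^ 2 / w := by positivity
    have h4 : Real.sqrt B ≤ 1 / 2 * (lam * (l * x ^ 2 / w) + 1 / lam * X) := by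
      rw [h3]
      apply Real.sqrt_le_iff.2
      constructor
      · positivity
      · have h5 := sq_nonneg (lam * (l * x ^ 2 / w) - 1 / lam * X)
        have h6 : lam * (l * x ^ 2 / w) * (1 / lam * X) = X * (l * x ^ 2 / w) := by
          field_simp
        nlinarith
    refine h4.trans ?_
    have h7 : l * x ^ 2 / w ≤ g / w := by gcongr
    have h8 : 1 / (2 * lam) * X = 1 / 2 * (1 / lam * X) := by
      field_simp
    rw [h8]
    have h9 : lam * (l * x ^ 2 / w) ≤ lam * (g / w) := by gcongr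
    nlinarith
  have h10 : 0 ≤ 3 / 2 * q := by positivity
  have := mul_le_mul_of_nonneg_left h2 h10
  linarith

variable {G : Type} [Fintype G] [DecidableEq G] [AddCommGroup G]
variable {p : G → ℝ≥0} {m : Measure ℝ≥0} {n0 : ℕ} {s C4 : ℝ}

theorem nm_eq_ofReal {a : ℝ} {V : G → ℝ≥0} (hV : 0 < mass V) :
    nm a V = ENNReal.ofReal ((mass V : ℝ) ^ (-a)) := by
  unfold nm
  have h : ((mass V : ℝ≥0) : ℝ≥0∞) = ENNReal.ofReal (mass V : ℝ) := by simp
  rw [h, ENNReal.ofReal_rpow_of_pos (by exact_mod_cast hV)]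

theorem nm_eq_top {a : ℝ} (ha : 0 < a) {V : G → ℝ≥0} (hV : mass V = 0) : nm a V = ⊤ := by
  unfold nm
  rw [hV, ENNReal.coe_zero, ENNReal.zero_rpow_of_neg (by linarith)]

/-- pointwise bound in ENNReal form. -/
theorem crude_pt {q kp lam w l g : ℝ} (hq : 0 < q) (hq1 : q ≤ 1 / 4) (hkp : 0 < kp)
    (hlam : 0 < lam) (hw : 0 < w) (hl : 0 < l) (hg0 : 0 ≤ g) {V : G → ℝ≥0}
    (hg : l * (mass V : ℝ) ^ 2 ≤ g) :
    ENNReal.ofReal (l ^ q) * nm (kp * q) V
      ≤ ENNReal.ofReal (w ^ q) * (1 + (ENNReal.ofReal (3 / 4 * q * lam / w) * ENNReal.ofReal g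
        + ENNReal.ofReal (3 / 4 * q / lam) * nm (kp + 2) V)) := by
  rcases eq_or_ne (mass V) 0 with h0 | h0
  · have h1 : nm (kp + 2) V = ⊤ := nm_eq_top (by linarith) h0
    have h2 : ENNReal.ofReal (3 / 4 * q / lam) ≠ 0 := by
      rw [Ne, ENNReal.ofReal_eq_zero, not_le]
      positivity
    have h3 : ENNReal.ofReal (w ^ q) ≠ 0 := by
      rw [Ne, ENNReal.ofReal_eq_zero, not_le]
      positivity
    rw [h1, ENNReal.mul_top h2]
    simp [ENNReal.mul_top h3]
  · have hpos : 0 < mass V := pos_iff_ne_zero.2 h0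
    have hx : (0 : ℝ) < mass V := by exact_mod_cast hpos
    rw [nm_eq_ofReal hpos, nm_eq_ofReal hpos, ← ENNReal.ofReal_mul (by positivity),
      ← ENNReal.ofReal_mul (by positivity), ← ENNReal.ofReal_mul (by positivity),
      ← ENNReal.ofReal_add (by positivity) (by positivity), ← ENNReal.ofReal_one,
      ← ENNReal.ofReal_add (by positivity) (by positivity),
      ← ENNReal.ofReal_mul (by positivity)]
    apply ENNReal.ofReal_le_ofReal
    refine (crude_pt_real (kp := kp) hq hq1 hlam hw hl.le hx hg).trans (le_of_eq ?_)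
    congr 2
    field_simp
    norm_num

/-- E of the quadratic functional at the stopped time. -/
theorem St_quad_le (hw : Walk p n0) (hm : Law m s C4) {c1 c2 : ℝ} (hc1 : 0 ≤ c1)
    (hc2 : 0 ≤ c2) {N n : ℕ} (hn : N + n ≤ n0) (h1 : N + 1 ≤ n0) (x0 : ℝ≥0) (W : G → ℝ≥0) :
    St p m x0 n (fun V => ENNReal.ofReal (c1 * (mass V : ℝ) ^ 2 + c2 * KK p s N V))
      (fun V => ENNReal.ofReal (c1 * (mass V : ℝ) ^ 2 + c2 * KK p s N V)) W
      ≤ ENNReal.ofReal (c1 * ((mass W : ℝ) ^ 2 + KK p s n W)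
        + c2 * ((mass W : ℝ) ^ 2 + KK p s (N + n) W)) := by
  have := hm.prob
  have hs := hm.s_pos.le
  set F : (G → ℝ≥0) → ℝ≥0∞ := fun V => ENNReal.ofReal c1 * ENNReal.ofReal ((mass V : ℝ) ^ 2)
    + ENNReal.ofReal c2 * ENNReal.ofReal ((mass V : ℝ) ^ 2 + KK p s N V) with hF
  have hm1 : Measurable (fun V : G → ℝ≥0 => ENNReal.ofReal ((mass V : ℝ) ^ 2)) :=
    (measurable_mass.coe_nnreal_real.pow_const 2).ennreal_ofReal
  have hm2 : Measurable (fun V : G → ℝ≥0 => ENNReal.ofReal ((mass V : ℝ) ^ 2 + KK p s N V)) :=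
    ((measurable_mass.coe_nnreal_real.pow_const 2).add (measurable_KK s N)).ennreal_ofReal
  have hle : ∀ V : G → ℝ≥0,
      ENNReal.ofReal (c1 * (mass V : ℝ) ^ 2 + c2 * KK p s N V) ≤ F V := by
    intro V
    have hK := KK_nonneg (p := p) hs N V
    simp only [hF]
    rw [← ENNReal.ofReal_mul hc1, ← ENNReal.ofReal_mul hc2,
      ← ENNReal.ofReal_add (by positivity) (by positivity)]
    apply ENNReal.ofReal_le_ofReal
    nlinarith [mul_nonneg hc2 (sq_nonneg (mass V : ℝ))]
  have hsub : ∀ V, F V ≤ TT p m F V := by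
    intro V
    simp only [hF]
    rw [TT_add (f := fun V : G → ℝ≥0 => ENNReal.ofReal c1 * ENNReal.ofReal ((mass V : ℝ) ^ 2))
      (hm1.const_mul _), TT_const_mul hm1, TT_const_mul hm2, TT_sqmass hw hm,
      TT_sq_KK hw hm (by omega)]
    gcongr
    · have := mul_nonneg hs (aa_nonneg (p := p) V 1)
      linarith
    · exact KK_mono hs V (Nat.le_succ N)
  have hT : (TT p m)^[n] F W = ENNReal.ofReal (c1 * ((mass W : ℝ) ^ 2 + KK p s n W)
        + c2 * ((mass W : ℝ) ^ 2 + KK p s (N + n) W)) := by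
    have hK := KK_nonneg (p := p) hs n W
    have hK' := KK_nonneg (p := p) hs (N + n) W
    simp only [hF]
    rw [TTn_add (f := fun V : G → ℝ≥0 => ENNReal.ofReal c1 * ENNReal.ofReal ((mass V : ℝ) ^ 2))
      (hm1.const_mul _), TTn_const_mul hm1, TTn_const_mul hm2, TTn_sqmass hw hm (by omega),
      TTn_KK hw hm hn, ← ENNReal.ofReal_mul hc1, ← ENNReal.ofReal_mul hc2,
      ← ENNReal.ofReal_add (by positivity) (by positivity)]
  rw [← hT]
  refine le_trans ?_ (St_le_TTn hsub x0 n W)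
  by_cases hW : x0 ≤ mass W
  · exact St_mono (fun V _ => hle V) (fun V _ => hle V) n W hW
  · -- the start is dead: unfold once
    cases n with
    | zero => exact hle W
    | succ n =>
      rw [St_succ, St_succ]
      refine TT_mono (fun V => ?_) W
      split_ifs with h
      · exact St_mono (fun V _ => hle V) (fun V _ => hle V) n V h
      · exact hle V

/-- CASE 3 of the crude recursion: starting measures with bounded K (2N). -/
theorem crude_case3 {N : ℕ} (hN : 1 ≤ N) (hw : Walk p (4 * N)) (hm : Law m s C4)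
    (l : (G → ℝ≥0) → ℝ) (hl1 : ∀ V, 1 ≤ l V) {c1 c2 : ℝ} (hc1 : 0 ≤ c1) (hc2 : 0 ≤ c2)
    (hlG : ∀ V, l V * (mass V : ℝ) ^ 2 ≤ c1 * (mass V : ℝ) ^ 2 + c2 * KK p s N V)
    {kp q D0 C : ℝ} (hkp : 0 < kp) (hkp1 : kp ≤ 1) (hq : 0 < q) (hq1 : q ≤ 1 / 4)
    (hC : 0 ≤ C)
    (hov : ∀ (x0 : ℝ≥0), 0 < x0 → ∀ (a : ℝ), 0 < a → a ≤ 4 → ∀ n ≤ 4 * N, ∀ W : G → ℝ≥0,
        x0 ≤ mass W →
        St p m x0 n (fun _ => 0) (nm a) W
          ≤ ENNReal.ofReal ((2 / (x0 : ℝ)) ^ a) * St p m x0 n (fun _ => 0) (fun _ => 1) W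
            + ENNReal.ofReal (C * Real.sqrt s * (x0 : ℝ) ^ (-(a + 2)) * KK p s n W))
    (A : ℝ≥0∞)
    (hA : ∀ V, (TT p m)^[N] (nm (kp * q)) V ≤ A * (ENNReal.ofReal (l V ^ q) * nm (kp * q) V))
    {W : G → ℝ≥0} (hW : mass W = 1) (hD : 1 + KK p s (2 * N) W ≤ D0)
    (hq2 : q * ((64 * D0) ^ 3 + C * (32 * D0) ^ 5 * D0 + (c1 + c2) * D0) ≤ 1 / (16 * D0)) :
    (TT p m)^[N] (nm (kp * q)) W
      ≤ ENNReal.ofReal ((32 * D0) ^ (kp * q))
        + ENNReal.ofReal (1 - 1 / (16 * D0)) * (A * ENNReal.ofReal (l W ^ q)) := by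
  have := hm.prob
  have hs := hm.s_pos.le
  have hK2 := KK_nonneg (p := p) hs (2 * N) W
  have hKN := KK_nonneg (p := p) hs N W
  have hKN2 : KK p s N W ≤ KK p s (2 * N) W := KK_mono hs W (by omega)
  have hD1 : 1 ≤ D0 := by linarith
  have hD0 : 0 < D0 := by linarith
  set w : ℝ := l W with hw'
  have hw1 : 1 ≤ w := hl1 W
  have hw0 : 0 < w := by linarith
  set x0 : ℝ≥0 := Real.toNNReal (1 / (32 * D0)) with hx0
  have hx0r : (x0 : ℝ) = 1 / (32 * D0) := Real.coe_toNNReal _ (by positivity)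
  have hx0p : 0 < x0 := by
    rw [← NNReal.coe_pos, hx0r]; positivity
  have hx0W : x0 ≤ mass W := by
    rw [hW, ← NNReal.coe_le_coe, hx0r, NNReal.coe_one, div_le_one (by positivity)]
    linarith
  -- exit probability
  set Pe : ℝ≥0∞ := St p m x0 N (fun _ => 0) (fun _ => 1) W with hPe
  have hPe1 : Pe ≤ ENNReal.ofReal (1 - 1 / (8 * D0)) :=
    pz_exit hw hm (by omega) hW (by linarith)
  -- split
  have h1 : (TT p m)^[N] (nm (kp * q)) W
      ≤ St p m x0 N (nm (kp * q)) ((TT p m)^[N] (nm (kp * q))) W := by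
    have h := TTn_le_St' (p := p) (m := m) (f := nm (kp * q))
      (fun V => nm_le_TT hw hm (by positivity) V) x0 (n := N) (N := N) le_rfl W
    exact h
  refine h1.trans ?_
  have hmnm : ∀ a : ℝ, Measurable (nm a : (G → ℝ≥0) → ℝ≥0∞) := fun a => measurable_nm a
  rw [St_split (hmnm _) (measurable_TTn (hmnm _) N)]
  refine add_le_add ?_ ?_
  · -- alive part
    calc St p m x0 N (nm (kp * q)) (fun _ => 0) W
        ≤ St p m x0 N (fun _ => ENNReal.ofReal ((32 * D0) ^ (kp * q)))
            (fun _ => ENNReal.ofReal ((32 * D0) ^ (kp * q))) W := by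
          refine St_mono (fun V hV => ?_) (fun V _ => by simp) N W hx0W
          have hVp : 0 < mass V := lt_of_lt_of_le hx0p hV
          rw [nm_eq_ofReal hVp]
          apply ENNReal.ofReal_le_ofReal
          have hV' : (x0 : ℝ) ≤ mass V := by exact_mod_cast hV
          have h2 : (mass V : ℝ) ^ (-(kp * q)) ≤ (x0 : ℝ) ^ (-(kp * q)) :=
            Real.rpow_le_rpow_of_nonpos (by exact_mod_cast hx0p) hV'
              (by have := mul_pos hkp hq; linarith)
          refine h2.trans (le_of_eq ?_)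
          rw [hx0r, one_div, Real.inv_rpow (by positivity), Real.rpow_neg (by positivity),
            inv_inv]
      _ = ENNReal.ofReal ((32 * D0) ^ (kp * q)) := by
          have h2 := St_const_mul (p := p) (m := m) (f := fun _ : G → ℝ≥0 => (1 : ℝ≥0∞))
            (g := fun _ : G → ℝ≥0 => (1 : ℝ≥0∞)) measurable_const measurable_const
            (ENNReal.ofReal ((32 * D0) ^ (kp * q))) x0 N W
          rw [St_one, mul_one] at h2
          exact h2
  · -- exit part
    set e1 : ℝ≥0∞ := ENNReal.ofReal (3 / 4 * q * 1 / w) with he1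
    set e2 : ℝ≥0∞ := ENNReal.ofReal (3 / 4 * q / 1) with he2
    set Gq : (G → ℝ≥0) → ℝ≥0∞ := fun V =>
      ENNReal.ofReal (c1 * (mass V : ℝ) ^ 2 + c2 * KK p s N V) with hGq
    have hGm : Measurable Gq :=
      (((measurable_mass.coe_nnreal_real.pow_const 2).const_mul c1).add
        ((measurable_KK s N).const_mul c2)).ennreal_ofReal
    have h3 : St p m x0 N (fun _ => 0) ((TT p m)^[N] (nm (kp * q))) W
        ≤ (A * ENNReal.ofReal (w ^ q)) * St p m x0 N (fun _ => 0)
          (fun V => 1 + (e1 * Gq V + e2 * nm (kp + 2) V)) W := by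
      rw [← St_const_mul (f := fun _ => (0 : ℝ≥0∞))
        (g := fun V => 1 + (e1 * Gq V + e2 * nm (kp + 2) V)) measurable_const
        (measurable_const.add ((hGm.const_mul _).add ((hmnm _).const_mul _)))]
      refine St_mono (fun V _ => by simp) (fun V _ => ?_) N W hx0W
      refine (hA V).trans ?_
      rw [mul_assoc]
      refine mul_le_mul_right ?_ A
      exact crude_pt (lam := 1) hq hq1 hkp one_pos hw0 (lt_of_lt_of_le one_pos (hl1 V))
        (by have := KK_nonneg (p := p) hs N V; positivity) (hlG V)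
    refine h3.trans ?_
    rw [mul_comm (ENNReal.ofReal (1 - 1 / (16 * D0)))]
    refine mul_le_mul_right ?_ _
    have h4 : St p m x0 N (fun _ => 0) (fun V => 1 + (e1 * Gq V + e2 * nm (kp + 2) V)) W
        = Pe + (e1 * St p m x0 N (fun _ => 0) Gq W
          + e2 * St p m x0 N (fun _ => 0) (nm (kp + 2)) W) := by
      have ha := St_add (p := p) (m := m) (f := fun _ => (0 : ℝ≥0∞)) (g := fun _ => (1 : ℝ≥0∞))
        (f' := fun _ => (0 : ℝ≥0∞)) (g' := fun V => e1 * Gq V + e2 * nm (kp + 2) V)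
        measurable_const measurable_const x0 N W
      have hb := St_add (p := p) (m := m) (f := fun _ => (0 : ℝ≥0∞)) (g := fun V => e1 * Gq V)
        (f' := fun _ => (0 : ℝ≥0∞)) (g' := fun V => e2 * nm (kp + 2) V)
        measurable_const (hGm.const_mul _) x0 N W
      have hc := St_const_mul (p := p) (m := m) (f := fun _ => (0 : ℝ≥0∞)) (g := Gq)
        measurable_const hGm e1 x0 N W
      have hd := St_const_mul (p := p) (m := m) (f := fun _ => (0 : ℝ≥0∞)) (g := nm (kp + 2))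
        measurable_const (hmnm _) e2 x0 N W
      simp only [add_zero, mul_zero] at ha hb hc hd
      rw [ha, hb, hc, hd]
    rw [h4]
    -- quadratic part
    have h5 : St p m x0 N (fun _ => 0) Gq W ≤ ENNReal.ofReal ((c1 + c2) * D0) := by
      have h6 : St p m x0 N (fun _ => 0) Gq W ≤ St p m x0 N Gq Gq W :=
        St_mono (fun V _ => by simp) (fun V _ => le_rfl) N W hx0W
      refine h6.trans ((St_quad_le hw hm hc1 hc2 (by omega) (by omega) x0 W).trans ?_)
      apply ENNReal.ofReal_le_ofReal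
      rw [hW, NNReal.coe_one, one_pow, show N + N = 2 * N by ring]
      have h7 : c1 * (1 + KK p s N W) ≤ c1 * D0 := by gcongr; linarith
      have h8 : c2 * (1 + KK p s (2 * N) W) ≤ c2 * D0 := by gcongr
      linarith
    -- overshoot
    have h9 : St p m x0 N (fun _ => 0) (nm (kp + 2)) W
        ≤ ENNReal.ofReal ((64 * D0) ^ 3 + C * (32 * D0) ^ 5 * D0) := by
      refine (hov x0 hx0p (kp + 2) (by linarith) (by linarith) N (by omega) W hx0W).trans ?_
      have hPe2 : Pe ≤ 1 := hPe1.trans (by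
        rw [← ENNReal.ofReal_one]
        apply ENNReal.ofReal_le_ofReal
        have : 0 ≤ 1 / (8 * D0) := by positivity
        linarith)
      have h10 : (2 / (x0 : ℝ)) ^ (kp + 2) ≤ (64 * D0) ^ 3 := by
        rw [hx0r, show 2 / (1 / (32 * D0)) = 64 * D0 by field_simp; ring, ← Real.rpow_natCast]
        apply Real.rpow_le_rpow_of_exponent_le (by linarith)
        push_cast
        linarith
      have h11 : (x0 : ℝ) ^ (-(kp + 2 + 2)) ≤ (32 * D0) ^ 5 := by
        rw [hx0r, one_div, Real.inv_rpow (by positivity), Real.rpow_neg (by positivity),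
          inv_inv, ← Real.rpow_natCast]
        apply Real.rpow_le_rpow_of_exponent_le (by linarith)
        push_cast
        linarith
      have h12 : C * Real.sqrt s * (x0 : ℝ) ^ (-(kp + 2 + 2)) * KK p s N W
          ≤ C * 1 * (32 * D0) ^ 5 * D0 := by
        have hs1 : Real.sqrt s ≤ 1 := Real.sqrt_le_one.2 hm.s_le
        have hxp : 0 ≤ (x0 : ℝ) ^ (-(kp + 2 + 2)) := by positivity
        gcongr
        linarith
      rw [ENNReal.ofReal_add (by positivity) (by positivity)]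
      refine add_le_add ?_ (ENNReal.ofReal_le_ofReal (by linarith))
      calc ENNReal.ofReal ((2 / (x0 : ℝ)) ^ (kp + 2)) * Pe
          ≤ ENNReal.ofReal ((64 * D0) ^ 3) * 1 :=
            mul_le_mul' (ENNReal.ofReal_le_ofReal h10) hPe2
        _ = ENNReal.ofReal ((64 * D0) ^ 3) := mul_one _
    calc Pe + (e1 * St p m x0 N (fun _ => 0) Gq W
          + e2 * St p m x0 N (fun _ => 0) (nm (kp + 2)) W)
        ≤ ENNReal.ofReal (1 - 1 / (8 * D0)) + (ENNReal.ofReal q * ENNReal.ofReal ((c1 + c2) * D0)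
          + ENNReal.ofReal q * ENNReal.ofReal ((64 * D0) ^ 3 + C * (32 * D0) ^ 5 * D0)) := by
          refine add_le_add hPe1 (add_le_add (mul_le_mul' ?_ h5) (mul_le_mul' ?_ h9))
          · apply ENNReal.ofReal_le_ofReal
            rw [mul_one]
            rw [div_le_iff₀ hw0]
            nlinarith
          · apply ENNReal.ofReal_le_ofReal
            rw [div_one]
            linarith
      _ ≤ ENNReal.ofReal (1 - 1 / (16 * D0)) := by
          have hle : 1 / (8 * D0) ≤ 1 := by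
            rw [div_le_one (by positivity)]; linarith
          rw [← ENNReal.ofReal_mul hq.le, ← ENNReal.ofReal_mul hq.le,
            ← ENNReal.ofReal_add (by positivity) (by positivity),
            ← ENNReal.ofReal_add (by linarith) (by positivity)]
          apply ENNReal.ofReal_le_ofReal
          have h13 : 1 / (8 * D0) = 2 * (1 / (16 * D0)) := by field_simp; ring
          have h14 : q * ((c1 + c2) * D0) + q * ((64 * D0) ^ 3 + C * (32 * D0) ^ 5 * D0)
              = q * ((64 * D0) ^ 3 + C * (32 * D0) ^ 5 * D0 + (c1 + c2) * D0) := by ring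
          rw [h13, h14]
          linarith

end Pool.A2F
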