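import Mathlib

/-!
# Cubic Taylor bounds for x ^ a and x ^ (-a)
-/

set_option autoImplicit false

open Set

noncomputable section

namespace Pool.A2F

namespace Cubic

/-- Bernoulli for a negative exponent. -/
theorem bern {c x : ℝ} (hc : 0 ≤ c) (hx : 0 < x) : 1 - c * (x - 1) ≤ x ^ (-c) := by
  rw [Real.rpow_def_of_pos hx]
  have h1 := Real.add_one_le_exp (Real.log x * -c)
  have h2 := Real.log_le_sub_one_of_pos hx
  nlinarith

/-- The second order remainder. -/
def kk (p x : ℝ) : ℝ := x ^ p - 1 - p * (x - 1) - p * (p - 1) / 2 * (x - 1) ^ 2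

theorem kk_deriv {p x : ℝ} (hx : 0 < x) :
    HasDerivAt (kk p) (p * (x ^ (p - 1) - 1 - (p - 1) * (x - 1))) x := by
  have h1 : HasDerivAt (fun y : ℝ => y ^ p) (p * x ^ (p - 1)) x :=
    Real.hasDerivAt_rpow_const (Or.inl hx.ne')
  have h2 : HasDerivAt (fun y : ℝ => p * (y - 1)) (p * 1) x :=
    ((hasDerivAt_id x).sub_const 1).const_mul p
  have h3 : HasDerivAt (fun y : ℝ => p * (p - 1) / 2 * (y - 1) ^ 2)
      (p * (p - 1) / 2 * ((2 : ℕ) * (x - 1) ^ (2 - 1) * 1)) x :=
    (((hasDerivAt_id x).sub_const 1).pow 2).const_mul _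
  have h4 := ((h1.sub_const 1).sub h2).sub h3
  refine h4.congr_deriv ?_
  push_cast
  ring

theorem kk_one (p : ℝ) : kk p 1 = 0 := by simp [kk]

theorem kk_anti {p : ℝ} (hp : p ≤ 0) : AntitoneOn (kk p) (Ioi 0) := by
  apply antitoneOn_of_deriv_nonpos (convex_Ioi 0)
  · intro x hx
    exact (kk_deriv hx).continuousAt.continuousWithinAt
  · intro x hx
    rw [interior_Ioi] at hx
    exact (kk_deriv hx).differentiableAt.differentiableWithinAt
  · intro x hx
    rw [interior_Ioi] at hx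
    rw [(kk_deriv hx).deriv]
    have := bern (c := 1 - p) (by linarith) hx
    have e : -(1 - p) = p - 1 := by ring
    rw [e] at this
    apply mul_nonpos_of_nonpos_of_nonneg hp
    linarith

theorem kk_nonneg {p x : ℝ} (hp : p ≤ 0) (hx : 0 < x) (hx1 : x ≤ 1) : 0 ≤ kk p x := by
  rw [← kk_one p]
  exact kk_anti hp (mem_Ioi.mpr hx) (mem_Ioi.mpr one_pos) hx1

theorem kk_nonpos {p x : ℝ} (hp : p ≤ 0) (hx1 : 1 ≤ x) : kk p x ≤ 0 := by
  rw [← kk_one p]
  exact kk_anti hp (mem_Ioi.mpr one_pos) (mem_Ioi.mpr (one_pos.trans_le hx1)) hx1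

/-- The third order remainder. -/
def gg (r x : ℝ) : ℝ := x ^ r - 1 - r * (x - 1) - r * (r - 1) / 2 * (x - 1) ^ 2
  - r * (r - 1) * (r - 2) / 6 * (x - 1) ^ 3

theorem gg_deriv {r x : ℝ} (hx : 0 < x) : HasDerivAt (gg r) (r * kk (r - 1) x) x := by
  have h1 : HasDerivAt (fun y : ℝ => y ^ r) (r * x ^ (r - 1)) x :=
    Real.hasDerivAt_rpow_const (Or.inl hx.ne')
  have h2 : HasDerivAt (fun y : ℝ => r * (y - 1)) (r * 1) x :=
    ((hasDerivAt_id x).sub_const 1).const_mul r
  have h3 : HasDerivAt (fun y : ℝ => r * (r - 1) / 2 * (y - 1) ^ 2)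
      (r * (r - 1) / 2 * ((2 : ℕ) * (x - 1) ^ (2 - 1) * 1)) x :=
    (((hasDerivAt_id x).sub_const 1).pow 2).const_mul _
  have h5 : HasDerivAt (fun y : ℝ => r * (r - 1) * (r - 2) / 6 * (y - 1) ^ 3)
      (r * (r - 1) * (r - 2) / 6 * ((3 : ℕ) * (x - 1) ^ (3 - 1) * 1)) x :=
    (((hasDerivAt_id x).sub_const 1).pow 3).const_mul _
  have h4 := (((h1.sub_const 1).sub h2).sub h3).sub h5
  refine h4.congr_deriv ?_
  unfold kk
  push_cast
  ring

theorem gg_one (r : ℝ) : gg r 1 = 0 := by simp [gg]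

theorem gg_nonpos {r x : ℝ} (h0 : 0 ≤ r) (h1 : r ≤ 1) (hx : 0 < x) : gg r x ≤ 0 := by
  rw [← gg_one r]
  rcases le_total x 1 with h | h
  · have hm : MonotoneOn (gg r) (Ioc 0 1) := by
      apply monotoneOn_of_deriv_nonneg (convex_Ioc 0 1)
      · intro y hy
        exact (gg_deriv hy.1).continuousAt.continuousWithinAt
      · intro y hy
        rw [interior_Ioc] at hy
        exact (gg_deriv hy.1).differentiableAt.differentiableWithinAt
      · intro y hy
        rw [interior_Ioc] at hy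
        rw [(gg_deriv hy.1).deriv]
        exact mul_nonneg h0 (kk_nonneg (by linarith) hy.1 hy.2.le)
    exact hm ⟨hx, h⟩ ⟨one_pos, le_refl _⟩ h
  · have hm : AntitoneOn (gg r) (Ici 1) := by
      apply antitoneOn_of_deriv_nonpos (convex_Ici 1)
      · intro y hy
        exact (gg_deriv (one_pos.trans_le hy)).continuousAt.continuousWithinAt
      · intro y hy
        rw [interior_Ici] at hy
        exact (gg_deriv (one_pos.trans hy)).differentiableAt.differentiableWithinAt
      · intro y hy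
        rw [interior_Ici] at hy
        rw [(gg_deriv (one_pos.trans hy)).deriv]
        exact mul_nonpos_of_nonneg_of_nonpos h0 (kk_nonpos (by linarith) (le_of_lt hy))
    exact hm (mem_Ici.mpr (le_refl _)) (mem_Ici.mpr h) h

theorem gg_nonneg {r x : ℝ} (h0 : r ≤ 0) (hx : 0 < x) : 0 ≤ gg r x := by
  rw [← gg_one r]
  rcases le_total x 1 with h | h
  · have hm : AntitoneOn (gg r) (Ioc 0 1) := by
      apply antitoneOn_of_deriv_nonpos (convex_Ioc 0 1)
      · intro y hy
        exact (gg_deriv hy.1).continuousAt.continuousWithinAt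
      · intro y hy
        rw [interior_Ioc] at hy
        exact (gg_deriv hy.1).differentiableAt.differentiableWithinAt
      · intro y hy
        rw [interior_Ioc] at hy
        rw [(gg_deriv hy.1).deriv]
        exact mul_nonpos_of_nonpos_of_nonneg h0 (kk_nonneg (by linarith) hy.1 hy.2.le)
    exact hm ⟨hx, h⟩ ⟨one_pos, le_refl _⟩ h
  · have hm : MonotoneOn (gg r) (Ici 1) := by
      apply monotoneOn_of_deriv_nonneg (convex_Ici 1)
      · intro y hy
        exact (gg_deriv (one_pos.trans_le hy)).continuousAt.continuousWithinAt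
      · intro y hy
        rw [interior_Ici] at hy
        exact (gg_deriv (one_pos.trans hy)).differentiableAt.differentiableWithinAt
      · intro y hy
        rw [interior_Ici] at hy
        rw [(gg_deriv (one_pos.trans hy)).deriv]
        exact mul_nonneg_of_nonpos_of_nonpos h0 (kk_nonpos (by linarith) (le_of_lt hy))
    exact hm (mem_Ici.mpr (le_refl _)) (mem_Ici.mpr h) h

end Cubic

/-- cubic Taylor bounds -/
theorem rpow_le_cubic {a x : ℝ} (ha : 0 < a) (ha1 : a < 1) (hx : 0 ≤ x) :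
    x ^ a ≤ 1 + a * (x - 1) - a * (1 - a) / 2 * (x - 1) ^ 2
      + a * (1 - a) * (2 - a) / 6 * (x - 1) ^ 3 := by
  rcases hx.eq_or_lt with h | h
  · subst h
    rw [Real.zero_rpow ha.ne']
    nlinarith [mul_pos ha (sub_pos.mpr ha1), mul_pos (mul_pos ha (sub_pos.mpr ha1)) ha,
      mul_pos (sub_pos.mpr ha1) (sub_pos.mpr ha1)]
  · have := Cubic.gg_nonpos ha.le ha1.le h
    unfold Cubic.gg at this
    linarith

theorem cubic_le_rpow_neg {a x : ℝ} (ha : 0 < a) (ha1 : a < 1) (hx : 0 < x) :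
    1 - a * (x - 1) + a * (a + 1) / 2 * (x - 1) ^ 2
      - a * (a + 1) * (a + 2) / 6 * (x - 1) ^ 3 ≤ x ^ (-a) := by
  have := Cubic.gg_nonneg (r := -a) (by linarith) hx
  unfold Cubic.gg at this
  linarith

end Pool.A2F
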