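import Mathlib

/-!
# MP_a2fcbf_pr (S19537): definitions

All the work is done for one layer of the environment at a time.
State of the system: W : G -> NNReal (the unnormalised endpoint measure of the polymer),
one step: W |-> (W P) * xi with xi : G -> NNReal an i.i.d. layer.
-/

set_option autoImplicit false

open MeasureTheory Finset
open scoped ENNReal NNReal

noncomputable section

namespace Pool.A2F

/-! ## 1. Renewal sequences -/

/-- u n = (C(2n,n)/4^n)^2, the probability that SRW on Z^2 is back at time 2n. -/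
def uu (n : ℕ) : ℝ := ((Nat.centralBinom n : ℝ) / 4 ^ n) ^ 2

/-- R n = u 1 + ... + u n. -/
def RR (n : ℕ) : ℝ := ∑ k ∈ range n, uu (k + 1)

/-- The level of the scale n: rho n = pi/s - pi * R n (about log (N/n)). Decreasing in n. -/
def rho (s : ℝ) (n : ℕ) : ℝ := Real.pi / s - Real.pi * RR n

/-- Renewal masses: Ut 0 = 1, Ut n = s * (u n * Ut 0 + ... + u 1 * Ut (n-1)). -/
def Ut (s : ℝ) : ℕ → ℝ
  | 0 => 1
  | n + 1 => s * ∑ k : Fin (n + 1), uu (n + 1 - k.1) * Ut s k.1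
termination_by n => n
decreasing_by exact k.2

/-- U n = Ut 0 + ... + Ut n = E_0 (1+s)^(number of returns up to time n). -/
def UU (s : ℝ) (n : ℕ) : ℝ := ∑ k ∈ range (n + 1), Ut s k

/-- V k i = sum_(l=0..i) Ut l * u (k+i-l). -/
def VV (s : ℝ) (k i : ℕ) : ℝ := ∑ l ∈ range (i + 1), Ut s l * uu (k + (i - l))

/-! ## 2. The walk on a finite abelian group -/

variable {G : Type} [Fintype G] [DecidableEq G] [AddCommGroup G]

/-- One free step of the walk. -/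
def conv (p W : G → ℝ≥0) : G → ℝ≥0 := fun x => ∑ y, W y * p (x - y)

/-- The k step kernel. -/
def pk (p : G → ℝ≥0) (k : ℕ) : G → ℝ≥0 := (conv p)^[k] (Pi.single 0 1)

/-- Total mass. -/
def mass (W : G → ℝ≥0) : ℝ≥0 := ∑ x, W x

/-- Sum of squares. -/
def sq (W : G → ℝ≥0) : ℝ := ∑ x, (W x : ℝ) ^ 2

/-- a k = sum of squares of W P^k. -/
def aa (p W : G → ℝ≥0) (k : ℕ) : ℝ := sq ((conv p)^[k] W)

/-- Symmetric probability step distribution whose return probabilities at even times up to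
`2 * n0` are those of simple random walk on Z^2. -/
structure Walk (p : G → ℝ≥0) (n0 : ℕ) : Prop where
  one : ∑ x, p x = 1
  symm : ∀ x, p (-x) = p x
  ret : ∀ n ≤ n0, ((pk p (2 * n) 0 : ℝ≥0) : ℝ) = uu n

/-- K n W = E|W_n|^2 - |W|^2 = s * sum_(k=1..n) a k * U (n-k). -/
def KK (p : G → ℝ≥0) (s : ℝ) (n : ℕ) (W : G → ℝ≥0) : ℝ :=
  s * ∑ k ∈ range n, aa p W (k + 1) * UU s (n - 1 - k)

/-- Riesz energy at scale t: sum_(k=1..t) sqrt (t/k) * a k. -/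
def Rz (p : G → ℝ≥0) (t : ℕ) (W : G → ℝ≥0) : ℝ :=
  ∑ k ∈ range t, Real.sqrt ((t : ℝ) / ((k : ℝ) + 1)) * aa p W (k + 1)

/-! ## 3. The environment and the operator T -/

/-- Moments of the law m of zeta = exp (beta * omega - lambda beta); s = Var zeta. -/
structure Law (m : Measure ℝ≥0) (s C4 : ℝ) : Prop where
  prob : IsProbabilityMeasure m
  s_pos : 0 < s
  s_le : s ≤ 1
  m1 : ∫⁻ x, (x : ℝ≥0∞) ∂m = 1
  m2 : ∫⁻ x, (x : ℝ≥0∞) ^ 2 ∂m = ENNReal.ofReal (1 + s)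
  m3 : ∫⁻ x, (x : ℝ≥0∞) ^ 3 ∂m ≤ ENNReal.ofReal (1 + 5 * s)
  m4 : ∫⁻ x, ENNReal.ofReal (((x : ℝ) - 1) ^ 4) ∂m ≤ ENNReal.ofReal (C4 * s ^ 2)
  neg : ∫⁻ x, ((x : ℝ≥0∞)⁻¹) ^ 16 ∂m ≤ 2

/-- One step of the polymer: W |-> (W P) * xi. -/
def upd (p W ξ : G → ℝ≥0) : G → ℝ≥0 := fun x => conv p W x * ξ x

/-- The transition operator: (T f) W = E f ((W P) * xi). -/
def TT (p : G → ℝ≥0) (m : Measure ℝ≥0) (f : (G → ℝ≥0) → ℝ≥0∞) : (G → ℝ≥0) → ℝ≥0∞ :=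
  fun W => ∫⁻ ξ, f (upd p W ξ) ∂(Measure.pi fun _ : G => m)

/-- Stopped expectation. With T = first time k in 1..n with |W_k| < x0:
St n f g W = E_W [f (W_n) ; T > n] + E_W [g (W_T) ; T <= n]. -/
def St (p : G → ℝ≥0) (m : Measure ℝ≥0) (x0 : ℝ≥0) (n : ℕ) (f g : (G → ℝ≥0) → ℝ≥0∞) :
    (G → ℝ≥0) → ℝ≥0∞ :=
  (fun F => TT p m (fun W => if x0 ≤ mass W then F W else g W))^[n] f

/-- |W|^(-a). -/
def nm (a : ℝ) (W : G → ℝ≥0) : ℝ≥0∞ := ((mass W : ℝ≥0) : ℝ≥0∞) ^ (-a)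

/-- |W|^a. -/
def pm (a : ℝ) (W : G → ℝ≥0) : ℝ≥0∞ := ((mass W : ℝ≥0) : ℝ≥0∞) ^ a

/-- The point mass at 0. -/
def dl : G → ℝ≥0 := Pi.single 0 1

/-- Critical window. -/
structure Win (Θ : ℝ) (N : ℕ) (s : ℝ) : Prop where
  pos : 0 < s
  win : |(s * RR N - 1) * Real.log N| ≤ Θ

end Pool.A2F
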