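import Pool.Agent.A2F.Jan
import Pool.Agent.A2F.Cvx

/-!
# Module Exit: exit probabilities
-/

set_option autoImplicit false

open MeasureTheory Finset
open scoped ENNReal NNReal

noncomputable section

namespace Pool.A2F

variable {G : Type} [Fintype G] [DecidableEq G] [AddCommGroup G]
variable {p : G → ℝ≥0} {m : Measure ℝ≥0} {n0 : ℕ} {s C4 : ℝ}

/-- Markov: P(|W_n| < c) >= 1 - x0/c if |W| <= x0. -/
theorem exit_markov_mass (hw : Walk p n0) (hm : Law m s C4) {x0 c : ℝ≥0} (hc : 0 < c)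
    (n : ℕ) {V : G → ℝ≥0} (hV : mass V ≤ x0) :
    ENNReal.ofReal (1 - (x0 : ℝ) / c)
      ≤ (TT p m)^[n] (fun V => if mass V < c then 1 else 0) V := by
  have := hm.prob
  have hms : Measurable (fun V : G → ℝ≥0 => if mass V < c then (1 : ℝ≥0∞) else 0) :=
    Measurable.ite (measurableSet_lt measurable_mass measurable_const) measurable_const
      measurable_const
  have h1 : (TT p m)^[n] (fun V => (if mass V < c then 1 else 0) +
      (c : ℝ≥0∞)⁻¹ * (mass V : ℝ≥0∞)) V
      = (TT p m)^[n] (fun V => if mass V < c then 1 else 0) V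
        + (c : ℝ≥0∞)⁻¹ * (mass V : ℝ≥0∞) := by
    rw [TTn_add hms, TTn_const_mul measurable_mass.coe_nnreal_ennreal, TTn_mass hw hm]
  have hc0 : (c : ℝ≥0∞) ≠ 0 := by
    simpa using hc.ne'
  have h2 : (1 : ℝ≥0∞) ≤ (TT p m)^[n] (fun V => (if mass V < c then 1 else 0) +
      (c : ℝ≥0∞)⁻¹ * (mass V : ℝ≥0∞)) V := by
    refine (TTn_const (p := p) (m := m) 1 n V).symm.le.trans ?_
    apply TTn_mono
    intro U
    by_cases hU : mass U < c
    · simp only [if_pos hU]
      exact le_self_add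
    · simp only [if_neg hU, zero_add]
      push Not at hU
      calc (1 : ℝ≥0∞) = (c : ℝ≥0∞)⁻¹ * (c : ℝ≥0∞) :=
            (ENNReal.inv_mul_cancel hc0 ENNReal.coe_ne_top).symm
        _ ≤ (c : ℝ≥0∞)⁻¹ * (mass U : ℝ≥0∞) := by gcongr
  rw [h1] at h2
  have h3 : (c : ℝ≥0∞)⁻¹ * (mass V : ℝ≥0∞) ≤ ENNReal.ofReal ((x0 : ℝ) / c) := by
    have : ENNReal.ofReal ((x0 : ℝ) / c) = (c : ℝ≥0∞)⁻¹ * (x0 : ℝ≥0∞) := by
      rw [div_eq_inv_mul, ENNReal.ofReal_mul (by positivity),
        ENNReal.ofReal_inv_of_pos (by exact_mod_cast hc)]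
      simp
    rw [this]
    gcongr
  calc ENNReal.ofReal (1 - (x0 : ℝ) / c)
      = 1 - ENNReal.ofReal ((x0 : ℝ) / c) := by
        rw [ENNReal.ofReal_sub _ (by positivity), ENNReal.ofReal_one]
    _ ≤ (TT p m)^[n] (fun V => if mass V < c then 1 else 0) V := by
        rw [tsub_le_iff_right]
        exact h2.trans (by gcongr)

/-- Ottaviani: P(T <= n) (1 - x0/c) <= P(|W_n| < c). -/
theorem ottaviani (hw : Walk p n0) (hm : Law m s C4) {x0 c : ℝ≥0} (hc : 0 < c) (hx : x0 ≤ c)
    (n : ℕ) (W : G → ℝ≥0) :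
    ENNReal.ofReal (1 - (x0 : ℝ) / c) * St p m x0 n (fun _ => 0) (fun _ => 1) W
      ≤ (TT p m)^[n] (fun V => if mass V < c then 1 else 0) W := by
  have := hm.prob
  induction n generalizing W with
  | zero => simp [St_zero]
  | succ n ih =>
    rw [St_succ, Function.iterate_succ_apply', ← TT_const_mul]
    · apply TT_mono
      intro V
      by_cases hV : x0 ≤ mass V
      · rw [if_pos hV]
        exact ih V
      · rw [if_neg hV, mul_one]
        push Not at hV
        exact exit_markov_mass hw hm hc n hV.le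
    · exact Measurable.ite (measurableSet_le measurable_const measurable_mass)
        (measurable_St measurable_const measurable_const x0 n) measurable_const

theorem exit_energy_le (hm : Law m s C4) (b : ℕ) (W : G → ℝ≥0) :
    s * ∑ k ∈ range b, aa p W (k + 1) ≤ KK p s b W := by
  unfold KK
  have hs := hm.s_pos
  apply mul_le_mul_of_nonneg_left _ hs.le
  apply sum_le_sum
  intro k _
  have h1 := one_le_UU hs.le (b - 1 - k)
  have h2 := aa_nonneg (p := p) W (k + 1)
  nlinarith

theorem exit_QJ_le (hm : Law m s C4) {b : ℕ} (hR : 1 / 2 ≤ s * RR b) (W : G → ℝ≥0) :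
    QJ p s b W ≤ 5 * KK p s b W := by
  unfold QJ
  have hs := hm.s_pos
  have h1 := exit_energy_le (p := p) hm b W
  have h2 : 0 ≤ ∑ k ∈ range b, aa p W (k + 1) :=
    sum_nonneg fun k _ => aa_nonneg W (k + 1)
  have hRp : 0 < RR b := by
    by_contra h
    push Not at h
    nlinarith
  have h3 : 2 / (1 + RR b) ≤ 4 * s := by
    rw [div_le_iff₀ (by positivity)]
    nlinarith
  have h4 : 2 / (1 + RR b) * ∑ k ∈ range b, aa p W (k + 1)
      ≤ 4 * s * ∑ k ∈ range b, aa p W (k + 1) := mul_le_mul_of_nonneg_right h3 h2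
  linarith

theorem exit_QJ_smul (c : ℝ≥0) (b : ℕ) (W : G → ℝ≥0) :
    QJ p s b (c • W) = (c : ℝ) ^ 2 * QJ p s b W := by
  unfold QJ
  rw [KK_smul]
  simp only [aa_smul, ← mul_sum]
  ring

/-- lower tail of a block (Janson), in terms of QJ. -/
theorem tail_QJ (hw : Walk p n0) (hm : Law m s C4) {b : ℕ} (hb : 2 * b ≤ n0)
    {W : G → ℝ≥0} (hW : mass W = 1) {κ : ℝ} (hκ : 0 < κ)
    (hK : QJ p s b W ≤ κ) {η : ℝ} (h0 : 0 < η) :
    (TT p m)^[b] (fun V => if (mass V : ℝ) ≤ 1 - η then 1 else 0) W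
      ≤ ENNReal.ofReal (Real.exp (-(η ^ 2 / (2 * κ)))) := by
  have := hm.prob
  set u : ℝ≥0 := Real.toNNReal (η / κ) with hu
  have hu' : (u : ℝ) = η / κ := Real.coe_toNNReal _ (by positivity)
  have hmass : ∀ V : G → ℝ≥0, (mass (u • V) : ℝ) = u * mass V := by
    intro V
    unfold mass
    simp [mul_sum]
  have hmeas : Measurable (fun V : G → ℝ≥0 => ENNReal.ofReal (Real.exp (-(mass V : ℝ)))) :=
    (Real.measurable_exp.comp measurable_mass.coe_nnreal_real.neg).ennreal_ofReal
  have hmeas2 : Measurable (fun V : G → ℝ≥0 =>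
      ENNReal.ofReal (Real.exp (-(mass (u • V) : ℝ)))) := by
    simp only [hmass]
    exact (Real.measurable_exp.comp
      ((measurable_mass.coe_nnreal_real.const_mul _).neg)).ennreal_ofReal
  calc (TT p m)^[b] (fun V => if (mass V : ℝ) ≤ 1 - η then 1 else 0) W
      ≤ (TT p m)^[b] (fun V => ENNReal.ofReal (Real.exp (u * (1 - η))) *
          ENNReal.ofReal (Real.exp (-(mass (u • V) : ℝ)))) W := by
        apply TTn_mono
        intro V
        split_ifs with hV
        · rw [← ENNReal.ofReal_mul (by positivity), ← Real.exp_add]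
          rw [← ENNReal.ofReal_one]
          apply ENNReal.ofReal_le_ofReal
          apply Real.one_le_exp
          rw [hmass]
          have : (0 : ℝ) ≤ u := u.2
          nlinarith
        · exact zero_le
    _ = ENNReal.ofReal (Real.exp (u * (1 - η))) *
          (TT p m)^[b] (fun V => ENNReal.ofReal (Real.exp (-(mass V : ℝ)))) (u • W) := by
        rw [TTn_const_mul hmeas2, TTn_smul]
    _ ≤ ENNReal.ofReal (Real.exp (u * (1 - η))) *
          ENNReal.ofReal (Real.exp (-(mass (u • W) : ℝ) + QJ p s b (u • W) / 2)) := by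
        gcongr
        exact janson hw hm hb (u • W)
    _ ≤ ENNReal.ofReal (Real.exp (-(η ^ 2 / (2 * κ)))) := by
        rw [← ENNReal.ofReal_mul (by positivity), ← Real.exp_add]
        apply ENNReal.ofReal_le_ofReal
        apply Real.exp_le_exp.mpr
        rw [hmass, hW, exit_QJ_smul, hu']
        have h2 : (η / κ) ^ 2 * QJ p s b W ≤ (η / κ) ^ 2 * κ :=
          mul_le_mul_of_nonneg_left hK (by positivity)
        have h3 : (η / κ) ^ 2 * κ = η ^ 2 / κ := by
          field_simp
        have h4 : η / κ * (1 - η) + (-(η / κ * ((1 : ℝ≥0) : ℝ)) +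
            (η ^ 2 / κ) / 2) = -(η ^ 2 / (2 * κ)) := by
          simp only [NNReal.coe_one]
          field_simp
          ring
        rw [h3] at h2
        linarith

/-- exit probability of a block, in terms of QJ. -/
theorem exit_le_QJ (hw : Walk p n0) (hm : Law m s C4) {b : ℕ} (hb : 2 * b ≤ n0)
    {W : G → ℝ≥0} (hW : mass W = 1) {κ : ℝ} (hκ : 0 < κ)
    (hK : QJ p s b W ≤ κ) {η : ℝ} (h0 : 0 < η) (h1 : η ≤ 1 / 4) :
    St p m (Real.toNNReal (1 - 2 * η)) b (fun _ => 0) (fun _ => 1) W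
      ≤ ENNReal.ofReal (1 / η * Real.exp (-(η ^ 2 / (2 * κ)))) := by
  have hc : 0 < Real.toNNReal (1 - η) := Real.toNNReal_pos.mpr (by linarith)
  have hx : Real.toNNReal (1 - 2 * η) ≤ Real.toNNReal (1 - η) :=
    Real.toNNReal_le_toNNReal (by linarith)
  have h2 := ottaviani hw hm hc hx b W
  have h3 := tail_QJ hw hm hb hW hκ hK h0
  have h4 : (TT p m)^[b] (fun V => if mass V < Real.toNNReal (1 - η) then 1 else 0) W
      ≤ (TT p m)^[b] (fun V => if (mass V : ℝ) ≤ 1 - η then 1 else 0) W := by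
    apply TTn_mono
    intro V
    by_cases hV : mass V < Real.toNNReal (1 - η)
    · have : (mass V : ℝ) ≤ 1 - η := by
        have := NNReal.coe_lt_coe.mpr hV
        rw [Real.coe_toNNReal _ (by linarith)] at this
        exact this.le
      rw [if_pos hV, if_pos this]
    · rw [if_neg hV]
      exact zero_le
  have h5 : ENNReal.ofReal η ≤ ENNReal.ofReal
      (1 - ((Real.toNNReal (1 - 2 * η) : ℝ≥0) : ℝ) / ((Real.toNNReal (1 - η) : ℝ≥0) : ℝ)) := by
    apply ENNReal.ofReal_le_ofReal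
    rw [Real.coe_toNNReal _ (by linarith), Real.coe_toNNReal _ (by linarith), le_sub_iff_add_le,
      ← le_sub_iff_add_le', div_le_iff₀ (by linarith)]
    nlinarith
  have h6 : ENNReal.ofReal η * St p m (Real.toNNReal (1 - 2 * η)) b (fun _ => 0) (fun _ => 1) W
      ≤ ENNReal.ofReal (Real.exp (-(η ^ 2 / (2 * κ)))) := by
    calc ENNReal.ofReal η * St p m (Real.toNNReal (1 - 2 * η)) b (fun _ => 0) (fun _ => 1) W
        ≤ _ := by gcongr
      _ ≤ _ := h2
      _ ≤ _ := h4
      _ ≤ _ := h3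
  rw [mul_comm, ← ENNReal.le_div_iff_mul_le (by left; simpa using h0)
    (by left; exact ENNReal.ofReal_ne_top)] at h6
  refine h6.trans (le_of_eq ?_)
  rw [← ENNReal.ofReal_div_of_pos h0]
  congr 1
  ring

/-- lower tail of a block (Janson). -/
theorem tail_janson (hw : Walk p n0) (hm : Law m s C4) {b : ℕ} (hb : 2 * b ≤ n0)
    (hR : 1 / 2 ≤ s * RR b) {W : G → ℝ≥0} (hW : mass W = 1) {κ : ℝ} (hκ : 0 < κ)
    (hK : KK p s b W ≤ κ) {η : ℝ} (h0 : 0 < η) (h1 : η < 1) :
    (TT p m)^[b] (fun V => if (mass V : ℝ) ≤ 1 - η then 1 else 0) W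
      ≤ ENNReal.ofReal (Real.exp (-(η ^ 2 / (10 * κ)))) := by
  have h2 := tail_QJ hw hm hb hW (κ := 5 * κ) (by positivity)
    ((exit_QJ_le hm hR W).trans (by linarith)) h0
  have e : 2 * (5 * κ) = 10 * κ := by ring
  rwa [e] at h2

/-- exit probability of a block. -/
theorem exit_le (hw : Walk p n0) (hm : Law m s C4) {b : ℕ} (hb : 2 * b ≤ n0)
    (hR : 1 / 2 ≤ s * RR b) {W : G → ℝ≥0} (hW : mass W = 1) {κ : ℝ} (hκ : 0 < κ)
    (hK : KK p s b W ≤ κ) {η : ℝ} (h0 : 0 < η) (h1 : η ≤ 1 / 4) :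
    St p m (Real.toNNReal (1 - 2 * η)) b (fun _ => 0) (fun _ => 1) W
      ≤ ENNReal.ofReal (1 / η * Real.exp (-(η ^ 2 / (10 * κ)))) := by
  have h2 := exit_le_QJ hw hm hb hW (κ := 5 * κ) (by positivity)
    ((exit_QJ_le hm hR W).trans (by linarith)) h0 h1
  have e : 2 * (5 * κ) = 10 * κ := by ring
  rwa [e] at h2

/-- Paley-Zygmund. -/
theorem pz (hw : Walk p n0) (hm : Law m s C4) {n : ℕ} (hn : n ≤ n0) {W : G → ℝ≥0}
    (hW : mass W = 1) {D : ℝ} (hD : 1 + KK p s n W ≤ D) :
    (TT p m)^[n] (fun V => if mass V < 1 / 2 then 1 else 0) W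
      ≤ ENNReal.ofReal (1 - 1 / (4 * D)) := by
  have := hm.prob
  have hK0 := KK_nonneg (p := p) hm.s_pos.le n W
  have hD1 : 1 ≤ D := by linarith
  have hD0 : 0 < D := by linarith
  have hms : Measurable (fun V : G → ℝ≥0 => if mass V < 1 / 2 then (1 : ℝ≥0∞) else 0) :=
    Measurable.ite (measurableSet_lt measurable_mass measurable_const) measurable_const
      measurable_const
  have hsqm : Measurable (fun V : G → ℝ≥0 => ENNReal.ofReal ((mass V : ℝ) ^ 2)) :=
    (measurable_mass.coe_nnreal_real.pow_const 2).ennreal_ofReal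
  set P := (TT p m)^[n] (fun V => if mass V < 1 / 2 then 1 else 0) W with hP
  have hA : (TT p m)^[n] (fun V => (mass V : ℝ≥0∞) +
      ENNReal.ofReal D * (if mass V < 1 / 2 then 1 else 0)) W = 1 + ENNReal.ofReal D * P := by
    rw [TTn_add measurable_mass.coe_nnreal_ennreal, TTn_mass hw hm, TTn_const_mul hms, hW, hP]
    simp
  have hB : (TT p m)^[n] (fun V => ENNReal.ofReal (1 / 2 + D) +
      ENNReal.ofReal (1 / (4 * D)) * ENNReal.ofReal ((mass V : ℝ) ^ 2)) W
      ≤ ENNReal.ofReal (D + 3 / 4) := by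
    rw [TTn_add measurable_const, TTn_const, TTn_const_mul hsqm, TTn_sqmass hw hm hn,
      ← ENNReal.ofReal_mul (by positivity), ← ENNReal.ofReal_add (by positivity)
        (by positivity)]
    apply ENNReal.ofReal_le_ofReal
    rw [hW]
    have : 1 / (4 * D) * (((1 : ℝ≥0) : ℝ) ^ 2 + KK p s n W) ≤ 1 / 4 := by
      rw [NNReal.coe_one, one_pow]
      calc 1 / (4 * D) * (1 + KK p s n W) ≤ 1 / (4 * D) * D := by gcongr
        _ = 1 / 4 := by field_simp
    linarith
  have hAB : 1 + ENNReal.ofReal D * P ≤ ENNReal.ofReal (D + 3 / 4) := by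
    rw [← hA]
    refine le_trans (TTn_mono ?_ n W) hB
    intro V
    have hm0 : (0 : ℝ) ≤ mass V := (mass V).2
    have hsq : (0 : ℝ) ≤ ((mass V : ℝ) - 2 * D) ^ 2 := sq_nonneg _
    have hx : (mass V : ℝ) ≤ D + 1 / (4 * D) * (mass V : ℝ) ^ 2 := by
      have h1 : D + 1 / (4 * D) * (mass V : ℝ) ^ 2 - (mass V : ℝ)
          = 1 / (4 * D) * ((mass V : ℝ) - 2 * D) ^ 2 := by
        field_simp
        ring
      have h2 : 0 ≤ 1 / (4 * D) * ((mass V : ℝ) - 2 * D) ^ 2 := by positivity
      linarith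
    have hmV : (mass V : ℝ≥0∞) = ENNReal.ofReal (mass V : ℝ) := by simp
    rw [hmV]
    by_cases hV : mass V < 1 / 2
    · rw [if_pos hV, mul_one, ← ENNReal.ofReal_add hm0 hD0.le,
        ← ENNReal.ofReal_mul (by positivity), ← ENNReal.ofReal_add (by positivity)
          (by positivity)]
      apply ENNReal.ofReal_le_ofReal
      have hV' : (mass V : ℝ) < 1 / 2 := by exact_mod_cast hV
      have : 0 ≤ 1 / (4 * D) * (mass V : ℝ) ^ 2 := by positivity
      linarith
    · rw [if_neg hV, mul_zero, add_zero, ← ENNReal.ofReal_mul (by positivity),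
        ← ENNReal.ofReal_add (by positivity) (by positivity)]
      apply ENNReal.ofReal_le_ofReal
      linarith
  have hPtop : P ≠ ⊤ := by
    intro h
    rw [h, ENNReal.mul_top (by simpa using hD0)] at hAB
    simp at hAB
  have hPr : D * P.toReal ≤ D - 1 / 4 := by
    have h1 := ENNReal.toReal_mono ENNReal.ofReal_ne_top hAB
    rw [ENNReal.toReal_add ENNReal.one_ne_top (ENNReal.mul_ne_top ENNReal.ofReal_ne_top hPtop),
      ENNReal.toReal_mul, ENNReal.toReal_ofReal hD0.le, ENNReal.toReal_ofReal (by linarith),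
      ENNReal.toReal_one] at h1
    linarith
  rw [← ENNReal.ofReal_toReal hPtop]
  apply ENNReal.ofReal_le_ofReal
  have h2 : D * P.toReal ≤ D * (1 - 1 / (4 * D)) := by
    have : D * (1 - 1 / (4 * D)) = D - 1 / 4 := by field_simp
    linarith
  exact le_of_mul_le_mul_left h2 hD0

theorem pz_exit (hw : Walk p n0) (hm : Law m s C4) {n : ℕ} (hn : n ≤ n0) {W : G → ℝ≥0}
    (hW : mass W = 1) {D : ℝ} (hD : 1 + KK p s n W ≤ D) :
    St p m (Real.toNNReal (1 / (32 * D))) n (fun _ => 0) (fun _ => 1) W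
      ≤ ENNReal.ofReal (1 - 1 / (8 * D)) := by
  have := hm.prob
  have hK0 := KK_nonneg (p := p) hm.s_pos.le n W
  have hD1 : 1 ≤ D := by linarith
  have hD0 : 0 < D := by linarith
  have hc : (0 : ℝ≥0) < 1 / 2 := by positivity
  have hi : 1 / D ≤ 1 := by rw [div_le_iff₀ hD0]; linarith
  have hi0 : 0 < 1 / D := by positivity
  have hx : Real.toNNReal (1 / (32 * D)) ≤ 1 / 2 := by
    rw [Real.toNNReal_le_iff_le_coe]
    have : 1 / (32 * D) = 1 / 32 * (1 / D) := by field_simp
    rw [this]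
    push_cast
    linarith
  have h2 := (ottaviani hw hm hc hx n W).trans (pz hw hm hn hW hD)
  have h3 : (1 : ℝ) - ((Real.toNNReal (1 / (32 * D)) : ℝ≥0) : ℝ) / ((1 / 2 : ℝ≥0) : ℝ)
      = 1 - 1 / (16 * D) := by
    rw [Real.coe_toNNReal _ (by positivity)]
    push_cast
    field_simp
    ring
  rw [h3] at h2
  have h4 : 1 / (16 * D) = 1 / 16 * (1 / D) := by field_simp
  have h5 : 1 / (8 * D) = 1 / 8 * (1 / D) := by field_simp
  have h6 : 1 / (4 * D) = 1 / 4 * (1 / D) := by field_simp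
  have hpos : 0 < 1 - 1 / (16 * D) := by rw [h4]; linarith
  rw [mul_comm, ← ENNReal.le_div_iff_mul_le (by left; simpa using hpos)
    (by left; exact ENNReal.ofReal_ne_top), ← ENNReal.ofReal_div_of_pos hpos] at h2
  refine h2.trans (ENNReal.ofReal_le_ofReal ?_)
  rw [div_le_iff₀ hpos, h4, h5, h6]
  nlinarith

/-- second order Taylor bound for x^(-a). -/
theorem exit_rpow_taylor {a r x : ℝ} (ha : 0 < a) (ha1 : a ≤ 1) (hr : 0 < r) (hr1 : r ≤ 1)
    (hx : r ≤ x) :
    x ^ (-a) ≤ 1 - a * (x - 1) + a * (a + 1) / 2 * r⁻¹ ^ 3 * (x - 1) ^ 2 := by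
  set c := a * (a + 1) / 2 * r⁻¹ ^ 3 with hc
  have hri : 1 ≤ r⁻¹ := (one_le_inv₀ hr).mpr hr1
  have hri3 : 1 ≤ r⁻¹ ^ 3 := one_le_pow₀ hri
  have hri23 : r⁻¹ ^ 2 ≤ r⁻¹ ^ 3 := pow_le_pow_right₀ hri (by norm_num)
  have hc1 : a * (a + 1) ≤ 2 * c := by
    rw [hc]
    have : 0 < a * (a + 1) := by positivity
    nlinarith
  have hc2 : a * (a + 1) * r⁻¹ ^ 2 ≤ 2 * c := by
    rw [hc]
    have : 0 < a * (a + 1) := by positivity
    nlinarith
  let f : ℝ → ℝ := fun y => 1 - a * (y - 1) + c * (y - 1) ^ 2 - y ^ (-a)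
  have hf : ∀ y : ℝ, 0 < y → HasDerivAt f (-a + 2 * c * (y - 1) + a * y ^ (-a - 1)) y := by
    intro y hy
    have h1 : HasDerivAt (fun y : ℝ => y ^ (-a)) (-a * y ^ (-a - 1)) y := by
      have := (hasDerivAt_id y).rpow_const (p := -a) (Or.inl hy.ne')
      simpa using this
    have h2 : HasDerivAt (fun y : ℝ => 1 - a * (y - 1) + c * (y - 1) ^ 2)
        (-a + 2 * c * (y - 1)) y := by
      have h3 : HasDerivAt (fun y : ℝ => y - 1) 1 y := (hasDerivAt_id y).sub_const 1
      have h4 := ((h3.const_mul a).const_sub 1).add ((h3.pow 2).const_mul c)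
      have e : -a + 2 * c * (y - 1) = -(a * 1) + c * (((2 : ℕ) : ℝ) * (y - 1) ^ (2 - 1) * 1) := by
        norm_num
        ring
      rw [e]
      exact h4
    have h5 := h2.sub h1
    have e : -a + 2 * c * (y - 1) + a * y ^ (-a - 1)
        = -a + 2 * c * (y - 1) - -a * y ^ (-a - 1) := by ring
    rw [e]
    exact h5
  have hf1 : f 1 = 0 := by simp [f]
  have hcont : ContinuousOn f (Set.Ioi 0) := fun y hy => (hf y hy).continuousAt.continuousWithinAt
  suffices h : 0 ≤ f x by
    have : f x = 1 - a * (x - 1) + c * (x - 1) ^ 2 - x ^ (-a) := rfl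
    linarith
  rcases le_total 1 x with h1x | hx1
  · have hmono : MonotoneOn f (Set.Ici 1) := by
      apply monotoneOn_of_deriv_nonneg (convex_Ici 1)
        (hcont.mono fun y (hy : 1 ≤ y) => (lt_of_lt_of_le one_pos hy : (0 : ℝ) < y))
      · intro y hy
        rw [interior_Ici] at hy
        exact (hf y (lt_trans one_pos hy)).differentiableAt.differentiableWithinAt
      · intro y hy
        rw [interior_Ici] at hy
        have hy1 : 1 < y := hy
        have hy0 : 0 < y := lt_trans one_pos hy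
        rw [(hf y hy0).deriv]
        have hb : 1 + (a + 1) * (y⁻¹ - 1) ≤ y ^ (-a - 1) := by
          have := one_add_mul_self_le_rpow_one_add (s := y⁻¹ - 1) (p := a + 1)
            (by have : 0 < y⁻¹ := by positivity
                linarith) (by linarith)
          have e : (1 + (y⁻¹ - 1)) ^ (a + 1) = y ^ (-a - 1) := by
            rw [add_sub_cancel, Real.inv_rpow hy0.le, ← Real.rpow_neg hy0.le]
            congr 1
            ring
          rw [e] at this
          exact this
        have hy2 : y⁻¹ - 1 ≥ -(y - 1) := by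
          have : y⁻¹ * y = 1 := inv_mul_cancel₀ hy0.ne'
          have : 0 < y⁻¹ := by positivity
          nlinarith
        have hb2 : 1 - (a + 1) * (y - 1) ≤ y ^ (-a - 1) := by
          have : (a + 1) * (y⁻¹ - 1) ≥ (a + 1) * (-(y - 1)) :=
            mul_le_mul_of_nonneg_left hy2 (by linarith)
          linarith
        have h5 : a * (1 - (a + 1) * (y - 1)) ≤ a * y ^ (-a - 1) :=
          mul_le_mul_of_nonneg_left hb2 ha.le
        nlinarith
    have := hmono (Set.mem_Ici.mpr le_rfl) (Set.mem_Ici.mpr h1x) h1x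
    rw [hf1] at this
    exact this
  · have hanti : AntitoneOn f (Set.Icc r 1) := by
      apply antitoneOn_of_deriv_nonpos (convex_Icc r 1)
        (hcont.mono fun y hy => lt_of_lt_of_le hr hy.1)
      · intro y hy
        rw [interior_Icc] at hy
        exact (hf y (lt_trans hr hy.1)).differentiableAt.differentiableWithinAt
      · intro y hy
        rw [interior_Icc] at hy
        have hy0 : 0 < y := lt_trans hr hy.1
        have hy1 : y < 1 := hy.2
        rw [(hf y hy0).deriv]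
        have hb : 1 + (a + 1) * (y - 1) ≤ y ^ (a + 1) := by
          have := one_add_mul_self_le_rpow_one_add (s := y - 1) (p := a + 1)
            (by linarith) (by linarith)
          rw [add_sub_cancel] at this
          exact this
        have hz : y ^ (-a - 1) * y ^ (a + 1) = 1 := by
          rw [← Real.rpow_add hy0]
          have : -a - 1 + (a + 1) = 0 := by ring
          rw [this, Real.rpow_zero]
        have hz0 : 0 < y ^ (-a - 1) := Real.rpow_pos_of_pos hy0 _
        have hz1 : y ^ (-a - 1) ≤ r⁻¹ ^ 2 := by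
          calc y ^ (-a - 1) ≤ r ^ (-a - 1) :=
                Real.rpow_le_rpow_of_nonpos hr hy.1.le (by linarith)
            _ ≤ r ^ (-2 : ℝ) := Real.rpow_le_rpow_of_exponent_ge hr hr1 (by linarith)
            _ = r⁻¹ ^ 2 := by
                rw [Real.rpow_neg hr.le, inv_pow]
                norm_num
        have h5 : y ^ (-a - 1) - 1 ≤ y ^ (-a - 1) * ((a + 1) * (1 - y)) := by
          have : y ^ (-a - 1) * (1 + (a + 1) * (y - 1)) ≤ y ^ (-a - 1) * y ^ (a + 1) :=
            mul_le_mul_of_nonneg_left hb hz0.le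
          rw [hz] at this
          linarith
        have h6 : y ^ (-a - 1) * ((a + 1) * (1 - y)) ≤ r⁻¹ ^ 2 * ((a + 1) * (1 - y)) := by
          apply mul_le_mul_of_nonneg_right hz1
          have : 0 < 1 - y := by linarith
          positivity
        have h7 : a * (y ^ (-a - 1) - 1) ≤ a * (r⁻¹ ^ 2 * ((a + 1) * (1 - y))) :=
          mul_le_mul_of_nonneg_left (h5.trans h6) ha.le
        have h8 : a * (r⁻¹ ^ 2 * ((a + 1) * (1 - y))) ≤ 2 * c * (1 - y) := by
          have : 0 < 1 - y := by linarith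
          nlinarith
        linarith
    have := hanti ⟨hx, hx1⟩ ⟨hr1, le_rfl⟩ hx1
    rw [hf1] at this
    exact this

/-- Survivors: E [|W_b|^(-a) ; T > b] <= P(T > b) + a(a+1)/2 (1-2 eta)^(-3) K. -/
theorem block_nm (hw : Walk p n0) (hm : Law m s C4) {b : ℕ} (hb : b ≤ n0) {W : G → ℝ≥0}
    (hW : mass W = 1) {a : ℝ} (ha : 0 < a) (ha1 : a ≤ 1) {η : ℝ} (h0 : 0 < η) (h1 : η ≤ 1 / 4) :
    St p m (Real.toNNReal (1 - 2 * η)) b (nm a) (fun _ => 0) W
      ≤ St p m (Real.toNNReal (1 - 2 * η)) b (fun _ => 1) (fun _ => 0) W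
        + ENNReal.ofReal (a * (a + 1) / 2 * (1 - 2 * η)⁻¹ ^ 3 * KK p s b W) := by
  have := hm.prob
  set r : ℝ := 1 - 2 * η with hr
  have hr0 : 0 < r := by linarith
  have hr1 : r ≤ 1 := by linarith
  set x0 := Real.toNNReal r with hx0
  have hx0r : (x0 : ℝ) = r := Real.coe_toNNReal _ hr0.le
  have hx01 : x0 ≤ 1 := by
    rw [← NNReal.coe_le_coe, hx0r]
    exact_mod_cast hr1
  set c := a * (a + 1) / 2 * r⁻¹ ^ 3 with hc
  have hc0 : 0 < c := by positivity
  have hac : 0 ≤ a + 2 * c := by positivity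
  have hac' : 0 ≤ a + c := by positivity
  -- the martingale
  let Mt : (G → ℝ≥0) → ℝ≥0∞ := fun V => ENNReal.ofReal (a + 2 * c) * (mass V : ℝ≥0∞)
  have hMt : ∀ V, TT p m Mt V = Mt V := by
    intro V
    change TT p m (fun V => ENNReal.ofReal (a + 2 * c) * (mass V : ℝ≥0∞)) V = _
    rw [TT_const_mul measurable_mass.coe_nnreal_ennreal, TT_mass hw hm]
  have hMtm : Measurable Mt := measurable_mass.coe_nnreal_ennreal.const_mul _
  -- the submartingale
  let H : (G → ℝ≥0) → ℝ≥0∞ := fun V => ENNReal.ofReal (a + c) +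
    ENNReal.ofReal c * ENNReal.ofReal ((mass V : ℝ) ^ 2)
  have hsqm : Measurable (fun V : G → ℝ≥0 => ENNReal.ofReal ((mass V : ℝ) ^ 2)) :=
    (measurable_mass.coe_nnreal_real.pow_const 2).ennreal_ofReal
  have hHm : Measurable H := (hsqm.const_mul _).const_add _
  have hH : ∀ V, H V ≤ TT p m H V := by
    intro V
    change _ ≤ TT p m (fun V => ENNReal.ofReal (a + c) +
      ENNReal.ofReal c * ENNReal.ofReal ((mass V : ℝ) ^ 2)) V
    rw [TT_add measurable_const, TT_const, TT_const_mul hsqm, TT_sqmass hw hm]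
    change ENNReal.ofReal (a + c) + ENNReal.ofReal c * ENNReal.ofReal ((mass V : ℝ) ^ 2) ≤ _
    gcongr
    have := mul_nonneg hm.s_pos.le (aa_nonneg (p := p) V 1)
    linarith
  have hHn : (TT p m)^[b] H W = ENNReal.ofReal (a + 2 * c) +
      ENNReal.ofReal (c * KK p s b W) := by
    change (TT p m)^[b] (fun V => ENNReal.ofReal (a + c) +
      ENNReal.ofReal c * ENNReal.ofReal ((mass V : ℝ) ^ 2)) W = _
    rw [TTn_add measurable_const, TTn_const, TTn_const_mul hsqm, TTn_sqmass hw hm hb, hW,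
      ← ENNReal.ofReal_mul hc0.le]
    have hK0 := KK_nonneg (p := p) hm.s_pos.le b W
    have hcK : 0 ≤ c * KK p s b W := by positivity
    rw [← ENNReal.ofReal_add hac' (by positivity), ← ENNReal.ofReal_add hac hcK]
    congr 1
    simp only [NNReal.coe_one, one_pow]
    ring
  -- comparison
  have key : St p m x0 b (fun V => nm a V + Mt V) (fun V => 0 + Mt V) W
      ≤ St p m x0 b (fun V => 1 + H V) (fun V => 0 + H V) W := by
    apply St_mono
    · intro V hV
      have hxV : r ≤ (mass V : ℝ) := by rw [← hx0r]; exact_mod_cast hV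
      have hpos : (0 : ℝ) < mass V := lt_of_lt_of_le hr0 hxV
      have hn : nm a V = ENNReal.ofReal ((mass V : ℝ) ^ (-a)) := by
        unfold nm
        rw [← ENNReal.ofReal_rpow_of_pos hpos]
        simp
      have hmV : (mass V : ℝ≥0∞) = ENNReal.ofReal (mass V : ℝ) := by simp
      have hT := exit_rpow_taylor ha ha1 hr0 hr1 hxV
      rw [← hc] at hT
      change nm a V + ENNReal.ofReal (a + 2 * c) * (mass V : ℝ≥0∞) ≤
        1 + (ENNReal.ofReal (a + c) + ENNReal.ofReal c * ENNReal.ofReal ((mass V : ℝ) ^ 2))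
      rw [hn, hmV, ← ENNReal.ofReal_mul hac, ← ENNReal.ofReal_mul hc0.le,
        ← ENNReal.ofReal_add (by positivity) (by positivity),
        ← ENNReal.ofReal_add hac' (by positivity), ← ENNReal.ofReal_one,
        ← ENNReal.ofReal_add (by positivity) (by positivity)]
      apply ENNReal.ofReal_le_ofReal
      nlinarith
    · intro V hV
      have hxV : (mass V : ℝ) ≤ 1 := by
        have := hV.le.trans hx01
        exact_mod_cast this
      have hmV : (mass V : ℝ≥0∞) = ENNReal.ofReal (mass V : ℝ) := by simp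
      have hm0 : (0 : ℝ) ≤ mass V := (mass V).2
      change 0 + ENNReal.ofReal (a + 2 * c) * (mass V : ℝ≥0∞) ≤
        0 + (ENNReal.ofReal (a + c) + ENNReal.ofReal c * ENNReal.ofReal ((mass V : ℝ) ^ 2))
      rw [zero_add, zero_add, hmV, ← ENNReal.ofReal_mul hac, ← ENNReal.ofReal_mul hc0.le,
        ← ENNReal.ofReal_add hac' (by positivity)]
      apply ENNReal.ofReal_le_ofReal
      have h3 : 0 ≤ c * ((mass V : ℝ) - 1) ^ 2 := by positivity
      nlinarith
    · rw [hW]
      exact hx01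
  rw [St_add (measurable_nm a) measurable_const, St_add measurable_const measurable_const,
    St_eq_of_harm hMt] at key
  have hMW : Mt W = ENNReal.ofReal (a + 2 * c) := by
    change ENNReal.ofReal (a + 2 * c) * (mass W : ℝ≥0∞) = _
    rw [hW]
    simp
  rw [hMW] at key
  have key2 := key.trans (add_le_add le_rfl (St_le_TTn hH x0 b W))
  rw [hHn, add_comm (ENNReal.ofReal (a + 2 * c)), ← add_assoc] at key2
  exact (ENNReal.add_le_add_iff_right ENNReal.ofReal_ne_top).mp key2

/-- Irregularity: E [ 1 ; T > b, Riesz energy > M |W_b|^2 ]. -/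
theorem irregular_le (hw : Walk p n0) (hm : Law m s C4) {b : ℕ} (hb1 : 1 ≤ b)
    (hb : 2 * b ≤ n0) (hρ : 8 ≤ rho s b) {x0 : ℝ≥0} (hx : 0 < x0) {M : ℝ} (hM : 0 < M)
    {W : G → ℝ≥0} (hW : mass W = 1) (hx1 : x0 ≤ 1) :
    St p m x0 b (fun V => if M * (mass V : ℝ) ^ 2 < Rz p b V then 1 else 0) (fun _ => 0) W
      ≤ ENNReal.ofReal ((11 + 26 * KK p s b W) / (M * (x0 : ℝ) ^ 2)) := by
  have := hm.prob
  have hx' : (0 : ℝ) < x0 := by exact_mod_cast hx
  have hMx : 0 < M * (x0 : ℝ) ^ 2 := by positivity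
  have hRm : Measurable (fun V : G → ℝ≥0 => ENNReal.ofReal (Rz p b V)) :=
    (measurable_Rz b).ennreal_ofReal
  calc St p m x0 b (fun V => if M * (mass V : ℝ) ^ 2 < Rz p b V then 1 else 0) (fun _ => 0) W
      ≤ St p m x0 b (fun V => ENNReal.ofReal (M * (x0 : ℝ) ^ 2)⁻¹ * ENNReal.ofReal (Rz p b V))
          (fun _ => 0) W := by
        apply St_mono
        · intro V hV
          have hV' : (x0 : ℝ) ≤ mass V := by exact_mod_cast hV
          split_ifs with h
          · rw [← ENNReal.ofReal_mul (by positivity), ← ENNReal.ofReal_one]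
            apply ENNReal.ofReal_le_ofReal
            have h2 : M * (x0 : ℝ) ^ 2 ≤ Rz p b V := by
              refine le_trans ?_ h.le
              gcongr
            rw [← div_eq_inv_mul, le_div_iff₀ hMx, one_mul]
            exact h2
          · exact zero_le
        · intro V _
          exact le_rfl
        · rw [hW]
          exact hx1
    _ ≤ (TT p m)^[b] (fun V => ENNReal.ofReal (M * (x0 : ℝ) ^ 2)⁻¹ *
          ENNReal.ofReal (Rz p b V)) W := St_zero_right_le _ _ _ _
    _ = ENNReal.ofReal (M * (x0 : ℝ) ^ 2)⁻¹ *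
          (TT p m)^[b] (fun V => ENNReal.ofReal (Rz p b V)) W := by
        rw [TTn_const_mul hRm]
    _ ≤ ENNReal.ofReal (M * (x0 : ℝ) ^ 2)⁻¹ *
          ENNReal.ofReal (11 * (mass W : ℝ) ^ 2 + 26 * KK p s b W) := by
        gcongr
        exact TTn_Rz hw hm hb1 hb hρ W
    _ = ENNReal.ofReal ((11 + 26 * KK p s b W) / (M * (x0 : ℝ) ^ 2)) := by
        rw [← ENNReal.ofReal_mul (by positivity), hW]
        congr 1
        simp only [NNReal.coe_one, one_pow]
        ring

end Pool.A2F
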