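import Mathlib

/-!
# Module FinCore: one random variable with two sided exponential moments

If E e^(6Y), E e^(-6Y) are at most A and E e^(-2Y) is at least (E e^(-Y))^2 + d then
the mean and the variance of Y are bounded and the variance is bounded below.
-/

set_option autoImplicit false

open MeasureTheory ProbabilityTheory Filter Topology
open scoped ENNReal NNReal

noncomputable section

namespace Pool.A2F

namespace FinCore

/-- The dominating function. -/
def FF (y : ℝ) : ℝ := Real.exp (6 * y) + Real.exp (-(6 * y))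

theorem exp_abs_le_FF {y : ℝ} : Real.exp (6 * |y|) ≤ FF y := by
  unfold FF
  rcases abs_cases y with ⟨h, _⟩ | ⟨h, _⟩
  · rw [h]
    have := Real.exp_pos (-(6 * y))
    linarith
  · rw [h]
    have := Real.exp_pos (6 * y)
    have e : 6 * -y = -(6 * y) := by ring
    rw [e]
    linarith

theorem FF_pos (y : ℝ) : 0 < FF y := by
  unfold FF
  positivity

theorem exp_le_FF {y k : ℝ} (hk : |k| ≤ 6) : Real.exp (k * y) ≤ FF y := by
  refine le_trans (Real.exp_le_exp.mpr ?_) exp_abs_le_FF
  calc k * y ≤ |k * y| := le_abs_self _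
    _ = |k| * |y| := abs_mul _ _
    _ ≤ 6 * |y| := by gcongr

theorem sq_le_exp_abs (y : ℝ) : y ^ 2 ≤ 2 * Real.exp |y| := by
  have h := Real.quadratic_le_exp_of_nonneg (abs_nonneg y)
  have h2 : |y| ^ 2 = y ^ 2 := sq_abs y
  have h3 := abs_nonneg y
  nlinarith

theorem abs_le_exp_abs (y : ℝ) : |y| ≤ Real.exp |y| := by
  have h := Real.add_one_le_exp |y|
  linarith

theorem sq_le_FF (y : ℝ) : y ^ 2 ≤ FF y := by
  have h := Real.quadratic_le_exp_of_nonneg (x := 6 * |y|) (by positivity)
  have h2 : |y| ^ 2 = y ^ 2 := sq_abs y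
  have h3 := abs_nonneg y
  have h4 := exp_abs_le_FF (y := y)
  nlinarith

theorem abs_le_FF (y : ℝ) : |y| ≤ FF y := by
  have h := Real.add_one_le_exp (6 * |y|)
  have h3 := abs_nonneg y
  have h4 := exp_abs_le_FF (y := y)
  linarith

/-- Lipschitz bound for the exponential. -/
theorem exp_sub_sq_le (a b : ℝ) :
    (Real.exp a - Real.exp b) ^ 2 ≤ (a - b) ^ 2 * (Real.exp a + Real.exp b) ^ 2 := by
  have key : ∀ x y : ℝ, Real.exp x - Real.exp y ≤ (x - y) * Real.exp x := by
    intro x y
    have h := Real.add_one_le_exp (y - x)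
    have hx := Real.exp_pos x
    have e : Real.exp y = Real.exp x * Real.exp (y - x) := by
      rw [← Real.exp_add]
      congr 1
      ring
    rw [e]
    nlinarith
  have hab : |Real.exp a - Real.exp b| ≤ |a - b| * (Real.exp a + Real.exp b) := by
    have ha := Real.exp_pos a
    have hb := Real.exp_pos b
    have h1 := key a b
    have h2 := key b a
    have h3 : a - b ≤ |a - b| := le_abs_self _
    have h4 : b - a ≤ |a - b| := by
      rw [abs_sub_comm]
      exact le_abs_self _
    have h5 : 0 ≤ |a - b| := abs_nonneg _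
    rw [abs_le]
    constructor
    · nlinarith [mul_le_mul_of_nonneg_right h4 hb.le, mul_nonneg h5 ha.le]
    · nlinarith [mul_le_mul_of_nonneg_right h3 ha.le, mul_nonneg h5 hb.le]
  calc (Real.exp a - Real.exp b) ^ 2 = |Real.exp a - Real.exp b| ^ 2 := (sq_abs _).symm
    _ ≤ (|a - b| * (Real.exp a + Real.exp b)) ^ 2 := by gcongr
    _ = (a - b) ^ 2 * (Real.exp a + Real.exp b) ^ 2 := by rw [mul_pow, sq_abs]

/-- The constant C1. -/
def C1 (M : ℝ) : ℝ := 16 * (2 + M ^ 2) * (1 + Real.exp (4 * M))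

theorem C1_pos (M : ℝ) : 0 < C1 M := by
  unfold C1
  positivity

/-- (y-m)^2 (e^(-y)+e^(-m))^4 is at most C1 FF y. -/
theorem fourth_le {y m M : ℝ} (hm : |m| ≤ M) :
    (y - m) ^ 2 * (Real.exp (-y) + Real.exp (-m)) ^ 4 ≤ C1 M * FF y := by
  have h1 : (y - m) ^ 2 ≤ 2 * (y ^ 2 + M ^ 2) := by
    have : m ^ 2 ≤ M ^ 2 := by
      rw [← sq_abs m]
      gcongr
    nlinarith [sq_nonneg (y + m)]
  have h2 : (Real.exp (-y) + Real.exp (-m)) ^ 4 ≤ 8 * (Real.exp (4 * |y|) + Real.exp (4 * M)) := by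
    have hp : ∀ p q : ℝ, (p + q) ^ 4 ≤ 8 * (p ^ 4 + q ^ 4) := by
      intro p q
      nlinarith [sq_nonneg (p ^ 2 - q ^ 2), sq_nonneg (p - q), sq_nonneg ((p - q) ^ 2),
        sq_nonneg (p + q), mul_nonneg (sq_nonneg (p - q)) (sq_nonneg (p + q)),
        mul_nonneg (sq_nonneg (p - q)) (sq_nonneg p), mul_nonneg (sq_nonneg (p - q)) (sq_nonneg q)]
    refine (hp _ _).trans ?_
    have e1 : Real.exp (-y) ^ 4 ≤ Real.exp (4 * |y|) := by
      rw [← Real.exp_nat_mul]
      apply Real.exp_le_exp.mpr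
      push_cast
      have := neg_abs_le y
      linarith
    have e2 : Real.exp (-m) ^ 4 ≤ Real.exp (4 * M) := by
      rw [← Real.exp_nat_mul]
      apply Real.exp_le_exp.mpr
      push_cast
      have := neg_abs_le m
      linarith
    linarith
  have h3 : y ^ 2 + M ^ 2 ≤ (2 + M ^ 2) * Real.exp |y| := by
    have := sq_le_exp_abs y
    have h1 : 1 ≤ Real.exp |y| := Real.one_le_exp (abs_nonneg y)
    nlinarith [sq_nonneg M]
  have h4 : Real.exp (4 * |y|) + Real.exp (4 * M)
      ≤ (1 + Real.exp (4 * M)) * Real.exp (4 * |y|) := by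
    have h1 : 1 ≤ Real.exp (4 * |y|) := Real.one_le_exp (by positivity)
    have h2 := Real.exp_pos (4 * M)
    nlinarith
  have h5 : Real.exp |y| * Real.exp (4 * |y|) ≤ FF y := by
    refine le_trans ?_ (exp_abs_le_FF (y := y))
    rw [← Real.exp_add]
    apply Real.exp_le_exp.mpr
    have := abs_nonneg y
    linarith
  calc (y - m) ^ 2 * (Real.exp (-y) + Real.exp (-m)) ^ 4
      ≤ (2 * (y ^ 2 + M ^ 2)) * (8 * (Real.exp (4 * |y|) + Real.exp (4 * M))) := by gcongr
    _ ≤ (2 * ((2 + M ^ 2) * Real.exp |y|)) *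
        (8 * ((1 + Real.exp (4 * M)) * Real.exp (4 * |y|))) := by gcongr
    _ = C1 M * (Real.exp |y| * Real.exp (4 * |y|)) := by unfold C1; ring
    _ ≤ C1 M * FF y := by
        have := C1_pos M
        gcongr

/-- AM-GM step. -/
theorem amgm {y m M η : ℝ} (hm : |m| ≤ M) (hη : 0 < η) :
    (Real.exp (-y) - Real.exp (-m)) ^ 2
      ≤ (y - m) ^ 2 * (1 / (2 * η)) + η / 2 * (C1 M * FF y) := by
  have h0 := exp_sub_sq_le (-y) (-m)
  have e0 : (-y - -m) ^ 2 = (y - m) ^ 2 := by ring
  rw [e0] at h0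
  set g := (Real.exp (-y) + Real.exp (-m)) ^ 2 with hg
  have h1 : g ≤ 1 / (2 * η) + η / 2 * g ^ 2 := by
    have : 0 ≤ (1 - η * g) ^ 2 / (2 * η) := by positivity
    have e : (1 - η * g) ^ 2 / (2 * η) = 1 / (2 * η) + η / 2 * g ^ 2 - g := by
      field_simp
      ring
    linarith
  have h2 := fourth_le (y := y) hm
  have e2 : (Real.exp (-y) + Real.exp (-m)) ^ 4 = g ^ 2 := by rw [hg]; ring
  rw [e2] at h2
  calc (Real.exp (-y) - Real.exp (-m)) ^ 2 ≤ (y - m) ^ 2 * g := h0
    _ ≤ (y - m) ^ 2 * (1 / (2 * η) + η / 2 * g ^ 2) := by gcongr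
    _ = (y - m) ^ 2 * (1 / (2 * η)) + η / 2 * ((y - m) ^ 2 * g ^ 2) := by ring
    _ ≤ (y - m) ^ 2 * (1 / (2 * η)) + η / 2 * (C1 M * FF y) := by gcongr

/-- Integrability of a nonnegative measurable function with finite lintegral, with bound. -/
theorem int_of_lint {Ω : Type} [MeasurableSpace Ω] {P : Measure Ω} {f : Ω → ℝ} {A : ℝ}
    (hf : Measurable f) (h0 : ∀ w, 0 ≤ f w) (hA : 0 ≤ A)
    (h : ∫⁻ w, ENNReal.ofReal (f w) ∂P ≤ ENNReal.ofReal A) :
    Integrable f P ∧ ∫ w, f w ∂P ≤ A := by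
  have hi : Integrable f P := by
    refine ⟨hf.aestronglyMeasurable, ?_⟩
    rw [hasFiniteIntegral_iff_ofReal (Filter.Eventually.of_forall h0)]
    exact h.trans_lt ENNReal.ofReal_lt_top
  refine ⟨hi, ?_⟩
  rw [integral_eq_lintegral_of_nonneg_ae (Filter.Eventually.of_forall h0)
    hf.aestronglyMeasurable]
  exact ENNReal.toReal_le_of_le_ofReal hA h

theorem core {Ω : Type} [MeasurableSpace Ω] (P : Measure Ω) [IsProbabilityMeasure P]
    {A u v : ℝ} (hA : 0 < A) (hv : 0 ≤ v) (huv : v ^ 2 < u)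
    (Y : Ω → ℝ) (hY : Measurable Y)
    (h6 : ∫⁻ w, ENNReal.ofReal (Real.exp (6 * Y w)) ∂P ≤ ENNReal.ofReal A)
    (h6' : ∫⁻ w, ENNReal.ofReal (Real.exp (-(6 * Y w))) ∂P ≤ ENNReal.ofReal A)
    (h1 : ∫⁻ w, ENNReal.ofReal (Real.exp (-(1 * Y w))) ∂P ≤ ENNReal.ofReal v)
    (h2 : ENNReal.ofReal u ≤ ∫⁻ w, ENNReal.ofReal (Real.exp (-(2 * Y w))) ∂P) :
    |∫ w, Y w ∂P| ≤ 2 * A ∧ variance Y P ≤ 2 * A ∧
      (u - v ^ 2) ^ 2 / (2 * C1 (2 * A) * A) ≤ variance Y P := by
  have hm6 : Measurable fun w => Real.exp (6 * Y w) := (hY.const_mul 6).exp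
  have hm6' : Measurable fun w => Real.exp (-(6 * Y w)) := (hY.const_mul 6).neg.exp
  obtain ⟨i6, b6⟩ := int_of_lint hm6 (fun w => (Real.exp_pos _).le) hA.le h6
  obtain ⟨i6', b6'⟩ := int_of_lint hm6' (fun w => (Real.exp_pos _).le) hA.le h6'
  have hmF : Measurable fun w => FF (Y w) := hm6.add hm6'
  have iF : Integrable (fun w => FF (Y w)) P := i6.add i6'
  have bF : ∫ w, FF (Y w) ∂P ≤ 2 * A := by
    have : ∫ w, FF (Y w) ∂P
        = ∫ w, Real.exp (6 * Y w) ∂P + ∫ w, Real.exp (-(6 * Y w)) ∂P :=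
      integral_add i6 i6'
    rw [this]
    linarith
  -- integrable functions
  have iY : Integrable Y P := by
    refine iF.mono' hY.aestronglyMeasurable (Filter.Eventually.of_forall fun w => ?_)
    rw [Real.norm_eq_abs]
    exact abs_le_FF _
  have iY2 : Integrable (fun w => Y w ^ 2) P := by
    refine iF.mono' (hY.pow_const 2).aestronglyMeasurable
      (Filter.Eventually.of_forall fun w => ?_)
    rw [Real.norm_eq_abs, abs_of_nonneg (sq_nonneg _)]
    exact sq_le_FF _
  have mY2 : MemLp Y 2 P := (memLp_two_iff_integrable_sq hY.aestronglyMeasurable).mpr iY2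
  have iE1 : Integrable (fun w => Real.exp (-(1 * Y w))) P := by
    refine iF.mono' (hY.const_mul 1).neg.exp.aestronglyMeasurable
      (Filter.Eventually.of_forall fun w => ?_)
    rw [Real.norm_eq_abs, abs_of_nonneg (Real.exp_pos _).le]
    have := exp_le_FF (y := Y w) (k := -1) (by norm_num)
    have e : -(1 * Y w) = -1 * Y w := by ring
    rw [e]
    exact this
  have iE2 : Integrable (fun w => Real.exp (-(2 * Y w))) P := by
    refine iF.mono' (hY.const_mul 2).neg.exp.aestronglyMeasurable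
      (Filter.Eventually.of_forall fun w => ?_)
    rw [Real.norm_eq_abs, abs_of_nonneg (Real.exp_pos _).le]
    have := exp_le_FF (y := Y w) (k := -2) (by norm_num)
    have e : -(2 * Y w) = -2 * Y w := by ring
    rw [e]
    exact this
  have hm1 : Measurable fun w => Real.exp (-(1 * Y w)) := (hY.const_mul 1).neg.exp
  have b1 : ∫ w, Real.exp (-(1 * Y w)) ∂P ≤ v :=
    (int_of_lint hm1 (fun w => (Real.exp_pos _).le) hv h1).2
  have b2 : u ≤ ∫ w, Real.exp (-(2 * Y w)) ∂P := by
    have h3 := h2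
    rw [← ofReal_integral_eq_lintegral_ofReal iE2
      (Filter.Eventually.of_forall fun w => (Real.exp_pos _).le)] at h3
    have h4 : 0 ≤ ∫ w, Real.exp (-(2 * Y w)) ∂P :=
      integral_nonneg fun w => (Real.exp_pos _).le
    exact (ENNReal.ofReal_le_ofReal_iff h4).mp h3
  -- the mean
  set m := ∫ w, Y w ∂P with hm
  have hmM : |m| ≤ 2 * A := by
    calc |m| ≤ ∫ w, |Y w| ∂P := by
          rw [hm]
          exact abs_integral_le_integral_abs
      _ ≤ ∫ w, FF (Y w) ∂P := integral_mono iY.abs iF fun w => abs_le_FF _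
      _ ≤ 2 * A := bF
  refine ⟨hmM, ?_, ?_⟩
  · calc variance Y P ≤ ∫ w, Y w ^ 2 ∂P := by
          have := variance_le_expectation_sq (X := Y) (μ := P) hY.aestronglyMeasurable
          simpa using this
      _ ≤ ∫ w, FF (Y w) ∂P := integral_mono iY2 iF fun w => sq_le_FF _
      _ ≤ 2 * A := bF
  · have hd : 0 < u - v ^ 2 := by linarith
    set d := u - v ^ 2 with hdd
    have hC := C1_pos (2 * A)
    set C := C1 (2 * A) with hCC
    set η : ℝ := d / (2 * C * A) with hη
    have hη0 : 0 < η := by positivity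
    have hvar : variance Y P = ∫ w, (Y w - m) ^ 2 ∂P := variance_eq_integral hY.aemeasurable
    have iV : Integrable (fun w => (Y w - m) ^ 2) P := by
      have := (mY2.sub (memLp_const m)).integrable_sq
      simpa using this
    -- lower bound for the variance of exp (-Y)
    have low : d ≤ ∫ w, (Real.exp (-Y w) - Real.exp (-m)) ^ 2 ∂P := by
      set c := Real.exp (-m) with hc
      have e : ∀ w, (Real.exp (-Y w) - c) ^ 2
          = Real.exp (-(2 * Y w)) - 2 * c * Real.exp (-(1 * Y w)) + c ^ 2 := by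
        intro w
        have e2 : Real.exp (-(2 * Y w)) = Real.exp (-Y w) ^ 2 := by
          rw [← Real.exp_nat_mul]
          congr 1
          push_cast
          ring
        have e1 : Real.exp (-(1 * Y w)) = Real.exp (-Y w) := by
          congr 1
          ring
        rw [e2, e1]
        ring
      have e3 : ∫ w, (Real.exp (-Y w) - c) ^ 2 ∂P
          = ∫ w, Real.exp (-(2 * Y w)) ∂P - 2 * c * ∫ w, Real.exp (-(1 * Y w)) ∂P + c ^ 2 := by
        simp_rw [e]
        have i3 : Integrable (fun w => Real.exp (-(2 * Y w))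
            - 2 * c * Real.exp (-(1 * Y w))) P := iE2.sub (iE1.const_mul _)
        rw [integral_add i3 (integrable_const _),
          integral_sub iE2 (iE1.const_mul _), integral_const_mul]
        simp
      rw [e3]
      have hcp : 0 < c := Real.exp_pos _
      have h5 : 0 ≤ ∫ w, Real.exp (-(1 * Y w)) ∂P :=
        integral_nonneg fun w => (Real.exp_pos _).le
      set e1 := ∫ w, Real.exp (-(1 * Y w)) ∂P with he1
      have h6 : e1 ^ 2 ≤ v ^ 2 := by gcongr
      nlinarith [sq_nonneg (e1 - c)]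
    have up : ∫ w, (Real.exp (-Y w) - Real.exp (-m)) ^ 2 ∂P
        ≤ variance Y P * (1 / (2 * η)) + η / 2 * (C * (2 * A)) := by
      have iR : Integrable (fun w => (Y w - m) ^ 2 * (1 / (2 * η))
          + η / 2 * (C * FF (Y w))) P :=
        (iV.mul_const _).add ((iF.const_mul _).const_mul _)
      calc ∫ w, (Real.exp (-Y w) - Real.exp (-m)) ^ 2 ∂P
          ≤ ∫ w, ((Y w - m) ^ 2 * (1 / (2 * η)) + η / 2 * (C * FF (Y w))) ∂P := by
            apply integral_mono_of_nonneg (Filter.Eventually.of_forall fun w => sq_nonneg _) iR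
            exact Filter.Eventually.of_forall fun w => amgm hmM hη0
        _ = variance Y P * (1 / (2 * η)) + η / 2 * (C * ∫ w, FF (Y w) ∂P) := by
            rw [integral_add (iV.mul_const _) ((iF.const_mul _).const_mul _), integral_mul_const,
              integral_const_mul, integral_const_mul, hvar]
        _ ≤ variance Y P * (1 / (2 * η)) + η / 2 * (C * (2 * A)) := by gcongr
    have key : d ≤ variance Y P * (1 / (2 * η)) + η / 2 * (C * (2 * A)) := low.trans up
    have e5 : η / 2 * (C * (2 * A)) = d / 2 := by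
      rw [hη]
      field_simp
    rw [e5] at key
    have e6 : d / 2 ≤ variance Y P / (2 * η) := by
      have : variance Y P * (1 / (2 * η)) = variance Y P / (2 * η) := by ring
      linarith
    rw [le_div_iff₀ (by positivity)] at e6
    have e7 : d ^ 2 / (2 * C * A) = d / 2 * (2 * η) := by
      rw [hη]
      ring
    rw [e7]
    exact e6

end FinCore

end Pool.A2F
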