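import Pool.Agent.A2F.Ex
import Pool.Agent.A2F.FinCore

/-!
# Module Fin: from exponential moments to mean and variance
-/

set_option autoImplicit false

open MeasureTheory ProbabilityTheory Filter Topology
open scoped ENNReal NNReal

noncomputable section

namespace Pool.A2F

namespace FinStep

/-- loglog N. -/
def ll (N : ℕ) : ℝ := Real.log (Real.log (N : ℝ))

theorem ll_tendsto : Tendsto ll atTop atTop :=
  Real.tendsto_log_atTop.comp (Real.tendsto_log_atTop.comp tendsto_natCast_atTop_atTop)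

/-- The normalised variable. -/
def YY {Ω : Type} (L : ℕ → Ω → ℝ) (N : ℕ) (w : Ω) : ℝ := (L N w + ll N / 2) / Real.sqrt (ll N)

variable {Ω : Type} {L : ℕ → Ω → ℝ} {N : ℕ}

theorem L_eq (h : 0 < ll N) (w : Ω) :
    L N w = Real.sqrt (ll N) * YY L N w + (-(ll N / 2)) := by
  have hs : 0 < Real.sqrt (ll N) := Real.sqrt_pos.mpr h
  unfold YY
  field_simp
  ring

/-- b Y = a L + b sqrt l / 2. -/
theorem bY (b : ℝ) (h : 0 < ll N) (w : Ω) :
    b * YY L N w = ex b N * L N w + b * Real.sqrt (ll N) / 2 := by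
  have hs : 0 < Real.sqrt (ll N) := Real.sqrt_pos.mpr h
  have h2 : ll N = Real.sqrt (ll N) * Real.sqrt (ll N) := (Real.mul_self_sqrt h.le).symm
  unfold YY ex
  change b * ((L N w + ll N / 2) / Real.sqrt (ll N))
    = b / Real.sqrt (ll N) * L N w + b * Real.sqrt (ll N) / 2
  field_simp
  rw [Real.sq_sqrt h.le]

theorem ex_mul (b : ℝ) (h : 0 < ll N) : ex b N * ll N = b * Real.sqrt (ll N) := by
  have hs : 0 < Real.sqrt (ll N) := Real.sqrt_pos.mpr h
  unfold ex
  change b / Real.sqrt (ll N) * ll N = b * Real.sqrt (ll N)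
  field_simp
  rw [Real.sq_sqrt h.le]

theorem ex_sq_mul (b : ℝ) (h : 0 < ll N) : ex b N * ex b N * ll N = b ^ 2 := by
  have hs : 0 < Real.sqrt (ll N) := Real.sqrt_pos.mpr h
  unfold ex
  change b / Real.sqrt (ll N) * (b / Real.sqrt (ll N)) * ll N = b ^ 2
  field_simp
  rw [Real.sq_sqrt h.le]

variable [MeasurableSpace Ω] {P : Measure Ω}

/-- exp (b Y) = exp (b sqrt l / 2) exp (a L), integrated. -/
theorem lint_pos (b : ℝ) (h : 0 < ll N) :
    ∫⁻ w, ENNReal.ofReal (Real.exp (b * YY L N w)) ∂P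
      = ENNReal.ofReal (Real.exp (b * Real.sqrt (ll N) / 2)) *
        ∫⁻ w, ENNReal.ofReal (Real.exp (ex b N * L N w)) ∂P := by
  rw [← lintegral_const_mul' _ _ ENNReal.ofReal_ne_top]
  congr 1
  ext w
  rw [← ENNReal.ofReal_mul (Real.exp_pos _).le, ← Real.exp_add, bY b h]
  congr 2
  ring

theorem lint_neg (b : ℝ) (h : 0 < ll N) :
    ∫⁻ w, ENNReal.ofReal (Real.exp (-(b * YY L N w))) ∂P
      = ENNReal.ofReal (Real.exp (-(b * Real.sqrt (ll N) / 2))) *
        ∫⁻ w, ENNReal.ofReal (Real.exp (-(ex b N * L N w))) ∂P := by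
  rw [← lintegral_const_mul' _ _ ENNReal.ofReal_ne_top]
  congr 1
  ext w
  rw [← ENNReal.ofReal_mul (Real.exp_pos _).le, ← Real.exp_add, bY b h]
  congr 2
  ring

theorem up_pos {b ε : ℝ} (h : 0 < ll N)
    (hh : ∫⁻ w, ENNReal.ofReal (Real.exp (ex b N * L N w)) ∂P
        ≤ ENNReal.ofReal (Real.exp (-(ex b N * (1 - ex b N) / 2 * ll N) + ε))) :
    ∫⁻ w, ENNReal.ofReal (Real.exp (b * YY L N w)) ∂P
      ≤ ENNReal.ofReal (Real.exp (b ^ 2 / 2 + ε)) := by
  rw [lint_pos b h]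
  calc _ ≤ ENNReal.ofReal (Real.exp (b * Real.sqrt (ll N) / 2)) *
        ENNReal.ofReal (Real.exp (-(ex b N * (1 - ex b N) / 2 * ll N) + ε)) := by gcongr
    _ = ENNReal.ofReal (Real.exp (b ^ 2 / 2 + ε)) := by
        rw [← ENNReal.ofReal_mul (Real.exp_pos _).le, ← Real.exp_add]
        congr 2
        have h1 := ex_mul b h
        have h2 := ex_sq_mul b h
        linear_combination (-1 / 2) * h1 + (1 / 2) * h2

theorem up_neg {b ε : ℝ} (h : 0 < ll N)
    (hh : ∫⁻ w, ENNReal.ofReal (Real.exp (-(ex b N * L N w))) ∂P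
        ≤ ENNReal.ofReal (Real.exp (ex b N * (ex b N + 1) / 2 * ll N + ε))) :
    ∫⁻ w, ENNReal.ofReal (Real.exp (-(b * YY L N w))) ∂P
      ≤ ENNReal.ofReal (Real.exp (b ^ 2 / 2 + ε)) := by
  rw [lint_neg b h]
  calc _ ≤ ENNReal.ofReal (Real.exp (-(b * Real.sqrt (ll N) / 2))) *
        ENNReal.ofReal (Real.exp (ex b N * (ex b N + 1) / 2 * ll N + ε)) := by gcongr
    _ = ENNReal.ofReal (Real.exp (b ^ 2 / 2 + ε)) := by
        rw [← ENNReal.ofReal_mul (Real.exp_pos _).le, ← Real.exp_add]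
        congr 2
        have h1 := ex_mul b h
        have h2 := ex_sq_mul b h
        linear_combination (1 / 2) * h1 + (1 / 2) * h2

theorem low_neg {b ε : ℝ} (h : 0 < ll N)
    (hh : ENNReal.ofReal (Real.exp (ex b N * (ex b N + 1) / 2 * ll N - ε))
        ≤ ∫⁻ w, ENNReal.ofReal (Real.exp (-(ex b N * L N w))) ∂P) :
    ENNReal.ofReal (Real.exp (b ^ 2 / 2 - ε))
      ≤ ∫⁻ w, ENNReal.ofReal (Real.exp (-(b * YY L N w))) ∂P := by
  rw [lint_neg b h]
  calc ENNReal.ofReal (Real.exp (b ^ 2 / 2 - ε))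
      = ENNReal.ofReal (Real.exp (-(b * Real.sqrt (ll N) / 2))) *
        ENNReal.ofReal (Real.exp (ex b N * (ex b N + 1) / 2 * ll N - ε)) := by
        rw [← ENNReal.ofReal_mul (Real.exp_pos _).le, ← Real.exp_add]
        congr 2
        have h1 := ex_mul b h
        have h2 := ex_sq_mul b h
        linear_combination (-1 / 2) * h1 + (-1 / 2) * h2
    _ ≤ _ := by gcongr

end FinStep

open FinStep in
theorem fin_step {Ω : Type} [MeasurableSpace Ω] (P : Measure Ω) [IsProbabilityMeasure P]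
    (L : ℕ → Ω → ℝ) (hL : ∀ N, Measurable (L N))
    (hum : ∀ b ε : ℝ, 0 < b → 0 < ε → ∀ᶠ N : ℕ in atTop,
      ∫⁻ w, ENNReal.ofReal (Real.exp (-(ex b N * L N w))) ∂P
        ≤ ENNReal.ofReal (Real.exp (ex b N * (ex b N + 1) / 2 * Real.log (Real.log N) + ε)))
    (hup : ∀ b ε : ℝ, 0 < b → 0 < ε → ∀ᶠ N : ℕ in atTop,
      ∫⁻ w, ENNReal.ofReal (Real.exp (ex b N * L N w)) ∂P
        ≤ ENNReal.ofReal (Real.exp (-(ex b N * (1 - ex b N) / 2 * Real.log (Real.log N)) + ε)))
    (hlm : ∀ b ε : ℝ, 0 < b → 0 < ε → ∀ᶠ N : ℕ in atTop,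
      ENNReal.ofReal (Real.exp (ex b N * (ex b N + 1) / 2 * Real.log (Real.log N) - ε))
        ≤ ∫⁻ w, ENNReal.ofReal (Real.exp (-(ex b N * L N w))) ∂P) :
    Tendsto (fun N : ℕ => (∫ a, L N a ∂P) / Real.log (Real.log (N : ℝ))) atTop (𝓝 (-1 / 2)) ∧
      ∃ c C : ℝ, 0 < c ∧ 0 < C ∧ ∀ᶠ N : ℕ in atTop,
        c * Real.log (Real.log (N : ℝ)) ≤ variance (L N) P ∧
        variance (L N) P ≤ C * Real.log (Real.log (N : ℝ)) := by
  set A : ℝ := Real.exp ((6 : ℝ) ^ 2 / 2 + 1) with hAd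
  have hA : 0 < A := Real.exp_pos _
  set v : ℝ := Real.exp ((1 : ℝ) ^ 2 / 2 + 1 / 10) with hvd
  set u : ℝ := Real.exp ((2 : ℝ) ^ 2 / 2 - 1 / 10) with hud
  have hv : 0 ≤ v := (Real.exp_pos _).le
  have huv : v ^ 2 < u := by
    rw [hvd, hud, ← Real.exp_nat_mul]
    apply Real.exp_lt_exp.mpr
    norm_num
  set c : ℝ := (u - v ^ 2) ^ 2 / (2 * FinCore.C1 (2 * A) * A) with hc
  have hc0 : 0 < c := by
    have := FinCore.C1_pos (2 * A)
    have : 0 < u - v ^ 2 := by linarith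
    positivity
  have hYm : ∀ N, Measurable (YY L N) := fun N => ((hL N).add_const _).div_const _
  have hpos : ∀ᶠ N : ℕ in atTop, 0 < ll N := ll_tendsto.eventually_gt_atTop 0
  have main : ∀ᶠ N : ℕ in atTop, 0 < ll N ∧ Integrable (YY L N) P ∧
      |∫ w, YY L N w ∂P| ≤ 2 * A ∧ variance (YY L N) P ≤ 2 * A ∧
      c ≤ variance (YY L N) P := by
    filter_upwards [hpos, hup 6 1 (by norm_num) one_pos, hum 6 1 (by norm_num) one_pos,
      hum 1 (1 / 10) one_pos (by norm_num), hlm 2 (1 / 10) (by norm_num) (by norm_num)]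
      with N h0 h6 h6' h1 h2
    have k6 := up_pos (P := P) (L := L) h0 h6
    have k6' := up_neg (P := P) (L := L) h0 h6'
    have k1 := up_neg (P := P) (L := L) h0 h1
    have k2 := low_neg (P := P) (L := L) h0 h2
    obtain ⟨r1, r2, r3⟩ := FinCore.core P hA hv huv (YY L N) (hYm N) k6 k6' k1 k2
    refine ⟨h0, ?_, r1, r2, r3⟩
    have i6 := (FinCore.int_of_lint ((hYm N).const_mul 6).exp
      (fun w => (Real.exp_pos _).le) hA.le k6).1
    have i6' := (FinCore.int_of_lint ((hYm N).const_mul 6).neg.exp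
      (fun w => (Real.exp_pos _).le) hA.le k6').1
    refine (i6.add i6').mono' (hYm N).aestronglyMeasurable
      (Filter.Eventually.of_forall fun w => ?_)
    rw [Real.norm_eq_abs]
    exact FinCore.abs_le_FF _
  constructor
  · -- the mean
    have hb : Tendsto (fun N : ℕ => (2 * A) * (Real.sqrt (ll N))⁻¹) atTop (𝓝 0) := by
      have : Tendsto (fun N : ℕ => (Real.sqrt (ll N))⁻¹) atTop (𝓝 0) :=
        tendsto_inv_atTop_zero.comp (Real.tendsto_sqrt_atTop.comp ll_tendsto)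
      simpa using this.const_mul (2 * A)
    have hz : Tendsto (fun N : ℕ => (∫ w, YY L N w ∂P) * (Real.sqrt (ll N))⁻¹) atTop (𝓝 0) := by
      apply squeeze_zero_norm' _ hb
      filter_upwards [main] with N hN
      rw [Real.norm_eq_abs, abs_mul, abs_of_nonneg (inv_nonneg.mpr (Real.sqrt_nonneg _))]
      gcongr
      exact hN.2.2.1
    have hz2 : Tendsto (fun N : ℕ => (∫ w, YY L N w ∂P) * (Real.sqrt (ll N))⁻¹ + (-1 / 2))
        atTop (𝓝 (-1 / 2)) := by
      simpa using hz.add_const (-1 / 2)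
    refine hz2.congr' ?_
    filter_upwards [main] with N hN
    obtain ⟨h0, hi, -, -, -⟩ := hN
    have e1 : ∫ a, L N a ∂P = Real.sqrt (ll N) * ∫ w, YY L N w ∂P + (-(ll N / 2)) := by
      have : ∫ a, L N a ∂P = ∫ w, (Real.sqrt (ll N) * YY L N w + (-(ll N / 2))) ∂P := by
        congr 1
        ext w
        exact L_eq h0 w
      rw [this, integral_add (hi.const_mul _) (integrable_const _), integral_const_mul]
      simp
    rw [e1]
    change _ = _ / ll N
    have hs : 0 < Real.sqrt (ll N) := Real.sqrt_pos.mpr h0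
    have h2 : ll N = Real.sqrt (ll N) * Real.sqrt (ll N) := (Real.mul_self_sqrt h0.le).symm
    rw [add_div]
    congr 1
    · rw [h2]
      field_simp
      rw [Real.sqrt_sq hs.le]
    · field_simp
  · refine ⟨c, 2 * A, hc0, by positivity, ?_⟩
    filter_upwards [main] with N hN
    obtain ⟨h0, hi, -, h2, h3⟩ := hN
    have e1 : variance (L N) P = ll N * variance (YY L N) P := by
      have e2 : L N = fun w => Real.sqrt (ll N) * YY L N w + (-(ll N / 2)) := by
        ext w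
        exact L_eq h0 w
      rw [e2]
      rw [variance_add_const ((hYm N).const_mul _).aestronglyMeasurable]
      rw [variance_const_mul, Real.sq_sqrt h0.le]
    rw [e1]
    change c * ll N ≤ _ ∧ _ ≤ 2 * A * ll N
    constructor
    · nlinarith
    · nlinarith

end Pool.A2F
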