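import Pool.Agent.A2F.Two
import Pool.Agent.A2F.Two2

/-!
# Module Jan: layered Janson inequality (lower tail)

`assoc_exp` (J1), the exponential moment and its linearisation (J2), the Gronwall argument (J3)
and the quadratic form (J4). All auxiliary lemmas live in the namespace `Pool.A2F.JanAux`.
-/

set_option autoImplicit false

open MeasureTheory Finset
open scoped ENNReal NNReal

noncomputable section

namespace Pool.A2F.JanAux

/-! ### Chebyshev's inequality and association -/

theorem cheb_pt {a b c d : ℝ≥0∞} (h1 : b ≤ a) (h2 : d ≤ c) :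
    a * d + b * c ≤ a * c + b * d := by
  obtain ⟨x, rfl⟩ := exists_add_of_le h1
  obtain ⟨y, rfl⟩ := exists_add_of_le h2
  calc (b + x) * d + b * (d + y) = b * d + b * d + x * d + b * y := by ring
    _ ≤ b * d + b * d + x * d + b * y + x * y := le_self_add
    _ = (b + x) * (d + y) + b * d := by ring

theorem cheb_anti (m : Measure ℝ≥0) [IsProbabilityMeasure m] {f g : ℝ≥0 → ℝ≥0∞}
    (hf : Antitone f) (hg : Antitone g) :
    (∫⁻ x, f x ∂m) * (∫⁻ x, g x ∂m) ≤ ∫⁻ x, f x * g x ∂m := by
  have hfm : Measurable f := hf.measurable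
  have hgm : Measurable g := hg.measurable
  have key : ∀ x y : ℝ≥0, f x * g y + f y * g x ≤ f x * g x + f y * g y := by
    intro x y
    rcases le_total x y with h | h
    · exact cheb_pt (hf h) (hg h)
    · have := cheb_pt (hf h) (hg h)
      rw [add_comm (f x * g y), add_comm (f x * g x)]
      exact this
  have h1 : ∫⁻ x, ∫⁻ y, (f x * g y + f y * g x) ∂m ∂m
      = 2 * ((∫⁻ x, f x ∂m) * (∫⁻ x, g x ∂m)) := by
    calc ∫⁻ x, ∫⁻ y, (f x * g y + f y * g x) ∂m ∂m
        = ∫⁻ x, (f x * (∫⁻ y, g y ∂m) + (∫⁻ y, f y ∂m) * g x) ∂m := by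
          refine lintegral_congr fun x => ?_
          rw [lintegral_add_left (hgm.const_mul _), lintegral_const_mul _ hgm,
            lintegral_mul_const _ hfm]
      _ = _ := by
          rw [lintegral_add_left (hfm.mul_const _), lintegral_mul_const _ hfm,
            lintegral_const_mul _ hgm, two_mul]
  have h2 : ∫⁻ x, ∫⁻ y, (f x * g x + f y * g y) ∂m ∂m = 2 * ∫⁻ x, f x * g x ∂m := by
    calc ∫⁻ x, ∫⁻ y, (f x * g x + f y * g y) ∂m ∂m
        = ∫⁻ x, (f x * g x + ∫⁻ y, f y * g y ∂m) ∂m := by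
          refine lintegral_congr fun x => ?_
          rw [lintegral_add_left measurable_const, lintegral_const, measure_univ, mul_one]
      _ = _ := by
          have hfg : Measurable fun x => f x * g x := hfm.mul hgm
          rw [lintegral_add_left hfg, lintegral_const, measure_univ, mul_one, two_mul]
  have h3 : 2 * ((∫⁻ x, f x ∂m) * (∫⁻ x, g x ∂m)) ≤ 2 * ∫⁻ x, f x * g x ∂m := by
    rw [← h1, ← h2]
    exact lintegral_mono fun x => lintegral_mono fun y => key x y
  exact (ENNReal.mul_le_mul_iff_right (by norm_num) (by norm_num)).1 h3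

/-- Association for product measures: every coordinate is either one in which both F and the
factor are antitone, or one on which F does not depend. -/
theorem assoc_marg {ι : Type} [DecidableEq ι] (m : Measure ℝ≥0)
    [IsProbabilityMeasure m] {g : ι → ℝ≥0 → ℝ≥0∞} (hg : ∀ i, Measurable (g i)) (s : Finset ι) :
    ∀ F : (ι → ℝ≥0) → ℝ≥0∞, Measurable F →
    (∀ i ∈ s, (Antitone (g i) ∧ ∀ x, Antitone fun t => F (Function.update x i t)) ∨
      ∀ x t t', F (Function.update x i t) = F (Function.update x i t')) →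
    ∀ x, (∫⋯∫⁻_s, F ∂fun _ => m) x * ∏ i ∈ s, ∫⁻ t, g i t ∂m
      ≤ (∫⋯∫⁻_s, (fun ξ => F ξ * ∏ i ∈ s, g i (ξ i)) ∂fun _ => m) x := by
  induction s using Finset.induction_on with
  | empty => intro F _ _ x; simp
  | insert i s hi ih =>
    intro F hF hFi x
    have hprod : ∀ s' : Finset ι, Measurable fun ξ : ι → ℝ≥0 => ∏ j ∈ s', g j (ξ j) := by
      intro s'
      exact Finset.measurable_prod _ fun j _ => (hg j).comp (measurable_pi_apply j)
    have hH : Measurable fun ξ : ι → ℝ≥0 => F ξ * ∏ j ∈ insert i s, g j (ξ j) :=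
      hF.mul (hprod _)
    have hmeas : ∀ t : ℝ≥0, Measurable fun ξ : ι → ℝ≥0 => F (Function.update ξ i t) :=
      fun t => hF.comp measurable_update_left
    rw [lmarginal_insert _ hF hi, lmarginal_insert _ hH hi]
    -- the inner marginal
    set φ : ℝ≥0 → ℝ≥0∞ := fun t => (∫⋯∫⁻_s, F ∂fun _ => m) (Function.update x i t) with hφ
    have hφ' : ∀ t, φ t = (∫⋯∫⁻_s, (fun ξ => F (Function.update ξ i t)) ∂fun _ => m) x :=
      fun t => lmarginal_update_of_notMem hF hi x t
    have hφm : Measurable φ := (hF.lmarginal _).comp (measurable_update x)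
    have inner : ∀ t, g i t * (φ t * ∏ j ∈ s, ∫⁻ u, g j u ∂m)
        ≤ (∫⋯∫⁻_s, (fun ξ => F ξ * ∏ j ∈ insert i s, g j (ξ j)) ∂fun _ => m)
            (Function.update x i t) := by
      intro t
      rw [lmarginal_update_of_notMem hH hi x t]
      have e1 : ((fun ξ : ι → ℝ≥0 => F ξ * ∏ j ∈ insert i s, g j (ξ j)) ∘
          (Function.update · i t))
          = fun ξ => g i t * (F (Function.update ξ i t) * ∏ j ∈ s, g j (ξ j)) := by
        funext ξ
        simp only [Function.comp_apply]
        rw [Finset.prod_insert hi, Function.update_self]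
        have : ∏ j ∈ s, g j (Function.update ξ i t j) = ∏ j ∈ s, g j (ξ j) := by
          refine Finset.prod_congr rfl fun j hj => ?_
          rw [Function.update_of_ne]
          rintro rfl
          exact hi hj
        rw [this]
        ring
      rw [e1]
      have e2 : (∫⋯∫⁻_s, (fun ξ => g i t * (F (Function.update ξ i t) * ∏ j ∈ s, g j (ξ j)))
            ∂fun _ => m) x
          = g i t * (∫⋯∫⁻_s, (fun ξ => F (Function.update ξ i t) * ∏ j ∈ s, g j (ξ j))
            ∂fun _ => m) x := by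
        unfold lmarginal
        rw [lintegral_const_mul]
        exact ((hmeas t).mul (hprod s)).comp measurable_updateFinset
      rw [e2]
      refine mul_le_mul' le_rfl ?_
      rw [hφ' t]
      refine ih (fun ξ => F (Function.update ξ i t)) (hmeas t) ?_ x
      intro j hj
      have hji : j ≠ i := by rintro rfl; exact hi hj
      rcases hFi j (Finset.mem_insert_of_mem hj) with ⟨h1, h2⟩ | h2
      · refine Or.inl ⟨h1, fun ξ => ?_⟩
        simp only [Function.update_comm hji]
        exact h2 _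
      · refine Or.inr fun ξ a b => ?_
        simp only [Function.update_comm hji]
        exact h2 _ _ _
    refine le_trans ?_ (lintegral_mono inner)
    have e3 : ∫⁻ t, g i t * (φ t * ∏ j ∈ s, ∫⁻ u, g j u ∂m) ∂m
        = (∫⁻ t, φ t * g i t ∂m) * ∏ j ∈ s, ∫⁻ u, g j u ∂m := by
      have hφg : Measurable fun t => φ t * g i t := hφm.mul (hg i)
      rw [← lintegral_mul_const _ hφg]
      refine lintegral_congr fun t => ?_
      ring
    rw [e3, Finset.prod_insert hi, ← mul_assoc]
    refine mul_le_mul' ?_ le_rfl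
    change (∫⁻ t, φ t ∂m) * (∫⁻ t, g i t ∂m) ≤ ∫⁻ t, φ t * g i t ∂m
    rcases hFi i (Finset.mem_insert_self i s) with ⟨h1, h2⟩ | h2
    · refine cheb_anti m ?_ h1
      intro t t' htt
      show φ t' ≤ φ t
      rw [hφ' t, hφ' t']
      exact lmarginal_mono (μ := fun _ => m) (s := s) (fun ξ => h2 ξ htt) x
    · have : ∀ t, φ t = φ 0 := by
        intro t
        rw [hφ' t, hφ' 0]
        congr 2
        funext ξ
        exact h2 ξ t 0
      rw [lintegral_congr this, lintegral_congr (fun t => by rw [this t] : ∀ t, φ t * g i t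
        = φ 0 * g i t), lintegral_const_mul _ (hg i), lintegral_const, measure_univ, mul_one]

theorem assoc_pi {ι : Type} [Fintype ι] [DecidableEq ι] (m : Measure ℝ≥0)
    [IsProbabilityMeasure m] {g : ι → ℝ≥0 → ℝ≥0∞} (hg : ∀ i, Measurable (g i))
    {F : (ι → ℝ≥0) → ℝ≥0∞} (hF : Measurable F)
    (h : ∀ i, (Antitone (g i) ∧ ∀ x, Antitone fun t => F (Function.update x i t)) ∨
      ∀ x t t', F (Function.update x i t) = F (Function.update x i t')) :
    (∫⁻ ξ, F ξ ∂(Measure.pi fun _ : ι => m)) * ∏ i, ∫⁻ t, g i t ∂m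
      ≤ ∫⁻ ξ, F ξ * ∏ i, g i (ξ i) ∂(Measure.pi fun _ : ι => m) := by
  have := assoc_marg m hg Finset.univ F hF (fun i _ => h i) 0
  rwa [lmarginal_univ, lmarginal_univ] at this

/-- Association (one coordinate at a time): F antitone, exponentials of linear functions. -/
theorem _root_.Pool.A2F.assoc_exp {ι : Type} [Fintype ι] [DecidableEq ι] (m : Measure ℝ≥0)
    [IsProbabilityMeasure m] {F : (ι → ℝ≥0) → ℝ≥0∞} (hF : Measurable F) (hanti : Antitone F)
    (c : ι → ℝ≥0) :
    (∫⁻ ξ, F ξ ∂(Measure.pi fun _ : ι => m)) *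
        ∏ i, ∫⁻ x : ℝ≥0, ENNReal.ofReal (Real.exp (-((c i : ℝ) * x))) ∂m
      ≤ ∫⁻ ξ, F ξ * ∏ i, ENNReal.ofReal (Real.exp (-((c i : ℝ) * ξ i)))
          ∂(Measure.pi fun _ : ι => m) := by
  have hg : ∀ i, Antitone fun x : ℝ≥0 => ENNReal.ofReal (Real.exp (-((c i : ℝ) * x))) := by
    intro i x y hxy
    refine ENNReal.ofReal_le_ofReal (Real.exp_le_exp.2 (neg_le_neg ?_))
    exact mul_le_mul_of_nonneg_left (by exact_mod_cast hxy) (c i).2
  refine assoc_pi m (g := fun i x => ENNReal.ofReal (Real.exp (-((c i : ℝ) * x))))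
    (fun i => (hg i).measurable) hF fun i => Or.inl ⟨hg i, fun x a b hab => ?_⟩
  refine hanti ?_
  intro j
  by_cases hj : j = i
  · subst hj; simpa using hab
  · simp [Function.update_of_ne hj]


variable {G : Type} [Fintype G] [DecidableEq G] [AddCommGroup G]
variable {p : G → ℝ≥0} {m : Measure ℝ≥0} {n0 : ℕ} {s C4 : ℝ}

/-! ### one dimensional Jensen bounds -/

theorem jensen_one (hm : Law m s C4) {c : ℝ} (hc : 0 ≤ c) :
    ENNReal.ofReal (Real.exp (-c)) ≤
      ∫⁻ x : ℝ≥0, ENNReal.ofReal (Real.exp (-(c * x))) ∂m := by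
  have := hm.prob
  have hmeas : Measurable fun x : ℝ≥0 => ENNReal.ofReal (Real.exp (-(c * x))) := by fun_prop
  have pt : ∀ x : ℝ≥0, ENNReal.ofReal (Real.exp (-c) * (1 + c)) ≤
      ENNReal.ofReal (Real.exp (-(c * x))) + ENNReal.ofReal (Real.exp (-c) * c) * (x : ℝ≥0∞) := by
    intro x
    have hx : (x : ℝ≥0∞) = ENNReal.ofReal (x : ℝ) := by simp
    rw [hx, ← ENNReal.ofReal_mul (by positivity), ← ENNReal.ofReal_add (by positivity)
      (by positivity)]
    refine ENNReal.ofReal_le_ofReal ?_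
    have h1 : Real.exp (-(c * x)) = Real.exp (-c) * Real.exp (-(c * (x - 1))) := by
      rw [← Real.exp_add]; congr 1; ring
    have h2 := Real.add_one_le_exp (-(c * ((x : ℝ) - 1)))
    have h3 := Real.exp_pos (-c)
    rw [h1]
    nlinarith
  have h1 : ENNReal.ofReal (Real.exp (-c) * (1 + c)) ≤
      (∫⁻ x : ℝ≥0, ENNReal.ofReal (Real.exp (-(c * x))) ∂m) + ENNReal.ofReal (Real.exp (-c) * c) := by
    calc ENNReal.ofReal (Real.exp (-c) * (1 + c))
        = ∫⁻ _ : ℝ≥0, ENNReal.ofReal (Real.exp (-c) * (1 + c)) ∂m := by simp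
      _ ≤ ∫⁻ x : ℝ≥0, (ENNReal.ofReal (Real.exp (-(c * x)))
            + ENNReal.ofReal (Real.exp (-c) * c) * (x : ℝ≥0∞)) ∂m := lintegral_mono pt
      _ = _ := by
          rw [lintegral_add_left hmeas, lintegral_const_mul _ (by fun_prop), hm.m1, mul_one]
  have h2 : ENNReal.ofReal (Real.exp (-c) * (1 + c)) =
      ENNReal.ofReal (Real.exp (-c)) + ENNReal.ofReal (Real.exp (-c) * c) := by
    rw [← ENNReal.ofReal_add (by positivity) (by positivity)]
    congr 1; ring
  rw [h2] at h1
  exact (ENNReal.add_le_add_iff_right ENNReal.ofReal_ne_top).1 h1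

theorem jensen_size (hm : Law m s C4) {c : ℝ} (hc : 0 ≤ c) :
    ENNReal.ofReal (Real.exp (-(c * (1 + s)))) ≤
      ∫⁻ x : ℝ≥0, (x : ℝ≥0∞) * ENNReal.ofReal (Real.exp (-(c * x))) ∂m := by
  have := hm.prob
  have hs := hm.s_pos
  set e : ℝ := Real.exp (-(c * (1 + s))) with he
  have he0 : 0 < e := Real.exp_pos _
  have hmeas : Measurable fun x : ℝ≥0 => (x : ℝ≥0∞) * ENNReal.ofReal (Real.exp (-(c * x))) := by
    fun_prop
  have pt : ∀ x : ℝ≥0, ENNReal.ofReal (e * (1 + c * (1 + s))) * (x : ℝ≥0∞) ≤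
      (x : ℝ≥0∞) * ENNReal.ofReal (Real.exp (-(c * x)))
        + ENNReal.ofReal (e * c) * (x : ℝ≥0∞) ^ 2 := by
    intro x
    have hx : (x : ℝ≥0∞) = ENNReal.ofReal (x : ℝ) := by simp
    rw [hx, ← ENNReal.ofReal_mul (by positivity), ← ENNReal.ofReal_mul (by positivity),
      ← ENNReal.ofReal_pow (by positivity), ← ENNReal.ofReal_mul (by positivity),
      ← ENNReal.ofReal_add (by positivity) (by positivity)]
    refine ENNReal.ofReal_le_ofReal ?_
    have h1 : Real.exp (-(c * x)) = e * Real.exp (-(c * (x - (1 + s)))) := by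
      rw [he, ← Real.exp_add]; congr 1; ring
    have h2 := Real.add_one_le_exp (-(c * ((x : ℝ) - (1 + s))))
    have h4 : (x : ℝ) * (e * (-(c * ((x : ℝ) - (1 + s))) + 1)) ≤
        (x : ℝ) * (e * Real.exp (-(c * ((x : ℝ) - (1 + s))))) := by
      gcongr
    rw [h1]
    linarith
  have h1 : ENNReal.ofReal (e * (1 + c * (1 + s))) ≤
      (∫⁻ x : ℝ≥0, (x : ℝ≥0∞) * ENNReal.ofReal (Real.exp (-(c * x))) ∂m)
        + ENNReal.ofReal (e * c) * ENNReal.ofReal (1 + s) := by
    calc ENNReal.ofReal (e * (1 + c * (1 + s)))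
        = ∫⁻ x : ℝ≥0, ENNReal.ofReal (e * (1 + c * (1 + s))) * (x : ℝ≥0∞) ∂m := by
          rw [lintegral_const_mul _ (by fun_prop), hm.m1, mul_one]
      _ ≤ ∫⁻ x : ℝ≥0, ((x : ℝ≥0∞) * ENNReal.ofReal (Real.exp (-(c * x)))
            + ENNReal.ofReal (e * c) * (x : ℝ≥0∞) ^ 2) ∂m := lintegral_mono pt
      _ = _ := by
          rw [lintegral_add_left hmeas, lintegral_const_mul _ (by fun_prop), hm.m2]
  have h2 : ENNReal.ofReal (e * (1 + c * (1 + s))) =
      ENNReal.ofReal e + ENNReal.ofReal (e * c) * ENNReal.ofReal (1 + s) := by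
    rw [← ENNReal.ofReal_mul (by positivity), ← ENNReal.ofReal_add (by positivity)
      (by positivity)]
    congr 1; ring
  rw [h2] at h1
  exact (ENNReal.add_le_add_iff_right
    (ENNReal.mul_ne_top ENNReal.ofReal_ne_top ENNReal.ofReal_ne_top)).1 h1

/-! ### the pair kernels -/

/-- h b z = E_z (1+s)^(L_b) for the difference walk (two steps of p each time). -/
def jh (p : G → ℝ≥0) (s : ℝ) : ℕ → G → ℝ
  | 0 => fun _ => 1
  | b + 1 => fun z => ∑ w, (pk p 2 (z - w) : ℝ) * ((1 + if w = 0 then s else 0) * jh p s b w)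

/-- hh b z = E_z [(1+s)^(L_b) ; L_b >= 1]. -/
def jhh (p : G → ℝ≥0) (s : ℝ) : ℕ → G → ℝ
  | 0 => fun _ => 0
  | b + 1 => fun z => ∑ w, (pk p 2 (z - w) : ℝ) *
      (if w = 0 then (1 + s) * jh p s b 0 else jhh p s b w)

theorem jh_nonneg (hs : 0 ≤ s) (b : ℕ) (z : G) : 0 ≤ jh p s b z := by
  induction b generalizing z with
  | zero => simp [jh]
  | succ b ih =>
    rw [jh]
    refine Finset.sum_nonneg fun w _ => mul_nonneg (by positivity) (mul_nonneg ?_ (ih w))
    split_ifs <;> linarith

theorem jhh_nonneg (hs : 0 ≤ s) (b : ℕ) (z : G) : 0 ≤ jhh p s b z := by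
  induction b generalizing z with
  | zero => simp [jhh]
  | succ b ih =>
    rw [jhh]
    refine Finset.sum_nonneg fun w _ => mul_nonneg (by positivity) ?_
    split_ifs
    · exact mul_nonneg (by linarith) (jh_nonneg hs b 0)
    · exact ih w

theorem pk_one (x : G) : pk p 1 x = p x := by
  rw [show (1 : ℕ) = 0 + 1 from rfl, pk_succ_apply]
  simp [pk_zero_apply]

/-- one step of both replicas -/
theorem conv_pair (hw : Walk p n0) (φ : G → ℝ) (W : G → ℝ≥0) (x : G) :
    ∑ x', (p (x' - x) : ℝ) * ∑ y, (conv p W y : ℝ) * φ (x' - y)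
      = ∑ v, (W v : ℝ) * ∑ w, (pk p 2 (x - v - w) : ℝ) * φ w := by
  have e : ∀ v w : G, (pk p 2 (x - v - w) : ℝ)
      = ∑ x', (p (x' - x) : ℝ) * (p (x' - w - v) : ℝ) := by
    intro v w
    have := sum_pk_mul hw 1 x (w + v)
    rw [show (2 : ℕ) = 2 * 1 from rfl, show x - v - w = x - (w + v) by abel, ← this,
      NNReal.coe_sum]
    refine Finset.sum_congr rfl fun z _ => ?_
    rw [pk_one, pk_one, NNReal.coe_mul, sub_add_eq_sub_sub]
  calc ∑ x', (p (x' - x) : ℝ) * ∑ y, (conv p W y : ℝ) * φ (x' - y)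
      = ∑ x', ∑ y, ∑ v, (p (x' - x) : ℝ) * ((W v : ℝ) * (p (y - v) : ℝ) * φ (x' - y)) := by
        refine Finset.sum_congr rfl fun x' _ => ?_
        rw [Finset.mul_sum]
        refine Finset.sum_congr rfl fun y _ => ?_
        unfold conv
        push_cast
        rw [Finset.sum_mul, Finset.mul_sum]
    _ = ∑ x', ∑ w, ∑ v, (p (x' - x) : ℝ) * ((W v : ℝ) * (p (x' - w - v) : ℝ) * φ w) := by
        refine Finset.sum_congr rfl fun x' _ => ?_
        rw [← Equiv.sum_comp (Equiv.subLeft x')]
        refine Finset.sum_congr rfl fun w _ => ?_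
        refine Finset.sum_congr rfl fun v _ => ?_
        rw [Equiv.subLeft_apply, sub_sub_cancel]
    _ = ∑ v, (W v : ℝ) * ∑ w, (pk p 2 (x - v - w) : ℝ) * φ w := by
        have : ∀ x' : G, ∑ w, ∑ v, (p (x' - x) : ℝ) * ((W v : ℝ) * (p (x' - w - v) : ℝ) * φ w)
            = ∑ v, ∑ w, (p (x' - x) : ℝ) * ((W v : ℝ) * (p (x' - w - v) : ℝ) * φ w) :=
          fun x' => Finset.sum_comm
        simp_rw [this]
        rw [Finset.sum_comm]
        refine Finset.sum_congr rfl fun v _ => ?_
        rw [Finset.sum_comm, Finset.mul_sum]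
        refine Finset.sum_congr rfl fun w _ => ?_
        rw [e v w, Finset.sum_mul, Finset.mul_sum]
        refine Finset.sum_congr rfl fun x' _ => ?_
        ring


/-! ### the spine functional and the main comparison -/

/-- psi b W = E_W exp (-|W_b|). -/
def psi (p : G → ℝ≥0) (m : Measure ℝ≥0) (b : ℕ) (W : G → ℝ≥0) : ℝ≥0∞ :=
  (TT p m)^[b] (fun V => ENNReal.ofReal (Real.exp (-(mass V : ℝ)))) W

/-- th b x W = E [Z_b (x) exp (-|W_b|)]. -/
def th (p : G → ℝ≥0) (m : Measure ℝ≥0) : ℕ → G → (G → ℝ≥0) → ℝ≥0∞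
  | 0 => fun _ W => ENNReal.ofReal (Real.exp (-(mass W : ℝ)))
  | b + 1 => fun x W => ∑ x', (p (x' - x) : ℝ≥0∞) *
      ∫⁻ ξ, (ξ x' : ℝ≥0∞) * th p m b x' (upd p W ξ) ∂(Measure.pi fun _ : G => m)

theorem psi_succ (b : ℕ) (W : G → ℝ≥0) :
    psi p m (b + 1) W = ∫⁻ ξ, psi p m b (upd p W ξ) ∂(Measure.pi fun _ : G => m) := by
  unfold psi
  rw [Function.iterate_succ_apply']
  rfl

theorem measurable_psi [IsProbabilityMeasure m] (b : ℕ) :
    Measurable (psi p m b : (G → ℝ≥0) → ℝ≥0∞) := by
  unfold psi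
  refine measurable_TTn ?_ b
  have := measurable_mass (G := G)
  fun_prop

theorem conv_mono {V W : G → ℝ≥0} (h : V ≤ W) : conv p V ≤ conv p W := fun _ =>
  Finset.sum_le_sum fun y _ => mul_le_mul_left (h y) _

theorem psi_anti (b : ℕ) : Antitone (psi p m b : (G → ℝ≥0) → ℝ≥0∞) := by
  induction b with
  | zero =>
    intro V W h
    unfold psi
    simp only [Function.iterate_zero, id_eq]
    refine ENNReal.ofReal_le_ofReal (Real.exp_le_exp.2 (neg_le_neg ?_))
    have : mass V ≤ mass W := Finset.sum_le_sum fun x _ => h x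
    exact_mod_cast this
  | succ b ih =>
    intro V W h
    rw [psi_succ, psi_succ]
    refine lintegral_mono fun ξ => ih fun x => ?_
    exact mul_le_mul_left (conv_mono h x) _

/-- the coefficient of the environment variable at y in the comparison. -/
def jc (p : G → ℝ≥0) (s : ℝ) (b : ℕ) (A B : G → ℝ≥0) (x' y : G) : ℝ :=
  if y = x' then ((A y : ℝ) + B y) * jh p s b 0
  else (A y : ℝ) * jhh p s b (x' - y) + (B y : ℝ) * jh p s b (x' - y)

theorem jc_nonneg (hs : 0 ≤ s) (b : ℕ) (A B : G → ℝ≥0) (x' y : G) : 0 ≤ jc p s b A B x' y := by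
  have h1 := jh_nonneg (p := p) hs b
  have h2 := jhh_nonneg (p := p) hs b
  unfold jc
  split_ifs
  · exact mul_nonneg (by positivity) (h1 _)
  · exact add_nonneg (mul_nonneg (by positivity) (h2 _)) (mul_nonneg (by positivity) (h1 _))

/-- one layer of the comparison, for a fixed next position x' of the spine. -/
theorem spine_step (hm : Law m s C4) (b : ℕ) (A B : G → ℝ≥0) (x' : G)
    (ih : ∀ V0 V1 : G → ℝ≥0, psi p m b V0 * ENNReal.ofReal (Real.exp
      (-(∑ y, (V0 y : ℝ) * jhh p s b (x' - y)) - ∑ y, (V1 y : ℝ) * jh p s b (x' - y)))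
        ≤ th p m b x' (V0 + V1)) :
    (∫⁻ ξ, psi p m b (A * ξ) ∂(Measure.pi fun _ : G => m)) *
        ENNReal.ofReal (Real.exp (-(∑ y, jc p s b A B x' y * (1 + if y = x' then s else 0))))
      ≤ ∫⁻ ξ, (ξ x' : ℝ≥0∞) * th p m b x' ((A + B) * ξ) ∂(Measure.pi fun _ : G => m) := by
  have hprob := hm.prob
  have hs := hm.s_pos.le
  set c : G → ℝ := jc p s b A B x' with hc
  have hc0 : ∀ y, 0 ≤ c y := fun y => jc_nonneg hs b A B x' y
  set g : G → ℝ≥0 → ℝ≥0∞ := fun y t =>
    (if y = x' then (t : ℝ≥0∞) else 1) * ENNReal.ofReal (Real.exp (-(c y * t))) with hg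
  have hgm : ∀ y, Measurable (g y) := by
    intro y
    simp only [hg]
    split_ifs <;> fun_prop
  set F : (G → ℝ≥0) → ℝ≥0∞ := fun ξ => psi p m b (fun y => if y = x' then 0 else A y * ξ y)
    with hF
  have hFm : Measurable F := by
    refine (measurable_psi b).comp (measurable_pi_iff.2 fun y => ?_)
    split_ifs <;> fun_prop
  -- integrals of the factors
  have hgi : ∀ y, ENNReal.ofReal (Real.exp (-(c y * (1 + if y = x' then s else 0))))
      ≤ ∫⁻ t, g y t ∂m := by
    intro y
    simp only [hg]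
    split_ifs with h
    · exact jensen_size hm (hc0 y)
    · simpa using jensen_one hm (hc0 y)
  have hassoc := assoc_pi m hgm hFm (by
    intro i
    by_cases hi : i = x'
    · refine Or.inr fun x t t' => ?_
      simp only [hF]
      congr 1
      funext y
      by_cases hy : y = x'
      · simp [hy]
      · rw [if_neg hy, if_neg hy, Function.update_of_ne (by rwa [hi]),
          Function.update_of_ne (by rwa [hi])]
    · refine Or.inl ⟨?_, fun x a a' haa => ?_⟩
      · intro t t' htt
        simp only [hg, if_neg hi]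
        refine mul_le_mul' le_rfl (ENNReal.ofReal_le_ofReal (Real.exp_le_exp.2 (neg_le_neg ?_)))
        exact mul_le_mul_of_nonneg_left (by exact_mod_cast htt) (hc0 i)
      · refine psi_anti b fun y => ?_
        by_cases hy : y = x'
        · simp [hy]
        · rw [if_neg hy, if_neg hy]
          refine mul_le_mul' le_rfl ?_
          by_cases hyi : y = i
          · subst hyi; simpa using haa
          · rw [Function.update_of_ne hyi, Function.update_of_ne hyi])
  refine le_trans ?_ (le_trans hassoc ?_)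
  · refine mul_le_mul' ?_ ?_
    · refine lintegral_mono fun ξ => psi_anti b fun y => ?_
      by_cases hy : y = x'
      · simp [hy]
      · simp [hy]
    · calc ENNReal.ofReal (Real.exp (-(∑ y, c y * (1 + if y = x' then s else 0))))
          = ∏ y, ENNReal.ofReal (Real.exp (-(c y * (1 + if y = x' then s else 0)))) := by
            rw [← ENNReal.ofReal_prod_of_nonneg fun _ _ => (Real.exp_pos _).le, ← Real.exp_sum,
              Finset.sum_neg_distrib]
        _ ≤ _ := Finset.prod_le_prod' fun y _ => hgi y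
  · refine lintegral_mono fun ξ => ?_
    have hprodg : ∏ y, g y (ξ y) = (ξ x' : ℝ≥0∞) *
        ENNReal.ofReal (Real.exp (-(∑ y, c y * ξ y))) := by
      simp only [hg]
      rw [Finset.prod_mul_distrib, Finset.prod_ite_eq' Finset.univ x' (fun y => (ξ y : ℝ≥0∞)),
        if_pos (Finset.mem_univ _), ← ENNReal.ofReal_prod_of_nonneg fun _ _ =>
          (Real.exp_pos _).le, ← Real.exp_sum, Finset.sum_neg_distrib]
    rw [hprodg]
    set V0 : G → ℝ≥0 := fun y => if y = x' then 0 else A y * ξ y with hV0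
    set V1 : G → ℝ≥0 := fun y => B y * ξ y + if y = x' then A y * ξ y else 0 with hV1
    have hsum : (A + B) * ξ = V0 + V1 := by
      funext y
      simp only [Pi.mul_apply, Pi.add_apply, hV0, hV1]
      split_ifs <;> ring
    have hexp : -(∑ y, (V0 y : ℝ) * jhh p s b (x' - y)) - ∑ y, (V1 y : ℝ) * jh p s b (x' - y)
        = -(∑ y, c y * ξ y) := by
      rw [← neg_add', ← Finset.sum_add_distrib]
      congr 1
      refine Finset.sum_congr rfl fun y _ => ?_
      simp only [hV0, hV1, hc, jc]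
      by_cases hy : y = x'
      · subst hy
        simp
        ring
      · simp [hy]
        ring
    have := ih V0 V1
    rw [hexp, ← hsum] at this
    calc F ξ * ((ξ x' : ℝ≥0∞) * ENNReal.ofReal (Real.exp (-(∑ y, c y * ξ y))))
        = (ξ x' : ℝ≥0∞) * (psi p m b V0 * ENNReal.ofReal (Real.exp (-(∑ y, c y * ξ y)))) := by
          rw [hF]; ring
      _ ≤ _ := mul_le_mul' le_rfl this

theorem jc_sum (hw : Walk p n0) (b : ℕ) (W0 W1 : G → ℝ≥0) (x : G) :
    ∑ x', (p (x' - x) : ℝ) * ∑ y, jc p s b (conv p W0) (conv p W1) x' y *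
        (1 + if y = x' then s else 0)
      = (∑ y, (W0 y : ℝ) * jhh p s (b + 1) (x - y)) + ∑ y, (W1 y : ℝ) * jh p s (b + 1) (x - y) := by
  have h0 := conv_pair hw (fun w => if w = 0 then (1 + s) * jh p s b 0 else jhh p s b w) W0 x
  have h1 := conv_pair hw (fun w => (1 + if w = 0 then s else 0) * jh p s b w) W1 x
  have e0 : ∑ y, (W0 y : ℝ) * jhh p s (b + 1) (x - y) = ∑ v, (W0 v : ℝ) * ∑ w,
      (pk p 2 (x - v - w) : ℝ) * (if w = 0 then (1 + s) * jh p s b 0 else jhh p s b w) := rfl
  have e1 : ∑ y, (W1 y : ℝ) * jh p s (b + 1) (x - y) = ∑ v, (W1 v : ℝ) * ∑ w,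
      (pk p 2 (x - v - w) : ℝ) * ((1 + if w = 0 then s else 0) * jh p s b w) := rfl
  rw [e0, e1, ← h0, ← h1, ← Finset.sum_add_distrib]
  refine Finset.sum_congr rfl fun x' _ => ?_
  rw [← mul_add, ← Finset.sum_add_distrib]
  congr 1
  refine Finset.sum_congr rfl fun y _ => ?_
  unfold jc
  by_cases hy : y = x'
  · subst hy
    simp
    ring
  · have hy' : x' - y ≠ 0 := fun h => hy (sub_eq_zero.1 h).symm
    simp [hy, hy']

/-- J1: the comparison of the spine with the free system. -/
theorem th_ge (hw : Walk p n0) (hm : Law m s C4) (b : ℕ) :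
    ∀ (x : G) (W0 W1 : G → ℝ≥0), psi p m b W0 * ENNReal.ofReal (Real.exp
      (-(∑ y, (W0 y : ℝ) * jhh p s b (x - y)) - ∑ y, (W1 y : ℝ) * jh p s b (x - y)))
        ≤ th p m b x (W0 + W1) := by
  induction b with
  | zero =>
    intro x W0 W1
    simp only [psi, th, jh, jhh, Function.iterate_zero, id_eq]
    rw [← ENNReal.ofReal_mul (Real.exp_pos _).le, ← Real.exp_add]
    refine le_of_eq ?_
    congr 2
    simp only [mass, Pi.add_apply]
    push_cast
    rw [Finset.sum_add_distrib]
    simp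
    ring
  | succ b ih =>
    intro x W0 W1
    have hs := hm.s_pos.le
    rw [th]
    have hp1 : ∑ x', ((p (x' - x) : ℝ≥0) : ℝ) = 1 := by
      rw [← NNReal.coe_sum]
      have : ∑ x', p (x' - x) = 1 := by
        rw [← hw.one]
        exact Equiv.sum_comp (Equiv.subRight x) p
      rw [this, NNReal.coe_one]
    set C : G → ℝ := fun x' => ∑ y, jc p s b (conv p W0) (conv p W1) x' y *
        (1 + if y = x' then s else 0) with hC
    have step : ∀ x' : G, psi p m (b + 1) W0 * ENNReal.ofReal (Real.exp (-(C x')))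
        ≤ ∫⁻ ξ, (ξ x' : ℝ≥0∞) * th p m b x' (upd p (W0 + W1) ξ) ∂(Measure.pi fun _ : G => m) := by
      intro x'
      have := spine_step hm b (conv p W0) (conv p W1) x' (ih x')
      rw [psi_succ]
      have e : ∀ ξ : G → ℝ≥0, upd p (W0 + W1) ξ = (conv p W0 + conv p W1) * ξ := by
        intro ξ
        rw [← conv_add]
        rfl
      simp_rw [e]
      exact this
    calc psi p m (b + 1) W0 * ENNReal.ofReal (Real.exp
          (-(∑ y, (W0 y : ℝ) * jhh p s (b + 1) (x - y))
            - ∑ y, (W1 y : ℝ) * jh p s (b + 1) (x - y)))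
        = psi p m (b + 1) W0 * ENNReal.ofReal (Real.exp
          (∑ x', (p (x' - x) : ℝ) • (-(C x')))) := by
          rw [← neg_add', ← jc_sum hw b W0 W1 x]
          simp only [smul_eq_mul, mul_neg, Finset.sum_neg_distrib, hC]
      _ ≤ psi p m (b + 1) W0 * ENNReal.ofReal
          (∑ x', (p (x' - x) : ℝ) • Real.exp (-(C x'))) := by
          refine mul_le_mul' le_rfl (ENNReal.ofReal_le_ofReal ?_)
          exact convexOn_exp.map_sum_le (fun _ _ => by positivity) hp1 (fun _ _ => Set.mem_univ _)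
      _ = ∑ x', (p (x' - x) : ℝ≥0∞) *
          (psi p m (b + 1) W0 * ENNReal.ofReal (Real.exp (-(C x')))) := by
          rw [ENNReal.ofReal_sum_of_nonneg fun _ _ => by
            rw [smul_eq_mul]; positivity, Finset.mul_sum]
          refine Finset.sum_congr rfl fun x' _ => ?_
          rw [smul_eq_mul, ENNReal.ofReal_mul (by positivity), ENNReal.ofReal_coe_nnreal]
          ring
      _ ≤ _ := Finset.sum_le_sum fun x' _ => mul_le_mul' le_rfl (step x')


/-! ### the differential inequality -/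

theorem sum_lint_le {α ι : Type} [MeasurableSpace α] (μ : Measure α) (s : Finset ι)
    (f : ι → α → ℝ≥0∞) : ∑ i ∈ s, ∫⁻ a, f i a ∂μ ≤ ∫⁻ a, ∑ i ∈ s, f i a ∂μ := by
  classical
  induction s using Finset.induction_on with
  | empty => simp
  | insert i s hi ih =>
    simp only [Finset.sum_insert hi]
    exact (add_le_add le_rfl ih).trans (le_lintegral_add _ _)

/-- J2 (only the inequality which is needed). -/
theorem lin_th (hm : Law m s C4) (c : ℝ≥0) (b : ℕ) : ∀ W : G → ℝ≥0,
    ∑ x, (W x : ℝ≥0∞) * th p m b x (c • W) ≤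
      (TT p m)^[b] (fun V => (mass V : ℝ≥0∞) *
        ENNReal.ofReal (Real.exp (-((c : ℝ) * (mass V : ℝ))))) W := by
  have hprob := hm.prob
  induction b with
  | zero =>
    intro W
    simp only [th, Function.iterate_zero, id_eq]
    rw [← Finset.sum_mul]
    refine le_of_eq ?_
    have h1 : mass (c • W) = c * mass W := by
      simp [mass, Finset.mul_sum]
    rw [h1, NNReal.coe_mul]
    congr 1
    simp [mass]
  | succ b ih =>
    intro W
    rw [Function.iterate_succ_apply']
    have hstep : ∀ ξ : G → ℝ≥0, ∑ x', ((upd p W ξ x' : ℝ≥0) : ℝ≥0∞) *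
        th p m b x' (c • upd p W ξ) ≤
        (TT p m)^[b] (fun V => (mass V : ℝ≥0∞) *
          ENNReal.ofReal (Real.exp (-((c : ℝ) * (mass V : ℝ))))) (upd p W ξ) := fun ξ => ih _
    refine le_trans ?_ (lintegral_mono hstep)
    have e1 : ∀ ξ : G → ℝ≥0, upd p (c • W) ξ = c • upd p W ξ := by
      intro ξ
      funext x
      simp only [upd, conv_smul, Pi.smul_apply, smul_eq_mul]
      ring
    calc ∑ x, (W x : ℝ≥0∞) * th p m (b + 1) x (c • W)
        = ∑ x', (conv p W x' : ℝ≥0∞) * ∫⁻ ξ, (ξ x' : ℝ≥0∞) * th p m b x' (c • upd p W ξ)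
            ∂(Measure.pi fun _ : G => m) := by
          simp only [th, e1, Finset.mul_sum]
          rw [Finset.sum_comm]
          refine Finset.sum_congr rfl fun x' _ => ?_
          rw [conv, ENNReal.ofNNReal_finsetSum, Finset.sum_mul]
          refine Finset.sum_congr rfl fun x _ => ?_
          push_cast
          ring
      _ ≤ ∑ x', ∫⁻ ξ, (conv p W x' : ℝ≥0∞) * ((ξ x' : ℝ≥0∞) * th p m b x' (c • upd p W ξ))
            ∂(Measure.pi fun _ : G => m) :=
          Finset.sum_le_sum fun x' _ => lintegral_const_mul_le _ _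
      _ ≤ ∫⁻ ξ, ∑ x', (conv p W x' : ℝ≥0∞) * ((ξ x' : ℝ≥0∞) * th p m b x' (c • upd p W ξ))
            ∂(Measure.pi fun _ : G => m) := by
          exact sum_lint_le _ _ _
      _ = _ := by
          refine lintegral_congr fun ξ => Finset.sum_congr rfl fun x' _ => ?_
          rw [upd]
          push_cast
          ring

/-- the quadratic form of hh. -/
def QQ (p : G → ℝ≥0) (s : ℝ) (b : ℕ) (W : G → ℝ≥0) : ℝ :=
  ∑ x, ∑ y, (W x : ℝ) * (W y : ℝ) * jhh p s b (x - y)

theorem QQ_nonneg (hs : 0 ≤ s) (b : ℕ) (W : G → ℝ≥0) : 0 ≤ QQ p s b W :=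
  Finset.sum_nonneg fun x _ => Finset.sum_nonneg fun y _ =>
    mul_nonneg (by positivity) (jhh_nonneg hs b _)

theorem lin_ge (hw : Walk p n0) (hm : Law m s C4) (c : ℝ≥0) (b : ℕ) (W : G → ℝ≥0) :
    psi p m b (c • W) * ENNReal.ofReal ((mass W : ℝ) - c * QQ p s b W) ≤
      (TT p m)^[b] (fun V => (mass V : ℝ≥0∞) *
        ENNReal.ofReal (Real.exp (-((c : ℝ) * (mass V : ℝ))))) W := by
  refine le_trans ?_ (lin_th hm c b W)
  have h1 : ∀ x : G, psi p m b (c • W) * ENNReal.ofReal (1 - c * ∑ y, (W y : ℝ) *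
      jhh p s b (x - y)) ≤ th p m b x (c • W) := by
    intro x
    have := th_ge hw hm b x (c • W) 0
    rw [add_zero] at this
    refine le_trans (mul_le_mul' le_rfl (ENNReal.ofReal_le_ofReal ?_)) this
    have e : -(∑ y, (((c • W) y : ℝ≥0) : ℝ) * jhh p s b (x - y))
        - ∑ y, (((0 : G → ℝ≥0) y : ℝ≥0) : ℝ) * jh p s b (x - y)
        = -(c * ∑ y, (W y : ℝ) * jhh p s b (x - y)) := by
      rw [Finset.mul_sum]
      simp [mul_assoc]
    rw [e]
    linarith [Real.add_one_le_exp (-(c * ∑ y, (W y : ℝ) * jhh p s b (x - y)))]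
  calc psi p m b (c • W) * ENNReal.ofReal ((mass W : ℝ) - c * QQ p s b W)
      = psi p m b (c • W) * ENNReal.ofReal (∑ x, (W x : ℝ) *
          (1 - c * ∑ y, (W y : ℝ) * jhh p s b (x - y))) := by
        congr 2
        simp only [mul_sub, mul_one, Finset.sum_sub_distrib, mass, QQ]
        push_cast
        congr 1
        rw [Finset.mul_sum]
        refine Finset.sum_congr rfl fun x _ => ?_
        rw [Finset.mul_sum, Finset.mul_sum, Finset.mul_sum]
        refine Finset.sum_congr rfl fun y _ => ?_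
        ring
    _ ≤ psi p m b (c • W) * ∑ x, ENNReal.ofReal ((W x : ℝ) *
          (1 - c * ∑ y, (W y : ℝ) * jhh p s b (x - y))) := by
        refine mul_le_mul' le_rfl ?_
        have gen : ∀ (t : Finset G) (F : G → ℝ), ENNReal.ofReal (∑ x ∈ t, F x) ≤
            ∑ x ∈ t, ENNReal.ofReal (F x) := by
          intro t F
          induction t using Finset.induction_on with
          | empty => simp
          | insert i t hi ih =>
            rw [Finset.sum_insert hi, Finset.sum_insert hi]
            exact ENNReal.ofReal_add_le.trans (add_le_add le_rfl ih)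
        exact gen _ _
    _ = ∑ x, (W x : ℝ≥0∞) * (psi p m b (c • W) * ENNReal.ofReal
          (1 - c * ∑ y, (W y : ℝ) * jhh p s b (x - y))) := by
        rw [Finset.mul_sum]
        refine Finset.sum_congr rfl fun x _ => ?_
        rw [ENNReal.ofReal_mul (by positivity), ENNReal.ofReal_coe_nnreal]
        ring
    _ ≤ _ := Finset.sum_le_sum fun x _ => mul_le_mul' le_rfl (h1 x)

theorem psi_smul (c : ℝ≥0) (b : ℕ) (W : G → ℝ≥0) : psi p m b (c • W) =
    (TT p m)^[b] (fun V => ENNReal.ofReal (Real.exp (-((c : ℝ) * (mass V : ℝ))))) W := by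
  unfold psi
  rw [TTn_smul]
  have h0 : (fun V : G → ℝ≥0 => ENNReal.ofReal (Real.exp (-(mass (c • V) : ℝ)))) =
      fun V => ENNReal.ofReal (Real.exp (-((c : ℝ) * (mass V : ℝ)))) := by
    funext V
    have h1 : mass (c • V) = c * mass V := by
      simp [mass, Finset.mul_sum]
    rw [h1, NNReal.coe_mul]
  rw [h0]

theorem psi_le_one [IsProbabilityMeasure m] (b : ℕ) (W : G → ℝ≥0) : psi p m b W ≤ 1 := by
  rw [← TTn_const (p := p) (m := m) 1 b W]
  refine TTn_mono (fun V => ?_) b W
  rw [ENNReal.ofReal_le_one]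
  exact Real.exp_le_one_iff.2 (by simp)

/-- J3, one step. -/
theorem psi_step (hw : Walk p n0) (hm : Law m s C4) (c e : ℝ≥0) (b : ℕ) (W : G → ℝ≥0) :
    psi p m b ((c + e) • W) * ENNReal.ofReal (1 + e * ((mass W : ℝ) - (c + e) * QQ p s b W))
      ≤ psi p m b (c • W) := by
  have hprob := hm.prob
  have hmm := measurable_mass (G := G)
  have h1 := lin_ge hw hm (c + e) b W
  have hpt : ∀ V : G → ℝ≥0, ENNReal.ofReal (Real.exp (-(((c + e : ℝ≥0) : ℝ) * (mass V : ℝ))))
      + (e : ℝ≥0∞) * ((mass V : ℝ≥0∞) *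
        ENNReal.ofReal (Real.exp (-(((c + e : ℝ≥0) : ℝ) * (mass V : ℝ)))))
      ≤ ENNReal.ofReal (Real.exp (-((c : ℝ) * (mass V : ℝ)))) := by
    intro V
    rw [← ENNReal.ofReal_coe_nnreal (p := mass V), ← ENNReal.ofReal_coe_nnreal (p := e),
      ← ENNReal.ofReal_mul (by positivity), ← ENNReal.ofReal_mul (by positivity),
      ← ENNReal.ofReal_add (by positivity) (by positivity)]
    refine ENNReal.ofReal_le_ofReal ?_
    have h2 : Real.exp (-((c : ℝ) * (mass V : ℝ))) =
        Real.exp (-(((c + e : ℝ≥0) : ℝ) * (mass V : ℝ))) * Real.exp ((e : ℝ) * mass V) := by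
      rw [← Real.exp_add]; congr 1; push_cast; ring
    have h3 := Real.add_one_le_exp ((e : ℝ) * mass V)
    have h4 := Real.exp_pos (-(((c + e : ℝ≥0) : ℝ) * (mass V : ℝ)))
    rw [h2]
    nlinarith
  calc psi p m b ((c + e) • W) * ENNReal.ofReal (1 + e * ((mass W : ℝ) - (c + e) * QQ p s b W))
      ≤ psi p m b ((c + e) • W) * (1 + e * ENNReal.ofReal
          ((mass W : ℝ) - (c + e : ℝ≥0) * QQ p s b W)) := by
        refine mul_le_mul' le_rfl ?_
        refine ENNReal.ofReal_add_le.trans ?_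
        rw [ENNReal.ofReal_one, ENNReal.ofReal_mul (by positivity), ENNReal.ofReal_coe_nnreal]
        push_cast
        exact le_rfl
    _ = psi p m b ((c + e) • W) + e * (psi p m b ((c + e) • W) * ENNReal.ofReal
          ((mass W : ℝ) - (c + e : ℝ≥0) * QQ p s b W)) := by ring
    _ ≤ psi p m b ((c + e) • W) + e * ((TT p m)^[b] (fun V => (mass V : ℝ≥0∞) *
          ENNReal.ofReal (Real.exp (-(((c + e : ℝ≥0) : ℝ) * (mass V : ℝ))))) W) :=
        add_le_add le_rfl (mul_le_mul' le_rfl h1)
    _ = (TT p m)^[b] (fun V => ENNReal.ofReal (Real.exp (-(((c + e : ℝ≥0) : ℝ) * (mass V : ℝ))))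
          + (e : ℝ≥0∞) * ((mass V : ℝ≥0∞) *
            ENNReal.ofReal (Real.exp (-(((c + e : ℝ≥0) : ℝ) * (mass V : ℝ)))))) W := by
        rw [TTn_add (by fun_prop), TTn_const_mul (by fun_prop), psi_smul]
    _ ≤ (TT p m)^[b] (fun V => ENNReal.ofReal (Real.exp (-((c : ℝ) * (mass V : ℝ))))) W :=
        TTn_mono hpt b W
    _ = psi p m b (c • W) := (psi_smul c b W).symm

theorem exp_le_one_add {z : ℝ} (hz : -(1 / 2) ≤ z) : Real.exp (z - 2 * z ^ 2) ≤ 1 + z := by
  have h1 : 0 < 1 + z := by linarith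
  have h2 := Real.one_sub_inv_le_log_of_pos h1
  have h3 : z - 2 * z ^ 2 ≤ 1 - (1 + z)⁻¹ := by
    have e : 1 - (1 + z)⁻¹ - (z - 2 * z ^ 2) = z ^ 2 * (1 + 2 * z) / (1 + z) := by
      field_simp
      ring
    have : 0 ≤ z ^ 2 * (1 + 2 * z) / (1 + z) :=
      div_nonneg (mul_nonneg (sq_nonneg _) (by linarith)) h1.le
    linarith
  calc Real.exp (z - 2 * z ^ 2) ≤ Real.exp (Real.log (1 + z)) := Real.exp_le_exp.2 (h3.trans h2)
    _ = 1 + z := Real.exp_log h1

/-- the discrete Gronwall step. -/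
theorem gron {a Q : ℝ} (ha : 0 ≤ a) (hQ : 0 ≤ Q) (f : ℝ≥0 → ℝ) (hf0 : ∀ c, 0 ≤ f c)
    (hf1 : f 0 ≤ 1)
    (h : ∀ c e : ℝ≥0, 0 ≤ 1 + (e : ℝ) * (a - (c + e) * Q) →
      f (c + e) * (1 + e * (a - (c + e) * Q)) ≤ f c) :
    f 1 ≤ Real.exp (-a + Q / 2) := by
  set K : ℝ := 2 * (a + Q) ^ 2 + Q / 2 with hK
  have hK0 : 0 ≤ K := by positivity
  -- the estimate for fixed n
  have main : ∀ n : ℕ, 0 < n → 2 * (a + Q) ≤ n →
      f 1 * Real.exp (a - Q / 2 - K / n) ≤ 1 := by
    intro n hn hbig
    have hn' : (0 : ℝ) < n := by exact_mod_cast hn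
    have step : ∀ k : ℕ, k ≤ n → f ((k : ℝ≥0) / n) *
        Real.exp (a * (k / n) - Q * (k / n) ^ 2 / 2 - K * (k / n) / n) ≤ 1 := by
      intro k
      induction k with
      | zero =>
        intro _
        simpa using hf1
      | succ k ih =>
        intro hk
        refine le_trans ?_ (ih (by omega))
        have hk' : ((k : ℝ) + 1) ≤ n := by exact_mod_cast hk
        have hke : ((k + 1 : ℕ) : ℝ≥0) / n = (k : ℝ≥0) / n + 1 / n := by
          push_cast; ring
        set z : ℝ := (1 / n : ℝ) * (a - ((k : ℝ) / n + 1 / n) * Q) with hz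
        have hfr : ((k : ℝ) / n + 1 / n) ≤ 1 := by
          rw [← add_div, div_le_one hn']; exact hk'
        have hfr0 : 0 ≤ ((k : ℝ) / n + 1 / n) := by positivity
        have hninv : (0 : ℝ) < 1 / n := by positivity
        have hzabs : |z| ≤ (a + Q) / n := by
          have hyQ : ((k : ℝ) / n + 1 / n) * Q ≤ 1 * Q := mul_le_mul_of_nonneg_right hfr hQ
          have hyQ0 : 0 ≤ ((k : ℝ) / n + 1 / n) * Q := mul_nonneg hfr0 hQ
          have e3 : (a + Q) / n = (1 / n : ℝ) * (a + Q) := by ring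
          rw [hz, abs_mul, abs_of_pos hninv, e3]
          refine mul_le_mul_of_nonneg_left ?_ hninv.le
          rw [abs_le]
          constructor
          · linarith
          · linarith
        have hzn : (a + Q) / n ≤ 1 / 2 := by
          rw [div_le_iff₀ hn']; linarith
        have hz1 : -(1 / 2) ≤ z := by
          have := (abs_le.1 hzabs).1
          linarith
        have hstep := h ((k : ℝ≥0) / n) (1 / n) (by
          push_cast
          have : (0 : ℝ) ≤ 1 + z := by linarith
          simpa [hz] using this)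
        push_cast at hstep
        rw [hke]
        have hexp := exp_le_one_add hz1
        have hz2 : z ^ 2 ≤ ((a + Q) / n) ^ 2 := by
          rw [← sq_abs]
          exact pow_le_pow_left₀ (abs_nonneg _) hzabs 2
        have hle : Real.exp (a * (((k + 1 : ℕ) : ℝ) / n) - Q * (((k + 1 : ℕ) : ℝ) / n) ^ 2 / 2
              - K * (((k + 1 : ℕ) : ℝ) / n) / n)
            ≤ (1 + z) * Real.exp (a * (k / n) - Q * (k / n) ^ 2 / 2 - K * (k / n) / n) := by
          refine le_trans ?_ (mul_le_mul_of_nonneg_right hexp (Real.exp_pos _).le)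
          rw [← Real.exp_add]
          refine Real.exp_le_exp.2 ?_
          have e1 : ((a + Q) / n) ^ 2 = (a + Q) ^ 2 * (1 / n) ^ 2 := by ring
          have e2 : a * (((k + 1 : ℕ) : ℝ) / n) - Q * (((k + 1 : ℕ) : ℝ) / n) ^ 2 / 2
              - K * (((k + 1 : ℕ) : ℝ) / n) / n
              = a * (k / n) - Q * (k / n) ^ 2 / 2 - K * (k / n) / n + z
                + Q / 2 * (1 / n) ^ 2 - K * (1 / n) ^ 2 := by
            rw [hz]
            push_cast
            ring
          rw [e2, hK]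
          nlinarith
        calc f ((k : ℝ≥0) / n + 1 / n) * Real.exp (a * (((k + 1 : ℕ) : ℝ) / n)
              - Q * (((k + 1 : ℕ) : ℝ) / n) ^ 2 / 2 - K * (((k + 1 : ℕ) : ℝ) / n) / n)
            ≤ f ((k : ℝ≥0) / n + 1 / n) * ((1 + z) *
              Real.exp (a * (k / n) - Q * (k / n) ^ 2 / 2 - K * (k / n) / n)) :=
              mul_le_mul_of_nonneg_left hle (hf0 _)
          _ = (f ((k : ℝ≥0) / n + 1 / n) * (1 + z)) *
              Real.exp (a * (k / n) - Q * (k / n) ^ 2 / 2 - K * (k / n) / n) := by ring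
          _ ≤ _ := mul_le_mul_of_nonneg_right hstep (Real.exp_pos _).le
    have := step n le_rfl
    have hnn : (n : ℝ≥0) / n = 1 := div_self (by exact_mod_cast hn.ne')
    have hnn' : (n : ℝ) / n = 1 := div_self hn'.ne'
    rw [hnn, hnn'] at this
    simpa using this
  -- limit
  have hlim : Filter.Tendsto (fun n : ℕ => f 1 * Real.exp (a - Q / 2 - K / n)) Filter.atTop
      (nhds (f 1 * Real.exp (a - Q / 2 - 0))) := by
    refine Filter.Tendsto.const_mul _ ?_
    refine (Real.continuous_exp.tendsto _).comp ?_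
    exact tendsto_const_nhds.sub (tendsto_const_div_atTop_nhds_zero_nat K)
  have hfin : f 1 * Real.exp (a - Q / 2 - 0) ≤ 1 := by
    refine le_of_tendsto hlim ?_
    filter_upwards [Filter.eventually_gt_atTop 0, Filter.eventually_ge_atTop ⌈2 * (a + Q)⌉₊]
      with n hn hn2
    exact main n hn ((Nat.le_ceil _).trans (by exact_mod_cast hn2))
  rw [sub_zero] at hfin
  have e : Real.exp (-a + Q / 2) = (Real.exp (a - Q / 2))⁻¹ := by
    rw [← Real.exp_neg]; congr 1; ring
  rw [e, ← one_div, le_div_iff₀ (Real.exp_pos _)]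
  exact hfin

/-- J3: the exponential moment in terms of QQ. -/
theorem psi_le (hw : Walk p n0) (hm : Law m s C4) (b : ℕ) (W : G → ℝ≥0) :
    psi p m b W ≤ ENNReal.ofReal (Real.exp (-(mass W : ℝ) + QQ p s b W / 2)) := by
  have hprob := hm.prob
  have hne : ∀ V : G → ℝ≥0, psi p m b V ≠ ⊤ := fun V =>
    ne_top_of_le_ne_top ENNReal.one_ne_top (psi_le_one b V)
  have key := gron (a := mass W) (Q := QQ p s b W) (by positivity) (QQ_nonneg hm.s_pos.le b W)
    (fun c => (psi p m b (c • W)).toReal) (fun c => ENNReal.toReal_nonneg) (by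
      have := ENNReal.toReal_mono ENNReal.one_ne_top (psi_le_one (p := p) (m := m) b (0 • W))
      simpa using this) (by
      intro c e hpos
      have h1 := psi_step hw hm c e b W
      have h2 := ENNReal.toReal_mono (hne _) h1
      rw [ENNReal.toReal_mul, ENNReal.toReal_ofReal hpos] at h2
      exact h2)
  rw [one_smul] at key
  rw [← ENNReal.ofReal_toReal (hne W)]
  exact ENNReal.ofReal_le_ofReal key


/-! ### J4: the quadratic form -/

theorem pk_two_conv (k : ℕ) (z : G) :
    ∑ w, (pk p 2 (z - w) : ℝ) * (pk p (2 * k) w : ℝ) = (pk p (2 * (k + 1)) z : ℝ) := by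
  rw [show 2 * (k + 1) = 2 * k + 2 by ring, pk_add, NNReal.coe_sum]
  refine Finset.sum_congr rfl fun w _ => ?_
  push_cast
  ring

theorem sum_pk_two (hw : Walk p n0) (z : G) : ∑ w, (pk p 2 (z - w) : ℝ) = 1 := by
  rw [← NNReal.coe_sum]
  have : ∑ w, pk p 2 (z - w) = 1 := by
    rw [← sum_pk hw 2]
    exact Equiv.sum_comp (Equiv.subLeft z) (pk p 2)
  rw [this, NNReal.coe_one]

theorem jh_eq (hw : Walk p n0) {b : ℕ} (hb : b ≤ n0) (z : G) :
    jh p s b z = 1 + s * ∑ k ∈ range b, (pk p (2 * (k + 1)) z : ℝ) * UU s (b - 1 - k) := by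
  induction b generalizing z with
  | zero => simp [jh]
  | succ b ih =>
    have ih' := fun z => ih (by omega : b ≤ n0) z
    have h0 : jh p s b 0 = UU s b := by
      rw [ih' 0, UU_eq s b]
      congr 2
      refine Finset.sum_congr rfl fun k hk => ?_
      rw [hw.ret (k + 1) (by have := Finset.mem_range.1 hk; omega)]
    have h1 : jh p s (b + 1) z = (∑ w, (pk p 2 (z - w) : ℝ) * jh p s b w)
        + s * ((pk p 2 z : ℝ) * UU s b) := by
      rw [jh]
      have e : ∀ w : G, (pk p 2 (z - w) : ℝ) * ((1 + if w = 0 then s else 0) * jh p s b w)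
          = (pk p 2 (z - w) : ℝ) * jh p s b w
            + if w = 0 then s * ((pk p 2 (z - w) : ℝ) * jh p s b w) else 0 := by
        intro w
        split_ifs <;> ring
      simp_rw [e]
      rw [Finset.sum_add_distrib, Finset.sum_ite_eq' Finset.univ (0 : G),
        if_pos (Finset.mem_univ _), sub_zero, h0]
    have h2 : ∑ w, (pk p 2 (z - w) : ℝ) * jh p s b w
        = 1 + s * ∑ k ∈ range b, (pk p (2 * (k + 1 + 1)) z : ℝ) * UU s (b - 1 - k) := by
      have e4 : ∀ w : G, (pk p 2 (z - w) : ℝ) * jh p s b w = (pk p 2 (z - w) : ℝ)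
          + ∑ k ∈ range b, (pk p 2 (z - w) : ℝ) *
              (s * ((pk p (2 * (k + 1)) w : ℝ) * UU s (b - 1 - k))) := by
        intro w
        rw [ih' w, ← Finset.mul_sum, ← Finset.mul_sum]
        ring
      rw [Finset.sum_congr rfl fun w _ => e4 w, Finset.sum_add_distrib, sum_pk_two hw,
        Finset.sum_comm, Finset.mul_sum]
      congr 1
      refine Finset.sum_congr rfl fun k _ => ?_
      rw [← pk_two_conv (p := p) (k + 1) z, Finset.sum_mul, Finset.mul_sum]
      refine Finset.sum_congr rfl fun w _ => ?_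
      ring
    rw [h1, h2, Finset.sum_range_succ']
    simp only [zero_add, mul_one, Nat.add_sub_cancel, tsub_zero]
    have e3 : ∀ k ∈ range b, (pk p (2 * (k + 1 + 1)) z : ℝ) * UU s (b - (k + 1))
        = (pk p (2 * (k + 1 + 1)) z : ℝ) * UU s (b - 1 - k) := by
      intro k _
      rw [show b - (k + 1) = b - 1 - k by omega]
    rw [Finset.sum_congr rfl e3]
    ring

/-- the kernel of the first meeting. -/
def jal (p : G → ℝ≥0) : ℕ → G → ℝ
  | 0 => fun _ => 0
  | b + 1 => fun z => ∑ w, (pk p 2 (z - w) : ℝ) * (if w = 0 then 1 else jal p b w)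

theorem jhh_le (hw : Walk p n0) (b : ℕ) (z : G) :
    jhh p s b z ≤ (jh p s b z - 1) + jal p b z := by
  induction b generalizing z with
  | zero => simp [jhh, jh, jal]
  | succ b ih =>
    have e : (jh p s (b + 1) z - 1) + jal p (b + 1) z = ∑ w, (pk p 2 (z - w) : ℝ) *
        (((1 + if w = 0 then s else 0) * jh p s b w - 1) + if w = 0 then 1 else jal p b w) := by
      rw [jh, jal]
      have e1 := sum_pk_two hw z
      have e2 : ∀ w : G, (pk p 2 (z - w) : ℝ) *
          (((1 + if w = 0 then s else 0) * jh p s b w - 1) + if w = 0 then 1 else jal p b w)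
          = ((pk p 2 (z - w) : ℝ) * ((1 + if w = 0 then s else 0) * jh p s b w)
            - (pk p 2 (z - w) : ℝ))
            + (pk p 2 (z - w) : ℝ) * (if w = 0 then 1 else jal p b w) := by
        intro w
        ring
      rw [Finset.sum_congr rfl fun w _ => e2 w, Finset.sum_add_distrib,
        Finset.sum_sub_distrib, e1]
    rw [e, jhh]
    refine Finset.sum_le_sum fun w _ => mul_le_mul_of_nonneg_left ?_ (by positivity)
    by_cases hw0 : w = 0
    · subst hw0
      simp
    · simp only [if_neg hw0, add_zero, one_mul]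
      exact ih w

theorem jal_le (hw : Walk p n0) {B : ℕ} (hB : B ≤ n0) (b : ℕ) (z : G) :
    (1 + RR B) * jal p b z ≤ ∑ k ∈ range (b + B), (pk p (2 * (k + 1)) z : ℝ) := by
  induction b generalizing z with
  | zero =>
    simp only [jal, mul_zero]
    exact Finset.sum_nonneg fun _ _ => by positivity
  | succ b ih =>
    have e : ∑ k ∈ range (b + 1 + B), (pk p (2 * (k + 1)) z : ℝ)
        = ∑ w, (pk p 2 (z - w) : ℝ) * ((if w = 0 then 1 else 0)
          + ∑ k ∈ range (b + B), (pk p (2 * (k + 1)) w : ℝ)) := by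
      rw [show b + 1 + B = (b + B) + 1 by ring, Finset.sum_range_succ']
      simp_rw [mul_add]
      rw [Finset.sum_add_distrib]
      have e1 : ∑ w : G, (pk p 2 (z - w) : ℝ) * (if w = 0 then 1 else 0) = (pk p 2 z : ℝ) := by
        simp
      rw [e1]
      simp_rw [Finset.mul_sum]
      rw [Finset.sum_comm, add_comm]
      congr 1
      refine Finset.sum_congr rfl fun k _ => ?_
      have := pk_two_conv (p := p) (k + 1) z
      simp only [mul_add, mul_one] at this ⊢
      exact this.symm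
    rw [e, jal, Finset.mul_sum]
    refine Finset.sum_le_sum fun w _ => ?_
    rw [mul_left_comm]
    refine mul_le_mul_of_nonneg_left ?_ (by positivity)
    by_cases hw0 : w = 0
    · subst hw0
      simp only [if_true, mul_one]
      refine add_le_add le_rfl ?_
      rw [RR]
      calc ∑ k ∈ range B, uu (k + 1) = ∑ k ∈ range B, (pk p (2 * (k + 1)) (0 : G) : ℝ) := by
            refine Finset.sum_congr rfl fun k hk => ?_
            rw [hw.ret (k + 1) (by have := Finset.mem_range.1 hk; omega)]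
        _ ≤ _ := Finset.sum_le_sum_of_subset_of_nonneg
            (Finset.range_subset_range.2 (by omega)) fun _ _ _ => by positivity
    · simp only [if_neg hw0, zero_add]
      exact ih w

/-- The quadratic form in the Janson inequality. -/
def _root_.Pool.A2F.QJ (p : G → ℝ≥0) (s : ℝ) (b : ℕ) (W : G → ℝ≥0) : ℝ :=
  KK p s b W + 2 / (1 + RR b) * ∑ k ∈ range b, aa p W (k + 1)

theorem RR_nonneg' (n : ℕ) : 0 ≤ RR n := Finset.sum_nonneg fun _ _ => (uu_pos _).le

theorem QQ_le (hw : Walk p n0) {b : ℕ} (hb : b ≤ n0) (W : G → ℝ≥0) :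
    QQ p s b W ≤ QJ p s b W := by
  have hR : 0 < 1 + RR b := by have := RR_nonneg' b; linarith
  have h1 : QQ p s b W ≤ (∑ x, ∑ y, (W x : ℝ) * (W y : ℝ) * (jh p s b (x - y) - 1))
      + ∑ x, ∑ y, (W x : ℝ) * (W y : ℝ) * jal p b (x - y) := by
    rw [QQ, ← Finset.sum_add_distrib]
    refine Finset.sum_le_sum fun x _ => ?_
    rw [← Finset.sum_add_distrib]
    refine Finset.sum_le_sum fun y _ => ?_
    rw [← mul_add]
    exact mul_le_mul_of_nonneg_left (jhh_le hw b _) (by positivity)
  have h2 : ∑ x, ∑ y, (W x : ℝ) * (W y : ℝ) * (jh p s b (x - y) - 1) = KK p s b W := by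
    unfold KK
    simp_rw [jh_eq hw hb, add_sub_cancel_left, aa_eq_quad hw]
    rw [Finset.mul_sum]
    simp_rw [Finset.sum_mul, Finset.mul_sum]
    rw [Finset.sum_comm' (s := range b) (t' := Finset.univ) (s' := fun _ => range b) (by simp)]
    refine Finset.sum_congr rfl fun x _ => ?_
    rw [Finset.sum_comm' (s := range b) (t' := Finset.univ) (s' := fun _ => range b) (by simp)]
    refine Finset.sum_congr rfl fun y _ => ?_
    refine Finset.sum_congr rfl fun k _ => ?_
    ring
  have h3 : (1 + RR b) * ∑ x, ∑ y, (W x : ℝ) * (W y : ℝ) * jal p b (x - y)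
      ≤ 2 * ∑ k ∈ range b, aa p W (k + 1) := by
    calc (1 + RR b) * ∑ x, ∑ y, (W x : ℝ) * (W y : ℝ) * jal p b (x - y)
        = ∑ x, ∑ y, (W x : ℝ) * (W y : ℝ) * ((1 + RR b) * jal p b (x - y)) := by
          rw [Finset.mul_sum]
          refine Finset.sum_congr rfl fun x _ => ?_
          rw [Finset.mul_sum]
          refine Finset.sum_congr rfl fun y _ => ?_
          ring
      _ ≤ ∑ x, ∑ y, (W x : ℝ) * (W y : ℝ) *
            ∑ k ∈ range (b + b), (pk p (2 * (k + 1)) (x - y) : ℝ) :=
          Finset.sum_le_sum fun x _ => Finset.sum_le_sum fun y _ =>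
            mul_le_mul_of_nonneg_left (jal_le hw hb b _) (by positivity)
      _ = ∑ k ∈ range (b + b), aa p W (k + 1) := by
          simp_rw [aa_eq_quad hw, Finset.mul_sum]
          rw [Finset.sum_comm' (s := range (b + b)) (t' := Finset.univ)
            (s' := fun _ => range (b + b)) (by simp)]
          refine Finset.sum_congr rfl fun x _ => ?_
          rw [Finset.sum_comm' (s := range (b + b)) (t' := Finset.univ)
            (s' := fun _ => range (b + b)) (by simp)]
      _ = (∑ k ∈ range b, aa p W (k + 1)) + ∑ k ∈ range b, aa p W (b + k + 1) := by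
          rw [Finset.sum_range_add]
      _ ≤ (∑ k ∈ range b, aa p W (k + 1)) + ∑ k ∈ range b, aa p W (k + 1) :=
          add_le_add le_rfl (Finset.sum_le_sum fun k _ => aa_anti hw W (by omega))
      _ = _ := by ring
  have h4 : ∑ x, ∑ y, (W x : ℝ) * (W y : ℝ) * jal p b (x - y)
      ≤ 2 / (1 + RR b) * ∑ k ∈ range b, aa p W (k + 1) := by
    rw [div_mul_eq_mul_div, le_div_iff₀ hR, mul_comm]
    exact h3
  rw [QJ]
  linarith

/-- Janson: E exp (-|W_b|) <= exp (-|W| + QJ b W / 2). (Replace W by u W for the general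
exponential moment.) -/
theorem _root_.Pool.A2F.janson (hw : Walk p n0) (hm : Law m s C4) {b : ℕ} (hb : 2 * b ≤ n0)
    (W : G → ℝ≥0) :
    (TT p m)^[b] (fun V => ENNReal.ofReal (Real.exp (-(mass V : ℝ)))) W
      ≤ ENNReal.ofReal (Real.exp (-(mass W : ℝ) + QJ p s b W / 2)) := by
  refine (psi_le hw hm b W).trans (ENNReal.ofReal_le_ofReal (Real.exp_le_exp.2 ?_))
  have := QQ_le (s := s) hw (show b ≤ n0 by omega) W
  linarith

end Pool.A2F.JanAux
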