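import Pool.Agent.A2F.Seq

/-!
# Module Kern: the walk kernel on a finite abelian group
-/

set_option autoImplicit false

open Finset
open scoped ENNReal NNReal

noncomputable section

namespace Pool.A2F

variable {G : Type} [Fintype G] [DecidableEq G] [AddCommGroup G]
variable {p : G → ℝ≥0} {n0 : ℕ}

theorem mass_conv (h : Walk p n0) (W : G → ℝ≥0) : mass (conv p W) = mass W := by
  unfold mass conv
  rw [Finset.sum_comm]
  refine Finset.sum_congr rfl fun y _ => ?_
  rw [← Finset.mul_sum]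
  have : ∑ x, p (x - y) = 1 := by
    rw [← h.one]
    exact Equiv.sum_comp (Equiv.subRight y) p
  rw [this, mul_one]

theorem mass_conv_iter (h : Walk p n0) (W : G → ℝ≥0) (n : ℕ) :
    mass ((conv p)^[n] W) = mass W := by
  induction n with
  | zero => rfl
  | succ n ih => rw [Function.iterate_succ_apply', mass_conv h, ih]

theorem mass_dl : mass (dl : G → ℝ≥0) = 1 := by
  simp [mass, dl, Pi.single_apply]

theorem conv_add (W V : G → ℝ≥0) : conv p (W + V) = conv p W + conv p V := by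
  funext x
  simp [conv, add_mul, Finset.sum_add_distrib]

theorem conv_smul (c : ℝ≥0) (W : G → ℝ≥0) : conv p (c • W) = c • conv p W := by
  funext x
  simp [conv, mul_assoc, Finset.mul_sum]

theorem conv_iter_smul_kern (c : ℝ≥0) (W : G → ℝ≥0) (n : ℕ) :
    (conv p)^[n] (c • W) = c • (conv p)^[n] W := by
  induction n with
  | zero => rfl
  | succ n ih => rw [Function.iterate_succ_apply', ih, conv_smul, Function.iterate_succ_apply']

theorem pk_zero_apply (x : G) : pk p 0 x = if x = 0 then 1 else 0 := by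
  simp [pk, Pi.single_apply]

theorem pk_succ_apply (n : ℕ) (x : G) : pk p (n + 1) x = ∑ y, pk p n y * p (x - y) := by
  unfold pk
  rw [Function.iterate_succ_apply']
  rfl

theorem conv_iter_eq (W : G → ℝ≥0) (n : ℕ) (x : G) :
    (conv p)^[n] W x = ∑ y, W y * pk p n (x - y) := by
  induction n generalizing x with
  | zero =>
    simp only [Function.iterate_zero, id_eq, pk_zero_apply, sub_eq_zero]
    simp
  | succ n ih =>
    rw [Function.iterate_succ_apply']
    show ∑ z, ((conv p)^[n] W) z * p (x - z) = _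
    calc ∑ z, ((conv p)^[n] W) z * p (x - z)
        = ∑ z, ∑ y, W y * pk p n (z - y) * p (x - z) := by
          refine Finset.sum_congr rfl fun z _ => ?_
          rw [ih z, Finset.sum_mul]
      _ = ∑ y, ∑ z, W y * pk p n (z - y) * p (x - z) := Finset.sum_comm
      _ = ∑ y, W y * pk p (n + 1) (x - y) := by
          refine Finset.sum_congr rfl fun y _ => ?_
          rw [pk_succ_apply, Finset.mul_sum]
          rw [← Equiv.sum_comp (Equiv.subRight y)
            (fun z => W y * (pk p n z * p (x - y - z)))]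
          refine Finset.sum_congr rfl fun z _ => ?_
          rw [Equiv.subRight_apply, mul_assoc]
          congr 3
          abel

theorem pk_neg (h : Walk p n0) (n : ℕ) (x : G) : pk p n (-x) = pk p n x := by
  induction n generalizing x with
  | zero => simp [pk_zero_apply]
  | succ n ih =>
    rw [pk_succ_apply, pk_succ_apply, ← Equiv.sum_comp (Equiv.neg G)
      (fun y => pk p n y * p (-x - y))]
    refine Finset.sum_congr rfl fun y _ => ?_
    rw [Equiv.neg_apply, ih y, ← h.symm (x - y)]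
    congr 2
    abel

theorem pk_add (n m : ℕ) (x : G) :
    pk p (n + m) x = ∑ y, pk p n y * pk p m (x - y) := by
  rw [← conv_iter_eq (pk p n) m x]
  unfold pk
  rw [← Function.iterate_add_apply, add_comm]

theorem sum_pk (h : Walk p n0) (n : ℕ) : ∑ x, pk p n x = 1 := by
  have := mass_conv_iter h (dl : G → ℝ≥0) n
  rw [mass_dl] at this
  exact this

/-- the square of a smoothed measure against a smoothed measure -/
theorem sum_pk_mul (h : Walk p n0) (k : ℕ) (x y : G) :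
    ∑ z, pk p k (z - x) * pk p k (z - y) = pk p (2 * k) (x - y) := by
  rw [two_mul, pk_add, ← Equiv.sum_comp (Equiv.subLeft x)
    (fun u => pk p k u * pk p k (x - y - u))]
  refine Finset.sum_congr rfl fun z _ => ?_
  rw [Equiv.subLeft_apply, ← pk_neg h k (z - x)]
  congr 2
  · abel
  · abel

/-- aa as a quadratic form. -/
theorem aa_eq_quad (h : Walk p n0) (W : G → ℝ≥0) (k : ℕ) :
    aa p W k = ∑ x, ∑ y, (W x : ℝ) * (W y : ℝ) * (pk p (2 * k) (x - y) : ℝ) := by
  unfold aa sq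
  calc ∑ z, ((conv p)^[k] W z : ℝ) ^ 2
      = ∑ z, ∑ x, ∑ y, ((W x * pk p k (z - x) : ℝ≥0) : ℝ) * ((W y * pk p k (z - y) : ℝ≥0) : ℝ) := by
        refine Finset.sum_congr rfl fun z _ => ?_
        rw [conv_iter_eq, pow_two, NNReal.coe_sum, Finset.sum_mul_sum]
    _ = ∑ x, ∑ z, ∑ y, ((W x * pk p k (z - x) : ℝ≥0) : ℝ) * ((W y * pk p k (z - y) : ℝ≥0) : ℝ) :=
        Finset.sum_comm
    _ = ∑ x, ∑ y, (W x : ℝ) * (W y : ℝ) * (pk p (2 * k) (x - y) : ℝ) := by
        refine Finset.sum_congr rfl fun x _ => ?_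
        rw [Finset.sum_comm]
        refine Finset.sum_congr rfl fun y _ => ?_
        rw [← sum_pk_mul h k x y, NNReal.coe_sum, Finset.mul_sum]
        refine Finset.sum_congr rfl fun z _ => ?_
        push_cast
        ring

theorem aa_nonneg (W : G → ℝ≥0) (k : ℕ) : 0 ≤ aa p W k :=
  Finset.sum_nonneg fun _ _ => sq_nonneg _

theorem aa_conv (W : G → ℝ≥0) (j k : ℕ) : aa p ((conv p)^[j] W) k = aa p W (j + k) := by
  unfold aa
  rw [← Function.iterate_add_apply, add_comm]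

theorem sq_smul_kern (c : ℝ≥0) (W : G → ℝ≥0) :
    Pool.A2F.sq (c • W) = (c : ℝ) ^ 2 * Pool.A2F.sq W := by
  unfold Pool.A2F.sq
  rw [Finset.mul_sum]
  refine Finset.sum_congr rfl fun x _ => ?_
  simp [mul_pow]

theorem aa_smul (c : ℝ≥0) (W : G → ℝ≥0) (k : ℕ) :
    aa p (c • W) k = (c : ℝ) ^ 2 * aa p W k := by
  unfold aa
  rw [conv_iter_smul_kern, sq_smul_kern]

theorem sq_conv_le (h : Walk p n0) (W : G → ℝ≥0) :
    Pool.A2F.sq (conv p W) ≤ Pool.A2F.sq W := by
  unfold Pool.A2F.sq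
  have h1 : ∀ x : G, ((conv p W x : ℝ≥0) : ℝ) ^ 2 ≤ ∑ y, (W y : ℝ) ^ 2 * (p (x - y) : ℝ) := by
    intro x
    have hp : ∑ y, ((p (x - y) : ℝ≥0) : ℝ) = 1 := by
      rw [← NNReal.coe_sum]
      have : ∑ y, p (x - y) = 1 := by
        rw [← h.one]
        exact Equiv.sum_comp (Equiv.subLeft x) p
      rw [this, NNReal.coe_one]
    have := Finset.sum_sq_le_sum_mul_sum_of_sq_le_mul Finset.univ
      (r := fun y => (W y : ℝ) * (p (x - y) : ℝ))
      (f := fun y => (W y : ℝ) ^ 2 * (p (x - y) : ℝ)) (g := fun y => (p (x - y) : ℝ))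
      (fun y _ => by positivity) (fun y _ => by positivity) (fun y _ => le_of_eq (by ring))
    rw [hp, mul_one] at this
    unfold conv
    push_cast
    exact this
  calc ∑ x, ((conv p W x : ℝ≥0) : ℝ) ^ 2 ≤ ∑ x, ∑ y, (W y : ℝ) ^ 2 * (p (x - y) : ℝ) :=
        Finset.sum_le_sum fun x _ => h1 x
    _ = ∑ y, ∑ x, (W y : ℝ) ^ 2 * (p (x - y) : ℝ) := Finset.sum_comm
    _ = ∑ y, (W y : ℝ) ^ 2 := by
        refine Finset.sum_congr rfl fun y _ => ?_
        rw [← Finset.mul_sum, ← NNReal.coe_sum]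
        have : ∑ x, p (x - y) = 1 := by
          rw [← h.one]
          exact Equiv.sum_comp (Equiv.subRight y) p
        rw [this, NNReal.coe_one, mul_one]

theorem aa_anti (h : Walk p n0) (W : G → ℝ≥0) : Antitone (aa p W) := by
  refine antitone_nat_of_succ_le fun k => ?_
  unfold aa
  rw [Function.iterate_succ_apply']
  exact sq_conv_le h _

theorem sq_pk (h : Walk p n0) (n : ℕ) :
    ∑ y, ((pk p n y : ℝ≥0) : ℝ) ^ 2 = ((pk p (2 * n) 0 : ℝ≥0) : ℝ) := by
  rw [← sub_self (0 : G), ← sum_pk_mul h n 0 0, NNReal.coe_sum]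
  refine Finset.sum_congr rfl fun z _ => ?_
  rw [sub_zero]
  push_cast
  ring

theorem pk_two_le (h : Walk p n0) {n : ℕ} (hn : n ≤ n0) (x : G) :
    ((pk p (2 * n) x : ℝ≥0) : ℝ) ≤ uu n := by
  rw [← h.ret n hn, ← sq_pk h n, two_mul, pk_add, NNReal.coe_sum]
  have h2 : ∑ y, ((pk p n (x - y) : ℝ≥0) : ℝ) ^ 2 = ∑ y, ((pk p n y : ℝ≥0) : ℝ) ^ 2 :=
    Equiv.sum_comp (Equiv.subLeft x) (fun y => ((pk p n y : ℝ≥0) : ℝ) ^ 2)
  have h1 : ∀ y : G, (((pk p n y * pk p n (x - y) : ℝ≥0)) : ℝ) ≤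
      1 / 2 * ((pk p n y : ℝ≥0) : ℝ) ^ 2 + 1 / 2 * ((pk p n (x - y) : ℝ≥0) : ℝ) ^ 2 := by
    intro y
    push_cast
    nlinarith [sq_nonneg (((pk p n y : ℝ≥0) : ℝ) - ((pk p n (x - y) : ℝ≥0) : ℝ))]
  calc ∑ y, (((pk p n y * pk p n (x - y) : ℝ≥0)) : ℝ)
      ≤ ∑ y, (1 / 2 * ((pk p n y : ℝ≥0) : ℝ) ^ 2 + 1 / 2 * ((pk p n (x - y) : ℝ≥0) : ℝ) ^ 2) :=
        Finset.sum_le_sum fun y _ => h1 y
    _ = ∑ y, ((pk p n y : ℝ≥0) : ℝ) ^ 2 := by
        rw [Finset.sum_add_distrib, ← Finset.mul_sum, ← Finset.mul_sum, h2]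
        ring

theorem pk_le_inv (h : Walk p n0) {n : ℕ} (h1 : 1 ≤ n) (hn : n ≤ 2 * n0) (x : G) :
    ((pk p n x : ℝ≥0) : ℝ) ≤ 1 / n := by
  have hpi := Real.pi_gt_three
  rcases Nat.even_or_odd' n with ⟨m, rfl | rfl⟩
  · have hm : 1 ≤ m := by omega
    have hm' : (1 : ℝ) ≤ m := by exact_mod_cast hm
    refine (pk_two_le h (by omega) x).trans ((uu_le hm).trans ?_)
    push_cast
    apply one_div_le_one_div_of_le (by positivity)
    nlinarith
  · rcases Nat.eq_zero_or_pos m with rfl | hm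
    · have h3 : pk p (2 * 0 + 1) x ≤ ∑ y, pk p (2 * 0 + 1) y :=
        Finset.single_le_sum (f := fun y => pk p (2 * 0 + 1) y) (fun _ _ => zero_le)
          (Finset.mem_univ x)
      rw [sum_pk h] at h3
      have h4 : ((pk p (2 * 0 + 1) x : ℝ≥0) : ℝ) ≤ 1 := by exact_mod_cast h3
      simpa using h4
    · have hm' : (1 : ℝ) ≤ m := by exact_mod_cast hm
      have h3 : ((pk p (2 * m + 1) x : ℝ≥0) : ℝ) ≤ uu m := by
        rw [pk_succ_apply, NNReal.coe_sum]
        calc ∑ y, ((pk p (2 * m) y * p (x - y) : ℝ≥0) : ℝ)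
            ≤ ∑ y, uu m * (p (x - y) : ℝ) := by
              refine Finset.sum_le_sum fun y _ => ?_
              push_cast
              exact mul_le_mul_of_nonneg_right (pk_two_le h (by omega) y) (by positivity)
          _ = uu m := by
              rw [← Finset.mul_sum, ← NNReal.coe_sum]
              have : ∑ y, p (x - y) = 1 := by
                rw [← h.one]
                exact Equiv.sum_comp (Equiv.subLeft x) p
              rw [this, NNReal.coe_one, mul_one]
      refine h3.trans ((uu_le hm).trans ?_)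
      push_cast
      apply one_div_le_one_div_of_le (by positivity)
      nlinarith

/-- sup bound for a smoothed measure. -/
theorem conv_iter_le (h : Walk p n0) {n : ℕ} (h1 : 1 ≤ n) (hn : n ≤ 2 * n0) (W : G → ℝ≥0) (x : G) :
    (((conv p)^[n] W x : ℝ≥0) : ℝ) ≤ (mass W : ℝ) / n := by
  rw [conv_iter_eq, NNReal.coe_sum, mass, NNReal.coe_sum, Finset.sum_div]
  refine Finset.sum_le_sum fun y _ => ?_
  rw [NNReal.coe_mul, div_eq_mul_one_div]
  exact mul_le_mul_of_nonneg_left (pk_le_inv h h1 hn _) (by positivity)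

theorem aa_le (h : Walk p n0) {k : ℕ} (hk : k ≤ n0) (W : G → ℝ≥0) :
    aa p W k ≤ uu k * (mass W : ℝ) ^ 2 := by
  rw [aa_eq_quad h, mass, NNReal.coe_sum, pow_two, Finset.sum_mul_sum, Finset.mul_sum]
  refine Finset.sum_le_sum fun x _ => ?_
  rw [Finset.mul_sum]
  refine Finset.sum_le_sum fun y _ => ?_
  rw [mul_comm (uu k)]
  exact mul_le_mul_of_nonneg_left (pk_two_le h hk _) (by positivity)

theorem aa_dl (h : Walk p n0) {k : ℕ} (hk : k ≤ n0) : aa p (dl : G → ℝ≥0) k = uu k := by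
  rw [← h.ret k hk, ← sq_pk h k]
  rfl

/-- overlap lower bound (Cauchy-Schwarz). -/
theorem overlap_sq_le (h : Walk p n0) {k : ℕ} (hk : k ≤ n0) (W : G → ℝ≥0) :
    (∑ x, (W x : ℝ) * (pk p (2 * k) x : ℝ)) ^ 2 ≤ uu k * aa p W k := by
  have h1 : ∑ x, (W x : ℝ) * (pk p (2 * k) x : ℝ) =
      ∑ z, (pk p k z : ℝ) * (((conv p)^[k] W z : ℝ≥0) : ℝ) := by
    calc ∑ x, (W x : ℝ) * (pk p (2 * k) x : ℝ)
        = ∑ x, ∑ z, (W x : ℝ) * ((pk p k z : ℝ) * (pk p k (z - x) : ℝ)) := by
          refine Finset.sum_congr rfl fun x _ => ?_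
          rw [← Finset.mul_sum]
          congr 1
          have := sum_pk_mul h k (0 : G) x
          rw [zero_sub, pk_neg h] at this
          rw [← this, NNReal.coe_sum]
          refine Finset.sum_congr rfl fun z _ => ?_
          rw [sub_zero, NNReal.coe_mul]
      _ = ∑ z, ∑ x, (W x : ℝ) * ((pk p k z : ℝ) * (pk p k (z - x) : ℝ)) := Finset.sum_comm
      _ = ∑ z, (pk p k z : ℝ) * (((conv p)^[k] W z : ℝ≥0) : ℝ) := by
          refine Finset.sum_congr rfl fun z _ => ?_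
          rw [conv_iter_eq, NNReal.coe_sum, Finset.mul_sum]
          refine Finset.sum_congr rfl fun x _ => ?_
          push_cast
          ring
  have h2 : ∑ z, ((pk p k z : ℝ≥0) : ℝ) ^ 2 = uu k := by rw [sq_pk h, h.ret k hk]
  rw [h1, ← h2]
  exact Finset.sum_mul_sq_le_sq_mul_sq _ _ _

theorem Ut_nonneg_kern {s : ℝ} (hs : 0 ≤ s) (n : ℕ) : 0 ≤ Ut s n := by
  induction n using Nat.strong_induction_on with
  | _ n ih =>
    cases n with
    | zero => rw [Ut]; norm_num
    | succ n =>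
      rw [Ut]
      refine mul_nonneg hs (Finset.sum_nonneg fun k _ => mul_nonneg (uu_pos _).le (ih k.1 k.2))

theorem UU_nonneg_kern {s : ℝ} (hs : 0 ≤ s) (n : ℕ) : 0 ≤ UU s n :=
  Finset.sum_nonneg fun k _ => Ut_nonneg_kern hs k

theorem UU_mono_kern {s : ℝ} (hs : 0 ≤ s) : Monotone (UU s) := by
  refine monotone_nat_of_le_succ fun n => ?_
  unfold UU
  rw [Finset.sum_range_succ _ (n + 1)]
  linarith [Ut_nonneg_kern hs (n + 1)]

/-- K n is nonnegative, monotone in n and homogeneous of degree two. -/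
theorem KK_nonneg {s : ℝ} (hs : 0 ≤ s) (n : ℕ) (W : G → ℝ≥0) : 0 ≤ KK p s n W :=
  mul_nonneg hs (Finset.sum_nonneg fun k _ =>
    mul_nonneg (aa_nonneg W _) (UU_nonneg_kern hs _))

theorem KK_mono {s : ℝ} (hs : 0 ≤ s) (W : G → ℝ≥0) : Monotone (fun n => KK p s n W) := by
  refine monotone_nat_of_le_succ fun n => ?_
  show KK p s n W ≤ KK p s (n + 1) W
  unfold KK
  refine mul_le_mul_of_nonneg_left ?_ hs
  rw [Finset.sum_range_succ]
  have h1 : 0 ≤ aa p W (n + 1) * UU s (n + 1 - 1 - n) :=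
    mul_nonneg (aa_nonneg W _) (UU_nonneg_kern hs _)
  have h2 : ∑ k ∈ range n, aa p W (k + 1) * UU s (n - 1 - k) ≤
      ∑ k ∈ range n, aa p W (k + 1) * UU s (n + 1 - 1 - k) := by
    refine Finset.sum_le_sum fun k _ => ?_
    exact mul_le_mul_of_nonneg_left (UU_mono_kern hs (by omega)) (aa_nonneg W _)
  linarith

theorem KK_smul {s : ℝ} (c : ℝ≥0) (n : ℕ) (W : G → ℝ≥0) :
    KK p s n (c • W) = (c : ℝ) ^ 2 * KK p s n W := by
  unfold KK
  rw [mul_left_comm]
  congr 1
  rw [Finset.mul_sum]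
  refine Finset.sum_congr rfl fun k _ => ?_
  rw [aa_smul, mul_assoc]

theorem Rz_smul (c : ℝ≥0) (t : ℕ) (W : G → ℝ≥0) :
    Rz p t (c • W) = (c : ℝ) ^ 2 * Rz p t W := by
  unfold Rz
  rw [Finset.mul_sum]
  refine Finset.sum_congr rfl fun k _ => ?_
  rw [aa_smul]
  ring

end Pool.A2F
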