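import Pool.Agent.A2F.Cubic
import Pool.Agent.A2F.Blk

/-!
# Module LMi: the estimate (L-)
-/

set_option autoImplicit false

open MeasureTheory Finset
open scoped ENNReal NNReal

noncomputable section

namespace Pool.A2F

/-! ## 1. Asymptotics -/

theorem lmi_log_le {y : ℝ} (hy : 0 < y) : Real.log y ≤ y := by
  have := Real.log_le_sub_one_of_pos hy
  linarith

/-- final computation of (L-) -/
theorem lmi_final (b ε : ℝ) (hb : 0 < b) (hε : 0 < ε) : ∃ L0 : ℝ, 16 ≤ L0 ∧ ∀ L ≥ L0, ∀ n : ℕ,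
    (n : ℝ) * L⁻¹ ^ 4 ≤ L → L - 20 * Real.log L ≤ (n : ℝ) * L⁻¹ ^ 4 →
    ∀ a c θ : ℝ, a = b / Real.sqrt L → c = a * (a + 1) / 2 * L⁻¹ ^ 4 * (1 - 3 / L) →
      θ = Real.exp (-(3 * Real.sqrt L)) →
      a ≤ 1 ∧ 0 ≤ c ∧ θ ≤ 1 / 2 ∧ 2 * b ^ 2 + 1 ≤ Real.sqrt L ∧
      Real.exp (a * (a + 1) / 2 * L - ε) ≤ ((1 + c) * (1 - θ)) ^ n := by
  have hT1 : Filter.Tendsto (fun L : ℝ => b * (20 * Real.log L + 3) / Real.sqrt L)
      Filter.atTop (nhds 0) := by
    have h1 : Filter.Tendsto (fun L : ℝ => Real.log L / L ^ (1 / 2 : ℝ)) Filter.atTop (nhds 0) :=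
      (isLittleO_log_rpow_atTop (by norm_num)).tendsto_div_nhds_zero
    have h2 : Filter.Tendsto (fun L : ℝ => (L ^ (1 / 2 : ℝ))⁻¹) Filter.atTop (nhds 0) :=
      (tendsto_rpow_atTop (by norm_num)).inv_tendsto_atTop
    have h3 := (h1.const_mul (20 * b)).add (h2.const_mul (3 * b))
    simp only [mul_zero, add_zero] at h3
    refine h3.congr fun L => ?_
    rw [Real.sqrt_eq_rpow]
    ring
  have hT2 : Filter.Tendsto (fun L : ℝ => L ^ 5 * Real.exp (-(3 * Real.sqrt L)))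
      Filter.atTop (nhds 0) := by
    have h1 := (Real.tendsto_pow_mul_exp_neg_atTop_nhds_zero 10).comp Real.tendsto_sqrt_atTop
    have h2 : ∀ᶠ L : ℝ in Filter.atTop, 0 ≤ L := Filter.eventually_ge_atTop 0
    refine squeeze_zero' (h2.mono fun L hL => by positivity) (h2.mono fun L hL => ?_) h1
    show L ^ 5 * Real.exp (-(3 * Real.sqrt L)) ≤ Real.sqrt L ^ 10 * Real.exp (-Real.sqrt L)
    have e1 : Real.sqrt L ^ 10 = L ^ 5 := by
      rw [show Real.sqrt L ^ 10 = (Real.sqrt L ^ 2) ^ 5 by ring, Real.sq_sqrt hL]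
    rw [e1]
    refine mul_le_mul_of_nonneg_left (Real.exp_le_exp.2 ?_) (by positivity)
    have := Real.sqrt_nonneg L
    linarith
  have hT3 : Filter.Tendsto (fun L : ℝ => b / Real.sqrt L) Filter.atTop (nhds 0) :=
    Filter.Tendsto.div_atTop tendsto_const_nhds Real.tendsto_sqrt_atTop
  have hT4 : Filter.Tendsto (fun L : ℝ => L⁻¹) Filter.atTop (nhds 0) := tendsto_inv_atTop_zero
  have e1 := hT1.eventually_lt_const (show (0 : ℝ) < ε / 4 by positivity)
  have e2 := hT2.eventually_lt_const (show (0 : ℝ) < min (ε / 8) (1 / 2) by positivity)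
  have e3 := hT3.eventually_lt_const (show (0 : ℝ) < 1 by norm_num)
  have e4 := hT4.eventually_lt_const (show (0 : ℝ) < ε / 4 by positivity)
  have e5 := Real.tendsto_sqrt_atTop.eventually_ge_atTop (2 * b ^ 2 + 1)
  obtain ⟨L1, hL1⟩ := Filter.eventually_atTop.1 (e1.and (e2.and (e3.and (e4.and e5))))
  refine ⟨max L1 16, le_max_right _ _, fun L hL n hn1 hn2 a c θ ha hc hθ => ?_⟩
  obtain ⟨f1, f2, f3, f4, f5⟩ := hL1 L (le_trans (le_max_left _ _) hL)
  have hL16 : 16 ≤ L := le_trans (le_max_right _ _) hL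
  have hL0 : 0 < L := by linarith
  have hsq : 0 < Real.sqrt L := Real.sqrt_pos.2 hL0
  have ha0 : 0 < a := by rw [ha]; positivity
  have ha1 : a ≤ 1 := by rw [ha]; exact f3.le
  set α := a * (a + 1) / 2 with hα
  have hα0 : 0 ≤ α := by positivity
  have hαa : α ≤ a := by rw [hα]; nlinarith
  have hα1 : α ≤ 1 := hαa.trans ha1
  have hδ0 : 0 < L⁻¹ ^ 4 := by positivity
  have hLi : L⁻¹ ≤ 1 := inv_le_one_of_one_le₀ (by linarith)
  have hLi0 : 0 < L⁻¹ := by positivity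
  have h3L : 3 / L = 3 * L⁻¹ := by ring
  have h3 : 0 ≤ 1 - 3 / L := by
    rw [sub_nonneg, div_le_one hL0]; linarith
  have h3' : 1 - 3 / L ≤ 1 := by rw [h3L]; linarith
  have hc0 : 0 ≤ c := by rw [hc]; positivity
  have hcδ : c ≤ L⁻¹ ^ 4 := by
    rw [hc]
    calc α * L⁻¹ ^ 4 * (1 - 3 / L) ≤ 1 * L⁻¹ ^ 4 * 1 := by
          apply mul_le_mul (mul_le_mul_of_nonneg_right hα1 hδ0.le) h3' h3 (by positivity)
      _ = L⁻¹ ^ 4 := by ring
  have hθ0 : 0 < θ := by rw [hθ]; exact Real.exp_pos _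
  have hL5 : (1 : ℝ) ≤ L ^ 5 := one_le_pow₀ (by linarith)
  have hθL : L ^ 5 * θ < min (ε / 8) (1 / 2) := by rw [hθ]; exact f2
  have hθ2 : θ ≤ 1 / 2 := by
    have h1 : θ ≤ L ^ 5 * θ := by nlinarith
    exact h1.trans (hθL.le.trans (min_le_right _ _))
  refine ⟨ha1, hc0, hθ2, f5, ?_⟩
  have hnL : (n : ℝ) ≤ L ^ 5 := by
    have h1 : (n : ℝ) = (n : ℝ) * L⁻¹ ^ 4 * L ^ 4 := by
      field_simp
    rw [h1]
    calc (n : ℝ) * L⁻¹ ^ 4 * L ^ 4 ≤ L * L ^ 4 := mul_le_mul_of_nonneg_right hn1 (by positivity)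
      _ = L ^ 5 := by ring
  -- logs
  have hlog1 : c - c ^ 2 ≤ Real.log (1 + c) := by
    have h1 : 1 - (1 + c)⁻¹ ≤ Real.log (1 + c) := Real.one_sub_inv_le_log_of_pos (by linarith)
    have h2 : c - c ^ 2 ≤ 1 - (1 + c)⁻¹ := by
      have h3 : 1 - (1 + c)⁻¹ = c / (1 + c) := by
        field_simp
        ring
      rw [h3, le_div_iff₀ (by linarith)]
      nlinarith [pow_nonneg hc0 3]
    linarith
  have hlog2 : -(2 * θ) ≤ Real.log (1 - θ) := by
    have h1 : 1 - (1 - θ)⁻¹ ≤ Real.log (1 - θ) := Real.one_sub_inv_le_log_of_pos (by linarith)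
    have h2 : -(2 * θ) ≤ 1 - (1 - θ)⁻¹ := by
      have h3 : 1 - (1 - θ)⁻¹ = -θ / (1 - θ) := by
        have : (1 - θ) ≠ 0 := by linarith
        field_simp
        ring
      rw [h3, le_div_iff₀ (by linarith)]
      nlinarith
    linarith
  have hpos : 0 < (1 + c) * (1 - θ) := mul_pos (by linarith) (by linarith)
  rw [← Real.exp_log hpos, ← Real.exp_nat_mul, Real.exp_le_exp,
    Real.log_mul (by linarith) (by linarith)]
  have hn0 : (0 : ℝ) ≤ n := Nat.cast_nonneg n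
  have g1 : (n : ℝ) * (c - c ^ 2 - 2 * θ) ≤ n * (Real.log (1 + c) + Real.log (1 - θ)) :=
    mul_le_mul_of_nonneg_left (by linarith) hn0
  have g2 : (n : ℝ) * c ^ 2 ≤ ε / 4 := by
    calc (n : ℝ) * c ^ 2 = n * c * c := by ring
      _ ≤ n * L⁻¹ ^ 4 * L⁻¹ ^ 4 := by
          apply mul_le_mul (mul_le_mul_of_nonneg_left hcδ hn0) hcδ hc0 (by positivity)
      _ ≤ L * L⁻¹ ^ 4 := mul_le_mul_of_nonneg_right hn1 hδ0.le
      _ = L⁻¹ * L⁻¹ ^ 2 := by field_simp
      _ ≤ L⁻¹ * 1 := by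
          refine mul_le_mul_of_nonneg_left (pow_le_one₀ hLi0.le hLi) hLi0.le
      _ ≤ ε / 4 := by rw [mul_one]; exact f4.le
  have g3 : (n : ℝ) * (2 * θ) ≤ ε / 4 := by
    have h1 : (n : ℝ) * θ ≤ L ^ 5 * θ := mul_le_mul_of_nonneg_right hnL hθ0.le
    have h2 := hθL.le.trans (min_le_left _ _)
    linarith
  have g4 : α * L - ε / 4 ≤ n * c := by
    have h1 : (n : ℝ) * c = α * (n * L⁻¹ ^ 4 * (1 - 3 / L)) := by rw [hc]; ring
    have hlogL : 0 ≤ Real.log L := Real.log_nonneg (by linarith)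
    have h2 : L - 20 * Real.log L - 3 ≤ n * L⁻¹ ^ 4 * (1 - 3 / L) := by
      have h4 : (L - 20 * Real.log L) * (1 - 3 / L) ≤ n * L⁻¹ ^ 4 * (1 - 3 / L) :=
        mul_le_mul_of_nonneg_right hn2 h3
      have h5 : (L - 20 * Real.log L) * (1 - 3 / L)
          = L - 20 * Real.log L - 3 + 60 * (Real.log L / L) := by
        field_simp
        ring
      have h6 : 0 ≤ Real.log L / L := div_nonneg hlogL hL0.le
      linarith
    have h7 : α * (L - 20 * Real.log L - 3) ≤ n * c := by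
      rw [h1]; exact mul_le_mul_of_nonneg_left h2 hα0
    have h8 : α * (20 * Real.log L + 3) ≤ ε / 4 := by
      calc α * (20 * Real.log L + 3) ≤ a * (20 * Real.log L + 3) :=
            mul_le_mul_of_nonneg_right hαa (by linarith)
        _ = b * (20 * Real.log L + 3) / Real.sqrt L := by rw [ha]; ring
        _ ≤ ε / 4 := f1.le
    have h9 : α * (L - 20 * Real.log L - 3) = α * L - α * (20 * Real.log L + 3) := by ring
    rw [h9] at h7
    linarith
  have g5 : (n : ℝ) * (c - c ^ 2 - 2 * θ) = n * c - n * c ^ 2 - n * (2 * θ) := by ring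
  rw [g5] at g1
  linarith

/-! ## 2. One block -/

variable {G : Type} [Fintype G] [DecidableEq G] [AddCommGroup G]
  {p : G → ℝ≥0} {n0 : ℕ} {m : Measure ℝ≥0} {s C4 : ℝ}

omit [DecidableEq G] [AddCommGroup G] in
theorem lmi_point {a : ℝ} (ha : 0 < a) (ha1 : a < 1) (V : G → ℝ≥0) :
    ENNReal.ofReal (1 + a + a * (a + 1) / 2 + a * (a + 1) * (a + 2) / 6)
      + ENNReal.ofReal (a * (a + 1) / 2 + 3 * (a * (a + 1) * (a + 2) / 6))
          * ENNReal.ofReal ((mass V : ℝ) ^ 2)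
    ≤ nm a V + (ENNReal.ofReal (a + 2 * (a * (a + 1) / 2) + 3 * (a * (a + 1) * (a + 2) / 6))
          * (mass V : ℝ≥0∞)
        + ENNReal.ofReal (a * (a + 1) * (a + 2) / 6)
          * ENNReal.ofReal ((mass V : ℝ) ^ 3)) := by
  unfold nm
  by_cases hV : mass V = 0
  · rw [hV]
    have h1 : ((0 : ℝ≥0) : ℝ≥0∞) ^ (-a) = ⊤ := by
      simp [ENNReal.zero_rpow_of_neg (neg_neg_of_pos ha)]
    rw [h1]
    simp
  · set x : ℝ≥0 := mass V with hx
    have hx0 : (0 : ℝ) < x := by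
      have : 0 < x := pos_iff_ne_zero.2 hV
      exact_mod_cast this
    have h1 : ((x : ℝ≥0) : ℝ≥0∞) ^ (-a) = ENNReal.ofReal ((x : ℝ) ^ (-a)) := by
      rw [← ENNReal.ofReal_coe_nnreal, ENNReal.ofReal_rpow_of_pos hx0]
    have h2 : ((x : ℝ≥0) : ℝ≥0∞) = ENNReal.ofReal (x : ℝ) := by
      rw [ENNReal.ofReal_coe_nnreal]
    rw [h1, h2]
    have hr : 0 ≤ (x : ℝ) ^ (-a) := (Real.rpow_pos_of_pos hx0 _).le
    rw [← ENNReal.ofReal_mul (by positivity), ← ENNReal.ofReal_mul (by positivity),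
      ← ENNReal.ofReal_mul (by positivity), ← ENNReal.ofReal_add (by positivity) (by positivity),
      ← ENNReal.ofReal_add (by positivity) (by positivity),
      ← ENNReal.ofReal_add (by positivity) (by positivity)]
    apply ENNReal.ofReal_le_ofReal
    have := cubic_le_rpow_neg ha ha1 hx0
    nlinarith

/-- one block from a smoothed measure of mass one -/
theorem lmi_block (hw : Walk p n0) (hm : Law m s C4) {a K ξ : ℝ} (ha : 0 < a) (ha1 : a < 1)
    {n : ℕ} (hn : n ≤ n0) {W : G → ℝ≥0} (hW : mass W = 1) (hK : KK p s n W = K) (hK0 : 0 ≤ K)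
    (hξ : 0 ≤ ξ)
    (h3 : (TT p m)^[n] (fun V => ENNReal.ofReal ((mass V : ℝ) ^ 3)) W
      ≤ ENNReal.ofReal (1 + 3 * K + K * ξ)) :
    ENNReal.ofReal (1 + a * (a + 1) / 2 * K - a * (a + 1) * (a + 2) / 6 * (K * ξ))
      ≤ (TT p m)^[n] (nm a) W := by
  have := hm.prob
  have hmm : Measurable (fun V : G → ℝ≥0 => (mass V : ℝ≥0∞)) :=
    measurable_coe_nnreal_ennreal.comp measurable_mass
  have hmain := TTn_mono (p := p) (m := m) (fun V : G → ℝ≥0 => lmi_point ha ha1 V) n W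
  rw [TTn_add measurable_const, TTn_const,
    TTn_const_mul (by exact (((measurable_mass.coe_nnreal_real).pow_const 2).ennreal_ofReal)),
    TTn_sqmass hw hm hn, TTn_add (measurable_nm a),
    TTn_add (hmm.const_mul _), TTn_const_mul hmm,
    TTn_const_mul (by exact (((measurable_mass.coe_nnreal_real).pow_const 3).ennreal_ofReal)),
    TTn_mass hw hm, hW, hK] at hmain
  have h4 := hmain.trans (add_le_add_right (add_le_add_right (mul_le_mul_right h3
    (ENNReal.ofReal (a * (a + 1) * (a + 2) / 6))) _) _)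
  simp only [ENNReal.coe_one, mul_one, NNReal.coe_one, one_pow] at h4
  rw [← ENNReal.ofReal_mul (by positivity), ← ENNReal.ofReal_mul (by positivity),
    ← ENNReal.ofReal_add (by positivity) (by positivity),
    ← ENNReal.ofReal_add (by positivity) (by positivity)] at h4
  have h5 := tsub_le_iff_right.2 h4
  refine le_trans ?_ h5
  rw [← ENNReal.ofReal_sub _ (by positivity)]
  apply ENNReal.ofReal_le_ofReal
  apply le_of_eq
  ring

/-- all measures of a good set -/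
theorem lmi_good (hw : Walk p n0) (hm : Law m s C4) {a c : ℝ} (ha : 0 < a)
    {n : ℕ} {S : Set (G → ℝ≥0)} (hS : ∀ W ∈ S, ∀ c : ℝ≥0, c ≠ 0 → c • W ∈ S)
    (h : ∀ W ∈ S, mass W = 1 → ENNReal.ofReal (1 + c) ≤ (TT p m)^[n] (nm a) W)
    {V : G → ℝ≥0} (hV : V ∈ S) :
    ENNReal.ofReal (1 + c) * nm a V ≤ (TT p m)^[n] (nm a) V := by
  have := hm.prob
  by_cases h0 : mass V = 0
  · have h1 : nm a V = ⊤ := by
      unfold nm
      rw [h0]
      simp [ENNReal.zero_rpow_of_neg (neg_neg_of_pos ha)]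
    have h2 : nm a V ≤ (TT p m)^[n] (nm a) V := op_le_TTn (fun W => nm_le_TT hw hm ha W) n V
    rw [h1] at h2
    exact le_top.trans h2
  · set x : ℝ≥0 := mass V with hx
    have hW : x⁻¹ • V ∈ S := hS V hV _ (inv_ne_zero h0)
    have hV' : V = x • (x⁻¹ • V) := by
      rw [smul_smul, mul_inv_cancel₀ h0, one_smul]
    have hW1 : mass (x⁻¹ • V) = 1 := by
      rw [op_mass_smul, ← hx, inv_mul_cancel₀ h0]
    have h3 := h _ hW hW1
    have h4 : nm a V = (x : ℝ≥0∞) ^ (-a) := rfl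
    calc ENNReal.ofReal (1 + c) * nm a V = (x : ℝ≥0∞) ^ (-a) * ENNReal.ofReal (1 + c) := by
          rw [h4, mul_comm]
      _ ≤ (x : ℝ≥0∞) ^ (-a) * (TT p m)^[n] (nm a) (x⁻¹ • V) := mul_le_mul_right h3 _
      _ = (TT p m)^[n] (nm a) (x • (x⁻¹ • V)) := (TTn_nm_smul a h0 n _).symm
      _ = (TT p m)^[n] (nm a) V := by rw [← hV']

theorem lmi_step (hm : Law m s C4) {a c : ℝ}
    {τ n : ℕ} {S : Set (G → ℝ≥0)} (hSm : MeasurableSet S)
    (h : ∀ V ∈ S, ENNReal.ofReal (1 + c) * nm a V ≤ (TT p m)^[n] (nm a) V) :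
    ENNReal.ofReal (1 + c) * (TT p m)^[τ] (nm a) dl
      ≤ (TT p m)^[τ + n] (nm a) dl
        + ENNReal.ofReal (1 + c) * (TT p m)^[τ] (Sᶜ.indicator (nm a)) dl := by
  have := hm.prob
  have h1 : ∀ V : G → ℝ≥0, ENNReal.ofReal (1 + c) * nm a V
      ≤ (TT p m)^[n] (nm a) V + ENNReal.ofReal (1 + c) * Sᶜ.indicator (nm a) V := by
    intro V
    by_cases hV : V ∈ S
    · exact (h V hV).trans le_self_add
    · rw [Set.indicator_of_mem (show V ∈ Sᶜ from hV)]
      exact le_add_self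
  have h2 := TTn_mono (p := p) (m := m) h1 τ dl
  rw [TTn_const_mul (measurable_nm a), TTn_add (measurable_TTn (measurable_nm a) n),
    TTn_const_mul ((measurable_nm a).indicator hSm.compl), ← Function.iterate_add_apply] at h2
  exact h2

theorem lmi_young {lam : ℝ} (hl : 0 < lam) (y : ℝ≥0∞) :
    y ≤ ENNReal.ofReal (lam / 2) * y ^ 2 + ENNReal.ofReal (1 / (2 * lam)) := by
  rcases eq_or_ne y ⊤ with h | h
  · subst h
    rw [ENNReal.top_pow (by norm_num), ENNReal.mul_top (by simp [hl]), top_add]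
  · lift y to ℝ≥0 using h
    rw [← ENNReal.ofReal_coe_nnreal, ← ENNReal.ofReal_pow (by positivity),
      ← ENNReal.ofReal_mul (by positivity), ← ENNReal.ofReal_add (by positivity) (by positivity)]
    apply ENNReal.ofReal_le_ofReal
    have h1 : 0 ≤ (lam * y - 1) ^ 2 / (2 * lam) := by positivity
    have h2 : (lam * y - 1) ^ 2 / (2 * lam) = lam / 2 * (y : ℝ) ^ 2 + 1 / (2 * lam) - y := by
      field_simp
      ring
    linarith

theorem lmi_bad (hm : Law m s C4) {a lam : ℝ} (hl : 0 < lam)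
    (τ : ℕ) {S : Set (G → ℝ≥0)} (hSm : MeasurableSet S) :
    (TT p m)^[τ] (Sᶜ.indicator (nm a)) dl
      ≤ ENNReal.ofReal (lam / 2) * (TT p m)^[τ] (nm (2 * a)) dl
        + ENNReal.ofReal (1 / (2 * lam)) * (TT p m)^[τ] (Sᶜ.indicator (fun _ => 1)) dl := by
  have := hm.prob
  have h1 : ∀ V : G → ℝ≥0, Sᶜ.indicator (nm a) V
      ≤ ENNReal.ofReal (lam / 2) * nm (2 * a) V
        + ENNReal.ofReal (1 / (2 * lam)) * Sᶜ.indicator (fun _ => 1) V := by
    intro V
    by_cases hV : V ∈ Sᶜ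
    · rw [Set.indicator_of_mem hV, Set.indicator_of_mem hV, mul_one]
      have h2 : nm (2 * a) V = nm a V ^ 2 := by
        unfold nm
        rw [← ENNReal.rpow_natCast, ← ENNReal.rpow_mul]
        congr 1
        push_cast
        ring
      rw [h2]
      exact lmi_young hl _
    · rw [Set.indicator_of_notMem hV]
      exact zero_le
  have h2 := TTn_mono (p := p) (m := m) h1 τ dl
  rw [TTn_add ((measurable_nm (2 * a)).const_mul _), TTn_const_mul (measurable_nm (2 * a)),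
    TTn_const_mul (measurable_const.indicator hSm.compl)] at h2
  exact h2

/-! ## 3. (L-) -/

theorem lmi_tau {n N : ℕ} {τ : ℕ → ℕ} (h1 : ∀ j < n, τ j < τ (j + 1)) (h2 : τ n ≤ N) :
    ∀ j ≤ n, τ j ≤ N := by
  have h3 : ∀ i j : ℕ, j + i = n → τ j ≤ N := by
    intro i
    induction i with
    | zero => intro j hj; simp at hj; rw [hj]; exact h2
    | succ i ih =>
      intro j hj
      have := ih (j + 1) (by omega)
      have := h1 j (by omega)
      omega
  exact fun j hj => h3 (n - j) j (by omega)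

/-- (L-): E Z^(-a) >= exp (a (a+1)/2 loglog N - eps). -/
theorem lmi_minus (Θ C4 b ε : ℝ) (hΘ : 0 ≤ Θ) (hb : 0 < b) (hε : 0 < ε) :
    ∃ N0 : ℕ, ∀ N ≥ N0, ∀ s : ℝ, Win Θ N s →
    ∀ {G : Type} [Fintype G] [DecidableEq G] [AddCommGroup G] (p : G → ℝ≥0) (m : Measure ℝ≥0),
      Walk p (4 * N) → Law m s C4 →
        ENNReal.ofReal (Real.exp (ex b N * (ex b N + 1) / 2 * Real.log (Real.log N) - ε))
          ≤ (TT p m)^[N] (nm (ex b N)) (dl : G → ℝ≥0) := by
  obtain ⟨L0, hL0, hfin⟩ := lmi_final b ε hb hε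
  obtain ⟨N1, hum⟩ := umin Θ C4 (2 * b) 1 hΘ (by positivity) one_pos
  obtain ⟨N2, hblk⟩ := blocks Θ C4 (2 * b + 8) hΘ (by positivity)
  have hT : Filter.Tendsto (fun N : ℕ => Real.log (Real.log N)) Filter.atTop Filter.atTop :=
    Real.tendsto_log_atTop.comp (Real.tendsto_log_atTop.comp tendsto_natCast_atTop_atTop)
  obtain ⟨N3, hN3⟩ := Filter.eventually_atTop.1 (hT.eventually_ge_atTop L0)
  refine ⟨max N1 (max N2 N3), fun N hN s hwin G _ _ _ p m hw hm => ?_⟩
  have hNN1 : N ≥ N1 := le_trans (le_max_left _ _) hN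
  have hNN2 : N ≥ N2 := le_trans (le_trans (le_max_left _ _) (le_max_right _ _)) hN
  have hNN3 : N ≥ N3 := le_trans (le_trans (le_max_right _ _) (le_max_right _ _)) hN
  have := hm.prob
  have hLL := hN3 N hNN3
  obtain ⟨n, τ, hn1, hn2, hτ, hτN, hgood⟩ := hblk N hNN2 s hwin
  obtain ⟨good, hgm, hgs, hgp, hgK⟩ := hgood p m hw hm
  have hu := hum N hNN1 s hwin p m hw hm
  unfold ex at hu ⊢
  generalize hLdef : Real.log (Real.log (N : ℝ)) = L at *
  obtain ⟨ha1, hc0, hθ2, hbL, hlast⟩ := hfin L hLL n hn1 hn2 _ _ _ rfl rfl rfl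
  have hLp : 0 < L := by linarith
  have hsq : 0 < Real.sqrt L := Real.sqrt_pos.2 hLp
  have hsq4 : 4 ≤ Real.sqrt L := by
    have h1 : Real.sqrt 16 ≤ Real.sqrt L := Real.sqrt_le_sqrt (by linarith)
    have h2 : Real.sqrt 16 = 4 := by
      rw [show (16 : ℝ) = 4 ^ 2 by norm_num, Real.sqrt_sq (by norm_num)]
    rwa [h2] at h1
  have hadef : b / Real.sqrt L * Real.sqrt L = b := by field_simp
  have ha0 : 0 < b / Real.sqrt L := by positivity
  have ha1' : b / Real.sqrt L < 1 := by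
    rw [div_lt_one hsq]
    nlinarith [sq_nonneg (b - 1)]
  have h2a : 2 * b / Real.sqrt L = 2 * (b / Real.sqrt L) := by ring
  rw [h2a] at hu
  generalize hag : b / Real.sqrt L = a at *
  set c : ℝ := a * (a + 1) / 2 * L⁻¹ ^ 4 * (1 - 3 / L) with hc
  set θ : ℝ := Real.exp (-(3 * Real.sqrt L)) with hθ
  have hθ0 : 0 < θ := Real.exp_pos _
  have hτle := lmi_tau hτ hτN
  -- the quantities E j
  have hE1 : ∀ j, 1 ≤ (TT p m)^[τ j] (nm a) (dl : G → ℝ≥0) := by
    intro j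
    have h1 := op_le_TTn (f := nm a) (fun W : G → ℝ≥0 => nm_le_TT hw hm ha0 W) (τ j) dl
    refine le_trans (le_of_eq ?_) h1
    unfold nm
    rw [mass_dl, ENNReal.coe_one, ENNReal.one_rpow]
  have hEt : ∀ j, (TT p m)^[τ j] (nm a) (dl : G → ℝ≥0) ≠ ⊤ := fun j =>
    (TTn_nm_lt_top hw hm ha0 (by linarith) (τ j)).ne
  -- blocks
  have hblock : ∀ j < n, ∀ V ∈ good j,
      ENNReal.ofReal (1 + c) * nm a V ≤ (TT p m)^[τ (j + 1) - τ j] (nm a) V := by
    intro j hj V hV
    refine lmi_good hw hm ha0 (hgs j) (fun W hW hW1 => ?_) hV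
    obtain ⟨k1, k2, k3⟩ := hgK j hj W hW hW1
    have hm1 : mass ((conv p)^[τ j] W) = 1 := by rw [mass_conv_iter hw, hW1]
    have hLi : 0 < L⁻¹ := by positivity
    have hLi1 : L⁻¹ ≤ 1 := inv_le_one_of_one_le₀ (by linarith)
    have hK0 : 0 ≤ KK p s (τ (j + 1) - τ j) ((conv p)^[τ j] W) :=
      le_trans (mul_nonneg (by positivity) (by linarith)) k1
    have hle : τ (j + 1) - τ j ≤ 4 * N := by
      have := hτle (j + 1) (by omega)
      omega
    have h1 := lmi_block hw hm ha0 ha1' hle hm1 rfl hK0 hLi.le k3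
    refine le_trans ?_ (h1.trans (TTn_nm_conv hw hm ha0 _ _ _))
    apply ENNReal.ofReal_le_ofReal
    generalize KK p s (τ (j + 1) - τ j) ((conv p)^[τ j] W) = K at *
    have hα : 0 ≤ a * (a + 1) / 2 := by positivity
    have hγ : a * (a + 1) * (a + 2) / 6 ≤ a * (a + 1) / 2 := by
      have : a * (a + 1) * (a + 2) / 6 = a * (a + 1) / 2 * ((a + 2) / 3) := by ring
      rw [this]
      exact mul_le_of_le_one_right hα (by linarith)
    have e1 : a * (a + 1) / 2 * (L⁻¹ ^ 4 * (1 - L⁻¹)) ≤ a * (a + 1) / 2 * K :=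
      mul_le_mul_of_nonneg_left k1 hα
    have e2 : a * (a + 1) * (a + 2) / 6 * (K * L⁻¹)
        ≤ a * (a + 1) / 2 * (2 * L⁻¹ ^ 4 * L⁻¹) :=
      mul_le_mul hγ (mul_le_mul_of_nonneg_right k2 hLi.le) (by positivity) hα
    have e3 : c = a * (a + 1) / 2 * (L⁻¹ ^ 4 * (1 - L⁻¹))
        - a * (a + 1) / 2 * (2 * L⁻¹ ^ 4 * L⁻¹) := by
      rw [hc, div_eq_mul_inv 3 L]
      ring
    linarith
  -- the bad part
  have hbad : ∀ j < n, (TT p m)^[τ j] ((good j)ᶜ.indicator (nm a)) dl ≤ ENNReal.ofReal θ := by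
    intro j hj
    set lam : ℝ := Real.exp (-((b + 4) * Real.sqrt L)) with hlam
    have hl : 0 < lam := Real.exp_pos _
    have h1 := lmi_bad (p := p) hm (a := a) hl (τ j) (hgm j)
    have h2 : (TT p m)^[τ j] (nm (2 * a)) (dl : G → ℝ≥0)
        ≤ ENNReal.ofReal (Real.exp (b * Real.sqrt L + 2 * b ^ 2 + 1)) := by
      refine (TTn_mono_n (fun W => nm_le_TT hw hm (by positivity) W) (hτle j hj.le) dl).trans ?_
      refine hu.trans (ENNReal.ofReal_le_ofReal (Real.exp_le_exp.2 (le_of_eq ?_)))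
      have hsL : L = Real.sqrt L * Real.sqrt L := (Real.mul_self_sqrt hLp.le).symm
      calc 2 * a * (2 * a + 1) / 2 * L + 1
          = 2 * (a * a * L) + a * L + 1 := by ring
        _ = 2 * ((a * Real.sqrt L) * (a * Real.sqrt L)) + (a * Real.sqrt L) * Real.sqrt L + 1 := by
            have e1 : a * a * L = (a * Real.sqrt L) * (a * Real.sqrt L) := by
              conv_lhs => rw [hsL]
              ring
            have e2 : a * L = (a * Real.sqrt L) * Real.sqrt L := by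
              conv_lhs => rw [hsL]
              ring
            rw [e1, e2]
        _ = b * Real.sqrt L + 2 * b ^ 2 + 1 := by rw [hadef]; ring
    have h3 := hgp j hj
    refine h1.trans ((add_le_add (mul_le_mul_right h2 _) (mul_le_mul_right h3 _)).trans ?_)
    rw [← ENNReal.ofReal_mul (by positivity), ← ENNReal.ofReal_mul (by positivity),
      ← ENNReal.ofReal_add (by positivity) (by positivity)]
    apply ENNReal.ofReal_le_ofReal
    have e1 : lam / 2 * Real.exp (b * Real.sqrt L + 2 * b ^ 2 + 1) ≤ θ / 2 := by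
      have : lam * Real.exp (b * Real.sqrt L + 2 * b ^ 2 + 1) ≤ θ := by
        rw [hlam, hθ, ← Real.exp_add]
        apply Real.exp_le_exp.2
        nlinarith
      linarith
    have e2 : 1 / (2 * lam) * Real.exp (-((2 * b + 8) * Real.sqrt L)) ≤ θ / 2 := by
      have h4 : 1 / (2 * lam) * Real.exp (-((2 * b + 8) * Real.sqrt L))
          = Real.exp (-((b + 4) * Real.sqrt L)) / 2 := by
        have h5 : Real.exp (-((2 * b + 8) * Real.sqrt L)) = lam * lam := by
          rw [hlam, ← Real.exp_add]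
          congr 1
          ring
        rw [h5, ← hlam]
        field_simp
      rw [h4]
      have h6 : Real.exp (-((b + 4) * Real.sqrt L)) ≤ θ := by
        rw [hθ]
        apply Real.exp_le_exp.2
        nlinarith
      linarith
    linarith
  -- recursion
  have hrec : ∀ j < n, (1 + c) * (1 - θ) * ((TT p m)^[τ j] (nm a) (dl : G → ℝ≥0)).toReal
      ≤ ((TT p m)^[τ (j + 1)] (nm a) (dl : G → ℝ≥0)).toReal := by
    intro j hj
    have h1 := lmi_step (p := p) hm (τ := τ j) (hgm j) (hblock j hj)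
    rw [show τ j + (τ (j + 1) - τ j) = τ (j + 1) from by have := hτ j hj; omega] at h1
    have h2 := h1.trans (add_le_add_right (mul_le_mul_right (hbad j hj)
      (ENNReal.ofReal (1 + c))) _)
    have h3 := ENNReal.toReal_mono (by
      refine ENNReal.add_ne_top.2 ⟨hEt (j + 1), ?_⟩
      exact ENNReal.mul_ne_top ENNReal.ofReal_ne_top ENNReal.ofReal_ne_top) h2
    rw [ENNReal.toReal_add (hEt (j + 1))
      (ENNReal.mul_ne_top ENNReal.ofReal_ne_top ENNReal.ofReal_ne_top), ENNReal.toReal_mul,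
      ENNReal.toReal_mul, ENNReal.toReal_ofReal (by linarith), ENNReal.toReal_ofReal hθ0.le] at h3
    have h4 : 1 ≤ ((TT p m)^[τ j] (nm a) (dl : G → ℝ≥0)).toReal := by
      have := ENNReal.toReal_mono (hEt j) (hE1 j)
      simpa using this
    have h5 : (1 + c) * θ ≤ (1 + c) * θ * ((TT p m)^[τ j] (nm a) (dl : G → ℝ≥0)).toReal :=
      le_mul_of_one_le_right (by positivity) h4
    have h6 : (1 + c) * (1 - θ) * ((TT p m)^[τ j] (nm a) (dl : G → ℝ≥0)).toReal
        = (1 + c) * ((TT p m)^[τ j] (nm a) (dl : G → ℝ≥0)).toReal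
          - (1 + c) * θ * ((TT p m)^[τ j] (nm a) (dl : G → ℝ≥0)).toReal := by ring
    linarith
  have hind : ∀ j ≤ n, ((1 + c) * (1 - θ)) ^ j
      ≤ ((TT p m)^[τ j] (nm a) (dl : G → ℝ≥0)).toReal := by
    intro j
    induction j with
    | zero =>
      intro _
      have := ENNReal.toReal_mono (hEt 0) (hE1 0)
      simpa using this
    | succ j ih =>
      intro hj
      have h1 := ih (by omega)
      have h2 := hrec j (by omega)
      have h3 : 0 ≤ (1 + c) * (1 - θ) := mul_nonneg (by linarith) (by linarith)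
      calc ((1 + c) * (1 - θ)) ^ (j + 1) = (1 + c) * (1 - θ) * ((1 + c) * (1 - θ)) ^ j := by ring
        _ ≤ (1 + c) * (1 - θ) * ((TT p m)^[τ j] (nm a) (dl : G → ℝ≥0)).toReal :=
            mul_le_mul_of_nonneg_left h1 h3
        _ ≤ _ := h2
  have hfinal := hlast.trans (hind n le_rfl)
  calc ENNReal.ofReal (Real.exp (a * (a + 1) / 2 * L - ε))
      ≤ ENNReal.ofReal ((TT p m)^[τ n] (nm a) (dl : G → ℝ≥0)).toReal :=
        ENNReal.ofReal_le_ofReal hfinal
    _ = (TT p m)^[τ n] (nm a) (dl : G → ℝ≥0) := ENNReal.ofReal_toReal (hEt n)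
    _ ≤ (TT p m)^[N] (nm a) (dl : G → ℝ≥0) :=
        TTn_mono_n (fun W => nm_le_TT hw hm ha0 W) hτN dl

end Pool.A2F
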