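import Pool.Agent.A2F.Defs

/-!
# Module LinkLaw: the law of exp (beta omega - Lambda beta)
-/

set_option autoImplicit false

open MeasureTheory ProbabilityTheory Filter Topology
open scoped ENNReal NNReal

noncomputable section

namespace Pool.A2F

/-- law of zeta = exp (beta omega - log E exp (beta omega)) -/
def zlaw (μ : Measure ℝ) (β : ℝ) : Measure ℝ≥0 :=
  Measure.map (fun x : ℝ =>
    Real.toNNReal (Real.exp (β * x - Real.log (∫ y, Real.exp (β * y) ∂μ)))) μ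

namespace LinkLaw

/-- third order Taylor bound -/
lemma exp_taylor2 (u : ℝ) : |Real.exp u - 1 - u - u ^ 2 / 2| ≤ |u| ^ 3 * Real.exp |u| := by
  have h := Complex.norm_exp_sub_sum_le_norm_mul_exp (u : ℂ) 3
  have e : (Complex.exp (u : ℂ) - ∑ m ∈ Finset.range 3, (u : ℂ) ^ m / (m.factorial : ℂ)) =
      ((Real.exp u - 1 - u - u ^ 2 / 2 : ℝ) : ℂ) := by
    simp only [Finset.sum_range_succ, Finset.sum_range_zero, Nat.factorial]
    push_cast
    ring
  rw [e, Complex.norm_real, Complex.norm_real, Real.norm_eq_abs, Real.norm_eq_abs] at h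
  exact h

lemma exp_taylor0 (u : ℝ) : |Real.exp u - 1| ≤ |u| * Real.exp |u| := by
  have h := Complex.norm_exp_sub_sum_le_norm_mul_exp (u : ℂ) 1
  have e : (Complex.exp (u : ℂ) - ∑ m ∈ Finset.range 1, (u : ℂ) ^ m / (m.factorial : ℂ)) =
      ((Real.exp u - 1 : ℝ) : ℂ) := by
    simp only [Finset.sum_range_succ, Finset.sum_range_zero, Nat.factorial]
    push_cast
    ring
  rw [e, Complex.norm_real, Complex.norm_real, Real.norm_eq_abs, Real.norm_eq_abs] at h
  simpa using h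

/-- powers are bounded by exponentials -/
lemma pow_mul_exp_le {b : ℝ} (hb : 0 < b) (n : ℕ) {y c : ℝ} (hy : 0 ≤ y) (hc : c ≤ b / 2) :
    y ^ n * Real.exp (c * y) ≤ ((n.factorial : ℝ) / (b / 2) ^ n) * Real.exp (b * y) := by
  have h1 : (b / 2 * y) ^ n / (n.factorial : ℝ) ≤ Real.exp (b / 2 * y) :=
    Real.pow_div_factorial_le_exp (b / 2 * y) (by positivity) n
  have hf : (0 : ℝ) < n.factorial := by exact_mod_cast n.factorial_pos
  have hb2 : (0 : ℝ) < (b / 2) ^ n := by positivity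
  have h2 : y ^ n ≤ ((n.factorial : ℝ) / (b / 2) ^ n) * Real.exp (b / 2 * y) := by
    rw [div_le_iff₀ hf, mul_pow] at h1
    rw [div_mul_eq_mul_div, le_div_iff₀ hb2]
    nlinarith
  have h3 : Real.exp (c * y) ≤ Real.exp (b / 2 * y) :=
    Real.exp_le_exp.2 (mul_le_mul_of_nonneg_right hc hy)
  calc y ^ n * Real.exp (c * y)
      ≤ (((n.factorial : ℝ) / (b / 2) ^ n) * Real.exp (b / 2 * y)) * Real.exp (b / 2 * y) :=
        mul_le_mul h2 h3 (Real.exp_pos _).le (by positivity)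
    _ = ((n.factorial : ℝ) / (b / 2) ^ n) * Real.exp (b * y) := by
        rw [mul_assoc, ← Real.exp_add]
        congr 2
        ring

section
variable {μ : Measure ℝ} [IsProbabilityMeasure μ] {b : ℝ}

omit [IsProbabilityMeasure μ] in
lemma int_abs (hb : 0 < b) (hI : ∀ t : ℝ, |t| ≤ b → Integrable (fun x : ℝ => Real.exp (t * x)) μ) :
    Integrable (fun x : ℝ => Real.exp (b * |x|)) μ := by
  have h1 := hI b (by rw [abs_of_pos hb])
  have h2 := hI (-b) (by rw [abs_neg, abs_of_pos hb])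
  refine Integrable.mono' (h1.add h2) (by fun_prop) (Filter.Eventually.of_forall fun x => ?_)
  rw [Real.norm_eq_abs, abs_of_pos (Real.exp_pos _), Pi.add_apply]
  rcases abs_cases x with ⟨h, -⟩ | ⟨h, -⟩
  · rw [h]
    linarith [Real.exp_pos (-b * x)]
  · rw [h, show b * -x = -b * x by ring]
    linarith [Real.exp_pos (b * x)]

lemma abs_pow_le (hb : 0 < b) (n : ℕ) (x : ℝ) :
    |x| ^ n ≤ ((n.factorial : ℝ) / (b / 2) ^ n) * Real.exp (b * |x|) := by
  have h := pow_mul_exp_le hb n (abs_nonneg x) (c := 0) (by positivity)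
  simpa using h

omit [IsProbabilityMeasure μ] in
lemma int_pow (hb : 0 < b) (hI : ∀ t : ℝ, |t| ≤ b → Integrable (fun x : ℝ => Real.exp (t * x)) μ)
    (n : ℕ) : Integrable (fun x : ℝ => x ^ n) μ := by
  refine Integrable.mono' ((int_abs hb hI).const_mul ((n.factorial : ℝ) / (b / 2) ^ n))
    (by fun_prop) (Filter.Eventually.of_forall fun x => ?_)
  rw [Real.norm_eq_abs, abs_pow]
  exact abs_pow_le hb n x

/-- expansion of the moment generating function -/
lemma mgf_expand (hb : 0 < b)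
    (hI : ∀ t : ℝ, |t| ≤ b → Integrable (fun x : ℝ => Real.exp (t * x)) μ)
    (h1 : ∫ x, x ∂μ = 0) (h2 : ∫ x, x ^ 2 ∂μ = 1) :
    ∃ K : ℝ, 0 ≤ K ∧ ∀ t : ℝ, |t| ≤ b / 2 →
      |(∫ x, Real.exp (t * x) ∂μ) - 1 - t ^ 2 / 2| ≤ K * |t| ^ 3 := by
  refine ⟨((Nat.factorial 3 : ℝ) / (b / 2) ^ 3) * ∫ x, Real.exp (b * |x|) ∂μ, ?_, ?_⟩
  · exact mul_nonneg (by positivity) (integral_nonneg fun x => (Real.exp_pos _).le)
  intro t ht
  have i0 := hI t (ht.trans (by linarith))
  have i1 := int_pow hb hI 1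
  have i2 := int_pow hb hI 2
  simp only [pow_one] at i1
  have e : (∫ x, Real.exp (t * x) ∂μ) - 1 - t ^ 2 / 2 =
      ∫ x, (Real.exp (t * x) - 1 - t * x - (t * x) ^ 2 / 2) ∂μ := by
    have j1 : Integrable (fun x : ℝ => t * x) μ := i1.const_mul t
    have j2 : Integrable (fun x : ℝ => (t * x) ^ 2 / 2) μ := by
      have := i2.const_mul (t ^ 2 / 2)
      refine this.congr (Filter.Eventually.of_forall fun x => ?_)
      simp only
      ring
    have k1 : Integrable (fun x : ℝ => Real.exp (t * x) - 1) μ := i0.sub (integrable_const 1)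
    have k2 : Integrable (fun x : ℝ => Real.exp (t * x) - 1 - t * x) μ := k1.sub j1
    rw [integral_sub k2 j2, integral_sub k1 j1, integral_sub i0 (integrable_const 1),
      integral_const_mul, h1]
    have : ∫ x, (t * x) ^ 2 / 2 ∂μ = t ^ 2 / 2 := by
      have : ∫ x, (t * x) ^ 2 / 2 ∂μ = ∫ x, (t ^ 2 / 2) * x ^ 2 ∂μ := by
        congr 1
        ext x
        ring
      rw [this, integral_const_mul, h2, mul_one]
    rw [this]
    simp
  rw [e]
  have hb3 : ∀ x : ℝ, ‖Real.exp (t * x) - 1 - t * x - (t * x) ^ 2 / 2‖ ≤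
      |t| ^ 3 * (((Nat.factorial 3 : ℝ) / (b / 2) ^ 3) * Real.exp (b * |x|)) := by
    intro x
    rw [Real.norm_eq_abs]
    refine (exp_taylor2 (t * x)).trans ?_
    rw [abs_mul, mul_pow, mul_assoc]
    exact mul_le_mul_of_nonneg_left (pow_mul_exp_le hb 3 (abs_nonneg x) ht) (by positivity)
  have h3 := norm_integral_le_of_norm_le
    (((int_abs hb hI).const_mul ((Nat.factorial 3 : ℝ) / (b / 2) ^ 3)).const_mul (|t| ^ 3))
    (Filter.Eventually.of_forall hb3)
  rw [integral_const_mul, integral_const_mul, Real.norm_eq_abs] at h3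
  linarith

omit [IsProbabilityMeasure μ] in
/-- the fourth moment -/
lemma fourth_le (hb : 0 < b)
    (hI : ∀ t : ℝ, |t| ≤ b → Integrable (fun x : ℝ => Real.exp (t * x)) μ) :
    ∃ K : ℝ, 0 ≤ K ∧ ∀ β l : ℝ, 0 < β → 4 * β ≤ b / 2 → |l| ≤ β →
      ∫⁻ x, ENNReal.ofReal ((Real.exp (β * x - l) - 1) ^ 4) ∂μ ≤ ENNReal.ofReal (K * β ^ 4) := by
  refine ⟨((Nat.factorial 4 : ℝ) / (b / 2) ^ 4) * Real.exp b * ∫ x, Real.exp (b * |x|) ∂μ, ?_, ?_⟩
  · exact mul_nonneg (by positivity) (integral_nonneg fun x => (Real.exp_pos _).le)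
  intro β l hβ hβb hl
  have key : ∀ x : ℝ, (Real.exp (β * x - l) - 1) ^ 4 ≤
      (β ^ 4 * (((Nat.factorial 4 : ℝ) / (b / 2) ^ 4) * Real.exp b)) * Real.exp (b * |x|) := by
    intro x
    set y : ℝ := |x| + 1 with hy
    have hy0 : 0 ≤ y := by positivity
    have hu : |β * x - l| ≤ β * y := by
      calc |β * x - l| ≤ |β * x| + |l| := abs_sub _ _
        _ ≤ β * |x| + β := by
            rw [abs_mul, abs_of_pos hβ]
            linarith
        _ = β * y := by rw [hy]; ring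
    have h1 : |Real.exp (β * x - l) - 1| ≤ β * y * Real.exp (β * y) :=
      (exp_taylor0 _).trans (mul_le_mul hu (Real.exp_le_exp.2 hu) (Real.exp_pos _).le
        (by positivity))
    have h2 : (Real.exp (β * x - l) - 1) ^ 4 ≤ (β * y * Real.exp (β * y)) ^ 4 := by
      have e : (Real.exp (β * x - l) - 1) ^ 4 = |Real.exp (β * x - l) - 1| ^ 4 := by
        rw [← abs_pow, abs_of_nonneg (by positivity)]
      rw [e]
      exact pow_le_pow_left₀ (abs_nonneg _) h1 4
    have h3 : (β * y * Real.exp (β * y)) ^ 4 = β ^ 4 * (y ^ 4 * Real.exp (4 * β * y)) := by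
      rw [mul_pow, mul_pow, ← Real.exp_nat_mul]
      push_cast
      rw [show (4 : ℝ) * (β * y) = 4 * β * y by ring]
      ring
    have h4 := pow_mul_exp_le hb 4 hy0 hβb
    have h5 : Real.exp (b * y) = Real.exp b * Real.exp (b * |x|) := by
      rw [← Real.exp_add]
      congr 1
      rw [hy]
      ring
    rw [h3] at h2
    rw [h5] at h4
    calc _ ≤ _ := h2
      _ ≤ β ^ 4 * (((Nat.factorial 4 : ℝ) / (b / 2) ^ 4) * (Real.exp b * Real.exp (b * |x|))) :=
          mul_le_mul_of_nonneg_left h4 (by positivity)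
      _ = _ := by ring
  have hint := (int_abs hb hI).const_mul
    (β ^ 4 * (((Nat.factorial 4 : ℝ) / (b / 2) ^ 4) * Real.exp b))
  calc _ ≤ ∫⁻ x, ENNReal.ofReal ((β ^ 4 * (((Nat.factorial 4 : ℝ) / (b / 2) ^ 4) * Real.exp b)) *
        Real.exp (b * |x|)) ∂μ := lintegral_mono fun x => ENNReal.ofReal_le_ofReal (key x)
    _ = ENNReal.ofReal (∫ x, (β ^ 4 * (((Nat.factorial 4 : ℝ) / (b / 2) ^ 4) * Real.exp b)) *
        Real.exp (b * |x|) ∂μ) := by
        rw [ofReal_integral_eq_lintegral_ofReal hint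
          (Filter.Eventually.of_forall fun x => by positivity)]
    _ = _ := by
        rw [integral_const_mul]
        congr 1
        ring

omit [IsProbabilityMeasure μ] in
/-- moments of the normalised exponential -/
lemma lint_exp {t : ℝ} {c : ℝ} (ht : Integrable (fun x : ℝ => Real.exp (t * x)) μ) (hc : 0 ≤ c)
    {f : ℝ → ℝ≥0∞} (hf : ∀ x, f x = ENNReal.ofReal (c * Real.exp (t * x))) :
    ∫⁻ x, f x ∂μ = ENNReal.ofReal (c * ∫ x, Real.exp (t * x) ∂μ) := by
  simp_rw [hf]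
  rw [← integral_const_mul, ofReal_integral_eq_lintegral_ofReal (ht.const_mul c)
    (Filter.Eventually.of_forall fun x => by positivity)]

end

lemma num_q1 {y m : ℝ} (hy : 0 ≤ y) (hy1 : y ≤ 1 / 10000) (hm : 0 ≤ m)
    (h : m ≤ 1 + 51 / 100 * y) : m ^ 2 ≤ 1 + 103 / 100 * y := by
  have h1 : m ^ 2 ≤ (1 + 51 / 100 * y) ^ 2 := pow_le_pow_left₀ hm h 2
  have h2 : y * y ≤ y * (1 / 10000) := mul_le_mul_of_nonneg_left hy1 hy
  nlinarith

lemma num_q3 {y m : ℝ} (hy : 0 ≤ y) (hy1 : y ≤ 1 / 10000) (hm : 0 ≤ m)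
    (h : m ≤ 1 + 51 / 100 * y) : m ^ 3 ≤ 1 + 155 / 100 * y := by
  have h1 : m ^ 3 ≤ (1 + 51 / 100 * y) ^ 3 := pow_le_pow_left₀ hm h 3
  have h2 : y * y ≤ y * (1 / 10000) := mul_le_mul_of_nonneg_left hy1 hy
  have h3 : y * (y * y) ≤ y * (y * (1 / 10000)) := mul_le_mul_of_nonneg_left h2 hy
  have h4 : (1 + 51 / 100 * y) ^ 3 = 1 + 153 / 100 * y + 3 * (51 / 100) ^ 2 * (y * y) +
    (51 / 100) ^ 3 * (y * (y * y)) := by ring
  nlinarith

end LinkLaw

open LinkLaw in
theorem law_eventually (μ : Measure ℝ) [IsProbabilityMeasure μ]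
    (h : ∃ b : ℝ, 0 < b ∧ ∀ t : ℝ, |t| ≤ b → Integrable (fun x : ℝ => Real.exp (t * x)) μ)
    (h1 : ∫ x, x ∂μ = 0) (h2 : ∫ x, x ^ 2 ∂μ = 1) (β : ℕ → ℝ) (hβ : ∀ N, 0 < β N)
    (hβ0 : Tendsto β atTop (𝓝 0)) :
    ∃ C4 : ℝ, ∀ᶠ N : ℕ in atTop,
      Law (zlaw μ (β N))
        (Real.exp (Real.log (∫ y, Real.exp (2 * β N * y) ∂μ)
          - 2 * Real.log (∫ y, Real.exp (β N * y) ∂μ)) - 1) C4 := by
  obtain ⟨b, hb, hI⟩ := h
  obtain ⟨K, hK, hexp⟩ := mgf_expand hb hI h1 h2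
  obtain ⟨K4, hK4, hfour⟩ := fourth_le hb hI
  refine ⟨4 * K4, ?_⟩
  have hd : (0 : ℝ) < min (b / 32) (min (1 / 100) (1 / (409600 * (K + 1)))) := by positivity
  have hev : ∀ᶠ N : ℕ in atTop, β N < min (b / 32) (min (1 / 100) (1 / (409600 * (K + 1)))) :=
    hβ0.eventually_lt_const hd
  filter_upwards [hev] with N hN
  have hβN := hβ N
  generalize β N = t at hN hβN
  rw [lt_min_iff, lt_min_iff] at hN
  obtain ⟨n1, n2, n3⟩ := hN
  have hKt : 409600 * (K + 1) * t ≤ 1 := by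
    rw [lt_div_iff₀ (by positivity)] at n3
    linarith
  -- the values of the moment generating function
  set M : ℝ → ℝ := fun t => ∫ x, Real.exp (t * x) ∂μ with hM
  have bd : ∀ k : ℝ, |k| ≤ 16 → |M (k * t) - 1 - k ^ 2 * t ^ 2 / 2| ≤ t ^ 2 / 100 := by
    intro k hk
    have e1 : |k * t| = |k| * t := by rw [abs_mul, abs_of_pos hβN]
    have e2 : |k| * t ≤ 16 * t := mul_le_mul_of_nonneg_right hk hβN.le
    have e3 := hexp (k * t) (by rw [e1]; linarith)
    rw [mul_pow] at e3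
    refine e3.trans ?_
    have e4 : |k * t| ^ 3 ≤ (16 * t) ^ 3 := pow_le_pow_left₀ (abs_nonneg _) (by rw [e1]; exact e2) 3
    have e5 : K * |k * t| ^ 3 ≤ K * (16 * t) ^ 3 := mul_le_mul_of_nonneg_left e4 hK
    have e6 : K * (16 * t) ^ 3 = (409600 * K * t) * (t ^ 2 / 100) := by ring
    have e7 : 409600 * K * t ≤ 1 := by nlinarith
    have e8 : (409600 * K * t) * (t ^ 2 / 100) ≤ 1 * (t ^ 2 / 100) :=
      mul_le_mul_of_nonneg_right e7 (by positivity)
    linarith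
  have y0 : 0 < t ^ 2 := by positivity
  have y1 : t ^ 2 ≤ 1 / 10000 := by nlinarith
  have b1 := abs_le.1 (bd 1 (by norm_num))
  have b2 := abs_le.1 (bd 2 (by norm_num))
  have b3 := abs_le.1 (bd 3 (by norm_num))
  have b16 := abs_le.1 (bd (-16) (by norm_num))
  rw [one_mul] at b1
  have hMt : M t = ∫ x, Real.exp (t * x) ∂μ := rfl
  have hM2t : M (2 * t) = ∫ x, Real.exp (2 * t * x) ∂μ := rfl
  have hM3t : M (3 * t) = ∫ x, Real.exp (3 * t * x) ∂μ := rfl
  have hM16t : M (-16 * t) = ∫ x, Real.exp (-16 * t * x) ∂μ := rfl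
  rw [← hMt, ← hM2t]
  set M1 := M t with hM1
  set M2 := M (2 * t) with hM2
  set M3 := M (3 * t) with hM3
  set M16 := M (-16 * t) with hM16
  have p1 : 1 ≤ M1 := by linarith
  have p2 : 1 ≤ M2 := by linarith
  have p3 : 1 ≤ M3 := by linarith
  have p1' : 0 < M1 := by linarith
  have p2' : 0 < M2 := by linarith
  have hs : Real.exp (Real.log M2 - 2 * Real.log M1) - 1 = M2 / M1 ^ 2 - 1 := by
    rw [Real.exp_sub, Real.exp_log p2', show (2 : ℝ) * Real.log M1 = Real.log M1 + Real.log M1 by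
      ring, Real.exp_add, Real.exp_log p1', pow_two]
  rw [hs]
  have u1 : M1 ≤ 1 + 51 / 100 * t ^ 2 := by linarith
  have u1' : 1 + 49 / 100 * t ^ 2 ≤ M1 := by linarith
  have q1 : M1 ^ 2 ≤ 1 + 103 / 100 * t ^ 2 := num_q1 y0.le y1 p1'.le u1
  have u2 : M2 ≤ 1 + 201 / 100 * t ^ 2 := by linarith
  have u2' : 1 + 199 / 100 * t ^ 2 ≤ M2 := by linarith
  have u3 : M3 ≤ 1 + 451 / 100 * t ^ 2 := by linarith
  have q3 : M1 ^ 3 ≤ 1 + 155 / 100 * t ^ 2 := num_q3 y0.le y1 p1'.le u1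
  have hsq : (0 : ℝ) < M1 ^ 2 := by positivity
  have slow : t ^ 2 / 2 ≤ M2 / M1 ^ 2 - 1 := by
    rw [le_sub_iff_add_le, le_div_iff₀ hsq]
    have r1 : (t ^ 2 / 2 + 1) * M1 ^ 2 ≤ (t ^ 2 / 2 + 1) * (1 + 103 / 100 * t ^ 2) :=
      mul_le_mul_of_nonneg_left q1 (by positivity)
    have r2 : t ^ 2 * t ^ 2 ≤ t ^ 2 * (1 / 10000) := mul_le_mul_of_nonneg_left y1 y0.le
    have r3 : (t ^ 2 / 2 + 1) * (1 + 103 / 100 * t ^ 2) =
      1 + 153 / 100 * t ^ 2 + 103 / 200 * (t ^ 2 * t ^ 2) := by ring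
    linarith
  have sup1 : M2 / M1 ^ 2 - 1 ≤ 1 := by
    rw [sub_le_iff_le_add, div_le_iff₀ hsq]
    have r1 : 1 ≤ M1 ^ 2 := one_le_pow₀ p1
    linarith
  set s := M2 / M1 ^ 2 - 1 with hsdef
  have int1 : Integrable (fun x : ℝ => Real.exp (t * x)) μ :=
    hI t (by rw [abs_of_pos hβN]; linarith)
  have int2 : Integrable (fun x : ℝ => Real.exp (2 * t * x)) μ :=
    hI (2 * t) (by rw [abs_of_pos (by positivity)]; linarith)
  have int3 : Integrable (fun x : ℝ => Real.exp (3 * t * x)) μ :=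
    hI (3 * t) (by rw [abs_of_pos (by positivity)]; linarith)
  have int16 : Integrable (fun x : ℝ => Real.exp (-16 * t * x)) μ :=
    hI (-16 * t) (by
      rw [show (-16 : ℝ) * t = -(16 * t) by ring, abs_neg, abs_of_pos (by positivity)]
      linarith)
  have hmeas : Measurable (fun x : ℝ => Real.toNNReal (Real.exp (t * x - Real.log M1))) := by
    fun_prop
  have hz : zlaw μ t = Measure.map (fun x : ℝ => Real.toNNReal (Real.exp (t * x - Real.log M1))) μ :=
    rfl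
  have hlog0 : 0 ≤ Real.log M1 := Real.log_nonneg p1
  have hlog1 : Real.log M1 ≤ t := by
    have := Real.log_le_sub_one_of_pos p1'
    nlinarith
  have hcoe : ∀ x : ℝ, ((Real.toNNReal (Real.exp (t * x - Real.log M1)) : ℝ≥0) : ℝ≥0∞) =
      ENNReal.ofReal (Real.exp (t * x - Real.log M1)) := fun x => rfl
  have hpow : ∀ (k : ℕ) (x : ℝ), (ENNReal.ofReal (Real.exp (t * x - Real.log M1))) ^ k =
      ENNReal.ofReal ((M1 ^ k)⁻¹ * Real.exp (k * t * x)) := by
    intro k x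
    rw [← ENNReal.ofReal_pow (Real.exp_pos _).le, ← Real.exp_nat_mul]
    congr 1
    rw [mul_sub, Real.exp_sub, ← mul_assoc, Real.exp_nat_mul, Real.exp_log p1',
      div_eq_inv_mul]
  constructor
  · rw [hz]
    exact Measure.isProbabilityMeasure_map hmeas.aemeasurable
  · linarith
  · exact sup1
  · rw [hz, lintegral_map (by fun_prop) hmeas]
    have := lint_exp (μ := μ) (t := t) (c := M1⁻¹) int1 (by positivity)
      (f := fun x => ((Real.toNNReal (Real.exp (t * x - Real.log M1)) : ℝ≥0) : ℝ≥0∞)) (by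
        intro x
        have := hpow 1 x
        simp only [pow_one, Nat.cast_one, one_mul] at this
        rw [← this, hcoe])
    rw [this, ← hMt, inv_mul_cancel₀ p1'.ne', ENNReal.ofReal_one]
  · rw [hz, lintegral_map (by fun_prop) hmeas]
    have := lint_exp (μ := μ) (t := 2 * t) (c := (M1 ^ 2)⁻¹) int2 (by positivity)
      (f := fun x => ((Real.toNNReal (Real.exp (t * x - Real.log M1)) : ℝ≥0) : ℝ≥0∞) ^ 2) (by
        intro x
        have := hpow 2 x
        push_cast at this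
        rw [← this, hcoe])
    rw [this, ← hM2t, hsdef]
    congr 1
    rw [div_eq_inv_mul]
    ring
  · rw [hz, lintegral_map (by fun_prop) hmeas]
    have := lint_exp (μ := μ) (t := 3 * t) (c := (M1 ^ 3)⁻¹) int3 (by positivity)
      (f := fun x => ((Real.toNNReal (Real.exp (t * x - Real.log M1)) : ℝ≥0) : ℝ≥0∞) ^ 3) (by
        intro x
        have := hpow 3 x
        push_cast at this
        rw [← this, hcoe])
    rw [this, ← hM3t]
    apply ENNReal.ofReal_le_ofReal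
    rw [inv_mul_le_iff₀ (by positivity)]
    have g1 : 1 + 5 / 2 * t ^ 2 ≤ 1 + 5 * s := by linarith
    have g2 : M3 ≤ M1 ^ 3 * (1 + 5 * s) := by
      have g3 : M1 ^ 3 * (1 + 5 * s) = 5 * M1 * M2 - 4 * M1 ^ 3 := by
        rw [hsdef]
        field_simp
        ring
      rw [g3]
      have g4 : (1 + 49 / 100 * t ^ 2) * (1 + 199 / 100 * t ^ 2) ≤ M1 * M2 :=
        mul_le_mul u1' u2' (by positivity) p1'.le
      have g5 : 0 ≤ t ^ 2 * t ^ 2 := by positivity
      have g6 : (1 + 49 / 100 * t ^ 2) * (1 + 199 / 100 * t ^ 2) =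
        1 + 248 / 100 * t ^ 2 + 9751 / 10000 * (t ^ 2 * t ^ 2) := by ring
      linarith
    exact g2
  · rw [hz, lintegral_map (by fun_prop) hmeas]
    have e : ∀ x : ℝ, ((Real.toNNReal (Real.exp (t * x - Real.log M1)) : ℝ≥0) : ℝ) =
        Real.exp (t * x - Real.log M1) := fun x => Real.coe_toNNReal _ (Real.exp_pos _).le
    simp_rw [e]
    refine (hfour t (Real.log M1) hβN (by linarith) (by rw [abs_of_nonneg hlog0]; exact hlog1)).trans ?_
    apply ENNReal.ofReal_le_ofReal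
    have r0 : t ^ 2 * t ^ 2 ≤ (2 * s) * (2 * s) :=
      mul_le_mul (by linarith) (by linarith) y0.le (by linarith)
    have r1 : t ^ 4 ≤ 4 * s ^ 2 := by
      calc t ^ 4 = t ^ 2 * t ^ 2 := by ring
        _ ≤ _ := r0
        _ = _ := by ring
    calc K4 * t ^ 4 ≤ K4 * (4 * s ^ 2) := mul_le_mul_of_nonneg_left r1 hK4
      _ = _ := by ring
  · rw [hz, lintegral_map (by fun_prop) hmeas]
    have := lint_exp (μ := μ) (t := -16 * t) (c := M1 ^ 16) int16 (by positivity)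
      (f := fun x => ((((Real.toNNReal (Real.exp (t * x - Real.log M1)) : ℝ≥0) : ℝ≥0∞))⁻¹) ^ 16) (by
        intro x
        rw [hcoe, ← ENNReal.ofReal_inv_of_pos (Real.exp_pos _), ← Real.exp_neg,
          ← ENNReal.ofReal_pow (Real.exp_pos _).le, ← Real.exp_nat_mul]
        congr 1
        have : ((16 : ℕ) : ℝ) * -(t * x - Real.log M1) = ((16 : ℕ) : ℝ) * Real.log M1 + -16 * t * x := by
          push_cast
          ring
        rw [this, Real.exp_add, Real.exp_nat_mul, Real.exp_log p1'])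
    rw [this, ← hM16t]
    have g1 : M16 ≤ 1 + 129 * t ^ 2 := by linarith
    have g2 : M1 ≤ 1 + 1 / 10000 := by linarith
    have g3 : M1 ^ 16 ≤ (1 + 1 / 10000) ^ 16 := pow_le_pow_left₀ p1'.le g2 16
    have g4 : M1 ^ 16 * M16 ≤ (1 + 1 / 10000) ^ 16 * (1 + 129 * t ^ 2) :=
      mul_le_mul g3 g1 (by linarith) (by positivity)
    have g5 : (1 + 1 / 10000 : ℝ) ^ 16 * (1 + 129 * t ^ 2) ≤ 2 := by
      have r1 : (1 + 1 / 10000 : ℝ) ^ 16 ≤ 11 / 10 := by norm_num
      have r2 : 1 + 129 * t ^ 2 ≤ 1 + 129 / 10000 := by linarith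
      calc (1 + 1 / 10000 : ℝ) ^ 16 * (1 + 129 * t ^ 2) ≤ 11 / 10 * (1 + 129 / 10000) :=
            mul_le_mul r1 r2 (by positivity) (by norm_num)
        _ ≤ 2 := by norm_num
    calc ENNReal.ofReal (M1 ^ 16 * M16) ≤ ENNReal.ofReal 2 :=
          ENNReal.ofReal_le_ofReal (g4.trans g5)
      _ = 2 := by norm_num

end Pool.A2F
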