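import Pool.Agent.A2F.Kern

/-!
# Module Op: basic properties of T and of the stopped expectation St
-/

set_option autoImplicit false

open MeasureTheory Finset
open scoped ENNReal NNReal

noncomputable section

namespace Pool.A2F

variable {G : Type} [Fintype G] [DecidableEq G] [AddCommGroup G]
variable {p : G → ℝ≥0} {m : Measure ℝ≥0}

/-! ### measurability -/

theorem measurable_mass : Measurable (mass : (G → ℝ≥0) → ℝ≥0) := by
  unfold mass
  fun_prop

theorem measurable_sq : Measurable (sq : (G → ℝ≥0) → ℝ) := by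
  unfold Pool.A2F.sq
  fun_prop

theorem measurable_conv : Measurable (conv p : (G → ℝ≥0) → (G → ℝ≥0)) := by
  unfold conv
  fun_prop

theorem measurable_aa (k : ℕ) : Measurable (fun W : G → ℝ≥0 => aa p W k) := by
  unfold aa
  exact measurable_sq.comp (measurable_conv.iterate k)

theorem measurable_KK (s : ℝ) (n : ℕ) : Measurable (KK p s n : (G → ℝ≥0) → ℝ) := by
  have h : (KK p s n : (G → ℝ≥0) → ℝ)
      = fun W => s * ∑ k ∈ range n, aa p W (k + 1) * UU s (n - 1 - k) := rfl
  rw [h]
  refine Measurable.const_mul ?_ s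
  refine Finset.measurable_fun_sum _ fun k _ => ?_
  exact (measurable_aa (k + 1)).mul_const _

theorem measurable_Rz (t : ℕ) : Measurable (Rz p t : (G → ℝ≥0) → ℝ) := by
  have h : (Rz p t : (G → ℝ≥0) → ℝ)
      = fun W => ∑ k ∈ range t, Real.sqrt ((t : ℝ) / ((k : ℝ) + 1)) * aa p W (k + 1) := rfl
  rw [h]
  refine Finset.measurable_fun_sum _ fun k _ => ?_
  exact (measurable_aa (k + 1)).const_mul _

theorem measurable_nm (a : ℝ) : Measurable (nm a : (G → ℝ≥0) → ℝ≥0∞) := by
  unfold nm
  exact (measurable_coe_nnreal_ennreal.comp measurable_mass).pow_const _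

theorem measurable_pm (a : ℝ) : Measurable (pm a : (G → ℝ≥0) → ℝ≥0∞) := by
  unfold pm
  exact (measurable_coe_nnreal_ennreal.comp measurable_mass).pow_const _

theorem measurable_upd : Measurable (fun z : (G → ℝ≥0) × (G → ℝ≥0) => upd p z.1 z.2) := by
  unfold upd
  refine measurable_pi_lambda _ fun x => ?_
  refine Measurable.mul ?_ ?_
  · exact (measurable_pi_apply x).comp (measurable_conv.comp measurable_fst)
  · exact (measurable_pi_apply x).comp measurable_snd

theorem op_measurable_upd (W : G → ℝ≥0) : Measurable (fun ξ : G → ℝ≥0 => upd p W ξ) :=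
  measurable_upd.comp (measurable_const.prodMk measurable_id)

theorem measurable_TT [IsProbabilityMeasure m] {f : (G → ℝ≥0) → ℝ≥0∞} (hf : Measurable f) :
    Measurable (TT p m f) := by
  unfold TT
  exact Measurable.lintegral_prod_right' (f := fun z : (G → ℝ≥0) × (G → ℝ≥0) => f (upd p z.1 z.2))
    (hf.comp measurable_upd)

theorem measurable_TTn [IsProbabilityMeasure m] {f : (G → ℝ≥0) → ℝ≥0∞} (hf : Measurable f)
    (n : ℕ) : Measurable ((TT p m)^[n] f) := by
  induction n with
  | zero => exact hf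
  | succ n ih =>
    rw [Function.iterate_succ_apply']
    exact measurable_TT ih

theorem op_measurable_ite {x0 : ℝ≥0} {f g : (G → ℝ≥0) → ℝ≥0∞} (hf : Measurable f)
    (hg : Measurable g) : Measurable (fun W : G → ℝ≥0 => if x0 ≤ mass W then f W else g W) :=
  Measurable.ite (measurableSet_le measurable_const measurable_mass) hf hg

theorem measurable_St [IsProbabilityMeasure m] {f g : (G → ℝ≥0) → ℝ≥0∞} (hf : Measurable f)
    (hg : Measurable g) (x0 : ℝ≥0) (n : ℕ) : Measurable (St p m x0 n f g) := by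
  unfold St
  induction n with
  | zero => exact hf
  | succ n ih =>
    rw [Function.iterate_succ_apply']
    exact measurable_TT (op_measurable_ite ih hg)

/-! ### T is a positive linear operator with T 1 = 1 -/

theorem TT_mono {f g : (G → ℝ≥0) → ℝ≥0∞} (h : ∀ W, f W ≤ g W) (W : G → ℝ≥0) :
    TT p m f W ≤ TT p m g W := by
  unfold TT
  exact lintegral_mono fun ξ => h _

theorem TTn_mono {f g : (G → ℝ≥0) → ℝ≥0∞} (h : ∀ W, f W ≤ g W) (n : ℕ) (W : G → ℝ≥0) :
    (TT p m)^[n] f W ≤ (TT p m)^[n] g W := by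
  induction n generalizing W with
  | zero => exact h W
  | succ n ih =>
    rw [Function.iterate_succ_apply', Function.iterate_succ_apply']
    exact TT_mono ih W

theorem TT_add [IsProbabilityMeasure m] {f g : (G → ℝ≥0) → ℝ≥0∞} (hf : Measurable f)
    (W : G → ℝ≥0) : TT p m (fun V => f V + g V) W = TT p m f W + TT p m g W := by
  unfold TT
  exact lintegral_add_left (hf.comp (op_measurable_upd W)) _

theorem TTn_add [IsProbabilityMeasure m] {f g : (G → ℝ≥0) → ℝ≥0∞} (hf : Measurable f)
    (n : ℕ) (W : G → ℝ≥0) :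
    (TT p m)^[n] (fun V => f V + g V) W = (TT p m)^[n] f W + (TT p m)^[n] g W := by
  induction n generalizing W with
  | zero => rfl
  | succ n ih =>
    rw [Function.iterate_succ_apply', Function.iterate_succ_apply', Function.iterate_succ_apply',
      funext ih]
    exact TT_add (measurable_TTn hf n) W

theorem TT_const [IsProbabilityMeasure m] (c : ℝ≥0∞) (W : G → ℝ≥0) :
    TT p m (fun _ => c) W = c := by
  unfold TT
  simp

theorem TTn_const [IsProbabilityMeasure m] (c : ℝ≥0∞) (n : ℕ) (W : G → ℝ≥0) :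
    (TT p m)^[n] (fun _ => c) W = c := by
  induction n generalizing W with
  | zero => rfl
  | succ n ih =>
    rw [Function.iterate_succ_apply', funext ih]
    exact TT_const c W

theorem TT_const_mul [IsProbabilityMeasure m] {f : (G → ℝ≥0) → ℝ≥0∞} (hf : Measurable f)
    (c : ℝ≥0∞) (W : G → ℝ≥0) : TT p m (fun V => c * f V) W = c * TT p m f W := by
  unfold TT
  exact lintegral_const_mul c (hf.comp (op_measurable_upd W))

theorem TTn_const_mul [IsProbabilityMeasure m] {f : (G → ℝ≥0) → ℝ≥0∞} (hf : Measurable f)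
    (c : ℝ≥0∞) (n : ℕ) (W : G → ℝ≥0) :
    (TT p m)^[n] (fun V => c * f V) W = c * (TT p m)^[n] f W := by
  induction n generalizing W with
  | zero => rfl
  | succ n ih =>
    rw [Function.iterate_succ_apply', Function.iterate_succ_apply', funext ih]
    exact TT_const_mul (measurable_TTn hf n) c W

theorem op_upd_smul (c : ℝ≥0) (W ξ : G → ℝ≥0) : upd p (c • W) ξ = c • upd p W ξ := by
  funext x
  simp only [upd, conv_smul, Pi.smul_apply, smul_eq_mul]
  ring

theorem op_TT_smul (f : (G → ℝ≥0) → ℝ≥0∞) (c : ℝ≥0) (W : G → ℝ≥0) :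
    TT p m f (c • W) = TT p m (fun V => f (c • V)) W := by
  unfold TT
  simp only [op_upd_smul]

/-- homogeneity -/
theorem TTn_smul (f : (G → ℝ≥0) → ℝ≥0∞) (c : ℝ≥0) (n : ℕ) (W : G → ℝ≥0) :
    (TT p m)^[n] f (c • W) = (TT p m)^[n] (fun V => f (c • V)) W := by
  induction n generalizing W with
  | zero => rfl
  | succ n ih =>
    rw [Function.iterate_succ_apply', Function.iterate_succ_apply', op_TT_smul, funext ih]

theorem op_mass_smul (c : ℝ≥0) (W : G → ℝ≥0) : mass (c • W) = c * mass W := by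
  simp [mass, Finset.mul_sum]

theorem op_nm_smul (a : ℝ) (c : ℝ≥0) (W : G → ℝ≥0) :
    nm a (c • W) = (c : ℝ≥0∞) ^ (-a) * nm a W := by
  unfold nm
  rw [op_mass_smul, ENNReal.coe_mul, ENNReal.mul_rpow_of_ne_top ENNReal.coe_ne_top ENNReal.coe_ne_top]

theorem op_pm_smul (a : ℝ) (c : ℝ≥0) (W : G → ℝ≥0) :
    pm a (c • W) = (c : ℝ≥0∞) ^ a * pm a W := by
  unfold pm
  rw [op_mass_smul, ENNReal.coe_mul, ENNReal.mul_rpow_of_ne_top ENNReal.coe_ne_top ENNReal.coe_ne_top]

theorem TTn_nm_smul [IsProbabilityMeasure m] (a : ℝ) {c : ℝ≥0} (hc : c ≠ 0) (n : ℕ)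
    (W : G → ℝ≥0) :
    (TT p m)^[n] (nm a) (c • W) = (c : ℝ≥0∞) ^ (-a) * (TT p m)^[n] (nm a) W := by
  rw [TTn_smul]
  simp only [op_nm_smul]
  exact TTn_const_mul (measurable_nm a) _ n W

theorem TTn_pm_smul [IsProbabilityMeasure m] {a : ℝ} (ha : 0 ≤ a) (c : ℝ≥0) (n : ℕ)
    (W : G → ℝ≥0) :
    (TT p m)^[n] (pm a) (c • W) = (c : ℝ≥0∞) ^ a * (TT p m)^[n] (pm a) W := by
  rw [TTn_smul]
  simp only [op_pm_smul]
  exact TTn_const_mul (measurable_pm a) _ n W

/-! ### the stopped expectation -/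

theorem St_zero (x0 : ℝ≥0) (f g : (G → ℝ≥0) → ℝ≥0∞) : St p m x0 0 f g = f := rfl

theorem St_succ (x0 : ℝ≥0) (n : ℕ) (f g : (G → ℝ≥0) → ℝ≥0∞) :
    St p m x0 (n + 1) f g
      = TT p m (fun W => if x0 ≤ mass W then St p m x0 n f g W else g W) := by
  unfold St
  rw [Function.iterate_succ_apply']

/-- monotonicity; f is only evaluated at alive states (if the start is alive), g only at dead
ones. -/
theorem St_mono {x0 : ℝ≥0} {f f' g g' : (G → ℝ≥0) → ℝ≥0∞}
    (hf : ∀ W, x0 ≤ mass W → f W ≤ f' W) (hg : ∀ W, mass W < x0 → g W ≤ g' W)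
    (n : ℕ) (W : G → ℝ≥0) (hW : x0 ≤ mass W) :
    St p m x0 n f g W ≤ St p m x0 n f' g' W := by
  induction n generalizing W with
  | zero => exact hf W hW
  | succ n ih =>
    rw [St_succ, St_succ]
    refine TT_mono (fun V => ?_) W
    by_cases hV : x0 ≤ mass V
    · rw [if_pos hV, if_pos hV]
      exact ih V hV
    · rw [if_neg hV, if_neg hV]
      exact hg V (not_le.1 hV)

theorem St_add [IsProbabilityMeasure m] {f g f' g' : (G → ℝ≥0) → ℝ≥0∞} (hf : Measurable f)
    (hg : Measurable g) (x0 : ℝ≥0) (n : ℕ) (W : G → ℝ≥0) :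
    St p m x0 n (fun V => f V + f' V) (fun V => g V + g' V) W
      = St p m x0 n f g W + St p m x0 n f' g' W := by
  induction n generalizing W with
  | zero => rfl
  | succ n ih =>
    rw [St_succ, St_succ, St_succ, ← TT_add (op_measurable_ite (measurable_St hf hg x0 n) hg)]
    congr 1
    funext V
    by_cases hV : x0 ≤ mass V
    · simp only [if_pos hV]
      exact ih V
    · simp only [if_neg hV]

theorem St_const_mul [IsProbabilityMeasure m] {f g : (G → ℝ≥0) → ℝ≥0∞} (hf : Measurable f)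
    (hg : Measurable g) (c : ℝ≥0∞) (x0 : ℝ≥0) (n : ℕ) (W : G → ℝ≥0) :
    St p m x0 n (fun V => c * f V) (fun V => c * g V) W = c * St p m x0 n f g W := by
  induction n generalizing W with
  | zero => rfl
  | succ n ih =>
    rw [St_succ, St_succ, ← TT_const_mul (op_measurable_ite (measurable_St hf hg x0 n) hg)]
    congr 1
    funext V
    by_cases hV : x0 ≤ mass V
    · simp only [if_pos hV]
      exact ih V
    · simp only [if_neg hV]

theorem St_one [IsProbabilityMeasure m] (x0 : ℝ≥0) (n : ℕ) (W : G → ℝ≥0) :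
    St p m x0 n (fun _ => 1) (fun _ => 1) W = 1 := by
  induction n generalizing W with
  | zero => rfl
  | succ n ih =>
    rw [St_succ]
    simp only [ih, ite_self]
    exact TT_const 1 W

/-- survival and exit probabilities add up to one. -/
theorem St_split_one [IsProbabilityMeasure m] (x0 : ℝ≥0) (n : ℕ) (W : G → ℝ≥0) :
    St p m x0 n (fun _ => 1) (fun _ => 0) W + St p m x0 n (fun _ => 0) (fun _ => 1) W = 1 := by
  rw [← St_add measurable_const measurable_const]
  simp only [add_zero, zero_add]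
  exact St_one x0 n W

theorem St_split [IsProbabilityMeasure m] {f g : (G → ℝ≥0) → ℝ≥0∞} (hf : Measurable f)
    (hg : Measurable g) (x0 : ℝ≥0) (n : ℕ) (W : G → ℝ≥0) :
    St p m x0 n f g W
      = St p m x0 n f (fun _ => 0) W + St p m x0 n (fun _ => 0) g W := by
  rw [← St_add hf measurable_const]
  simp only [add_zero, zero_add]

theorem op_le_TTn {f : (G → ℝ≥0) → ℝ≥0∞} (hf : ∀ W, f W ≤ TT p m f W) (n : ℕ)
    (W : G → ℝ≥0) : f W ≤ (TT p m)^[n] f W := by
  induction n generalizing W with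
  | zero => exact le_refl _
  | succ n ih =>
    rw [Function.iterate_succ_apply']
    exact (hf W).trans (TT_mono ih W)

theorem TTn_mono_n {f : (G → ℝ≥0) → ℝ≥0∞} (hf : ∀ W, f W ≤ TT p m f W) {n k : ℕ} (h : n ≤ k)
    (W : G → ℝ≥0) : (TT p m)^[n] f W ≤ (TT p m)^[k] f W := by
  obtain ⟨j, rfl⟩ := Nat.exists_eq_add_of_le h
  rw [Function.iterate_add_apply]
  exact TTn_mono (op_le_TTn hf j) n W

theorem TTn_anti_n {f : (G → ℝ≥0) → ℝ≥0∞} (hf : ∀ W, TT p m f W ≤ f W) {n k : ℕ} (h : n ≤ k)
    (W : G → ℝ≥0) : (TT p m)^[k] f W ≤ (TT p m)^[n] f W := by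
  have h0 : ∀ (j : ℕ) (W : G → ℝ≥0), (TT p m)^[j] f W ≤ f W := by
    intro j
    induction j with
    | zero => exact fun W => le_refl _
    | succ j ih =>
      intro W
      rw [Function.iterate_succ_apply']
      exact (TT_mono ih W).trans (hf W)
  obtain ⟨j, rfl⟩ := Nat.exists_eq_add_of_le h
  rw [Function.iterate_add_apply]
  exact TTn_mono (h0 j) n W

/-- submartingales: if F <= T F then E F (W at the stopped time) <= E F (W_n). -/
theorem St_le_TTn {F : (G → ℝ≥0) → ℝ≥0∞} (hF : ∀ W, F W ≤ TT p m F W) (x0 : ℝ≥0) (n : ℕ)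
    (W : G → ℝ≥0) : St p m x0 n F F W ≤ (TT p m)^[n] F W := by
  induction n generalizing W with
  | zero => exact le_refl _
  | succ n ih =>
    rw [St_succ, Function.iterate_succ_apply']
    refine TT_mono (fun V => ?_) W
    by_cases hV : x0 ≤ mass V
    · rw [if_pos hV]
      exact ih V
    · rw [if_neg hV]
      exact op_le_TTn hF n V

/-- martingales -/
theorem St_eq_of_harm {F : (G → ℝ≥0) → ℝ≥0∞} (hF : ∀ W, TT p m F W = F W) (x0 : ℝ≥0) (n : ℕ)
    (W : G → ℝ≥0) : St p m x0 n F F W = F W := by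
  induction n generalizing W with
  | zero => rfl
  | succ n ih =>
    rw [St_succ]
    simp only [ih, ite_self]
    exact hF W

/-- exit decomposition with restart at full horizon. -/
theorem TTn_le_St {f : (G → ℝ≥0) → ℝ≥0∞} (hf : ∀ W, f W ≤ TT p m f W) (x0 : ℝ≥0) (n N : ℕ)
    (W : G → ℝ≥0) :
    (TT p m)^[N] f W ≤ St p m x0 n ((TT p m)^[N] f) ((TT p m)^[N] f) W := by
  induction n generalizing W with
  | zero => exact le_refl _
  | succ n ih =>
    rw [St_succ]
    have h1 : (TT p m)^[N] f W ≤ TT p m ((TT p m)^[N] f) W := by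
      have h2 := TTn_mono_n hf (Nat.le_succ N) W
      rwa [Function.iterate_succ_apply'] at h2
    refine h1.trans (TT_mono (fun V => ?_) W)
    by_cases hV : x0 ≤ mass V
    · rw [if_pos hV]
      exact ih V
    · rw [if_neg hV]

/-- exit decomposition, horizon n <= N, no loss at survival. -/
theorem TTn_le_St' {f : (G → ℝ≥0) → ℝ≥0∞} (hf : ∀ W, f W ≤ TT p m f W) (x0 : ℝ≥0) {n N : ℕ}
    (hn : n ≤ N) (W : G → ℝ≥0) :
    (TT p m)^[n] f W ≤ St p m x0 n f ((TT p m)^[N] f) W := by
  induction n generalizing W with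
  | zero => exact le_refl _
  | succ n ih =>
    rw [St_succ, Function.iterate_succ_apply']
    refine TT_mono (fun V => ?_) W
    by_cases hV : x0 ≤ mass V
    · rw [if_pos hV]
      exact ih (Nat.le_of_succ_le hn) V
    · rw [if_neg hV]
      exact TTn_mono_n hf (Nat.le_of_succ_le hn) V

/-- restriction of the stopped expectation by the unstopped one -/
theorem St_zero_right_le (x0 : ℝ≥0) (n : ℕ) (f : (G → ℝ≥0) → ℝ≥0∞) (W : G → ℝ≥0) :
    St p m x0 n f (fun _ => 0) W ≤ (TT p m)^[n] f W := by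
  induction n generalizing W with
  | zero => exact le_refl _
  | succ n ih =>
    rw [St_succ, Function.iterate_succ_apply']
    refine TT_mono (fun V => ?_) W
    by_cases hV : x0 ≤ mass V
    · rw [if_pos hV]
      exact ih V
    · rw [if_neg hV]
      exact zero_le

end Pool.A2F
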