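import Pool.Agent.A2F.LinkWalk
import Pool.Agent.A2F.LinkLaw
import Pool.Agent.A2F.Op

/-!
# Module LinkPath: the partition function of the frozen statement and the operator T
-/

set_option autoImplicit false

open MeasureTheory ProbabilityTheory
open scoped ENNReal NNReal

noncomputable section

namespace Pool.A2F

namespace LP

/-! ### the iterates of T as an integral over all layers -/

section run
variable {G : Type} [Fintype G] [DecidableEq G] [AddCommGroup G]

/-- the state after `N` layers -/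
def run (p : G → ℝ≥0) : (N : ℕ) → (G → ℝ≥0) → (Fin N → G → ℝ≥0) → (G → ℝ≥0)
  | 0, W, _ => W
  | N + 1, W, ξ => run p N (upd p W (ξ 0)) fun i => ξ i.succ

lemma measurable_run (p : G → ℝ≥0) (N : ℕ) :
    Measurable fun z : (G → ℝ≥0) × (Fin N → G → ℝ≥0) => run p N z.1 z.2 := by
  induction N with
  | zero => exact measurable_fst
  | succ N ih =>
    have h1 : Measurable fun z : (G → ℝ≥0) × (Fin (N + 1) → G → ℝ≥0) =>
        (upd p z.1 (z.2 0), fun i : Fin N => z.2 i.succ) := by
      refine Measurable.prodMk ?_ ?_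
      · have h2 : Measurable fun z : (G → ℝ≥0) × (Fin (N + 1) → G → ℝ≥0) => (z.1, z.2 0) :=
          measurable_fst.prodMk ((measurable_pi_apply 0).comp measurable_snd)
        exact measurable_upd.comp h2
      · exact measurable_pi_lambda _ fun i => (measurable_pi_apply i.succ).comp measurable_snd
    exact ih.comp h1

/-- the iterates of `T` -/
theorem TT_iter_eq (p : G → ℝ≥0) (m : Measure ℝ≥0) [IsProbabilityMeasure m] {f : (G → ℝ≥0) → ℝ≥0∞}
    (hf : Measurable f) (N : ℕ) (W : G → ℝ≥0) :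
    (TT p m)^[N] f W = ∫⁻ ξ, f (run p N W ξ) ∂(Measure.pi fun _ : Fin N => Measure.pi fun _ : G => m) := by
  induction N generalizing W with
  | zero =>
    rw [Function.iterate_zero, id]
    simp [run]
  | succ N ih =>
    rw [Function.iterate_succ_apply']
    unfold TT
    have h1 : ∀ ξ : G → ℝ≥0, (TT p m)^[N] f (upd p W ξ) =
        ∫⁻ η, f (run p N (upd p W ξ) η) ∂(Measure.pi fun _ : Fin N => Measure.pi fun _ : G => m) := fun ξ => ih _
    unfold TT at h1
    simp only [h1]
    set ν : Measure (G → ℝ≥0) := Measure.pi fun _ : G => m with hν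
    have hmp := measurePreserving_piFinSuccAbove (fun _ : Fin (N + 1) => ν) 0
    have hF : Measurable fun z : (G → ℝ≥0) × (Fin N → G → ℝ≥0) => f (run p N (upd p W z.1) z.2) := by
      have h2 : Measurable fun z : (G → ℝ≥0) × (Fin N → G → ℝ≥0) => (upd p W z.1, z.2) := by
        refine Measurable.prodMk ?_ measurable_snd
        have h3 : Measurable fun z : (G → ℝ≥0) × (Fin N → G → ℝ≥0) => (W, z.1) :=
          measurable_const.prodMk measurable_fst
        exact measurable_upd.comp h3
      exact hf.comp ((measurable_run p N).comp h2)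
    have h2 := hmp.lintegral_comp hF
    rw [lintegral_prod _ hF.aemeasurable] at h2
    rw [← h2]
    rfl

end run

/-! ### the paths -/

section paths

/-- the steps on the torus -/
def stM (M : ℕ) (i : Fin 4) : ZMod M × ZMod M := (((stp i).1 : ZMod M), ((stp i).2 : ZMod M))

lemma sum_filter_succ {A : Type*} [AddCommMonoid A] {N : ℕ} (n : Fin N) (f : Fin (N + 1) → A) :
    ∑ i ∈ Finset.univ.filter (fun i : Fin (N + 1) => i ≤ n.succ), f i =
      f 0 + ∑ i ∈ Finset.univ.filter (fun i : Fin N => i ≤ n), f i.succ := by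
  rw [Finset.sum_filter, Finset.sum_filter, Fin.sum_univ_succ]
  simp only [Fin.zero_le, if_true, Fin.succ_le_succ_iff]

lemma sum_filter_zero {A : Type*} [AddCommMonoid A] {N : ℕ} (f : Fin (N + 1) → A) :
    ∑ i ∈ Finset.univ.filter (fun i : Fin (N + 1) => i ≤ 0), f i = f 0 := by
  rw [Finset.sum_filter, Fin.sum_univ_succ]
  simp

variable {M : ℕ} [NeZero M]

lemma conv_ptor (W : ZMod M × ZMod M → ℝ≥0) (x : ZMod M × ZMod M) :
    conv (ptor M) W x = ∑ j : Fin 4, W (x - stM M j) / 4 := by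
  unfold conv ptor
  have h1 : ∀ y, W y * ((∑ i : Fin 4, if x - y = (((stp i).1 : ZMod M), ((stp i).2 : ZMod M)) then (1 : ℝ≥0) else 0) / 4) =
      ∑ i : Fin 4, if y = x - stM M i then W y / 4 else 0 := by
    intro y
    rw [← mul_div_assoc, Finset.mul_sum, Finset.sum_div]
    refine Finset.sum_congr rfl fun i _ => ?_
    have h2 : (x - y = (((stp i).1 : ZMod M), ((stp i).2 : ZMod M))) ↔ y = x - stM M i := by
      unfold stM
      constructor
      · intro h; rw [← h]; abel
      · intro h; rw [h]; abel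
    by_cases h3 : y = x - stM M i
    · rw [if_pos h3, if_pos (h2.2 h3), mul_one]
    · rw [if_neg h3, if_neg fun h => h3 (h2.1 h), mul_zero, zero_div]
  rw [Finset.sum_congr rfl fun y _ => h1 y, Finset.sum_comm]
  refine Finset.sum_congr rfl fun j _ => ?_
  rw [Finset.sum_ite_eq' Finset.univ (x - stM M j)]
  simp

/-- the mass after `N` layers as a sum over the paths -/
theorem mass_run (N : ℕ) (W : ZMod M × ZMod M → ℝ≥0) (ξ : Fin N → ZMod M × ZMod M → ℝ≥0) :
    mass (run (ptor M) N W ξ) = ∑ y, W y * ((1 / 4 ^ N) * ∑ s : Fin N → Fin 4,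
      ∏ n : Fin N, ξ n (y + ∑ i ∈ Finset.univ.filter (fun i : Fin N => i ≤ n), stM M (s i))) := by
  induction N generalizing W with
  | zero =>
    unfold run mass
    simp
  | succ N ih =>
    show mass (run (ptor M) N (upd (ptor M) W (ξ 0)) fun i => ξ i.succ) = _
    rw [ih]
    unfold upd
    -- expand the first step
    have h1 : ∀ z, conv (ptor M) W z * ξ 0 z * ((1 / 4 ^ N) * ∑ s : Fin N → Fin 4,
        ∏ n : Fin N, ξ n.succ (z + ∑ i ∈ Finset.univ.filter (fun i : Fin N => i ≤ n), stM M (s i))) =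
        ∑ j : Fin 4, W (z - stM M j) / 4 * ξ 0 z * ((1 / 4 ^ N) * ∑ s : Fin N → Fin 4,
        ∏ n : Fin N, ξ n.succ (z + ∑ i ∈ Finset.univ.filter (fun i : Fin N => i ≤ n), stM M (s i))) := by
      intro z
      rw [conv_ptor, Finset.sum_mul, Finset.sum_mul]
    rw [Finset.sum_congr rfl fun z _ => h1 z, Finset.sum_comm]
    -- shift
    have h2 : ∀ j : Fin 4, ∑ z, W (z - stM M j) / 4 * ξ 0 z * ((1 / 4 ^ N) * ∑ s : Fin N → Fin 4,
        ∏ n : Fin N, ξ n.succ (z + ∑ i ∈ Finset.univ.filter (fun i : Fin N => i ≤ n), stM M (s i))) =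
        ∑ y, W y / 4 * ξ 0 (y + stM M j) * ((1 / 4 ^ N) * ∑ s : Fin N → Fin 4,
        ∏ n : Fin N, ξ n.succ (y + stM M j + ∑ i ∈ Finset.univ.filter (fun i : Fin N => i ≤ n), stM M (s i))) := by
      intro j
      rw [← Equiv.sum_comp (Equiv.addRight (stM M j))]
      refine Finset.sum_congr rfl fun y _ => ?_
      simp only [Equiv.coe_addRight, add_sub_cancel_right]
    rw [Finset.sum_congr rfl fun j _ => h2 j, Finset.sum_comm]
    refine Finset.sum_congr rfl fun y _ => ?_
    -- the sum over the paths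
    have h3 : ∑ s : Fin (N + 1) → Fin 4, ∏ n : Fin (N + 1), ξ n (y + ∑ i ∈ Finset.univ.filter
          (fun i : Fin (N + 1) => i ≤ n), stM M (s i)) =
        ∑ j : Fin 4, ∑ s : Fin N → Fin 4, ξ 0 (y + stM M j) *
          ∏ n : Fin N, ξ n.succ (y + stM M j + ∑ i ∈ Finset.univ.filter (fun i : Fin N => i ≤ n), stM M (s i)) := by
      rw [← (Fin.consEquiv fun _ : Fin (N + 1) => Fin 4).sum_comp, Fintype.sum_prod_type]
      refine Finset.sum_congr rfl fun j _ => Finset.sum_congr rfl fun s _ => ?_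
      rw [Fin.prod_univ_succ, sum_filter_zero]
      congr 1
      refine Finset.prod_congr rfl fun n _ => ?_
      rw [sum_filter_succ]
      simp only [Fin.consEquiv_apply, Fin.cons_zero, Fin.cons_succ, add_assoc]
    rw [h3, Finset.mul_sum, Finset.mul_sum]
    refine Finset.sum_congr rfl fun j _ => ?_
    rw [← Finset.mul_sum, pow_succ]
    field_simp

/-- the place of a point of the torus in the plane -/
def rep (x : ZMod M × ZMod M) : ℤ × ℤ := (x.1.valMinAbs, x.2.valMinAbs)

omit [NeZero M] in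
lemma rep_inj : Function.Injective (rep : ZMod M × ZMod M → ℤ × ℤ) := by
  intro x y h
  unfold rep at h
  rw [Prod.mk.injEq] at h
  exact Prod.ext (ZMod.injective_valMinAbs h.1) (ZMod.injective_valMinAbs h.2)

lemma stp_le (i : Fin 4) : |(stp i).1| ≤ 1 ∧ |(stp i).2| ≤ 1 := by
  fin_cases i <;> simp [stp]

lemma sum_stp_le {N : ℕ} (s : Fin N → Fin 4) (t : Finset (Fin N)) :
    |(∑ i ∈ t, stp (s i)).1| ≤ N ∧ |(∑ i ∈ t, stp (s i)).2| ≤ N := by
  have hc : (t.card : ℤ) ≤ N := by
    have := Finset.card_le_univ t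
    rw [Fintype.card_fin] at this
    exact_mod_cast this
  constructor
  · rw [Prod.fst_sum]
    refine (Finset.abs_sum_le_sum_abs _ _).trans ?_
    refine (Finset.sum_le_card_nsmul _ _ 1 fun i _ => (stp_le (s i)).1).trans ?_
    simpa using hc
  · rw [Prod.snd_sum]
    refine (Finset.abs_sum_le_sum_abs _ _).trans ?_
    refine (Finset.sum_le_card_nsmul _ _ 1 fun i _ => (stp_le (s i)).2).trans ?_
    simpa using hc

lemma rep_sum {N : ℕ} (hM : 4 * N + 4 ≤ M) (s : Fin N → Fin 4) (t : Finset (Fin N)) :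
    rep (∑ i ∈ t, stM M (s i)) = ∑ i ∈ t, stp (s i) := by
  obtain ⟨h1, h2⟩ := sum_stp_le s t
  have h3 : (∑ i ∈ t, stM M (s i)) = (((∑ i ∈ t, stp (s i)).1 : ZMod M), ((∑ i ∈ t, stp (s i)).2 : ZMod M)) := by
    refine Prod.ext ?_ ?_
    · simp only [stM, Prod.fst_sum, Int.cast_sum]
    · simp only [stM, Prod.snd_sum, Int.cast_sum]
  have hM' : 4 * (N : ℤ) + 4 ≤ M := by exact_mod_cast hM
  rw [abs_le] at h1 h2
  unfold rep
  rw [h3]
  refine Prod.ext ?_ ?_
  · refine (ZMod.valMinAbs_spec _ _).2 ⟨rfl, ?_, ?_⟩ <;> omega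
  · refine (ZMod.valMinAbs_spec _ _).2 ⟨rfl, ?_, ?_⟩ <;> omega

end paths

end LP

/-- For every measurable F: E F(Z_N) = T^N (F o mass) (point mass). -/
theorem path_eq (μ : Measure ℝ) [IsProbabilityMeasure μ] (β : ℝ)
    (Ω : Type) [MeasureSpace Ω] [IsProbabilityMeasure (volume : Measure Ω)]
    (ω : ℕ × (ℤ × ℤ) → Ω → ℝ) (hmeas : ∀ p, Measurable (ω p))
    (hind : iIndepFun ω (volume : Measure Ω))
    (hlaw : ∀ p, Measure.map (ω p) (volume : Measure Ω) = μ)
    (N M : ℕ) [NeZero M] (hM : 4 * N + 4 ≤ M) (F : ℝ≥0 → ℝ≥0∞) (hF : Measurable F) :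
    ∫⁻ a, F (Real.toNNReal ((1 / (4 : ℝ) ^ N) *
        ∑ s : Fin N → Fin 4, Real.exp (∑ n : Fin N,
          (β * ω ((n : ℕ) + 1, ∑ i ∈ Finset.univ.filter (fun i : Fin N => i ≤ n),
              (![((1 : ℤ), (0 : ℤ)), (-1, 0), (0, 1), (0, -1)] : Fin 4 → ℤ × ℤ) (s i)) a
            - Real.log (∫ y, Real.exp (β * y) ∂μ))))) ∂(volume : Measure Ω)
      = (TT (ptor M) (zlaw μ β))^[N] (fun W => F (mass W)) dl := by
  classical
  set h : ℝ → ℝ≥0 := fun x => Real.toNNReal (Real.exp (β * x - Real.log (∫ y, Real.exp (β * y) ∂μ))) with hh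
  have hhm : Measurable h := by
    rw [hh]
    fun_prop
  have hz : zlaw μ β = Measure.map h μ := rfl
  have hprob : IsProbabilityMeasure (zlaw μ β) := by
    rw [hz]
    exact Measure.isProbabilityMeasure_map hhm.aemeasurable
  -- the layers
  set e : Fin N × (ZMod M × ZMod M) → ℕ × (ℤ × ℤ) := fun q => ((q.1 : ℕ) + 1, LP.rep q.2) with he
  have hinj : Function.Injective e := by
    intro q q' hq
    rw [he, Prod.mk.injEq] at hq
    exact Prod.ext (Fin.ext (by omega)) (LP.rep_inj hq.2)
  have hi : iIndepFun (fun q a => h (ω (e q) a)) (volume : Measure Ω) :=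
    (hind.precomp hinj).comp (fun _ => h) fun _ => hhm
  have hm : ∀ q, Measurable fun a => h (ω (e q) a) := fun q => hhm.comp (hmeas _)
  have hl : ∀ q, Measure.map (fun a => h (ω (e q) a)) (volume : Measure Ω) = zlaw μ β := by
    intro q
    rw [hz, ← hlaw (e q), Measure.map_map hhm (hmeas _)]
    rfl
  have h1 : Measure.map (fun a q => h (ω (e q) a)) (volume : Measure Ω) =
      Measure.pi fun _ : Fin N × (ZMod M × ZMod M) => zlaw μ β := by
    rw [hi.map_fun_eq_pi_map fun q => (hm q).aemeasurable]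
    simp only [hl]
  have h2 : Measure.map (fun a (n : Fin N) (x : ZMod M × ZMod M) => h (ω ((n : ℕ) + 1, LP.rep x) a))
      (volume : Measure Ω) = Measure.pi fun _ : Fin N => Measure.pi fun _ : ZMod M × ZMod M => zlaw μ β := by
    have h3 := Measure.infinitePi_map_curry (fun (_ : Fin N) (_ : ZMod M × ZMod M) => zlaw μ β)
    simp only [Measure.infinitePi_eq_pi] at h3
    rw [← h1, Measure.map_map (MeasurableEquiv.measurable _) (measurable_pi_lambda _ hm)] at h3
    exact h3
  have hFm : Measurable fun W : ZMod M × ZMod M → ℝ≥0 => F (mass W) := hF.comp measurable_mass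
  rw [LP.TT_iter_eq (ptor M) (zlaw μ β) hFm, ← h2, lintegral_map]
  rotate_left
  · refine hFm.comp ?_
    have h3 : Measurable fun ξ : Fin N → ZMod M × ZMod M → ℝ≥0 => ((dl : ZMod M × ZMod M → ℝ≥0), ξ) :=
      measurable_const.prodMk measurable_id
    exact (LP.measurable_run (ptor M) N).comp h3
  · exact measurable_pi_lambda _ fun n => measurable_pi_lambda _ fun x => hm (n, x)
  refine lintegral_congr fun a => ?_
  congr 1
  rw [LP.mass_run, Finset.sum_eq_single (0 : ZMod M × ZMod M)]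
  rotate_left
  · intro y _ hy
    unfold dl
    rw [Pi.single_eq_of_ne hy, zero_mul]
  · intro h; exact absurd (Finset.mem_univ _) h
  have hdl : (dl : ZMod M × ZMod M → ℝ≥0) 0 = 1 := by
    unfold dl
    rw [Pi.single_eq_same]
  rw [hdl, one_mul]
  apply NNReal.coe_injective
  rw [Real.coe_toNNReal _ (by positivity)]
  push_cast
  congr 1
  refine Finset.sum_congr rfl fun s _ => ?_
  rw [Real.exp_sum]
  refine Finset.prod_congr rfl fun n _ => ?_
  rw [zero_add, LP.rep_sum hM]
  simp only [hh]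
  rw [Real.coe_toNNReal _ (Real.exp_pos _).le]
  rfl

end Pool.A2F
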