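import Pool.Agent.A2F.Seq

/-!
# Module LinkWalk: simple random walk on a large torus
-/

set_option autoImplicit false

open Finset
open scoped ENNReal NNReal

noncomputable section

namespace Pool.A2F

/-- the four unit steps, as in the frozen statement -/
def stp : Fin 4 → ℤ × ℤ := ![((1 : ℤ), (0 : ℤ)), (-1, 0), (0, 1), (0, -1)]

/-- the step distribution on the torus of side M -/
def ptor (M : ℕ) (x : ZMod M × ZMod M) : ℝ≥0 :=
  (∑ i : Fin 4, if x = (((stp i).1 : ZMod M), ((stp i).2 : ZMod M)) then (1 : ℝ≥0) else 0) / 4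

/-! ### paths of the plane as pairs of one-dimensional paths -/

/-- signs -/
def sgn2 (b : Bool) : ℤ := if b then 1 else -1

/-- the two signs of a step -/
def e4 : Fin 4 ≃ Bool × Bool where
  toFun := ![(true, true), (false, false), (true, false), (false, true)]
  invFun p := if p.1 then (if p.2 then 0 else 2) else (if p.2 then 3 else 1)
  left_inv := by decide
  right_inv := by decide

lemma stp_add (i : Fin 4) : (stp i).1 + (stp i).2 = sgn2 (e4 i).1 := by
  revert i
  decide

lemma stp_sub (i : Fin 4) : (stp i).1 - (stp i).2 = sgn2 (e4 i).2 := by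
  revert i
  decide

/-- a path in the plane as a pair of one-dimensional paths -/
def eP (n : ℕ) : (Fin n → Fin 4) ≃ (Fin n → Bool) × (Fin n → Bool) :=
  (Equiv.arrowCongr (Equiv.refl _) e4).trans (Equiv.arrowProdEquivProdArrow _ _ _)

lemma sum_stp_add {n : ℕ} (p : Fin n → Fin 4) :
    (∑ i, stp (p i)).1 + (∑ i, stp (p i)).2 = ∑ i, sgn2 ((eP n p).1 i) := by
  rw [Prod.fst_sum, Prod.snd_sum, ← sum_add_distrib]
  exact sum_congr rfl fun i _ => stp_add (p i)

lemma sum_stp_sub {n : ℕ} (p : Fin n → Fin 4) :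
    (∑ i, stp (p i)).1 - (∑ i, stp (p i)).2 = ∑ i, sgn2 ((eP n p).2 i) := by
  rw [Prod.fst_sum, Prod.snd_sum, ← sum_sub_distrib]
  exact sum_congr rfl fun i _ => stp_sub (p i)

/-- the number of plus signs -/
def trn {n : ℕ} (a : Fin n → Bool) : ℕ := (univ.filter fun i => a i = true).card

lemma sum_sgn2 {n : ℕ} (a : Fin n → Bool) : ∑ i, sgn2 (a i) = 2 * (trn a : ℤ) - n := by
  unfold sgn2 trn
  rw [sum_ite, sum_const, sum_const]
  have h := card_filter_add_card_filter_not (s := (univ : Finset (Fin n))) (fun i => a i = true)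
  rw [card_univ, Fintype.card_fin] at h
  simp only [nsmul_eq_mul, mul_one, mul_neg]
  omega

lemma card_trn (n k : ℕ) : (univ.filter fun a : Fin n → Bool => trn a = k).card = n.choose k := by
  classical
  have h := card_powersetCard k (univ : Finset (Fin n))
  rw [card_univ, Fintype.card_fin] at h
  rw [← h]
  refine card_bij' (fun a _ => univ.filter fun i => a i = true) (fun s _ i => decide (i ∈ s))
    ?_ ?_ ?_ ?_
  · intro a ha
    rw [mem_filter] at ha
    rw [mem_powersetCard]
    exact ⟨subset_univ _, ha.2⟩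
  · intro s hs
    rw [mem_powersetCard] at hs
    rw [mem_filter]
    refine ⟨mem_univ _, ?_⟩
    unfold trn
    simpa using hs.2
  · intro a _
    funext i
    simp
  · intro s _
    ext i
    simp

/-- pairs of one-dimensional paths with the same end point -/
lemma card_trn_eq (n : ℕ) :
    (univ.filter fun p : (Fin n → Bool) × (Fin n → Bool) => trn p.1 = trn p.2).card =
      n.centralBinom := by
  classical
  rw [Nat.centralBinom, ← Nat.sum_range_choose_sq]
  have h : (univ.filter fun p : (Fin n → Bool) × (Fin n → Bool) => trn p.1 = trn p.2) =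
      (range (n + 1)).biUnion fun k => (univ.filter fun a : Fin n → Bool => trn a = k) ×ˢ
        (univ.filter fun a : Fin n → Bool => trn a = k) := by
    ext p
    simp only [mem_filter, mem_univ, true_and, mem_biUnion, mem_range, mem_product]
    constructor
    · intro h
      refine ⟨trn p.2, ?_, h, rfl⟩
      have h1 : trn p.2 ≤ (univ : Finset (Fin n)).card := card_filter_le _ _
      rw [card_univ, Fintype.card_fin] at h1
      omega
    · rintro ⟨k, -, h1, h2⟩
      rw [h1, h2]
  rw [h, card_biUnion]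
  · refine sum_congr rfl fun k _ => ?_
    rw [card_product, card_trn, pow_two]
  · intro k _ l _ hkl
    rw [Function.onFun, disjoint_left]
    rintro p h1 h2
    simp only [mem_product, mem_filter, mem_univ, true_and] at h1 h2
    exact hkl (h1.1.symm.trans h2.1)

/-- **the number of pairs of paths with the same end point** -/
theorem card_meet (n : ℕ) :
    (univ.filter fun p : (Fin n → Fin 4) × (Fin n → Fin 4) =>
      ∑ i, stp (p.1 i) = ∑ i, stp (p.2 i)).card = n.centralBinom ^ 2 := by
  classical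
  rw [pow_two, ← card_trn_eq, ← card_product]
  refine card_bij' (fun p _ => (((eP n p.1).1, (eP n p.2).1), ((eP n p.1).2, (eP n p.2).2)))
    (fun p _ => ((eP n).symm (p.1.1, p.2.1), (eP n).symm (p.1.2, p.2.2))) ?_ ?_ ?_ ?_
  · intro p hp
    rw [mem_filter] at hp
    have h1 := sum_stp_add p.1
    have h2 := sum_stp_add p.2
    have h3 := sum_stp_sub p.1
    have h4 := sum_stp_sub p.2
    rw [hp.2] at h1 h3
    rw [sum_sgn2] at h1 h2 h3 h4
    simp only [mem_product, mem_filter, mem_univ, true_and]
    constructor <;> omega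
  · intro p hp
    simp only [mem_product, mem_filter, mem_univ, true_and] at hp
    rw [mem_filter]
    refine ⟨mem_univ _, ?_⟩
    dsimp only
    have h1 := sum_stp_add ((eP n).symm (p.1.1, p.2.1))
    have h2 := sum_stp_add ((eP n).symm (p.1.2, p.2.2))
    have h3 := sum_stp_sub ((eP n).symm (p.1.1, p.2.1))
    have h4 := sum_stp_sub ((eP n).symm (p.1.2, p.2.2))
    rw [Equiv.apply_symm_apply, sum_sgn2] at h1 h2 h3 h4
    dsimp only at h1 h2 h3 h4
    rw [hp.1] at h1
    rw [hp.2] at h3
    refine Prod.ext ?_ ?_ <;> omega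
  · intro p _
    refine Prod.ext ?_ ?_
    · exact (eP n).symm_apply_apply p.1
    · exact (eP n).symm_apply_apply p.2
  · intro p _
    simp

/-- **the number of closed paths** -/
theorem card_closed (n : ℕ) :
    (univ.filter fun p : Fin (2 * n) → Fin 4 => ∑ i, stp (p i) = 0).card = n.centralBinom ^ 2 := by
  classical
  have hc : n.centralBinom = (univ.filter fun a : Fin (2 * n) → Bool => trn a = n).card := by
    rw [card_trn, Nat.centralBinom]
  rw [pow_two, hc, ← card_product]
  refine card_equiv (eP (2 * n)) fun p => ?_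
  simp only [mem_product, mem_filter, mem_univ, true_and]
  have h1 := sum_stp_add p
  have h2 := sum_stp_sub p
  rw [sum_sgn2] at h1 h2
  push_cast at h1 h2
  rw [Prod.ext_iff]
  show ((∑ i, stp (p i)).1 = 0 ∧ (∑ i, stp (p i)).2 = 0) ↔ _
  constructor
  · rintro ⟨h3, h4⟩
    constructor <;> omega
  · rintro ⟨h3, h4⟩
    constructor <;> omega

lemma sum_stp_le {k : ℕ} (p : Fin k → Fin 4) :
    |(∑ i, stp (p i)).1| ≤ k ∧ |(∑ i, stp (p i)).2| ≤ k := by
  have h1 : ∀ i : Fin 4, |(stp i).1| ≤ 1 ∧ |(stp i).2| ≤ 1 := by decide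
  rw [Prod.fst_sum, Prod.snd_sum]
  constructor
  · refine (abs_sum_le_sum_abs _ _).trans ?_
    refine (sum_le_sum fun i _ => (h1 (p i)).1).trans (le_of_eq ?_)
    simp
  · refine (abs_sum_le_sum_abs _ _).trans ?_
    refine (sum_le_sum fun i _ => (h1 (p i)).2).trans (le_of_eq ?_)
    simp

/-! ### the torus -/

section torus
variable (M : ℕ)

/-- the projection -/
def prj (x : ℤ × ℤ) : ZMod M × ZMod M := ((x.1 : ZMod M), (x.2 : ZMod M))

lemma prj_add (x y : ℤ × ℤ) : prj M (x + y) = prj M x + prj M y := by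
  unfold prj
  refine Prod.ext ?_ ?_ <;> simp

lemma prj_zero : prj M 0 = 0 := by
  unfold prj
  refine Prod.ext ?_ ?_ <;> simp

lemma ptor_eq (x : ZMod M × ZMod M) :
    ptor M x = (∑ i : Fin 4, if x = prj M (stp i) then (1 : ℝ≥0) else 0) / 4 := rfl

variable {M}

lemma prj_neg (x : ℤ × ℤ) : prj M (-x) = -prj M x := by
  unfold prj
  refine Prod.ext ?_ ?_ <;> simp

lemma sum_prj {k : ℕ} (q : Fin k → Fin 4) : ∑ i, prj M (stp (q i)) = prj M (∑ i, stp (q i)) := by
  induction k with
  | zero => simp [prj_zero]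
  | succ k ih => rw [Fin.sum_univ_succ, Fin.sum_univ_succ, prj_add, ih fun i => q i.succ]

lemma cast_eq_zero_of_abs {z : ℤ} (h : |z| < M) : (z : ZMod M) = 0 ↔ z = 0 := by
  constructor
  · intro h1
    rw [ZMod.intCast_zmod_eq_zero_iff_dvd] at h1
    exact Int.eq_zero_of_abs_lt_dvd h1 h
  · intro h1
    rw [h1, Int.cast_zero]

variable [NeZero M]

lemma ptor_sum : ∑ x, ptor M x = 1 := by
  simp only [ptor_eq]
  rw [← sum_div, sum_comm]
  simp only [sum_ite_eq', mem_univ, if_true, sum_const, card_univ, Fintype.card_fin]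
  simp

/-- the opposite step -/
def opp4 : Equiv.Perm (Fin 4) where
  toFun := ![1, 0, 3, 2]
  invFun := ![1, 0, 3, 2]
  left_inv := by decide
  right_inv := by decide

lemma stp_opp4 (i : Fin 4) : stp (opp4 i) = -stp i := by
  revert i
  decide

omit [NeZero M] in
lemma ptor_neg (x : ZMod M × ZMod M) : ptor M (-x) = ptor M x := by
  simp only [ptor_eq]
  congr 1
  rw [← Equiv.sum_comp opp4]
  refine sum_congr rfl fun i _ => ?_
  simp only [stp_opp4, prj_neg, neg_inj]

/-- the kernel of the torus counts paths -/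
lemma pk_ptor (k : ℕ) (x : ZMod M × ZMod M) :
    pk (ptor M) k x = (∑ q : Fin k → Fin 4, if ∑ i, prj M (stp (q i)) = x then (1 : ℝ≥0) else 0) /
      4 ^ k := by
  induction k generalizing x with
  | zero =>
    unfold pk
    rw [Function.iterate_zero, id, Fintype.sum_unique, pow_zero, div_one, Fin.sum_univ_zero,
      Pi.single_apply]
    simp only [eq_comm]
  | succ k ih =>
    have h1 : pk (ptor M) (k + 1) x = ∑ y, pk (ptor M) k y * ptor M (x - y) := by
      unfold pk
      rw [Function.iterate_succ_apply']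
      rfl
    rw [h1]
    have h2 : ∀ y, pk (ptor M) k y * ptor M (x - y) =
        ∑ i : Fin 4, ((if x - y = prj M (stp i) then pk (ptor M) k y else 0) / 4) := by
      intro y
      rw [ptor_eq, mul_div_assoc', mul_sum, sum_div]
      refine sum_congr rfl fun i _ => ?_
      rw [mul_ite, mul_one, mul_zero]
    simp only [h2]
    rw [sum_comm]
    have h3 : ∀ i : Fin 4, ∑ y, ((if x - y = prj M (stp i) then pk (ptor M) k y else 0) / 4) =
        pk (ptor M) k (x - prj M (stp i)) / 4 := by
      intro i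
      rw [← sum_div]
      congr 1
      have h4 : ∀ y, (if x - y = prj M (stp i) then pk (ptor M) k y else 0) =
          if y = x - prj M (stp i) then pk (ptor M) k y else 0 := by
        intro y
        have h5 : x - y = prj M (stp i) ↔ y = x - prj M (stp i) := by
          constructor
          · intro h
            rw [← h, sub_sub_cancel]
          · intro h
            rw [h, sub_sub_cancel]
        simp only [h5]
      simp only [h4]
      rw [sum_ite_eq' univ, if_pos (mem_univ _)]
    rw [sum_congr rfl fun i _ => h3 i]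
    simp only [ih]
    rw [← sum_div, ← sum_div, div_div, ← pow_succ]
    congr 1
    rw [← Equiv.sum_comp (Fin.consEquiv fun _ : Fin (k + 1) => Fin 4), Fintype.sum_prod_type]
    refine sum_congr rfl fun i _ => sum_congr rfl fun q _ => ?_
    have h6 : ∑ j, prj M (stp ((Fin.consEquiv fun _ : Fin (k + 1) => Fin 4) (i, q) j)) =
        prj M (stp i) + ∑ j, prj M (stp (q j)) := by
      rw [Fin.sum_univ_succ]
      rfl
    rw [h6]
    congr 1
    rw [eq_iff_iff]
    constructor
    · intro h
      rw [h, add_sub_cancel]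
    · intro h
      rw [← h, add_sub_cancel_left]

theorem ptor_ret {n : ℕ} (h : 2 * n < M) : ((pk (ptor M) (2 * n) 0 : ℝ≥0) : ℝ) = uu n := by
  rw [pk_ptor]
  have h1 : ∀ q : Fin (2 * n) → Fin 4, (∑ i, prj M (stp (q i)) = 0) ↔ ∑ i, stp (q i) = 0 := by
    intro q
    rw [sum_prj]
    obtain ⟨h2, h3⟩ := sum_stp_le q
    have e1 := cast_eq_zero_of_abs (M := M) (z := (∑ i, stp (q i)).1)
      (lt_of_le_of_lt h2 (by exact_mod_cast h))
    have e2 := cast_eq_zero_of_abs (M := M) (z := (∑ i, stp (q i)).2)
      (lt_of_le_of_lt h3 (by exact_mod_cast h))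
    rw [Prod.ext_iff, Prod.ext_iff]
    exact and_congr e1 e2
  simp only [h1]
  rw [← sum_filter, sum_const, card_closed, uu, div_pow]
  push_cast
  simp only [nsmul_eq_mul, mul_one]
  push_cast
  congr 1
  rw [← pow_mul, mul_comm]

end torus

theorem walk_torus (N M : ℕ) [NeZero M] (hM : 32 * N + 8 ≤ M) : Walk (ptor M) (4 * N) where
  one := ptor_sum
  symm := ptor_neg
  ret := fun n hn => ptor_ret (by omega)

/-- The number R N of the frozen statement is RR N. -/
theorem RR_eq (N : ℕ) : RR N = ∑ n ∈ Finset.Icc 1 N,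
    ((Finset.univ.filter (fun p : (Fin n → Fin 4) × (Fin n → Fin 4) =>
        ∑ i, (![((1 : ℤ), (0 : ℤ)), (-1, 0), (0, 1), (0, -1)] : Fin 4 → ℤ × ℤ) (p.1 i)
          = ∑ i, (![((1 : ℤ), (0 : ℤ)), (-1, 0), (0, 1), (0, -1)] : Fin 4 → ℤ × ℤ) (p.2 i))).card
        : ℝ) / (16 : ℝ) ^ n := by
  have h1 : ∀ n : ℕ, uu n =
      ((Finset.univ.filter (fun p : (Fin n → Fin 4) × (Fin n → Fin 4) =>
        ∑ i, (![((1 : ℤ), (0 : ℤ)), (-1, 0), (0, 1), (0, -1)] : Fin 4 → ℤ × ℤ) (p.1 i)
          = ∑ i, (![((1 : ℤ), (0 : ℤ)), (-1, 0), (0, 1), (0, -1)] : Fin 4 → ℤ × ℤ) (p.2 i))).card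
        : ℝ) / (16 : ℝ) ^ n := by
    intro n
    have h2 := card_meet n
    unfold stp at h2
    rw [h2, uu, div_pow]
    push_cast
    congr 1
    rw [← pow_mul, mul_comm, pow_mul]
    norm_num
  simp only [← h1]
  induction N with
  | zero => simp [RR]
  | succ N ih => rw [RR_succ, ih, Finset.sum_Icc_succ_top (by omega)]

end Pool.A2F
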