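import Pool.Agent.A2F.Upl
import Pool.Agent.A2F.Fin
import Pool.Agent.A2F.LinkPath

/-!
# Module Main: assembly
-/

set_option autoImplicit false

open MeasureTheory ProbabilityTheory Filter Topology
open scoped ENNReal NNReal

noncomputable section

namespace Pool.A2F

/-- the partition function is positive -/
theorem Z_pos (β lam : ℝ) (Ω : Type) (ω : ℕ × (ℤ × ℤ) → Ω → ℝ) (N : ℕ) (a : Ω) :
    0 < (1 / (4 : ℝ) ^ N) *
        ∑ s : Fin N → Fin 4, Real.exp (∑ n : Fin N,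
          (β * ω ((n : ℕ) + 1, ∑ i ∈ Finset.univ.filter (fun i : Fin N => i ≤ n),
              (![((1 : ℤ), (0 : ℤ)), (-1, 0), (0, 1), (0, -1)] : Fin 4 → ℤ × ℤ) (s i)) a
            - lam)) := by
  have : 0 < ∑ s : Fin N → Fin 4, Real.exp (∑ n : Fin N,
          (β * ω ((n : ℕ) + 1, ∑ i ∈ Finset.univ.filter (fun i : Fin N => i ≤ n),
              (![((1 : ℤ), (0 : ℤ)), (-1, 0), (0, 1), (0, -1)] : Fin 4 → ℤ × ℤ) (s i)) a
            - lam)) := by
    refine Finset.sum_pos (fun s _ => Real.exp_pos _) Finset.univ_nonempty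
  positivity

theorem coe_toNNReal_rpow {z : ℝ} (hz : 0 < z) (a : ℝ) :
    ((Real.toNNReal z : ℝ≥0) : ℝ≥0∞) ^ a = ENNReal.ofReal (Real.exp (a * Real.log z)) := by
  have h1 : ((Real.toNNReal z : ℝ≥0) : ℝ≥0∞) = ENNReal.ofReal z := rfl
  rw [h1, ENNReal.ofReal_rpow_of_pos hz, Real.rpow_def_of_pos hz, mul_comm]

theorem main_thm (μ : Measure ℝ) [IsProbabilityMeasure μ]
    (hexp : ∃ b : ℝ, 0 < b ∧ ∀ t : ℝ, |t| ≤ b → Integrable (fun x : ℝ => Real.exp (t * x)) μ)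
    (h1 : ∫ x, x ∂μ = 0) (h2 : ∫ x, x ^ 2 ∂μ = 1)
    (Λ : ℝ → ℝ) (hΛ : ∀ t : ℝ, Λ t = Real.log (∫ x, Real.exp (t * x) ∂μ))
    (R : ℕ → ℝ) (hR : ∀ N : ℕ, R N = ∑ n ∈ Finset.Icc 1 N,
        ((Finset.univ.filter (fun p : (Fin n → Fin 4) × (Fin n → Fin 4) =>
            ∑ i, (![((1 : ℤ), (0 : ℤ)), (-1, 0), (0, 1), (0, -1)] : Fin 4 → ℤ × ℤ) (p.1 i)
              = ∑ i, (![((1 : ℤ), (0 : ℤ)), (-1, 0), (0, 1), (0, -1)] : Fin 4 → ℤ × ℤ) (p.2 i))).card : ℝ)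
          / (16 : ℝ) ^ n)
    (θ : ℝ) (β : ℕ → ℝ) (hβ : ∀ N : ℕ, 0 < β N) (hβ0 : Tendsto β atTop (𝓝 0))
    (hwin : Tendsto (fun N : ℕ =>
      ((Real.exp (Λ (2 * β N) - 2 * Λ (β N)) - 1) * R N - 1) * Real.log (N : ℝ)) atTop (𝓝 θ))
    (Ω : Type) [MeasureSpace Ω] [IsProbabilityMeasure (volume : Measure Ω)]
    (ω : ℕ × (ℤ × ℤ) → Ω → ℝ) (hmeas : ∀ p, Measurable (ω p))
    (hind : iIndepFun ω (volume : Measure Ω))
    (hlaw : ∀ p, Measure.map (ω p) (volume : Measure Ω) = μ)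
    (L : ℕ → Ω → ℝ) (hL : ∀ (N : ℕ) (a : Ω), L N a = Real.log ((1 / (4 : ℝ) ^ N) *
        ∑ s : Fin N → Fin 4, Real.exp (∑ n : Fin N,
          (β N * ω ((n : ℕ) + 1, ∑ i ∈ Finset.univ.filter (fun i : Fin N => i ≤ n),
              (![((1 : ℤ), (0 : ℤ)), (-1, 0), (0, 1), (0, -1)] : Fin 4 → ℤ × ℤ) (s i)) a
            - Λ (β N))))) :
    Tendsto (fun N : ℕ => (∫ a, L N a ∂(volume : Measure Ω)) / Real.log (Real.log (N : ℝ)))
        atTop (𝓝 (-1 / 2)) ∧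
      ∃ c C : ℝ, 0 < c ∧ 0 < C ∧ ∀ᶠ N : ℕ in atTop,
        c * Real.log (Real.log (N : ℝ)) ≤ variance (L N) (volume : Measure Ω) ∧
        variance (L N) (volume : Measure Ω) ≤ C * Real.log (Real.log (N : ℝ)) := by
  -- measurability of L
  have hLm : ∀ N, Measurable (L N) := by
    intro N
    have : L N = fun a => Real.log ((1 / (4 : ℝ) ^ N) *
        ∑ s : Fin N → Fin 4, Real.exp (∑ n : Fin N,
          (β N * ω ((n : ℕ) + 1, ∑ i ∈ Finset.univ.filter (fun i : Fin N => i ≤ n),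
              (![((1 : ℤ), (0 : ℤ)), (-1, 0), (0, 1), (0, -1)] : Fin 4 → ℤ × ℤ) (s i)) a
            - Λ (β N)))) := by
      funext a; exact hL N a
    rw [this]
    refine Real.measurable_log.comp ?_
    refine Measurable.const_mul ?_ _
    refine Finset.measurable_sum _ (fun s _ => ?_)
    refine Real.measurable_exp.comp ?_
    refine Finset.measurable_sum _ (fun n _ => ?_)
    exact ((hmeas _).const_mul _).sub_const _
  obtain ⟨C4, hC4⟩ := law_eventually μ hexp h1 h2 β hβ hβ0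
  set Θ : ℝ := |θ| + 1 with hΘdef
  have hΘ : 0 ≤ Θ := by positivity
  set sN : ℕ → ℝ := fun N => Real.exp (Λ (2 * β N) - 2 * Λ (β N)) - 1 with hsN
  have hlawE : ∀ᶠ N : ℕ in atTop, Law (zlaw μ (β N)) (sN N) C4 := by
    filter_upwards [hC4] with N hN
    simpa [hsN, hΛ, mul_assoc] using hN
  have hWin : ∀ᶠ N : ℕ in atTop, Win Θ N (sN N) := by
    have hlt : ∀ᶠ N : ℕ in atTop,
        |((Real.exp (Λ (2 * β N) - 2 * Λ (β N)) - 1) * R N - 1) * Real.log (N : ℝ)| < Θ := by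
      have hab := hwin.abs
      exact hab.eventually (gt_mem_nhds (by rw [hΘdef]; linarith [abs_nonneg θ]))
    filter_upwards [hlt, hlawE] with N hN hl
    refine ⟨hl.s_pos, ?_⟩
    have : RR N = R N := by rw [RR_eq, hR]
    rw [this]
    exact hN.le
  -- transfer of exponential moments
  have key : ∀ (a : ℝ) (N : ℕ), ∀ (M : ℕ) [NeZero M], 4 * N + 4 ≤ M →
      ∫⁻ w, ENNReal.ofReal (Real.exp (a * L N w)) ∂(volume : Measure Ω)
        = (TT (ptor M) (zlaw μ (β N)))^[N] (pm a) dl := by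
    intro a N M _ hM
    have h := path_eq μ (β N) Ω ω hmeas hind hlaw N M hM (fun x => (x : ℝ≥0∞) ^ a)
      (by fun_prop)
    have h' : (fun W : ZMod M × ZMod M → ℝ≥0 => ((mass W : ℝ≥0) : ℝ≥0∞) ^ a) = pm a := rfl
    rw [h'] at h
    rw [← h]
    refine lintegral_congr (fun w => ?_)
    rw [coe_toNNReal_rpow (Z_pos _ _ Ω ω N w), hL N w, hΛ (β N)]
  have nm_eq : ∀ (a : ℝ) (M : ℕ) [NeZero M],
      (nm a : (ZMod M × ZMod M → ℝ≥0) → ℝ≥0∞) = pm (-a) := by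
    intro a M _; rfl
  refine fin_step (volume : Measure Ω) L hLm ?_ ?_ ?_
  · intro b ε hb hε
    obtain ⟨N0, hN0⟩ := umin Θ C4 b ε hΘ hb hε
    filter_upwards [hlawE, hWin, eventually_ge_atTop N0] with N hl hw hN
    haveI : NeZero (32 * N + 8) := ⟨by omega⟩
    have h := hN0 N hN (sN N) hw (ptor (32 * N + 8)) (zlaw μ (β N))
      (walk_torus N (32 * N + 8) le_rfl) hl
    rw [nm_eq, ← key (-(ex b N)) N (32 * N + 8) (by omega)] at h
    simpa [neg_mul] using h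
  · intro b ε hb hε
    obtain ⟨N0, hN0⟩ := upl Θ C4 b ε hΘ hb hε
    filter_upwards [hlawE, hWin, eventually_ge_atTop N0] with N hl hw hN
    haveI : NeZero (32 * N + 8) := ⟨by omega⟩
    have h := hN0 N hN (sN N) hw (ptor (32 * N + 8)) (zlaw μ (β N))
      (walk_torus N (32 * N + 8) le_rfl) hl
    rw [← key (ex b N) N (32 * N + 8) (by omega)] at h
    exact h
  · intro b ε hb hε
    obtain ⟨N0, hN0⟩ := lmi Θ C4 b ε hΘ hb hε
    filter_upwards [hlawE, hWin, eventually_ge_atTop N0] with N hl hw hN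
    haveI : NeZero (32 * N + 8) := ⟨by omega⟩
    have h := hN0 N hN (sN N) hw (ptor (32 * N + 8)) (zlaw μ (β N))
      (walk_torus N (32 * N + 8) le_rfl) hl
    rw [nm_eq, ← key (-(ex b N)) N (32 * N + 8) (by omega)] at h
    simpa [neg_mul] using h

end Pool.A2F
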