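import Pool.Agent.A2F.Ren

/-!
# Module Ren2: Laplace bound for U and the Riesz sum
-/

set_option autoImplicit false

open Finset
open scoped ENNReal NNReal

noncomputable section

namespace Pool.A2F

/-! ## Elementary sums -/

theorem sum_inv_sqrt_le (n : ℕ) :
    ∑ k ∈ range n, 1 / Real.sqrt ((k : ℝ) + 1) ≤ 2 * Real.sqrt n := by
  induction n with
  | zero => simp
  | succ n ih =>
    rw [sum_range_succ]
    push_cast
    have h1 : 0 < Real.sqrt ((n : ℝ) + 1) := Real.sqrt_pos.mpr (by positivity)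
    have h2 : 0 ≤ Real.sqrt (n : ℝ) := Real.sqrt_nonneg _
    have h3 : Real.sqrt ((n : ℝ) + 1) ^ 2 = n + 1 := Real.sq_sqrt (by positivity)
    have h4 : Real.sqrt (n : ℝ) ^ 2 = n := Real.sq_sqrt (by positivity)
    have h5 : 1 / Real.sqrt ((n : ℝ) + 1)
        ≤ 2 * Real.sqrt ((n : ℝ) + 1) - 2 * Real.sqrt (n : ℝ) := by
      rw [div_le_iff₀ h1]
      nlinarith [sq_nonneg (Real.sqrt ((n : ℝ) + 1) - Real.sqrt (n : ℝ))]
    linarith

theorem sum_inv_three_half_le {c : ℕ} (hc : 1 ≤ c) {t : ℕ} (hct : c ≤ t) :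
    ∑ k ∈ Ico c t, 1 / (Real.sqrt ((k : ℝ) + 1) * ((k : ℝ) + 1))
      ≤ 2 / Real.sqrt c - 2 / Real.sqrt t := by
  induction t, hct using Nat.le_induction with
  | base => simp
  | succ n hn ih =>
    rw [sum_Ico_succ_top hn]
    push_cast
    have hn1 : (1 : ℝ) ≤ n := by exact_mod_cast hc.trans hn
    have h1 : 0 < Real.sqrt ((n : ℝ) + 1) := Real.sqrt_pos.mpr (by positivity)
    have h2 : 0 < Real.sqrt (n : ℝ) := Real.sqrt_pos.mpr (by positivity)
    have h3 : Real.sqrt ((n : ℝ) + 1) ^ 2 = n + 1 := Real.sq_sqrt (by positivity)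
    have h4 : Real.sqrt (n : ℝ) ^ 2 = n := Real.sq_sqrt (by positivity)
    have h6 : Real.sqrt (n : ℝ) ≤ Real.sqrt ((n : ℝ) + 1) := Real.sqrt_le_sqrt (by linarith)
    have h5 : 1 / (Real.sqrt ((n : ℝ) + 1) * ((n : ℝ) + 1))
        ≤ 2 / Real.sqrt (n : ℝ) - 2 / Real.sqrt ((n : ℝ) + 1) := by
      set a := Real.sqrt ((n : ℝ) + 1) with ha
      set b := Real.sqrt (n : ℝ) with hb
      have e1 : (n : ℝ) + 1 = a ^ 2 := h3.symm
      have e2 : a ^ 2 - b ^ 2 = 1 := by rw [h3, h4]; ring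
      rw [e1, div_sub_div _ _ h2.ne' h1.ne', div_le_div_iff₀ (by positivity) (by positivity)]
      have e3 : (a - b) * (a + b) = 1 := by nlinarith
      have e4 : 0 ≤ a - b := by linarith
      have e5 : 1 ≤ (a - b) * (2 * a) := by nlinarith
      have e6 : b * a * 1 ≤ a ^ 2 := by nlinarith
      calc 1 * (b * a) ≤ a ^ 2 := by linarith
        _ ≤ a ^ 2 * ((a - b) * (2 * a)) := by nlinarith [sq_nonneg a]
        _ = (2 * a - b * 2) * (a * a ^ 2) := by ring
    linarith

theorem sum_riesz_kernel_le (t r : ℕ) :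
    ∑ k ∈ range t, 1 / (Real.sqrt ((k : ℝ) + 1) * ((k : ℝ) + 1 + r))
      ≤ 4 / Real.sqrt ((r : ℝ) + 1) := by
  have hr0 : (0 : ℝ) ≤ r := Nat.cast_nonneg r
  have hc : 0 < Real.sqrt ((r : ℝ) + 1) := Real.sqrt_pos.mpr (by positivity)
  have hc2 : Real.sqrt ((r : ℝ) + 1) ^ 2 = r + 1 := Real.sq_sqrt (by positivity)
  -- the part up to min t (r+1)
  have key1 : ∀ m : ℕ, m ≤ r + 1 →
      ∑ k ∈ range m, 1 / (Real.sqrt ((k : ℝ) + 1) * ((k : ℝ) + 1 + r))
        ≤ 2 / Real.sqrt ((r : ℝ) + 1) := by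
    intro m hm
    calc ∑ k ∈ range m, 1 / (Real.sqrt ((k : ℝ) + 1) * ((k : ℝ) + 1 + r))
        ≤ ∑ k ∈ range m, (1 / Real.sqrt ((k : ℝ) + 1)) * (1 / ((r : ℝ) + 1)) := by
          apply sum_le_sum
          intro k _
          have h1 : 0 < Real.sqrt ((k : ℝ) + 1) := Real.sqrt_pos.mpr (by positivity)
          have hk0 : (0 : ℝ) ≤ k := Nat.cast_nonneg k
          rw [← one_div_mul_one_div]
          apply mul_le_mul_of_nonneg_left _ (by positivity)
          apply one_div_le_one_div_of_le (by positivity)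
          linarith
      _ = (∑ k ∈ range m, 1 / Real.sqrt ((k : ℝ) + 1)) * (1 / ((r : ℝ) + 1)) := by
          rw [sum_mul]
      _ ≤ (2 * Real.sqrt m) * (1 / ((r : ℝ) + 1)) := by
          apply mul_le_mul_of_nonneg_right (sum_inv_sqrt_le m) (by positivity)
      _ ≤ (2 * Real.sqrt ((r : ℝ) + 1)) * (1 / ((r : ℝ) + 1)) := by
          apply mul_le_mul_of_nonneg_right _ (by positivity)
          apply mul_le_mul_of_nonneg_left _ (by norm_num)
          apply Real.sqrt_le_sqrt
          exact_mod_cast hm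
      _ = 2 / Real.sqrt ((r : ℝ) + 1) := by
          rw [← hc2]
          rw [Real.sqrt_sq hc.le]
          field_simp
  rcases le_total t (r + 1) with h | h
  · refine (key1 t h).trans ?_
    apply div_le_div_of_nonneg_right (by norm_num) hc.le
  · rw [← sum_range_add_sum_Ico _ h]
    have k1 := key1 (r + 1) le_rfl
    have k2 : ∑ k ∈ Ico (r + 1) t, 1 / (Real.sqrt ((k : ℝ) + 1) * ((k : ℝ) + 1 + r))
        ≤ 2 / Real.sqrt ((r : ℝ) + 1) := by
      calc ∑ k ∈ Ico (r + 1) t, 1 / (Real.sqrt ((k : ℝ) + 1) * ((k : ℝ) + 1 + r))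
          ≤ ∑ k ∈ Ico (r + 1) t, 1 / (Real.sqrt ((k : ℝ) + 1) * ((k : ℝ) + 1)) := by
            apply sum_le_sum
            intro k _
            have h1 : 0 < Real.sqrt ((k : ℝ) + 1) := Real.sqrt_pos.mpr (by positivity)
            apply one_div_le_one_div_of_le (by positivity)
            apply mul_le_mul_of_nonneg_left _ h1.le
            linarith
        _ ≤ 2 / Real.sqrt ((r + 1 : ℕ) : ℝ) - 2 / Real.sqrt t :=
            sum_inv_three_half_le (by omega) h
        _ ≤ 2 / Real.sqrt ((r : ℝ) + 1) := by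
            push_cast
            have : 0 ≤ 2 / Real.sqrt (t : ℝ) := by positivity
            linarith
    calc _ ≤ 2 / Real.sqrt ((r : ℝ) + 1) + 2 / Real.sqrt ((r : ℝ) + 1) := add_le_add k1 k2
      _ = 4 / Real.sqrt ((r : ℝ) + 1) := by ring

/-- sum_(k=1..t) sqrt (t/k) * u (k+r) <= 2 sqrt (t/(r+1)). -/
theorem sum_sqrt_uu_le (t r : ℕ) :
    ∑ k ∈ range t, Real.sqrt ((t : ℝ) / ((k : ℝ) + 1)) * uu (k + 1 + r)
      ≤ 2 * Real.sqrt ((t : ℝ) / ((r : ℝ) + 1)) := by
  have hpi : (3 : ℝ) < Real.pi := Real.pi_gt_three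
  calc ∑ k ∈ range t, Real.sqrt ((t : ℝ) / ((k : ℝ) + 1)) * uu (k + 1 + r)
      ≤ ∑ k ∈ range t, (Real.sqrt t / Real.pi)
          * (1 / (Real.sqrt ((k : ℝ) + 1) * ((k : ℝ) + 1 + r))) := by
        apply sum_le_sum
        intro k _
        have h1 : 0 < Real.sqrt ((k : ℝ) + 1) := Real.sqrt_pos.mpr (by positivity)
        have h2 := uu_le (n := k + 1 + r) (by omega)
        push_cast at h2
        rw [Real.sqrt_div (by positivity)]
        calc Real.sqrt (t : ℝ) / Real.sqrt ((k : ℝ) + 1) * uu (k + 1 + r)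
            ≤ Real.sqrt (t : ℝ) / Real.sqrt ((k : ℝ) + 1) * (1 / (Real.pi * ((k : ℝ) + 1 + r))) :=
              mul_le_mul_of_nonneg_left h2 (by positivity)
          _ = (Real.sqrt t / Real.pi) * (1 / (Real.sqrt ((k : ℝ) + 1) * ((k : ℝ) + 1 + r))) := by
              field_simp
    _ = (Real.sqrt t / Real.pi)
          * ∑ k ∈ range t, 1 / (Real.sqrt ((k : ℝ) + 1) * ((k : ℝ) + 1 + r)) := by
        rw [mul_sum]
    _ ≤ (Real.sqrt t / Real.pi) * (4 / Real.sqrt ((r : ℝ) + 1)) :=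
        mul_le_mul_of_nonneg_left (sum_riesz_kernel_le t r) (by positivity)
    _ ≤ 2 * Real.sqrt ((t : ℝ) / ((r : ℝ) + 1)) := by
        rw [Real.sqrt_div (by positivity)]
        have h1 : 0 < Real.sqrt ((r : ℝ) + 1) := Real.sqrt_pos.mpr (by positivity)
        have h2 : 4 / Real.pi ≤ 2 := by
          rw [div_le_iff₀ (by positivity)]; linarith
        calc (Real.sqrt t / Real.pi) * (4 / Real.sqrt ((r : ℝ) + 1))
            = (4 / Real.pi) * (Real.sqrt t / Real.sqrt ((r : ℝ) + 1)) := by ring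
          _ ≤ 2 * (Real.sqrt t / Real.sqrt ((r : ℝ) + 1)) :=
              mul_le_mul_of_nonneg_right h2 (by positivity)

/-- sum_(k=1..t) sqrt (t/k) V k i <= 18 sqrt (t/(i+1)) U i. -/
theorem sum_sqrt_VV_le {s : ℝ} (hs : 0 < s) {t : ℕ} (ht : 8 ≤ rho s t) {i : ℕ} (hi : i ≤ t) :
    ∑ k ∈ range t, Real.sqrt ((t : ℝ) / ((k : ℝ) + 1)) * VV s (k + 1) i
      ≤ 18 * Real.sqrt ((t : ℝ) / ((i : ℝ) + 1)) * UU s i := by
  have e1 : ∑ k ∈ range t, Real.sqrt ((t : ℝ) / ((k : ℝ) + 1)) * VV s (k + 1) i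
      = ∑ l ∈ range (i + 1), Ut s l *
          ∑ k ∈ range t, Real.sqrt ((t : ℝ) / ((k : ℝ) + 1)) * uu (k + 1 + (i - l)) := by
    simp only [VV, mul_sum]
    rw [sum_comm]
    apply sum_congr rfl
    intro l _
    apply sum_congr rfl
    intro k _
    ring
  rw [e1]
  calc ∑ l ∈ range (i + 1), Ut s l *
          ∑ k ∈ range t, Real.sqrt ((t : ℝ) / ((k : ℝ) + 1)) * uu (k + 1 + (i - l))
      ≤ ∑ l ∈ range (i + 1), (2 * Real.sqrt ((t : ℝ) / ((i : ℝ) + 1))) *
          (Ut s l * Real.sqrt (((i : ℝ) + 1) / ((i : ℝ) - l + 1))) := by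
        apply sum_le_sum
        intro l hl
        have hl' : l ≤ i := by simpa [Nat.lt_succ_iff] using mem_range.mp hl
        have h1 := sum_sqrt_uu_le t (i - l)
        have h2 : (((i - l : ℕ) : ℝ)) = (i : ℝ) - l := by
          rw [Nat.cast_sub hl']
        rw [h2] at h1
        have h3 : 0 ≤ (i : ℝ) - l := by
          have : (l : ℝ) ≤ i := by exact_mod_cast hl'
          linarith
        have h4 : Real.sqrt ((t : ℝ) / ((i : ℝ) - l + 1))
            = Real.sqrt ((t : ℝ) / ((i : ℝ) + 1)) * Real.sqrt (((i : ℝ) + 1) / ((i : ℝ) - l + 1)) := by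
          rw [← Real.sqrt_mul (by positivity)]
          congr 1
          field_simp
        calc Ut s l * ∑ k ∈ range t, Real.sqrt ((t : ℝ) / ((k : ℝ) + 1)) * uu (k + 1 + (i - l))
            ≤ Ut s l * (2 * Real.sqrt ((t : ℝ) / ((i : ℝ) - l + 1))) :=
              mul_le_mul_of_nonneg_left h1 (Ut_nonneg hs.le l)
          _ = _ := by rw [h4]; ring
    _ = (2 * Real.sqrt ((t : ℝ) / ((i : ℝ) + 1))) *
          ∑ l ∈ range (i + 1), Ut s l * Real.sqrt (((i : ℝ) + 1) / ((i : ℝ) - l + 1)) := by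
        rw [mul_sum]
    _ ≤ (2 * Real.sqrt ((t : ℝ) / ((i : ℝ) + 1))) * (9 * UU s i) :=
        mul_le_mul_of_nonneg_left (Ut_sqrt_sum hs ht hi) (by positivity)
    _ = 18 * Real.sqrt ((t : ℝ) / ((i : ℝ) + 1)) * UU s i := by ring

/-! ## (R5) -/

/-- pi * sum_(k=1..n) u k * x^k <= pi * R m + 1 for x = exp (-1/m). -/
theorem sum_uu_exp_le {m : ℕ} (hm : 1 ≤ m) (n : ℕ) :
    Real.pi * ∑ k ∈ range n, uu (k + 1) * Real.exp (-(((k : ℝ) + 1) / m))
      ≤ Real.pi * RR m + 1 := by
  have hpi : 0 < Real.pi := Real.pi_pos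
  have hm0 : (0 : ℝ) < m := by exact_mod_cast hm
  set x : ℝ := Real.exp (-(1 / (m : ℝ))) with hx
  have hx0 : 0 < x := Real.exp_pos _
  have hx1 : x < 1 := by
    rw [hx, Real.exp_lt_one_iff]
    have : 0 < 1 / (m : ℝ) := by positivity
    linarith
  have hxk : ∀ k : ℕ, Real.exp (-(((k : ℝ) + 1) / m)) = x ^ (k + 1) := by
    intro k
    rw [hx, ← Real.exp_nat_mul]
    congr 1
    push_cast
    ring
  simp only [hxk]
  -- geometric bound
  have hgeo : x / (1 - x) ≤ m := by
    have h1 : 0 < 1 - x := by linarith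
    rw [div_le_iff₀ h1]
    -- x ≤ m (1 - x)  ⟸  x (m + 1) ≤ m  ⟸ exp (-1/m) ≤ m/(m+1)
    have h2 : 1 + 1 / (m : ℝ) ≤ Real.exp (1 / (m : ℝ)) := by
      have := Real.add_one_le_exp (1 / (m : ℝ)); linarith
    have h3 : x * Real.exp (1 / (m : ℝ)) = 1 := by
      rw [hx, ← Real.exp_add]; simp
    have h4 : x * (1 + 1 / (m : ℝ)) ≤ 1 := by
      calc x * (1 + 1 / (m : ℝ)) ≤ x * Real.exp (1 / (m : ℝ)) :=
            mul_le_mul_of_nonneg_left h2 hx0.le
        _ = 1 := h3
    have h5 : x * (1 + 1 / (m : ℝ)) * m ≤ 1 * m := mul_le_mul_of_nonneg_right h4 hm0.le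
    have h6 : x * (1 + 1 / (m : ℝ)) * m = x * m + x := by field_simp
    linarith
  have hsmall : ∀ l : ℕ, ∑ k ∈ range l, uu (k + 1) * x ^ (k + 1) ≤ RR l := by
    intro l
    unfold RR
    apply sum_le_sum
    intro k _
    calc uu (k + 1) * x ^ (k + 1) ≤ uu (k + 1) * 1 :=
          mul_le_mul_of_nonneg_left (pow_le_one₀ hx0.le hx1.le) (uu_pos _).le
      _ = uu (k + 1) := mul_one _
  rcases le_total n m with h | h
  · have h1 := (hsmall n).trans (RR_mono h)
    have := mul_le_mul_of_nonneg_left h1 hpi.le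
    linarith
  · rw [← sum_range_add_sum_Ico _ h]
    have h2 : ∑ k ∈ Ico m n, uu (k + 1) * x ^ (k + 1) ≤ 1 / Real.pi := by
      calc ∑ k ∈ Ico m n, uu (k + 1) * x ^ (k + 1)
          ≤ ∑ k ∈ Ico m n, (1 / (Real.pi * m)) * x ^ (k + 1) := by
            apply sum_le_sum
            intro k hk
            apply mul_le_mul_of_nonneg_right _ (by positivity)
            have hk1 : m ≤ k := (mem_Ico.mp hk).1
            refine (uu_le (n := k + 1) (by omega)).trans ?_
            apply one_div_le_one_div_of_le (by positivity)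
            apply mul_le_mul_of_nonneg_left _ hpi.le
            exact_mod_cast (by omega : m ≤ k + 1)
        _ ≤ ∑ k ∈ range n, (1 / (Real.pi * m)) * x ^ (k + 1) := by
            apply sum_le_sum_of_subset_of_nonneg
            · intro k hk
              exact mem_range.mpr (mem_Ico.mp hk).2
            · intro k _ _
              positivity
        _ = (1 / (Real.pi * m)) * (x * ∑ k ∈ range n, x ^ k) := by
            rw [mul_sum, mul_sum]
            apply sum_congr rfl
            intro k _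
            ring
        _ ≤ (1 / (Real.pi * m)) * (x / (1 - x)) := by
            apply mul_le_mul_of_nonneg_left _ (by positivity)
            rw [div_eq_mul_inv]
            apply mul_le_mul_of_nonneg_left _ hx0.le
            have h7 := mul_neg_geom_sum x n
            have h8 : 0 < 1 - x := by linarith
            rw [← one_div, le_div_iff₀ h8, mul_comm, h7]
            have : 0 ≤ x ^ n := by positivity
            linarith
        _ ≤ (1 / (Real.pi * m)) * m := mul_le_mul_of_nonneg_left hgeo (by positivity)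
        _ = 1 / Real.pi := by field_simp
    have h3 := hsmall m
    have h4 : Real.pi * (∑ k ∈ range m, uu (k + 1) * x ^ (k + 1)
        + ∑ k ∈ Ico m n, uu (k + 1) * x ^ (k + 1)) ≤ Real.pi * (RR m + 1 / Real.pi) :=
      mul_le_mul_of_nonneg_left (add_le_add h3 h2) hpi.le
    refine h4.trans (le_of_eq ?_)
    field_simp

/-- (R5) exponential (Laplace) bound for U beyond the scale m. -/
theorem sUU_le_exp {s : ℝ} (hs : 0 < s) {m : ℕ} (hm : 1 ≤ m) (hr : 2 ≤ rho s m) (n : ℕ) :
    s * UU s n ≤ Real.pi * Real.exp ((n : ℝ) / m) := by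
  have hpi : 0 < Real.pi := Real.pi_pos
  have hm0 : (0 : ℝ) < m := by exact_mod_cast hm
  have hrm : Real.pi * RR m + 2 ≤ Real.pi / s := by
    unfold rho at hr; linarith
  induction n using Nat.strong_induction_on with
  | _ n ih =>
    rw [UU_eq]
    have h1 : ∑ k ∈ range n, uu (k + 1) * (s * UU s (n - 1 - k))
        ≤ Real.exp ((n : ℝ) / m) *
          (Real.pi * ∑ k ∈ range n, uu (k + 1) * Real.exp (-(((k : ℝ) + 1) / m))) := by
      rw [mul_sum, mul_sum]
      apply sum_le_sum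
      intro k hk
      have hk' : k < n := mem_range.mp hk
      have h2 := ih (n - 1 - k) (by omega)
      have h3 : ((n - 1 - k : ℕ) : ℝ) = (n : ℝ) - ((k : ℝ) + 1) := by
        rw [Nat.sub_sub, Nat.cast_sub (by omega)]
        push_cast
        ring
      rw [h3, sub_div, sub_eq_add_neg, Real.exp_add] at h2
      calc uu (k + 1) * (s * UU s (n - 1 - k))
          ≤ uu (k + 1) * (Real.pi * (Real.exp ((n : ℝ) / m) *
              Real.exp (-(((k : ℝ) + 1) / m)))) :=
            mul_le_mul_of_nonneg_left h2 (uu_pos _).le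
        _ = _ := by ring
    have h2 := sum_uu_exp_le hm n
    have hE : 1 ≤ Real.exp ((n : ℝ) / m) := Real.one_le_exp (by positivity)
    set E := Real.exp ((n : ℝ) / m) with hEdef
    have h4 : ∑ k ∈ range n, uu (k + 1) * (s * UU s (n - 1 - k)) ≤ E * (Real.pi / s - 1) := by
      refine h1.trans (mul_le_mul_of_nonneg_left ?_ (by positivity))
      linarith
    have h5 : s * (1 + s * ∑ k ∈ range n, uu (k + 1) * UU s (n - 1 - k))
        = s + s * ∑ k ∈ range n, uu (k + 1) * (s * UU s (n - 1 - k)) := by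
      rw [mul_add, mul_one]
      congr 2
      rw [mul_sum]
      apply sum_congr rfl
      intro k _
      ring
    rw [h5]
    calc s + s * ∑ k ∈ range n, uu (k + 1) * (s * UU s (n - 1 - k))
        ≤ s * E + s * (E * (Real.pi / s - 1)) := by
          apply add_le_add
          · nlinarith
          · exact mul_le_mul_of_nonneg_left h4 hs.le
      _ = Real.pi * E := by field_simp; ring

/-! ## (R8) -/

/-- (R8) Riesz sum. -/
theorem riesz_sum {s : ℝ} (hs : 0 < s) {t : ℕ} (ht1 : 1 ≤ t) (ht : 8 ≤ rho s t)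
    (a : ℕ → ℝ) (M : ℝ) (ha0 : ∀ k, 0 ≤ a k) (ha : ∀ k, 1 ≤ k → k ≤ 2 * t → a k ≤ M * uu k) :
    ∑ k ∈ range t, Real.sqrt ((t : ℝ) / ((k : ℝ) + 1)) *
        (a (t + (k + 1)) + s * ∑ j ∈ range t, a (j + 1) * VV s (k + 1) (t - 1 - j))
      ≤ 11 * M + 26 * (s * ∑ j ∈ range t, a (j + 1) * UU s (t - 1 - j)) := by
  have hpi : 0 < Real.pi := Real.pi_pos
  have ht0 : (0 : ℝ) < t := by exact_mod_cast ht1
  have hM : 0 ≤ M := by
    have h1 := (ha0 1).trans (ha 1 le_rfl (by omega))
    by_contra hneg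
    push Not at hneg
    have := mul_neg_of_neg_of_pos hneg (uu_pos 1)
    linarith
  -- split
  have e1 : ∑ k ∈ range t, Real.sqrt ((t : ℝ) / ((k : ℝ) + 1)) *
        (a (t + (k + 1)) + s * ∑ j ∈ range t, a (j + 1) * VV s (k + 1) (t - 1 - j))
      = ∑ k ∈ range t, Real.sqrt ((t : ℝ) / ((k : ℝ) + 1)) * a (t + (k + 1))
        + ∑ j ∈ range t, s * (a (j + 1) *
          ∑ k ∈ range t, Real.sqrt ((t : ℝ) / ((k : ℝ) + 1)) * VV s (k + 1) (t - 1 - j)) := by
    simp only [mul_add, sum_add_distrib, mul_sum]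
    congr 1
    rw [sum_comm]
    apply sum_congr rfl
    intro j _
    apply sum_congr rfl
    intro k _
    ring
  rw [e1]
  -- first part
  have p1 : ∑ k ∈ range t, Real.sqrt ((t : ℝ) / ((k : ℝ) + 1)) * a (t + (k + 1)) ≤ 2 * M := by
    calc ∑ k ∈ range t, Real.sqrt ((t : ℝ) / ((k : ℝ) + 1)) * a (t + (k + 1))
        ≤ ∑ k ∈ range t, M * (Real.sqrt ((t : ℝ) / ((k : ℝ) + 1)) * uu (k + 1 + t)) := by
          apply sum_le_sum
          intro k hk
          have hk' : k < t := mem_range.mp hk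
          have h1 := ha (t + (k + 1)) (by omega) (by omega)
          rw [show t + (k + 1) = k + 1 + t by ring] at h1 ⊢
          calc Real.sqrt ((t : ℝ) / ((k : ℝ) + 1)) * a (k + 1 + t)
              ≤ Real.sqrt ((t : ℝ) / ((k : ℝ) + 1)) * (M * uu (k + 1 + t)) :=
                mul_le_mul_of_nonneg_left h1 (Real.sqrt_nonneg _)
            _ = _ := by ring
      _ = M * ∑ k ∈ range t, Real.sqrt ((t : ℝ) / ((k : ℝ) + 1)) * uu (k + 1 + t) := by
          rw [mul_sum]
      _ ≤ M * (2 * Real.sqrt ((t : ℝ) / ((t : ℝ) + 1))) :=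
          mul_le_mul_of_nonneg_left (sum_sqrt_uu_le t t) hM
      _ ≤ M * (2 * 1) := by
          apply mul_le_mul_of_nonneg_left _ hM
          apply mul_le_mul_of_nonneg_left _ (by norm_num)
          rw [Real.sqrt_le_left (by norm_num), one_pow, div_le_one (by positivity)]
          linarith
      _ = 2 * M := by ring
  -- second part
  have p2 : ∀ j ∈ range t, s * (a (j + 1) *
          ∑ k ∈ range t, Real.sqrt ((t : ℝ) / ((k : ℝ) + 1)) * VV s (k + 1) (t - 1 - j))
      ≤ 26 * (s * (a (j + 1) * UU s (t - 1 - j)))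
        + 18 * (M / (4 * Real.sqrt t)) * (1 / Real.sqrt (((t - 1 - j : ℕ) : ℝ) + 1)) := by
    intro j hj
    have hj' : j < t := mem_range.mp hj
    have h1 := sum_sqrt_VV_le hs ht (i := t - 1 - j) (by omega)
    have hU1 : 1 ≤ UU s (t - 1 - j) := one_le_UU hs.le _
    have hU0 : 0 ≤ UU s (t - 1 - j) := by linarith
    have haj := ha0 (j + 1)
    set i := t - 1 - j with hi
    have hsi : 0 < Real.sqrt ((i : ℝ) + 1) := Real.sqrt_pos.mpr (by positivity)
    have hst : 0 < Real.sqrt (t : ℝ) := Real.sqrt_pos.mpr ht0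
    have hsq : Real.sqrt (t : ℝ) ^ 2 = t := Real.sq_sqrt ht0.le
    have h2 : s * (a (j + 1) *
          ∑ k ∈ range t, Real.sqrt ((t : ℝ) / ((k : ℝ) + 1)) * VV s (k + 1) i)
        ≤ s * (a (j + 1) * (18 * Real.sqrt ((t : ℝ) / ((i : ℝ) + 1)) * UU s i)) := by
      apply mul_le_mul_of_nonneg_left _ hs.le
      exact mul_le_mul_of_nonneg_left h1 haj
    refine h2.trans ?_
    have hterm : 0 ≤ s * (a (j + 1) * UU s i) := by positivity
    have hterm2 : 0 ≤ 18 * (M / (4 * Real.sqrt t)) * (1 / Real.sqrt ((i : ℝ) + 1)) := by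
      positivity
    rcases le_or_gt (2 * j) t with hc | hc
    · -- sqrt ≤ sqrt 2
      have h3 : (t : ℝ) / ((i : ℝ) + 1) ≤ 2 := by
        rw [div_le_iff₀ (by positivity)]
        have : t ≤ 2 * (i + 1) := by omega
        exact_mod_cast this
      have h4 : 18 * Real.sqrt ((t : ℝ) / ((i : ℝ) + 1)) ≤ 26 := by
        have h5 : Real.sqrt ((t : ℝ) / ((i : ℝ) + 1)) ≤ 26 / 18 := by
          rw [Real.sqrt_le_left (by norm_num)]
          refine h3.trans (by norm_num)
        linarith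
      calc s * (a (j + 1) * (18 * Real.sqrt ((t : ℝ) / ((i : ℝ) + 1)) * UU s i))
          = (18 * Real.sqrt ((t : ℝ) / ((i : ℝ) + 1))) * (s * (a (j + 1) * UU s i)) := by ring
        _ ≤ 26 * (s * (a (j + 1) * UU s i)) := mul_le_mul_of_nonneg_right h4 hterm
        _ ≤ _ := by linarith
    · have h3 : a (j + 1) ≤ M * (2 / (Real.pi * t)) := by
        refine (ha (j + 1) (by omega) (by omega)).trans ?_
        apply mul_le_mul_of_nonneg_left _ hM
        refine (uu_le (n := j + 1) (by omega)).trans ?_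
        push_cast
        rw [div_le_div_iff₀ (by positivity) (by positivity)]
        have : (t : ℝ) ≤ 2 * ((j : ℝ) + 1) := by
          exact_mod_cast (by omega : t ≤ 2 * (j + 1))
        nlinarith
      have h4 : s * UU s i ≤ Real.pi / 8 := by
        have hr8 : 8 ≤ rho s i := ht.trans (rho_anti s (by omega : i ≤ t))
        refine (sUU_le hs (by linarith)).trans ?_
        exact div_le_div_of_nonneg_left hpi.le (by norm_num) hr8
      have h5 : a (j + 1) * (s * UU s i) ≤ (M * (2 / (Real.pi * t))) * (Real.pi / 8) :=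
        mul_le_mul h3 h4 (by positivity) (by positivity)
      have h6 : (M * (2 / (Real.pi * t))) * (Real.pi / 8) = M / (4 * t) := by
        field_simp
        ring
      rw [h6] at h5
      calc s * (a (j + 1) * (18 * Real.sqrt ((t : ℝ) / ((i : ℝ) + 1)) * UU s i))
          = (18 * Real.sqrt ((t : ℝ) / ((i : ℝ) + 1))) * (a (j + 1) * (s * UU s i)) := by ring
        _ ≤ (18 * Real.sqrt ((t : ℝ) / ((i : ℝ) + 1))) * (M / (4 * t)) :=
            mul_le_mul_of_nonneg_left h5 (by positivity)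
        _ = 18 * (M / (4 * Real.sqrt t)) * (1 / Real.sqrt ((i : ℝ) + 1)) := by
            rw [Real.sqrt_div ht0.le]
            have : (t : ℝ) = Real.sqrt t * Real.sqrt t := (Real.mul_self_sqrt ht0.le).symm
            rw [show M / (4 * (t : ℝ)) = M / (4 * (Real.sqrt t * Real.sqrt t)) by rw [← this]]
            field_simp
        _ ≤ _ := by
            have := mul_nonneg (by norm_num : (0 : ℝ) ≤ 26) hterm
            linarith
  have p3 := sum_le_sum p2
  rw [sum_add_distrib, ← mul_sum, ← mul_sum, ← mul_sum] at p3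
  have p4 : ∑ j ∈ range t, 1 / Real.sqrt (((t - 1 - j : ℕ) : ℝ) + 1) ≤ 2 * Real.sqrt t := by
    have e := sum_range_reflect (fun j : ℕ => 1 / Real.sqrt ((j : ℝ) + 1)) t
    rw [e]
    exact sum_inv_sqrt_le t
  have hst : 0 < Real.sqrt (t : ℝ) := Real.sqrt_pos.mpr ht0
  have p5 : 18 * (M / (4 * Real.sqrt t)) *
      ∑ j ∈ range t, 1 / Real.sqrt (((t - 1 - j : ℕ) : ℝ) + 1) ≤ 9 * M := by
    calc 18 * (M / (4 * Real.sqrt t)) *
        ∑ j ∈ range t, 1 / Real.sqrt (((t - 1 - j : ℕ) : ℝ) + 1)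
        ≤ 18 * (M / (4 * Real.sqrt t)) * (2 * Real.sqrt t) :=
          mul_le_mul_of_nonneg_left p4 (by positivity)
      _ = 9 * M := by field_simp; ring
  rw [← mul_sum] at p3
  rw [← mul_sum]
  linarith

end Pool.A2F
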