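import Pool.Agent.A2F.Defs

/-!
# Module Seq: the sequence u, and R (Wallis bounds)
-/

set_option autoImplicit false

open Finset
open scoped ENNReal NNReal

noncomputable section

namespace Pool.A2F

theorem uu_zero : uu 0 = 1 := by simp [uu]

theorem uu_pos (n : ℕ) : 0 < uu n := by
  unfold uu
  have := Nat.centralBinom_pos n
  positivity

/-- the relation with the product of Wallis -/
lemma uu_W (n : ℕ) : uu n * (Real.Wallis.W n * (2 * n + 1)) = 1 := by
  rw [Real.Wallis.W_eq_factorial_ratio, uu, Nat.centralBinom_eq_two_mul_choose]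
  have h : ((2 * n).choose n : ℝ) = (2 * n).factorial / (n.factorial * n.factorial) := by
    rw [Nat.cast_choose ℝ (by omega : n ≤ 2 * n), show 2 * n - n = n by omega]
  rw [h]
  have h1 : (n.factorial : ℝ) ≠ 0 := by exact_mod_cast n.factorial_ne_zero
  have h2 : ((2 * n).factorial : ℝ) ≠ 0 := by exact_mod_cast (2 * n).factorial_ne_zero
  have h3 : (2 * (n : ℝ) + 1) ≠ 0 := by positivity
  have h4 : (4 : ℝ) ^ n = 2 ^ (2 * n) := by
    rw [pow_mul]
    norm_num
  rw [h4]
  field_simp
  rw [← pow_mul]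
  congr 1
  ring

lemma uu_succ (n : ℕ) : uu (n + 1) = uu n * ((2 * n + 1) / (2 * n + 2)) ^ 2 := by
  have h1 := uu_W n
  have h2 := uu_W (n + 1)
  rw [Real.Wallis.W_succ] at h2
  have h3 := Real.Wallis.W_pos n
  push_cast at h2
  have h4 : uu n = 1 / (Real.Wallis.W n * (2 * n + 1)) := by
    rw [eq_div_iff (by positivity)]
    exact h1
  have h5 : uu (n + 1) = 1 / (Real.Wallis.W n * ((2 * n + 2) / (2 * n + 1) *
      ((2 * n + 2) / (2 * n + 3))) * (2 * (n + 1) + 1)) := by
    rw [eq_div_iff (by positivity)]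
    exact h2
  rw [h4, h5]
  field_simp
  ring

theorem uu_anti : Antitone uu := by
  apply antitone_nat_of_succ_le
  intro n
  rw [uu_succ]
  have h1 := uu_pos n
  have h2 : ((2 * (n : ℝ) + 1) / (2 * n + 2)) ^ 2 ≤ 1 := by
    rw [sq_le_one_iff₀ (by positivity), div_le_one (by positivity)]
    linarith
  exact mul_le_of_le_one_right h1.le h2

theorem uu_le_one (n : ℕ) : uu n ≤ 1 := by
  rw [← uu_zero]
  exact uu_anti (Nat.zero_le n)

theorem uu_le {n : ℕ} (hn : 1 ≤ n) : uu n ≤ 1 / (Real.pi * n) := by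
  have hn' : (1 : ℝ) ≤ n := by exact_mod_cast hn
  have h1 := uu_W n
  have h2 := Real.Wallis.le_W n
  have h3 := uu_pos n
  have hpi := Real.pi_pos
  have h4 : uu n * (((2 : ℝ) * n + 1) / (2 * n + 2) * (Real.pi / 2) * (2 * n + 1)) ≤ 1 := by
    refine le_trans (mul_le_mul_of_nonneg_left ?_ h3.le) h1.le
    exact mul_le_mul_of_nonneg_right h2 (by positivity)
  rw [le_div_iff₀ (by positivity)]
  refine le_trans (mul_le_mul_of_nonneg_left ?_ h3.le) h4
  rw [div_mul_eq_mul_div, div_mul_eq_mul_div, le_div_iff₀ (by positivity)]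
  nlinarith

theorem le_uu (n : ℕ) : 1 / (Real.pi * (n + 1 / 2)) ≤ uu n := by
  have h1 := uu_W n
  have h2 := Real.Wallis.W_le n
  have h3 := uu_pos n
  have hpi := Real.pi_pos
  rw [div_le_iff₀ (by positivity)]
  refine h1.symm.le.trans (mul_le_mul_of_nonneg_left ?_ h3.le)
  calc Real.Wallis.W n * (2 * n + 1) ≤ Real.pi / 2 * (2 * n + 1) :=
        mul_le_mul_of_nonneg_right h2 (by positivity)
    _ = Real.pi * (n + 1 / 2) := by ring

theorem quarter_le_uu {n : ℕ} (hn : 1 ≤ n) : 1 / (4 * (n : ℝ)) ≤ uu n := by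
  rcases Nat.lt_or_ge n 2 with h | h
  · have h1 : n = 1 := by omega
    subst h1
    rw [uu_succ 0, uu_zero]
    norm_num
  · refine le_trans ?_ (le_uu n)
    have hn' : (2 : ℝ) ≤ n := by exact_mod_cast h
    have hpi := Real.pi_pos
    have hpi' := Real.pi_lt_d2
    apply one_div_le_one_div_of_le (by positivity)
    nlinarith

theorem uu_add_ge {n : ℕ} (hn : 1 ≤ n) (m : ℕ) :
    (n : ℝ) / (n + m + 1 / 2) * uu n ≤ uu (n + m) := by
  have hn' : (1 : ℝ) ≤ n := by exact_mod_cast hn
  have hpi := Real.pi_pos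
  refine le_trans (mul_le_mul_of_nonneg_left (uu_le hn) (by positivity)) ?_
  refine le_trans (le_of_eq ?_) (le_uu (n + m))
  push_cast
  field_simp

theorem RR_zero : RR 0 = 0 := by simp [RR]

theorem RR_succ (n : ℕ) : RR (n + 1) = RR n + uu (n + 1) := by
  simp [RR, sum_range_succ]

theorem RR_mono : Monotone RR := by
  apply monotone_nat_of_le_succ
  intro n
  rw [RR_succ]
  exact le_add_of_nonneg_right (uu_pos _).le

theorem RR_sub_le {m n : ℕ} (hm : 1 ≤ m) (h : m ≤ n) :
    Real.pi * (RR n - RR m) ≤ Real.log ((n : ℝ) / m) := by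
  have hm' : (1 : ℝ) ≤ m := by exact_mod_cast hm
  have hpi := Real.pi_pos
  induction n, h using Nat.le_induction with
  | base => rw [sub_self, mul_zero, div_self (by positivity), Real.log_one]
  | succ n hn ih =>
    have hn' : (1 : ℝ) ≤ n := hm'.trans (by exact_mod_cast hn)
    rw [RR_succ]
    have h1 := uu_le (n := n + 1) (by omega)
    have h2 : Real.pi * uu (n + 1) ≤ 1 / (n + 1) := by
      refine (mul_le_mul_of_nonneg_left h1 hpi.le).trans (le_of_eq ?_)
      push_cast
      field_simp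
    have h3 := Real.one_sub_inv_le_log_of_pos (x := ((n : ℝ) + 1) / n) (by positivity)
    have h4 : 1 - (((n : ℝ) + 1) / n)⁻¹ = 1 / (n + 1) := by
      field_simp
      ring
    rw [h4] at h3
    have h5 : Real.log (((n + 1 : ℕ) : ℝ) / m) = Real.log ((n : ℝ) / m) + Real.log (((n : ℝ) + 1) / n) := by
      rw [← Real.log_mul (by positivity) (by positivity)]
      congr 1
      push_cast
      field_simp
    rw [h5]
    have h6 : Real.pi * (RR n + uu (n + 1) - RR m) = Real.pi * (RR n - RR m) + Real.pi * uu (n + 1) := by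
      ring
    rw [h6]
    linarith

theorem le_RR_sub {m n : ℕ} (h : m ≤ n) :
    Real.log (((n : ℝ) + 2) / (m + 2)) ≤ Real.pi * (RR n - RR m) := by
  have hpi := Real.pi_pos
  induction n, h using Nat.le_induction with
  | base => rw [sub_self, mul_zero, div_self (by positivity), Real.log_one]
  | succ n hn ih =>
    rw [RR_succ]
    have h1 := le_uu (n + 1)
    have h2 : 1 / ((n : ℝ) + 2) ≤ Real.pi * uu (n + 1) := by
      refine le_trans ?_ (mul_le_mul_of_nonneg_left h1 hpi.le)
      push_cast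
      rw [mul_one_div, div_le_div_iff₀ (by positivity) (by positivity)]
      nlinarith
    have h3 := Real.log_le_sub_one_of_pos (x := ((n : ℝ) + 3) / (n + 2)) (by positivity)
    have h4 : ((n : ℝ) + 3) / (n + 2) - 1 = 1 / (n + 2) := by
      field_simp
      ring
    rw [h4] at h3
    have h5 : Real.log ((((n + 1 : ℕ) : ℝ) + 2) / (m + 2)) =
        Real.log (((n : ℝ) + 2) / (m + 2)) + Real.log (((n : ℝ) + 3) / (n + 2)) := by
      rw [← Real.log_mul (by positivity) (by positivity)]
      congr 1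
      push_cast
      field_simp
      ring
    rw [h5]
    have h6 : Real.pi * (RR n + uu (n + 1) - RR m) = Real.pi * (RR n - RR m) + Real.pi * uu (n + 1) := by
      ring
    rw [h6]
    linarith

theorem RR_le_log {n : ℕ} (hn : 1 ≤ n) : Real.pi * RR n ≤ 1 + Real.log n := by
  have h := RR_sub_le le_rfl hn
  have h1 : RR 1 = 1 / 4 := by
    rw [RR_succ 0, RR_zero, uu_succ 0, uu_zero]
    norm_num
  have h2 := Real.pi_lt_d2
  rw [h1] at h
  push_cast at h
  rw [div_one] at h
  have h3 : Real.pi * (RR n - 1 / 4) = Real.pi * RR n - Real.pi / 4 := by ring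
  rw [h3] at h
  linarith

end Pool.A2F
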