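import Pool.Agent.A2F.Op
import Pool.Agent.A2F.Two2
import Pool.Agent.A2F.Chain

/-!
# Module Third: third moment of a block started from a smooth measure

E |W_n|^3 <= Cub (ph n) W, where ph n x y z is the expected product of the weights w3 of three
replicas. First collision (Cub_ph) exactly, then the pair is a renewal process (Bq_iter), the
spectator only enters through the sup bound 1/n of its density (spec), and the gap between two
changes of the pair gives the one dimensional chain JJ.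
-/

set_option autoImplicit false
set_option linter.unusedSectionVars false

open MeasureTheory ProbabilityTheory Finset
open scoped ENNReal NNReal

noncomputable section

namespace Pool.A2F

namespace Thr

/-! ## 1. product moments of a layer -/

theorem lint_pi_prod {ι : Type} [Fintype ι] (m : Measure ℝ≥0) [IsProbabilityMeasure m]
    (g : ι → ℝ≥0 → ℝ≥0∞) (hg : ∀ i, Measurable (g i)) :
    ∫⁻ ξ, ∏ i, g i (ξ i) ∂(Measure.pi fun _ : ι => m) = ∏ i, ∫⁻ x, g i x ∂m := by
  have hind : iIndepFun (fun i (ξ : ι → ℝ≥0) => g i (ξ i)) (Measure.pi fun _ : ι => m) :=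
    iIndepFun_pi (X := g) fun i => (hg i).aemeasurable
  rw [lintegral_prod_eq_prod_lintegral_of_indepFun univ _ hind
    (fun i => (hg i).comp (measurable_pi_apply i))]
  refine prod_congr rfl fun i _ => ?_
  exact (measurePreserving_eval (fun _ : ι => m) i).lintegral_comp (hg i)

/-- three replica weight -/
def w3 {G : Type} [DecidableEq G] (s : ℝ) (x y z : G) : ℝ :=
  1 + s * ((if x = y then 1 else 0) + (if x = z then 1 else 0) + (if y = z then 1 else 0))
    + 2 * s * (if x = y ∧ y = z then 1 else 0)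

variable {G : Type} [Fintype G] [DecidableEq G] [AddCommGroup G]
variable {p : G → ℝ≥0} {m : Measure ℝ≥0} {n0 : ℕ} {s C4 : ℝ}

omit [Fintype G] [AddCommGroup G] in
theorem one_le_w3 (hs : 0 ≤ s) (x y z : G) : 1 ≤ w3 s x y z := by
  unfold w3
  have h1 : (0:ℝ) ≤ (if x = y then 1 else 0) := by split_ifs <;> norm_num
  have h2 : (0:ℝ) ≤ (if x = z then 1 else 0) := by split_ifs <;> norm_num
  have h3 : (0:ℝ) ≤ (if y = z then 1 else 0) := by split_ifs <;> norm_num
  have h4 : (0:ℝ) ≤ (if x = y ∧ y = z then 1 else 0) := by split_ifs <;> norm_num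
  nlinarith [mul_nonneg hs (add_nonneg (add_nonneg h1 h2) h3), mul_nonneg (mul_nonneg (by norm_num : (0:ℝ) ≤ 2) hs) h4]


theorem lint_pow_le_one {k : ℕ} (hm : Law m s C4) (hk : k ≤ 1) :
    ∫⁻ x, (x : ℝ≥0∞) ^ k ∂m = 1 := by
  have := hm.prob
  interval_cases k
  · simp
  · simpa using hm.m1

/-- third product moment of a layer -/
theorem lint_three (hm : Law m s C4) (x y z : G) :
    ∫⁻ ξ : G → ℝ≥0, (ξ x : ℝ≥0∞) * (ξ y : ℝ≥0∞) * (ξ z : ℝ≥0∞) ∂(Measure.pi fun _ : G => m)
      ≤ ENNReal.ofReal (w3 s x y z) := by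
  have := hm.prob
  have hs := hm.s_pos
  set e : G → ℕ := fun i => (if x = i then 1 else 0) + (if y = i then 1 else 0)
    + (if z = i then 1 else 0) with he
  have h1 : ∀ ξ : G → ℝ≥0, (ξ x : ℝ≥0∞) * (ξ y : ℝ≥0∞) * (ξ z : ℝ≥0∞)
      = ∏ i, (ξ i : ℝ≥0∞) ^ e i := by
    intro ξ
    simp only [he, pow_add, prod_mul_distrib, Finset.prod_pow_boole, mem_univ, if_true]
  simp_rw [h1]
  rw [lint_pi_prod m (fun i (t : ℝ≥0) => (t : ℝ≥0∞) ^ e i)
    (fun i => measurable_coe_nnreal_ennreal.pow_const _)]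
  have hM : ∀ i, e i ≤ 1 → ∫⁻ t, (t : ℝ≥0∞) ^ e i ∂m = 1 := fun i hi => lint_pow_le_one hm hi
  by_cases hxy : x = y
  · subst hxy
    rw [Finset.prod_eq_single x (fun i _ hi => hM i (by
      simp only [he, if_neg (Ne.symm hi)]; split_ifs <;> omega)) (by simp)]
    by_cases hxz : x = z
    · subst hxz
      have : e x = 3 := by simp [he]
      rw [this]
      refine hm.m3.trans (ENNReal.ofReal_le_ofReal ?_)
      simp [w3]; linarith
    · have : e x = 2 := by simp [he, Ne.symm hxz]
      rw [this, hm.m2]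
      refine ENNReal.ofReal_le_ofReal ?_
      simp [w3, hxz]
  · by_cases hxz : x = z
    · subst hxz
      rw [Finset.prod_eq_single x (fun i _ hi => hM i (by
        simp only [he, if_neg (Ne.symm hi)]; split_ifs <;> omega)) (by simp)]
      have : e x = 2 := by simp [he, Ne.symm hxy]
      rw [this, hm.m2]
      refine ENNReal.ofReal_le_ofReal ?_
      simp [w3, hxy, Ne.symm hxy]
    · by_cases hyz : y = z
      · subst hyz
        rw [Finset.prod_eq_single y (fun i _ hi => hM i (by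
          simp only [he, if_neg (Ne.symm hi)]; split_ifs <;> omega)) (by simp)]
        have : e y = 2 := by simp [he, hxy]
        rw [this, hm.m2]
        refine ENNReal.ofReal_le_ofReal ?_
        simp [w3, hxy]
      · rw [Finset.prod_eq_one (fun i _ => hM i (by
          simp only [he]
          by_cases h1 : x = i
          · subst h1; simp [Ne.symm hxy, Ne.symm hxz]
          · by_cases h2 : y = i
            · subst h2; simp [hxy, Ne.symm hyz]
            · simp only [if_neg h1, if_neg h2]; split_ifs <;> omega))]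
        simp [w3, hxy, hxz, hyz]


/-! ## 2. cubic functionals -/

/-- cubic functional of a measure -/
def Cub (F : G → G → G → ℝ) (W : G → ℝ≥0) : ℝ :=
  ∑ x, ∑ y, ∑ z, (W x : ℝ) * W y * W z * F x y z

theorem TT_cub (hm : Law m s C4) {F : G → G → G → ℝ} (hF : ∀ x y z, 0 ≤ F x y z)
    (W : G → ℝ≥0) :
    TT p m (fun V => ENNReal.ofReal (Cub F V)) W
      ≤ ENNReal.ofReal (Cub (fun x y z => w3 s x y z * F x y z) (conv p W)) := by
  have := hm.prob
  have hs := hm.s_pos
  set Y := conv p W with hY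
  have key : ∀ ξ : G → ℝ≥0, ENNReal.ofReal (Cub F (upd p W ξ))
      = ∑ x, ∑ y, ∑ z, ENNReal.ofReal ((Y x : ℝ) * Y y * Y z * F x y z)
          * ((ξ x : ℝ≥0∞) * (ξ y : ℝ≥0∞) * (ξ z : ℝ≥0∞)) := by
    intro ξ
    unfold Cub
    rw [ENNReal.ofReal_sum_of_nonneg (fun x _ => sum_nonneg fun y _ => sum_nonneg fun z _ =>
      mul_nonneg (by positivity) (hF x y z))]
    refine sum_congr rfl fun x _ => ?_
    rw [ENNReal.ofReal_sum_of_nonneg (fun y _ => sum_nonneg fun z _ =>
      mul_nonneg (by positivity) (hF x y z))]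
    refine sum_congr rfl fun y _ => ?_
    rw [ENNReal.ofReal_sum_of_nonneg (fun z _ =>
      mul_nonneg (by positivity) (hF x y z))]
    refine sum_congr rfl fun z _ => ?_
    have h1 : ((upd p W ξ x : ℝ≥0) : ℝ) * (upd p W ξ y : ℝ≥0) * (upd p W ξ z : ℝ≥0) * F x y z
        = ((Y x : ℝ) * Y y * Y z * F x y z) * ((ξ x : ℝ) * ξ y * ξ z) := by
      simp only [upd, NNReal.coe_mul, ← hY]; ring
    have h2 : ENNReal.ofReal ((ξ x : ℝ) * ξ y * ξ z)
        = (ξ x : ℝ≥0∞) * (ξ y : ℝ≥0∞) * (ξ z : ℝ≥0∞) := by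
      rw [ENNReal.ofReal_mul (by positivity), ENNReal.ofReal_mul (by positivity),
        ENNReal.ofReal_coe_nnreal, ENNReal.ofReal_coe_nnreal, ENNReal.ofReal_coe_nnreal]
    rw [h1, ENNReal.ofReal_mul (mul_nonneg (by positivity) (hF x y z)), h2]
  unfold TT
  simp only [key]
  have hmeas : ∀ x y z : G, Measurable fun ξ : G → ℝ≥0 =>
      ENNReal.ofReal ((Y x : ℝ) * Y y * Y z * F x y z)
          * ((ξ x : ℝ≥0∞) * (ξ y : ℝ≥0∞) * (ξ z : ℝ≥0∞)) := by
    intro x y z
    have h : ∀ i : G, Measurable fun ξ : G → ℝ≥0 => (ξ i : ℝ≥0∞) := fun i =>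
      measurable_coe_nnreal_ennreal.comp (measurable_pi_apply i)
    exact (((h x).mul (h y)).mul (h z)).const_mul _
  rw [lintegral_finsetSum _ (fun x _ => Finset.measurable_fun_sum _ fun y _ =>
    Finset.measurable_fun_sum _ fun z _ => hmeas x y z)]
  unfold Cub
  rw [ENNReal.ofReal_sum_of_nonneg (fun x _ => sum_nonneg fun y _ => sum_nonneg fun z _ =>
      mul_nonneg (by positivity) (mul_nonneg (by linarith [one_le_w3 hs.le x y z]) (hF x y z)))]
  refine sum_le_sum fun x _ => ?_
  rw [lintegral_finsetSum _ (fun y _ => Finset.measurable_fun_sum _ fun z _ => hmeas x y z),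
    ENNReal.ofReal_sum_of_nonneg (fun y _ => sum_nonneg fun z _ =>
      mul_nonneg (by positivity) (mul_nonneg (by linarith [one_le_w3 hs.le x y z]) (hF x y z)))]
  refine sum_le_sum fun y _ => ?_
  rw [lintegral_finsetSum _ (fun z _ => hmeas x y z),
    ENNReal.ofReal_sum_of_nonneg (fun z _ =>
      mul_nonneg (by positivity) (mul_nonneg (by linarith [one_le_w3 hs.le x y z]) (hF x y z)))]
  refine sum_le_sum fun z _ => ?_
  have h : ∀ i : G, Measurable fun ξ : G → ℝ≥0 => (ξ i : ℝ≥0∞) := fun i =>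
      measurable_coe_nnreal_ennreal.comp (measurable_pi_apply i)
  have h3 : Measurable fun ξ : G → ℝ≥0 => (ξ x : ℝ≥0∞) * (ξ y : ℝ≥0∞) * (ξ z : ℝ≥0∞) :=
    ((h x).mul (h y)).mul (h z)
  rw [lintegral_const_mul _ h3]
  refine (mul_le_mul_right (lint_three hm x y z) _).trans ?_
  rw [← ENNReal.ofReal_mul (mul_nonneg (by positivity) (hF x y z))]
  refine ENNReal.ofReal_le_ofReal (le_of_eq ?_)
  ring


/-! ## 3. averages -/

/-- one step average -/
def Av (p : G → ℝ≥0) (f : G → ℝ) (x : G) : ℝ := ∑ y, (p (y - x) : ℝ) * f y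

theorem Av_const (hw : Walk p n0) (c : ℝ) (x : G) : Av p (fun _ => c) x = c := by
  unfold Av
  rw [← Finset.sum_mul]
  have h : ∑ y, (p (y - x) : ℝ) = ∑ y, (p y : ℝ) :=
    Fintype.sum_equiv (Equiv.subRight x) _ _ fun _ => rfl
  rw [h]
  have h1 : ∑ y, (p y : ℝ) = 1 := by exact_mod_cast hw.one
  rw [h1, one_mul]

omit [DecidableEq G] in
theorem Av_mono {f g : G → ℝ} (h : ∀ y, f y ≤ g y) (x : G) : Av p f x ≤ Av p g x :=
  sum_le_sum fun y _ => mul_le_mul_of_nonneg_left (h y) (NNReal.coe_nonneg _)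

omit [DecidableEq G] in
theorem Av_sum {ι : Type} (t : Finset ι) (c : ι → ℝ) (f : ι → G → ℝ) (x : G) :
    Av p (fun y => ∑ i ∈ t, c i * f i y) x = ∑ i ∈ t, c i * Av p (f i) x := by
  unfold Av
  simp only [mul_sum]
  rw [sum_comm]
  exact sum_congr rfl fun i _ => sum_congr rfl fun y _ => by ring

omit [DecidableEq G] in
theorem Av_comm (F : G → G → ℝ) (x y : G) :
    Av p (fun a => Av p (fun b => F a b) y) x = Av p (fun b => Av p (fun a => F a b) x) y := by
  unfold Av
  simp only [mul_sum]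
  rw [sum_comm]
  exact sum_congr rfl fun i _ => sum_congr rfl fun y _ => by ring

omit [DecidableEq G] in
theorem Av_shift (f : G → ℝ) (x v : G) : Av p f (x + v) = Av p (fun y => f (y + v)) x := by
  unfold Av
  refine (Fintype.sum_equiv (Equiv.addRight v) _ _ fun y => ?_).symm
  simp

omit [DecidableEq G] in
theorem Av_lin (W : G → ℝ≥0) (f : G → ℝ) :
    ∑ y, (conv p W y : ℝ) * f y = ∑ x, (W x : ℝ) * Av p f x := by
  unfold conv Av
  push_cast
  simp only [mul_sum, sum_mul]
  rw [sum_comm]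
  exact sum_congr rfl fun i _ => sum_congr rfl fun y _ => by ring

/-! ## 4. the three replica function -/

/-- expected product of the weights of three replicas -/
def ph (p : G → ℝ≥0) (s : ℝ) : ℕ → G → G → G → ℝ
  | 0 => fun _ _ _ => 1
  | n + 1 => fun x y z =>
      Av p (fun a => Av p (fun b => Av p (fun c => w3 s a b c * ph p s n a b c) z) y) x

theorem ph_zero (x y z : G) : ph p s 0 x y z = 1 := rfl

theorem ph_succ (n : ℕ) (x y z : G) : ph p s (n + 1) x y z =
    Av p (fun a => Av p (fun b => Av p (fun c => w3 s a b c * ph p s n a b c) z) y) x := rfl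

theorem one_le_ph (hw : Walk p n0) (hs : 0 ≤ s) (n : ℕ) (x y z : G) : 1 ≤ ph p s n x y z := by
  induction n generalizing x y z with
  | zero => exact le_rfl
  | succ n ih =>
    rw [ph_succ]
    calc (1 : ℝ) = Av p (fun _ => Av p (fun _ => Av p (fun _ => 1) z) y) x := by
          rw [Av_const hw, Av_const hw, Av_const hw]
      _ ≤ _ := Av_mono (fun a => Av_mono (fun b => Av_mono (fun c => by
          nlinarith [one_le_w3 hs a b c, ih a b c]) z) y) x

theorem ph_nonneg (hw : Walk p n0) (hs : 0 ≤ s) (n : ℕ) (x y z : G) : 0 ≤ ph p s n x y z :=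
  zero_le_one.trans (one_le_ph hw hs n x y z)

theorem ph_le_succ (hw : Walk p n0) (hs : 0 ≤ s) (n : ℕ) (x y z : G) :
    ph p s n x y z ≤ ph p s (n + 1) x y z := by
  induction n generalizing x y z with
  | zero => exact one_le_ph hw hs 1 x y z
  | succ n ih =>
    rw [ph_succ, ph_succ]
    exact Av_mono (fun a => Av_mono (fun b => Av_mono (fun c =>
      mul_le_mul_of_nonneg_left (ih a b c) (zero_le_one.trans (one_le_w3 hs a b c))) z) y) x

theorem ph_mono (hw : Walk p n0) (hs : 0 ≤ s) {n k : ℕ} (h : n ≤ k) (x y z : G) :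
    ph p s n x y z ≤ ph p s k x y z :=
  monotone_nat_of_le_succ (f := fun n => ph p s n x y z)
    (fun n => ph_le_succ hw hs n x y z) h

theorem ph_swap (n : ℕ) (x y z : G) : ph p s n y x z = ph p s n x y z := by
  induction n generalizing x y z with
  | zero => rfl
  | succ n ih =>
    rw [ph_succ, ph_succ, Av_comm]
    congr 1; ext a; congr 1; ext b; congr 1; ext c
    rw [ih]
    congr 1
    unfold w3
    by_cases h1 : a = b
    · subst h1; simp
    · simp [h1, Ne.symm h1]; left; ring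

theorem ph_swap' (n : ℕ) (x y z : G) : ph p s n x z y = ph p s n x y z := by
  induction n generalizing x y z with
  | zero => rfl
  | succ n ih =>
    rw [ph_succ, ph_succ]
    congr 1; ext a
    rw [Av_comm]
    congr 1; ext b; congr 1; ext c
    rw [ih]
    congr 1
    unfold w3
    by_cases h1 : b = c
    · subst h1; simp
    · simp [h1, Ne.symm h1]; left; ring

theorem ph_shift (n : ℕ) (v x y z : G) :
    ph p s n (x + v) (y + v) (z + v) = ph p s n x y z := by
  induction n generalizing x y z with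
  | zero => rfl
  | succ n ih =>
    rw [ph_succ, ph_succ, Av_shift]
    congr 1; ext a
    rw [Av_shift]
    congr 1; ext b
    rw [Av_shift]
    congr 1; ext c
    rw [ih]
    congr 1
    unfold w3
    simp

theorem Cub_conv (F : G → G → G → ℝ) (W : G → ℝ≥0) :
    Cub F (conv p W) = Cub (fun x y z =>
      Av p (fun a => Av p (fun b => Av p (fun c => F a b c) z) y) x) W := by
  have e : ∀ (F : G → G → G → ℝ) (V : G → ℝ≥0), Cub F V
      = ∑ x, (V x : ℝ) * ∑ y, (V y : ℝ) * ∑ z, (V z : ℝ) * F x y z := by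
    intro F V
    unfold Cub
    simp only [mul_sum]
    exact sum_congr rfl fun x _ => sum_congr rfl fun y _ => sum_congr rfl fun z _ => by ring
  rw [e, e, Av_lin]
  refine sum_congr rfl fun x _ => ?_
  congr 1
  simp only [Av_lin]
  rw [Av_sum]
  refine sum_congr rfl fun y _ => ?_
  congr 1
  have h : ∀ a : G, Av p (fun b => ∑ z, (W z : ℝ) * Av p (fun c => F a b c) z) y
      = ∑ z, (W z : ℝ) * Av p (fun b => Av p (fun c => F a b c) z) y := by
    intro a
    exact Av_sum univ _ (fun z b => Av p (fun c => F a b c) z) y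
  have h2 : (fun a => Av p (fun b => ∑ z, (W z : ℝ) * Av p (fun c => F a b c) z) y)
      = fun a => ∑ z, (W z : ℝ) * Av p (fun b => Av p (fun c => F a b c) z) y := funext h
  show Av p (fun a => Av p (fun b => ∑ z, (W z : ℝ) * Av p (fun c => F a b c) z) y) x = _
  rw [h2]
  exact Av_sum univ _ (fun z a => Av p (fun b => Av p (fun c => F a b c) z) y) x

theorem TTn_cube_le (hw : Walk p n0) (hm : Law m s C4) (n : ℕ) (W : G → ℝ≥0) :
    (TT p m)^[n] (fun V => ENNReal.ofReal ((mass V : ℝ) ^ 3)) W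
      ≤ ENNReal.ofReal (Cub (ph p s n) W) := by
  have hs := hm.s_pos
  induction n generalizing W with
  | zero =>
    refine ENNReal.ofReal_le_ofReal (le_of_eq ?_)
    unfold Cub mass
    push_cast
    simp only [ph_zero, mul_one]
    rw [pow_three', sum_mul_sum, sum_mul]
    refine sum_congr rfl fun x _ => ?_
    rw [sum_mul_sum]
  | succ n ih =>
    rw [Function.iterate_succ_apply']
    refine (TT_mono ih W).trans ((TT_cub hm (fun x y z => ph_nonneg hw hs.le n x y z) W).trans ?_)
    rw [Cub_conv]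
    exact le_of_eq rfl


/-! ## 5. first collision -/

/-- pair at x, third replica free -/
def Sg (F : G → G → G → ℝ) (W : G → ℝ≥0) : ℝ :=
  ∑ x, (W x : ℝ) ^ 2 * ∑ z, (W z : ℝ) * F x x z

/-- all three at x -/
def Tr (F : G → G → G → ℝ) (W : G → ℝ≥0) : ℝ := ∑ x, (W x : ℝ) ^ 3 * F x x x

omit [AddCommGroup G] in
theorem Cub_w3 {F : G → G → G → ℝ} (h1 : ∀ x y z, F y x z = F x y z)
    (h2 : ∀ x y z, F x z y = F x y z) (W : G → ℝ≥0) :
    Cub (fun x y z => w3 s x y z * F x y z) W
      = Cub F W + 3 * s * Sg F W + 2 * s * Tr F W := by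
  have e1 : ∑ x, ∑ y, ∑ z, (if x = y then (W x : ℝ) * W y * W z * F x y z else 0) = Sg F W := by
    unfold Sg
    refine sum_congr rfl fun x _ => ?_
    rw [Finset.sum_eq_single x (fun y _ hy => by simp [Ne.symm hy]) (by simp), mul_sum]
    exact sum_congr rfl fun z _ => by simp; ring
  have e2 : ∑ x, ∑ y, ∑ z, (if x = z then (W x : ℝ) * W y * W z * F x y z else 0) = Sg F W := by
    unfold Sg
    refine sum_congr rfl fun x _ => ?_
    rw [mul_sum]
    refine sum_congr rfl fun y _ => ?_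
    rw [Finset.sum_eq_single x (fun z _ hz => by simp [Ne.symm hz]) (by simp), h2 x x y]
    simp; ring
  have e3 : ∑ x, ∑ y, ∑ z, (if y = z then (W x : ℝ) * W y * W z * F x y z else 0) = Sg F W := by
    unfold Sg
    rw [sum_comm]
    refine sum_congr rfl fun y _ => ?_
    rw [mul_sum]
    refine sum_congr rfl fun x _ => ?_
    rw [Finset.sum_eq_single y (fun z _ hz => by simp [Ne.symm hz]) (by simp), ← h1 x y y,
      h2 y y x]
    simp; ring
  have e4 : ∑ x, ∑ y, ∑ z, (if x = y ∧ y = z then (W x : ℝ) * W y * W z * F x y z else 0)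
      = Tr F W := by
    unfold Tr
    refine sum_congr rfl fun x _ => ?_
    rw [Finset.sum_eq_single x (fun y _ hy => by simp [Ne.symm hy]) (by simp),
      Finset.sum_eq_single x (fun z _ hz => by simp [Ne.symm hz]) (by simp)]
    simp only [and_self, if_true]; ring
  have e5 : Cub (fun x y z => w3 s x y z * F x y z) W
      = ∑ x, ∑ y, ∑ z, ((W x : ℝ) * W y * W z * F x y z
        + s * ((if x = y then (W x : ℝ) * W y * W z * F x y z else 0)
        + (if x = z then (W x : ℝ) * W y * W z * F x y z else 0)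
        + (if y = z then (W x : ℝ) * W y * W z * F x y z else 0))
        + 2 * s * (if x = y ∧ y = z then (W x : ℝ) * W y * W z * F x y z else 0)) := by
    unfold Cub
    refine sum_congr rfl fun x _ => sum_congr rfl fun y _ => sum_congr rfl fun z _ => ?_
    rw [← mul_boole (x = y) ((W x : ℝ) * W y * W z * F x y z),
      ← mul_boole (x = z) ((W x : ℝ) * W y * W z * F x y z),
      ← mul_boole (y = z) ((W x : ℝ) * W y * W z * F x y z),
      ← mul_boole (x = y ∧ y = z) ((W x : ℝ) * W y * W z * F x y z)]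
    unfold w3
    ring
  rw [e5]
  simp only [sum_add_distrib, ← mul_sum]
  rw [e1, e2, e3, e4]
  unfold Cub
  ring

/-- Duhamel formula: decomposition at the first collision. -/
theorem Cub_ph (n : ℕ) (W : G → ℝ≥0) :
    Cub (ph p s n) W = Cub (fun _ _ _ => 1) ((conv p)^[n] W)
      + ∑ j ∈ range n, (3 * s * Sg (ph p s (n - (j + 1))) ((conv p)^[j + 1] W)
        + 2 * s * Tr (ph p s (n - (j + 1))) ((conv p)^[j + 1] W)) := by
  induction n generalizing W with
  | zero => simp only [Function.iterate_zero, id, range_zero, sum_empty, add_zero]; rfl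
  | succ n ih =>
    have h : Cub (ph p s (n + 1)) W = Cub (fun x y z => w3 s x y z * ph p s n x y z) (conv p W) := by
      rw [Cub_conv]; rfl
    rw [h, Cub_w3 (fun x y z => ph_swap n x y z) (fun x y z => ph_swap' n x y z), ih,
      sum_range_succ' _ n]
    simp only [Nat.add_sub_add_right, Nat.add_sub_cancel, Function.iterate_succ_apply,
      Function.iterate_zero, id, zero_add]
    ring

/-! ## 6. the pair -/

/-- average over the difference of two replicas -/
def Pq (p : G → ℝ≥0) (f : G → ℝ) (D : G) : ℝ := ∑ e, (pk p 2 e : ℝ) * f (D + e)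

/-- the same with the weight 1 + s at a collision -/
def Bq (p : G → ℝ≥0) (s : ℝ) (f : G → ℝ) (D : G) : ℝ :=
  Pq p (fun d => (1 + s * (if d = 0 then 1 else 0)) * f d) D

theorem Pq_add (f g : G → ℝ) (D : G) : Pq p (fun d => f d + g d) D = Pq p f D + Pq p g D := by
  unfold Pq; simp only [mul_add, sum_add_distrib]

theorem Pq_smul (c : ℝ) (f : G → ℝ) (D : G) : Pq p (fun d => c * f d) D = c * Pq p f D := by
  unfold Pq; rw [mul_sum]; exact sum_congr rfl fun e _ => by ring

theorem Pq_mono {f g : G → ℝ} (h : ∀ d, f d ≤ g d) (D : G) : Pq p f D ≤ Pq p g D :=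
  sum_le_sum fun _ _ => mul_le_mul_of_nonneg_left (h _) (NNReal.coe_nonneg _)

theorem Pq_sum {ι : Type} (t : Finset ι) (c : ι → ℝ) (f : ι → G → ℝ) (D : G) :
    Pq p (fun d => ∑ i ∈ t, c i * f i d) D = ∑ i ∈ t, c i * Pq p (f i) D := by
  unfold Pq
  simp only [mul_sum]
  rw [sum_comm]
  exact sum_congr rfl fun i _ => sum_congr rfl fun y _ => by ring

theorem Bq_add (f g : G → ℝ) (D : G) :
    Bq p s (fun d => f d + g d) D = Bq p s f D + Bq p s g D := by
  unfold Bq; simp only [mul_add]; exact Pq_add _ _ _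

theorem Bq_smul (c : ℝ) (f : G → ℝ) (D : G) : Bq p s (fun d => c * f d) D = c * Bq p s f D := by
  unfold Bq; rw [← Pq_smul]; congr 1; ext d; ring

theorem Bq_sum {ι : Type} (t : Finset ι) (c : ι → ℝ) (f : ι → G → ℝ) (D : G) :
    Bq p s (fun d => ∑ i ∈ t, c i * f i d) D = ∑ i ∈ t, c i * Bq p s (f i) D := by
  unfold Bq
  rw [← Pq_sum]
  congr 1; ext d
  rw [mul_sum]
  exact sum_congr rfl fun i _ => by ring

theorem pk_one : pk p 1 = p := by
  ext x
  simp [pk, conv, Pi.single_apply]

theorem pk_two (x : G) : pk p 2 x = ∑ y, p y * p (x - y) := by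
  have h := pk_add (p := p) 1 1 x
  rw [pk_one] at h
  exact h

/-- the pair kernel -/
theorem Av_pair (hw : Walk p n0) (f : G → ℝ) (x y : G) :
    Av p (fun a => Av p (fun b => f (a - b)) y) x = Pq p f (x - y) := by
  unfold Av Pq
  have h1 : ∀ a : G, ∑ b, (p (b - y) : ℝ) * f (a - b) = ∑ b, (p b : ℝ) * f (a - y + b) := by
    intro a
    refine Fintype.sum_equiv (Equiv.subLeft y) _ _ fun b => ?_
    simp only [Equiv.subLeft_apply]
    rw [← hw.symm (y - b), neg_sub]
    congr 2; abel
  simp only [h1]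
  have h2 : ∑ a, (p (a - x) : ℝ) * ∑ b, (p b : ℝ) * f (a - y + b)
      = ∑ a, (p a : ℝ) * ∑ b, (p b : ℝ) * f (x - y + (a + b)) := by
    refine Fintype.sum_equiv (Equiv.subRight x) _ _ fun a => ?_
    simp only [Equiv.subRight_apply]
    congr 1
    refine sum_congr rfl fun b _ => ?_
    congr 2; abel
  rw [h2]
  have h3 : ∀ e : G, ((pk p 2 e : ℝ≥0) : ℝ) = ∑ a, (p a : ℝ) * (p (e - a) : ℝ) := by
    intro e; rw [pk_two]; push_cast; rfl
  simp only [h3, sum_mul, mul_sum]
  rw [sum_comm (s := (univ : Finset G)) (t := (univ : Finset G))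
    (f := fun e a => (p a : ℝ) * (p (e - a) : ℝ) * f (x - y + e))]
  refine sum_congr rfl fun a _ => ?_
  refine Fintype.sum_equiv (Equiv.addLeft a) _ _ fun b => ?_
  simp only [Equiv.coe_addLeft, add_sub_cancel_left]
  ring

theorem Pq_iter (n : ℕ) (f : G → ℝ) (D : G) :
    (Pq p)^[n] f D = ∑ e, (pk p (2 * n) e : ℝ) * f (D + e) := by
  induction n generalizing f D with
  | zero =>
    rw [Finset.sum_eq_single 0 (fun e _ he => by simp [pk, he]) (by simp)]
    simp [pk]
  | succ n ih =>
    rw [Function.iterate_succ_apply, ih]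
    unfold Pq
    have h3 : ∀ e : G, ((pk p (2 * (n + 1)) e : ℝ≥0) : ℝ)
        = ∑ a, (pk p (2 * n) a : ℝ) * (pk p 2 (e - a) : ℝ) := by
      intro e
      rw [show 2 * (n + 1) = 2 * n + 2 by ring, pk_add]
      push_cast; rfl
    simp only [h3, sum_mul, mul_sum]
    rw [sum_comm (s := (univ : Finset G)) (t := (univ : Finset G))
      (f := fun e a => (pk p (2 * n) a : ℝ) * (pk p 2 (e - a) : ℝ) * f (D + e))]
    refine sum_congr rfl fun a _ => ?_
    refine Fintype.sum_equiv (Equiv.addLeft a) _ _ fun b => ?_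
    simp only [Equiv.coe_addLeft, add_sub_cancel_left]
    rw [add_assoc]
    ring

/-- renewal formula for the pair -/
theorem Bq_iter (hw : Walk p n0) {n : ℕ} (hn : n ≤ n0) (f : G → ℝ) :
    (Bq p s)^[n] f 0 = ∑ l ∈ range (n + 1), Ut s l * (Pq p)^[n - l] f 0 := by
  induction n generalizing f with
  | zero => simp [Ut_zero]
  | succ n ih =>
    rw [Function.iterate_succ_apply, ih (by omega)]
    have hB : Bq p s f = fun D => Pq p f D + s * f 0 * (pk p 2 (-D) : ℝ) := by
      ext D
      have h : (fun d : G => (1 + s * (if d = 0 then (1:ℝ) else 0)) * f d)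
          = fun d => f d + s * f 0 * (if d = 0 then 1 else 0) := by
        ext d
        by_cases hd : d = 0
        · subst hd; simp; ring
        · simp [hd]
      unfold Bq
      rw [h, Pq_add, Pq_smul]
      congr 2
      unfold Pq
      rw [Finset.sum_eq_single (-D) (fun e _ he => ?_) (by simp)]
      · simp
      · have : D + e ≠ 0 := fun h0 => he (eq_neg_of_add_eq_zero_right h0)
        simp [this]
    have hP : ∀ l ∈ range (n + 1), Ut s l * (Pq p)^[n - l] (Bq p s f) 0
        = Ut s l * (Pq p)^[n + 1 - l] f 0 + s * (uu (n + 1 - l) * Ut s l) * f 0 := by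
      intro l hl
      have hl' := mem_range.1 hl
      have e1 : (Pq p)^[n - l] (Bq p s f) 0
          = (Pq p)^[n - l] (Pq p f) 0 + s * f 0 * (pk p (2 * (n + 1 - l)) 0 : ℝ) := by
        rw [Pq_iter, Pq_iter, hB]
        simp only [mul_add, sum_add_distrib, zero_add]
        congr 1
        rw [show 2 * (n + 1 - l) = 2 * (n - l) + 2 by omega, pk_add]
        push_cast
        rw [mul_sum]
        refine sum_congr rfl fun e _ => ?_
        rw [zero_sub]; ring
      rw [e1, hw.ret _ (by omega), ← Function.iterate_succ_apply,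
        show (n - l).succ = n + 1 - l by omega]
      ring
    rw [sum_congr rfl hP, sum_add_distrib, sum_range_succ _ (n + 1), ← sum_mul, ← mul_sum,
      ← Ut_succ]
    simp

theorem Bq_iter_one (hw : Walk p n0) {n : ℕ} (hn : n ≤ n0) :
    (Bq p s)^[n] (fun _ => 1) 0 = UU s n := by
  rw [Bq_iter hw hn]
  unfold UU
  refine sum_congr rfl fun l _ => ?_
  rw [Pq_iter]
  simp only [mul_one]
  have h := sum_pk hw (2 * (n - l))
  have h1 : ∑ e, (pk p (2 * (n - l)) e : ℝ) = 1 := by exact_mod_cast h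
  rw [h1, mul_one]


/-! ## 7. the spectator -/

/-- a collision with the spectator -/
def Kf (p : G → ℝ≥0) (s : ℝ) (n : ℕ) (d : G) : ℝ :=
  s * (ph p s n d 0 0 + ph p s n (-d) 0 0) + 2 * s * ((if d = 0 then 1 else 0) * ph p s n 0 0 0)

theorem ph_dup (n : ℕ) (x y : G) : ph p s n x y y = ph p s n (x - y) 0 0 := by
  have h := ph_shift (p := p) (s := s) n (-y) x y y
  rw [← h, add_neg_cancel, sub_eq_add_neg]

theorem spec (hw : Walk p n0) (hs : 0 ≤ s) (n : ℕ) (g : G → ℝ≥0) (h : ℕ → ℝ)
    (hh : ∀ i < n, ∀ z, (((conv p)^[i + 1] g z : ℝ≥0) : ℝ) ≤ h i) (x y : G) :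
    ∑ z, (g z : ℝ) * ph p s n x y z
      ≤ (mass g : ℝ) * (Bq p s)^[n] (fun _ => 1) (x - y)
        + ∑ i ∈ range n, h i * (Bq p s)^[i] (Pq p (Kf p s (n - (i + 1)))) (x - y) := by
  induction n generalizing g h x y with
  | zero =>
    simp only [ph_zero, mul_one, range_zero, sum_empty, add_zero, Function.iterate_zero, id]
    exact le_of_eq (by unfold mass; push_cast; rfl)
  | succ n ih =>
    have hX := fun a b => ih (conv p g) (fun i => h (i + 1)) (fun i hi z => by
      have := hh (i + 1) (by omega) z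
      rwa [Function.iterate_succ_apply] at this) a b
    set X : G → ℝ := fun d => (mass g : ℝ) * (Bq p s)^[n] (fun _ => 1) d
        + ∑ i ∈ range n, h (i + 1) * (Bq p s)^[i] (Pq p (Kf p s (n - (i + 1)))) d with hXd
    have hmass : mass (conv p g) = mass g := mass_conv hw g
    have hX' : ∀ a b, ∑ z, (conv p g z : ℝ) * ph p s n a b z ≤ X (a - b) := by
      intro a b
      have := hX a b
      rw [hmass] at this
      exact this
    -- one step
    have e1 : ∑ z, (g z : ℝ) * ph p s (n + 1) x y z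
        = Av p (fun a => Av p (fun b =>
            ∑ c, (conv p g c : ℝ) * (w3 s a b c * ph p s n a b c)) y) x := by
      simp only [ph_succ, Av_lin]
      rw [show (fun a => Av p (fun b => ∑ z, (g z : ℝ) *
            Av p (fun c => w3 s a b c * ph p s n a b c) z) y)
          = fun a => ∑ z, (g z : ℝ) * Av p (fun b =>
              Av p (fun c => w3 s a b c * ph p s n a b c) z) y from
        funext fun a => Av_sum univ _ (fun z b =>
          Av p (fun c => w3 s a b c * ph p s n a b c) z) y]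
      exact (Av_sum univ _ (fun z a => Av p (fun b =>
          Av p (fun c => w3 s a b c * ph p s n a b c) z) y) x).symm
    have e2 : ∀ a b : G, ∑ c, (conv p g c : ℝ) * (w3 s a b c * ph p s n a b c)
        ≤ (1 + s * (if a - b = 0 then 1 else 0)) * X (a - b) + h 0 * Kf p s n (a - b) := by
      intro a b
      have hsup : ∀ z, (conv p g z : ℝ) ≤ h 0 := fun z => hh 0 (by omega) z
      have e3 : ∑ c, (conv p g c : ℝ) * (w3 s a b c * ph p s n a b c)
          = (1 + s * (if a - b = 0 then 1 else 0)) * ∑ c, (conv p g c : ℝ) * ph p s n a b c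
            + (s * ((conv p g a : ℝ) * ph p s n a b a + (conv p g b : ℝ) * ph p s n a b b)
              + 2 * s * ((if a - b = 0 then 1 else 0) * ((conv p g b : ℝ) * ph p s n a b b))) := by
        have t1 : (conv p g a : ℝ) * ph p s n a b a
            = ∑ c, (if a = c then 1 else 0) * ((conv p g c : ℝ) * ph p s n a b c) := by
          simp only [ite_mul, one_mul, zero_mul, sum_ite_eq, mem_univ, if_true]
        have t2 : (conv p g b : ℝ) * ph p s n a b b
            = ∑ c, (if b = c then 1 else 0) * ((conv p g c : ℝ) * ph p s n a b c) := by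
          simp only [ite_mul, one_mul, zero_mul, sum_ite_eq, mem_univ, if_true]
        rw [t1, t2]
        simp only [mul_sum, ← sum_add_distrib, mul_add]
        refine sum_congr rfl fun c _ => ?_
        unfold w3
        by_cases hab : a = b
        · subst hab
          by_cases hac : a = c
          · subst hac; simp; ring
          · simp [hac]; ring
        · have hab' : a - b ≠ 0 := sub_ne_zero.2 hab
          simp only [hab, hab', if_false, false_and]
          ring
      rw [e3]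
      have d1 : ph p s n a b a = ph p s n (-(a - b)) 0 0 := by
        rw [← ph_swap, ph_dup, neg_sub]
      have d2 : ph p s n a b b = ph p s n (a - b) 0 0 := ph_dup n a b
      have hn := fun x y z => ph_nonneg (p := p) hw hs n x y z
      have f1 : (1 + s * (if a - b = 0 then 1 else 0)) * ∑ c, (conv p g c : ℝ) * ph p s n a b c
          ≤ (1 + s * (if a - b = 0 then 1 else 0)) * X (a - b) := by
        refine mul_le_mul_of_nonneg_left (hX' a b) ?_
        split_ifs <;> linarith
      have f2 : (conv p g a : ℝ) * ph p s n a b a ≤ h 0 * ph p s n (-(a - b)) 0 0 := by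
        rw [d1]; exact mul_le_mul_of_nonneg_right (hsup a) (hn _ _ _)
      have f3 : (conv p g b : ℝ) * ph p s n a b b ≤ h 0 * ph p s n (a - b) 0 0 := by
        rw [d2]; exact mul_le_mul_of_nonneg_right (hsup b) (hn _ _ _)
      have f4 : (if a - b = 0 then (1:ℝ) else 0) * ((conv p g b : ℝ) * ph p s n a b b)
          ≤ h 0 * ((if a - b = 0 then 1 else 0) * ph p s n 0 0 0) := by
        by_cases hab : a - b = 0
        · simp only [hab, if_true, one_mul]
          rw [d2, hab]; exact mul_le_mul_of_nonneg_right (hsup b) (hn _ _ _)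
        · simp [hab]
      unfold Kf
      have f5 := mul_le_mul_of_nonneg_left (add_le_add f2 f3) hs
      have f6 := mul_le_mul_of_nonneg_left f4 (by linarith : (0:ℝ) ≤ 2 * s)
      calc _ ≤ (1 + s * (if a - b = 0 then 1 else 0)) * X (a - b)
            + (s * (h 0 * ph p s n (-(a - b)) 0 0 + h 0 * ph p s n (a - b) 0 0)
              + 2 * s * (h 0 * ((if a - b = 0 then 1 else 0) * ph p s n 0 0 0))) := by
            linarith
        _ = _ := by ring
    rw [e1]
    refine (Av_mono (fun a => Av_mono (fun b => e2 a b) y) x).trans (le_of_eq ?_)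
    rw [Av_pair hw (fun d => (1 + s * (if d = 0 then 1 else 0)) * X d + h 0 * Kf p s n d),
      Pq_add, Pq_smul]
    have e7 : Pq p (fun d => (1 + s * (if d = 0 then 1 else 0)) * X d) (x - y)
        = Bq p s X (x - y) := rfl
    rw [e7, hXd, Bq_add, Bq_smul, Bq_sum, sum_range_succ' _ n]
    simp only [Nat.add_sub_add_right, Nat.add_sub_cancel, Function.iterate_succ_apply',
      Function.iterate_zero, id, zero_add]
    ring

/-- The chain quantity. -/
def JJ (p : G → ℝ≥0) (s : ℝ) (b r : ℕ) : ℝ := ∑ d, (pk p (2 * r) d : ℝ) * ph p s b d 0 0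

theorem JJ_nonneg (hw : Walk p n0) (hs : 0 ≤ s) (b r : ℕ) : 0 ≤ JJ p s b r :=
  sum_nonneg fun _ _ => mul_nonneg (NNReal.coe_nonneg _) (ph_nonneg hw hs _ _ _ _)

theorem JJ_zero (b : ℕ) : JJ p s b 0 = ph p s b 0 0 0 := by
  unfold JJ
  rw [Finset.sum_eq_single 0 (fun e _ he => by simp [pk, he]) (by simp)]
  simp [pk]

theorem Kf_le (hw : Walk p n0) (hs : 0 ≤ s) {k n b : ℕ} (hnb : n ≤ b) :
    (Pq p)^[k] (Pq p (Kf p s n)) 0 ≤ 4 * s * JJ p s b (k + 1) := by
  rw [← Function.iterate_succ_apply, Pq_iter]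
  simp only [zero_add]
  have h1 : ∑ e, (pk p (2 * (k + 1)) e : ℝ) * ph p s n e 0 0 ≤ JJ p s b (k + 1) :=
    sum_le_sum fun e _ => mul_le_mul_of_nonneg_left (ph_mono hw hs hnb _ _ _)
      (NNReal.coe_nonneg _)
  have h2 : ∑ e, (pk p (2 * (k + 1)) e : ℝ) * ph p s n (-e) 0 0 ≤ JJ p s b (k + 1) := by
    refine le_trans (le_of_eq ?_) h1
    refine Fintype.sum_equiv (Equiv.neg G) _ _ fun e => ?_
    simp only [Equiv.neg_apply]
    rw [pk_neg hw]
  have h3 : ∑ e, (pk p (2 * (k + 1)) e : ℝ) * ((if e = 0 then 1 else 0) * ph p s n 0 0 0)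
      ≤ JJ p s b (k + 1) := by
    refine le_trans (sum_le_sum fun e _ => ?_) h1
    refine mul_le_mul_of_nonneg_left ?_ (NNReal.coe_nonneg _)
    by_cases he : e = 0
    · subst he; simp
    · simp only [he, if_false, zero_mul]; exact ph_nonneg hw hs _ _ _ _
  unfold Kf
  have h4 : ∑ e, (pk p (2 * (k + 1)) e : ℝ) * (s * (ph p s n e 0 0 + ph p s n (-e) 0 0)
        + 2 * s * ((if e = 0 then 1 else 0) * ph p s n 0 0 0))
      = s * (∑ e, (pk p (2 * (k + 1)) e : ℝ) * ph p s n e 0 0
          + ∑ e, (pk p (2 * (k + 1)) e : ℝ) * ph p s n (-e) 0 0)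
        + 2 * s * ∑ e, (pk p (2 * (k + 1)) e : ℝ) * ((if e = 0 then 1 else 0) * ph p s n 0 0 0) := by
    simp only [mul_sum, mul_add, ← sum_add_distrib]
    exact sum_congr rfl fun e _ => by ring
  rw [Nat.succ_eq_add_one, h4]
  have h5 := mul_le_mul_of_nonneg_left (add_le_add h1 h2) hs
  have h6 := mul_le_mul_of_nonneg_left h3 (by linarith : (0:ℝ) ≤ 2 * s)
  linarith

/-- reindexing the double sum over (last pair collision, gap). -/
theorem double_sum_le (b n : ℕ) (hn : n ≤ b) (F : ℕ → ℕ → ℝ) (hF : ∀ l k, 0 ≤ F l k) :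
    ∑ i ∈ range n, ∑ l ∈ range (i + 1), F l (i - l)
      ≤ ∑ k ∈ range b, ∑ l ∈ range (b + 1), F l k := by
  rw [Finset.sum_sigma', Finset.sum_sigma']
  have hinj : Set.InjOn (fun z : (_ : ℕ) × ℕ => (⟨z.1 - z.2, z.2⟩ : (_ : ℕ) × ℕ))
      ((range n).sigma fun i => range (i + 1) : Finset ((_ : ℕ) × ℕ)) := by
    rintro ⟨i, l⟩ h ⟨i', l'⟩ h' he
    simp only [coe_sigma, Set.mem_sigma_iff, coe_range, Set.mem_Iio] at h h'
    simp only [Sigma.mk.injEq, heq_eq_eq] at he
    obtain ⟨h1, h2⟩ := he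
    subst h2
    have : i = i' := by omega
    subst this; rfl
  have h1 : ∑ z ∈ (range n).sigma (fun i => range (i + 1)), F z.2 (z.1 - z.2)
      = ∑ z ∈ ((range n).sigma (fun i => range (i + 1))).image
          (fun z : (_ : ℕ) × ℕ => (⟨z.1 - z.2, z.2⟩ : (_ : ℕ) × ℕ)), F z.2 z.1 := by
    rw [sum_image hinj]
  rw [h1]
  refine sum_le_sum_of_subset_of_nonneg ?_ (fun z _ _ => hF _ _)
  intro z hz
  simp only [mem_image, mem_sigma, mem_range] at hz
  obtain ⟨w, ⟨hw1, hw2⟩, rfl⟩ := hz
  simp only [mem_sigma, mem_range]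
  omega

/-- pair at x, spectator with a bounded density. -/
theorem spec_bound (hw : Walk p n0) (hs : 0 ≤ s) {b n τ : ℕ} (hn : n ≤ b) (hb : b ≤ n0)
    (g : G → ℝ≥0)
    (hg : ∀ i < n, ∀ z, (((conv p)^[i + 1] g z : ℝ≥0) : ℝ) ≤ 1 / ((τ : ℝ) + (i + 1))) (x : G) :
    ∑ z, (g z : ℝ) * ph p s n x x z
      ≤ (mass g : ℝ) * UU s n
        + 4 * ∑ k ∈ range b, SS s b (τ + (k + 1)) * JJ p s b (k + 1) := by
  have hU : ∀ l, 0 ≤ Ut s l := Ut_nonneg hs
  refine (spec hw hs n g (fun i => 1 / ((τ : ℝ) + (i + 1))) hg x x).trans ?_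
  rw [sub_self, Bq_iter_one hw (hn.trans hb)]
  refine add_le_add_right ?_ _
  have h1 : ∀ i ∈ range n, 1 / ((τ : ℝ) + (i + 1)) * (Bq p s)^[i] (Pq p (Kf p s (n - (i + 1)))) 0
      ≤ ∑ l ∈ range (i + 1), 4 * (s * (Ut s l / ((τ : ℝ) + ((i - l : ℕ) + 1) + l))
          * JJ p s b (i - l + 1)) := by
    intro i hi
    have hi' := mem_range.1 hi
    rw [Bq_iter hw (by omega), mul_sum]
    refine sum_le_sum fun l hl => ?_
    have hl' : l ≤ i := by have := mem_range.1 hl; omega
    have h2 := Kf_le (p := p) hw hs (k := i - l) (n := n - (i + 1)) (b := b) (by omega)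
    have h3 : ((i - l : ℕ) : ℝ) = (i : ℝ) - l := by push_cast [Nat.cast_sub hl']; ring
    have h4 : (τ : ℝ) + ((i - l : ℕ) + 1) + l = (τ : ℝ) + (i + 1) := by rw [h3]; ring
    rw [h4]
    have h5 : (0:ℝ) ≤ 1 / ((τ : ℝ) + (i + 1)) := by positivity
    calc 1 / ((τ : ℝ) + (i + 1)) * (Ut s l * (Pq p)^[i - l] (Pq p (Kf p s (n - (i + 1)))) 0)
        ≤ 1 / ((τ : ℝ) + (i + 1)) * (Ut s l * (4 * s * JJ p s b (i - l + 1))) :=
          mul_le_mul_of_nonneg_left (mul_le_mul_of_nonneg_left h2 (hU l)) h5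
      _ = _ := by ring
  refine (sum_le_sum h1).trans ?_
  refine (double_sum_le b n hn
    (fun l k => 4 * (s * (Ut s l / ((τ : ℝ) + ((k : ℝ) + 1) + l)) * JJ p s b (k + 1)))
    (fun l k => ?_)).trans (le_of_eq ?_)
  · have := hU l
    have := JJ_nonneg (p := p) hw hs b (k + 1)
    positivity
  · rw [mul_sum]
    refine sum_congr rfl fun k _ => ?_
    unfold SS
    rw [mul_sum, sum_mul, mul_sum]


theorem conv_pk (i k : ℕ) : (conv p)^[i] (pk p k) = pk p (i + k) := by
  unfold pk
  rw [Function.iterate_add_apply]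

theorem JJ_rec (hw : Walk p n0) (hs : 0 ≤ s) {b r : ℕ} (hb : 2 * b ≤ n0) (hr : r ≤ b) :
    JJ p s b r ≤ UU s b + 4 * ∑ k ∈ range b, SS s b (2 * r + (k + 1)) * JJ p s b (k + 1) := by
  have h := spec_bound (p := p) (s := s) (n0 := n0) hw hs (b := b) (n := b) (τ := 2 * r) le_rfl
    (by omega) (pk p (2 * r)) (fun i hi z => by
      rw [conv_pk]
      refine (pk_le_inv hw (by omega) (by omega) z).trans (le_of_eq ?_)
      push_cast; ring_nf) 0
  have h1 : ∑ z, (pk p (2 * r) z : ℝ) * ph p s b 0 0 z = JJ p s b r := by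
    unfold JJ
    refine sum_congr rfl fun z _ => ?_
    rw [← ph_swap', ← ph_swap]
  have h2 : (mass (pk p (2 * r)) : ℝ) = 1 := by
    unfold mass
    exact_mod_cast sum_pk hw (2 * r)
  rw [h1, h2, one_mul] at h
  refine h.trans (le_of_eq ?_)
  push_cast
  rfl

theorem Cub_one (V : G → ℝ≥0) : Cub (fun _ _ _ => 1) V = (mass V : ℝ) ^ 3 := by
  unfold Cub mass
  push_cast
  simp only [mul_one]
  rw [pow_three', sum_mul_sum, sum_mul]
  refine (sum_congr rfl fun x _ => ?_).symm
  rw [sum_mul_sum]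

theorem third_aux {A : ℕ} {C0 : ℝ} (hC0 : 0 < C0) (hw : Walk p n0) (hm : Law m s C4) {t b : ℕ}
    (ht : 1 ≤ t) (htb : t ≤ b) (hb : 2 * b ≤ n0) (hρ : 100 ≤ rho s b)
    (hch0 : JJ p s b 0 ≤ 2 * UU s b * (rho s 0 / rho s b) ^ A)
    (hch1 : 4 * ∑ k ∈ range b, SS s b (t + (k + 1)) * JJ p s b (k + 1)
      ≤ C0 * UU s b * ((rho s t - rho s b) / rho s b + 1 / rho s b))
    {W : G → ℝ≥0} (hW : mass W = 1) :
    (TT p m)^[b] (fun V => ENNReal.ofReal ((mass V : ℝ) ^ 3)) ((conv p)^[t] W)
      ≤ ENNReal.ofReal (1 + 3 * KK p s b ((conv p)^[t] W)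
          + (12 * C0 + 16) * KK p s b ((conv p)^[t] W) * ((rho s t - rho s b) / rho s b
            + 1 / rho s b + (rho s 0 / rho s b) ^ A / t)) := by
  have hs : 0 ≤ s := hm.s_pos.le
  set V := (conv p)^[t] W with hV
  have hVm : mass V = 1 := by rw [hV, mass_conv_iter hw, hW]
  refine (TTn_cube_le hw hm b V).trans (ENNReal.ofReal_le_ofReal ?_)
  rw [Cub_ph, Cub_one, mass_conv_iter hw, hVm, NNReal.coe_one, one_pow]
  set E := 4 * ∑ k ∈ range b, SS s b (t + (k + 1)) * JJ p s b (k + 1) with hE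
  set J0 := JJ p s b 0 with hJ0
  have hJ0n : 0 ≤ J0 := JJ_nonneg hw hs b 0
  have ht0 : (0:ℝ) < t := by exact_mod_cast (by omega : 0 < t)
  -- density bounds
  have hdens : ∀ i j : ℕ, i + j ≤ b → 1 ≤ i → ∀ z,
      (((conv p)^[i] ((conv p)^[j] V) z : ℝ≥0) : ℝ) ≤ 1 / ((t : ℝ) + (i : ℝ)) := by
    intro i j hij hi z
    rw [hV, ← Function.iterate_add_apply, ← Function.iterate_add_apply]
    refine (conv_iter_le hw (by omega) (by omega) W z).trans ?_
    rw [hW, NNReal.coe_one]
    refine one_div_le_one_div_of_le (by positivity) ?_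
    push_cast
    have : (0:ℝ) ≤ j := Nat.cast_nonneg j
    linarith
  have hterm : ∀ j ∈ range b, 3 * s * Sg (ph p s (b - (j + 1))) ((conv p)^[j + 1] V)
        + 2 * s * Tr (ph p s (b - (j + 1))) ((conv p)^[j + 1] V)
      ≤ 3 * (s * (aa p V (j + 1) * UU s (b - 1 - j)))
        + (3 * E + 2 * (J0 / t)) * (s * aa p V (j + 1)) := by
    intro j hj
    have hj' := mem_range.1 hj
    set Q := (conv p)^[j + 1] V with hQ
    have hQm : mass Q = 1 := by rw [hQ, mass_conv_iter hw, hVm]
    have haa : aa p V (j + 1) = ∑ x, (Q x : ℝ) ^ 2 := rfl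
    have h1 : Sg (ph p s (b - (j + 1))) Q ≤ aa p V (j + 1) * (UU s (b - 1 - j) + E) := by
      unfold Sg
      rw [haa, sum_mul]
      refine sum_le_sum fun x _ => mul_le_mul_of_nonneg_left ?_ (sq_nonneg _)
      have := spec_bound (p := p) (s := s) (n0 := n0) hw hs (b := b) (n := b - (j + 1)) (τ := t)
        (by omega) (by omega) Q (fun i hi z => by
          have := hdens (i + 1) (j + 1) (by omega) (by omega) z
          refine this.trans (le_of_eq ?_)
          push_cast; rfl) x
      rw [hQm, NNReal.coe_one, one_mul] at this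
      rw [show b - 1 - j = b - (j + 1) by omega]
      exact this
    have h2 : Tr (ph p s (b - (j + 1))) Q ≤ aa p V (j + 1) * (J0 / t) := by
      unfold Tr
      rw [haa, sum_mul]
      refine sum_le_sum fun x _ => ?_
      have h3 : ph p s (b - (j + 1)) x x x ≤ J0 := by
        rw [hJ0, JJ_zero]
        have h4 := ph_shift (p := p) (s := s) (b - (j + 1)) x 0 0 0
        rw [zero_add] at h4
        rw [h4]
        exact ph_mono hw hs (by omega) _ _ _
      have h5 : (Q x : ℝ) ≤ 1 / t := by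
        have := hdens (j + 1) 0 (by omega) (by omega) x
        simp only [Function.iterate_zero, id] at this
        refine this.trans (one_div_le_one_div_of_le ht0 ?_)
        have : (0:ℝ) ≤ ((j + 1 : ℕ) : ℝ) := Nat.cast_nonneg _
        linarith
      calc (Q x : ℝ) ^ 3 * ph p s (b - (j + 1)) x x x
          = (Q x : ℝ) ^ 2 * ((Q x : ℝ) * ph p s (b - (j + 1)) x x x) := by ring
        _ ≤ (Q x : ℝ) ^ 2 * (1 / t * J0) := by
            refine mul_le_mul_of_nonneg_left ?_ (sq_nonneg _)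
            exact mul_le_mul h5 h3 (ph_nonneg hw hs _ _ _ _) (by positivity)
        _ = _ := by ring
    have h6 := mul_le_mul_of_nonneg_left h1 (by linarith : (0:ℝ) ≤ 3 * s)
    have h7 := mul_le_mul_of_nonneg_left h2 (by linarith : (0:ℝ) ≤ 2 * s)
    linarith
  have hsum := sum_le_sum hterm
  have hR : ∑ j ∈ range b, (3 * (s * (aa p V (j + 1) * UU s (b - 1 - j)))
        + (3 * E + 2 * (J0 / t)) * (s * aa p V (j + 1)))
      = 3 * (s * ∑ j ∈ range b, aa p V (j + 1) * UU s (b - 1 - j))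
        + (3 * E + 2 * (J0 / t)) * (s * ∑ j ∈ range b, aa p V (j + 1)) := by
    rw [sum_add_distrib, ← mul_sum, ← mul_sum, ← mul_sum, ← mul_sum]
  rw [hR] at hsum
  have hK : KK p s b V = s * ∑ k ∈ range b, aa p V (k + 1) * UU s (b - 1 - k) := rfl
  rw [← hK] at hsum
  have hen := energy_le_KK hw hm.s_pos (b := b) (by omega) hρ V
  set K := KK p s b V with hKd
  set S := ∑ k ∈ range b, aa p V (k + 1) with hS
  have hKn : 0 ≤ K := KK_nonneg hs b V
  have hSn : 0 ≤ S := sum_nonneg fun k _ => aa_nonneg V _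
  have hρ0 : (0:ℝ) < rho s b := by linarith
  have hρt : rho s b ≤ rho s t := rho_anti s htb
  have hρ00 : rho s b ≤ rho s 0 := rho_anti s (Nat.zero_le b)
  set δ := (rho s t - rho s b) / rho s b + 1 / rho s b with hδ
  have hδn : 0 ≤ δ := by
    have h1 : 0 ≤ (rho s t - rho s b) / rho s b := div_nonneg (by linarith) hρ0.le
    have h2 : 0 ≤ 1 / rho s b := by positivity
    linarith
  set X := (rho s 0 / rho s b) ^ A with hX
  have hXn : 0 ≤ X := pow_nonneg (div_nonneg (by linarith) hρ0.le) _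
  have hUn : 0 ≤ UU s b := zero_le_one.trans (one_le_UU hs b)
  have k1 : (3 * E) * (s * S) ≤ 12 * C0 * K * δ := by
    calc (3 * E) * (s * S) ≤ (3 * (C0 * UU s b * δ)) * (s * S) := by
          refine mul_le_mul_of_nonneg_right ?_ (mul_nonneg hs hSn)
          linarith
      _ = 3 * C0 * δ * (s * UU s b * S) := by ring
      _ ≤ 3 * C0 * δ * (4 * K) := mul_le_mul_of_nonneg_left hen (by positivity)
      _ = _ := by ring
  have k2 : (2 * (J0 / t)) * (s * S) ≤ 16 * K * (X / t) := by
    calc (2 * (J0 / t)) * (s * S) ≤ (2 * ((2 * UU s b * X) / t)) * (s * S) := by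
          refine mul_le_mul_of_nonneg_right ?_ (mul_nonneg hs hSn)
          have := div_le_div_of_nonneg_right hch0 ht0.le
          linarith
      _ = 4 * (X / t) * (s * UU s b * S) := by ring
      _ ≤ 4 * (X / t) * (4 * K) := mul_le_mul_of_nonneg_left hen (by positivity)
      _ = _ := by ring
  have k3 : 0 ≤ 16 * K * δ := by positivity
  have k4 : 0 ≤ 12 * C0 * K * (X / t) := by positivity
  have e : (12 * C0 + 16) * K * (δ + X / t)
      = 12 * C0 * K * δ + 16 * K * (X / t) + 16 * K * δ + 12 * C0 * K * (X / t) := by ring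
  rw [e]
  have e2 : (3 * E + 2 * (J0 / t)) * (s * S) = (3 * E) * (s * S) + (2 * (J0 / t)) * (s * S) := by
    ring
  linarith

end Thr

/-- E |W_b|^3 <= 1 + 3 K + C K ((rho_t - rho_b)/rho_b + 1/rho_b + (rho_0/rho_b)^A / t),
for the start W P^t. -/
theorem third : ∃ (A : ℕ) (C ρ1 : ℝ), 1 ≤ A ∧ 0 < C ∧ 100 ≤ ρ1 ∧
    ∀ {G : Type} [Fintype G] [DecidableEq G] [AddCommGroup G] (p : G → ℝ≥0) (m : Measure ℝ≥0)
      (n0 : ℕ) (s C4 : ℝ), Walk p n0 → Law m s C4 →
      ∀ (t b : ℕ), 1 ≤ t → t ≤ b → 2 * b ≤ n0 → ρ1 ≤ rho s b →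
        (rho s t - rho s b) / rho s b ≤ 1 / A →
        ∀ W : G → ℝ≥0, mass W = 1 →
        (TT p m)^[b] (fun V => ENNReal.ofReal ((mass V : ℝ) ^ 3)) ((conv p)^[t] W)
          ≤ ENNReal.ofReal (1 + 3 * KK p s b ((conv p)^[t] W)
              + C * KK p s b ((conv p)^[t] W) * ((rho s t - rho s b) / rho s b + 1 / rho s b
                  + (rho s 0 / rho s b) ^ A / t)) := by
  obtain ⟨A, C0, ρ1, hA, hC, hρ, H⟩ := chain
  refine ⟨A, 12 * C0 + 16, ρ1, hA, by linarith, hρ, ?_⟩
  intro G _ _ _ p m n0 s C4 hw hm t b ht htb hb hρb hδ W hW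
  have hs := hm.s_pos
  obtain ⟨h1, h2⟩ := H s b hs (by omega) hρb (Thr.JJ p s b)
    (fun r => Thr.JJ_nonneg hw hs.le b r) (fun r hr => Thr.JJ_rec hw hs.le hb hr)
  exact Thr.third_aux hC hw hm ht htb hb (hρ.trans hρb) (h1 0 (Nat.zero_le b)) (h2 t ht htb hδ) hW

end Pool.A2F
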