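import Pool.Agent.A2F.Op
import Pool.Agent.A2F.Ren2

/-!
# Module Two: first and second moments
-/

set_option autoImplicit false

open MeasureTheory Finset
open scoped ENNReal NNReal

noncomputable section

namespace Pool.A2F

variable {G : Type} [Fintype G] [DecidableEq G] [AddCommGroup G]
variable {p : G → ℝ≥0} {m : Measure ℝ≥0} {n0 : ℕ} {s C4 : ℝ}

/-- one coordinate of the layer -/
theorem two_eval (hm : Law m s C4) (x : G) {f : ℝ≥0 → ℝ≥0∞} (hf : Measurable f) :
    ∫⁻ ξ, f (ξ x) ∂(Measure.pi fun _ : G => m) = ∫⁻ t, f t ∂m := by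
  have := hm.prob
  have h := (measurePreserving_eval (fun _ : G => m) x).lintegral_comp hf
  simpa [Function.eval] using h

theorem two_first (hm : Law m s C4) (x : G) :
    ∫⁻ ξ, (ξ x : ℝ≥0∞) ∂(Measure.pi fun _ : G => m) = 1 := by
  rw [two_eval hm x (f := fun t => (t : ℝ≥0∞)) (by fun_prop)]
  exact hm.m1

theorem two_second (hm : Law m s C4) (x y : G) :
    ∫⁻ ξ, (ξ x : ℝ≥0∞) * (ξ y : ℝ≥0∞) ∂(Measure.pi fun _ : G => m)
      = 1 + (if x = y then ENNReal.ofReal s else 0) := by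
  have := hm.prob
  by_cases hxy : x = y
  · subst hxy
    rw [if_pos rfl]
    have h := two_eval hm x (f := fun t => (t : ℝ≥0∞) ^ 2) (by fun_prop)
    simp only [pow_two] at h
    rw [h]
    have h2 := hm.m2
    simp only [pow_two] at h2
    rw [h2, ENNReal.ofReal_add (by norm_num) hm.s_pos.le, ENNReal.ofReal_one]
  · rw [if_neg hxy, add_zero]
    have hi := ProbabilityTheory.iIndepFun_pi (ι := G) (μ := fun _ : G => m)
      (X := fun (_ : G) (t : ℝ≥0) => (t : ℝ≥0∞)) (fun _ => by fun_prop)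
    have h2 := ProbabilityTheory.lintegral_mul_eq_lintegral_mul_lintegral_of_indepFun
      (μ := Measure.pi fun _ : G => m)
      (f := fun ξ : G → ℝ≥0 => ((ξ x : ℝ≥0) : ℝ≥0∞)) (g := fun ξ : G → ℝ≥0 => ((ξ y : ℝ≥0) : ℝ≥0∞))
      (by fun_prop) (by fun_prop) (hi.indepFun hxy)
    simp only [Pi.mul_apply] at h2
    rw [h2, two_first hm, two_first hm, one_mul]

/-- E |W_1| = |W|; more generally a linear functional of W_1. -/
theorem TT_lin (hm : Law m s C4) (c : G → ℝ≥0∞) (W : G → ℝ≥0) :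
    TT p m (fun V => ∑ x, c x * (V x : ℝ≥0∞)) W = ∑ x, c x * (conv p W x : ℝ≥0∞) := by
  have := hm.prob
  unfold TT upd
  simp only [ENNReal.coe_mul]
  rw [lintegral_finsetSum _ (fun x _ => by fun_prop)]
  refine sum_congr rfl fun x _ => ?_
  have h : ∀ ξ : G → ℝ≥0, c x * ((conv p W x : ℝ≥0∞) * (ξ x : ℝ≥0∞))
      = (c x * (conv p W x : ℝ≥0∞)) * (ξ x : ℝ≥0∞) := fun ξ => by ring
  simp only [h]
  rw [lintegral_const_mul _ (by fun_prop), two_first hm, mul_one]

theorem TTn_lin (hm : Law m s C4) (c : G → ℝ≥0∞) (n : ℕ) (W : G → ℝ≥0) :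
    (TT p m)^[n] (fun V => ∑ x, c x * (V x : ℝ≥0∞)) W
      = ∑ x, c x * ((conv p)^[n] W x : ℝ≥0∞) := by
  induction n generalizing W with
  | zero => simp
  | succ n ih =>
    rw [Function.iterate_succ_apply', Function.iterate_succ_apply]
    have h1 : (TT p m)^[n] (fun V => ∑ x, c x * (V x : ℝ≥0∞))
        = fun V => ∑ x, c x * ((conv p)^[n] V x : ℝ≥0∞) := funext fun V => ih V
    rw [h1]
    have h2 : ∀ V : G → ℝ≥0, ∑ x, c x * ((conv p)^[n] V x : ℝ≥0∞)
        = ∑ y, (∑ x, c x * (pk p n (x - y) : ℝ≥0∞)) * (V y : ℝ≥0∞) := by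
      intro V
      simp only [conv_iter_eq, ENNReal.ofNNReal_finsetSum, ENNReal.coe_mul, mul_sum, sum_mul]
      rw [sum_comm]
      refine sum_congr rfl fun y _ => sum_congr rfl fun x _ => by ring
    simp only [h2]
    exact TT_lin hm _ W

theorem TT_mass (hw : Walk p n0) (hm : Law m s C4) (W : G → ℝ≥0) :
    TT p m (fun V => (mass V : ℝ≥0∞)) W = (mass W : ℝ≥0∞) := by
  have h := TT_lin (p := p) hm (fun _ => 1) W
  simp only [one_mul] at h
  have h1 : ∀ V : G → ℝ≥0, (mass V : ℝ≥0∞) = ∑ x, (V x : ℝ≥0∞) := fun V => by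
    simp [mass, ENNReal.ofNNReal_finsetSum]
  rw [← mass_conv hw W]
  simp only [h1]
  exact h

theorem TTn_mass (hw : Walk p n0) (hm : Law m s C4) (n : ℕ) (W : G → ℝ≥0) :
    (TT p m)^[n] (fun V => (mass V : ℝ≥0∞)) W = (mass W : ℝ≥0∞) := by
  induction n generalizing W with
  | zero => simp
  | succ n ih =>
    rw [Function.iterate_succ_apply']
    have h1 : (TT p m)^[n] (fun V => (mass V : ℝ≥0∞)) = fun V => (mass V : ℝ≥0∞) :=
      funext fun V => ih V
    rw [h1]
    exact TT_mass hw hm W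

/-- quadratic functionals -/
theorem TT_quad (hm : Law m s C4) (g : G → G → ℝ≥0) (W : G → ℝ≥0) :
    TT p m (fun V => ∑ x, ∑ y, (g x y : ℝ≥0∞) * ((V x : ℝ≥0∞) * (V y : ℝ≥0∞))) W
      = ∑ x, ∑ y, (g x y : ℝ≥0∞) * ((conv p W x : ℝ≥0∞) * (conv p W y : ℝ≥0∞))
        + ENNReal.ofReal s * ∑ x, (g x x : ℝ≥0∞) * (conv p W x : ℝ≥0∞) ^ 2 := by
  have := hm.prob
  unfold TT upd
  simp only [ENNReal.coe_mul]
  rw [lintegral_finsetSum _ (fun x _ => by fun_prop)]
  have h1 : ∀ x ∈ (univ : Finset G), ∫⁻ ξ, (∑ y, (g x y : ℝ≥0∞) *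
      ((conv p W x : ℝ≥0∞) * (ξ x : ℝ≥0∞) * ((conv p W y : ℝ≥0∞) * (ξ y : ℝ≥0∞))))
        ∂(Measure.pi fun _ : G => m)
      = ∑ y, (g x y : ℝ≥0∞) * ((conv p W x : ℝ≥0∞) * (conv p W y : ℝ≥0∞))
        + ENNReal.ofReal s * ((g x x : ℝ≥0∞) * (conv p W x : ℝ≥0∞) ^ 2) := by
    intro x _
    rw [lintegral_finsetSum _ (fun x _ => by fun_prop)]
    have h2 : ∀ y ∈ (univ : Finset G), ∫⁻ ξ, ((g x y : ℝ≥0∞) *
      ((conv p W x : ℝ≥0∞) * (ξ x : ℝ≥0∞) * ((conv p W y : ℝ≥0∞) * (ξ y : ℝ≥0∞))))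
        ∂(Measure.pi fun _ : G => m)
        = (g x y : ℝ≥0∞) * ((conv p W x : ℝ≥0∞) * (conv p W y : ℝ≥0∞))
          + (if x = y then ENNReal.ofReal s * ((g x x : ℝ≥0∞) * (conv p W x : ℝ≥0∞) ^ 2)
              else 0) := by
      intro y _
      have h3 : ∀ ξ : G → ℝ≥0, (g x y : ℝ≥0∞) *
          ((conv p W x : ℝ≥0∞) * (ξ x : ℝ≥0∞) * ((conv p W y : ℝ≥0∞) * (ξ y : ℝ≥0∞)))
          = ((g x y : ℝ≥0∞) * ((conv p W x : ℝ≥0∞) * (conv p W y : ℝ≥0∞))) *
            ((ξ x : ℝ≥0∞) * (ξ y : ℝ≥0∞)) := fun ξ => by ring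
      simp only [h3]
      rw [lintegral_const_mul _ (by fun_prop), two_second hm]
      by_cases hxy : x = y
      · subst hxy
        rw [if_pos rfl, if_pos rfl]
        ring
      · rw [if_neg hxy, if_neg hxy]
        ring
    rw [sum_congr rfl h2, sum_add_distrib, sum_ite_eq, if_pos (mem_univ x)]
  rw [sum_congr rfl h1, sum_add_distrib, mul_sum]

theorem ofReal_aa_quad (hw : Walk p n0) (V : G → ℝ≥0) (k : ℕ) :
    ENNReal.ofReal (aa p V k)
      = ∑ x, ∑ y, ((pk p (2 * k) (x - y) : ℝ≥0) : ℝ≥0∞) * ((V x : ℝ≥0∞) * (V y : ℝ≥0∞)) := by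
  rw [aa_eq_quad hw]
  have h : ∑ x, ∑ y, (V x : ℝ) * (V y : ℝ) * (pk p (2 * k) (x - y) : ℝ)
      = ((∑ x, ∑ y, (pk p (2 * k) (x - y)) * (V x * V y) : ℝ≥0) : ℝ) := by
    push_cast
    refine sum_congr rfl fun x _ => sum_congr rfl fun y _ => by ring
  rw [h, ENNReal.ofReal_coe_nnreal]
  simp only [ENNReal.ofNNReal_finsetSum, ENNReal.coe_mul]

theorem TT_aa (hw : Walk p n0) (hm : Law m s C4) {k : ℕ} (hk : k ≤ n0) (W : G → ℝ≥0) :
    TT p m (fun V => ENNReal.ofReal (aa p V k)) W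
      = ENNReal.ofReal (aa p W (k + 1) + s * (uu k * aa p W 1)) := by
  have h0 : (fun V : G → ℝ≥0 => ENNReal.ofReal (aa p V k)) = fun V =>
      ∑ x, ∑ y, ((pk p (2 * k) (x - y) : ℝ≥0) : ℝ≥0∞) * ((V x : ℝ≥0∞) * (V y : ℝ≥0∞)) :=
    funext fun V => ofReal_aa_quad hw V k
  rw [h0, TT_quad hm (fun x y => pk p (2 * k) (x - y)), ← ofReal_aa_quad hw]
  have h1 : aa p (conv p W) k = aa p W (k + 1) := by
    have := aa_conv (p := p) W 1 k
    rw [Function.iterate_one, add_comm] at this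
    exact this
  have h2 : ∑ x, ((pk p (2 * k) (x - x) : ℝ≥0) : ℝ≥0∞) * (conv p W x : ℝ≥0∞) ^ 2
      = ENNReal.ofReal (uu k * aa p W 1) := by
    have h3 : uu k * aa p W 1 = ((∑ x, pk p (2 * k) 0 * (conv p W x) ^ 2 : ℝ≥0) : ℝ) := by
      rw [← hw.ret k hk]
      unfold aa sq
      push_cast
      rw [Function.iterate_one, mul_sum]
    rw [h3, ENNReal.ofReal_coe_nnreal]
    simp only [sub_self, ENNReal.ofNNReal_finsetSum, ENNReal.coe_mul, ENNReal.coe_pow]
  rw [h2, h1, ← ENNReal.ofReal_mul hm.s_pos.le, ← ENNReal.ofReal_add (aa_nonneg W _)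
    (mul_nonneg hm.s_pos.le (mul_nonneg (uu_pos k).le (aa_nonneg W 1)))]

theorem TT_sqmass (hw : Walk p n0) (hm : Law m s C4) (W : G → ℝ≥0) :
    TT p m (fun V => ENNReal.ofReal ((mass V : ℝ) ^ 2)) W
      = ENNReal.ofReal ((mass W : ℝ) ^ 2 + s * aa p W 1) := by
  have hq : ∀ V : G → ℝ≥0, ENNReal.ofReal ((mass V : ℝ) ^ 2)
      = ∑ x, ∑ y, ((1 : ℝ≥0) : ℝ≥0∞) * ((V x : ℝ≥0∞) * (V y : ℝ≥0∞)) := by
    intro V
    have h : (mass V : ℝ) ^ 2 = ((∑ x, ∑ y, 1 * (V x * V y) : ℝ≥0) : ℝ) := by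
      unfold mass
      push_cast
      rw [pow_two, sum_mul]
      refine sum_congr rfl fun x _ => ?_
      rw [mul_sum]
      refine sum_congr rfl fun y _ => by ring
    rw [h, ENNReal.ofReal_coe_nnreal]
    simp only [ENNReal.ofNNReal_finsetSum, ENNReal.coe_mul]
  have h0 : (fun V : G → ℝ≥0 => ENNReal.ofReal ((mass V : ℝ) ^ 2)) = fun V =>
      ∑ x, ∑ y, ((1 : ℝ≥0) : ℝ≥0∞) * ((V x : ℝ≥0∞) * (V y : ℝ≥0∞)) := funext hq
  rw [h0, TT_quad hm (fun _ _ => 1), ← hq, mass_conv hw]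
  have h2 : ∑ x, ((1 : ℝ≥0) : ℝ≥0∞) * (conv p W x : ℝ≥0∞) ^ 2
      = ENNReal.ofReal (aa p W 1) := by
    have h3 : aa p W 1 = ((∑ x, 1 * (conv p W x) ^ 2 : ℝ≥0) : ℝ) := by
      unfold aa sq
      push_cast
      rw [Function.iterate_one]
      simp
    rw [h3, ENNReal.ofReal_coe_nnreal]
    simp only [ENNReal.ofNNReal_finsetSum, ENNReal.coe_mul, ENNReal.coe_pow]
  rw [h2, ← ENNReal.ofReal_mul hm.s_pos.le, ← ENNReal.ofReal_add (sq_nonneg _)
    (mul_nonneg hm.s_pos.le (aa_nonneg W 1))]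

/-- T on a nonnegative combination of the a_j. -/
theorem TT_comb (hw : Walk p n0) (hm : Law m s C4) {ι : Type} (S : Finset ι) (c : ι → ℝ)
    (e : ι → ℕ) (hc : ∀ i ∈ S, 0 ≤ c i) (he : ∀ i ∈ S, e i ≤ n0) (W : G → ℝ≥0) :
    TT p m (fun V => ENNReal.ofReal (∑ i ∈ S, c i * aa p V (e i))) W
      = ENNReal.ofReal (∑ i ∈ S, c i * (aa p W (e i + 1) + s * (uu (e i) * aa p W 1))) := by
  classical
  have := hm.prob
  induction S using Finset.induction_on with
  | empty =>
    simp only [sum_empty]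
    exact TT_const _ W
  | insert a S ha ih =>
    have hc' : ∀ i ∈ S, 0 ≤ c i := fun i hi => hc i (mem_insert_of_mem hi)
    have he' : ∀ i ∈ S, e i ≤ n0 := fun i hi => he i (mem_insert_of_mem hi)
    have hca := hc a (mem_insert_self a S)
    have hea := he a (mem_insert_self a S)
    have h1 : (fun V : G → ℝ≥0 => ENNReal.ofReal (∑ i ∈ insert a S, c i * aa p V (e i)))
        = fun V => ENNReal.ofReal (c a) * ENNReal.ofReal (aa p V (e a))
          + ENNReal.ofReal (∑ i ∈ S, c i * aa p V (e i)) := by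
      funext V
      rw [sum_insert ha, ENNReal.ofReal_add (mul_nonneg hca (aa_nonneg V _))
        (sum_nonneg fun i hi => mul_nonneg (hc' i hi) (aa_nonneg V _)),
        ENNReal.ofReal_mul hca]
    rw [h1, TT_add (f := fun V => ENNReal.ofReal (c a) * ENNReal.ofReal (aa p V (e a)))
      (((measurable_aa (e a)).ennreal_ofReal).const_mul _), ih hc' he',
      TT_const_mul (f := fun V => ENNReal.ofReal (aa p V (e a)))
        ((measurable_aa (e a)).ennreal_ofReal), TT_aa hw hm hea, sum_insert ha,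
      ← ENNReal.ofReal_mul hca, ← ENNReal.ofReal_add]
    · refine mul_nonneg hca (add_nonneg (aa_nonneg W _) (mul_nonneg hm.s_pos.le
        (mul_nonneg (uu_pos _).le (aa_nonneg W 1))))
    · refine sum_nonneg fun i hi => mul_nonneg (hc' i hi) (add_nonneg (aa_nonneg W _)
        (mul_nonneg hm.s_pos.le (mul_nonneg (uu_pos _).le (aa_nonneg W 1))))

theorem VV_nonneg' {s : ℝ} (hs : 0 ≤ s) (k i : ℕ) : 0 ≤ VV s k i := by
  unfold VV
  exact sum_nonneg fun l _ => mul_nonneg (Ut_nonneg hs l) (uu_pos _).le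

/-- E a_k (W_n). -/
theorem TTn_aa (hw : Walk p n0) (hm : Law m s C4) {k n : ℕ} (hk : k + n ≤ n0) (W : G → ℝ≥0) :
    (TT p m)^[n] (fun V => ENNReal.ofReal (aa p V k)) W
      = ENNReal.ofReal (aa p W (n + k)
          + s * ∑ j ∈ range n, aa p W (j + 1) * VV s k (n - 1 - j)) := by
  have := hm.prob
  have hs := hm.s_pos.le
  induction n generalizing W with
  | zero => simp
  | succ n ih =>
    rw [Function.iterate_succ_apply']
    have h1 : (TT p m)^[n] (fun V => ENNReal.ofReal (aa p V k))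
        = fun V => ENNReal.ofReal (aa p V (n + k)) + ENNReal.ofReal
          (∑ j ∈ range n, (s * VV s k (n - 1 - j)) * aa p V (j + 1)) := by
      funext V
      rw [ih (by omega) V, ENNReal.ofReal_add (aa_nonneg V _) (mul_nonneg hs
        (sum_nonneg fun j _ => mul_nonneg (aa_nonneg V _) (VV_nonneg' hs _ _))), mul_sum]
      congr 2
      refine sum_congr rfl fun j _ => by ring
    rw [h1, TT_add (f := fun V => ENNReal.ofReal (aa p V (n + k)))
      (measurable_aa (n + k)).ennreal_ofReal, TT_aa hw hm (by omega),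
      TT_comb hw hm (range n) (fun j => s * VV s k (n - 1 - j)) (fun j => j + 1)
        (fun j _ => mul_nonneg hs (VV_nonneg' hs _ _))
        (fun j hj => by have := mem_range.1 hj; omega), ← ENNReal.ofReal_add]
    · congr 1
      rw [sum_range_succ', show n + 1 - 1 - 0 = n by omega, VV_rec s k n]
      have e1 : ∀ j ∈ range n, aa p W (j + 1 + 1) * VV s k (n + 1 - 1 - (j + 1))
          = aa p W (j + 1 + 1) * VV s k (n - 1 - j) := by
        intro j _
        rw [show n + 1 - 1 - (j + 1) = n - 1 - j by omega]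
      rw [sum_congr rfl e1]
      have e2 : ∑ j ∈ range n, s * VV s k (n - 1 - j) *
          (aa p W (j + 1 + 1) + s * (uu (j + 1) * aa p W 1))
          = s * (∑ j ∈ range n, aa p W (j + 1 + 1) * VV s k (n - 1 - j))
            + s * (aa p W 1 * (s * ∑ j ∈ range n, uu (j + 1) * VV s k (n - 1 - j))) := by
        simp only [mul_sum, ← sum_add_distrib]
        refine sum_congr rfl fun j _ => by ring
      rw [e2, show n + k + 1 = n + 1 + k by omega, add_comm n k]
      simp only [zero_add]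
      ring
    · exact add_nonneg (aa_nonneg W _) (mul_nonneg hs (mul_nonneg (uu_pos _).le (aa_nonneg W 1)))
    · exact sum_nonneg fun j _ => mul_nonneg (mul_nonneg hs (VV_nonneg' hs _ _))
        (add_nonneg (aa_nonneg W _) (mul_nonneg hs (mul_nonneg (uu_pos _).le (aa_nonneg W 1))))

/-- K (n+1) W = s a 1 + E K n (W_1). -/
theorem TT_KK (hw : Walk p n0) (hm : Law m s C4) {n : ℕ} (hn : n < n0) (W : G → ℝ≥0) :
    ENNReal.ofReal (s * aa p W 1) + TT p m (fun V => ENNReal.ofReal (KK p s n V)) W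
      = ENNReal.ofReal (KK p s (n + 1) W) := by
  have := hm.prob
  have hs := hm.s_pos.le
  have hU : ∀ i, 0 ≤ UU s i := fun i => le_trans zero_le_one (one_le_UU hs i)
  have h1 : (fun V : G → ℝ≥0 => ENNReal.ofReal (KK p s n V))
      = fun V => ENNReal.ofReal (∑ j ∈ range n, (s * UU s (n - 1 - j)) * aa p V (j + 1)) := by
    funext V
    unfold KK
    rw [mul_sum]
    congr 1
    refine sum_congr rfl fun j _ => by ring
  rw [h1, TT_comb hw hm (range n) (fun j => s * UU s (n - 1 - j)) (fun j => j + 1)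
        (fun j _ => mul_nonneg hs (hU _))
        (fun j hj => by have := mem_range.1 hj; omega), ← ENNReal.ofReal_add]
  · congr 1
    unfold KK
    rw [sum_range_succ', show n + 1 - 1 - 0 = n by omega, UU_eq s n]
    have e1 : ∀ j ∈ range n, aa p W (j + 1 + 1) * UU s (n + 1 - 1 - (j + 1))
        = aa p W (j + 1 + 1) * UU s (n - 1 - j) := by
      intro j _
      rw [show n + 1 - 1 - (j + 1) = n - 1 - j by omega]
    rw [sum_congr rfl e1]
    have e2 : ∑ j ∈ range n, s * UU s (n - 1 - j) *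
        (aa p W (j + 1 + 1) + s * (uu (j + 1) * aa p W 1))
        = s * (∑ j ∈ range n, aa p W (j + 1 + 1) * UU s (n - 1 - j))
          + s * (aa p W 1 * (s * ∑ j ∈ range n, uu (j + 1) * UU s (n - 1 - j))) := by
      simp only [mul_sum, ← sum_add_distrib]
      refine sum_congr rfl fun j _ => by ring
    rw [e2]
    simp only [zero_add]
    ring
  · exact mul_nonneg hs (aa_nonneg W 1)
  · exact sum_nonneg fun j _ => mul_nonneg (mul_nonneg hs (hU _))
      (add_nonneg (aa_nonneg W _) (mul_nonneg hs (mul_nonneg (uu_pos _).le (aa_nonneg W 1))))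

/-- one step of E [|W_1|^2 + K n (W_1)]. -/
theorem TT_sq_KK (hw : Walk p n0) (hm : Law m s C4) {n : ℕ} (hn : n < n0) (W : G → ℝ≥0) :
    TT p m (fun V => ENNReal.ofReal ((mass V : ℝ) ^ 2 + KK p s n V)) W
      = ENNReal.ofReal ((mass W : ℝ) ^ 2 + KK p s (n + 1) W) := by
  have := hm.prob
  have hs := hm.s_pos.le
  have h1 : (fun V : G → ℝ≥0 => ENNReal.ofReal ((mass V : ℝ) ^ 2 + KK p s n V))
      = fun V => ENNReal.ofReal ((mass V : ℝ) ^ 2) + ENNReal.ofReal (KK p s n V) := by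
    funext V
    rw [ENNReal.ofReal_add (sq_nonneg _) (KK_nonneg hs n V)]
  have hmeas : Measurable (fun V : G → ℝ≥0 => ENNReal.ofReal ((mass V : ℝ) ^ 2)) := by
    have := (measurable_mass (G := G))
    fun_prop
  rw [h1, TT_add (f := fun V => ENNReal.ofReal ((mass V : ℝ) ^ 2)) hmeas, TT_sqmass hw hm,
    ENNReal.ofReal_add (sq_nonneg _) (mul_nonneg hs (aa_nonneg W 1)), add_assoc,
    TT_KK hw hm hn, ← ENNReal.ofReal_add (sq_nonneg _) (KK_nonneg hs _ W)]

/-- E [|W_t|^2 + K n (W_t)] = |W|^2 + K (n+t) W. -/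
theorem TTn_KK (hw : Walk p n0) (hm : Law m s C4) {n t : ℕ} (hn : n + t ≤ n0) (W : G → ℝ≥0) :
    (TT p m)^[t] (fun V => ENNReal.ofReal ((mass V : ℝ) ^ 2 + KK p s n V)) W
      = ENNReal.ofReal ((mass W : ℝ) ^ 2 + KK p s (n + t) W) := by
  induction t generalizing W with
  | zero => simp
  | succ t ih =>
    rw [Function.iterate_succ_apply']
    have h1 : (TT p m)^[t] (fun V => ENNReal.ofReal ((mass V : ℝ) ^ 2 + KK p s n V))
        = fun V => ENNReal.ofReal ((mass V : ℝ) ^ 2 + KK p s (n + t) V) :=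
      funext fun V => ih (by omega) V
    rw [h1, TT_sq_KK hw hm (by omega)]
    rfl

/-- E |W_n|^2 = |W|^2 + K n W. -/
theorem TTn_sqmass (hw : Walk p n0) (hm : Law m s C4) {n : ℕ} (hn : n ≤ n0) (W : G → ℝ≥0) :
    (TT p m)^[n] (fun V => ENNReal.ofReal ((mass V : ℝ) ^ 2)) W
      = ENNReal.ofReal ((mass W : ℝ) ^ 2 + KK p s n W) := by
  have h := TTn_KK hw hm (n := 0) (t := n) (by omega) W
  have h0 : (fun V : G → ℝ≥0 => ENNReal.ofReal ((mass V : ℝ) ^ 2 + KK p s 0 V))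
      = fun V => ENNReal.ofReal ((mass V : ℝ) ^ 2) := by
    funext V
    simp [KK]
  rw [h0, zero_add] at h
  exact h

/-- (TR2) regularity: after time t the Riesz energy at scale t is bounded. -/
theorem TTn_Rz (hw : Walk p n0) (hm : Law m s C4) {t : ℕ} (ht1 : 1 ≤ t) (ht2 : 2 * t ≤ n0)
    (ht : 8 ≤ rho s t) (W : G → ℝ≥0) :
    (TT p m)^[t] (fun V => ENNReal.ofReal (Rz p t V)) W
      ≤ ENNReal.ofReal (11 * (mass W : ℝ) ^ 2 + 26 * KK p s t W) := by
  classical
  have := hm.prob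
  have hs := hm.s_pos.le
  have key : ∀ r : ℕ, r ≤ t →
      (TT p m)^[t] (fun V => ENNReal.ofReal
        (∑ k ∈ range r, Real.sqrt ((t : ℝ) / ((k : ℝ) + 1)) * aa p V (k + 1))) W
      = ENNReal.ofReal (∑ k ∈ range r, Real.sqrt ((t : ℝ) / ((k : ℝ) + 1)) *
        (aa p W (t + (k + 1)) + s * ∑ j ∈ range t, aa p W (j + 1) * VV s (k + 1) (t - 1 - j))) := by
    intro r hr
    induction r with
    | zero =>
      simp only [range_zero, sum_empty]
      exact TTn_const _ t W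
    | succ r ih =>
      have h1 : (fun V : G → ℝ≥0 => ENNReal.ofReal
          (∑ k ∈ range (r + 1), Real.sqrt ((t : ℝ) / ((k : ℝ) + 1)) * aa p V (k + 1)))
          = fun V => ENNReal.ofReal (Real.sqrt ((t : ℝ) / ((r : ℝ) + 1))) *
            ENNReal.ofReal (aa p V (r + 1)) + ENNReal.ofReal
            (∑ k ∈ range r, Real.sqrt ((t : ℝ) / ((k : ℝ) + 1)) * aa p V (k + 1)) := by
        funext V
        rw [sum_range_succ, add_comm, ENNReal.ofReal_add
          (mul_nonneg (Real.sqrt_nonneg _) (aa_nonneg V _))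
          (sum_nonneg fun k _ => mul_nonneg (Real.sqrt_nonneg _) (aa_nonneg V _)),
          ENNReal.ofReal_mul (Real.sqrt_nonneg _)]
      rw [h1, TTn_add (f := fun V => ENNReal.ofReal (Real.sqrt ((t : ℝ) / ((r : ℝ) + 1))) *
            ENNReal.ofReal (aa p V (r + 1)))
            (((measurable_aa (r + 1)).ennreal_ofReal).const_mul _), ih (by omega),
          TTn_const_mul (f := fun V => ENNReal.ofReal (aa p V (r + 1)))
            ((measurable_aa (r + 1)).ennreal_ofReal), TTn_aa hw hm (by omega),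
          ← ENNReal.ofReal_mul (Real.sqrt_nonneg _), ← ENNReal.ofReal_add, sum_range_succ,
          add_comm (∑ x ∈ range r, _)]
      · exact mul_nonneg (Real.sqrt_nonneg _) (add_nonneg (aa_nonneg W _) (mul_nonneg hs
          (sum_nonneg fun j _ => mul_nonneg (aa_nonneg W _) (VV_nonneg' hs _ _))))
      · exact sum_nonneg fun k _ => mul_nonneg (Real.sqrt_nonneg _) (add_nonneg (aa_nonneg W _)
          (mul_nonneg hs (sum_nonneg fun j _ => mul_nonneg (aa_nonneg W _)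
            (VV_nonneg' hs _ _))))
  have h := key t le_rfl
  unfold Rz
  rw [h]
  refine ENNReal.ofReal_le_ofReal ?_
  have h2 := riesz_sum hm.s_pos ht1 ht (fun k => aa p W k) ((mass W : ℝ) ^ 2)
    (fun k => aa_nonneg W k) (fun k _ hk => by
      rw [mul_comm]
      exact aa_le hw (by omega) W)
  exact h2

end Pool.A2F
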