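import Pool.Agent.A2F.Crude

/-!
# Module UminA: one block in the estimate of negative moments
-/

set_option autoImplicit false

open MeasureTheory Finset
open scoped ENNReal NNReal

noncomputable section

namespace Pool.A2F
namespace Um

variable {G : Type} [Fintype G] [DecidableEq G] [AddCommGroup G]
variable {p : G → ℝ≥0} {m : Measure ℝ≥0} {n0 : ℕ} {s C4 : ℝ}

omit [DecidableEq G] [AddCommGroup G] in
lemma mass_smul (c : ℝ≥0) (W : G → ℝ≥0) : mass (c • W) = c * mass W := by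
  simp [mass, mul_sum]

lemma measurable_cmass : Measurable (fun V : G → ℝ≥0 => (mass V : ℝ≥0∞)) :=
  measurable_mass.coe_nnreal_ennreal

lemma measurable_rmass : Measurable (fun V : G → ℝ≥0 => (mass V : ℝ)) :=
  measurable_mass.coe_nnreal_real

/-- Jensen for the iterated operator -/
lemma TT_rpow_le [IsProbabilityMeasure m] {f : (G → ℝ≥0) → ℝ≥0∞} (hf : Measurable f) {θ : ℝ} (h0 : 0 < θ)
    (h1 : θ ≤ 1) (W : G → ℝ≥0) : TT p m (fun V => f V ^ θ) W ≤ (TT p m f W) ^ θ := by
  unfold TT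
  have hm : Measurable (fun ξ : G → ℝ≥0 => f (upd p W ξ)) :=
    hf.comp (measurable_upd.comp (measurable_const.prodMk measurable_id))
  have h := ENNReal.lintegral_mul_norm_pow_le (μ := Measure.pi fun _ : G => m) hm.aemeasurable
    (aemeasurable_const (b := (1 : ℝ≥0∞))) h0.le (sub_nonneg.2 h1) (by ring)
  simpa using h

lemma TTn_rpow_le [IsProbabilityMeasure m] {f : (G → ℝ≥0) → ℝ≥0∞} (hf : Measurable f) {θ : ℝ} (h0 : 0 < θ)
    (h1 : θ ≤ 1) (n : ℕ) (W : G → ℝ≥0) :
    (TT p m)^[n] (fun V => f V ^ θ) W ≤ ((TT p m)^[n] f W) ^ θ := by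
  induction n generalizing f with
  | zero => exact le_rfl
  | succ n ih =>
    rw [Function.iterate_succ_apply, Function.iterate_succ_apply]
    exact (TTn_mono (fun V => TT_rpow_le hf h0 h1 V) n W).trans (ih (measurable_TT hf))

/-- smaller exponents -/
lemma TTn_nm_le [IsProbabilityMeasure m] {a a0 : ℝ} (ha : 0 < a) (h : a ≤ a0) (n : ℕ) (W : G → ℝ≥0) :
    (TT p m)^[n] (nm a) W ≤ ((TT p m)^[n] (nm a0) W) ^ (a / a0) := by
  have h0 : 0 < a0 := ha.trans_le h
  have h1 : (nm a : (G → ℝ≥0) → ℝ≥0∞) = fun V => nm a0 V ^ (a / a0) := by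
    funext V
    unfold nm
    rw [← ENNReal.rpow_mul]
    congr 1
    field_simp
  rw [h1]
  exact TTn_rpow_le (measurable_nm a0) (div_pos ha h0) ((div_le_one h0).2 h) n W

/-- Chebyshev -/
lemma cheb (hw : Walk p n0) (hm : Law m s C4) {n : ℕ} (hn : n ≤ n0) {W : G → ℝ≥0} (hW : mass W = 1) {c : ℝ≥0}
    (hc : c < 1) : (TT p m)^[n] (fun V => if mass V < c then 1 else 0) W
      ≤ ENNReal.ofReal (KK p s n W / (1 - c) ^ 2) := by
  have := hm.prob
  have hc' : (c : ℝ) < 1 := by exact_mod_cast hc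
  have hK := KK_nonneg (p := p) hm.s_pos.le n W
  set P : ℝ≥0∞ := (TT p m)^[n] (fun V => if mass V < c then 1 else 0) W with hP
  have hind : Measurable (fun V : G → ℝ≥0 => if mass V < c then (1 : ℝ≥0∞) else 0) :=
    Measurable.ite (measurableSet_lt measurable_mass measurable_const) measurable_const measurable_const
  have hsq : Measurable (fun V : G → ℝ≥0 => ENNReal.ofReal ((mass V : ℝ) ^ 2)) :=
    (measurable_rmass.pow_const 2).ennreal_ofReal
  have key : (TT p m)^[n] (fun V => ENNReal.ofReal ((1 - (c : ℝ)) ^ 2) * (if mass V < c then 1 else 0)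
      + 2 * (mass V : ℝ≥0∞)) W ≤ (TT p m)^[n] (fun V => ENNReal.ofReal ((mass V : ℝ) ^ 2) + 1) W := by
    refine TTn_mono (fun V => ?_) n W
    have e1 : (mass V : ℝ≥0∞) = ENNReal.ofReal (mass V : ℝ) := by simp
    have e2 : (1 : ℝ≥0∞) = ENNReal.ofReal 1 := by simp
    have e3 : (2 : ℝ≥0∞) = ENNReal.ofReal 2 := by simp
    by_cases h : mass V < c
    · rw [if_pos h, mul_one, e1, e2, e3, ← ENNReal.ofReal_mul (by norm_num), ← ENNReal.ofReal_add (by positivity) (by positivity),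
        ← ENNReal.ofReal_add (by positivity) (by positivity)]
      refine ENNReal.ofReal_le_ofReal ?_
      have h' : (mass V : ℝ) < c := by exact_mod_cast h
      nlinarith [(mass V).coe_nonneg]
    · rw [if_neg h, mul_zero, zero_add, e1, e2, e3, ← ENNReal.ofReal_mul (by norm_num),
        ← ENNReal.ofReal_add (by positivity) (by positivity)]
      refine ENNReal.ofReal_le_ofReal ?_
      nlinarith [sq_nonneg ((mass V : ℝ) - 1)]
  rw [TTn_add (hind.const_mul _), TTn_const_mul hind, TTn_const_mul measurable_cmass,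
    TTn_mass hw hm, TTn_add hsq, TTn_sqmass hw hm hn, TTn_const, hW, ← hP] at key
  have e2 : (1 : ℝ≥0∞) = ENNReal.ofReal 1 := by simp
  have e3 : (2 : ℝ≥0∞) = ENNReal.ofReal 2 := by simp
  have e4 : ENNReal.ofReal (((1 : ℝ≥0) : ℝ) ^ 2 + KK p s n W) + 1 = ENNReal.ofReal (KK p s n W) + 2 := by
    rw [e2, e3, ← ENNReal.ofReal_add (by positivity) (by positivity), ← ENNReal.ofReal_add hK (by norm_num)]
    congr 1
    push_cast
    ring
  rw [e4, ENNReal.coe_one, mul_one] at key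
  have key2 : ENNReal.ofReal ((1 - (c : ℝ)) ^ 2) * P ≤ ENNReal.ofReal (KK p s n W) :=
    (ENNReal.add_le_add_iff_right (by simp)).1 key
  have hpos : (0 : ℝ) < (1 - (c : ℝ)) ^ 2 := by
    have : (0 : ℝ) < 1 - c := by linarith
    positivity
  rw [ENNReal.ofReal_div_of_pos hpos, ENNReal.le_div_iff_mul_le (Or.inl (ENNReal.ofReal_pos.2 hpos).ne')
    (Or.inl ENNReal.ofReal_ne_top)]
  rwa [mul_comm]

/-- exponential lower tail -/
lemma tailQ (hw : Walk p n0) (hm : Law m s C4) {b : ℕ} (hb : 2 * b ≤ n0) {W : G → ℝ≥0} (hW : mass W = 1) {κ : ℝ}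
    (hκ : 0 < κ) (hQ : QJ p s b W ≤ κ) {η : ℝ} (h0 : 0 < η) {c : ℝ≥0} (hc : (c : ℝ) ≤ 1 - η) :
    (TT p m)^[b] (fun V => if mass V < c then 1 else 0) W
      ≤ ENNReal.ofReal (Real.exp (-(η ^ 2 / (2 * κ)))) := by
  have := hm.prob
  set u : ℝ≥0 := ⟨η / κ, by positivity⟩ with hu
  have hu' : (u : ℝ) = η / κ := rfl
  have hexp : Measurable (fun V : G → ℝ≥0 => ENNReal.ofReal (Real.exp (-(mass (u • V) : ℝ)))) := by
    refine (Real.measurable_exp.comp ?_).ennreal_ofReal
    have : (fun V : G → ℝ≥0 => -(mass (u • V) : ℝ)) = fun V => -((u : ℝ) * (mass V : ℝ)) := by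
      funext V
      rw [mass_smul]
      push_cast
      ring
    rw [this]
    exact (measurable_rmass.const_mul _).neg
  have h1 : (TT p m)^[b] (fun V => if mass V < c then 1 else 0) W ≤
      (TT p m)^[b] (fun V => ENNReal.ofReal (Real.exp (u * (1 - η))) *
        ENNReal.ofReal (Real.exp (-(mass (u • V) : ℝ)))) W := by
    refine TTn_mono (fun V => ?_) b W
    by_cases h : mass V < c
    · rw [if_pos h, ← ENNReal.ofReal_mul (Real.exp_pos _).le, ← Real.exp_add, mass_smul]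
      rw [show (1 : ℝ≥0∞) = ENNReal.ofReal 1 by simp]
      refine ENNReal.ofReal_le_ofReal (Real.one_le_exp ?_)
      have h' : (mass V : ℝ) < c := by exact_mod_cast h
      push_cast
      have := u.coe_nonneg
      nlinarith
    · rw [if_neg h]
      exact zero_le
  refine h1.trans ?_
  have h2 := janson hw hm hb (u • W)
  have h3 : (TT p m)^[b] (fun V => ENNReal.ofReal (Real.exp (-(mass (u • V) : ℝ)))) W
      = (TT p m)^[b] (fun V => ENNReal.ofReal (Real.exp (-(mass V : ℝ)))) (u • W) :=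
    (TTn_smul (p := p) (m := m) (fun V => ENNReal.ofReal (Real.exp (-(mass V : ℝ)))) u b W).symm
  rw [TTn_const_mul hexp, h3]
  refine (mul_le_mul_right h2 _).trans ?_
  rw [← ENNReal.ofReal_mul (Real.exp_pos _).le, ← Real.exp_add]
  refine ENNReal.ofReal_le_ofReal (Real.exp_le_exp.2 ?_)
  have hQ2 : QJ p s b (u • W) = (u : ℝ) ^ 2 * QJ p s b W := by
    unfold QJ
    rw [KK_smul]
    simp only [aa_smul]
    rw [← mul_sum]
    ring
  rw [hQ2, mass_smul, hW, mul_one, hu']
  have h5 : (η / κ) ^ 2 * QJ p s b W ≤ (η / κ) ^ 2 * κ := mul_le_mul_of_nonneg_left hQ (by positivity)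
  have h6 : (η / κ) ^ 2 * κ = η ^ 2 / κ := by
    field_simp
  have h7 : η / κ * (1 - η) + (-(η / κ) + η ^ 2 / κ / 2) = -(η ^ 2 / (2 * κ)) := by
    field_simp
    ring
  rw [← h7]
  linarith

/-- exit probabilities from a bound for the lower tail -/
lemma exit_of_tail (hw : Walk p n0) (hm : Law m s C4) {b : ℕ} {W : G → ℝ≥0} {η : ℝ} (h0 : 0 < η) (h1 : η ≤ 1 / 4)
    {P : ℝ} (hP : (TT p m)^[b] (fun V => if mass V < Real.toNNReal (1 - η) then 1 else 0) W ≤ ENNReal.ofReal P) :
    St p m (Real.toNNReal (1 - 2 * η)) b (fun _ => 0) (fun _ => 1) W ≤ ENNReal.ofReal (P / η) := by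
  have hc : 0 < Real.toNNReal (1 - η) := by
    rw [Real.toNNReal_pos]
    linarith
  have h := (ottaviani hw hm (x0 := Real.toNNReal (1 - 2 * η)) hc
    (Real.toNNReal_le_toNNReal (by linarith)) b W).trans hP
  rw [Real.coe_toNNReal _ (by linarith), Real.coe_toNNReal _ (by linarith)] at h
  have h3 : η ≤ 1 - (1 - 2 * η) / (1 - η) := by
    have h4 : 1 - (1 - 2 * η) / (1 - η) = η / (1 - η) := by
      have : (1 : ℝ) - η ≠ 0 := by linarith
      field_simp
      ring
    rw [h4]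
    rw [le_div_iff₀ (by linarith)]
    nlinarith
  have h5 : ENNReal.ofReal η * St p m (Real.toNNReal (1 - 2 * η)) b (fun _ => 0) (fun _ => 1) W ≤ ENNReal.ofReal P :=
    (mul_le_mul_left (ENNReal.ofReal_le_ofReal h3) _).trans h
  rw [ENNReal.ofReal_div_of_pos h0, ENNReal.le_div_iff_mul_le (Or.inl (ENNReal.ofReal_pos.2 h0).ne')
    (Or.inl ENNReal.ofReal_ne_top)]
  rwa [mul_comm]

end Um
end Pool.A2F
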