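import Pool.Agent.A2F.UminA

/-!
# Module UminB: one block
-/

set_option autoImplicit false

open MeasureTheory Finset
open scoped ENNReal NNReal

noncomputable section

namespace Pool.A2F
namespace Um

variable {G : Type} [Fintype G] [DecidableEq G] [AddCommGroup G]
variable {p : G → ℝ≥0} {m : Measure ℝ≥0} {n0 : ℕ} {s C4 : ℝ}

/-- homogeneity: a bound for probability measures -/
lemma phi_le_of_unit [IsProbabilityMeasure m] {a : ℝ} {N : ℕ} {H : ℝ≥0∞} {V : G → ℝ≥0} (h0 : mass V ≠ 0)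
    (h : (TT p m)^[N] (nm a) ((mass V)⁻¹ • V) ≤ H) : (TT p m)^[N] (nm a) V ≤ H * nm a V := by
  have h1 : V = mass V • ((mass V)⁻¹ • V) := by
    rw [smul_smul, mul_inv_cancel₀ h0, one_smul]
  have h2 := TTn_nm_smul (p := p) (m := m) a h0 N ((mass V)⁻¹ • V)
  rw [← h1] at h2
  rw [h2, mul_comm H]
  exact mul_le_mul_right h _

omit [DecidableEq G] [AddCommGroup G] in
lemma mass_unit {V : G → ℝ≥0} (h0 : mass V ≠ 0) : mass ((mass V)⁻¹ • V) = 1 := by
  rw [mass_smul, inv_mul_cancel₀ h0]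

omit [DecidableEq G] [AddCommGroup G] in
lemma nm_le_of_le {a : ℝ} (ha : 0 < a) {x0 : ℝ≥0} {V : G → ℝ≥0} (h : x0 ≤ mass V) :
    nm a V ≤ (x0 : ℝ≥0∞) ^ (-a) := by
  unfold nm
  rw [ENNReal.rpow_neg, ENNReal.rpow_neg]
  exact ENNReal.inv_le_inv.2 (ENNReal.rpow_le_rpow (by exact_mod_cast h) ha.le)

/-- the indicator of the irregular states -/
def irr (p : G → ℝ≥0) (b : ℕ) (M : ℝ) : (G → ℝ≥0) → ℝ≥0∞ :=
  fun V => if M * (mass V : ℝ) ^ 2 < Rz p b V then 1 else 0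

lemma measurable_irr (b : ℕ) (M : ℝ) : Measurable (irr p b M) :=
  Measurable.ite (measurableSet_lt ((measurable_rmass.pow_const 2).const_mul M) (measurable_Rz b))
    measurable_const measurable_const

/-- **one block** -/
lemma step (hw : Walk p n0) (hm : Law m s C4) {a : ℝ} (ha : 0 < a) (N b : ℕ) {x0 : ℝ≥0} (hx0 : 0 < x0) {M : ℝ}
    {H Cr : ℝ≥0∞} (hCr : Cr ≠ 0)
    (h1 : ∀ V, mass V = 1 → Rz p b V ≤ M → (TT p m)^[N] (nm a) V ≤ H)
    (h2 : ∀ V, mass V = 1 → (TT p m)^[N] (nm a) V ≤ Cr) {W : G → ℝ≥0} (hW : x0 ≤ mass W) :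
    (TT p m)^[N] (nm a) W ≤ H * St p m x0 b (nm a) (fun _ => 0) W
      + Cr * (x0 : ℝ≥0∞) ^ (-a) * St p m x0 b (irr p b M) (fun _ => 0) W
      + Cr * St p m x0 b (fun _ => 0) (nm a) W := by
  have := hm.prob
  have hnm : Measurable (nm a : (G → ℝ≥0) → ℝ≥0∞) := measurable_nm a
  refine (TTn_le_St (fun V => nm_le_TT hw hm ha V) x0 b N W).trans ?_
  refine (St_mono (f' := fun V => H * nm a V + Cr * (x0 : ℝ≥0∞) ^ (-a) * irr p b M V)
    (g' := fun V => Cr * nm a V) ?_ ?_ b W hW).trans ?_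
  · intro V hV
    have hV0 : mass V ≠ 0 := (hx0.trans_le hV).ne'
    unfold irr
    by_cases h : M * (mass V : ℝ) ^ 2 < Rz p b V
    · rw [if_pos h, mul_one]
      have h3 := phi_le_of_unit (p := p) (m := m) (a := a) (N := N) hV0 (h2 _ (mass_unit hV0))
      exact (h3.trans (mul_le_mul_right (nm_le_of_le ha hV) _)).trans le_add_self
    · rw [if_neg h, mul_zero, add_zero]
      refine phi_le_of_unit (p := p) (m := m) (a := a) (N := N) hV0 (h1 _ (mass_unit hV0) ?_)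
      rw [Rz_smul]
      have h4 : (0 : ℝ) < (mass V : ℝ) := by
        exact_mod_cast (hx0.trans_le hV)
      push_cast
      rw [inv_pow, inv_mul_le_iff₀ (by positivity)]
      rw [mul_comm]
      exact not_lt.1 h
  · intro V hV
    by_cases hV0 : mass V = 0
    · have : nm a V = ⊤ := by
        unfold nm
        rw [hV0, ENNReal.coe_zero, ENNReal.zero_rpow_of_neg (by linarith)]
      rw [this, ENNReal.mul_top hCr]
      exact le_top
    · exact phi_le_of_unit (p := p) (m := m) (a := a) (N := N) hV0 (h2 _ (mass_unit hV0))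
  · have e1 : St p m x0 b (fun V => H * nm a V + Cr * (x0 : ℝ≥0∞) ^ (-a) * irr p b M V) (fun V => Cr * nm a V) W
        = St p m x0 b (fun V => H * nm a V + Cr * (x0 : ℝ≥0∞) ^ (-a) * irr p b M V) (fun _ => 0) W
          + St p m x0 b (fun _ => 0) (fun V => Cr * nm a V) W :=
      St_split ((hnm.const_mul _).add ((measurable_irr b M).const_mul _)) (hnm.const_mul _) x0 b W
    have e2 := St_add (p := p) (m := m) (f := fun V => H * nm a V) (g := fun _ => 0)
      (f' := fun V => Cr * (x0 : ℝ≥0∞) ^ (-a) * irr p b M V) (g' := fun _ => 0) (hnm.const_mul _) measurable_const x0 b W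
    have e3 := St_const_mul (p := p) (m := m) (f := nm a) (g := fun _ => 0) hnm measurable_const H x0 b W
    have e4 := St_const_mul (p := p) (m := m) (f := irr p b M) (g := fun _ => 0) (measurable_irr b M) measurable_const
      (Cr * (x0 : ℝ≥0∞) ^ (-a)) x0 b W
    have e5 := St_const_mul (p := p) (m := m) (f := fun _ => 0) (g := nm a) measurable_const hnm Cr x0 b W
    simp only [mul_zero, add_zero] at e2 e3 e4 e5
    rw [e1, e2, e3, e4, e5]

/-- **one block, in numbers**; `pe` bounds the exit probability -/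
lemma step_real (hw : Walk p n0) (hm : Law m s C4) {a : ℝ} (ha : 0 < a) (ha1 : a ≤ 1) (N : ℕ) {b : ℕ} (hb1 : 1 ≤ b)
    (hb : 2 * b ≤ n0) (hρ : 8 ≤ rho s b) {C : ℝ} (hC : 0 < C)
    (hov : ∀ (x0 : ℝ≥0), 0 < x0 → ∀ (a : ℝ), 0 < a → a ≤ 4 → ∀ n ≤ n0, ∀ W : G → ℝ≥0, x0 ≤ mass W →
        St p m x0 n (fun _ => 0) (nm a) W ≤ ENNReal.ofReal ((2 / (x0 : ℝ)) ^ a) * St p m x0 n (fun _ => 0) (fun _ => 1) W
            + ENNReal.ofReal (C * Real.sqrt s * (x0 : ℝ) ^ (-(a + 2)) * KK p s n W))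
    {M : ℝ} (hM : 0 < M) {h cr : ℝ} (hh : 0 ≤ h) (hcr : 0 < cr)
    (h1 : ∀ V, mass V = 1 → Rz p b V ≤ M → (TT p m)^[N] (nm a) V ≤ ENNReal.ofReal h)
    (h2 : ∀ V, mass V = 1 → (TT p m)^[N] (nm a) V ≤ ENNReal.ofReal cr) {W : G → ℝ≥0} (hW : mass W = 1)
    {η : ℝ} (h0 : 0 < η) (hη : η ≤ 1 / 4) {pe : ℝ} (hpe : 0 ≤ pe)
    (hexit : St p m (Real.toNNReal (1 - 2 * η)) b (fun _ => 0) (fun _ => 1) W ≤ ENNReal.ofReal pe)
    {k : ℝ} (hk : KK p s b W ≤ k) (hk1 : k ≤ 1) :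
    (TT p m)^[N] (nm a) W ≤ ENNReal.ofReal (h * (1 + a * (a + 1) / 2 * (1 - 2 * η)⁻¹ ^ 3 * k)
      + cr * (300 / M + 4 * pe + 8 * C * Real.sqrt s * k)) := by
  have hprob := hm.prob
  have hs := hm.s_pos
  have hK0 := KK_nonneg (p := p) hs.le b W
  have hk0 : 0 ≤ k := hK0.trans hk
  set x0 : ℝ≥0 := Real.toNNReal (1 - 2 * η) with hx0
  have hx0r : (x0 : ℝ) = 1 - 2 * η := Real.coe_toNNReal _ (by linarith)
  have hx0h : (1 / 2 : ℝ) ≤ x0 := by rw [hx0r]; linarith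
  have hx01 : x0 ≤ 1 := by
    rw [← NNReal.coe_le_coe, hx0r]
    push_cast
    linarith
  have hx0p : 0 < x0 := by
    rw [← NNReal.coe_pos]
    linarith
  have hb0 : b ≤ n0 := by omega
  have hstep := step hw hm ha N b hx0p (M := M) (H := ENNReal.ofReal h) (Cr := ENNReal.ofReal cr)
    (ENNReal.ofReal_pos.2 hcr).ne' h1 h2 (W := W) (by rw [hW]; exact hx01)
  -- the alive part
  have hA : St p m x0 b (nm a) (fun _ => 0) W ≤ ENNReal.ofReal (1 + a * (a + 1) / 2 * (1 - 2 * η)⁻¹ ^ 3 * k) := by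
    refine (block_nm hw hm hb0 hW ha ha1 h0 hη).trans ?_
    have hone : St p m x0 b (fun _ => 1) (fun _ => 0) W ≤ 1 := by
      exact le_of_le_of_eq (le_add_right le_rfl) (St_split_one (p := p) (m := m) x0 b W)
    rw [ENNReal.ofReal_add zero_le_one (by
      have : 0 < (1 - 2 * η)⁻¹ := inv_pos.2 (by linarith)
      positivity), ENNReal.ofReal_one]
    refine add_le_add hone (ENNReal.ofReal_le_ofReal ?_)
    have : 0 < (1 - 2 * η)⁻¹ := inv_pos.2 (by linarith)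
    exact mul_le_mul_of_nonneg_left hk (by positivity)
  -- powers of x0
  have hxa : (x0 : ℝ≥0∞) ^ (-a) ≤ ENNReal.ofReal 2 := by
    have e1 : (x0 : ℝ≥0∞) = ENNReal.ofReal (x0 : ℝ) := by simp
    rw [e1, ENNReal.ofReal_rpow_of_pos (by linarith)]
    refine ENNReal.ofReal_le_ofReal ?_
    calc (x0 : ℝ) ^ (-a) ≤ (1 / 2 : ℝ) ^ (-a) :=
          Real.rpow_le_rpow_of_nonpos (by norm_num) hx0h (by linarith)
      _ ≤ (1 / 2 : ℝ) ^ (-(1 : ℝ)) := Real.rpow_le_rpow_of_exponent_ge (by norm_num) (by norm_num) (by linarith)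
      _ = 2 := by
          rw [Real.rpow_neg_one]
          norm_num
  have hxa2 : (x0 : ℝ) ^ (-(a + 2)) ≤ 8 := by
    calc (x0 : ℝ) ^ (-(a + 2)) ≤ (1 / 2 : ℝ) ^ (-(a + 2)) :=
          Real.rpow_le_rpow_of_nonpos (by norm_num) hx0h (by linarith)
      _ ≤ (1 / 2 : ℝ) ^ (-(3 : ℝ)) := Real.rpow_le_rpow_of_exponent_ge (by norm_num) (by norm_num) (by linarith)
      _ = 8 := by
          rw [Real.rpow_neg (by norm_num)]
          norm_num
  have hxa3 : (2 / (x0 : ℝ)) ^ a ≤ 4 := by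
    have h3 : 2 / (x0 : ℝ) ≤ 4 := by
      rw [div_le_iff₀ (by linarith)]
      linarith
    calc (2 / (x0 : ℝ)) ^ a ≤ (4 : ℝ) ^ a := Real.rpow_le_rpow (by positivity) h3 ha.le
      _ ≤ (4 : ℝ) ^ (1 : ℝ) := Real.rpow_le_rpow_of_exponent_le (by norm_num) ha1
      _ = 4 := by norm_num
  -- the irregular part
  have hB : St p m x0 b (irr p b M) (fun _ => 0) W ≤ ENNReal.ofReal (148 / M) := by
    refine (irregular_le hw hm hb1 hb hρ hx0p hM hW hx01).trans (ENNReal.ofReal_le_ofReal ?_)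
    have h3 : (1 / 4 : ℝ) ≤ (x0 : ℝ) ^ 2 := by nlinarith
    rw [div_le_div_iff₀ (by positivity) hM]
    nlinarith
  -- the exits
  have hD : St p m x0 b (fun _ => 0) (nm a) W ≤ ENNReal.ofReal (4 * pe + 8 * C * Real.sqrt s * k) := by
    refine (hov x0 hx0p a ha (by linarith) b hb0 W (by rw [hW]; exact hx01)).trans ?_
    rw [ENNReal.ofReal_add (by positivity) (by positivity)]
    refine add_le_add ?_ (ENNReal.ofReal_le_ofReal ?_)
    · rw [ENNReal.ofReal_mul (by norm_num)]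
      exact mul_le_mul' (ENNReal.ofReal_le_ofReal hxa3) hexit
    · have h3 : C * Real.sqrt s * (x0 : ℝ) ^ (-(a + 2)) ≤ C * Real.sqrt s * 8 :=
        mul_le_mul_of_nonneg_left hxa2 (by positivity)
      calc C * Real.sqrt s * (x0 : ℝ) ^ (-(a + 2)) * KK p s b W
          ≤ C * Real.sqrt s * 8 * k := mul_le_mul h3 hk hK0 (by positivity)
        _ = 8 * C * Real.sqrt s * k := by ring
  refine hstep.trans ?_
  have hinv : 0 < (1 - 2 * η)⁻¹ := inv_pos.2 (by linarith)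
  have e1 : ENNReal.ofReal h * St p m x0 b (nm a) (fun _ => 0) W
      ≤ ENNReal.ofReal (h * (1 + a * (a + 1) / 2 * (1 - 2 * η)⁻¹ ^ 3 * k)) := by
    rw [ENNReal.ofReal_mul hh]
    exact mul_le_mul_right hA _
  have e2 : ENNReal.ofReal cr * (x0 : ℝ≥0∞) ^ (-a) * St p m x0 b (irr p b M) (fun _ => 0) W
      ≤ ENNReal.ofReal (cr * 2 * (148 / M)) := by
    rw [ENNReal.ofReal_mul (by positivity), ENNReal.ofReal_mul hcr.le]
    exact mul_le_mul' (mul_le_mul_right hxa _) hB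
  have e3 : ENNReal.ofReal cr * St p m x0 b (fun _ => 0) (nm a) W
      ≤ ENNReal.ofReal (cr * (4 * pe + 8 * C * Real.sqrt s * k)) := by
    rw [ENNReal.ofReal_mul hcr.le]
    exact mul_le_mul_right hD _
  refine (add_le_add (add_le_add e1 e2) e3).trans ?_
  rw [← ENNReal.ofReal_add (by positivity) (by positivity), ← ENNReal.ofReal_add (by positivity) (by positivity)]
  refine ENNReal.ofReal_le_ofReal ?_
  have h5 : cr * 2 * (148 / M) ≤ cr * (300 / M) := by
    have : (0 : ℝ) ≤ cr / M := by positivity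
    have e : cr * (300 / M) - cr * 2 * (148 / M) = 4 * (cr / M) := by ring
    linarith
  nlinarith

end Um
end Pool.A2F
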