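import Pool.Agent.A2F.UminB

/-!
# Module UminC: the numbers of one block and the iteration over the blocks
-/

set_option autoImplicit false

open MeasureTheory Finset
open scoped ENNReal NNReal

noncomputable section

namespace Pool.A2F
namespace Um

variable {G : Type} [Fintype G] [DecidableEq G] [AddCommGroup G]
variable {p : G → ℝ≥0} {m : Measure ℝ≥0} {n0 : ℕ} {s C4 : ℝ}

lemma rho_sub (s : ℝ) (t b : ℕ) : rho s t - rho s b = Real.pi * (RR b - RR t) := by
  unfold rho
  ring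

lemma RR_nonneg (n : ℕ) : 0 ≤ RR n := by
  have := RR_mono (Nat.zero_le n)
  rwa [RR_zero] at this

/-- every probability measure -/
lemma KK_all {Θ cU CU : ℝ} {N : ℕ} (F : WinFacts Θ N s cU CU) (hCU : 0 < CU) (hw : Walk p (4 * N)) {W : G → ℝ≥0}
    (hW : mass W = 1) : KK p s N W ≤ CU * (1 + Real.log N) := by
  have h := KK_le hw F.s_pos (t := 0) (b := N) (Nat.zero_le _) (by omega) W
  have h1 := F.sUU_le N (by omega)
  have h2 := RR_le_log (n := N) (by have := F.N_pos; omega)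
  have h3 := RR_nonneg N
  have h4 : RR N ≤ 1 + Real.log N := by
    have : (1 : ℝ) ≤ Real.pi := by linarith [Real.pi_gt_three]
    nlinarith
  rw [range_zero, sum_empty, RR_zero, hW] at h
  have h5 : 0 ≤ s * UU s N := mul_nonneg F.s_pos.le (zero_le_one.trans (one_le_UU F.s_pos.le N))
  calc KK p s N W ≤ _ := h
    _ = s * UU s N * RR N := by
        push_cast
        ring
    _ ≤ CU * (1 + Real.log N) := mul_le_mul h1 h4 h3 hCU.le

/-- the sum of the overlaps up to scale `b` -/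
lemma sum_aa_le (hw : Walk p n0) {t b : ℕ} (htb : t ≤ b) (hb : b ≤ n0) {M : ℝ} (hM : 1 ≤ M) {W : G → ℝ≥0}
    (hW : mass W = 1) (hR : Rz p t W ≤ M) :
    Real.pi * ∑ k ∈ range b, aa p W (k + 1) ≤ 2 * Real.log (1 + M) + 5 + (rho s t - rho s b) := by
  have h1 := energy_le hw (t := t) (by omega) hM (W := W) (by rw [hW]; simpa using hR)
  rw [hW] at h1
  have h2 : ∑ k ∈ range b, aa p W (k + 1) = ∑ k ∈ range t, aa p W (k + 1) + ∑ k ∈ Ico t b, aa p W (k + 1) := by
    rw [range_eq_Ico, range_eq_Ico, sum_Ico_consecutive _ (Nat.zero_le _) htb]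
  have h3 : RR b - RR t = ∑ k ∈ Ico t b, uu (k + 1) := by
    unfold RR
    rw [sum_Ico_eq_sub _ htb]
  have h4 : ∑ k ∈ Ico t b, aa p W (k + 1) ≤ RR b - RR t := by
    rw [h3]
    refine sum_le_sum fun k hk => ?_
    have h5 := aa_le hw (k := k + 1) (by have := (mem_Ico.1 hk).2; omega) W
    rw [hW] at h5
    simpa using h5
  rw [h2, rho_sub, mul_add]
  have h6 := mul_le_mul_of_nonneg_left h4 Real.pi_pos.le
  push_cast at h1
  linarith

/-- the last bound -/
lemma KK_last {Θ cU CU : ℝ} {N : ℕ} (F : WinFacts Θ N s cU CU) (hCU : 0 < CU) (hw : Walk p (4 * N)) {t : ℕ} (ht : t ≤ N)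
    {M : ℝ} (hM : 1 ≤ M) {W : G → ℝ≥0} (hW : mass W = 1) (hR : Rz p t W ≤ M) :
    KK p s N W ≤ CU * (2 * Real.log (1 + M) + 5 + rho s t + 2 * Θ + 2) := by
  have hN3 := F.N_pos
  have h := KK_le hw F.s_pos (t := N) (b := N) le_rfl (by omega) W
  have h1 := F.sUU_le N (by omega)
  have h5 : 0 ≤ s * UU s N := mul_nonneg F.s_pos.le (zero_le_one.trans (one_le_UU F.s_pos.le N))
  have h6 := sum_aa_le (s := s) hw ht (by omega) hM hW hR
  have h7 := F.le_rho N (by omega) le_rfl
  have hN0 : (N : ℝ) ≠ 0 := by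
    have : (0 : ℝ) < N := by exact_mod_cast (by omega : 0 < N)
    exact this.ne'
  rw [div_self hN0, Real.log_one] at h7
  have hs0 : 0 ≤ ∑ k ∈ range N, aa p W (k + 1) := sum_nonneg fun k _ => aa_nonneg W _
  have h8 : ∑ k ∈ range N, aa p W (k + 1) ≤ 2 * Real.log (1 + M) + 5 + rho s t + 2 * Θ + 2 := by
    have : (1 : ℝ) ≤ Real.pi := by linarith [Real.pi_gt_three]
    nlinarith
  rw [sub_self, zero_mul, add_zero] at h
  exact h.trans (mul_le_mul h1 h8 hs0 hCU.le)

/-- the quadratic form of the Janson inequality for a regular measure -/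
lemma QJ_le (hw : Walk p n0) (hs : 0 < s) {t b : ℕ} (htb : t ≤ b) (hb : b ≤ n0) (hρ : 0 < rho s b) {M : ℝ} (hM : 1 ≤ M)
    {W : G → ℝ≥0} (hW : mass W = 1) (hR : Rz p t W ≤ M) {x : ℝ} (hx : 0 < x) (hxb : x ≤ rho s 0 - rho s b) :
    QJ p s b W ≤ (2 * Real.log (1 + M) + 5 + (rho s t - rho s b)) * (1 / rho s b + 2 / x) := by
  unfold QJ
  have h1 := KK_le_of_regular hw hs htb hb hρ hM (W := W) (by rw [hW]; simpa using hR)
  rw [hW] at h1
  have h2 := sum_aa_le (s := s) hw htb hb hM hW hR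
  rw [rho_sub, RR_zero, sub_zero] at hxb
  have hE : 0 ≤ 2 * Real.log (1 + M) + 5 + (rho s t - rho s b) := by
    have hs0 : 0 ≤ ∑ k ∈ range b, aa p W (k + 1) := sum_nonneg fun k _ => aa_nonneg W _
    have := mul_nonneg Real.pi_pos.le hs0
    linarith
  set E := 2 * Real.log (1 + M) + 5 + (rho s t - rho s b) with hEdef
  have h3 : 2 / (1 + RR b) * ∑ k ∈ range b, aa p W (k + 1) ≤ E * (2 / x) := by
    have h4 := RR_nonneg b
    have h5 : 0 < RR b := by
      by_contra h
      have : RR b = 0 := le_antisymm (not_lt.1 h) h4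
      rw [this] at hxb
      linarith
    have h6 : 2 / (1 + RR b) ≤ 2 / RR b := div_le_div_of_nonneg_left (by norm_num) h5 (by linarith)
    have hs0 : 0 ≤ ∑ k ∈ range b, aa p W (k + 1) := sum_nonneg fun k _ => aa_nonneg W _
    have h7 : 2 / RR b * ∑ k ∈ range b, aa p W (k + 1) ≤ E * (2 / x) := by
      have h8 : ∑ k ∈ range b, aa p W (k + 1) ≤ E / Real.pi := by
        rw [le_div_iff₀ Real.pi_pos]
        linarith
      have h9 : 2 / RR b ≤ 2 * Real.pi / x := by
        rw [div_le_div_iff₀ h5 hx]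
        nlinarith
      calc 2 / RR b * ∑ k ∈ range b, aa p W (k + 1) ≤ 2 * Real.pi / x * (E / Real.pi) :=
            mul_le_mul h9 h8 hs0 (by have := Real.pi_pos; positivity)
        _ = E * (2 / x) := by
            have := Real.pi_pos.ne'
            field_simp
    exact (mul_le_mul_of_nonneg_right h6 hs0).trans h7
  have h10 : KK p s b W ≤ E * (1 / rho s b) := by
    refine h1.trans (le_of_eq ?_)
    rw [hEdef]
    push_cast
    ring
  rw [mul_add]
  exact add_le_add h10 h3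

/-- **the iteration over the blocks**: levels `r0 - j D`, scales `σ j` -/
lemma blocks_iter (hw : Walk p n0) (hm : Law m s C4) {a : ℝ} (ha : 0 < a) (ha1 : a ≤ 1) (N : ℕ) {C : ℝ} (hC : 0 < C)
    (hov : ∀ (x0 : ℝ≥0), 0 < x0 → ∀ (a : ℝ), 0 < a → a ≤ 4 → ∀ n ≤ n0, ∀ W : G → ℝ≥0, x0 ≤ mass W →
        St p m x0 n (fun _ => 0) (nm a) W ≤ ENNReal.ofReal ((2 / (x0 : ℝ)) ^ a) * St p m x0 n (fun _ => 0) (fun _ => 1) W
            + ENNReal.ofReal (C * Real.sqrt s * (x0 : ℝ) ^ (-(a + 2)) * KK p s n W))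
    {M : ℝ} (hM : 1 ≤ M) {cr : ℝ} (hcr : 0 < cr)
    (h2 : ∀ V : G → ℝ≥0, mass V = 1 → (TT p m)^[N] (nm a) V ≤ ENNReal.ofReal cr)
    {η : ℝ} (h0 : 0 < η) (hη : η ≤ 1 / 4) {r0 D R κ : ℝ} (hD : 1 ≤ D) (hR8 : 8 ≤ R) (hκ : 0 < κ) {n : ℕ} {σ : ℕ → ℕ}
    (hσ : ∀ j ≤ n, 2 * σ j ≤ n0) (hσ1 : ∀ j ≤ n, r0 - j * D ≤ rho s (σ j)) (hσ2 : ∀ j ≤ n, rho s (σ j) < r0 - j * D + 1)
    (hr : ∀ j ≤ n, R ≤ r0 - j * D) (hr0 : r0 + 1 + R ≤ rho s 0)
    (hk1 : 2 * Real.log (1 + M) + 6 + D ≤ R) (hκ' : (2 * Real.log (1 + M) + 6 + D) * (3 / R) ≤ κ)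
    {B : ℝ} (hB : 1 ≤ B) (hlast : ∀ V : G → ℝ≥0, mass V = 1 → Rz p (σ n) V ≤ M →
      (TT p m)^[N] (nm a) V ≤ ENNReal.ofReal B)
    {f : ℕ → ℝ} (hf : ∀ i, f i = a * (a + 1) / 2 * (1 - 2 * η)⁻¹ ^ 3 * ((2 * Real.log (1 + M) + 6 + D) / (r0 - (i + 1) * D))
      + cr * (300 / M + 4 * (1 / η * Real.exp (-(η ^ 2 / (2 * κ))))
        + 8 * C * Real.sqrt s * ((2 * Real.log (1 + M) + 6 + D) / (r0 - (i + 1) * D)))) :
    ∀ d ≤ n, ∀ V : G → ℝ≥0, mass V = 1 → Rz p (σ (n - d)) V ≤ M →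
      (TT p m)^[N] (nm a) V ≤ ENNReal.ofReal (B * Real.exp (∑ i ∈ Ico (n - d) n, f i)) := by
  have hs := hm.s_pos
  have hlogM : 0 ≤ Real.log (1 + M) := Real.log_nonneg (by linarith)
  have hinv : 0 < (1 - 2 * η)⁻¹ := inv_pos.2 (by linarith)
  intro d
  induction d with
  | zero =>
    intro _ V hV hR
    simpa using hlast V hV (by simpa using hR)
  | succ d ih =>
    intro hd V hV hR
    have ih' := ih (by omega)
    set j := n - (d + 1) with hj
    have hj1 : n - d = j + 1 := by omega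
    have hjn : j + 1 ≤ n := by omega
    rw [hj1] at ih'
    have hsum : ∑ i ∈ Ico j n, f i = f j + ∑ i ∈ Ico (j + 1) n, f i := by
      rw [sum_eq_sum_Ico_succ_bot (by omega)]
    -- the two scales
    have e1 := hσ1 (j + 1) hjn
    have e2 := hσ2 (j + 1) hjn
    have e3 := hσ1 j (by omega)
    have e4 := hσ2 j (by omega)
    have e5 := hr (j + 1) hjn
    push_cast at e1 e2 e5
    have hb8 : 8 ≤ rho s (σ (j + 1)) := by linarith
    have hlt : σ j < σ (j + 1) := by
      by_contra h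
      have := rho_anti s (not_lt.1 h)
      linarith
    have hxb : R ≤ rho s 0 - rho s (σ (j + 1)) := by
      have hj0 : 0 ≤ ((j : ℝ) + 1) * D := by positivity
      linarith
    have hrj : 0 < r0 - (j + 1) * D := by linarith
    set k : ℝ := (2 * Real.log (1 + M) + 6 + D) / (r0 - (j + 1) * D) with hk
    have hk0 : 0 ≤ k := by positivity
    have hk1' : k ≤ 1 := by
      rw [hk, div_le_one hrj]
      linarith
    have hE : 2 * Real.log (1 + M) + 5 + (rho s (σ j) - rho s (σ (j + 1))) ≤ 2 * Real.log (1 + M) + 6 + D := by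
      linarith
    have hE0 : 0 ≤ 2 * Real.log (1 + M) + 5 + (rho s (σ j) - rho s (σ (j + 1))) := by
      have := rho_anti s hlt.le
      linarith
    have hK : KK p s (σ (j + 1)) V ≤ k := by
      have h := KK_le_of_regular hw hs hlt.le (by have := hσ (j + 1) hjn; omega) (by linarith) hM (W := V)
        (by rw [hV]; simpa using hR)
      rw [hV] at h
      refine h.trans ?_
      rw [hk]
      push_cast
      rw [one_pow, mul_one]
      have h' : 2 * Real.log (1 + M) + 5 + rho s (σ j) - rho s (σ (j + 1)) ≤ 2 * Real.log (1 + M) + 6 + D := by linarith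
      calc (2 * Real.log (1 + M) + 5 + rho s (σ j) - rho s (σ (j + 1))) / rho s (σ (j + 1))
          ≤ (2 * Real.log (1 + M) + 6 + D) / rho s (σ (j + 1)) := div_le_div_of_nonneg_right h' (by linarith)
        _ ≤ (2 * Real.log (1 + M) + 6 + D) / (r0 - (j + 1) * D) :=
            div_le_div_of_nonneg_left (by positivity) hrj e1
    have hQ : QJ p s (σ (j + 1)) V ≤ κ := by
      refine (QJ_le hw hs hlt.le (by have := hσ (j + 1) hjn; omega) (by linarith) hM hV hR (by linarith) hxb).trans ?_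
      refine le_trans ?_ hκ'
      refine mul_le_mul hE ?_ (by positivity) (by positivity)
      have h1 : 1 / rho s (σ (j + 1)) ≤ 1 / R := one_div_le_one_div_of_le (by linarith) (by linarith)
      have h2 : (3 : ℝ) / R = 1 / R + 2 / R := by ring
      rw [h2]
      linarith
    have hexit := exit_of_tail hw hm (b := σ (j + 1)) (W := V) h0 hη
      (tailQ hw hm (hσ (j + 1) hjn) hV hκ hQ h0 (c := Real.toNNReal (1 - η)) (by rw [Real.coe_toNNReal _ (by linarith)]))
    have hpe : Real.exp (-(η ^ 2 / (2 * κ))) / η = 1 / η * Real.exp (-(η ^ 2 / (2 * κ))) := by ring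
    rw [hpe] at hexit
    set S := ∑ i ∈ Ico (j + 1) n, f i with hS
    have hfnn : ∀ i, j + 1 ≤ i → i < n → 0 ≤ f i := by
      intro i _ hi
      have h5 := hr (i + 1) (by omega)
      push_cast at h5
      rw [hf i]
      have : 0 < r0 - (i + 1) * D := by linarith
      positivity
    have hS0 : 0 ≤ S := sum_nonneg fun i hi => hfnn i (mem_Ico.1 hi).1 (mem_Ico.1 hi).2
    have hstep := step_real hw hm ha ha1 N (b := σ (j + 1)) (by omega) (hσ (j + 1) hjn) hb8 hC hov (by linarith : 0 < M)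
      (h := B * Real.exp S) (by positivity) hcr (fun W hW1 hW2 => ih' W hW1 hW2) h2 hV h0 hη (by positivity) hexit hK hk1'
    refine hstep.trans (ENNReal.ofReal_le_ofReal ?_)
    rw [hsum, Real.exp_add, hf j, ← hk]
    set g := a * (a + 1) / 2 * (1 - 2 * η)⁻¹ ^ 3 * k with hg
    set e := cr * (300 / M + 4 * (1 / η * Real.exp (-(η ^ 2 / (2 * κ)))) + 8 * C * Real.sqrt s * k) with he
    have hM0 : 0 < M := by linarith
    have he0 : 0 ≤ e := by positivity
    have hexp := Real.add_one_le_exp (g + e)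
    have hBS : 1 ≤ B * Real.exp S := one_le_mul_of_one_le_of_one_le hB (Real.one_le_exp hS0)
    have h6 : B * Real.exp S * (1 + g) + e ≤ B * Real.exp S * (1 + g + e) := by
      have h7 : 1 * e ≤ B * Real.exp S * e := mul_le_mul_of_nonneg_right hBS he0
      have h8 : B * Real.exp S * (1 + g + e) = B * Real.exp S * (1 + g) + B * Real.exp S * e := by ring
      linarith
    calc B * Real.exp S * (1 + g) + e ≤ B * Real.exp S * (1 + g + e) := h6
      _ ≤ B * Real.exp S * Real.exp (g + e) := mul_le_mul_of_nonneg_left (by linarith) (by positivity)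
      _ = B * (Real.exp (g + e) * Real.exp S) := by ring

end Um
end Pool.A2F
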