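import Mathlib

/-!
# Module UminD: asymptotics for the estimate of negative moments
-/

set_option autoImplicit false

open Filter Topology

noncomputable section

namespace Pool.A2F
namespace Um

/-- the exponent -/
def aL (b L : ℝ) : ℝ := b / Real.sqrt L

/-- the crude bound for all probability measures -/
def crL (b a0 q A CU L : ℝ) : ℝ := (A * (1 + CU * (1 + Real.exp L)) ^ q) ^ (aL b L / a0)

/-- the last bound -/
def BL (b a0 q A CU Θ L : ℝ) : ℝ :=
  (A * (1 + CU * (2 * Real.log (1 + Real.exp (L ^ 2)) + 5 + (2 * L ^ 12 + 1) + 2 * Θ + 2)) ^ q) ^ (aL b L / a0)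

def FL (L : ℝ) : ℝ := 2 * Real.log (1 + Real.exp (L ^ 2)) + 6 + L ^ 6

def gaL (b L : ℝ) : ℝ := aL b L * (aL b L + 1) / 2 * (1 - 2 * (1 / L))⁻¹ ^ 3

lemma ev_pow_le (k : ℕ) {c : ℝ} (hc : 0 < c) {C : ℝ} (hC : 0 < C) :
    ∀ᶠ L : ℝ in atTop, L ^ k ≤ C * Real.exp (c * L) := by
  have h := (isLittleO_pow_exp_pos_mul_atTop (k := k) hc).bound hC
  filter_upwards [h, eventually_ge_atTop (0 : ℝ)] with L hL h0
  rw [Real.norm_eq_abs, Real.norm_eq_abs, abs_of_nonneg (by positivity), abs_of_nonneg (Real.exp_pos _).le] at hL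
  exact hL

lemma tendsto_aL (b : ℝ) : Tendsto (aL b) atTop (𝓝 0) :=
  tendsto_const_nhds.div_atTop Real.tendsto_sqrt_atTop

lemma ev_aL_lt (b : ℝ) {ε : ℝ} (hε : 0 < ε) : ∀ᶠ L : ℝ in atTop, aL b L < ε :=
  (tendsto_aL b).eventually (gt_mem_nhds hε)

lemma log_one_add_exp_le {x : ℝ} (hx : 0 ≤ x) : Real.log (1 + Real.exp x) ≤ x + 1 := by
  rw [Real.log_le_iff_le_exp (by positivity), Real.exp_add]
  have h1 := Real.one_le_exp hx
  have h2 : (2 : ℝ) ≤ Real.exp 1 := by
    have := Real.add_one_le_exp (1 : ℝ)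
    linarith
  nlinarith [Real.exp_pos x]

lemma FL_le : ∀ᶠ L : ℝ in atTop, FL L ≤ L ^ 6 * (1 + 1 / L) ∧ L ^ 6 ≤ FL L := by
  filter_upwards [eventually_ge_atTop (4 : ℝ)] with L hL
  have h1 := log_one_add_exp_le (sq_nonneg L)
  have h2 : 0 ≤ Real.log (1 + Real.exp (L ^ 2)) := Real.log_nonneg (by linarith [Real.exp_pos (L ^ 2)])
  unfold FL
  constructor
  · have h3 : L ^ 6 * (1 + 1 / L) = L ^ 6 + L ^ 5 := by
      field_simp
    rw [h3]
    have h4 : L ^ 5 = L ^ 2 * L ^ 3 := by ring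
    have h5 : (64 : ℝ) ≤ L ^ 3 := by
      have : (4 : ℝ) ^ 3 ≤ L ^ 3 := pow_le_pow_left₀ (by norm_num) hL 3
      linarith
    have h6 : (16 : ℝ) ≤ L ^ 2 := by nlinarith
    nlinarith
  · linarith

lemma ev_log_le {c : ℝ} (hc : 0 ≤ c) : ∀ᶠ L : ℝ in atTop, Real.log (Real.exp L + c) ≤ L + 1 / L := by
  filter_upwards [ev_pow_le 1 one_pos (C := 1 / (c + 1)) (by positivity), eventually_ge_atTop (1 : ℝ)] with L h1 h2
  rw [Real.log_le_iff_le_exp (by positivity), Real.exp_add]
  have h3 := Real.add_one_le_exp (1 / L)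
  have h4 := Real.exp_pos L
  have h5 : c ≤ Real.exp L * (1 / L) := by
    rw [pow_one, one_mul] at h1
    have h6 : L * (c + 1) ≤ Real.exp L := by
      have := mul_le_mul_of_nonneg_right h1 (by positivity : 0 ≤ c + 1)
      rwa [mul_comm (1 / (c + 1)), mul_assoc, one_div, inv_mul_cancel₀ (by positivity), mul_one] at this
    rw [mul_one_div, le_div_iff₀ (by linarith)]
    nlinarith
  nlinarith

/-- the main term -/
lemma ev_main {b : ℝ} (hb : 0 < b) {c : ℝ} (hc : 0 ≤ c) {ε : ℝ} (hε : 0 < ε) : ∀ᶠ L : ℝ in atTop,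
    gaL b L * (FL L / L ^ 6) * Real.log (Real.exp L + c) ≤ aL b L * (aL b L + 1) / 2 * L + ε := by
  filter_upwards [FL_le, ev_log_le hc, ev_aL_lt b one_pos, ev_aL_lt b (ε := ε / 115) (by positivity),
    eventually_ge_atTop (8 : ℝ)] with L h1 h2 h3 h4 h5
  have hL : 0 < L := by linarith
  have ha : 0 < aL b L := by
    unfold aL
    positivity
  have h6 : (1 - 2 * (1 / L))⁻¹ ≤ 1 + 4 / L := by
    have h7 : 2 * (1 / L) ≤ 1 / 4 := by
      rw [mul_one_div, div_le_div_iff₀ hL (by norm_num)]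
      linarith
    rw [inv_le_comm₀ (by linarith) (by positivity), inv_le_iff_one_le_mul₀ (by positivity)]
    have e : (1 - 2 * (1 / L)) * (1 + 4 / L) = 1 + (2 / L) * (1 - 4 / L) := by
      field_simp
      ring
    rw [e]
    have : 0 ≤ 1 - 4 / L := by
      rw [sub_nonneg, div_le_one hL]
      linarith
    have : 0 ≤ 2 / L * (1 - 4 / L) := by positivity
    linarith
  have h6' : 0 < (1 - 2 * (1 / L))⁻¹ := by
    have h7 : 2 * (1 / L) ≤ 1 / 4 := by
      rw [mul_one_div, div_le_div_iff₀ hL (by norm_num)]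
      linarith
    exact inv_pos.2 (by linarith)
  set y := 1 / L with hy
  have hy0 : 0 < y := by positivity
  have hy1 : y ≤ 1 / 8 := by
    rw [hy]
    exact one_div_le_one_div_of_le (by norm_num) h5
  have hyL : y * L = 1 := by
    rw [hy]
    field_simp
  have h7 : (1 - 2 * y)⁻¹ ^ 3 ≤ (1 + 4 * y) ^ 3 := by
    refine pow_le_pow_left₀ h6'.le (h6.trans (le_of_eq ?_)) 3
    rw [hy]
    ring
  have h8 : (1 + 4 * y) ^ 3 ≤ 1 + 28 * y := by
    nlinarith [mul_pos hy0 hy0, mul_pos (mul_pos hy0 hy0) hy0]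
  have h9 : FL L / L ^ 6 ≤ 1 + y := by
    rw [div_le_iff₀ (by positivity)]
    linarith [h1.1]
  have h9' : 0 ≤ FL L / L ^ 6 := div_nonneg ((by positivity : (0 : ℝ) ≤ L ^ 6).trans h1.2) (by positivity)
  have h10 : 0 ≤ Real.log (Real.exp L + c) := by
    refine Real.log_nonneg ?_
    have := Real.add_one_le_exp L
    linarith
  set g := aL b L * (aL b L + 1) / 2 with hg
  have hg0 : 0 < g := by positivity
  have hg1 : g ≤ aL b L := by
    rw [hg]
    nlinarith
  have h11 : gaL b L * (FL L / L ^ 6) * Real.log (Real.exp L + c) ≤ g * ((1 + 28 * y) * (1 + y) * (L + y)) := by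
    unfold gaL
    rw [← hg, mul_assoc, mul_assoc]
    refine mul_le_mul_of_nonneg_left ?_ hg0.le
    rw [← mul_assoc]
    refine mul_le_mul (mul_le_mul (h7.trans h8) h9 h9' (by positivity)) h2 h10 (by positivity)
  have h12 : (1 + 28 * y) * (1 + y) * (L + y) ≤ L + 115 := by
    have e : (1 + 28 * y) * (1 + y) * (L + y) = L + (29 * (y * L)) + 28 * y * (y * L) + (1 + 28 * y) * (1 + y) * y := by
      ring
    rw [e, hyL]
    nlinarith [mul_pos hy0 hy0, mul_pos (mul_pos hy0 hy0) hy0]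
  have h13 : g * 115 ≤ ε := by
    have := hg1.trans h4.le
    rw [le_div_iff₀ (by norm_num)] at this
    exact this
  calc _ ≤ g * ((1 + 28 * y) * (1 + y) * (L + y)) := h11
    _ ≤ g * (L + 115) := mul_le_mul_of_nonneg_left h12 hg0.le
    _ ≤ g * L + ε := by linarith

/-- the crude bound is at most `exp (L / 8)` -/
lemma ev_cr {b a0 q A CU : ℝ} (hb : 0 < b) (ha0 : 0 < a0) (hq : 0 < q) (hA : 1 ≤ A) (hCU : 0 < CU) :
    ∀ᶠ L : ℝ in atTop, 1 ≤ crL b a0 q A CU L ∧ crL b a0 q A CU L ≤ Real.exp (L / 8) := by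
  have hA0 : 0 < A := by linarith
  have h1 : ∀ᶠ L : ℝ in atTop, 1 + CU * (1 + Real.exp L) ≤ Real.exp (2 * L) := by
    filter_upwards [ev_pow_le 1 one_pos (C := 1 / (1 + 2 * CU)) (by positivity), eventually_ge_atTop (1 : ℝ)] with L h1 h2
    have h3 := Real.exp_pos L
    have h4 := Real.one_le_exp (by linarith : 0 ≤ L)
    have h5 : 1 + 2 * CU ≤ Real.exp L := by
      rw [pow_one, one_mul] at h1
      have h6 := mul_le_mul_of_nonneg_right h1 (by positivity : 0 ≤ 1 + 2 * CU)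
      rw [mul_comm (1 / (1 + 2 * CU)), mul_assoc, one_div, inv_mul_cancel₀ (by positivity), mul_one] at h6
      nlinarith
    have h6 : Real.exp (2 * L) = Real.exp L * Real.exp L := by
      rw [← Real.exp_add]
      ring_nf
    rw [h6]
    nlinarith
  have h2 : Tendsto (fun L : ℝ => Real.sqrt L) atTop atTop := Real.tendsto_sqrt_atTop
  filter_upwards [h1, eventually_ge_atTop (1 : ℝ), h2.eventually_ge_atTop (8 * (b / a0 * (Real.log A + q * 2)))] with
    L h1 h3 h4
  have hL0 : 0 < L := by linarith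
  have hs0 : 0 < Real.sqrt L := Real.sqrt_pos.2 hL0
  have ha : 0 < aL b L := div_pos hb hs0
  have h5 : (1 : ℝ) ≤ 1 + CU * (1 + Real.exp L) := by
    have := Real.exp_pos L
    have : 0 < CU * (1 + Real.exp L) := by positivity
    linarith
  have h6 : 1 ≤ (1 + CU * (1 + Real.exp L)) ^ q := Real.one_le_rpow h5 hq.le
  have h7 : 1 ≤ A * (1 + CU * (1 + Real.exp L)) ^ q := one_le_mul_of_one_le_of_one_le hA h6
  unfold crL
  refine ⟨Real.one_le_rpow h7 (by positivity), ?_⟩
  have h8 : A * (1 + CU * (1 + Real.exp L)) ^ q ≤ Real.exp (Real.log A + q * (2 * L)) := by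
    rw [Real.exp_add, Real.exp_log hA0]
    refine mul_le_mul_of_nonneg_left ?_ hA0.le
    calc (1 + CU * (1 + Real.exp L)) ^ q ≤ (Real.exp (2 * L)) ^ q := Real.rpow_le_rpow (by linarith) h1 hq.le
      _ = Real.exp (q * (2 * L)) := by rw [← Real.exp_mul]; ring_nf
  refine (Real.rpow_le_rpow (by linarith) h8 (by positivity)).trans ?_
  rw [← Real.exp_mul]
  refine Real.exp_le_exp.2 ?_
  have h9 : Real.log A + q * (2 * L) ≤ (Real.log A + q * 2) * L := by
    have := Real.log_nonneg hA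
    nlinarith
  have h10 : Real.sqrt L * Real.sqrt L = L := Real.mul_self_sqrt hL0.le
  have h11 : aL b L / a0 * Real.sqrt L = b / a0 := by
    unfold aL
    field_simp
  calc (Real.log A + q * (2 * L)) * (aL b L / a0) ≤ (Real.log A + q * 2) * L * (aL b L / a0) :=
        mul_le_mul_of_nonneg_right h9 (by positivity)
    _ = (Real.log A + q * 2) * (aL b L / a0 * Real.sqrt L) * Real.sqrt L := by
        nth_rewrite 1 [← h10]
        ring
    _ = (b / a0 * (Real.log A + q * 2)) * Real.sqrt L := by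
        rw [h11]
        ring
    _ ≤ (Real.sqrt L / 8) * Real.sqrt L := mul_le_mul_of_nonneg_right (by linarith) hs0.le
    _ = L / 8 := by
        rw [div_mul_eq_mul_div, h10]

/-- the last bound tends to one -/
lemma ev_B {b a0 q A CU Θ : ℝ} (hb : 0 < b) (ha0 : 0 < a0) (hq : 0 < q) (hA : 1 ≤ A) (hCU : 0 < CU) (hΘ : 0 ≤ Θ) {ε : ℝ}
    (hε : 0 < ε) : ∀ᶠ L : ℝ in atTop, 1 ≤ BL b a0 q A CU Θ L ∧ BL b a0 q A CU Θ L ≤ Real.exp ε := by
  have hA0 : 0 < A := by linarith
  have h2 : Tendsto (fun L : ℝ => (Real.log A + q * (13 * Real.log L)) * (aL b L / a0)) atTop (𝓝 0) := by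
    have h3 : Tendsto (fun L : ℝ => Real.log L / Real.sqrt L) atTop (𝓝 0) := by
      have h4 : Real.log =o[atTop] fun x : ℝ => Real.sqrt x := by
        have := isLittleO_log_rpow_atTop (r := 1 / 2) (by norm_num)
        refine this.congr_right fun x => ?_
        rw [Real.sqrt_eq_rpow]
      exact h4.tendsto_div_nhds_zero
    have h4 : Tendsto (fun L : ℝ => (b / a0) * Real.log A * (1 / Real.sqrt L) + (b / a0) * (q * 13) *
        (Real.log L / Real.sqrt L)) atTop (𝓝 ((b / a0) * Real.log A * 0 + (b / a0) * (q * 13) * 0)) :=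
      ((tendsto_const_nhds.div_atTop Real.tendsto_sqrt_atTop).const_mul _).add (h3.const_mul _)
    rw [mul_zero, mul_zero, add_zero] at h4
    refine h4.congr fun L => ?_
    unfold aL
    ring
  filter_upwards [h2.eventually (gt_mem_nhds hε), eventually_ge_atTop (4 : ℝ), eventually_ge_atTop (CU * (20 + 2 * Θ) + 1)]
    with L h3 h4 h5
  have hL0 : 0 < L := by linarith
  have ha : 0 < aL b L := div_pos hb (Real.sqrt_pos.2 hL0)
  have h6 := log_one_add_exp_le (sq_nonneg L)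
  have h7 : 0 ≤ Real.log (1 + Real.exp (L ^ 2)) := Real.log_nonneg (by linarith [Real.exp_pos (L ^ 2)])
  set X := 2 * Real.log (1 + Real.exp (L ^ 2)) + 5 + (2 * L ^ 12 + 1) + 2 * Θ + 2 with hX
  have hX0 : 0 < X := by positivity
  have hXL : X ≤ (20 + 2 * Θ) * L ^ 12 := by
    have h8 : L ^ 2 ≤ L ^ 12 := pow_le_pow_right₀ (by linarith) (by norm_num)
    have h9 : 1 ≤ L ^ 12 := one_le_pow₀ (by linarith)
    have h10 : 2 * Θ ≤ 2 * Θ * L ^ 12 := le_mul_of_one_le_right (by positivity) h9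
    rw [hX]
    nlinarith
  have h8 : 1 + CU * X ≤ L ^ 13 := by
    have h9 : 1 ≤ L ^ 12 := one_le_pow₀ (by linarith)
    have h10 : CU * X ≤ CU * ((20 + 2 * Θ) * L ^ 12) := mul_le_mul_of_nonneg_left hXL hCU.le
    have h11 : L ^ 13 = L * L ^ 12 := by ring
    have h12 : (CU * (20 + 2 * Θ) + 1) * L ^ 12 ≤ L * L ^ 12 := mul_le_mul_of_nonneg_right h5 (by positivity)
    nlinarith
  have h9 : (1 : ℝ) ≤ 1 + CU * X := by
    have : 0 < CU * X := by positivity
    linarith
  have h10 : 1 ≤ A * (1 + CU * X) ^ q := one_le_mul_of_one_le_of_one_le hA (Real.one_le_rpow h9 hq.le)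
  unfold BL
  rw [← hX]
  refine ⟨Real.one_le_rpow h10 (by positivity), ?_⟩
  have h11 : A * (1 + CU * X) ^ q ≤ Real.exp (Real.log A + q * (13 * Real.log L)) := by
    rw [Real.exp_add, Real.exp_log hA0]
    refine mul_le_mul_of_nonneg_left ?_ hA0.le
    calc (1 + CU * X) ^ q ≤ (L ^ 13) ^ q := Real.rpow_le_rpow (by linarith) h8 hq.le
      _ = Real.exp (q * (13 * Real.log L)) := by
          rw [← Real.rpow_natCast, ← Real.rpow_mul hL0.le, Real.rpow_def_of_pos hL0]
          congr 1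
          push_cast
          ring
  refine (Real.rpow_le_rpow (by linarith) h11 (by positivity)).trans ?_
  rw [← Real.exp_mul]
  exact Real.exp_le_exp.2 h3.le

/-- the exponentially small errors -/
lemma ev_small : ∀ᶠ L : ℝ in atTop, 300 / Real.exp (L ^ 2)
    + 4 * (1 / (1 / L) * Real.exp (-((1 / L) ^ 2 / (2 * (6 / L ^ 6))))) ≤ Real.exp (-2 * L) := by
  filter_upwards [ev_pow_le 1 one_pos (C := 1 / 8) (by norm_num), ev_pow_le 0 one_pos (C := 1 / 600) (by norm_num),
    eventually_ge_atTop (8 : ℝ)] with L h1 h2 h3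
  have hL : 0 < L := by linarith
  rw [pow_one, one_mul] at h1
  rw [pow_zero, one_mul] at h2
  have e1 : 300 / Real.exp (L ^ 2) ≤ Real.exp (-2 * L) / 2 := by
    have h4 : Real.exp (L ^ 2) ≥ Real.exp L * Real.exp (2 * L) := by
      rw [← Real.exp_add]
      exact Real.exp_le_exp.2 (by nlinarith)
    rw [div_le_div_iff₀ (Real.exp_pos _) (by norm_num)]
    have h5 : Real.exp (-2 * L) * Real.exp (2 * L) = 1 := by
      rw [← Real.exp_add]
      simp
    have h6 : Real.exp (-2 * L) * Real.exp (L ^ 2) ≥ Real.exp (-2 * L) * (Real.exp L * Real.exp (2 * L)) :=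
      mul_le_mul_of_nonneg_left h4 (Real.exp_pos _).le
    have h7 : Real.exp (-2 * L) * (Real.exp L * Real.exp (2 * L)) = Real.exp L := by
      rw [mul_comm (Real.exp L), ← mul_assoc, h5, one_mul]
    linarith
  have e2 : (1 / L) ^ 2 / (2 * (6 / L ^ 6)) = L ^ 4 / 12 := by
    field_simp
    ring
  have e3 : 4 * (1 / (1 / L) * Real.exp (-((1 / L) ^ 2 / (2 * (6 / L ^ 6))))) ≤ Real.exp (-2 * L) / 2 := by
    rw [e2, one_div_one_div]
    have h4 : Real.exp (-(L ^ 4 / 12)) ≤ Real.exp (-2 * L) * Real.exp (-L) := by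
      rw [← Real.exp_add]
      refine Real.exp_le_exp.2 ?_
      have h5 : (64 : ℝ) ≤ L ^ 2 := by nlinarith
      have h6 : L ^ 4 = L ^ 2 * (L * L) := by ring
      nlinarith
    have h5 : Real.exp (-L) * Real.exp L = 1 := by
      rw [← Real.exp_add]
      simp
    have h6 := Real.exp_pos (-2 * L)
    have h7 := Real.exp_pos (-L)
    calc 4 * (L * Real.exp (-(L ^ 4 / 12))) ≤ 4 * ((1 / 8 * Real.exp L) * (Real.exp (-2 * L) * Real.exp (-L))) := by
          refine mul_le_mul_of_nonneg_left (mul_le_mul h1 h4 (Real.exp_pos _).le (by positivity)) (by norm_num)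
      _ = Real.exp (-2 * L) * (Real.exp (-L) * Real.exp L) / 2 := by ring
      _ = Real.exp (-2 * L) / 2 := by rw [h5, mul_one]
  linarith

end Um
end Pool.A2F
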