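import Pool.Agent.A2F.UminC
import Pool.Agent.A2F.UminD

/-!
# Module UminE: the first block, sums over the blocks
-/

set_option autoImplicit false

open MeasureTheory Finset
open scoped ENNReal NNReal

noncomputable section

namespace Pool.A2F
namespace Um

variable {G : Type} [Fintype G] [DecidableEq G] [AddCommGroup G]
variable {p : G → ℝ≥0} {m : Measure ℝ≥0} {n0 : ℕ} {s C4 : ℝ}

/-- the sum of `D` over the levels is a logarithm -/
lemma sum_inv_le {r0 D : ℝ} (hD : 0 < D) {n : ℕ} (h : 1 ≤ r0 - (n + 1) * D) :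
    ∑ i ∈ range n, D / (r0 - (i + 1) * D) ≤ Real.log r0 := by
  have h1 : ∀ i < n, D / (r0 - (i + 1) * D) ≤ Real.log (r0 - (i + 1) * D) - Real.log (r0 - ((i + 1 : ℕ) + 1) * D) := by
    intro i hi
    have hi' : (i : ℝ) + 1 ≤ n := by exact_mod_cast hi
    have h2 : 1 ≤ r0 - ((i : ℝ) + 1 + 1) * D := by nlinarith
    have h3 : 0 < r0 - ((i : ℝ) + 1) * D := by nlinarith
    have h4 := Real.log_le_sub_one_of_pos (x := (r0 - ((i : ℝ) + 1 + 1) * D) / (r0 - ((i : ℝ) + 1) * D)) (by positivity)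
    rw [Real.log_div (by linarith) h3.ne'] at h4
    have h5 : (r0 - ((i : ℝ) + 1 + 1) * D) / (r0 - ((i : ℝ) + 1) * D) - 1 = -(D / (r0 - ((i : ℝ) + 1) * D)) := by
      field_simp
      ring
    rw [h5] at h4
    push_cast
    linarith
  calc ∑ i ∈ range n, D / (r0 - (i + 1) * D)
      ≤ ∑ i ∈ range n, (Real.log (r0 - ((i : ℕ) + 1) * D) - Real.log (r0 - ((i + 1 : ℕ) + 1) * D)) :=
        sum_le_sum fun i hi => h1 i (mem_range.1 hi)
    _ = Real.log (r0 - ((0 : ℕ) + 1) * D) - Real.log (r0 - ((n : ℕ) + 1) * D) :=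
        sum_range_sub' (fun i : ℕ => Real.log (r0 - ((i : ℕ) + 1) * D)) n
    _ ≤ Real.log r0 := by
        have h6 : 0 ≤ Real.log (r0 - ((n : ℕ) + 1) * D) := Real.log_nonneg h
        have h7 : Real.log (r0 - ((0 : ℕ) + 1) * D) ≤ Real.log r0 := by
          refine Real.log_le_log ?_ ?_
          · have : (0 : ℝ) ≤ n := Nat.cast_nonneg n
            push_cast
            nlinarith
          · push_cast
            linarith
        linarith

/-- **the first block**, from the point mass -/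
lemma first_block (hw : Walk p n0) (hm : Law m s C4) {a : ℝ} (ha : 0 < a) (ha1 : a ≤ 1) (N : ℕ) {C : ℝ} (hC : 0 < C)
    (hov : ∀ (x0 : ℝ≥0), 0 < x0 → ∀ (a : ℝ), 0 < a → a ≤ 4 → ∀ n ≤ n0, ∀ W : G → ℝ≥0, x0 ≤ mass W →
        St p m x0 n (fun _ => 0) (nm a) W ≤ ENNReal.ofReal ((2 / (x0 : ℝ)) ^ a) * St p m x0 n (fun _ => 0) (fun _ => 1) W
            + ENNReal.ofReal (C * Real.sqrt s * (x0 : ℝ) ^ (-(a + 2)) * KK p s n W))
    {M : ℝ} (hM : 1 ≤ M) {cr : ℝ} (hcr : 0 < cr)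
    (h2 : ∀ V : G → ℝ≥0, mass V = 1 → (TT p m)^[N] (nm a) V ≤ ENNReal.ofReal cr)
    {η : ℝ} (h0 : 0 < η) (hη : η ≤ 1 / 4) {b : ℕ} (hb : 2 * b ≤ n0) {r0 : ℝ} (hr0 : 8 ≤ r0) (hb1 : r0 ≤ rho s b)
    (hb2 : rho s b < rho s 0) {k : ℝ} (hk : (2 * Real.log (1 + M) + 5 + (rho s 0 - r0)) / r0 ≤ k) (hk1 : k ≤ 1)
    {H : ℝ} (hH : 1 ≤ H) (h1 : ∀ V : G → ℝ≥0, mass V = 1 → Rz p b V ≤ M → (TT p m)^[N] (nm a) V ≤ ENNReal.ofReal H) :
    (TT p m)^[N] (nm a) (dl : G → ℝ≥0) ≤ ENNReal.ofReal (H * Real.exp (a * (a + 1) / 2 * (1 - 2 * η)⁻¹ ^ 3 * k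
      + cr * (300 / M + 4 * (k / η ^ 2 / η) + 8 * C * Real.sqrt s * k))) := by
  have hs := hm.s_pos
  have hb0 : 1 ≤ b := by
    by_contra h
    have : b = 0 := by omega
    rw [this] at hb2
    exact lt_irrefl _ hb2
  have hRz : Rz p 0 (dl : G → ℝ≥0) ≤ M := by
    unfold Rz
    rw [range_zero, sum_empty]
    linarith
  have hlogM : 0 ≤ Real.log (1 + M) := Real.log_nonneg (by linarith)
  have hK : KK p s b (dl : G → ℝ≥0) ≤ k := by
    have h := KK_le_of_regular hw hs (Nat.zero_le b) (by omega) (by linarith) hM (W := (dl : G → ℝ≥0))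
      (by rw [mass_dl]; simpa using hRz)
    rw [mass_dl] at h
    refine h.trans (le_trans ?_ hk)
    push_cast
    rw [one_pow, mul_one]
    have hnum : 0 ≤ 2 * Real.log (1 + M) + 5 + rho s 0 - rho s b := by linarith
    calc (2 * Real.log (1 + M) + 5 + rho s 0 - rho s b) / rho s b
        ≤ (2 * Real.log (1 + M) + 5 + rho s 0 - rho s b) / r0 := div_le_div_of_nonneg_left hnum (by linarith) hb1
      _ ≤ (2 * Real.log (1 + M) + 5 + (rho s 0 - r0)) / r0 := div_le_div_of_nonneg_right (by linarith) (by linarith)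
  have hK0 := KK_nonneg (p := p) hs.le b (dl : G → ℝ≥0)
  have hk0 : 0 ≤ k := hK0.trans hK
  have htail : (TT p m)^[b] (fun V => if mass V < Real.toNNReal (1 - η) then 1 else 0) (dl : G → ℝ≥0)
      ≤ ENNReal.ofReal (k / η ^ 2) := by
    refine (cheb hw hm (by omega) mass_dl (c := Real.toNNReal (1 - η)) ?_).trans (ENNReal.ofReal_le_ofReal ?_)
    · rw [← NNReal.coe_lt_coe, Real.coe_toNNReal _ (by linarith)]
      push_cast
      linarith
    · rw [Real.coe_toNNReal _ (by linarith)]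
      have : (1 : ℝ) - (1 - η) = η := by ring
      rw [this]
      exact div_le_div_of_nonneg_right hK (by positivity)
  have hexit := exit_of_tail hw hm (b := b) (W := (dl : G → ℝ≥0)) h0 hη htail
  have hstep := step_real hw hm ha ha1 N hb0 hb (by linarith) hC hov (by linarith : 0 < M) (by linarith : 0 ≤ H) hcr h1 h2
    mass_dl h0 hη (by positivity) hexit hK hk1
  refine hstep.trans (ENNReal.ofReal_le_ofReal ?_)
  have hinv : 0 < (1 - 2 * η)⁻¹ := inv_pos.2 (by linarith)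
  set g := a * (a + 1) / 2 * (1 - 2 * η)⁻¹ ^ 3 * k with hg
  set e := cr * (300 / M + 4 * (k / η ^ 2 / η) + 8 * C * Real.sqrt s * k) with he
  have hM0 : 0 < M := by linarith
  have he0 : 0 ≤ e := by positivity
  have hexp := Real.add_one_le_exp (g + e)
  have h7 : 1 * e ≤ H * e := mul_le_mul_of_nonneg_right hH he0
  calc H * (1 + g) + e ≤ H * (1 + g + e) := by linarith
    _ ≤ H * Real.exp (g + e) := mul_le_mul_of_nonneg_left (by linarith) (by linarith)

end Um
end Pool.A2F
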