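import Pool.Agent.A2F.UplPlus
import Pool.Agent.A2F.LMi

/-!
# Module Upl: the estimates (U+) and (L-)
-/

set_option autoImplicit false

open MeasureTheory Finset
open scoped ENNReal NNReal

noncomputable section

namespace Pool.A2F

/-- (U+): E Z^a <= exp (- a (1-a)/2 loglog N + eps). -/
theorem upl (Θ C4 b ε : ℝ) (hΘ : 0 ≤ Θ) (hb : 0 < b) (hε : 0 < ε) :
    ∃ N0 : ℕ, ∀ N ≥ N0, ∀ s : ℝ, Win Θ N s →
    ∀ {G : Type} [Fintype G] [DecidableEq G] [AddCommGroup G] (p : G → ℝ≥0) (m : Measure ℝ≥0),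
      Walk p (4 * N) → Law m s C4 →
        (TT p m)^[N] (pm (ex b N)) (dl : G → ℝ≥0)
          ≤ ENNReal.ofReal
              (Real.exp (-(ex b N * (1 - ex b N) / 2 * Real.log (Real.log N)) + ε)) :=
  upl_plus Θ C4 b ε hΘ hb hε

/-- (L-): E Z^(-a) >= exp (a (a+1)/2 loglog N - eps). -/
theorem lmi (Θ C4 b ε : ℝ) (hΘ : 0 ≤ Θ) (hb : 0 < b) (hε : 0 < ε) :
    ∃ N0 : ℕ, ∀ N ≥ N0, ∀ s : ℝ, Win Θ N s →
    ∀ {G : Type} [Fintype G] [DecidableEq G] [AddCommGroup G] (p : G → ℝ≥0) (m : Measure ℝ≥0),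
      Walk p (4 * N) → Law m s C4 →
        ENNReal.ofReal (Real.exp (ex b N * (ex b N + 1) / 2 * Real.log (Real.log N) - ε))
          ≤ (TT p m)^[N] (nm (ex b N)) (dl : G → ℝ≥0) :=
  lmi_minus Θ C4 b ε hΘ hb hε

end Pool.A2F
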