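import Pool.Agent.A2F.Blk
import Pool.Agent.A2F.Cubic

/-!
# Module UplPlus: the estimate (U+)
-/

set_option autoImplicit false

open MeasureTheory Finset Filter
open scoped ENNReal NNReal

noncomputable section

namespace Pool.A2F

variable {G : Type} [Fintype G] [DecidableEq G] [AddCommGroup G]
variable {p : G → ℝ≥0} {m : Measure ℝ≥0} {n0 : ℕ} {s C4 : ℝ}

omit [DecidableEq G] [AddCommGroup G] in
lemma pm_eq_upp {a : ℝ} (ha : 0 < a) (V : G → ℝ≥0) :
    pm a V = ENNReal.ofReal ((mass V : ℝ) ^ a) := by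
  unfold pm
  rw [← ENNReal.ofReal_coe_nnreal, ENNReal.ofReal_rpow_of_nonneg (NNReal.coe_nonneg _) ha.le]

omit [DecidableEq G] [AddCommGroup G] in
lemma pm_cubic {a : ℝ} (ha : 0 < a) (ha1 : a < 1) (V : G → ℝ≥0) :
    pm a V + ENNReal.ofReal (a * (1 - a) / 2 + 3 * (a * (1 - a) * (2 - a) / 6))
        * ENNReal.ofReal ((mass V : ℝ) ^ 2)
      ≤ ENNReal.ofReal (1 - a - a * (1 - a) / 2 - a * (1 - a) * (2 - a) / 6)
        + (ENNReal.ofReal (a + 2 * (a * (1 - a) / 2) + 3 * (a * (1 - a) * (2 - a) / 6))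
              * (mass V : ℝ≥0∞)
          + ENNReal.ofReal (a * (1 - a) * (2 - a) / 6) * ENNReal.ofReal ((mass V : ℝ) ^ 3)) := by
  have h0 := rpow_le_cubic ha ha1 (le_refl (0 : ℝ))
  rw [Real.zero_rpow ha.ne'] at h0
  have h1 := rpow_le_cubic ha ha1 (NNReal.coe_nonneg (mass V))
  have h2 : 0 ≤ a * (1 - a) := mul_nonneg ha.le (by linarith)
  have h3 : 0 ≤ a * (1 - a) * (2 - a) := mul_nonneg h2 (by linarith)
  have hx : 0 ≤ (mass V : ℝ) := NNReal.coe_nonneg _
  rw [pm_eq_upp ha, ← ENNReal.ofReal_coe_nnreal, ← ENNReal.ofReal_mul (by linarith),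
    ← ENNReal.ofReal_mul (by linarith), ← ENNReal.ofReal_mul (by linarith),
    ← ENNReal.ofReal_add (by positivity) (mul_nonneg (by linarith) (by positivity)),
    ← ENNReal.ofReal_add (mul_nonneg (by linarith) hx) (mul_nonneg (by linarith) (by positivity)),
    ← ENNReal.ofReal_add (by linarith)
      (add_nonneg (mul_nonneg (by linarith) hx) (mul_nonneg (by linarith) (by positivity)))]
  apply ENNReal.ofReal_le_ofReal
  nlinarith [h1]

/-- one block, total mass one -/
lemma blk_pm (hw : Walk p n0) (hm : Law m s C4) {a : ℝ} (ha : 0 < a) (ha1 : a < 1) {b : ℕ}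
    (hb : b ≤ n0) {V : G → ℝ≥0} (hV : mass V = 1) {K e : ℝ} (hK : KK p s b V = K) (hK0 : 0 ≤ K)
    (he : 0 ≤ e)
    (h3 : (TT p m)^[b] (fun V => ENNReal.ofReal ((mass V : ℝ) ^ 3)) V
      ≤ ENNReal.ofReal (1 + 3 * K + K * e)) :
    (TT p m)^[b] (pm a) V
      ≤ ENNReal.ofReal (1 - a * (1 - a) / 2 * K + a * (1 - a) * (2 - a) / 6 * (K * e)) := by
  have := hm.prob
  have h2 : 0 ≤ a * (1 - a) := mul_nonneg ha.le (by linarith)
  have h3' : 0 ≤ a * (1 - a) * (2 - a) := mul_nonneg h2 (by linarith)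
  have h0 := rpow_le_cubic ha ha1 (le_refl (0 : ℝ))
  rw [Real.zero_rpow ha.ne'] at h0
  have m2 : Measurable fun V : G → ℝ≥0 => ENNReal.ofReal ((mass V : ℝ) ^ 2) :=
    ENNReal.measurable_ofReal.comp ((measurable_coe_nnreal_real.comp measurable_mass).pow_const 2)
  have m3 : Measurable fun V : G → ℝ≥0 => ENNReal.ofReal ((mass V : ℝ) ^ 3) :=
    ENNReal.measurable_ofReal.comp ((measurable_coe_nnreal_real.comp measurable_mass).pow_const 3)
  have m1 : Measurable fun V : G → ℝ≥0 => (mass V : ℝ≥0∞) :=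
    measurable_coe_nnreal_ennreal.comp measurable_mass
  have h := TTn_mono (p := p) (m := m) (fun W => pm_cubic ha ha1 W) b V
  rw [TTn_add (measurable_pm a), TTn_const_mul m2, TTn_sqmass hw hm hb,
    TTn_add measurable_const, TTn_const,
    TTn_add (m1.const_mul _), TTn_const_mul m1, TTn_const_mul m3,
    TTn_mass hw hm, hV, hK] at h
  have h5 : ENNReal.ofReal (1 - a - a * (1 - a) / 2 - a * (1 - a) * (2 - a) / 6)
        + (ENNReal.ofReal (a + 2 * (a * (1 - a) / 2) + 3 * (a * (1 - a) * (2 - a) / 6))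
              * ((1 : ℝ≥0) : ℝ≥0∞)
          + ENNReal.ofReal (a * (1 - a) * (2 - a) / 6)
            * (TT p m)^[b] (fun V => ENNReal.ofReal ((mass V : ℝ) ^ 3)) V)
      ≤ ENNReal.ofReal ((1 - a - a * (1 - a) / 2 - a * (1 - a) * (2 - a) / 6)
        + ((a + 2 * (a * (1 - a) / 2) + 3 * (a * (1 - a) * (2 - a) / 6))
          + a * (1 - a) * (2 - a) / 6 * (1 + 3 * K + K * e))) := by
    have c0 : 0 ≤ 1 - a - a * (1 - a) / 2 - a * (1 - a) * (2 - a) / 6 := by linarith
    have c1 : 0 ≤ a + 2 * (a * (1 - a) / 2) + 3 * (a * (1 - a) * (2 - a) / 6) := by linarith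
    have c3 : 0 ≤ a * (1 - a) * (2 - a) / 6 := by linarith
    generalize 1 - a - a * (1 - a) / 2 - a * (1 - a) * (2 - a) / 6 = x0 at *
    generalize a + 2 * (a * (1 - a) / 2) + 3 * (a * (1 - a) * (2 - a) / 6) = x1 at *
    generalize a * (1 - a) * (2 - a) / 6 = x3 at *
    rw [ENNReal.ofReal_add c0 (by positivity), ENNReal.ofReal_add c1 (by positivity),
      ENNReal.ofReal_mul c3, ENNReal.coe_one, mul_one]
    gcongr
  have h6 := h.trans h5
  rw [← ENNReal.ofReal_mul (by linarith)] at h6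
  refine (ENNReal.le_sub_of_add_le_right ENNReal.ofReal_ne_top h6).trans ?_
  rw [← ENNReal.ofReal_sub _ (mul_nonneg (by linarith) (by positivity))]
  apply ENNReal.ofReal_le_ofReal
  apply le_of_eq
  push_cast
  ring

omit [DecidableEq G] [AddCommGroup G] in
/-- splitting on the bad set -/
lemma pm_bad_le {a : ℝ} (ha : 0 < a) (ha1 : a < 1) (β : ℝ) (A : Set (G → ℝ≥0)) (V : G → ℝ≥0) :
    A.indicator (pm a) V ≤ ENNReal.ofReal (Real.exp (a * β)) * A.indicator (fun _ => 1) V
      + ENNReal.ofReal (Real.exp ((a - 1) * β)) * (mass V : ℝ≥0∞) := by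
  by_cases hA : V ∈ A
  · rw [Set.indicator_of_mem hA, Set.indicator_of_mem hA, mul_one, pm_eq_upp ha,
      ← ENNReal.ofReal_coe_nnreal, ← ENNReal.ofReal_mul (Real.exp_pos _).le,
      ← ENNReal.ofReal_add (Real.exp_pos _).le (by positivity)]
    apply ENNReal.ofReal_le_ofReal
    have hx : 0 ≤ (mass V : ℝ) := NNReal.coe_nonneg _
    generalize (mass V : ℝ) = x at hx
    have e1 : Real.exp (a * β) = Real.exp β ^ a := by
      rw [← Real.exp_mul, mul_comm]
    have e2 : Real.exp ((a - 1) * β) = Real.exp β ^ (a - 1) := by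
      rw [← Real.exp_mul, mul_comm]
    rcases le_total x (Real.exp β) with h | h
    · have := Real.rpow_le_rpow hx h ha.le
      rw [← e1] at this
      have h2 : 0 ≤ Real.exp ((a - 1) * β) * x := by positivity
      linarith
    · have hx0 : 0 < x := (Real.exp_pos β).trans_le h
      have h3 : x ^ (a - 1) ≤ Real.exp β ^ (a - 1) :=
        Real.rpow_le_rpow_of_nonpos (Real.exp_pos β) h (by linarith)
      have h4 : x ^ a = x ^ (a - 1) * x := by
        rw [Real.rpow_sub_one hx0.ne', div_mul_cancel₀ _ hx0.ne']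
      rw [h4, e2]
      have h5 := mul_le_mul_of_nonneg_right h3 hx0.le
      have h6 := Real.exp_pos (a * β)
      linarith
  · rw [Set.indicator_of_notMem hA]
    exact zero_le

/-- one step of the recursion -/
lemma step_pm (hw : Walk p n0) (hm : Law m s C4) {a : ℝ} (ha : 0 < a) (ha1 : a < 1)
    {τ b : ℕ} {good : Set (G → ℝ≥0)} (hg : MeasurableSet good)
    (hsm : ∀ W ∈ good, ∀ c : ℝ≥0, c ≠ 0 → c • W ∈ good) {β c' : ℝ}
    (hP : (TT p m)^[τ] (goodᶜ.indicator (fun _ => 1)) dl ≤ ENNReal.ofReal (Real.exp (-β)))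
    (hblk : ∀ W ∈ good, mass W = 1 → (TT p m)^[b] (pm a) W ≤ ENNReal.ofReal (1 - c')) :
    (TT p m)^[τ + b] (pm a) dl ≤ ENNReal.ofReal (1 - c') * (TT p m)^[τ] (pm a) dl
      + ENNReal.ofReal (2 * Real.exp (-((1 - a) * β))) := by
  have := hm.prob
  have m1 : Measurable fun V : G → ℝ≥0 => (mass V : ℝ≥0∞) :=
    measurable_coe_nnreal_ennreal.comp measurable_mass
  have mi : Measurable (goodᶜ.indicator (fun _ => 1) : (G → ℝ≥0) → ℝ≥0∞) :=
    measurable_const.indicator hg.compl
  have hpt : ∀ V : G → ℝ≥0, (TT p m)^[b] (pm a) V ≤ ENNReal.ofReal (1 - c') * pm a V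
      + (ENNReal.ofReal (Real.exp (a * β)) * goodᶜ.indicator (fun _ => 1) V
      + ENNReal.ofReal (Real.exp ((a - 1) * β)) * (mass V : ℝ≥0∞)) := by
    intro V
    by_cases hV : V ∈ good
    · refine le_trans ?_ le_self_add
      by_cases h0 : mass V = 0
      · have hV0 : V = (0 : ℝ≥0) • V := by
          have : ∀ x, V x = 0 := by
            intro x
            have h1 : V x ≤ mass V := Finset.single_le_sum (f := V) (fun _ _ => zero_le)
              (Finset.mem_univ x)
            rw [h0] at h1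
            exact le_antisymm h1 zero_le
          funext x
          simp [this x]
        rw [hV0, TTn_pm_smul ha.le, ENNReal.coe_zero, ENNReal.zero_rpow_of_pos ha, zero_mul]
        exact zero_le
      · have h1 : V = mass V • ((mass V)⁻¹ • V) := by
          rw [smul_smul, mul_inv_cancel₀ h0, one_smul]
        have h2 : mass ((mass V)⁻¹ • V) = 1 := by
          rw [op_mass_smul, inv_mul_cancel₀ h0]
        have h3 := hblk _ (hsm V hV _ (inv_ne_zero h0)) h2
        have h4 : (TT p m)^[b] (pm a) V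
            = (mass V : ℝ≥0∞) ^ a * (TT p m)^[b] (pm a) ((mass V)⁻¹ • V) := by
          conv_lhs => rw [h1]
          rw [TTn_pm_smul ha.le]
        rw [h4, mul_comm]
        unfold pm
        gcongr
        exact h3
    · refine le_trans ?_ le_add_self
      have h1 : (TT p m)^[b] (pm a) V ≤ pm a V :=
        TTn_anti_n (p := p) (m := m) (fun W => TT_pm_le hw hm ha ha1 W) (Nat.zero_le b) V
      have h2 := pm_bad_le ha ha1 β goodᶜ V
      rw [Set.indicator_of_mem (Set.mem_compl hV)] at h2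
      exact h1.trans h2
  rw [Function.iterate_add_apply]
  refine (TTn_mono hpt τ dl).trans ?_
  rw [TTn_add ((measurable_pm a).const_mul _),
    TTn_const_mul (measurable_pm a), TTn_add (mi.const_mul _),
    TTn_const_mul mi, TTn_const_mul m1, TTn_mass hw hm]
  gcongr
  have hd : mass (dl : G → ℝ≥0) = 1 := by simp [mass, dl]
  rw [hd, ENNReal.coe_one, mul_one]
  calc ENNReal.ofReal (Real.exp (a * β)) * (TT p m)^[τ] (goodᶜ.indicator (fun _ => 1)) dl
        + ENNReal.ofReal (Real.exp ((a - 1) * β))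
      ≤ ENNReal.ofReal (Real.exp (a * β)) * ENNReal.ofReal (Real.exp (-β))
        + ENNReal.ofReal (Real.exp ((a - 1) * β)) := by gcongr
    _ = ENNReal.ofReal (2 * Real.exp (-((1 - a) * β))) := by
        rw [← ENNReal.ofReal_mul (Real.exp_pos _).le, ← Real.exp_add,
          ← ENNReal.ofReal_add (Real.exp_pos _).le (Real.exp_pos _).le]
        congr 1
        have e1 : a * β + -β = -((1 - a) * β) := by ring
        have e2 : (a - 1) * β = -((1 - a) * β) := by ring
        rw [e1, e2]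
        ring

/-- everything which is needed of `L = log log N` -/
lemma ev_upp {b ε : ℝ} (hb : 0 < b) (hε : 0 < ε) : ∀ᶠ L : ℝ in atTop,
    4 ≤ L ∧ b / Real.sqrt L < 1 ∧
      b / Real.sqrt L / 2 * (2 + 20 * Real.log L) ≤ ε / 2 ∧
      2 * L ^ 5 * Real.exp (b * (b + 1)) * Real.exp (-Real.sqrt L) ≤ ε / 2 := by
  have t1 : Tendsto (fun L : ℝ => b / Real.sqrt L) atTop (nhds 0) :=
    tendsto_const_nhds.div_atTop Real.tendsto_sqrt_atTop
  have h1 := t1.eventually (gt_mem_nhds one_pos)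
  have h2 := t1.eventually (gt_mem_nhds (show (0 : ℝ) < ε / 4 by positivity))
  have h3 := (isLittleO_log_rpow_atTop (show (0 : ℝ) < 1 / 2 by norm_num)).bound
    (show (0 : ℝ) < ε / (40 * b) by positivity)
  have h4 := Real.tendsto_sqrt_atTop.eventually
    ((isLittleO_pow_exp_pos_mul_atTop (k := 10) (one_pos)).bound
      (show (0 : ℝ) < ε / (4 * Real.exp (b * (b + 1))) by positivity))
  filter_upwards [h1, h2, h3, h4, eventually_ge_atTop (4 : ℝ)] with L a1 a2 a3 a4 a5
  have hL : 0 < L := by linarith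
  have hs : 0 < Real.sqrt L := Real.sqrt_pos.mpr hL
  refine ⟨a5, a1, ?_, ?_⟩
  · rw [← Real.sqrt_eq_rpow, Real.norm_eq_abs, Real.norm_eq_abs,
      abs_of_nonneg (Real.log_nonneg (by linarith)), abs_of_nonneg hs.le] at a3
    have h6 : b / Real.sqrt L * Real.log L ≤ ε / 40 := by
      calc b / Real.sqrt L * Real.log L ≤ b / Real.sqrt L * (ε / (40 * b) * Real.sqrt L) := by
            gcongr
        _ = ε / 40 := by field_simp
    nlinarith [h6, a2]
  · rw [one_mul, Real.norm_eq_abs, Real.norm_eq_abs, abs_of_nonneg (by positivity),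
      abs_of_nonneg (Real.exp_pos _).le] at a4
    have h7 : L ^ 5 = Real.sqrt L ^ 10 := by
      have : Real.sqrt L ^ 2 = L := Real.sq_sqrt hL.le
      calc L ^ 5 = (Real.sqrt L ^ 2) ^ 5 := by rw [this]
        _ = Real.sqrt L ^ 10 := by ring
    rw [h7, Real.exp_neg]
    have he := Real.exp_pos (Real.sqrt L)
    have he2 := Real.exp_pos (b * (b + 1))
    calc 2 * Real.sqrt L ^ 10 * Real.exp (b * (b + 1)) * (Real.exp (Real.sqrt L))⁻¹
        ≤ 2 * (ε / (4 * Real.exp (b * (b + 1))) * Real.exp (Real.sqrt L))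
            * Real.exp (b * (b + 1)) * (Real.exp (Real.sqrt L))⁻¹ := by gcongr
      _ = ε / 2 := by field_simp; ring

/-- the final numerical inequality -/
lemma num_upp {b ε L a δ β q : ℝ} {n : ℕ} (hb : 0 < b) (hε : 0 < ε) (hL : 4 ≤ L)
    (ha : a = b / Real.sqrt L) (ha1 : a < 1) (h1 : a / 2 * (2 + 20 * Real.log L) ≤ ε / 2)
    (h2 : 2 * L ^ 5 * Real.exp (b * (b + 1)) * Real.exp (-Real.sqrt L) ≤ ε / 2)
    (hδ : δ = L⁻¹ ^ 4) (hβ : β = (b + 1) * Real.sqrt L)
    (hn1 : (n : ℝ) * δ ≤ L) (hn2 : L - 20 * Real.log L ≤ (n : ℝ) * δ)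
    (hq : q = 1 - a * (1 - a) / 2 * (δ * (1 - 2 / L))) :
    0 ≤ q ∧ q ≤ 1 ∧ q ^ n + n * (2 * Real.exp (-((1 - a) * β)))
      ≤ Real.exp (-(a * (1 - a) / 2 * L) + ε) := by
  have hL0 : 0 < L := by linarith
  have hs : 0 < Real.sqrt L := Real.sqrt_pos.mpr hL0
  have ha0 : 0 < a := by rw [ha]; positivity
  have hδ0 : 0 < δ := by rw [hδ]; positivity
  have hδ1 : δ ≤ 1 := by
    rw [hδ]
    exact pow_le_one₀ (by positivity) (inv_le_one_of_one_le₀ (by linarith))
  have hlog : 0 ≤ Real.log L := Real.log_nonneg (by linarith)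
  have hal : 0 < a * (1 - a) / 2 := by
    have := mul_pos ha0 (sub_pos.mpr ha1)
    linarith
  have hal2 : a * (1 - a) / 2 ≤ a / 2 := by nlinarith
  have h2L : 0 < 1 - 2 / L := by
    have : 2 / L ≤ 1 / 2 := by
      rw [div_le_div_iff₀ hL0 (by norm_num)]
      linarith
    linarith
  have h2L1 : 1 - 2 / L ≤ 1 := by
    have : 0 < 2 / L := by positivity
    linarith
  have hd1 : δ * (1 - 2 / L) ≤ 1 := by nlinarith
  have hd0 : 0 < δ * (1 - 2 / L) := mul_pos hδ0 h2L
  have hq0 : 0 ≤ q := by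
    rw [hq]
    nlinarith
  have hq1 : q ≤ 1 := by
    rw [hq]
    have := mul_pos hal hd0
    linarith
  refine ⟨hq0, hq1, ?_⟩
  have hsL : a * Real.sqrt L = b := by
    rw [ha]; field_simp
  have hLs : L = Real.sqrt L * Real.sqrt L := (Real.mul_self_sqrt hL0.le).symm
  have hqn : q ^ n ≤ Real.exp (-(a * (1 - a) / 2 * L) + ε / 2) := by
    have e1 : q ≤ Real.exp (-(a * (1 - a) / 2 * (δ * (1 - 2 / L)))) := by
      have := Real.add_one_le_exp (-(a * (1 - a) / 2 * (δ * (1 - 2 / L))))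
      rw [hq]
      linarith
    calc q ^ n ≤ Real.exp (-(a * (1 - a) / 2 * (δ * (1 - 2 / L)))) ^ n := pow_le_pow_left₀ hq0 e1 n
      _ = Real.exp (n * -(a * (1 - a) / 2 * (δ * (1 - 2 / L)))) := (Real.exp_nat_mul _ _).symm
      _ ≤ Real.exp (-(a * (1 - a) / 2 * L) + ε / 2) := by
        apply Real.exp_le_exp.mpr
        have e2 : (L - 20 * Real.log L) * (1 - 2 / L) ≤ (n : ℝ) * δ * (1 - 2 / L) :=
          mul_le_mul_of_nonneg_right hn2 h2L.le
        have e3 : L - 2 - 20 * Real.log L ≤ (L - 20 * Real.log L) * (1 - 2 / L) := by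
          have : (L - 20 * Real.log L) * (1 - 2 / L)
              = L - 2 - 20 * Real.log L + 40 * (Real.log L / L) := by
            field_simp
            ring
          rw [this]
          have : 0 ≤ Real.log L / L := div_nonneg hlog hL0.le
          linarith
        have e4 : a * (1 - a) / 2 * (L - 2 - 20 * Real.log L)
            ≤ a * (1 - a) / 2 * ((n : ℝ) * δ * (1 - 2 / L)) :=
          mul_le_mul_of_nonneg_left (e3.trans e2) hal.le
        have e5 : a * (1 - a) / 2 * (2 + 20 * Real.log L) ≤ ε / 2 :=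
          (mul_le_mul_of_nonneg_right hal2 (by positivity)).trans h1
        have e6 : (n : ℝ) * -(a * (1 - a) / 2 * (δ * (1 - 2 / L)))
            = -(a * (1 - a) / 2 * ((n : ℝ) * δ * (1 - 2 / L))) := by ring
        rw [e6]
        nlinarith
  have hnn : (n : ℝ) ≤ L ^ 5 := by
    have e1 : (n : ℝ) = (n : ℝ) * δ * L ^ 4 := by
      rw [hδ]; field_simp
    rw [e1]
    calc (n : ℝ) * δ * L ^ 4 ≤ L * L ^ 4 := by gcongr
      _ = L ^ 5 := by ring
  have hlast : (n : ℝ) * (2 * Real.exp (-((1 - a) * β)))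
      ≤ Real.exp (-(a * (1 - a) / 2 * L)) * (ε / 2) := by
    have e1 : (1 - a) * β = (b + 1) * Real.sqrt L - b * (b + 1) := by
      rw [hβ]
      linear_combination (-(b + 1)) * hsL
    have e2 : a * (1 - a) / 2 * L ≤ b * Real.sqrt L := by
      have : a * L = b * Real.sqrt L := by
        calc a * L = a * (Real.sqrt L * Real.sqrt L) := by rw [← hLs]
          _ = (a * Real.sqrt L) * Real.sqrt L := by ring
          _ = b * Real.sqrt L := by rw [hsL]
      nlinarith
    have e3 : Real.exp (-((1 - a) * β))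
        ≤ Real.exp (-(a * (1 - a) / 2 * L)) * (Real.exp (b * (b + 1)) * Real.exp (-Real.sqrt L)) := by
      rw [← Real.exp_add, ← Real.exp_add]
      apply Real.exp_le_exp.mpr
      rw [e1]
      nlinarith
    calc (n : ℝ) * (2 * Real.exp (-((1 - a) * β)))
        ≤ L ^ 5 * (2 * (Real.exp (-(a * (1 - a) / 2 * L))
            * (Real.exp (b * (b + 1)) * Real.exp (-Real.sqrt L)))) := by gcongr
      _ = Real.exp (-(a * (1 - a) / 2 * L))
            * (2 * L ^ 5 * Real.exp (b * (b + 1)) * Real.exp (-Real.sqrt L)) := by ring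
      _ ≤ Real.exp (-(a * (1 - a) / 2 * L)) * (ε / 2) := by gcongr
  have hE := Real.exp_pos (-(a * (1 - a) / 2 * L))
  have hx := Real.add_one_le_exp (ε / 2)
  calc q ^ n + n * (2 * Real.exp (-((1 - a) * β)))
      ≤ Real.exp (-(a * (1 - a) / 2 * L) + ε / 2)
        + Real.exp (-(a * (1 - a) / 2 * L)) * (ε / 2) := add_le_add hqn hlast
    _ = Real.exp (-(a * (1 - a) / 2 * L)) * (Real.exp (ε / 2) + ε / 2) := by
        rw [Real.exp_add]; ring
    _ ≤ Real.exp (-(a * (1 - a) / 2 * L)) * (Real.exp (ε / 2) * Real.exp (ε / 2)) := by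
        gcongr
        nlinarith
    _ = Real.exp (-(a * (1 - a) / 2 * L) + ε) := by
        rw [← Real.exp_add, ← Real.exp_add]
        congr 1
        ring

/-- (U+): E Z^a <= exp (- a (1-a)/2 loglog N + eps). -/
theorem upl_plus (Θ C4 b ε : ℝ) (hΘ : 0 ≤ Θ) (hb : 0 < b) (hε : 0 < ε) :
    ∃ N0 : ℕ, ∀ N ≥ N0, ∀ s : ℝ, Win Θ N s →
    ∀ {G : Type} [Fintype G] [DecidableEq G] [AddCommGroup G] (p : G → ℝ≥0) (m : Measure ℝ≥0),
      Walk p (4 * N) → Law m s C4 →
        (TT p m)^[N] (pm (ex b N)) (dl : G → ℝ≥0)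
          ≤ ENNReal.ofReal
              (Real.exp (-(ex b N * (1 - ex b N) / 2 * Real.log (Real.log N)) + ε)) := by
  obtain ⟨N1, h1⟩ := blocks Θ C4 (b + 1) hΘ (by linarith)
  have ht : Tendsto (fun N : ℕ => Real.log (Real.log (N : ℝ))) atTop atTop :=
    Real.tendsto_log_atTop.comp (Real.tendsto_log_atTop.comp tendsto_natCast_atTop_atTop)
  obtain ⟨N2, h2⟩ := eventually_atTop.mp (ht.eventually (ev_upp hb hε))
  refine ⟨max N1 N2, fun N hN s hW => ?_⟩
  obtain ⟨n, τ, hn1, hn2, hτ, hτN, hB⟩ := h1 N (le_of_max_le_left hN) s hW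
  obtain ⟨hL, ha1, hx1, hx2⟩ := h2 N (le_of_max_le_right hN)
  intro G _ _ _ p m hw hm
  have := hm.prob
  obtain ⟨good, hmeas, hsm, hbad, hgd⟩ := hB p m hw hm
  set L := Real.log (Real.log (N : ℝ)) with hLdef
  have hexdef : ex b N = b / Real.sqrt L := rfl
  set a := ex b N with hadef
  have hL0 : 0 < L := by linarith
  have hs : 0 < Real.sqrt L := Real.sqrt_pos.mpr hL0
  have ha0 : 0 < a := by rw [hexdef]; positivity
  have ha1' : a < 1 := by rw [hexdef]; exact ha1
  obtain ⟨hq0, hq1, hfin⟩ := num_upp (q := 1 - a * (1 - a) / 2 * (L⁻¹ ^ 4 * (1 - 2 / L)))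
    hb hε hL hexdef ha1' (by rw [hexdef]; exact hx1) hx2 rfl rfl hn1 hn2 rfl
  have hstep : ∀ j < n, (TT p m)^[τ (j + 1)] (pm a) dl
      ≤ ENNReal.ofReal (1 - a * (1 - a) / 2 * (L⁻¹ ^ 4 * (1 - 2 / L))) * (TT p m)^[τ j] (pm a) dl
        + ENNReal.ofReal (2 * Real.exp (-((1 - a) * ((b + 1) * Real.sqrt L)))) := by
    intro j hj
    have hjt := hτ j hj
    have hmono : ∀ i, j + 1 + i ≤ n → τ (j + 1) ≤ τ (j + 1 + i) := by
      intro i
      induction i with
      | zero => intro _; exact le_rfl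
      | succ i ih =>
        intro hi
        exact (ih (by omega)).trans (hτ (j + 1 + i) (by omega)).le
    have hle : τ (j + 1) ≤ N := by
      have h := hmono (n - (j + 1)) (by omega)
      rw [show j + 1 + (n - (j + 1)) = n by omega] at h
      exact h.trans hτN
    have e : τ (j + 1) = τ j + (τ (j + 1) - τ j) := by omega
    have key := step_pm hw hm ha0 ha1' (τ := τ j) (b := τ (j + 1) - τ j) (hmeas j)
      (hsm j) (β := (b + 1) * Real.sqrt L)
      (c' := a * (1 - a) / 2 * (L⁻¹ ^ 4 * (1 - 2 / L))) (hbad j hj) ?_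
    · rw [← e] at key
      exact key
    · intro W hWg hW1
      obtain ⟨k1, k2, k3⟩ := hgd j hj W hWg hW1
      have hc1 : mass ((conv p)^[τ j] W) = 1 := by
        rw [mass_conv_iter hw, hW1]
      refine (TTn_pm_conv hw hm ha0 ha1' _ (τ j) W).trans ?_
      have hLi : 0 < L⁻¹ := by positivity
      have hLi1 : L⁻¹ ≤ 1 / 4 := by
        rw [inv_le_comm₀ hL0 (by norm_num)]
        norm_num
        linarith
      have hδ0 : 0 < L⁻¹ ^ 4 := by positivity
      have hK0 : 0 ≤ KK p s (τ (j + 1) - τ j) ((conv p)^[τ j] W) :=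
        le_trans (mul_nonneg hδ0.le (by linarith)) k1
      refine (blk_pm hw hm ha0 ha1' (by omega) hc1 rfl hK0 hLi.le k3).trans ?_
      apply ENNReal.ofReal_le_ofReal
      generalize KK p s (τ (j + 1) - τ j) ((conv p)^[τ j] W) = K at *
      have hal : 0 < a * (1 - a) := mul_pos ha0 (sub_pos.mpr ha1')
      have hdiv : 2 / L = 2 * L⁻¹ := by rw [div_eq_mul_inv]
      rw [hdiv]
      have g1 : a * (1 - a) * (2 - a) / 6 * (K * L⁻¹) ≤ a * (1 - a) / 2 * (K * L⁻¹) := by
        apply mul_le_mul_of_nonneg_right _ (mul_nonneg hK0 hLi.le)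
        nlinarith
      have g2 : L⁻¹ ^ 4 * (1 - 2 * L⁻¹) ≤ K * (1 - L⁻¹) := by
        have g3 : L⁻¹ ^ 4 * (1 - L⁻¹) * (1 - L⁻¹) ≤ K * (1 - L⁻¹) :=
          mul_le_mul_of_nonneg_right k1 (by linarith)
        nlinarith [mul_pos hδ0 (mul_pos hLi hLi)]
      have g4 := mul_le_mul_of_nonneg_left g2 (by linarith : 0 ≤ a * (1 - a) / 2)
      nlinarith
  have hind : ∀ j ≤ n, (TT p m)^[τ j] (pm a) dl
      ≤ ENNReal.ofReal ((1 - a * (1 - a) / 2 * (L⁻¹ ^ 4 * (1 - 2 / L))) ^ j
        + j * (2 * Real.exp (-((1 - a) * ((b + 1) * Real.sqrt L))))) := by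
    intro j
    induction j with
    | zero =>
      intro _
      have h0 := TTn_anti_n (p := p) (m := m) (fun W => TT_pm_le hw hm ha0 ha1' W)
        (Nat.zero_le (τ 0)) (dl : G → ℝ≥0)
      refine h0.trans ?_
      have hd : mass (dl : G → ℝ≥0) = 1 := by simp [mass, dl]
      simp [pm, hd]
    | succ j ih =>
      intro hj
      refine (hstep j (by omega)).trans ?_
      have hd0 : 0 ≤ 2 * Real.exp (-((1 - a) * ((b + 1) * Real.sqrt L))) := by positivity
      generalize (1 - a * (1 - a) / 2 * (L⁻¹ ^ 4 * (1 - 2 / L))) = q at *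
      generalize (2 * Real.exp (-((1 - a) * ((b + 1) * Real.sqrt L)))) = d at *
      calc ENNReal.ofReal q * (TT p m)^[τ j] (pm a) dl + ENNReal.ofReal d
          ≤ ENNReal.ofReal q * ENNReal.ofReal (q ^ j + j * d) + ENNReal.ofReal d := by
            gcongr
            exact ih (by omega)
        _ = ENNReal.ofReal (q * (q ^ j + j * d) + d) := by
            rw [← ENNReal.ofReal_mul hq0, ← ENNReal.ofReal_add (by positivity) hd0]
        _ ≤ ENNReal.ofReal (q ^ (j + 1) + ((j + 1 : ℕ) : ℝ) * d) := by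
            apply ENNReal.ofReal_le_ofReal
            push_cast
            have : q * (j * d) ≤ 1 * (j * d) :=
              mul_le_mul_of_nonneg_right hq1 (by positivity)
            rw [pow_succ]
            nlinarith
  refine (TTn_anti_n (p := p) (m := m) (fun W => TT_pm_le hw hm ha0 ha1' W) hτN _).trans ?_
  exact (hind n le_rfl).trans (ENNReal.ofReal_le_ofReal hfin)

end Pool.A2F
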